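import Pool.Agent.Lib.MP_4b1228_nt.GS.St3

/-! Summation by parts in two variables and the inequality of van der Corput. -/

namespace Pool.Agent.Lib.MP_4b1228_nt.GS

open Finset Pool.Agent.Lib.MP_9d27bc_nt.C
open scoped Classical ComplexConjugate

namespace Abel

theorem mem (a b : ℤ) (L₁ L₂ : ℕ) (v : GI) : v ∈ rct a b L₁ L₂ ↔
    a ≤ v.re ∧ v.re < a + L₁ ∧ b ≤ v.im ∧ v.im < b + L₂ := by
  simp only [rct, mem_image, mem_product, mem_Ico]
  constructor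
  · rintro ⟨w, ⟨⟨h1, h2⟩, h3, h4⟩, rfl⟩
    exact ⟨h1, h2, h3, h4⟩
  · rintro ⟨h1, h2, h3, h4⟩
    exact ⟨(v.re, v.im), ⟨⟨h1, h2⟩, h3, h4⟩, rfl⟩

theorem sum_rct {M : Type} [AddCommMonoid M] (a b : ℤ) (L₁ L₂ : ℕ) (g : GI → M) :
    ∑ n ∈ rct a b L₁ L₂, g n = ∑ i ∈ range L₁, ∑ j ∈ range L₂, g ⟨a + i, b + j⟩ := by
  rw [← sum_product']
  refine sum_nbij' (fun n => ((n.re - a).toNat, (n.im - b).toNat))
    (fun w => ⟨a + w.1, b + w.2⟩) (fun n h => ?_) (fun w h => ?_) (fun n h => ?_) (fun w _ => ?_)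
    fun n h => ?_
  · rw [mem] at h
    simp only [mem_product, mem_range]
    omega
  · simp only [mem_product, mem_range] at h
    simp only [mem]
    omega
  · rw [mem] at h
    ext <;> simp only <;> omega
  · simp
  · rw [mem] at h
    congr 1
    ext <;> simp only <;> omega

theorem card (a b : ℤ) (L₁ L₂ : ℕ) : #(rct a b L₁ L₂) = L₁ * L₂ := by
  rw [card_eq_sum_ones, sum_rct]
  simp

theorem parts (u w : ℕ → ℂ) (p : ℕ) : ∑ i ∈ range (p + 1), u i * w i =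
    (∑ i ∈ range (p + 1), u i) * w p -
      ∑ k ∈ range p, (∑ i ∈ range (k + 1), u i) * (w (k + 1) - w k) := by
  induction p with
  | zero => simp
  | succ p ih =>
    rw [sum_range_succ, ih, sum_range_succ u (p + 1),
      sum_range_succ (fun k => (∑ i ∈ range (k + 1), u i) * (w (k + 1) - w k)) p]
    ring

theorem one (u w : ℕ → ℂ) (p : ℕ) {K X₀ X₁ : ℝ} (hu : ∀ l ≤ p + 1, ‖∑ i ∈ range l, u i‖ ≤ K)
    (h0 : ‖w p‖ ≤ X₀) (h1 : ∀ k < p, ‖w (k + 1) - w k‖ ≤ X₁) :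
    ‖∑ i ∈ range (p + 1), u i * w i‖ ≤ K * (X₀ + p * X₁) := by
  have k0 : 0 ≤ K := (norm_nonneg _).trans (hu 0 (by omega))
  rw [parts, mul_add]
  refine (norm_sub_le _ _).trans (add_le_add ?_ ?_)
  · rw [norm_mul]
    exact mul_le_mul (hu _ le_rfl) h0 (norm_nonneg _) k0
  · refine (norm_sum_le _ _).trans ((sum_le_card_nsmul _ _ (K * X₁) fun k hk => ?_).trans ?_)
    · rw [mem_range] at hk
      rw [norm_mul]
      exact mul_le_mul (hu _ (by omega)) (h1 k hk) (norm_nonneg _) k0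
    · rw [card_range, nsmul_eq_mul]
      exact le_of_eq (by ring)

theorem two (F W : ℕ → ℕ → ℂ) (p q : ℕ) {K W₀ W₁ W₂ : ℝ}
    (hF : ∀ l₁ ≤ p + 1, ∀ l₂ ≤ q + 1, ‖∑ i ∈ range l₁, ∑ j ∈ range l₂, F i j‖ ≤ K)
    (h0 : ‖W p q‖ ≤ W₀) (h1 : ∀ k < p, ‖W (k + 1) q - W k q‖ ≤ W₁)
    (h2 : ∀ l < q, ‖W p (l + 1) - W p l‖ ≤ W₁)
    (h3 : ∀ k < p, ∀ l < q, ‖W (k + 1) (l + 1) - W (k + 1) l - W k (l + 1) + W k l‖ ≤ W₂) :
    ‖∑ i ∈ range (p + 1), ∑ j ∈ range (q + 1), F i j * W i j‖ ≤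
      K * (W₀ + ((p : ℝ) + q) * W₁ + (p : ℝ) * q * W₂) := by
  simp only [parts (F _) (W _) q]
  rw [sum_sub_distrib, sum_comm (t := range q)]
  refine (norm_sub_le _ _).trans ((add_le_add
    (one _ (fun i => W i q) p (fun l hl => hF l hl _ le_rfl) h0 h1) ((norm_sum_le _ _).trans
      (sum_le_card_nsmul _ _ (K * (W₁ + p * W₂)) fun l hl => ?_))).trans ?_)
  · rw [mem_range] at hl
    refine one _ (fun i => W i (l + 1) - W i l) p (fun k hk => hF k hk _ (by omega)) (h2 l hl)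
      fun k hk => le_of_eq_of_le (congrArg _ (by ring)) (h3 k hk l hl)
  · rw [card_range, nsmul_eq_mul]
    exact le_of_eq (by ring)

theorem shift (a b : ℤ) (L₁ L₂ H : ℕ) (G : GI → ℂ) {h : GI} (hh : h ∈ rct 0 0 H H) :
    ∑ n ∈ rct (a - H) (b - H) (L₁ + H) (L₂ + H), (if n + h ∈ rct a b L₁ L₂ then G (n + h) else 0) =
      ∑ m ∈ rct a b L₁ L₂, G m := by
  rw [← sum_filter]
  refine sum_nbij' (· + h) (· - h) (fun n hn => (mem_filter.1 hn).2) (fun m hm => ?_)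
    (fun n _ => add_sub_cancel_right _ _) (fun m _ => sub_add_cancel _ _) fun _ _ => rfl
  rw [mem_filter, sub_add_cancel]
  refine ⟨?_, hm⟩
  rw [mem] at hh hm ⊢
  simp only [Zsqrtd.re_sub, Zsqrtd.im_sub]
  push_cast
  omega

end Abel

open Abel

theorem abel : AbelSt := by
  refine ⟨mem, Abel.card, fun a b L₁ L₂ f w K W₀ W₁ W₂ p0 p1 p2 hF h0 h1 h2 h3 => ?_⟩
  have k0 : 0 ≤ K := (norm_nonneg _).trans (hF 0 (by omega) 0 (by omega))
  rw [sum_rct]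
  rcases L₁ with _ | p
  · rw [sum_range_zero, norm_zero]
    positivity
  rcases L₂ with _ | q
  · simp only [sum_range_zero, sum_const_zero, norm_zero]
    positivity
  have m : ∀ i j : ℕ, i ≤ p → j ≤ q → (⟨a + i, b + j⟩ : GI) ∈ rct a b (p + 1) (q + 1) :=
    fun i j hi hj => by
      simp only [mem]
      omega
  have e1 : ∀ i j : ℕ, (⟨a + i, b + j⟩ : GI) + 1 = ⟨a + (i + 1 : ℕ), b + j⟩ := fun i j => by
    ext <;> simp [add_assoc]
  have e2 : ∀ i j : ℕ, (⟨a + i, b + j⟩ : GI) + ⟨0, 1⟩ = ⟨a + i, b + (j + 1 : ℕ)⟩ := fun i j => by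
    ext <;> simp [add_assoc]
  have e3 : ∀ i j : ℕ, (⟨a + i, b + j⟩ : GI) + ⟨1, 1⟩ = ⟨a + (i + 1 : ℕ), b + (j + 1 : ℕ)⟩ :=
    fun i j => by ext <;> simp [add_assoc]
  refine (two (fun i j => f ⟨a + i, b + j⟩) (fun i j => w ⟨a + i, b + j⟩) p q (K := K) (W₀ := W₀)
    (W₁ := W₁) (W₂ := W₂) (fun l₁ a₁ l₂ a₂ => sum_rct a b l₁ l₂ f ▸ hF l₁ a₁ l₂ a₂)
    (h0 _ (m _ _ le_rfl le_rfl)) (fun k hk => ?_) (fun l hl => ?_) fun k hk l hl => ?_).trans ?_
  · have := h1 _ (m k q hk.le le_rfl)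
    rw [e1] at this
    exact this (m _ _ hk le_rfl)
  · have := h2 _ (m p l le_rfl hl.le)
    rw [e2] at this
    exact this (m _ _ le_rfl hl)
  · have := h3 _ (m k l hk.le hl.le)
    rw [e1, e2, e3] at this
    exact this (m _ _ hk hl)
  · push_cast
    gcongr <;> linarith

theorem vc (_h : AbelSt) : VCSt := fun a b L₁ L₂ H f hH => by
  set R := rct a b L₁ L₂ with hR
  set E := rct (a - H) (b - H) (L₁ + H) (L₂ + H) with hE
  set Q := rct 0 0 H H with hQ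
  set T := ∑ h ∈ sqr (-(H : ℤ)) (-(H : ℤ)) (2 * H + 1),
    ‖∑ n ∈ R with n + h ∈ R, f (n + h) * conj (f n)‖ with hT
  let F : GI → ℂ := fun n => if n ∈ R then f n else 0
  have s1 : (H : ℂ) ^ 2 * ∑ n ∈ R, f n = ∑ n ∈ E, ∑ h ∈ Q, F (n + h) := by
    rw [sum_comm, sum_congr rfl fun h hh => shift a b L₁ L₂ H f hh, sum_const, Abel.card,
      nsmul_eq_mul, Nat.cast_mul, sq]
  have s2 : ∀ h' ∈ Q, ∑ h ∈ Q, ‖∑ n ∈ E, F (n + h) * conj (F (n + h'))‖ ≤ T := fun h' p => by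
    have : ∀ h, ∑ n ∈ E, F (n + h) * conj (F (n + h')) =
        ∑ n ∈ R with n + (h - h') ∈ R, f (n + (h - h')) * conj (f n) := fun h => by
      rw [sum_filter, ← shift a b L₁ L₂ H _ p]
      refine sum_congr rfl fun n _ => ?_
      rw [show n + h' + (h - h') = n + h by ring]
      simp only [F]
      split_ifs <;> simp
    simp only [this]
    rw [← sum_image (s := Q) (g := (· - h'))
      (f := fun d => ‖∑ n ∈ R with n + d ∈ R, f (n + d) * conj (f n)‖)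
      fun _ _ _ _ e => sub_left_injective e]
    refine sum_le_sum_of_subset_of_nonneg (fun d hd => ?_) fun _ _ _ => norm_nonneg _
    obtain ⟨h, r, rfl⟩ := mem_image.1 hd
    rw [mem] at p r
    rw [GB.mem_sqr]
    simp only [Zsqrtd.re_sub, Zsqrtd.im_sub]
    push_cast
    omega
  have s3 : ∑ n ∈ E, ‖∑ h ∈ Q, F (n + h)‖ ^ 2 ≤ (H : ℝ) ^ 2 * T := by
    have : ((∑ n ∈ E, ‖∑ h ∈ Q, F (n + h)‖ ^ 2 : ℝ) : ℂ) =
        ∑ h' ∈ Q, ∑ h ∈ Q, ∑ n ∈ E, F (n + h) * conj (F (n + h')) := by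
      push_cast
      simp only [← Complex.mul_conj', map_sum, sum_mul, mul_sum]
      rw [sum_comm]
      exact sum_congr rfl fun _ _ => sum_comm
    refine (le_abs_self _).trans ?_
    rw [← Real.norm_eq_abs, ← Complex.norm_real, this]
    refine (norm_sum_le _ _).trans ((sum_le_card_nsmul _ _ T fun h' p =>
      (norm_sum_le _ _).trans (s2 h' p)).trans ?_)
    rw [Abel.card, nsmul_eq_mul]
    exact le_of_eq (by push_cast; ring)
  have s4 : ((H : ℝ) ^ 2 * ‖∑ n ∈ R, f n‖) ^ 2 ≤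
      ((L₁ : ℝ) + H) * ((L₂ : ℝ) + H) * ((H : ℝ) ^ 2 * T) := by
    have : (H : ℝ) ^ 2 * ‖∑ n ∈ R, f n‖ ≤ ∑ n ∈ E, ‖∑ h ∈ Q, F (n + h)‖ := by
      refine le_of_eq_of_le ?_ (norm_sum_le _ _)
      rw [← s1, norm_mul, norm_pow, Complex.norm_natCast]
    refine (pow_le_pow_left₀ (by positivity) this 2).trans (sq_sum_le_card_mul_sum_sq.trans ?_)
    rw [Abel.card]
    push_cast
    gcongr
  have p : (0 : ℝ) < (H : ℝ) ^ 2 := by positivity
  rw [div_mul_eq_mul_div, le_div_iff₀ p]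
  exact le_of_mul_le_mul_left (by nlinarith [s4]) p

end Pool.Agent.Lib.MP_4b1228_nt.GS
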