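import Pool.Agent.Lib.MP_4b1228_nt.GS.St
import Pool.Agent.Lib.MP_7ffa02_nt.ZeroFree

/-!
The lemma of Landau for a series with a power saving in its partial sums.
-/

namespace Pool.Agent.Lib.MP_4b1228_nt.GS

open Finset Filter Topology Complex MeasureTheory Asymptotics

noncomputable section

namespace AbsA

/-- the partial sums -/
def TT (f : ℕ → ℂ) (t : ℝ) : ℂ := ∑ k ∈ Icc 1 ⌊t⌋₊, f k

/-- the continuation of the series -/
def GG (f : ℕ → ℂ) (s : ℂ) : ℂ := s * mellin (TT f) (-s)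

theorem TT_zero (f : ℕ → ℂ) {t : ℝ} (ht : t < 1) : TT f t = 0 := by
  unfold TT
  rw [Nat.floor_eq_zero.2 ht]
  simp

theorem mellin_eq (f : ℕ → ℂ) (s : ℂ) :
    mellin (TT f) (-s) = ∫ t in Set.Ioi (1 : ℝ), TT f t * (t : ℂ) ^ (-(s + 1)) := by
  unfold mellin
  rw [← integral_Ici_eq_integral_Ioi (x := (1 : ℝ))]
  rw [setIntegral_eq_of_subset_of_forall_sdiff_eq_zero (s := Set.Ici (1 : ℝ)) measurableSet_Ioi]
  · refine setIntegral_congr_fun measurableSet_Ici fun t _ => ?_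
    simp only [smul_eq_mul]
    rw [mul_comm, show -s - 1 = -(s + 1) by ring]
  · intro t ht
    exact Set.mem_Ioi.2 (lt_of_lt_of_le zero_lt_one (Set.mem_Ici.1 ht))
  · intro t ht
    have : t < 1 := lt_of_not_ge ht.2
    rw [TT_zero f this, smul_zero]

theorem TT_loc (f : ℕ → ℂ) : LocallyIntegrableOn (TT f) (Set.Ioi 0) := by
  have h := locallyIntegrableOn_mul_sum_Icc f (m := 1) (a := 0) le_rfl (g := fun _ => (1 : ℂ))
    (locallyIntegrable_const (1 : ℂ) |>.locallyIntegrableOn _)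
  simp only [one_mul] at h
  exact h.mono_set Set.Ioi_subset_Ici_self

theorem GG_diff {f : ℕ → ℂ} {B a : ℝ} (h : ∀ t : ℝ, 1 ≤ t → ‖TT f t‖ ≤ B * t ^ a) {s : ℂ}
    (hs : a < s.re) : DifferentiableAt ℂ (GG f) s := by
  have h1 : DifferentiableAt ℂ (mellin (TT f)) (-s) := by
    refine mellin_differentiableAt_of_isBigO_rpow (a := -a) (b := -s.re - 1) (TT_loc f) ?_ ?_ ?_ ?_
    · refine IsBigO.of_bound B ?_
      filter_upwards [eventually_ge_atTop (1 : ℝ)] with t ht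
      rw [neg_neg, Real.norm_of_nonneg (Real.rpow_nonneg (by linarith) _)]
      exact h t ht
    · simp only [neg_re]; linarith
    · refine IsBigO.of_bound 0 ?_
      have : ∀ᶠ t in 𝓝[>] (0 : ℝ), t < 1 :=
        nhdsWithin_le_nhds (eventually_lt_nhds zero_lt_one)
      filter_upwards [this] with t ht
      rw [TT_zero f ht]; simp
    · simp only [neg_re]; linarith
  exact differentiableAt_id.mul (h1.comp s differentiableAt_id.neg)

theorem GG_le {f : ℕ → ℂ} {B a : ℝ} (h : ∀ t : ℝ, 1 ≤ t → ‖TT f t‖ ≤ B * t ^ a) {s : ℂ}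
    (hs : a < s.re) : ‖GG f s‖ ≤ ‖s‖ * (B / (s.re - a)) := by
  unfold GG
  rw [norm_mul, mellin_eq]
  refine mul_le_mul_of_nonneg_left ?_ (norm_nonneg _)
  have ha : a - s.re - 1 < -1 := by linarith
  have hI : IntegrableOn (fun t : ℝ => B * t ^ (a - s.re - 1)) (Set.Ioi 1) :=
    (integrableOn_Ioi_rpow_of_lt ha zero_lt_one).const_mul B
  refine (norm_integral_le_of_norm_le hI ?_).trans (le_of_eq ?_)
  · refine (ae_restrict_iff' measurableSet_Ioi).2 (Eventually.of_forall fun t ht => ?_)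
    have ht1 : (1 : ℝ) < t := ht
    have ht0 : (0 : ℝ) < t := by linarith
    rw [norm_mul, norm_cpow_eq_rpow_re_of_pos ht0]
    have e : t ^ (a - s.re - 1) = t ^ a * t ^ (-(s + 1)).re := by
      rw [← Real.rpow_add ht0]; congr 1; simp; ring
    rw [e, ← mul_assoc]
    exact mul_le_mul_of_nonneg_right (h t ht1.le) (Real.rpow_nonneg ht0.le _)
  · rw [integral_const_mul, integral_Ioi_rpow_of_lt ha zero_lt_one, Real.one_rpow]
    have : s.re - a ≠ 0 := by linarith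
    have h2 : a - s.re - 1 + 1 ≠ 0 := by linarith
    field_simp
    ring

theorem bigO {f : ℕ → ℂ} {C : ℝ} (h : ∀ x : ℕ, ∑ n ∈ Icc 1 x, ‖f n‖ ≤ C * x) :
    (fun n : ℕ => ∑ k ∈ Icc 1 n, ‖f k‖) =O[atTop] fun n : ℕ => (n : ℝ) ^ (1 : ℝ) := by
  refine IsBigO.of_bound C (Eventually.of_forall fun n => ?_)
  rw [Real.rpow_one, Real.norm_of_nonneg (sum_nonneg fun _ _ => norm_nonneg _),
    Real.norm_of_nonneg (Nat.cast_nonneg _)]
  exact h n

theorem GG_eq {f : ℕ → ℂ} {C : ℝ} (h : ∀ x : ℕ, ∑ n ∈ Icc 1 x, ‖f n‖ ≤ C * x) {s : ℂ}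
    (hs : 1 < s.re) : GG f s = LSeries f s := by
  rw [LSeries_eq_mul_integral' f zero_le_one hs (bigO h), GG, mellin_eq]
  rfl

theorem absc_lt {f : ℕ → ℂ} (h : ∀ y : ℝ, 1 < y → LSeriesSummable f y) {s : ℂ} (hs : 1 < s.re) :
    LSeries.abscissaOfAbsConv f < s.re :=
  (LSeries.abscissaOfAbsConv_le_of_forall_lt_LSeriesSummable h).trans_lt (by exact_mod_cast hs)

theorem absc_top {f : ℕ → ℂ} (h : ∀ y : ℝ, 1 < y → LSeriesSummable f y) :
    LSeries.abscissaOfAbsConv f < ⊤ :=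
  (LSeries.abscissaOfAbsConv_le_of_forall_lt_LSeriesSummable h).trans_lt (EReal.coe_lt_top _)

/-- A series whose logarithmic derivative is a series is an exponential. -/
theorem eq_exp {f g : ℕ → ℂ} (hf : ∀ y : ℝ, 1 < y → LSeriesSummable f y)
    (hg : ∀ y : ℝ, 1 < y → LSeriesSummable g y) (hf1 : f 1 = 1) (hg1 : g 1 = 0)
    (hd : ∀ s : ℂ, 1 < s.re → LSeries (LSeries.logMul f) s =
      LSeries (LSeries.logMul g) s * LSeries f s) {s : ℂ} (hs : 1 < s.re) :
    LSeries f s = exp (LSeries g s) := by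
  have hder : ∀ z : ℂ, 1 < z.re →
      HasDerivAt (fun w => LSeries f w * exp (-LSeries g w)) 0 z := by
    intro z hz
    have h1 := LSeries_hasDerivAt (absc_lt hf hz)
    have h2 := (LSeries_hasDerivAt (absc_lt hg hz)).fun_neg.cexp
    have h3 := h1.fun_mul h2
    rw [hd z hz] at h3
    refine h3.congr_deriv ?_
    ring
  have hopen : IsOpen {z : ℂ | 1 < z.re} := isOpen_lt continuous_const continuous_re
  obtain ⟨a, ha⟩ := hopen.exists_is_const_of_deriv_eq_zero (convex_halfSpace_re_gt 1).isPreconnected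
    (f := fun w => LSeries f w * exp (-LSeries g w))
    (fun z hz => (hder z hz).differentiableAt.differentiableWithinAt)
    (fun z hz => (hder z hz).deriv)
  have hl : Tendsto (fun x : ℝ => LSeries f x * exp (-LSeries g x)) atTop
      (𝓝 (f 1 * exp (-g 1))) :=
    (LSeries.tendsto_atTop (absc_top hf)).mul (LSeries.tendsto_atTop (absc_top hg)).neg.cexp
  have hc : Tendsto (fun x : ℝ => LSeries f x * exp (-LSeries g x)) atTop (𝓝 a) := by
    refine tendsto_const_nhds.congr' ?_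
    filter_upwards [eventually_gt_atTop (1 : ℝ)] with x hx
    exact (ha x (by simpa using hx)).symm
  have h1 : a = 1 := by
    rw [← tendsto_nhds_unique hl hc, hf1, hg1]; simp
  have h2 := ha s hs
  rw [h1, exp_neg] at h2
  have h3 := exp_ne_zero (LSeries g s)
  field_simp at h2
  exact h2

/-- the coefficients of the logarithm -/
def gg (Λ : ℕ → ℂ) (n : ℕ) : ℂ := Λ n / (Real.log n : ℂ)

theorem norm_gg (Λ : ℕ → ℂ) (n : ℕ) : ‖gg Λ n‖ ≤ 2 * ‖Λ n‖ := by
  unfold gg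
  rcases Nat.lt_or_ge n 2 with h | h
  · have : Real.log n = 0 := by
      interval_cases n <;> simp
    rw [this]; simp
  · have h2 : (1 / 2 : ℝ) ≤ Real.log n := by
      have := Real.log_two_gt_d9
      have h3 : Real.log 2 ≤ Real.log n := Real.log_le_log two_pos (by exact_mod_cast h)
      linarith
    rw [norm_div, norm_real, Real.norm_of_nonneg (by linarith), div_le_iff₀ (by linarith)]
    nlinarith [norm_nonneg (Λ n)]

theorem logMul_gg {Λ : ℕ → ℂ} (h1 : Λ 1 = 0) {n : ℕ} (hn : n ≠ 0) :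
    LSeries.logMul (gg Λ) n = Λ n := by
  rcases eq_or_ne n 1 with rfl | h
  · simp [LSeries.logMul, h1]
  · have h2 : (2 : ℝ) ≤ n := by exact_mod_cast (by omega : 2 ≤ n)
    have h3 : (Real.log n : ℂ) ≠ 0 := by
      exact_mod_cast (Real.log_pos (by linarith)).ne'
    unfold LSeries.logMul gg
    rw [← natCast_log]
    field_simp

theorem term_le {Λ : ℕ → ℂ} {Λ₀ : ℕ → ℝ} {c : ℝ} (hc : 0 ≤ c) (h0 : ∀ n, 0 ≤ Λ₀ n)
    (h : ∀ n, ‖Λ n‖ ≤ c * Λ₀ n) (s : ℂ) (n : ℕ) :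
    ‖LSeries.term Λ s n‖ ≤ c * (Λ₀ n / (n : ℝ) ^ s.re) := by
  rw [LSeries.norm_term_eq]
  split_ifs with hn
  · exact mul_nonneg hc (div_nonneg (h0 n) (Real.rpow_nonneg (Nat.cast_nonneg _) _))
  · rw [← mul_div_assoc]
    exact div_le_div_of_nonneg_right (h n) (Real.rpow_nonneg (Nat.cast_nonneg _) _)

theorem summ {Λ : ℕ → ℂ} {Λ₀ : ℕ → ℝ} {c : ℝ} (hc : 0 ≤ c) (h0 : ∀ n, 0 ≤ Λ₀ n)
    (h : ∀ n, ‖Λ n‖ ≤ c * Λ₀ n)
    (hS : ∀ σ : ℝ, 1 < σ → σ ≤ 2 → Summable fun n : ℕ => Λ₀ n / (n : ℝ) ^ σ) (y : ℝ) (hy : 1 < y) :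
    LSeriesSummable Λ y := by
  have h1 : ∀ σ : ℝ, 1 < σ → σ ≤ 2 → LSeriesSummable Λ σ := fun σ a b =>
    Summable.of_norm_bounded ((hS σ a b).mul_left c) fun n => by
      simpa using term_le hc h0 h σ n
  rcases le_or_gt y 2 with h2 | h2
  · exact h1 y hy h2
  · exact (h1 2 one_lt_two le_rfl).of_re_le_re (by simpa using h2.le)

theorem TT_le {θ C Y : ℝ} {f : ℕ → ℂ} (hθ : 0 < θ) (hθ2 : θ ≤ 1 / 2) (hC : 1 ≤ C) (hY : 1 ≤ Y)
    (h1 : ∀ x : ℕ, ∑ n ∈ Icc 1 x, ‖f n‖ ≤ C * x)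
    (h2 : ∀ x : ℕ, Y ≤ x → ‖∑ n ∈ Icc 1 x, f n‖ ≤ C * (x : ℝ) ^ (1 - θ)) (t : ℝ) (ht : 1 ≤ t) :
    ‖TT f t‖ ≤ C * Y ^ (θ / 2) * t ^ (1 - θ / 2) := by
  have hx1 : (1 : ℝ) ≤ (⌊t⌋₊ : ℝ) := by exact_mod_cast Nat.le_floor (by simpa using ht)
  have hxt : (⌊t⌋₊ : ℝ) ≤ t := Nat.floor_le (by linarith)
  have hY1 : 1 ≤ Y ^ (θ / 2) := Real.one_le_rpow hY (by linarith)
  have hp : (⌊t⌋₊ : ℝ) ^ (1 - θ / 2) ≤ t ^ (1 - θ / 2) :=
    Real.rpow_le_rpow (by linarith) hxt (by linarith)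
  have hp0 : 0 ≤ (⌊t⌋₊ : ℝ) ^ (1 - θ / 2) := Real.rpow_nonneg (by linarith) _
  rw [mul_assoc]
  rcases le_or_gt Y (⌊t⌋₊ : ℝ) with h | h
  · refine (h2 _ h).trans (mul_le_mul_of_nonneg_left ?_ (by linarith))
    have : (⌊t⌋₊ : ℝ) ^ (1 - θ) ≤ (⌊t⌋₊ : ℝ) ^ (1 - θ / 2) :=
      Real.rpow_le_rpow_of_exponent_le hx1 (by linarith)
    calc (⌊t⌋₊ : ℝ) ^ (1 - θ) ≤ 1 * t ^ (1 - θ / 2) := by linarith
      _ ≤ _ := mul_le_mul_of_nonneg_right hY1 (by linarith)
  · refine ((norm_sum_le _ _).trans (h1 _)).trans (mul_le_mul_of_nonneg_left ?_ (by linarith))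
    have e : (⌊t⌋₊ : ℝ) = (⌊t⌋₊ : ℝ) ^ (θ / 2) * (⌊t⌋₊ : ℝ) ^ (1 - θ / 2) := by
      rw [← Real.rpow_add (by linarith)]; simp
    rw [e]
    exact mul_le_mul (Real.rpow_le_rpow (by linarith) h.le (by linarith)) hp hp0 (by linarith)

theorem main {θ C Y : ℝ} {f Λ : ℕ → ℂ} {Λ₀ : ℕ → ℝ} (hθ : 0 < θ) (hθ2 : θ ≤ 1 / 2) (hC : 1 ≤ C)
    (hY : 1 ≤ Y) (h : Ser θ C Y f Λ Λ₀) :
    PF θ (40000 * Real.log Y +
      80000 / θ * (Real.log (8 * C / θ) + 2 * (11 / 10 / (θ / 4) + C))) Λ := by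
  obtain ⟨hf1, h1, h2, h3, h4, h5⟩ := h
  have h0 : ∀ n, 0 ≤ Λ₀ n := fun n => (norm_nonneg _).trans (h4 n)
  have hΛ1 : Λ 1 = 0 := by
    have := h3 1
    simpa [hf1] using this.symm
  have hgb : ∀ n, ‖gg Λ n‖ ≤ 2 * Λ₀ n := fun n => (norm_gg Λ n).trans (by linarith [h4 n])
  have sf : ∀ y : ℝ, 1 < y → LSeriesSummable f y := fun y hy =>
    LSeriesSummable_of_sum_norm_bigO (bigO h1) zero_le_one (by simpa using hy)
  have sΛ : ∀ y : ℝ, 1 < y → LSeriesSummable Λ y :=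
    summ zero_le_one h0 (fun n => by simpa using h4 n) fun σ a b => (h5 σ a b).1
  have sg : ∀ y : ℝ, 1 < y → LSeriesSummable (gg Λ) y :=
    summ zero_le_two h0 hgb fun σ a b => (h5 σ a b).1
  have hlog : ∀ s : ℂ, 1 < s.re → LSeries (LSeries.logMul f) s = LSeries Λ s * LSeries f s := by
    intro s hs
    rw [← LSeries_convolution (absc_lt sΛ hs) (absc_lt sf hs), LSeries.convolution_def]
    refine LSeries_congr (fun {n} _ => ?_) s
    rw [← h3 n]
    unfold LSeries.logMul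
    rw [← natCast_log]
  have hexp : ∀ s : ℂ, 1 < s.re → LSeries f s = exp (LSeries (gg Λ) s) := fun s hs =>
    eq_exp sf sg hf1 (by simp [gg]) (fun z hz => by
      rw [hlog z hz, LSeries_congr (fun {n} hn => logMul_gg hΛ1 hn) z]) hs
  have hT := TT_le hθ hθ2 hC hY h1 h2
  -- the local variable
  set s₀ : ℂ := ((1 + θ / 4 : ℝ) : ℂ) with hs₀
  set c : ℂ := ((θ / 4 : ℝ) : ℂ) with hc
  have hc0 : c ≠ 0 := by rw [hc]; exact_mod_cast (by linarith : θ / 4 ≠ 0)
  have hcn : ‖c‖ = θ / 4 := by rw [hc, norm_real, Real.norm_of_nonneg (by linarith)]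
  have hre : ∀ w : ℂ, (s₀ + c * w).re = 1 + θ / 4 + θ / 4 * w.re := by
    intro w; rw [hs₀, hc, add_re, ofReal_re, re_ofReal_mul]
  have hre2 : ∀ w : ℂ, ‖w‖ ≤ 2 → 1 - θ / 4 ≤ (s₀ + c * w).re := by
    intro w hw
    have := (abs_le.1 ((abs_re_le_norm w).trans hw)).1
    rw [hre]
    nlinarith
  have hlin : ∀ w : ℂ, HasDerivAt (fun w : ℂ => s₀ + c * w) c w := fun w => by
    simpa using ((hasDerivAt_id w).const_mul c).const_add s₀
  let F : ℂ → ℂ := fun w => GG f (s₀ + c * w)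
  have hF : DifferentiableOn ℂ F (Metric.ball 0 2) := by
    intro w hw
    have hw2 : ‖w‖ ≤ 2 := (mem_ball_zero_iff.1 hw).le
    exact ((GG_diff hT (s := s₀ + c * w) (by linarith [hre2 w hw2])).comp w
      (hlin w).differentiableAt).differentiableWithinAt
  have hs0re : s₀.re = 1 + θ / 4 := by rw [hs₀, ofReal_re]
  have hF0 : F 0 = exp (LSeries (gg Λ) s₀) := by
    show GG f (s₀ + c * 0) = _
    rw [mul_zero, add_zero, GG_eq h1 (by linarith), hexp _ (by linarith)]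
  set D : ℝ := 2 * (11 / 10 / (θ / 4) + C) with hD
  have hPD : ‖LSeries (gg Λ) s₀‖ ≤ D := by
    obtain ⟨a, b⟩ := h5 (1 + θ / 4) (by linarith) (by linarith)
    have hb : ‖LSeries (gg Λ) s₀‖ ≤ ∑' n : ℕ, 2 * (Λ₀ n / (n : ℝ) ^ (1 + θ / 4)) :=
      tsum_of_norm_bounded (a.mul_left 2).hasSum fun n => by
        have := term_le zero_le_two h0 hgb s₀ n
        rwa [hs0re] at this
    rw [tsum_mul_left] at hb
    rw [add_sub_cancel_left] at b
    linarith
  have hF0n : Real.exp (-D) ≤ ‖F 0‖ := by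
    rw [hF0, norm_exp]
    exact Real.exp_le_exp.2 (by linarith [(abs_le.1 ((abs_re_le_norm _).trans hPD)).1])
  have hF00 : F 0 ≠ 0 := by rw [hF0]; exact exp_ne_zero _
  have hq : 1 ≤ 8 * C / θ := by rw [le_div_iff₀ hθ]; linarith
  have hlq : 0 ≤ Real.log (8 * C / θ) := Real.log_nonneg hq
  have hlY : 0 ≤ Real.log Y := Real.log_nonneg hY
  have hD1 : 1 ≤ D := by
    have : 0 ≤ 11 / 10 / (θ / 4) := by positivity
    linarith
  set L : ℝ := θ / 2 * Real.log Y + (Real.log (8 * C / θ) + D) with hL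
  have hL1 : 1 ≤ L := by
    have : 0 ≤ θ / 2 * Real.log Y := by positivity
    linarith
  have hb : ∀ w : ℂ, ‖w‖ = 19 / 10 → ‖F w‖ ≤ Real.exp L * ‖F 0‖ := by
    intro w hw
    have hw2 : ‖w‖ ≤ 2 := by linarith
    have hr := hre2 w hw2
    have hB : 0 ≤ C * Y ^ (θ / 2) := mul_nonneg (by linarith) (Real.rpow_nonneg (by linarith) _)
    have hn : ‖s₀ + c * w‖ ≤ 2 := by
      refine (norm_add_le _ _).trans ?_
      rw [norm_mul, hcn, hw, hs₀, norm_real, Real.norm_of_nonneg (by linarith)]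
      linarith
    have e1 : ‖F w‖ ≤ 2 * (C * Y ^ (θ / 2) / (θ / 4)) := by
      refine (GG_le hT (s := s₀ + c * w) (by linarith)).trans ?_
      refine mul_le_mul hn ?_ (div_nonneg hB (by linarith)) zero_le_two
      exact div_le_div_of_nonneg_left hB (by linarith) (by linarith)
    have e2 : Real.exp L * Real.exp (-D) = 2 * (C * Y ^ (θ / 2) / (θ / 4)) := by
      rw [← Real.exp_add, show L + -D = Real.log Y * (θ / 2) + Real.log (8 * C / θ) by
        rw [hL]; ring, Real.exp_add, Real.exp_log (by linarith),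
        ← Real.rpow_def_of_pos (by linarith)]
      field_simp
      ring
    calc ‖F w‖ ≤ Real.exp L * Real.exp (-D) := by rw [e2]; exact e1
      _ ≤ _ := mul_le_mul_of_nonneg_left hF0n (Real.exp_pos _).le
  obtain ⟨M, z, -, hz, hw⟩ := Pool.Agent.Lib.MP_7ffa02_nt.pf0 hF hL1 hF00 hb
  have hne : ∀ s : ℂ, 1 < s.re → GG f s ≠ 0 := fun s hs => by
    rw [GG_eq h1 hs, hexp s hs]; exact exp_ne_zero _
  refine ⟨M, fun j => s₀ + c * z j, fun j => ?_, fun s hs1 hs2 hs3 => ?_⟩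
  · by_contra hlt
    exact hne _ (lt_of_not_ge hlt) (hz j).1
  · set w : ℂ := (s - s₀) / c with hwd
    have hsw : s₀ + c * w = s := by rw [hwd]; field_simp; ring
    have hwn : ‖w‖ ≤ 16 / 10 := by
      rw [hwd, norm_div, hcn, div_le_iff₀ (by linarith)]
      have e1 : (s - s₀).re = s.re - (1 + θ / 4) := by rw [sub_re, hs0re]
      have e2 : (s - s₀).im = s.im := by rw [sub_im, hs₀, ofReal_im, sub_zero]
      have e3 := abs_le.1 hs3
      refine (pow_le_pow_iff_left₀ (norm_nonneg _) (by linarith) two_ne_zero).1 ?_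
      rw [Complex.sq_norm, normSq_apply, e1, e2]
      nlinarith
    have hwz : ∀ j, w ≠ z j := fun j e => hne s hs1 (by
      have := (hz j).1
      rw [← e] at this
      rw [← hsw]; exact this)
    have hG : HasDerivAt (GG f) (-(LSeries Λ s * LSeries f s)) s := by
      have := LSeries_hasDerivAt (absc_lt sf hs1)
      rw [hlog s hs1] at this
      refine this.congr_of_eventuallyEq ?_
      filter_upwards [(isOpen_lt continuous_const continuous_re).mem_nhds hs1] with u hu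
      exact GG_eq h1 hu
    have hdF : deriv F w = -(LSeries Λ s * LSeries f s) * c := by
      rw [← hsw] at hG
      rw [← hsw]
      exact (hG.comp w (hlin w)).deriv
    have hFw : F w = LSeries f s := by
      show GG f (s₀ + c * w) = _
      rw [hsw, GG_eq h1 hs1]
    have hLs : LSeries f s ≠ 0 := by rw [hexp s hs1]; exact exp_ne_zero _
    have key := (hw w hwn hwz).2
    have e : deriv F w / F w - ∑ j, 1 / (w - z j) =
        -c * (LSeries Λ s + ∑ j, 1 / (s - (s₀ + c * z j))) := by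
      rw [hdF, hFw, mul_add, mul_sum, sub_eq_add_neg, ← sum_neg_distrib]
      congr 1
      · field_simp
      · refine sum_congr rfl fun j _ => ?_
        have e1 : s - (s₀ + c * z j) = c * (w - z j) := by rw [← hsw]; ring
        have e2 : w - z j ≠ 0 := sub_ne_zero.2 (hwz j)
        rw [e1]
        field_simp
    rw [e, norm_mul, norm_neg, hcn] at key
    have e4 : 40000 * Real.log Y + 80000 / θ * (Real.log (8 * C / θ) + D) =
        20000 * L / (θ / 4) := by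
      rw [hL]; field_simp; ring
    rw [e4, le_div_iff₀ (by linarith), mul_comm]
    exact key

end AbsA

theorem absA : AbsA := by
  refine ⟨40000, by norm_num, fun θ C hθ hθ2 hC =>
    ⟨80000 / θ * (Real.log (8 * C / θ) + 2 * (11 / 10 / (θ / 4) + C)), ?_,
      fun Y f Λ Λ₀ hY h => AbsA.main hθ hθ2 hC hY h⟩⟩
  have hq : 1 ≤ 8 * C / θ := by rw [le_div_iff₀ hθ]; linarith
  have hlq : 0 ≤ Real.log (8 * C / θ) := Real.log_nonneg hq
  have : 0 < C := by linarith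
  positivity

end

end Pool.Agent.Lib.MP_4b1228_nt.GS
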