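import Pool.Agent.Lib.MP_4b1228_nt.GS.St

/-!
The region without zeros and the bound for the logarithmic derivative on the real axis.
-/

namespace Pool.Agent.Lib.MP_4b1228_nt.GS

open Finset Complex

namespace AbsB

variable {Λ : ℕ → ℂ} {Λ₀ : ℕ → ℝ} {s : ℂ}

theorem term_le (h : ∀ n, ‖Λ n‖ ≤ Λ₀ n) (hs : s.re ≠ 0) (n : ℕ) :
    ‖LSeries.term Λ s n‖ ≤ Λ₀ n / (n : ℝ) ^ s.re := by
  rw [LSeries.norm_term_eq]
  split_ifs with e
  · simp [e, Real.zero_rpow hs]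
  · exact div_le_div_of_nonneg_right (h n) (by positivity)

theorem summ (h : ∀ n, ‖Λ n‖ ≤ Λ₀ n) (hs : s.re ≠ 0)
    (h0 : Summable fun n : ℕ => Λ₀ n / (n : ℝ) ^ s.re) : Summable (LSeries.term Λ s) :=
  Summable.of_norm_bounded h0 (term_le h hs)

theorem norm_le (h : ∀ n, ‖Λ n‖ ≤ Λ₀ n) (hs : s.re ≠ 0)
    (h0 : Summable fun n : ℕ => Λ₀ n / (n : ℝ) ^ s.re) :
    ‖LSeries Λ s‖ ≤ ∑' n : ℕ, Λ₀ n / (n : ℝ) ^ s.re :=
  tsum_of_norm_bounded h0.hasSum (term_le h hs)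

theorem re_term (Λ : ℕ → ℂ) (σ : ℝ) (w : ℂ) {n : ℕ} (hn : n ≠ 0) :
    (LSeries.term Λ (σ + w) n).re = (Λ n / (n : ℂ) ^ w).re / (n : ℝ) ^ σ := by
  rw [LSeries.term_of_ne_zero hn, cpow_add _ _ (Nat.cast_ne_zero.2 hn), mul_comm, ← div_div,
    ← ofReal_natCast, ← ofReal_cpow (Nat.cast_nonneg n), div_ofReal_re]

theorem re_inv {ρ : ℂ} (h : ρ.re ≤ s.re) : 0 ≤ (1 / (s - ρ)).re := by
  rw [one_div, inv_re, sub_re]
  exact div_nonneg (sub_nonneg.2 h) (normSq_nonneg _)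

theorem re_le {M : ℕ} {ρ : Fin M → ℂ} {L : ℂ} {E : ℝ} (h : ‖L + ∑ j, 1 / (s - ρ j)‖ ≤ E) :
    L.re + ∑ j, (1 / (s - ρ j)).re ≤ E := by
  have := (re_le_norm _).trans h
  rwa [add_re, re_sum] at this

/-- the inequality `3, 4, 1`. -/
theorem three {Λ₁ Λ₂ : ℕ → ℂ} (h : ∀ n, ‖Λ₁ n‖ ≤ Λ₀ n ∧ ‖Λ₂ n‖ ≤ Λ₀ n) {σ τ : ℝ} (hσ : σ ≠ 0)
    (h0 : Summable fun n : ℕ => Λ₀ n / (n : ℝ) ^ σ)
    (hp : ∀ n : ℕ, 1 ≤ n → 0 ≤ 3 * Λ₀ n + 4 * (Λ₁ n / (n : ℂ) ^ (τ * I)).re +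
      (Λ₂ n / (n : ℂ) ^ (2 * τ * I)).re) :
    0 ≤ 3 * ∑' n : ℕ, Λ₀ n / (n : ℝ) ^ σ + 4 * (LSeries Λ₁ (σ + τ * I)).re +
      (LSeries Λ₂ (σ + 2 * τ * I)).re := by
  have e1 : ((σ : ℂ) + τ * I).re = σ := by simp
  have e2 : ((σ : ℂ) + 2 * τ * I).re = σ := by simp
  have s1 := hasSum_re (summ (s := σ + τ * I) (fun n => (h n).1) (by rwa [e1])
    (by rwa [e1])).hasSum
  have s2 := hasSum_re (summ (s := σ + 2 * τ * I) (fun n => (h n).2) (by rwa [e2])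
    (by rwa [e2])).hasSum
  refine (((h0.hasSum.mul_left 3).add (s1.mul_left 4)).add s2).nonneg fun n => ?_
  rcases eq_or_ne n 0 with rfl | hn
  · simp [Real.zero_rpow hσ]
  · rw [re_term _ _ _ hn, re_term _ _ _ hn, ← mul_div_assoc, ← mul_div_assoc, ← add_div, ← add_div]
    exact div_nonneg (hp n (Nat.one_le_iff_ne_zero.2 hn)) (by positivity)

/-- moving the point of evaluation. -/
theorem move {ρ : ℂ} {σ d : ℝ} (hd : 0 < d) (h1 : ρ.re ≤ 1) (h2 : d / 280 ≤ ‖1 - ρ‖) (h3 : 1 < σ)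
    (h4 : σ ≤ 1 + d) :
    ‖1 / ((σ : ℂ) - ρ) - 1 / (((1 + d : ℝ) : ℂ) - ρ)‖ ≤ 281 * (1 / (((1 + d : ℝ) : ℂ) - ρ)).re := by
  have a1 : ‖1 - ρ‖ ≤ ‖(σ : ℂ) - ρ‖ := by
    refine abs_le_of_sq_le_sq' ?_ (norm_nonneg _) |>.2
    rw [Complex.sq_norm, Complex.sq_norm, normSq_apply, normSq_apply]
    simp only [sub_re, sub_im, one_re, one_im, ofReal_re, ofReal_im]
    nlinarith
  have a2 : 0 < ‖(σ : ℂ) - ρ‖ := lt_of_lt_of_le (by positivity) (h2.trans a1)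
  have a3 : ‖((1 + d : ℝ) : ℂ) - σ‖ ≤ d := by
    rw [← ofReal_sub, norm_real, Real.norm_eq_abs, abs_le]
    constructor <;> linarith
  have a4 : ‖((1 + d : ℝ) : ℂ) - ρ‖ ≤ 281 * ‖(σ : ℂ) - ρ‖ := by
    have := norm_sub_le_norm_sub_add_norm_sub ((1 + d : ℝ) : ℂ) σ ρ
    linarith [h2.trans a1]
  have a5 : d ≤ (((1 + d : ℝ) : ℂ) - ρ).re := by
    rw [sub_re, ofReal_re]
    linarith
  have a6 : 0 < ‖((1 + d : ℝ) : ℂ) - ρ‖ := lt_of_lt_of_le hd (a5.trans (re_le_norm _))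
  generalize ((1 + d : ℝ) : ℂ) = t at *
  rw [div_sub_div _ _ (norm_pos_iff.1 a2) (norm_pos_iff.1 a6), one_div, inv_re,
    normSq_eq_norm_sq, norm_div, norm_mul, one_mul, mul_one, sub_sub_sub_cancel_right,
    ← mul_div_assoc, div_le_div_iff₀ (by positivity) (by positivity)]
  calc ‖t - σ‖ * ‖t - ρ‖ ^ 2 ≤ d * (281 * ‖(σ : ℂ) - ρ‖ * ‖t - ρ‖) := by
        rw [sq]
        gcongr
    _ ≤ (t - ρ).re * (281 * ‖(σ : ℂ) - ρ‖ * ‖t - ρ‖) := by gcongr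
    _ = _ := by ring

end AbsB

open AbsB

theorem absB : AbsB := by
  refine ⟨900, by norm_num, fun θ C E Λ₁ Λ₂ Λ₀ hθ hθ' hC hE hE' ⟨M, ρ, r1, r2⟩ ⟨M', ρ', r3, r4⟩ hΛ
    h0 hp σ h1 h2 => ?_⟩
  have E1 : 1 ≤ E := hC.trans hE
  have E0 : 0 < E := by linarith
  obtain ⟨d, hd⟩ : ∃ d, d = 1 / E := ⟨_, rfl⟩
  have d0 : 0 < d := hd ▸ one_div_pos.2 E0
  have d1 : d * E = 1 := by rw [hd]; field_simp
  have d2 : d ≤ θ / 8 := by
    rw [div_le_iff₀ hθ] at hE'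
    rw [hd, div_le_iff₀ E0]
    linarith
  have nb : ∀ u : ℝ, 1 + d ≤ u → u ≤ 2 → ‖LSeries Λ₁ u‖ ≤ 21 / 10 * E := fun u a b => by
    have k := h0 u (by linarith) b
    have := norm_le (s := u) (fun n => (hΛ n).1) (by rw [ofReal_re]; linarith) k.1
    have e : 11 / 10 / (u - 1) ≤ 11 / 10 * E := by
      rw [div_le_iff₀ (by linarith)]
      nlinarith
    rw [ofReal_re] at this
    linarith [k.2]
  have zf : ∀ j, d / 280 ≤ ‖1 - ρ j‖ := fun j => by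
    by_contra hc
    rw [not_le] at hc
    have b1 := (abs_im_le_norm _).trans_lt hc
    have b2 := (re_le_norm _).trans_lt hc
    rw [sub_im, one_im, zero_sub, abs_neg] at b1
    rw [sub_re, one_re] at b2
    have k := h0 (1 + d / 40) (by linarith) (by linarith)
    have t := three hΛ (σ := 1 + d / 40) (τ := (ρ j).im) (by positivity) k.1 (hp _)
    have e1 : (((1 + d / 40 : ℝ) : ℂ) + (ρ j).im * I).re = 1 + d / 40 := by simp
    have e2 : (((1 + d / 40 : ℝ) : ℂ) + 2 * (ρ j).im * I).re = 1 + d / 40 := by simp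
    have e3 : (((1 + d / 40 : ℝ) : ℂ) + (ρ j).im * I).im = (ρ j).im := by simp
    have e4 : (((1 + d / 40 : ℝ) : ℂ) + 2 * (ρ j).im * I).im = 2 * (ρ j).im := by simp
    have u1 := re_le (r2 _ (by rw [e1]; linarith) (by rw [e1]; linarith) (by rw [e3]; linarith))
    have u2 := re_le (r4 _ (by rw [e2]; linarith) (by rw [e2]; linarith)
      (by rw [e4, abs_mul, abs_two]; linarith))
    have u3 : 0 ≤ ∑ i, (1 / (((1 + d / 40 : ℝ) : ℂ) + 2 * (ρ j).im * I - ρ' i)).re :=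
      sum_nonneg fun i _ => re_inv (by rw [e2]; linarith [r3 i])
    have u4 := single_le_sum (f := fun i => (1 / (((1 + d / 40 : ℝ) : ℂ) + (ρ j).im * I - ρ i)).re)
      (fun i _ => re_inv (by rw [e1]; linarith [r1 i])) (mem_univ j)
    have u5 : ((1 + d / 40 : ℝ) : ℂ) + (ρ j).im * I - ρ j = ((1 + d / 40 - (ρ j).re : ℝ) : ℂ) :=
      Complex.ext (by rw [sub_re, e1, ofReal_re]) (by rw [sub_im, e3, ofReal_im, sub_self])
    simp only [u5] at u4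
    rw [← ofReal_one, ← ofReal_div, ofReal_re] at u4
    have u6 : 35 * E < 1 / (1 + d / 40 - (ρ j).re) := by
      rw [lt_div_iff₀ (by linarith [r1 j])]
      nlinarith
    have u7 : 11 / 10 / (1 + d / 40 - 1) = 44 * E := by
      rw [div_eq_iff (by linarith)]
      linarith
    rw [ofReal_one] at u4
    linarith [k.2]
  rcases le_total (1 + d) σ with h | h
  · linarith [nb σ h h2]
  have v1 := r2 σ (by rwa [ofReal_re]) (by rw [ofReal_re]; linarith)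
    (by rw [ofReal_im, abs_zero]; positivity)
  have v2 := r2 (1 + d : ℝ) (by rw [ofReal_re]; linarith) (by rw [ofReal_re]; linarith)
    (by rw [ofReal_im, abs_zero]; positivity)
  have v3 := nb (1 + d) le_rfl (by linarith)
  have v4 := re_le v2
  have v5 := (abs_le.1 (abs_re_le_norm (LSeries Λ₁ (1 + d : ℝ)))).1
  have v6 : ‖∑ j, 1 / ((σ : ℂ) - ρ j) - ∑ j, 1 / (((1 + d : ℝ) : ℂ) - ρ j)‖ ≤
      281 * ∑ j, (1 / (((1 + d : ℝ) : ℂ) - ρ j)).re := by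
    rw [← sum_sub_distrib, mul_sum]
    exact norm_sum_le_of_le _ fun j _ => move d0 (r1 j) (zf j) h1 h
  have v7 : LSeries Λ₁ σ = (LSeries Λ₁ σ + ∑ j, 1 / ((σ : ℂ) - ρ j)) -
      (∑ j, 1 / ((σ : ℂ) - ρ j) - ∑ j, 1 / (((1 + d : ℝ) : ℂ) - ρ j)) -
      (LSeries Λ₁ (1 + d : ℝ) + ∑ j, 1 / (((1 + d : ℝ) : ℂ) - ρ j)) + LSeries Λ₁ (1 + d : ℝ) := by
    ring
  rw [v7]
  refine (norm_add_le _ _).trans ?_
  have v8 := (norm_sub_le _ _).trans (add_le_add ((norm_sub_le _ _).trans (add_le_add v1 v6)) v2)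
  linarith

end Pool.Agent.Lib.MP_4b1228_nt.GS
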