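import Pool.Agent.Lib.MP_4b1228_nt.GS.St

/-! The function of von Mangoldt of the Gaussian integers. -/

namespace Pool.Agent.Lib.MP_4b1228_nt.GS

open Finset Pool.Agent.Lib.MP_9d27bc_nt.C UniqueFactorizationMonoid
open scoped Classical

noncomputable section

namespace Ar

theorem nm_mul (a b : GI) : nm (a * b) = nm a * nm b := hG.1 a b

theorem nm_pow (a : GI) (m : ℕ) : nm (a ^ m) = nm a ^ m := by
  induction m with
  | zero => simp [nm]
  | succ m ih => rw [pow_succ, pow_succ, nm_mul, ih]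

theorem nm_dvd {a b : GI} (h : a ∣ b) : nm a ∣ nm b := by
  obtain ⟨c, rfl⟩ := h
  exact ⟨_, nm_mul a c⟩

theorem nm_zero {a : GI} : nm a = 0 ↔ a = 0 := by simp [nm]

theorem two_le {p : GI} (hp : Prime p) : 2 ≤ nm p := by
  have h0 : nm p ≠ 0 := fun h => hp.ne_zero (nm_zero.1 h)
  have h1 : nm p ≠ 1 := fun h => hp.not_unit (Zsqrtd.norm_eq_one_iff.1 h)
  omega

theorem nm_nat (n : ℕ) : nm (n : GI) = n ^ 2 := by simp [nm, sq, Int.natAbs_mul]

theorem mem_disc (n : ℕ) (v : GI) : v ∈ disc n ↔ nm v ≤ n :=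
  (hG.2.2.2.2.2.2.2.2.2.2.2.2.2.2.2.2.2.2.1 n v n.cast_nonneg).trans Nat.cast_le

/-- the vectors of a given norm -/
def R (n : ℕ) : Finset GI := {a ∈ disc n | nm a = n}

theorem mem_R {n : ℕ} {a : GI} : a ∈ R n ↔ nm a = n := by
  rw [R, mem_filter, mem_disc]
  exact ⟨fun h => h.2, fun h => ⟨h.le, h⟩⟩

theorem below {p : GI} (hp : Prime p) : ∃ l : ℕ, l.Prime ∧ p ∣ l := by
  have h : p ∣ ((nm p : ℕ) : GI) := hG.2.2.2.1 p ▸ dvd_mul_left _ _
  have h0 : nm p ≠ 0 := by have := two_le hp; omega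
  generalize nm p = n at h h0
  induction n using Nat.recOnMul with
  | zero => exact (h0 rfl).elim
  | one => exact (hp.not_dvd_one (by simpa using h)).elim
  | prime l hl => exact ⟨l, hl, h⟩
  | mul a b ha hb =>
    rw [Nat.cast_mul] at h
    exact (hp.dvd_or_dvd h).elim (fun h => ha h (left_ne_zero_of_mul h0))
      fun h => hb h (right_ne_zero_of_mul h0)

theorem xi_one (hB : Bas) (t : ℤ) : xi t 1 = 1 := by
  have h1 := hB.xi_mul t 1 1
  have h2 : xi t 1 ≠ 0 := fun h => by simpa [h] using hB.norm_xi t 1 one_ne_zero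
  rw [mul_one] at h1
  exact (mul_left_cancel₀ h2 (h1.symm.trans (mul_one _).symm))

theorem xi_assoc (hB : Bas) (t : ℤ) {a b : GI} (h : Associated a b) : xi t a = xi t b := by
  obtain ⟨u, rfl⟩ := h
  rw [mul_comm, hB.xi_unit t _ _ u.isUnit]

theorem ff_one (hB : Bas) (t : ℤ) : ff t 1 = 1 := by
  have e : R 1 = {1, -1, ⟨0, 1⟩, ⟨0, -1⟩} := by
    ext a
    rw [mem_R]
    refine ⟨fun h => ?_, fun h => ?_⟩
    · have := hG.2.2.1 a
      rw [h] at this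
      obtain ⟨x, y⟩ := a
      change (1 : ℤ) = x ^ 2 + y ^ 2 at this
      have h1 : -1 ≤ x ∧ x ≤ 1 := ⟨by nlinarith, by nlinarith⟩
      have h2 : -1 ≤ y ∧ y ≤ 1 := ⟨by nlinarith, by nlinarith⟩
      obtain ⟨h1, h1'⟩ := h1
      obtain ⟨h2, h2'⟩ := h2
      interval_cases x <;> interval_cases y <;> first | decide | simp at this
    · simp only [mem_insert, mem_singleton] at h
      rcases h with rfl | rfl | rfl | rfl <;> rfl
  have c : #(R 1) = 4 := by rw [e]; decide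
  change (∑ a ∈ R 1, xi t a) / 4 = 1
  rw [sum_congr rfl fun a ha => (xi_assoc hB t (associated_one_iff_isUnit.2
    (Zsqrtd.norm_eq_one_iff.1 (mem_R.1 ha)))).trans (xi_one hB t), sum_const, c]
  norm_num

theorem ff_sum (hB : Bas) (t : ℤ) (x : ℕ) : ∑ n ∈ Icc 1 x, ‖ff t n‖ ≤ 9 * x := by
  have h := hC.1 x 1 {a ∈ disc x | a ≠ 0} one_ne_zero x.cast_nonneg fun v hv =>
    ⟨(mem_filter.1 hv).2, one_dvd _, Nat.cast_le.2 ((mem_disc _ _).1 (mem_filter.1 hv).1)⟩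
  rw [show nm 1 = 1 from rfl, Nat.cast_one, div_one, card_eq_sum_card_fiberwise (f := nm)
    (t := Icc 1 x) fun v hv => mem_coe.2 (mem_Icc.2 ⟨(hB.nm_pos v).1 (mem_filter.1 hv).2,
      (mem_disc _ _).1 (mem_filter.1 hv).1⟩), Nat.cast_sum] at h
  refine (sum_le_sum fun n hn => ?_).trans h
  have e : {a ∈ {a ∈ disc x | a ≠ 0} | nm a = n} = R n := by
    ext a
    rw [mem_R, mem_filter, mem_filter, mem_disc, hB.nm_pos]
    have := mem_Icc.1 hn
    omega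
  have : ‖∑ a ∈ R n, xi t a‖ ≤ #(R n) := (norm_sum_le _ _).trans (by
    simpa using sum_le_card_nsmul _ _ 1 fun a _ => hB.xi_le t a)
  rw [e]
  change ‖(∑ a ∈ R n, xi t a) / 4‖ ≤ _
  rw [norm_div, Complex.norm_ofNat]
  linarith [norm_nonneg (∑ a ∈ R n, xi t a)]

theorem shift (hB : Bas) (t : ℤ) {q : GI} {n : ℕ} (hq : q ≠ 0) (h : nm q ∣ n) :
    ∑ z ∈ R n with q ∣ z, xi t z = xi t q * ∑ e ∈ R (n / nm q), xi t e := by
  obtain ⟨m, rfl⟩ := h
  have h0 : 0 < nm q := (hB.nm_pos q).1 hq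
  rw [Nat.mul_div_cancel_left _ h0, mul_sum]
  refine (sum_bij (fun e _ => q * e) (fun e he => mem_filter.2 ⟨mem_R.2 ?_, dvd_mul_right _ _⟩)
    (fun _ _ _ _ e => mul_left_cancel₀ hq e) (fun z hz => ?_)
    fun e _ => (hB.xi_mul t q e).symm).symm
  · rw [nm_mul, mem_R.1 he]
  · obtain ⟨h1, e, rfl⟩ := mem_filter.1 hz
    exact ⟨e, mem_R.2 (Nat.eq_of_mul_eq_mul_left h0 ((nm_mul q e).symm.trans (mem_R.1 h1))), rfl⟩

variable [NormalizationMonoid GI]

/-- a normalised prime and a positive exponent -/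
def Pp (w : GI × ℕ) : Prop := Prime w.1 ∧ normalize w.1 = w.1 ∧ 0 < w.2

/-- the prime powers whose norm divides `n` -/
def W (n : ℕ) : Finset (GI × ℕ) := {w ∈ disc n ×ˢ range (n + 1) | Pp w ∧ nm w.1 ^ w.2 ∣ n}

/-- the prime powers of norm `n` -/
def T (n : ℕ) : Finset (GI × ℕ) := {w ∈ W n | nm w.1 ^ w.2 = n}

theorem mem_W {n : ℕ} (hn : n ≠ 0) {w : GI × ℕ} : w ∈ W n ↔ Pp w ∧ nm w.1 ^ w.2 ∣ n := by
  rw [W, mem_filter, mem_product, mem_disc, mem_range]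
  refine ⟨fun h => h.2, fun h => ⟨?_, h⟩⟩
  have h1 := Nat.le_of_dvd (Nat.pos_of_ne_zero hn) h.2
  have h2 := two_le h.1.1
  exact ⟨(Nat.le_self_pow h.1.2.2.ne' _).trans h1,
    ((Nat.lt_pow_self (by omega)).trans_le h1).trans n.lt_succ_self⟩

theorem mem_T {n : ℕ} {w : GI × ℕ} : w ∈ T n ↔ Pp w ∧ nm w.1 ^ w.2 = n := by
  rw [T, mem_filter]
  refine ⟨fun h => ⟨(mem_filter.1 h.1).2.1, h.2⟩, fun h => ⟨(mem_W ?_).2 ⟨h.1, h.2.dvd⟩, h.2⟩⟩
  have := two_le h.1.1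
  exact h.2 ▸ pow_ne_zero _ (by omega)

theorem key (hB : Bas) {z : GI} (hz : z ≠ 0) {n : ℕ} (hn : nm z = n) :
    ∑ w ∈ W n with w.1 ^ w.2 ∣ z, Real.log (nm w.1) = Real.log n := by
  have h0 : n ≠ 0 := fun h => hz (nm_zero.1 (hn.trans h))
  have a := prod_normalizedFactors hz
  rw [sum_finset_product _ (normalizedFactors z).toFinset
    (fun p => Icc 1 ((normalizedFactors z).count p)) fun w => ?_, ← hn,
    Nat.dvd_antisymm (nm_dvd a.symm.dvd) (nm_dvd a.dvd), prod_multiset_count, hB.nm_prod,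
    Nat.cast_prod, Real.log_prod fun p hp => ?_]
  · exact sum_congr rfl fun p _ => by simp [nm_pow]
  · exact Nat.cast_ne_zero.2 fun h => pow_ne_zero _ (prime_of_normalized_factor p
      (Multiset.mem_toFinset.1 hp)).ne_zero (nm_zero.1 h)
  · rw [mem_filter, mem_W h0, Multiset.mem_toFinset, mem_normalizedFactors_iff' hz, mem_Icc]
    have e : Prime w.1 → normalize w.1 = w.1 →
        (w.1 ^ w.2 ∣ z ↔ w.2 ≤ (normalizedFactors z).count w.1) := fun h1 h2 => by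
      rw [pow_dvd_iff_le_emultiplicity, emultiplicity_eq_count_normalizedFactors h1.irreducible hz,
        h2, Nat.cast_le]
    exact ⟨fun ⟨⟨⟨h1, h2, h3⟩, _⟩, h4⟩ => ⟨⟨h1.irreducible, h2, (dvd_pow_self _ h3.ne').trans h4⟩,
      h3, (e h1 h2).1 h4⟩, fun ⟨⟨h1, h2, _⟩, h3, h4⟩ =>
      have h5 := (e h1.prime h2).2 h4
      ⟨⟨⟨h1.prime, h2, h3⟩, hn ▸ nm_pow w.1 w.2 ▸ nm_dvd h5⟩, h5⟩⟩

/-- the twisted function -/
def La (t : ℤ) (n : ℕ) : ℂ := ∑ w ∈ T n, (Real.log (nm w.1) : ℂ) * xi t (w.1 ^ w.2)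

/-- its majorant -/
def L0 (n : ℕ) : ℝ := ∑ w ∈ T n, Real.log (nm w.1)

theorem conv (hB : Bas) (t : ℤ) (n : ℕ) :
    (Real.log n : ℂ) * ff t n = ∑ d ∈ n.divisorsAntidiagonal, La t d.1 * ff t d.2 := by
  rcases eq_or_ne n 0 with rfl | h0
  · simp
  have l : (Real.log n : ℂ) * ∑ z ∈ R n, xi t z = ∑ w ∈ W n, (Real.log (nm w.1) : ℂ) *
      (xi t (w.1 ^ w.2) * ∑ e ∈ R (n / nm w.1 ^ w.2), xi t e) := by
    rw [mul_sum, sum_congr rfl fun z hz => by
      rw [← key hB (fun h => h0 ((mem_R.1 hz).symm.trans (nm_zero.2 h))) (mem_R.1 hz),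
        Complex.ofReal_sum, sum_mul, sum_filter], sum_comm]
    refine sum_congr rfl fun w hw => ?_
    obtain ⟨h1, h2⟩ := (mem_W h0).1 hw
    rw [← nm_pow] at h2 ⊢
    rw [← shift hB t (pow_ne_zero _ h1.1.ne_zero) h2, mul_sum, sum_filter]
  change _ * ((∑ z ∈ R n, xi t z) / 4) = _
  rw [← mul_div_assoc, l, ← sum_fiberwise_of_maps_to (t := n.divisorsAntidiagonal)
    (g := fun w => (nm w.1 ^ w.2, n / nm w.1 ^ w.2)) fun w hw => Nat.mem_divisorsAntidiagonal.2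
      ⟨Nat.mul_div_cancel' ((mem_W h0).1 hw).2, h0⟩, sum_div]
  refine sum_congr rfl fun d hd => ?_
  obtain ⟨hd, -⟩ := Nat.mem_divisorsAntidiagonal.1 hd
  have d0 : 0 < d.1 := Nat.pos_of_ne_zero (left_ne_zero_of_mul (hd ▸ h0))
  have e : n / d.1 = d.2 := hd ▸ Nat.mul_div_cancel_left _ d0
  rw [La, sum_mul, sum_div]
  refine sum_congr (ext fun w => ?_) fun w hw => ?_
  · rw [mem_filter, mem_W h0, mem_T, Prod.ext_iff]
    exact ⟨fun h => ⟨h.1.1, h.2.1⟩, fun h => ⟨⟨h.1, h.2 ▸ ⟨_, hd.symm⟩⟩, h.2, h.2 ▸ e⟩⟩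
  · rw [(mem_T.1 hw).2, e]
    change _ = _ * ((∑ z ∈ R d.2, xi t z) / 4)
    ring

theorem La_le (hB : Bas) (t : ℤ) (n : ℕ) : ‖La t n‖ ≤ L0 n :=
  (norm_sum_le _ _).trans (sum_le_sum fun w _ => by
    rw [norm_mul, Complex.norm_real, Real.norm_of_nonneg (Real.log_natCast_nonneg _)]
    exact mul_le_of_le_one_right (Real.log_natCast_nonneg _) (hB.xi_le _ _))

omit [NormalizationMonoid GI] in
theorem pw {p : GI} {m n l : ℕ} (hp : Prime p) (hm : 0 < m) (h : nm p ^ m = n) (hl : l.Prime)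
    (hd : p ∣ l) : ∃ k, k ≠ 0 ∧ n = l ^ k := by
  have h1 := nm_dvd hd
  rw [nm_nat] at h1
  obtain ⟨j, -, e⟩ := (Nat.dvd_prime_pow hl).1 h1
  have := two_le hp
  refine ⟨j * m, mul_ne_zero ?_ hm.ne', by rw [← h, e, pow_mul]⟩
  rintro rfl
  simp [e] at this

theorem L0_le (hB : Bas) (n : ℕ) : L0 n ≤ 2 * ArithmeticFunction.vonMangoldt n := by
  rcases (T n).eq_empty_or_nonempty with h | ⟨w0, h⟩
  · rw [L0, h, sum_empty]
    exact mul_nonneg zero_le_two ArithmeticFunction.vonMangoldt_nonneg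
  obtain ⟨h, h'⟩ := mem_T.1 h
  obtain ⟨l, hl, hd⟩ := below h.1
  obtain ⟨k, k0, hk⟩ := pw h.1 h.2.2 h' hl hd
  have l0 : l ^ 2 ≠ 0 := pow_ne_zero _ hl.ne_zero
  have h1 := key hB (Nat.cast_ne_zero.2 hl.ne_zero) (nm_nat l)
  have h2 : 2 * ArithmeticFunction.vonMangoldt n = Real.log (l ^ 2 : ℕ) := by
    rw [hk, ArithmeticFunction.vonMangoldt_apply_pow k0,
      ArithmeticFunction.vonMangoldt_apply_prime hl, Nat.cast_pow, Real.log_pow, Nat.cast_ofNat]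
  have h3 : L0 n = ∑ w ∈ (T n).image fun w => (w.1, 1), Real.log (nm w.1) := by
    rw [sum_image fun w hw w' hw' e => ?_]
    · rfl
    have e1 : w.1 = w'.1 := (Prod.ext_iff.1 e).1
    obtain ⟨h1, h2⟩ := mem_T.1 (mem_coe.1 hw)
    have h3 := (mem_T.1 (mem_coe.1 hw')).2
    rw [← e1] at h3
    exact Prod.ext e1 (Nat.pow_right_injective (two_le h1.1) (h2.trans h3.symm))
  rw [h2, ← h1, h3]
  refine sum_le_sum_of_subset_of_nonneg (fun x hx => ?_) fun _ _ _ => Real.log_natCast_nonneg _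
  obtain ⟨w, hw, rfl⟩ := mem_image.1 hx
  obtain ⟨h1, h2⟩ := mem_T.1 hw
  obtain ⟨l', hl', hd'⟩ := below h1.1
  obtain ⟨k', k0', hk'⟩ := pw h1.1 h1.2.2 h2 hl' hd'
  have e : l' = l := (Nat.prime_dvd_prime_iff_eq hl' hl).1
    (hl'.dvd_of_dvd_pow ((dvd_pow_self l' k0').trans (hk'.symm.trans hk).dvd))
  rw [e] at hd'
  have h4 := nm_dvd hd'
  rw [nm_nat] at h4
  exact mem_filter.2 ⟨(mem_W l0).2 ⟨⟨h1.1, h1.2.1, one_pos⟩, (pow_one _).dvd.trans h4⟩,
    (pow_one _).dvd.trans hd'⟩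

theorem tfo (hB : Bas) (t : ℤ) (τ : ℝ) {n : ℕ} (hn : 1 ≤ n) :
    0 ≤ 3 * L0 n + 4 * (La t n / (n : ℂ) ^ (τ * Complex.I)).re +
      (La (2 * t) n / (n : ℂ) ^ (2 * τ * Complex.I)).re := by
  have h1 : ‖(n : ℂ) ^ (τ * Complex.I)‖ = 1 := by
    rw [Complex.norm_natCast_cpow_of_pos hn]; simp
  have h2 : (n : ℂ) ^ (2 * τ * Complex.I) = ((n : ℂ) ^ (τ * Complex.I)) ^ 2 := by
    rw [← Complex.cpow_nat_mul, mul_assoc]; rfl
  simp only [L0, La, h2, sum_div, Complex.re_sum, mul_sum, ← sum_add_distrib, hB.xi_two,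
    mul_div_assoc, ← div_pow, Complex.re_ofReal_mul]
  refine sum_nonneg fun w _ => ?_
  have h3 : ‖xi t (w.1 ^ w.2) / (n : ℂ) ^ (τ * Complex.I)‖ ≤ 1 := by
    rw [norm_div, h1, div_one]; exact hB.xi_le _ _
  generalize xi t (w.1 ^ w.2) / (n : ℂ) ^ (τ * Complex.I) = u at h3
  have h4 : u.re * u.re + u.im * u.im ≤ 1 := by
    rw [← Complex.normSq_apply, Complex.normSq_eq_norm_sq]
    exact pow_le_one₀ (norm_nonneg _) h3
  have h5 : 0 ≤ 3 + 4 * u.re + (u ^ 2).re := by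
    rw [sq, Complex.mul_re]; nlinarith [sq_nonneg (u.re + 1)]
  nlinarith [mul_nonneg (Real.log_natCast_nonneg (nm w.1)) h5]

theorem at_prime (hB : Bas) {l : ℕ} (hl : l.Prime) (h2 : l ≠ 2) :
    (¬Split l → L0 l = 0) ∧ ∀ t, La t l = (Real.log l : ℂ) * fp t l := by
  have m : ∀ w, w ∈ T l ↔ Pp w ∧ nm w.1 = l ∧ w.2 = 1 := fun w => by
    rw [mem_T]
    exact ⟨fun h => ⟨h.1, (hl.pow_eq_iff.1 h.2)⟩, fun h => ⟨h.1, by rw [h.2.1, h.2.2, pow_one]⟩⟩
  by_cases hs : Split l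
  · refine ⟨fun h => (h hs).elim, fun t => ?_⟩
    have g := fun ε => hG.2.2.2.2.2.2.2.2.1 l ε hs
    have n1 : ∀ ε, nm (normalize (cp l ε)) = l := fun ε => (Nat.dvd_antisymm
      (nm_dvd (normalize_associated _).dvd) (nm_dvd (associated_normalize _).dvd)).trans (g ε).1
    have e : T l = {(normalize (cp l true), 1), (normalize (cp l false), 1)} := by
      ext w
      rw [m, mem_insert, mem_singleton]
      refine ⟨fun ⟨h1, h3, h4⟩ => ((g true).2.2.2.2.2.2.2.2.2.1 w.1).1 h3.symm.dvd |>.imp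
        (fun h => ?_) fun h => ?_, ?_⟩
      · exact Prod.ext (h1.2.1.symm.trans (normalize_eq_normalize_iff_associated.2
          ((g true).2.1.associated_of_dvd h1.1 h).symm)) h4
      · exact Prod.ext (h1.2.1.symm.trans (normalize_eq_normalize_iff_associated.2
          ((g false).2.1.associated_of_dvd h1.1 h).symm)) h4
      · rintro (rfl | rfl) <;>
          exact ⟨⟨(associated_normalize _).prime (g _).2.1, normalize_idem _, one_pos⟩, n1 _, rfl⟩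
    rw [La, e, sum_pair fun h => (g true).2.1.not_unit ((g true).2.2.2.2.1.isUnit_of_dvd
      (normalize_eq_normalize_iff_associated.1 (congrArg Prod.fst h)).dvd), fp, if_pos hs]
    simp only [pow_one, n1, xi_assoc hB t (normalize_associated _), mul_add]
  · have e : T l = ∅ := eq_empty_of_forall_notMem fun w hw => hs ⟨hl, by
      have h3 := hG.2.2.1 w.1
      rw [((m w).1 hw).2.1] at h3
      have h4 := hl.eq_two_or_odd.resolve_left h2
      have h5 := Int.sq_mod_four_eq_one_of_odd (x := w.1.re)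
      have h6 := Int.sq_mod_four_eq_one_of_odd (x := w.1.im)
      have h7 : ∀ x : ℤ, Even x → x ^ 2 % 4 = 0 := fun x ⟨y, hy⟩ => by
        rw [hy, show (y + y) ^ 2 = 4 * y ^ 2 by ring, Int.mul_emod_right]
      rcases Int.even_or_odd w.1.re with a | a <;> rcases Int.even_or_odd w.1.im with b | b <;>
        first | have := h7 _ a | have := h5 a
      all_goals first | have := h7 _ b | have := h6 b
      all_goals omega⟩
    simp [L0, La, e, fp, hs]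

end Ar

open Ar in
theorem ar (hB : Bas) : ArSt := by
  obtain ⟨i⟩ : Nonempty (NormalizationMonoid GI) := inferInstance
  exact ⟨La, L0, ff_one hB, ff_sum hB, conv hB, La_le hB, L0_le hB, fun t τ _ => tfo hB t τ,
    fun _ => at_prime hB⟩

end

end Pool.Agent.Lib.MP_4b1228_nt.GS
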