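import Pool.Agent.Lib.MP_4b1228_nt.GS.St

/-! Characters, weights, annuli: the basic facts. -/

namespace Pool.Agent.Lib.MP_4b1228_nt.GS

open Finset Pool.Agent.Lib.MP_9d27bc_nt.C Pool.Agent.Lib.MP_9d27bc_nt.C.Two
open scoped Classical ComplexConjugate

namespace BasP

theorem nm_nat (m : GI) : nm m = m.re.natAbs ^ 2 + m.im.natAbs ^ 2 := by
  have := hG.2.2.1 m
  zify
  rw [this, sq_abs, sq_abs]

theorem nm_one : nm 1 = 1 := by simp [nm]

theorem unit_cases {u : GI} (h : IsUnit u) : u = 1 ∨ u = -1 ∨ u = ⟨0, 1⟩ ∨ u = ⟨0, -1⟩ := by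
  have h1 : nm u = 1 := Zsqrtd.norm_eq_one_iff.2 h
  rw [nm_nat] at h1
  have h2 : u.re.natAbs ≤ 1 := by nlinarith
  have h3 : u.im.natAbs ≤ 1 := by nlinarith
  obtain ⟨a, b⟩ := u
  simp only [Zsqrtd.ext_iff, Zsqrtd.re_one, Zsqrtd.im_one, Zsqrtd.re_neg, Zsqrtd.im_neg] at *
  rcases Nat.le_one_iff_eq_zero_or_eq_one.1 h2 with h | h <;>
    rcases Nat.le_one_iff_eq_zero_or_eq_one.1 h3 with h' | h' <;> rw [h, h'] at h1 <;> omega

theorem dir_unit {u : GI} (h : IsUnit u) : dir u ^ 4 = 1 := by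
  have h1 : nm u = 1 := Zsqrtd.norm_eq_one_iff.2 h
  have h2 : ‖(u : ℂ)‖ = 1 := by
    have := hA.nm_eq u
    rw [h1, Nat.cast_one] at this
    exact (pow_eq_one_iff_of_nonneg (norm_nonneg _) two_ne_zero).1 this.symm
  have h3 : u ^ 4 = 1 := by
    rcases unit_cases h with rfl | rfl | rfl | rfl <;> decide
  rw [dir, h2, Complex.ofReal_one, div_one, ← map_pow, h3, map_one]

theorem xi_eq (t : ℤ) (a : GI) : xi t a = (dir a ^ 4) ^ t := by
  rw [xi, chi, zpow_mul]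
  rfl

theorem xi_one (t : ℤ) : xi t 1 = 1 := by rw [xi_eq, dir_unit isUnit_one, one_zpow]

theorem xi_star (t : ℤ) (a : GI) : xi t (star a) = conj (xi t a) := by
  simp only [xi, chi, dir, GaussianInt.toComplex_star, map_zpow₀, map_div₀, Complex.conj_ofReal,
    Complex.norm_conj]

theorem nm_pos (a : GI) : a ≠ 0 ↔ 1 ≤ nm a := by
  rw [Nat.one_le_iff_ne_zero, nm, Ne, Ne, Int.natAbs_eq_zero, GaussianInt.norm_eq_zero]

theorem nm_prod {ι : Type} (s : Finset ι) (f : ι → GI) :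
    nm (∏ i ∈ s, f i) = ∏ i ∈ s, nm (f i) := by
  induction s using Finset.cons_induction with
  | empty => simpa using nm_one
  | cons a s h ih => rw [prod_cons, prod_cons, hG.1, ih]

theorem xi_prod {ι : Type} (t : ℤ) (s : Finset ι) (f : ι → GI) :
    xi t (∏ i ∈ s, f i) = ∏ i ∈ s, xi t (f i) := by
  induction s using Finset.cons_induction with
  | empty => simpa using xi_one t
  | cons a s h ih => rw [prod_cons, prod_cons, ← ih]; exact hA.chi_mul _ _ _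

variable {ι κ : Type} (S : Finset ι) (v : ι → GI)

theorem hat_zero : hat S v 0 = D0 S v := by simp [hat, D0, xi_eq]

theorem ex {Z : ℕ} (hZ : 1 ≤ Z) (h : ∀ i ∈ S, v i ≠ 0) : ((∑ i ∈ S, ww Z (v i) : ℝ) : ℂ) =
    ∑ t ∈ fr Z, ((1 - |(t : ℝ)| / Z : ℝ) : ℂ) * hat S v t := by
  simp only [hat, mul_sum]
  rw [sum_comm, Complex.ofReal_sum]
  refine sum_congr rfl fun i hi => ?_
  rw [ww, Complex.ofReal_div, hK.expand Z _ hZ (by rw [norm_pow, hA.norm_dir _ (h i hi), one_pow]),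
    sum_div]
  exact sum_congr rfl fun t _ => by rw [xi_eq, mul_div_assoc, Complex.ofReal_natCast]

theorem co {Z : ℕ} (hZ : 1 ≤ Z) {t : ℤ} (h : t ∈ fr Z) :
    0 ≤ |(t : ℝ)| / Z ∧ |(t : ℝ)| / Z ≤ 1 := by
  have h1 : |t| ≤ Z := abs_le.2 (mem_Icc.1 h)
  have h2 : (0 : ℝ) < Z := by exact_mod_cast hZ
  exact ⟨by positivity, (div_le_one h2).2 (by exact_mod_cast h1)⟩

theorem expand {Z : ℕ} (hZ : 1 ≤ Z) (h : ∀ i ∈ S, v i ≠ 0) :
    |∑ i ∈ S, ww Z (v i) - D0 S v| ≤ ∑ t ∈ fz Z, ‖hat S v t‖ := by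
  have h0 : (0 : ℤ) ∈ fr Z := mem_Icc.2 ⟨by omega, by omega⟩
  rw [← Real.norm_eq_abs, ← Complex.norm_real, Complex.ofReal_sub, ex S v hZ h,
    ← add_sum_erase _ _ h0, hat_zero]
  simp only [Int.cast_zero, abs_zero, zero_div, sub_zero, Complex.ofReal_one, one_mul,
    add_sub_cancel_left]
  refine (norm_sum_le _ _).trans (sum_le_sum fun t ht => ?_)
  have := co hZ (mem_of_mem_erase ht)
  rw [norm_mul, Complex.norm_real, Real.norm_of_nonneg (by linarith)]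
  exact mul_le_of_le_one_left (norm_nonneg _) (by linarith)

theorem hat_mul (S' : Finset κ) (v' : κ → GI) (t : ℤ) :
    hat (S ×ˢ S') (fun w => v w.1 * v' w.2) t = hat S v t * hat S' v' t := by
  rw [hat, hat, hat, sum_mul_sum, sum_product]
  refine sum_congr rfl fun i _ => sum_congr rfl fun k _ => ?_
  rw [hG.1, Nat.cast_mul, div_mul_div_comm]
  exact congrArg (· / _) (hA.chi_mul _ _ _)

theorem hat_pi [Fintype κ] [DecidableEq κ] (S : κ → Finset ι) (t : ℤ) :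
    hat (Fintype.piFinset S) (fun f => ∏ k, v (f k)) t = ∏ k, hat (S k) v t := by
  simp only [hat]
  rw [prod_univ_sum]
  exact sum_congr rfl fun f _ => by rw [xi_prod, nm_prod, Nat.cast_prod, prod_div_distrib]

theorem energy {Z : ℕ} (hZ : 1 ≤ Z) (h : ∀ i ∈ S, v i ≠ 0) :
    ∑ t ∈ fr Z, ‖hat S v t‖ ^ 2 ≤ 2 * ∑ i ∈ S, ∑ k ∈ S, ww (2 * Z) (star (v i) * v k) := by
  have h2 : 1 ≤ 2 * Z := by omega
  have e := ex (S ×ˢ S) (fun w => star (v w.1) * v w.2) h2 fun w hw =>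
    mul_ne_zero (star_ne_zero.2 (h _ (mem_product.1 hw).1)) (h _ (mem_product.1 hw).2)
  have e1 : ∀ t, hat S (fun i => star (v i)) t = conj (hat S v t) := fun t => by
    simp only [hat, map_sum, map_div₀, xi_star, hG.2.1, map_natCast]
  simp only [hat_mul S (fun i => star (v i)) S v, e1, Complex.conj_mul'] at e
  rw [sum_product] at e
  have e2 : ∑ i ∈ S, ∑ k ∈ S, ww (2 * Z) (star (v i) * v k) =
      ∑ t ∈ fr (2 * Z), (1 - |(t : ℝ)| / (2 * Z : ℕ)) * ‖hat S v t‖ ^ 2 := by exact_mod_cast e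
  have h3 : fr Z ⊆ fr (2 * Z) := Icc_subset_Icc (by push_cast; omega) (by push_cast; omega)
  rw [e2]
  refine le_trans ?_ (mul_le_mul_of_nonneg_left (sum_le_sum_of_subset_of_nonneg h3 fun t ht _ =>
    mul_nonneg (sub_nonneg.2 (co h2 ht).2) (sq_nonneg _)) zero_le_two)
  rw [mul_sum]
  refine sum_le_sum fun t ht => ?_
  have h4 := (co hZ ht).2
  have h5 : |(t : ℝ)| / (2 * Z : ℕ) = |(t : ℝ)| / Z / 2 := by push_cast; ring
  rw [h5]
  nlinarith [sq_nonneg ‖hat S v t‖]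

theorem mx_nm (m : GI) : mx m ^ 2 ≤ nm m ∧ nm m ≤ 2 * mx m ^ 2 := by
  rw [nm_nat, mx]
  rcases le_total m.re.natAbs m.im.natAbs with h | h
  · rw [max_eq_right h]
    have := Nat.pow_le_pow_left h 2
    omega
  · rw [max_eq_left h]
    have := Nat.pow_le_pow_left h 2
    omega

theorem mem_Sq (P₁ P₂ : ℝ) (m : GI) : m ∈ Sq P₁ P₂ ↔ P₁ < mx m ∧ (mx m : ℝ) ≤ P₂ := by
  rw [Sq, mem_filter, hA.mem_disc, and_iff_right_iff_imp]
  intro h
  have h1 : (nm m : ℝ) ≤ 2 * (mx m : ℝ) ^ 2 := by exact_mod_cast (mx_nm m).2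
  have h2 := pow_le_pow_left₀ (Nat.cast_nonneg _) h.2 2
  linarith

theorem harm {a b : ℕ} (ha : 1 ≤ a) (h : a ≤ b) :
    ∑ n ∈ Icc a b, 1 / (n : ℝ) ≤ 1 + Real.log (b / a) := by
  have h0 : (1 : ℝ) ≤ a := by exact_mod_cast ha
  induction b, h using Nat.le_induction with
  | base =>
    rw [Icc_self, sum_singleton, div_self (by linarith), Real.log_one, add_zero]
    exact (div_le_one (by linarith)).2 h0
  | succ b h ih =>
    have h1 : (1 : ℝ) ≤ b := h0.trans (by exact_mod_cast h)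
    have h2 := Real.log_le_sub_one_of_pos (x := b / (b + 1)) (by positivity)
    have h3 : (b : ℝ) / (b + 1) - 1 = -(1 / (b + 1)) := by field_simp; ring
    rw [sum_Icc_succ_top (by omega), Nat.cast_succ]
    rw [Real.log_div (by linarith) (by linarith)] at h2 ih ⊢
    linarith

theorem card_mx (T : Finset GI) {n : ℕ} (hn : 1 ≤ n) : #{m ∈ T | mx m = n} ≤ 12 * n := by
  have h1 : #(Icc (-(n : ℤ)) n) = 2 * n + 1 := by rw [Int.card_Icc]; omega
  have h2 : #({(n : ℤ), -(n : ℤ)} : Finset ℤ) ≤ 2 := card_le_two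
  refine (card_le_card_of_injOn (t := ({(n : ℤ), -(n : ℤ)} : Finset ℤ) ×ˢ Icc (-(n : ℤ)) n ∪
    Icc (-(n : ℤ)) n ×ˢ ({(n : ℤ), -(n : ℤ)} : Finset ℤ)) (fun m => (m.re, m.im))
    (fun m hm => ?_) fun m _ m' _ h => Zsqrtd.ext (congrArg Prod.fst h) (congrArg Prod.snd h)).trans
    ((card_union_le _ _).trans ?_)
  · have := (mem_filter.1 hm).2
    rw [mx] at this
    simp only [coe_union, coe_product, Set.mem_union, Set.mem_prod, mem_coe, mem_insert,
      mem_singleton, mem_Icc]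
    omega
  · rw [card_product, card_product, h1]
    nlinarith

theorem m0_le {P₁ P₂ : ℝ} (h0 : 0 < P₁) (h : P₁ ≤ P₂) :
    m0 P₁ P₂ ≤ 12 * (1 + Real.log (P₂ / P₁)) := by
  have hl : 0 ≤ Real.log (P₂ / P₁) := Real.log_nonneg ((one_le_div h0).2 h)
  have hm : ∀ m ∈ Sq P₁ P₂, mx m ∈ Icc (⌊P₁⌋₊ + 1) ⌊P₂⌋₊ := fun m hm => by
    rw [mem_Sq] at hm
    exact mem_Icc.2 ⟨(Nat.floor_lt h0.le).2 hm.1, Nat.le_floor hm.2⟩
  have h1 : m0 P₁ P₂ ≤ 12 * ∑ n ∈ Icc (⌊P₁⌋₊ + 1) ⌊P₂⌋₊, 1 / (n : ℝ) := by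
    rw [m0, ← sum_fiberwise_of_maps_to hm, mul_sum]
    refine sum_le_sum fun n hn => ?_
    have h2 : 1 ≤ n := by have := (mem_Icc.1 hn).1; omega
    have h3 : (0 : ℝ) < n := by exact_mod_cast h2
    refine (sum_le_card_nsmul _ _ (1 / (n : ℝ) ^ 2) fun m hm' => ?_).trans ?_
    · refine one_div_le_one_div_of_le (by positivity) ?_
      rw [← (mem_filter.1 hm').2]
      exact_mod_cast (mx_nm m).1
    · have h4 : (#{m ∈ Sq P₁ P₂ | mx m = n} : ℝ) ≤ 12 * n := by exact_mod_cast card_mx _ h2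
      rw [nsmul_eq_mul]
      refine (mul_le_mul_of_nonneg_right h4 (by positivity)).trans (le_of_eq ?_)
      field_simp
  refine h1.trans (mul_le_mul_of_nonneg_left ?_ (by norm_num))
  rcases le_or_gt (⌊P₁⌋₊ + 1) ⌊P₂⌋₊ with h2 | h2
  · have h3 : (0 : ℝ) < ⌊P₂⌋₊ := by exact_mod_cast (by omega : 0 < ⌊P₂⌋₊)
    refine (harm (by omega) h2).trans (add_le_add le_rfl (Real.log_le_log (by positivity) ?_))
    refine div_le_div₀ (h0.le.trans h) (Nat.floor_le (h0.le.trans h)) h0 ?_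
    rw [Nat.cast_succ]
    exact (Nat.lt_floor_add_one P₁).le
  · rw [Icc_eq_empty_of_lt h2, sum_empty]
    linarith

theorem D0_le {B : ℕ} {Y : ℝ} (hB : Mult S v B) (hY : 1 ≤ Y) (h : ∀ i ∈ S, (nm (v i) : ℝ) ≤ Y) :
    D0 S v ≤ 24 * B * (1 + Real.log Y) := by
  have h1 : D0 S v = ∑ i ∈ S with v i ≠ 0, 1 / (nm (v i) : ℝ) := by
    refine (sum_filter_of_ne (p := fun i => v i ≠ 0) fun i _ hi e => hi ?_).symm
    simp [e, nm]
  have hm : ∀ i ∈ {i ∈ S | v i ≠ 0}, v i ∈ Sq (1 / 2) Y := fun i hi => by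
    have a1 := (nm_pos _).1 (mem_filter.1 hi).2
    have a2 := mx_nm (v i)
    have a3 : 1 ≤ mx (v i) := by
      by_contra e
      rw [show mx (v i) = 0 by omega] at a2
      omega
    have a4 : mx (v i) ≤ nm (v i) := by nlinarith
    have a5 : (1 : ℝ) ≤ mx (v i) := by exact_mod_cast a3
    exact (mem_Sq _ _ _).2 ⟨by linarith, le_trans (by exact_mod_cast a4) (h i (mem_filter.1 hi).1)⟩
  have h2 : D0 S v ≤ B * m0 (1 / 2) Y := by
    rw [h1, ← sum_fiberwise_of_maps_to hm, m0, mul_sum]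
    refine sum_le_sum fun a _ => ?_
    rw [sum_congr rfl fun i hi => by rw [(mem_filter.1 hi).2], sum_const, nsmul_eq_mul]
    refine mul_le_mul_of_nonneg_right ?_ (by positivity)
    exact_mod_cast (card_le_card (filter_subset_filter _ (filter_subset _ _))).trans (hB a)
  have h3 := m0_le (P₁ := 1 / 2) (P₂ := Y) (by norm_num) (by linarith)
  rw [show Y / (1 / 2) = 2 * Y by ring, Real.log_mul two_ne_zero (by linarith)] at h3
  have h4 := Real.log_le_sub_one_of_pos (x := 2) two_pos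
  have h5 := Real.log_nonneg hY
  have h6 : m0 (1 / 2) Y ≤ 24 * (1 + Real.log Y) := by linarith
  refine h2.trans ((mul_le_mul_of_nonneg_left h6 (Nat.cast_nonneg B)).trans (le_of_eq ?_))
  ring

end BasP

theorem bas : Bas where
  xi_mul _ := hA.chi_mul _
  xi_unit t u a h := by rw [BasP.xi_eq, BasP.xi_eq, hA.dir_mul, mul_pow, BasP.dir_unit h, one_mul]
  xi_zero a := by rw [BasP.xi_eq, zpow_zero]
  xi_star := BasP.xi_star
  xi_le _ := hA.norm_chi_le _
  xi_two t a := by rw [BasP.xi_eq, BasP.xi_eq, mul_comm, zpow_mul]; rfl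
  norm_xi _ := hA.norm_chi _
  nm_pos := BasP.nm_pos
  nm_prod _ := BasP.nm_prod
  ww_nonneg _ _ := div_nonneg (hK.nonneg _ _) (Nat.cast_nonneg _)
  ww_unit Z u a h := by
    rw [ww, ww, hA.dir_mul, mul_pow, BasP.dir_unit h, one_mul, hG.1,
      show nm u = 1 from Zsqrtd.norm_eq_one_iff.2 h, one_mul]
  ww_one a := by simp [ww, ker]
  expand _ S v _ := BasP.expand S v
  energy _ S v _ := BasP.energy S v
  hat_le _ S v t := (norm_sum_le _ _).trans (sum_le_sum fun i _ => by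
    rw [norm_div, Complex.norm_natCast]
    exact div_le_div_of_nonneg_right (hA.norm_chi_le _ _) (Nat.cast_nonneg _))
  hat_mul _ _ := BasP.hat_mul
  hat_pi _ _ _ _ S v := BasP.hat_pi v S
  D0_mul _ _ S v S' v' := by
    have := BasP.hat_mul S v S' v' 0
    simp only [BasP.hat_zero] at this
    exact_mod_cast this
  D0_pi _ _ _ _ S v := by
    have := BasP.hat_pi v S 0
    simp only [BasP.hat_zero] at this
    exact_mod_cast this
  mem_Sq := BasP.mem_Sq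
  mx_nm := BasP.mx_nm
  mx_unit u a h := by
    rcases BasP.unit_cases h with rfl | rfl | rfl | rfl <;> simp [mx, max_comm]
  m0_le := ⟨12, by norm_num, fun _ _ => BasP.m0_le⟩
  D0_le := ⟨24, by norm_num, fun _ S v _ _ => BasP.D0_le S v⟩

end Pool.Agent.Lib.MP_4b1228_nt.GS
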