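import Pool.Agent.Lib.MP_4b1228_nt.GS.St

/-! Boxes of Gaussian primes. -/

namespace Pool.Agent.Lib.MP_4b1228_nt.GS

open Finset Filter Topology Pool.Agent.Lib.MP_9d27bc_nt.C Pool.Agent.Lib.MP_9d27bc_nt.C.Two
open scoped Classical

namespace Box

theorem nm_cp {l : ℕ} (h : Split l) (ε : Bool) : nm (cp l ε) = l :=
  (hG.2.2.2.2.2.2.2.2.1 l ε h).1

theorem cp_inj {l l' : ℕ} {ε ε' : Bool} (h : Split l) (h' : Split l') (e : cp l ε = cp l' ε') :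
    l = l' ∧ ε = ε' :=
  (hG.2.2.2.2.2.2.2.2.1 l ε h).2.2.2.2.2.2.2.2.2.2.2.2.2.2 l' ε' h' e

theorem mem_im (z₁ z₂ : ℝ) (p : GI) :
    p ∈ (sp z₁ z₂ ×ˢ (univ : Finset Bool)).image (fun w => cp w.1 w.2) ↔
      ∃ (l : ℕ) (ε : Bool), Split l ∧ p = cp l ε ∧ z₁ < l ∧ (l : ℝ) ≤ z₂ := by
  rw [mem_image]
  constructor
  · rintro ⟨⟨l, ε⟩, h, rfl⟩
    have := Mer.mem_sp.1 (mem_product.1 h).1
    exact ⟨l, ε, this.1, rfl, this.2⟩
  · rintro ⟨l, ε, h1, rfl, h2⟩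
    exact ⟨(l, ε), mem_product.2 ⟨Mer.mem_sp.2 ⟨h1, h2⟩, mem_univ _⟩, rfl⟩

theorem sum_im {M : Type} [AddCommMonoid M] (z₁ z₂ : ℝ) (f : GI → M) :
    ∑ p ∈ (sp z₁ z₂ ×ˢ (univ : Finset Bool)).image (fun w => cp w.1 w.2), f p =
      ∑ l ∈ sp z₁ z₂, (f (cp l true) + f (cp l false)) := by
  rw [sum_image, sum_product]
  · simp only [Fintype.sum_bool]
  · intro a ha b hb e
    have := cp_inj (Mer.mem_sp.1 (mem_product.1 ha).1).1 (Mer.mem_sp.1 (mem_product.1 hb).1).1 e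
    exact Prod.ext this.1 this.2

theorem D0_im (z₁ z₂ : ℝ) :
    D0 ((sp z₁ z₂ ×ˢ (univ : Finset Bool)).image fun w => cp w.1 w.2) id =
      ∑ l ∈ sp z₁ z₂, 2 / (l : ℝ) := by
  rw [D0, sum_im]
  refine sum_congr rfl fun l hl => ?_
  have := (Mer.mem_sp.1 hl).1
  rw [id, id, nm_cp this, nm_cp this]
  ring

variable {y : ℝ} {j J : ℕ} {p : GI}

theorem ix_eq' (hy : 1 < y) (h : p ∈ Bx y j) : ix y p = j := by
  obtain ⟨l, ε, h1, rfl, h2, h3⟩ := (mem_im _ _ _).1 h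
  have h0 : (0 : ℝ) < l := lt_of_le_of_lt (by positivity) h2
  have : ⌈Real.logb y l⌉₊ = j + 1 := by
    rw [Nat.ceil_eq_iff (by omega), Real.lt_logb_iff_rpow_lt hy h0,
      Real.logb_le_iff_le_rpow hy h0, Real.rpow_natCast, Real.rpow_natCast]
    exact ⟨h2, h3⟩
  rw [ix, nm_cp h1, this]
  rfl

theorem ex_ix {x : ℝ} (hy : 1 < y) (h1 : y ^ j < x) (h2 : x ≤ y ^ J) :
    ∃ k ∈ Ico j J, y ^ k < x ∧ x ≤ y ^ (k + 1) := by
  induction J with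
  | zero => exact absurd ((pow_lt_pow_iff_right₀ hy).1 (h1.trans_le h2)) (by omega)
  | succ J ih =>
    by_cases h : x ≤ y ^ J
    · obtain ⟨k, hk, a⟩ := ih h
      have := mem_Ico.1 hk
      exact ⟨k, mem_Ico.2 ⟨this.1, by omega⟩, a⟩
    · have := (pow_lt_pow_iff_right₀ hy).1 (h1.trans_le h2)
      exact ⟨J, mem_Ico.2 ⟨by omega, by omega⟩, not_le.1 h, h2⟩

theorem PP_eq (hy : 1 < y) (j J : ℕ) :
    PP y j J = (sp (y ^ j) (y ^ J) ×ˢ (univ : Finset Bool)).image fun w => cp w.1 w.2 := by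
  ext p
  rw [mem_im, PP, mem_biUnion]
  constructor
  · rintro ⟨k, hk, h⟩
    obtain ⟨l, ε, h1, h2, h3, h4⟩ := (mem_im _ _ _).1 h
    have := mem_Ico.1 hk
    exact ⟨l, ε, h1, h2, (pow_le_pow_right₀ hy.le this.1).trans_lt h3,
      h4.trans (pow_le_pow_right₀ hy.le (by omega))⟩
  · rintro ⟨l, ε, h1, h2, h3, h4⟩
    obtain ⟨k, hk, a⟩ := ex_ix hy h3 h4
    exact ⟨k, hk, (mem_im _ _ _).2 ⟨l, ε, h1, h2, a⟩⟩

theorem ix_PP' (hy : 1 < y) (h : p ∈ PP y j J) :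
    j ≤ ix y p ∧ ix y p < J ∧ p ∈ Bx y (ix y p) := by
  obtain ⟨k, hk, h⟩ := mem_biUnion.1 h
  rw [ix_eq' hy h]
  exact ⟨(mem_Ico.1 hk).1, (mem_Ico.1 hk).2, h⟩

theorem gen (hB : Bas) {κ : Type} (s : Finset κ) (jv : κ → ℕ) (f : κ → GI) (hy : 1 < y)
    (h : ∀ k ∈ s, j ≤ jv k ∧ f k ∈ Bx y (jv k)) : y ^ (∑ k ∈ s, jv k) ≤ nm (∏ k ∈ s, f k) ∧
    (nm (∏ k ∈ s, f k) : ℝ) ≤ y ^ (∑ k ∈ s, jv k + #s) ∧ Rough (y ^ j) (nm (∏ k ∈ s, f k)) := by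
  have h1 : ∀ k ∈ s, (nm (f k)).Prime ∧ y ^ jv k < nm (f k) ∧ (nm (f k) : ℝ) ≤ y ^ (jv k + 1) := by
    intro k hk
    obtain ⟨l, ε, a1, a2, a3⟩ := (mem_im _ _ _).1 (h k hk).2
    rw [a2, nm_cp a1]
    exact ⟨a1.1, a3⟩
  rw [hB.nm_prod]
  refine ⟨?_, ?_, fun l hl hd => ?_⟩
  · rw [← prod_pow_eq_pow_sum, Nat.cast_prod]
    exact prod_le_prod (fun k _ => by positivity) fun k hk => (h1 k hk).2.1.le
  · rw [card_eq_sum_ones, ← sum_add_distrib, ← prod_pow_eq_pow_sum, Nat.cast_prod]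
    exact prod_le_prod (fun k _ => by positivity) fun k hk => (h1 k hk).2.2
  · obtain ⟨k, hk, a⟩ := hl.prime.exists_mem_finset_dvd hd
    rw [(Nat.prime_dvd_prime_iff_eq hl (h1 k hk).1).1 a]
    exact (pow_le_pow_right₀ hy.le (h k hk).1).trans_lt (h1 k hk).2.1

theorem D0_bd : ∃ C : ℝ, 1 ≤ C ∧ ∀ (y : ℝ) (j J R : ℕ), 2 ≤ y → 1 ≤ j → 1 ≤ R → J ≤ R * j →
    ∑ l ∈ sp (y ^ j) (y ^ J), 2 / (l : ℝ) ≤ C + Real.log R := by
  obtain ⟨C, hC, h, -⟩ := hM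
  refine ⟨C, hC, fun y j J R hy hj hR hJ => ?_⟩
  have hy1 : 1 < y := by linarith
  have hR' : (1 : ℝ) ≤ R := by exact_mod_cast hR
  have hj' : (1 : ℝ) ≤ j := by exact_mod_cast hj
  have hl := Real.log_pos hy1
  have h1 : y ^ j ≤ y ^ (R * j) := pow_le_pow_right₀ hy1.le (Nat.le_mul_of_pos_left _ hR)
  have h2 := (abs_le.1 (h (y ^ j) (y ^ (R * j)) (hy.trans (le_self_pow₀ hy1.le (by omega))) h1)).2
  have e : Real.log (y ^ (R * j)) / Real.log (y ^ j) = R := by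
    rw [Real.log_pow, Real.log_pow]
    push_cast
    field_simp
  rw [e] at h2
  refine le_trans (sum_le_sum_of_subset_of_nonneg (fun l hl => ?_) fun l _ _ => by positivity)
    (sub_le_iff_le_add.1 h2)
  have := Mer.mem_sp.1 hl
  exact Mer.mem_sp.2 ⟨this.1, this.2.1, this.2.2.trans (pow_le_pow_right₀ hy1.le hJ)⟩

end Box

open Box in
theorem box (hB : Bas) : Box where
  mem_Bx _ _ _ := mem_im _ _ _
  ix_eq _ _ _ := ix_eq'
  mem_PP _ _ _ _ hy := by rw [PP_eq hy, mem_im]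
  ix_PP _ _ _ _ := ix_PP'
  sum_PP y j J f hy := sum_biUnion fun a _ b _ hab => disjoint_left.2 fun p h1 h2 =>
    hab ((ix_eq' hy h1).symm.trans (ix_eq' hy h2))
  hat_Bx y j t := by
    rw [hat, Bx, sum_im]
    refine sum_congr rfl fun l hl => ?_
    have := (Mer.mem_sp.1 hl).1
    rw [id, id, nm_cp this, nm_cp this, fp, if_pos this, add_div]
  D0_Bx _ _ := D0_im _ _
  D0_PP _ _ _ hy := by rw [PP_eq hy, D0_im]
  nm_set y j J S hy hS := by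
    have h := gen (j := j) hB S (ix y) (fun π => π) hy fun k hk =>
      ⟨(ix_PP' hy (hS hk)).1, (ix_PP' hy (hS hk)).2.2⟩
    refine ⟨h.1, h.2.1, ?_, h.2.2⟩
    rw [mul_comm]
    exact card_nsmul_le_sum S (ix y) j fun k hk => (ix_PP' hy (hS hk)).1
  nm_tup _ _ _ _ jv f hy h := gen hB univ jv f hy fun k _ => h k
  D0_box := by
    obtain ⟨C, -, h⟩ := D0_bd
    refine ⟨⌈C + Real.log (2 : ℕ)⌉₊, fun y j hy hj => ?_⟩
    rw [Bx, D0_im]
    exact (h y j (j + 1) 2 hy hj (by omega) (by omega)).trans (Nat.le_ceil _)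
  exp_PP := by
    obtain ⟨C, -, h⟩ := D0_bd
    refine ⟨2 * Real.exp C, by positivity, fun y j J R hy hj hR hJ => ?_⟩
    have hR' : (0 : ℝ) < R := by exact_mod_cast hR
    have h1 : Real.exp (D0 (PP y j J) id) ≤ Real.exp C * R := by
      rw [PP_eq (by linarith), D0_im, ← Real.exp_log hR', ← Real.exp_add]
      exact Real.exp_le_exp.2 (h y j J R hy hj hR hJ)
    have h0 : 0 ≤ D0 (PP y j J) id := sum_nonneg fun _ _ => by positivity
    have h2 := Real.quadratic_le_exp_of_nonneg h0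
    have h3 : 0 < Real.exp C * R := by positivity
    refine ⟨?_, by linarith⟩
    have e : D0 (PP y j J).powerset (fun S => ∏ π ∈ S, π) =
        ∏ π ∈ PP y j J, (1 + 1 / (nm π : ℝ)) := by
      rw [prod_one_add, D0]
      refine sum_congr rfl fun S _ => ?_
      rw [hB.nm_prod, Nat.cast_prod, prod_div_distrib, prod_const_one]
    have h4 : ∏ π ∈ PP y j J, (1 + 1 / (nm π : ℝ)) ≤ Real.exp (D0 (PP y j J) id) := by
      rw [D0, Real.exp_sum]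
      exact prod_le_prod (fun _ _ => by positivity) fun π _ => by
        rw [add_comm]
        exact Real.add_one_le_exp _
    rw [e]
    linarith

end Pool.Agent.Lib.MP_4b1228_nt.GS
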