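import Pool.Agent.Lib.MP_4b1228_nt.GS.St

/-! The comparison of the sums over all sets of primes, and the bad sets in the model. -/

namespace Pool.Agent.Lib.MP_4b1228_nt.GS

open Finset Filter Topology Pool.Agent.Lib.MP_9d27bc_nt.C Pool.Agent.Lib.MP_9d27bc_nt.C.Two
open scoped Classical

namespace Co

theorem tend {j : ℕ} (h : 1 ≤ j) : Tendsto (fun y : ℝ => y ^ j) atTop atTop :=
  tendsto_pow_atTop (by omega)

theorem small {j : ℕ} (h : 1 ≤ j) :
    Tendsto (fun y : ℝ => (y ^ j) ^ (-(1 / 4) : ℝ)) atTop (𝓝 0) :=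
  (tendsto_rpow_neg_atTop (by norm_num : (0 : ℝ) < 1 / 4)).comp (tend h)

theorem one_le {J R j : ℕ} (h : J + 2 * R + 1 ≤ R * j) : 1 ≤ R := by
  rcases R with _ | R
  · simp at h
  · omega

theorem pw {y Z : ℝ} {j c g a : ℕ} (hy : 1 ≤ y) (h0 : 0 ≤ Z) (hZ : Z ≤ y ^ g)
    (h : c * j + 2 * g ≤ a) : (y ^ j) ^ c * Z ^ 2 ≤ y ^ a :=
  calc _ ≤ (y ^ j) ^ c * (y ^ g) ^ 2 := by gcongr
    _ = y ^ (c * j + 2 * g) := by ring
    _ ≤ _ := pow_le_pow_right₀ hy h

theorem box (hX : Box) (h : MertSt) {j : ℕ} (hj : 1 ≤ j) :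
    Tendsto (fun y : ℝ => D0 (Bx y j) id) atTop (𝓝 (Real.log (((j : ℝ) + 1) / j))) := by
  have := h.1 j ((j + 1 : ℕ) : ℝ) (by exact_mod_cast hj) (by simp)
  simp only [Real.rpow_natCast] at this
  simpa only [hX.D0_Bx, Nat.cast_succ] using this

theorem cell_lim (hB : Bas) (hX : Box) (h : MertSt) {r : ℕ} {jv : Fin r → ℕ} (hj : ∀ i, 1 ≤ jv i) :
    Tendsto (fun y : ℝ => cell y 1 jv) atTop (𝓝 (∏ i, Real.log (((jv i : ℝ) + 1) / jv i))) := by
  refine (tendsto_finsetProd _ fun i _ => box hX h (hj i)).congr fun y => ?_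
  rw [← hB.D0_pi]
  simp only [cell, D0, hB.ww_one, id]

theorem log_bd {j : ℕ} (hj : 1 ≤ j) : 1 / ((j : ℝ) + 1) ≤ Real.log (((j : ℝ) + 1) / j) ∧
    Real.log (((j : ℝ) + 1) / j) ≤ 1 / (j : ℝ) := by
  have j0 : (0 : ℝ) < j := by exact_mod_cast hj
  refine ⟨le_trans (le_of_eq ?_) (Real.one_sub_inv_le_log_of_pos (by positivity)),
    (Real.log_le_sub_one_of_pos (by positivity)).trans (le_of_eq ?_)⟩ <;> field_simp <;> ring

/-- the lower bound for the weight of a bad set. -/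
noncomputable def lo (p : Par) (M : Multiset ℕ) : ℝ :=
  if M.sum ∈ Icc p.J₁ p.J₂ then (if M.card = 1 then 1 else 0) - p.L M else 0

theorem L_bd {p : Par} (hp : p.OK) (h : SignSt) (M : Multiset ℕ) :
    0 ≤ p.L M ∧ p.L M ≤ 13 * 2 ^ M.card := by
  have := abs_le.1 ((h p hp).2.2.1 M)
  unfold Par.L
  split_ifs
  · exact ⟨le_rfl, by positivity⟩
  · have e : max 0 (-p.T M) ≤ 13 * 2 ^ M.card := max_le (by positivity) (by linarith [this.1])
    exact ⟨by exact_mod_cast le_max_left _ _, by exact_mod_cast e⟩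

theorem lo_le {p : Par} (hp : p.OK) (h : SignSt) {M : Multiset ℕ} (hM : M.sum ∈ Icc p.J₁ p.J₂) :
    lo p M ≤ if Good p.g M then (0 : ℝ) else p.T M := by
  rw [lo, if_pos hM, Par.L]
  by_cases h1 : M.card = 1
  · obtain ⟨j, rfl⟩ := Multiset.card_eq_one.1 h1
    have e : ¬Good p.g {j} := by
      rintro ⟨A, B, C, e, hC, hA, hB⟩
      have e1 := congrArg Multiset.card e
      have e2 := Multiset.card_pos.2 hC
      have e3 : A ≠ 0 := by
        rintro rfl
        exact absurd hp.1 (by simpa using hA)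
      have e4 := Multiset.card_pos.2 e3
      simp only [Multiset.card_singleton, Multiset.card_add] at e1
      omega
    rw [if_pos h1, if_neg e, if_neg e, (h p hp).2.2.2.1 j (by simpa using (mem_Icc.1 hM).1)]
    simp
  · rw [if_neg h1]
    split_ifs
    · simp
    · have : ((-p.T M : ℤ) : ℝ) ≤ (max 0 (-p.T M) : ℤ) := by exact_mod_cast le_max_right _ _
      push_cast at this ⊢
      linarith

theorem lo_abs {p : Par} (hp : p.OK) (h : SignSt) (M : Multiset ℕ) :
    |lo p M| ≤ 1 + 13 * 2 ^ M.card := by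
  obtain ⟨e1, e2⟩ := L_bd hp h M
  unfold lo
  split_ifs
  · exact abs_le.2 ⟨by linarith, by linarith⟩
  · exact abs_le.2 ⟨by linarith, by linarith⟩
  · rw [abs_zero]
    positivity

/-- the limit. -/
theorem lim_ge {p : Par} (hp : p.OK) (h : SignSt) {j₀ R : ℕ} (hj : 1 ≤ j₀) (hJ : j₀ ≤ p.J₁)
    (hR : 1 ≤ R) : ∑ J ∈ Icc p.J₁ p.J₂, (1 / ((J : ℝ) + 1) - p.ls j₀ (p.J₂ + 1) R J) ≤
      ∑ r ∈ range (R + 1), (∑ jv ∈ Fintype.piFinset fun _ : Fin r => Ico j₀ (p.J₂ + 1),
        lo p (vm jv) * ∏ i, Real.log (((jv i : ℝ) + 1) / jv i)) / r.factorial := by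
  calc _ ≤ ∑ J ∈ Icc p.J₁ p.J₂, ∑ r ∈ range (R + 1),
        (∑ jv ∈ (Fintype.piFinset fun _ : Fin r => Ico j₀ (p.J₂ + 1)) with ∑ i, jv i = J,
          ((if r = 1 then ∏ i, 1 / ((jv i : ℝ) + 1) else 0) -
            p.L (vm jv) * ∏ i, 1 / (jv i : ℝ))) / r.factorial := by
        refine sum_le_sum fun J hJ' => ?_
        simp only [sum_sub_distrib, sub_div, Par.ls]
        refine sub_le_sub_right (le_trans ?_ (single_le_sum (fun r _ => div_nonneg
          (sum_nonneg fun jv _ => by split_ifs <;> positivity) (Nat.cast_nonneg _))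
          (mem_range.2 (by omega : 1 < R + 1)))) _
        rw [Nat.factorial_one, Nat.cast_one, div_one]
        refine le_trans ?_ (single_le_sum (a := fun _ => J) (fun jv _ => by positivity) ?_)
        · simp
        · have := mem_Icc.1 hJ'
          simp only [mem_filter, Fintype.mem_piFinset, mem_Ico]
          exact ⟨fun _ => ⟨by omega, by omega⟩, by simp⟩
    _ ≤ _ := by
        rw [sum_comm]
        refine sum_le_sum fun r _ => ?_
        rw [← sum_div, sum_fiberwise_eq_sum_filter, sum_filter]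
        refine div_le_div_of_nonneg_right (sum_le_sum fun jv hv => ?_) (Nat.cast_nonneg _)
        have e0 : ∀ i, 1 ≤ jv i := fun i =>
          hj.trans (mem_Ico.1 (Fintype.mem_piFinset.1 hv i)).1
        have e1 : (vm jv).sum = ∑ i, jv i := rfl
        have e2 : (vm jv).card = r := by simp [vm]
        have e3 := prod_le_prod (s := univ) (fun i _ => by positivity) fun i _ => (log_bd (e0 i)).1
        have e4 := prod_le_prod (s := univ) (fun i _ => le_trans (by positivity) (log_bd (e0 i)).1)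
          fun i _ => (log_bd (e0 i)).2
        have e5 := mul_le_mul_of_nonneg_left e4 (L_bd hp h (vm jv)).1
        rw [lo, e1, e2]
        split_ifs <;> linarith

end Co

open Co

theorem co (h1 : TISt) (h2 : IDSt) (h3 : NNSt) (h4 : UBSt) : CoSt := by
  obtain ⟨C1, p1, k1⟩ := h1
  obtain ⟨c, C4, p4, k4⟩ := h4
  refine ⟨c, C1 + 7 * (1 + 8 * C4), by positivity, fun k hk p j₀ R g₀ hp hj hR hg => ?_⟩
  have R1 := one_le hR
  obtain ⟨q1, q2, q3, q4, -⟩ := id hp
  rw [add_mul] at hg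
  have q5 : 1 * j₀ ≤ 50 * (4 * k + 6) * j₀ := Nat.mul_le_mul_right _ (by omega)
  have j0 : (0 : ℝ) < j₀ := by exact_mod_cast hj
  have R0 : (1 : ℝ) ≤ R := by exact_mod_cast R1
  filter_upwards [k1 k (by linarith) p j₀ R g₀ hp hj hR (by omega), (tend hj).eventually (h3 R),
    (tend hj).eventually (k4 R), (small hj).eventually_le_const (div_pos (one_pos.trans_le R0) j0),
    eventually_ge_atTop (3 : ℝ)] with y e1 e2 e3 e4 e5
  have y1 : 1 ≤ y := by linarith
  have l1 : 1 ≤ Real.log y := (Real.le_log_iff_exp_le (by linarith)).2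
    (Real.exp_one_lt_d9.le.trans (by linarith))
  have up : ∀ b : ℕ, b ≤ R * j₀ → y ^ b ≤ (y ^ j₀) ^ R := fun b hb => by
    rw [← pow_mul, mul_comm]
    exact pow_le_pow_right₀ y1 hb
  have key : ∀ Z : ℕ, 1 ≤ Z → (Z : ℝ) ≤ y ^ g₀ → |p.TI y j₀ R Z - 4 * p.sc y j₀ Z fun M => p.T M| ≤
      13 * 2 ^ R * ((1 + 8 * C4) * R / j₀) := fun Z hZ hZ' => by
    have lb : ∀ a b : ℕ, c * j₀ + 2 * g₀ ≤ a → a ≤ b → b ≤ a + (2 * R + 1) → b ≤ R * j₀ →
        lay (y ^ j₀) Z (y ^ a) (y ^ b) ≤ 4 * C4 * R / j₀ := fun a b f1 f2 f3 f4 => by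
      refine (e3 Z _ _ hZ (pw y1 (Nat.cast_nonneg _) hZ' f1) (pow_le_pow_right₀ y1 f2)
        (up b f4)).trans ?_
      have f5 : (b : ℝ) ≤ a + (2 * R + 1) := by exact_mod_cast f3
      rw [Real.log_div (by positivity) (by positivity), Real.log_pow, Real.log_pow, Real.log_pow,
        div_le_div_iff₀ (by positivity) j0]
      have f6 : 1 + (b * Real.log y - a * Real.log y) ≤ 4 * R * Real.log y := by nlinarith
      nlinarith [mul_le_mul_of_nonneg_left f6 (mul_pos p4 j0).le]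
    have f0 := pw (j := j₀) (c := 1) (a := p.J₁ - 1) y1 (Nat.cast_nonneg _) hZ' (by omega)
    rw [pow_one] at f0
    have f1 := (e2 Z _ _ hZ f0 (up _ hR)).trans e4
    have f2 := lb (p.J₁ - 1) (p.J₁ + R) (by omega) (by omega) (by omega) (by omega)
    have f3 := lb p.J₂ (p.J₂ + 2 * R + 1) (by omega) (by omega) (by omega) hR
    refine (h2 p y j₀ R Z hp e5 hj hR).trans (mul_le_mul_of_nonneg_left
      ((add_le_add (add_le_add f1 f2) f3).trans (le_of_eq (by ring))) (by positivity))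
  intro Z hZ hZ'
  have a1 := abs_le.1 (e1 Z hZ hZ')
  have a2 := abs_le.1 (key Z hZ hZ')
  have a3 := abs_le.1 (key 1 le_rfl (by simpa using one_le_pow₀ y1))
  have q6 : (p.J₁ : ℝ) ≤ p.J₂ := by exact_mod_cast q4
  have b1 : 0 ≤ R * ((p.J₂ : ℝ) - p.J₁ + R + 2) / (2 ^ k * j₀) :=
    div_nonneg (mul_nonneg (by positivity) (by linarith)) (by positivity)
  have b2 : 0 ≤ 2 ^ R * (R : ℝ) / j₀ := by positivity
  simp only [mul_assoc, mul_div_assoc] at *
  generalize R * (((p.J₂ : ℝ) - p.J₁ + R + 2) / (2 ^ k * j₀)) = u at *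
  have b3 : (2 : ℝ) ^ R * ((1 + 8 * C4) * (R / j₀)) = (1 + 8 * C4) * (2 ^ R * (R / j₀)) := by ring
  rw [b3] at a2 a3
  generalize 2 ^ R * ((R : ℝ) / j₀) = v at *
  have b4 := mul_nonneg p1.le b1
  have b5 := mul_nonneg p4.le b1
  have b6 := mul_nonneg p1.le b2
  have b7 := mul_nonneg p4.le b2
  exact abs_le.2 ⟨by nlinarith, by nlinarith⟩

theorem bd (hB : Bas) (hX : Box) (h1 : TupSt) (h2 : NNSt) (h3 : MertSt) (h4 : SignSt) : BdSt := by
  intro p j₀ R ε hp hj hJ hR hε
  have lim : Tendsto (fun y : ℝ => ∑ r ∈ range (R + 1),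
      ((∑ jv ∈ Fintype.piFinset fun _ : Fin r => Ico j₀ (p.J₂ + 1), lo p (vm jv) * cell y 1 jv) /
        r.factorial - (1 + 13 * 2 ^ r) * r ^ r * (y ^ j₀) ^ (-(1 / 4) : ℝ))) atTop
      (𝓝 (∑ r ∈ range (R + 1), ((∑ jv ∈ Fintype.piFinset fun _ : Fin r => Ico j₀ (p.J₂ + 1),
        lo p (vm jv) * ∏ i, Real.log (((jv i : ℝ) + 1) / jv i)) / r.factorial -
          (1 + 13 * 2 ^ r) * r ^ r * 0))) :=
    tendsto_finsetSum _ fun r _ => ((tendsto_finsetSum _ fun jv hv => (cell_lim hB hX h3 fun i =>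
      hj.trans (mem_Ico.1 (Fintype.mem_piFinset.1 hv i)).1).const_mul _).div_const _).sub
        ((small hj).const_mul _)
  simp only [mul_zero, sub_zero] at lim
  filter_upwards [lim.eventually_const_le ((sub_lt_self _ hε).trans_le
    (lim_ge hp h4 hj hJ (one_le hR))), (tend hj).eventually (h2 R),
    eventually_ge_atTop (2 : ℝ)] with y e1 e2 e3
  have y1 : 1 ≤ y := by linarith
  refine e1.trans ?_
  calc _ ≤ ∑ r ∈ range (R + 1), ∑ S ∈ NS y j₀ (p.J₂ + 1) with #S = r,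
        lo p (im y S) * ww 1 (∏ π ∈ S, π) := by
        refine sum_le_sum fun r hr => ?_
        have f1 := abs_le.1 (h1 y j₀ (p.J₂ + 1) p.J₁ p.J₂ r 1 (lo p) (1 + 13 * 2 ^ r) e3
          (by positivity) (fun M hM => hM ▸ lo_abs hp h4 M) fun M hM => mem_Icc.1 (by
            by_contra h
            exact hM (if_neg h)))
        have f2 := e2 1 (y ^ p.J₁) (y ^ (p.J₂ + r)) le_rfl
          (by simpa using pow_le_pow_right₀ y1 hJ) (by
            have := mem_range.1 hr
            rw [← pow_mul, mul_comm]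
            exact pow_le_pow_right₀ y1 (by omega))
        have f3 := mul_le_mul_of_nonneg_left f2
          (show (0 : ℝ) ≤ (1 + 13 * 2 ^ r) * r ^ r by positivity)
        linarith [f1.1]
    _ ≤ _ := by
        rw [sum_fiberwise_eq_sum_filter, sum_filter, Par.sc, Par.co, sum_filter]
        refine sum_le_sum fun S hS => ?_
        have f1 := (hX.nm_set y j₀ _ S (by linarith) (mem_powerset.1 (mem_filter.1 hS).1)).2.2.1
        by_cases h : (im y S).sum ∈ Icc p.J₁ p.J₂
        · have f2 : #S ∈ range (R + 1) := by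
            have f3 := (mem_Icc.1 h).2
            rw [mem_range]
            by_contra f4
            have := Nat.mul_le_mul_left j₀ (show R ≤ #S by omega)
            rw [mul_comm] at this
            omega
          rw [if_pos f2, if_pos (mem_Icc.1 h)]
          exact mul_le_mul_of_nonneg_right (lo_le hp h4 h) (hB.ww_nonneg _ _)
        · rw [if_neg fun h' => h (mem_Icc.2 h'), lo, if_neg h, zero_mul, ite_self]

end Pool.Agent.Lib.MP_4b1228_nt.GS
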