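import Pool.Agent.Lib.MP_4b1228_nt.GS.St

/-! The inequality of Weyl for a cubic polynomial on a square. -/

namespace Pool.Agent.Lib.MP_4b1228_nt.GS

open Finset Pool.Agent.Lib.MP_9d27bc_nt.C
open scoped Classical ComplexConjugate

namespace Cub

/-- the additive character -/
noncomputable def e (x : ℝ) : ℂ := Complex.exp (2 * Real.pi * Complex.I * x)

theorem e_add (x y : ℝ) : e (x + y) = e x * e y := by
  rw [e, e, e, ← Complex.exp_add]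
  push_cast
  ring_nf

theorem e_eq (x : ℝ) : e x = Complex.exp (Complex.I * (2 * Real.pi * x : ℝ)) := by
  rw [e]
  push_cast
  ring_nf

theorem norm_e (x : ℝ) : ‖e x‖ = 1 := by rw [e_eq, Complex.norm_exp_I_mul_ofReal]

theorem e_sub (x y : ℝ) : e x * conj (e y) = e (x - y) := by
  rw [e, e, e, ← Complex.exp_conj, ← Complex.exp_add]
  simp only [map_mul, Complex.conj_ofReal, Complex.conj_I, map_ofNat]
  push_cast
  ring_nf

theorem e_one {θ : ℝ} (h : |θ| ≤ 1 / 2) : 4 * |θ| ≤ ‖e θ - 1‖ := by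
  have p := Real.pi_pos
  have a : |2 * Real.pi * θ / 2| = Real.pi * |θ| := by
    rw [mul_assoc, mul_div_cancel_left₀ _ two_ne_zero, abs_mul, abs_of_pos p]
  have := Real.mul_abs_le_abs_sin (x := 2 * Real.pi * θ / 2) (by rw [a]; nlinarith)
  rw [a, ← mul_assoc, div_mul_cancel₀ _ p.ne'] at this
  rw [e_eq, Complex.norm_exp_I_mul_ofReal_sub_one, Real.norm_eq_abs, abs_mul, abs_two]
  linarith

theorem geo (θ : ℝ) {a b : ℤ} (h : a ≤ b) :
    (e θ - 1) * ∑ x ∈ Ico a b, e (θ * x) = e (θ * b) - e (θ * a) := by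
  induction b, h using Int.leInduction with
  | base => simp
  | succ b h ih =>
    rw [← sum_Ico_add_eq_sum_Ico_add_one h, mul_add, ih, Int.cast_add, Int.cast_one, mul_add,
      mul_one, e_add]
    ring

theorem lin {θ δ : ℝ} {a b : ℤ} {H : ℕ} (hθ : |θ| ≤ 1 / 2) (hδ : 0 < δ) (hH : δ * H ≤ 1)
    (hab : b - a ≤ H) :
    ‖∑ x ∈ Ico a b, e (θ * x)‖ ≤ 3 / δ * (1 / (|(⌊2 * θ / δ⌋ : ℝ)| + 1)) := by
  have h1 : ‖∑ x ∈ Ico a b, e (θ * x)‖ ≤ H := by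
    refine (norm_sum_le _ _).trans ?_
    simp only [norm_e, sum_const, Int.card_Ico, nsmul_eq_mul, mul_one, Nat.cast_le]
    omega
  have h2 : 4 * |θ| * ‖∑ x ∈ Ico a b, e (θ * x)‖ ≤ 2 := by
    rcases le_or_gt a b with h | h
    · refine (mul_le_mul_of_nonneg_right (e_one hθ) (norm_nonneg _)).trans ?_
      rw [← norm_mul, geo θ h]
      exact (norm_sub_le _ _).trans (by rw [norm_e, norm_e]; norm_num)
    · simp [Ico_eq_empty_of_le h.le]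
  have h3 : δ * |(⌊2 * θ / δ⌋ : ℝ)| ≤ 2 * |θ| + δ := by
    have a1 := mul_le_mul_of_nonneg_left (Int.floor_le (2 * θ / δ)) hδ.le
    have a2 := mul_le_mul_of_nonneg_left (Int.lt_floor_add_one (2 * θ / δ)).le hδ.le
    rw [mul_div_cancel₀ _ hδ.ne'] at a1 a2
    rw [← abs_of_pos hδ, ← abs_mul, abs_of_pos hδ, abs_le]
    constructor <;> linarith [le_abs_self θ, neg_abs_le θ]
  rw [div_mul_div_comm, mul_one, le_div_iff₀ (by positivity)]
  nlinarith [mul_le_mul_of_nonneg_left h3 (norm_nonneg (∑ x ∈ Ico a b, e (θ * x))),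
    mul_le_mul_of_nonneg_left h1 hδ.le]

theorem wd {A D : Finset GI} (hD : ∀ m ∈ A, ∀ n ∈ A, m - n ∈ D) (F : GI → ℂ) :
    ‖∑ n ∈ A, F n‖ ^ 2 ≤ ∑ h ∈ D, ‖∑ n ∈ A with n + h ∈ A, F (n + h) * conj (F n)‖ := by
  refine le_trans (le_of_eq ?_) (norm_sum_le _ _)
  have : (∑ n ∈ A, F n) * conj (∑ n ∈ A, F n) =
      ∑ h ∈ D, ∑ n ∈ A with n + h ∈ A, F (n + h) * conj (F n) := by
    simp only [sum_filter]
    rw [sum_comm, map_sum, mul_sum]
    refine sum_congr rfl fun n hn => ?_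
    rw [← sum_filter, sum_mul]
    refine sum_bij' (fun m _ => m - n) (fun h _ => n + h) (fun m hm => ?_) (fun h hh => ?_)
      (fun m _ => ?_) (fun h _ => ?_) fun m _ => ?_
    · exact mem_filter.2 ⟨hD m hm n hn, by simpa using hm⟩
    · exact (mem_filter.1 hh).2
    all_goals simp
  rw [← this, norm_mul, Complex.norm_conj, sq]

theorem mem_rect {a b c d : ℤ} {v : GI} :
    v ∈ (Ico a b ×ˢ Ico c d).image (fun w => (⟨w.1, w.2⟩ : GI)) ↔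
      a ≤ v.re ∧ v.re < b ∧ c ≤ v.im ∧ v.im < d := by
  simp only [mem_image, mem_product, mem_Ico, Prod.exists]
  exact ⟨by rintro ⟨x, y, h, rfl⟩; exact ⟨h.1.1, h.1.2, h.2.1, h.2.2⟩,
    fun h => ⟨v.re, v.im, ⟨⟨h.1, h.2.1⟩, h.2.2⟩, rfl⟩⟩

theorem mem_sq {a b : ℤ} {L : ℕ} {v : GI} :
    v ∈ sqr a b L ↔ a ≤ v.re ∧ v.re < a + L ∧ b ≤ v.im ∧ v.im < b + L := mem_rect

theorem card_sq (a b : ℤ) (L : ℕ) : (#(sqr a b L) : ℝ) ≤ (L : ℝ) ^ 2 := by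
  have := card_image_le (s := Ico a (a + L) ×ˢ Ico b (b + L)) (f := fun w => (⟨w.1, w.2⟩ : GI))
  simp only [card_product, Int.card_Ico, add_sub_cancel_left, Int.toNat_natCast, ← sq] at this
  exact_mod_cast this

theorem rect (c : ℝ) (ζ : ℂ) (a b a' b' : ℤ) :
    ‖∑ n ∈ (Ico a b ×ˢ Ico a' b').image (fun w => (⟨w.1, w.2⟩ : GI)), e (c + (ζ * n).im)‖ =
      ‖∑ x ∈ Ico a b, e (ζ.im * x)‖ * ‖∑ y ∈ Ico a' b', e (ζ.re * y)‖ := by
  rw [sum_image fun x _ y _ h => Prod.ext (congrArg Zsqrtd.re h) (congrArg Zsqrtd.im h),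
    ← norm_mul, sum_mul_sum, ← sum_product', ← one_mul ‖∑ _ ∈ _, _ * _‖, ← norm_e c, ← norm_mul,
    mul_sum]
  refine congrArg _ (sum_congr rfl fun w _ => ?_)
  rw [← e_add, ← e_add, Complex.mul_im, GaussianInt.re_toComplex, GaussianInt.im_toComplex,
    add_comm (ζ.re * _)]

theorem nm_eq (w : GI) : ‖(w : ℂ)‖ ^ 2 = nm w := by
  rw [Complex.sq_norm, ← GaussianInt.intCast_real_norm, nm, GaussianInt.natCast_natAbs_norm]

theorem nm_le {H : ℕ} {h : GI} (m : h ∈ sqr (-H) (-H) (2 * H)) : nm h ≤ 2 * H ^ 2 := by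
  obtain ⟨a, b, c, d⟩ := mem_sq.1 m
  push_cast at b d
  have := hG.2.2.1 h
  zify
  nlinarith

theorem nm_mul {H : ℕ} {h k : GI} (m : h ∈ sqr (-H) (-H) (2 * H)) (m' : k ∈ sqr (-H) (-H) (2 * H)) :
    nm (h * k) ≤ 4 * H ^ 4 := by
  rw [hG.1]
  exact (Nat.mul_le_mul (nm_le m) (nm_le m')).trans_eq (by ring)

theorem norm_le {H : ℕ} {w : GI} (h : nm w ≤ 4 * H ^ 4) : ‖(w : ℂ)‖ ≤ 2 * (H : ℝ) ^ 2 := by
  refine le_of_pow_le_pow_left₀ two_ne_zero (by positivity) ?_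
  rw [nm_eq]
  exact le_of_le_of_eq (by exact_mod_cast h : (nm w : ℝ) ≤ 4 * H ^ 4) (by ring)

theorem tau {ε : ℝ} (hε : 0 < ε) : ∃ C : ℝ, 0 ≤ C ∧ ∀ (H : ℕ) (w : GI) (S : Finset GI), w ≠ 0 →
    nm w ≤ 4 * H ^ 4 → (∀ h ∈ S, h ∣ w) → (#S : ℝ) ≤ C * (H : ℝ) ^ (2 * ε) := by
  obtain ⟨C₁, h1⟩ := hC.2.1 (ε / 4) (by positivity)
  obtain ⟨C₂, h2⟩ := hC.2.2.2.2.1 (ε / 4) (by positivity)
  refine ⟨|C₂| * 4 ^ (ε / 4) * (|C₁| * 4 ^ (ε / 4)), by positivity, fun H w S hw hn hS => ?_⟩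
  have n0 : nm w ≠ 0 := Int.natAbs_ne_zero.2 (GaussianInt.norm_pos.2 hw).ne'
  have b : ∀ (C : ℝ) (m : ℕ), m ≤ nm w → C * (m : ℝ) ^ (ε / 4) ≤ |C| * 4 ^ (ε / 4) * (H : ℝ) ^ ε :=
    fun C m hm => by
      have : (m : ℝ) ^ (ε / 4) ≤ (4 * (H : ℝ) ^ 4) ^ (ε / 4) :=
        Real.rpow_le_rpow (by positivity) (by exact_mod_cast hm.trans hn) (by positivity)
      rw [Real.mul_rpow (by norm_num) (by positivity), ← Real.rpow_natCast,
        ← Real.rpow_mul (by positivity), show ((4 : ℕ) : ℝ) * (ε / 4) = ε by push_cast; ring] at this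
      rw [mul_assoc]
      exact mul_le_mul (le_abs_self C) this (by positivity) (abs_nonneg C)
  rw [card_eq_sum_card_fiberwise (f := nm) (t := (nm w).divisors) fun h hh => by
    obtain ⟨k, rfl⟩ := hS h hh
    exact mem_coe.2 (Nat.mem_divisors.2 ⟨hG.1 h k ▸ dvd_mul_right _ _, n0⟩)]
  push_cast
  refine (sum_le_card_nsmul _ _ (|C₁| * 4 ^ (ε / 4) * (H : ℝ) ^ ε) fun m hm =>
    (h1 m _ (Nat.pos_of_mem_divisors hm).ne' fun v hv => (mem_filter.1 hv).2).trans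
      (b C₁ m (Nat.divisor_le hm))).trans ?_
  rw [nsmul_eq_mul, two_mul, Real.rpow_add' (by positivity) (by positivity)]
  exact (mul_le_mul_of_nonneg_right ((h2 _).trans (b C₂ _ le_rfl)) (by positivity)).trans_eq
    (by ring)

theorem harm0 (K : ℕ) :
    ∑ k ∈ Icc (-K : ℤ) K, 1 / (|(k : ℝ)| + 1) ≤ 1 + 2 * Real.log (K + 1) := by
  induction K with
  | zero => simp
  | succ K ih =>
    have h := Real.one_sub_inv_le_log_of_pos (x := ((K : ℝ) + 1 + 1) / (K + 1)) (by positivity)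
    rw [Real.log_div (by positivity) (by positivity), inv_div,
      show 1 - ((K : ℝ) + 1) / (K + 1 + 1) = 1 / (K + 1 + 1) by field_simp; ring] at h
    rw [Nat.cast_succ, sum_Icc_succ_eq_add_endpoints]
    push_cast
    rw [abs_neg, abs_of_pos (by positivity : (0 : ℝ) < K + 1)]
    linarith

theorem harm {ε : ℝ} (hε : 0 < ε) : ∃ C : ℝ, ∀ H : ℕ, 1 ≤ H →
    ∑ k ∈ Icc (-(4 * H ^ 2 : ℕ) : ℤ) (4 * H ^ 2 : ℕ), 1 / (|(k : ℝ)| + 1) ≤ C * (H : ℝ) ^ ε := by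
  refine ⟨9 + 4 / ε, fun H hH => (harm0 _).trans ?_⟩
  have h1 : (1 : ℝ) ≤ H := by exact_mod_cast hH
  have h2 := Real.log_le_rpow_div (x := H) (by positivity) hε
  have h3 := Real.one_le_rpow h1 hε.le
  have h4 : Real.log (((4 * H ^ 2 : ℕ) : ℝ) + 1) ≤ Real.log 5 + 2 * Real.log H := by
    rw [show 2 * Real.log H = Real.log ((H : ℝ) ^ 2) by simp,
      ← Real.log_mul (by norm_num) (by positivity)]
    refine Real.log_le_log (by positivity) ?_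
    push_cast
    nlinarith
  have h5 := Real.log_le_sub_one_of_pos (x := 5) (by norm_num)
  have h6 : (9 + 4 / ε) * (H : ℝ) ^ ε = 9 * (H : ℝ) ^ ε + 4 * ((H : ℝ) ^ ε / ε) := by ring
  linarith

/-- the cell of a point -/
noncomputable def ce (α : ℂ) (w : GI) : ℤ × ℤ :=
  (⌊2 * (6 * α * w).im / (6 * ‖α‖)⌋, ⌊2 * (6 * α * w).re / (6 * ‖α‖)⌋)

theorem norm_z (α z : ℂ) : ‖6 * α * z‖ = 6 * ‖α‖ * ‖z‖ := by simp

theorem ce_inj {α : ℂ} (h : α ≠ 0) : Function.Injective (ce α) := fun w w' c => by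
  have p : 0 < 6 * ‖α‖ := by positivity
  have a := Int.abs_sub_lt_one_of_floor_eq_floor (congrArg Prod.fst c)
  have b := Int.abs_sub_lt_one_of_floor_eq_floor (congrArg Prod.snd c)
  rw [← sub_div, ← mul_sub, abs_div, abs_of_pos p, div_lt_one p, abs_mul, abs_two] at a b
  rw [← Complex.sub_im, ← mul_sub, ← GaussianInt.toComplex_sub] at a
  rw [← Complex.sub_re, ← mul_sub, ← GaussianInt.toComplex_sub] at b
  have d := Complex.norm_le_abs_re_add_abs_im (6 * α * (w - w' : GI))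
  rw [norm_z] at d
  have f : ‖((w - w' : GI) : ℂ)‖ < 1 := lt_of_mul_lt_mul_left (by linarith) p.le
  have g : nm (w - w') < 1 := by
    have := pow_lt_one₀ (norm_nonneg _) f two_ne_zero
    rw [nm_eq] at this
    exact_mod_cast this
  exact sub_eq_zero.1 (GaussianInt.norm_eq_zero.1 (Int.natAbs_eq_zero.1 (Nat.lt_one_iff.1 g)))

theorem fl_mem {x δ : ℝ} {K : ℕ} (p : 0 < δ) (h : 2 * |x| ≤ δ * K) :
    ⌊2 * x / δ⌋ ∈ Icc (-K : ℤ) K := by
  rw [mem_Icc, Int.le_floor, ← Int.cast_le (R := ℝ), le_div_iff₀ p]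
  push_cast
  exact ⟨by linarith [neg_abs_le x],
    (Int.floor_le _).trans ((div_le_iff₀ p).2 (by linarith [le_abs_self x]))⟩

theorem ce_mem {α : ℂ} (h : α ≠ 0) {H : ℕ} {w : GI} (m : nm w ≤ 4 * H ^ 4) :
    ce α w ∈ Icc (-(4 * H ^ 2 : ℕ) : ℤ) (4 * H ^ 2 : ℕ) ×ˢ
      Icc (-(4 * H ^ 2 : ℕ) : ℤ) (4 * H ^ 2 : ℕ) := by
  have p : 0 < 6 * ‖α‖ := by positivity
  have a := mul_le_mul_of_nonneg_left (norm_le m) p.le
  rw [← norm_z] at a
  exact mem_product.2 ⟨fl_mem p (by push_cast; linarith [Complex.abs_im_le_norm (6 * α * w)]),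
    fl_mem p (by push_cast; linarith [Complex.abs_re_le_norm (6 * α * w)])⟩

/-- the weight of a cell -/
noncomputable def ps (c : ℤ × ℤ) : ℝ := 1 / (|(c.1 : ℝ)| + 1) * (1 / (|(c.2 : ℝ)| + 1))

theorem two {H : ℕ} {α : ℂ} (h0 : α ≠ 0) (h1 : 1 ≤ H) (h2 : ‖α‖ * (H : ℝ) ^ 2 ≤ 1 / 100) (β γ : ℂ)
    {h k : GI} (m : nm (h * k) ≤ 4 * H ^ 4) {F : GI → ℂ}
    (hF : ∀ n : GI, F n = e (α * (n : ℂ) ^ 3 + β * (n : ℂ) ^ 2 + γ * n).im) :
    ‖∑ n ∈ {n ∈ sqr 0 0 H | n + h ∈ sqr 0 0 H} with n + k ∈ {n ∈ sqr 0 0 H | n + h ∈ sqr 0 0 H},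
      F (n + k + h) * conj (F (n + k)) * conj (F (n + h) * conj (F n))‖ ≤
      (3 / (6 * ‖α‖)) ^ 2 * ps (ce α (h * k)) := by
  have p : 0 < 6 * ‖α‖ := by positivity
  have s : ({n ∈ {n ∈ sqr 0 0 H | n + h ∈ sqr 0 0 H} |
      n + k ∈ {n ∈ sqr 0 0 H | n + h ∈ sqr 0 0 H}} : Finset GI) =
      (Ico (max (max 0 (-h.re)) (max (-k.re) (-k.re - h.re)))
        (min (min H (H - h.re)) (min (H - k.re) (H - k.re - h.re))) ×ˢ
      Ico (max (max 0 (-h.im)) (max (-k.im) (-k.im - h.im)))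
        (min (min H (H - h.im)) (min (H - k.im) (H - k.im - h.im)))).image
          fun w => (⟨w.1, w.2⟩ : GI) := by
    ext n
    simp only [mem_filter, mem_sq, mem_rect, Zsqrtd.re_add, Zsqrtd.im_add, max_le_iff, lt_min_iff]
    omega
  have t : ∀ n : GI, F (n + k + h) * conj (F (n + k)) * conj (F (n + h) * conj (F n)) =
      e ((3 * α * h * k * (h + k) + 2 * β * h * k).im + (6 * α * (h * k : GI) * n).im) := fun n => by
    rw [hF, hF, hF, hF, e_sub, e_sub, e_sub, ← Complex.sub_im, ← Complex.sub_im, ← Complex.sub_im,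
      ← Complex.add_im]
    simp only [GaussianInt.toComplex_add, GaussianInt.toComplex_mul]
    congr 2
    ring
  have a := mul_le_mul_of_nonneg_left (norm_le m) p.le
  rw [← norm_z] at a
  have b : 6 * ‖α‖ * H ≤ 1 := by
    have : (1 : ℝ) ≤ H := by exact_mod_cast h1
    nlinarith [mul_le_mul_of_nonneg_left this (mul_nonneg p.le (Nat.cast_nonneg H))]
  simp only [t]
  rw [s, rect]
  refine (mul_le_mul (lin (by linarith [Complex.abs_im_le_norm (6 * α * (h * k : GI))]) p b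
    (by omega)) (lin (by linarith [Complex.abs_re_le_norm (6 * α * (h * k : GI))]) p b (by omega))
    (norm_nonneg _) (by positivity)).trans_eq ?_
  rw [ps, ce]
  ring

end Cub

open Cub in
theorem cub : CubSt := fun ε hε => by
  obtain ⟨C₁, c1, h1⟩ := tau hε
  obtain ⟨C₂, h2⟩ := harm hε
  refine ⟨32 + C₁ * C₂ ^ 2, by positivity, fun H α β γ hH h0 ha => ?_⟩
  obtain ⟨F, hF⟩ : ∃ F : GI → ℂ,
      ∀ n : GI, F n = e (α * (n : ℂ) ^ 3 + β * (n : ℂ) ^ 2 + γ * n).im := ⟨_, fun _ => rfl⟩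
  obtain ⟨D, hD⟩ : ∃ D, D = sqr (-H) (-H) (2 * H) := ⟨_, rfl⟩
  have H1 : (1 : ℝ) ≤ H := by exact_mod_cast hH
  have p : 0 < ‖α‖ := norm_pos_iff.2 h0
  have d : ∀ m ∈ sqr 0 0 H, ∀ n ∈ sqr 0 0 H, m - n ∈ D := fun m hm n hn => by
    simp only [hD, mem_sq, Zsqrtd.re_sub, Zsqrtd.im_sub] at hm hn ⊢
    omega
  have cD : (#D : ℝ) ≤ 4 * (H : ℝ) ^ 2 := (hD ▸ card_sq _ _ _).trans_eq (by push_cast; ring)
  obtain ⟨U, hU⟩ : ∃ U : GI × GI → ℝ, ∀ q, U q =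
      ‖∑ n ∈ {n ∈ sqr 0 0 H | n + q.1 ∈ sqr 0 0 H} with
        n + q.2 ∈ {n ∈ sqr 0 0 H | n + q.1 ∈ sqr 0 0 H},
        F (n + q.2 + q.1) * conj (F (n + q.2)) * conj (F (n + q.1) * conj (F n))‖ :=
    ⟨_, fun _ => rfl⟩
  have a1 : ‖∑ n ∈ sqr 0 0 H, F n‖ ^ 4 ≤ 4 * (H : ℝ) ^ 2 * ∑ q ∈ D ×ˢ D, U q := by
    rw [show 4 = 2 * 2 from rfl, pow_mul, sum_product]
    refine (pow_le_pow_left₀ (by positivity) (wd d F) 2).trans (sq_sum_le_card_mul_sum_sq.trans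
      (mul_le_mul cD (sum_le_sum fun h _ => ?_) (by positivity) (by positivity)))
    simp only [hU]
    exact wd (fun m hm n hn => d m (mem_filter.1 hm).1 n (mem_filter.1 hn).1)
      fun n => F (n + h) * conj (F n)
  have a2 : ∑ q ∈ D ×ˢ D with q.1 * q.2 = 0, U q ≤ 8 * (H : ℝ) ^ 4 := by
    refine (sum_le_card_nsmul _ _ ((H : ℝ) ^ 2) fun q _ => ?_).trans ?_
    · rw [hU]
      refine (norm_sum_le _ _).trans ?_
      simp only [hF, norm_mul, Complex.norm_conj, norm_e, mul_one, sum_const, nsmul_eq_mul]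
      exact le_trans (by exact_mod_cast (card_filter_le _ _).trans (card_filter_le _ _))
        (card_sq 0 0 H)
    · have : #{q ∈ D ×ˢ D | q.1 * q.2 = 0} ≤ #D + #D := by
        refine (card_le_card (t := ({0} ×ˢ D) ∪ (D ×ˢ {0})) fun q hq => ?_).trans
          ((card_union_le _ _).trans (by simp))
        simp only [mem_filter, mem_product, mul_eq_zero, mem_union, mem_singleton] at hq ⊢
        tauto
      have : (#{q ∈ D ×ˢ D | q.1 * q.2 = 0} : ℝ) ≤ #D + #D := by exact_mod_cast this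
      rw [nsmul_eq_mul]
      nlinarith
  have n : ∀ q ∈ {q ∈ D ×ˢ D | ¬q.1 * q.2 = 0}, nm (q.1 * q.2) ≤ 4 * H ^ 4 := fun q hq =>
    have := mem_product.1 (mem_filter.1 hq).1
    nm_mul (hD ▸ this.1) (hD ▸ this.2)
  have ps0 : ∀ c, 0 ≤ ps c := fun c => by
    rw [ps]
    positivity
  have a3 : ∑ q ∈ D ×ˢ D with ¬q.1 * q.2 = 0, ps (ce α (q.1 * q.2)) ≤
      C₁ * (H : ℝ) ^ (2 * ε) * (C₂ * (H : ℝ) ^ ε) ^ 2 := by
    rw [sum_comp (fun w => ps (ce α w)) fun q : GI × GI => q.1 * q.2]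
    refine (sum_le_sum (g := fun w => C₁ * (H : ℝ) ^ (2 * ε) * ps (ce α w)) fun w hw => ?_).trans ?_
    · obtain ⟨q, hq, rfl⟩ := mem_image.1 hw
      have q0 := (mem_filter.1 hq).2
      rw [nsmul_eq_mul, ← card_image_of_injOn (f := Prod.fst) fun r hr s hs c => by
        have e1 := (mem_filter.1 hr).2
        have e2 := (mem_filter.1 hs).2
        exact Prod.ext c (mul_left_cancel₀ (left_ne_zero_of_mul (e1 ▸ q0))
          (e1.trans (e2.symm.trans (by rw [c]))))]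
      refine mul_le_mul_of_nonneg_right (h1 H _ _ q0 (n q hq) fun h hh => ?_) (ps0 _)
      obtain ⟨r, hr, rfl⟩ := mem_image.1 hh
      exact ⟨_, (mem_filter.1 hr).2.symm⟩
    · rw [← mul_sum, ← sum_image (f := ps) (ce_inj h0).injOn]
      refine mul_le_mul_of_nonneg_left ((sum_le_sum_of_subset_of_nonneg (fun c hc => ?_)
        fun c _ _ => ps0 c).trans ((sum_product' (Icc (-(4 * H ^ 2 : ℕ) : ℤ) (4 * H ^ 2 : ℕ))
          (Icc (-(4 * H ^ 2 : ℕ) : ℤ) (4 * H ^ 2 : ℕ)) fun x y : ℤ =>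
          1 / (|(x : ℝ)| + 1) * (1 / (|(y : ℝ)| + 1))).trans_le ?_)) (by positivity)
      · obtain ⟨w, hw, rfl⟩ := mem_image.1 hc
        obtain ⟨q, hq, rfl⟩ := mem_image.1 hw
        exact ce_mem h0 (n q hq)
      · rw [← sum_mul_sum, ← sq]
        exact pow_le_pow_left₀ (by positivity) (h2 H hH) 2
  have a4 : ∑ q ∈ D ×ˢ D with ¬q.1 * q.2 = 0, U q ≤
      (3 / (6 * ‖α‖)) ^ 2 * (C₁ * (H : ℝ) ^ (2 * ε) * (C₂ * (H : ℝ) ^ ε) ^ 2) := by
    refine (sum_le_sum fun q hq => (hU q).trans_le (two h0 hH ha β γ (n q hq) hF)).trans ?_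
    rw [← mul_sum]
    exact mul_le_mul_of_nonneg_left a3 (by positivity)
  have a5 := sum_filter_add_sum_filter_not (D ×ˢ D) (fun q => q.1 * q.2 = 0) U
  refine le_of_pow_le_pow_left₀ four_ne_zero (by positivity) ((le_of_eq (congrArg (‖·‖ ^ 4)
    (sum_congr rfl fun n _ => (hF n).symm))).trans (a1.trans ?_))
  have r1 : (H : ℝ) ^ (2 * ε) = ((H : ℝ) ^ ε) ^ 2 := by
    rw [mul_comm, Real.rpow_mul (by positivity), Real.rpow_two]
  have r2 : ((H : ℝ) ^ (1 / 2 + ε)) ^ 4 = (H : ℝ) ^ 2 * ((H : ℝ) ^ ε) ^ 4 := by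
    rw [Real.rpow_add (by positivity), mul_pow, ← Real.sqrt_eq_rpow, show 4 = 2 * 2 from rfl,
      pow_mul, Real.sq_sqrt (by positivity)]
  have r3 : √‖α‖ ^ 4 = ‖α‖ ^ 2 := by
    rw [show 4 = 2 * 2 from rfl, pow_mul, Real.sq_sqrt p.le]
  have r4 : 1 ≤ ((H : ℝ) ^ ε) ^ 4 := one_le_pow₀ (Real.one_le_rpow H1 hε.le)
  rw [r1] at a4
  rw [div_pow, mul_pow, r2, r3, ← a5, le_div_iff₀ (by positivity)]
  generalize (H : ℝ) ^ ε = X at a4 r4
  have r5 : (‖α‖ * (H : ℝ) ^ 2) ^ 2 ≤ X ^ 4 :=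
    (pow_le_one₀ (by positivity) (by linarith)).trans r4
  calc _ ≤ 4 * (H : ℝ) ^ 2 * (8 * (H : ℝ) ^ 4 +
        (3 / (6 * ‖α‖)) ^ 2 * (C₁ * X ^ 2 * (C₂ * X) ^ 2)) * ‖α‖ ^ 2 := by gcongr
    _ = (H : ℝ) ^ 2 * (32 * (‖α‖ * (H : ℝ) ^ 2) ^ 2 + C₁ * C₂ ^ 2 * X ^ 4) := by
      field_simp
      ring
    _ ≤ (H : ℝ) ^ 2 * (32 * X ^ 4 + C₁ * C₂ ^ 2 * X ^ 4) := by gcongr
    _ = (32 + C₁ * C₂ ^ 2) * ((H : ℝ) ^ 2 * X ^ 4) := by ring
    _ ≤ _ := mul_le_mul_of_nonneg_right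
      (le_self_pow₀ (by nlinarith [mul_nonneg c1 (sq_nonneg C₂)]) four_ne_zero) (by positivity)

end Pool.Agent.Lib.MP_4b1228_nt.GS
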