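import Pool.Agent.Lib.MP_4b1228_nt.GS.St

/-!
The logarithmic derivative of the series of Hecke is small on the real axis.
-/

namespace Pool.Agent.Lib.MP_4b1228_nt.GS

open Finset Filter Topology Pool.Agent.Lib.MP_9d27bc_nt.C Pool.Agent.Lib.MP_9d27bc_nt.C.Two
open scoped Classical ComplexConjugate

namespace DS

/-- the disc without the origin -/
noncomputable def pd (x : ℝ) : Finset GI := {a ∈ disc x | a ≠ 0}

lemma mem_pd (x : ℝ) (a : GI) : a ∈ pd x ↔ (nm a : ℝ) ≤ x ∧ a ≠ 0 := by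
  simp [pd, hA.mem_disc]

lemma card_pd (x : ℝ) (hx : 0 ≤ x) : (#(pd x) : ℝ) ≤ 9 * x := by
  have h := hC.1 x 1 (pd x) one_ne_zero hx
    (fun v hv => ⟨((mem_pd x v).1 hv).2, one_dvd _, ((mem_pd x v).1 hv).1⟩)
  have h1 : nm 1 = 1 := by simp [nm]
  simpa [h1] using h

lemma split_pd (x : ℝ) (hx : 0 ≤ x) (f : GI → ℂ) :
    ∑ a ∈ pd x, f a = ∑ a ∈ pd (x / 2), f a + ∑ a ∈ ann (x / 2), f a := by
  rw [← sum_union]
  · congr 1
    ext a
    rw [mem_union, mem_pd, mem_pd, hA.mem_ann]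
    constructor
    · rintro ⟨h1, h2⟩
      by_cases h : (nm a : ℝ) ≤ x / 2
      · exact Or.inl ⟨h, h2⟩
      · exact Or.inr ⟨not_le.1 h, by linarith⟩
    · rintro (⟨h1, h2⟩ | ⟨h1, h2⟩)
      · exact ⟨by linarith, h2⟩
      · refine ⟨by linarith, ?_⟩
        rintro rfl
        have h0 : nm 0 = 0 := by simp [nm]
        rw [h0] at h1
        push_cast at h1
        linarith
  · rw [disjoint_left]
    intro a h1 h2
    rw [mem_pd] at h1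
    rw [hA.mem_ann] at h2
    linarith [h1.1, h2.1]

lemma two_pow (θ : ℝ) (hθ : θ ≤ 1 / 2) : (4 / 3 : ℝ) ≤ 2 ^ (1 - θ) := by
  have h1 : (2 : ℝ) ^ (1 / 2 : ℝ) ≤ 2 ^ (1 - θ) :=
    Real.rpow_le_rpow_of_exponent_le (by norm_num) (by linarith)
  have h2 : (4 / 3 : ℝ) ≤ 2 ^ (1 / 2 : ℝ) := by
    rw [← Real.sqrt_eq_rpow]
    exact Real.le_sqrt_of_sq_le (by norm_num)
  linarith

lemma dyad (θ Y : ℝ) (hθ : θ ≤ 1 / 2) (hY : 0 < Y) (f : GI → ℂ) (hf : ∀ a, ‖f a‖ ≤ 1)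
    (h : ∀ T, Y ≤ T → ‖∑ a ∈ ann T, f a‖ ≤ T ^ (1 - θ)) (n : ℕ) :
    ∀ x : ℝ, 0 ≤ x → x ≤ 2 ^ n * Y → ‖∑ a ∈ pd x, f a‖ ≤ 18 * Y + 3 * x ^ (1 - θ) := by
  have triv : ∀ x : ℝ, 0 ≤ x → x ≤ 2 * Y → ‖∑ a ∈ pd x, f a‖ ≤ 18 * Y + 3 * x ^ (1 - θ) := by
    intro x hx hxY
    have h1 : ‖∑ a ∈ pd x, f a‖ ≤ #(pd x) := by
      refine (norm_sum_le _ _).trans ?_
      simpa using sum_le_card_nsmul (pd x) (fun a => ‖f a‖) 1 fun a _ => hf a
    have h2 := card_pd x hx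
    have h3 : 0 ≤ x ^ (1 - θ) := Real.rpow_nonneg hx _
    linarith
  induction n with
  | zero =>
    intro x hx hxY
    exact triv x hx (by simp at hxY; linarith)
  | succ n ih =>
    intro x hx hxY
    by_cases hc : x ≤ 2 * Y
    · exact triv x hx hc
    · have hc' : Y ≤ x / 2 := by linarith [not_le.1 hc]
      have h1 := ih (x / 2) (by linarith) (by rw [pow_succ] at hxY; linarith)
      have h2 := h (x / 2) hc'
      have h3 : x ^ (1 - θ) = (x / 2) ^ (1 - θ) * 2 ^ (1 - θ) := by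
        rw [← Real.mul_rpow (by linarith) (by norm_num)]
        congr 1
        ring
      have h4 := two_pow θ hθ
      have h5 : 0 ≤ (x / 2) ^ (1 - θ) := Real.rpow_nonneg (by linarith) _
      rw [split_pd x hx]
      refine (norm_add_le _ _).trans ?_
      rw [h3]
      nlinarith

lemma disc_le (θ Y : ℝ) (hθ : θ ≤ 1 / 2) (hY : 1 ≤ Y) (f : GI → ℂ) (hf : ∀ a, ‖f a‖ ≤ 1)
    (h : ∀ T, Y ≤ T → ‖∑ a ∈ ann T, f a‖ ≤ T ^ (1 - θ)) (x : ℝ) (hx : Y ^ 2 ≤ x) :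
    ‖∑ a ∈ pd x, f a‖ ≤ 21 * x ^ (1 - θ) := by
  have hx1 : 1 ≤ x := le_trans (one_le_pow₀ hY) hx
  obtain ⟨n, hn⟩ := pow_unbounded_of_one_lt x (show (1 : ℝ) < 2 by norm_num)
  have h1 := dyad θ Y hθ (by linarith) f hf h n x (by linarith)
    (hn.le.trans (le_mul_of_one_le_right (by positivity) hY))
  have h2 : Y ≤ x ^ (1 / 2 : ℝ) := by
    rw [← Real.sqrt_eq_rpow]
    exact Real.le_sqrt_of_sq_le hx
  have h3 : x ^ (1 / 2 : ℝ) ≤ x ^ (1 - θ) := Real.rpow_le_rpow_of_exponent_le hx1 (by linarith)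
  linarith

lemma sum_ff (hB : Bas) (t : ℤ) (x : ℕ) :
    ∑ n ∈ Icc 1 x, ff t n = (∑ a ∈ pd x, xi t a) / 4 := by
  unfold ff
  rw [← sum_div]
  congr 1
  rw [← sum_fiberwise_of_maps_to (s := pd x) (t := Icc 1 x) (g := nm)]
  · refine sum_congr rfl fun n hn => sum_congr ?_ fun _ _ => rfl
    rw [mem_Icc] at hn
    ext a
    rw [mem_filter, mem_filter, mem_pd, hA.mem_disc, hB.nm_pos]
    constructor
    · rintro ⟨_, h2⟩
      refine ⟨⟨?_, h2 ▸ hn.1⟩, h2⟩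
      rw [h2]
      exact_mod_cast hn.2
    · rintro ⟨_, h2⟩
      exact ⟨by rw [h2], h2⟩
  · intro a ha
    rw [mem_pd, hB.nm_pos] at ha
    rw [mem_Icc]
    exact ⟨ha.2, by exact_mod_cast ha.1⟩

/-- the contribution of the prime `2` and of the higher powers -/
noncomputable def rr (n : ℕ) : ℝ :=
  (if n = 2 then 2 else 0) +
    2 * (if n.Prime then 0 else ArithmeticFunction.vonMangoldt n / (n : ℝ))

lemma rr_nonneg (n : ℕ) : 0 ≤ rr n := by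
  unfold rr
  have h := ArithmeticFunction.vonMangoldt_nonneg (n := n)
  split_ifs <;> positivity

lemma rr_sum (h5 : MertSt) : Summable rr := by
  unfold rr
  refine Summable.add ?_ (h5.2.2.mul_left 2)
  exact summable_of_ne_finset_zero (s := {2}) fun n hn => by
    rw [mem_singleton] at hn
    rw [if_neg hn]

lemma le_rr (Λ₀ : ℕ → ℝ) (h0 : ∀ n, 0 ≤ Λ₀ n)
    (h1 : ∀ n, Λ₀ n ≤ 2 * ArithmeticFunction.vonMangoldt n)
    (h2 : ∀ l : ℕ, l.Prime → l ≠ 2 → ¬Split l → Λ₀ l = 0) (σ : ℝ) (hσ : 1 < σ) (n : ℕ)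
    (hn : ¬Split n) : Λ₀ n / (n : ℝ) ^ σ ≤ rr n := by
  rcases Nat.eq_zero_or_pos n with rfl | hpos
  · have : ((0 : ℕ) : ℝ) ^ σ = 0 := by
      rw [Nat.cast_zero]
      exact Real.zero_rpow (by linarith)
    rw [this, div_zero]
    exact rr_nonneg 0
  have hn1 : (1 : ℝ) ≤ n := by exact_mod_cast hpos
  have hle : (n : ℝ) ≤ (n : ℝ) ^ σ := by
    simpa using Real.rpow_le_rpow_of_exponent_le hn1 hσ.le
  have hd : Λ₀ n / (n : ℝ) ^ σ ≤ Λ₀ n / n :=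
    div_le_div_of_nonneg_left (h0 n) (by linarith) hle
  refine hd.trans ?_
  by_cases hp : n.Prime
  · by_cases h22 : n = 2
    · subst h22
      have h3 := h1 2
      rw [ArithmeticFunction.vonMangoldt_apply_prime hp] at h3
      have h4 : Real.log ((2 : ℕ) : ℝ) ≤ 1 := by
        have := Real.log_le_sub_one_of_pos (show (0 : ℝ) < ((2 : ℕ) : ℝ) by norm_num)
        push_cast at this ⊢
        linarith
      unfold rr
      rw [if_pos rfl, if_pos hp]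
      push_cast at h3 h4 ⊢
      linarith
    · rw [h2 n hp h22 hn, zero_div]
      exact rr_nonneg n
  · have h22 : n ≠ 2 := by
      rintro rfl
      exact hp Nat.prime_two
    unfold rr
    rw [if_neg h22, if_neg hp, zero_add, ← mul_div_assoc]
    exact div_le_div_of_nonneg_right (h1 n) (by linarith)

lemma sum_lam (h5 : MertSt) (Λ₀ : ℕ → ℝ) (h0 : ∀ n, 0 ≤ Λ₀ n)
    (h1 : ∀ n, Λ₀ n ≤ 2 * ArithmeticFunction.vonMangoldt n)
    (h2 : ∀ l : ℕ, l.Prime → l ≠ 2 → ¬Split l → Λ₀ l = 0) :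
    ∃ C : ℝ, 9 ≤ C ∧ ∀ σ : ℝ, 1 < σ → σ ≤ 2 → (Summable fun n : ℕ => Λ₀ n / (n : ℝ) ^ σ) ∧
      ∑' n : ℕ, Λ₀ n / (n : ℝ) ^ σ ≤ 11 / 10 / (σ - 1) + C := by
  obtain ⟨C, hC0, hC⟩ := h5.2.1
  have hR : 0 ≤ ∑' n, rr n := tsum_nonneg rr_nonneg
  refine ⟨9 + C + ∑' n, rr n, by linarith, fun σ hσ hσ2 => ?_⟩
  obtain ⟨hs, hle⟩ := hC σ hσ hσ2
  have key : ∀ n : ℕ, Λ₀ n / (n : ℝ) ^ σ ≤
      (if Split n then 2 * Real.log n / (n : ℝ) ^ σ else 0) + rr n := by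
    intro n
    by_cases hn : Split n
    · rw [if_pos hn]
      have h3 := h1 n
      rw [ArithmeticFunction.vonMangoldt_apply_prime hn.1] at h3
      have h4 : Λ₀ n / (n : ℝ) ^ σ ≤ 2 * Real.log n / (n : ℝ) ^ σ :=
        div_le_div_of_nonneg_right h3 (by positivity)
      linarith [rr_nonneg n]
    · rw [if_neg hn, zero_add]
      exact le_rr Λ₀ h0 h1 h2 σ hσ n hn
  have hs2 := hs.add (rr_sum h5)
  have hs3 : Summable fun n : ℕ => Λ₀ n / (n : ℝ) ^ σ :=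
    Summable.of_nonneg_of_le (fun n => div_nonneg (h0 n) (by positivity)) key hs2
  refine ⟨hs3, ?_⟩
  have h6 := hs3.tsum_le_tsum key hs2
  rw [hs.tsum_add (rr_sum h5)] at h6
  linarith

lemma norm_term (Λ : ℕ → ℂ) (Λ₀ : ℕ → ℝ) (h : ∀ n, ‖Λ n‖ ≤ Λ₀ n) (σ : ℝ) (n : ℕ) :
    ‖LSeries.term Λ σ n‖ ≤ Λ₀ n / (n : ℝ) ^ σ := by
  rw [LSeries.norm_term_eq]
  split_ifs with hn
  · exact div_nonneg ((norm_nonneg _).trans (h n)) (by positivity)
  · rw [Complex.ofReal_re]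
    exact div_le_div_of_nonneg_right (h n) (by positivity)

lemma to_primes (h5 : MertSt) (t : ℤ) (Λ : ℕ → ℂ) (Λ₀ : ℕ → ℝ) (h : ∀ n, ‖Λ n‖ ≤ Λ₀ n)
    (h1 : ∀ n, Λ₀ n ≤ 2 * ArithmeticFunction.vonMangoldt n)
    (h2 : ∀ l : ℕ, l.Prime → l ≠ 2 → ¬Split l → Λ₀ l = 0)
    (h3 : ∀ l : ℕ, l.Prime → l ≠ 2 → Λ l = (Real.log l : ℂ) * fp t l) (σ : ℝ) (hσ : 1 < σ)
    (hs : Summable fun n : ℕ => Λ₀ n / (n : ℝ) ^ σ) :
    ‖∑' l : ℕ, (Real.log l : ℂ) * fp t l / (((l : ℝ) ^ σ : ℝ) : ℂ)‖ ≤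
      ‖LSeries Λ σ‖ + ∑' n, rr n := by
  have h0 : ∀ n, 0 ≤ Λ₀ n := fun n => (norm_nonneg _).trans (h n)
  set b : ℕ → ℂ := fun n => if Split n then 0 else LSeries.term Λ σ n with hb
  have hb1 : ∀ n, ‖b n‖ ≤ rr n := by
    intro n
    simp only [hb]
    split_ifs with hn
    · rw [norm_zero]
      exact rr_nonneg n
    · exact (norm_term Λ Λ₀ h σ n).trans (le_rr Λ₀ h0 h1 h2 σ hσ n hn)
  have hb2 : Summable b := Summable.of_norm_bounded (rr_sum h5) hb1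
  have ht : Summable (LSeries.term Λ σ) := Summable.of_norm_bounded hs (norm_term Λ Λ₀ h σ)
  have key : ∀ l : ℕ, (Real.log l : ℂ) * fp t l / (((l : ℝ) ^ σ : ℝ) : ℂ) =
      LSeries.term Λ σ l - b l := by
    intro l
    simp only [hb]
    split_ifs with hl
    · have hl2 : l ≠ 2 := by
        rintro rfl
        exact absurd hl.2 (by norm_num)
      rw [sub_zero, LSeries.term_of_ne_zero hl.1.ne_zero, h3 l hl.1 hl2,
        Complex.ofReal_cpow (Nat.cast_nonneg l), Complex.ofReal_natCast]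
    · rw [sub_self, fp, if_neg hl, mul_zero, zero_div]
  rw [tsum_congr key, ht.tsum_sub hb2]
  refine (norm_sub_le _ _).trans (add_le_add le_rfl ?_)
  exact tsum_of_norm_bounded (rr_sum h5).hasSum hb1

lemma pf_mono (θ E E' : ℝ) (Λ : ℕ → ℂ) (hE : E ≤ E') (h : PF θ E Λ) : PF θ E' Λ := by
  obtain ⟨M, ρ, h1, h2⟩ := h
  exact ⟨M, ρ, h1, fun s a b c => (h2 s a b c).trans hE⟩

end DS

open DS in
theorem ds (hB : Bas) (h1 : GEPSt) (h2 : AbsA) (h3 : AbsB) (h4 : ArSt) (h5 : MertSt) : DSt := by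
  intro A ε hε
  obtain ⟨K, hK, hA2⟩ := h2
  obtain ⟨K', hK', hB2⟩ := h3
  obtain ⟨Λ, Λ₀, a1, a2, a3, a4, a5, a6, a7⟩ := h4
  have h0 : ∀ n, 0 ≤ Λ₀ n := fun n => (norm_nonneg _).trans (a4 0 n)
  have a8 : ∀ l : ℕ, l.Prime → l ≠ 2 → ¬Split l → Λ₀ l = 0 := fun l a b => (a7 l a b).1
  obtain ⟨C, hC9, hC⟩ := sum_lam h5 Λ₀ h0 a5 a8
  obtain ⟨A', hA'⟩ := exists_nat_gt (4 * K' * K * (A + 1) / ε)
  have hA0 : (0 : ℝ) < A' := lt_trans (by positivity) hA'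
  obtain ⟨θ, hθ, hθ2, hev⟩ := h1 A'
  obtain ⟨T₀, hT₀⟩ := eventually_atTop.1 hev
  obtain ⟨C₁, hC₁, hP⟩ := hA2 θ C hθ hθ2 (by linarith)
  set δ : ℝ := (A + 1) / A' with hδ
  have hδ0 : 0 < δ := by positivity
  have hδ1 : 4 * K' * K * δ ≤ ε := by
    rw [div_lt_iff₀ hε] at hA'
    rw [hδ, ← mul_div_assoc, div_le_iff₀ hA0]
    linarith
  have e1 : ∀ᶠ y : ℝ in atTop, T₀ ≤ y ^ δ := (tendsto_rpow_atTop hδ0).eventually_ge_atTop _
  have e2 : ∀ᶠ y : ℝ in atTop, (K' * (C₁ + C + 8 / θ) + ∑' n, rr n) / (ε / 2) ≤ Real.log y :=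
    Real.tendsto_log_atTop.eventually_ge_atTop _
  filter_upwards [e1, e2, eventually_ge_atTop (8 : ℝ)] with y hy1 hy2 hy8
  intro t ht hty σ hσ hσ2
  have hy0 : 0 < y := by linarith
  have hY : 1 ≤ y ^ δ := Real.one_le_rpow (by linarith) hδ0.le
  have hpow : (y ^ δ) ^ A' = y ^ A * y := by
    rw [← Real.rpow_natCast, ← Real.rpow_mul hy0.le, hδ, div_mul_cancel₀ _ hA0.ne', ← pow_succ,
      ← Real.rpow_natCast]
    push_cast
    rfl
  have hser : ∀ s : ℤ, s ≠ 0 → |(s : ℝ)| ≤ 2 * y ^ A → Ser θ C ((y ^ δ) ^ 2) (ff s) (Λ s) Λ₀ := by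
    intro s hs hsy
    refine ⟨a1 s, fun x => (a2 s x).trans (by gcongr), fun x hx => ?_, a3 s, a4 s, hC⟩
    have hd := disc_le θ (y ^ δ) hθ2 hY (xi s) (hB.xi_le s) (fun T hT => ?_) x hx
    · rw [sum_ff hB, norm_div]
      have h4 : ‖(4 : ℂ)‖ = 4 := by simp
      have hx0 : 0 ≤ (x : ℝ) ^ (1 - θ) := by positivity
      rw [h4]
      nlinarith
    · refine hT₀ T (hy1.trans hT) (4 * s) (by omega) ?_
      have h6 : (y ^ δ) ^ A' ≤ T ^ A' := pow_le_pow_left₀ (by linarith) hT _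
      have h7 : 0 ≤ y ^ A := by positivity
      rw [hpow] at h6
      push_cast
      rw [abs_mul, abs_of_pos (show (0 : ℝ) < 4 by norm_num)]
      nlinarith
  have hlogy : 0 ≤ Real.log y := Real.log_nonneg (by linarith)
  have hlog : Real.log ((y ^ δ) ^ 2) = 2 * δ * Real.log y := by
    rw [Real.log_pow, Real.log_rpow hy0]
    push_cast
    ring
  have hθ8 : 0 < 8 / θ := by positivity
  have hKl : 0 ≤ K * (2 * δ * Real.log y) := by positivity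
  have hyA : 0 ≤ y ^ A := by positivity
  have p1 := hP _ _ _ _ (one_le_pow₀ hY) (hser t ht (by linarith))
  have p2 := hP _ _ _ _ (one_le_pow₀ hY) (hser (2 * t) (by omega) (by
    push_cast
    rw [abs_mul, abs_of_pos (show (0 : ℝ) < 2 by norm_num)]
    linarith))
  rw [hlog] at p1 p2
  have hL := hB2 θ C (K * (2 * δ * Real.log y) + C₁ + C + 8 / θ) (Λ t) (Λ (2 * t)) Λ₀ hθ hθ2
    (by linarith) (by linarith) (by linarith) (pf_mono _ _ _ _ (by linarith) p1)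
    (pf_mono _ _ _ _ (by linarith) p2) (fun n => ⟨a4 t n, a4 (2 * t) n⟩) hC (a6 t) σ hσ hσ2
  have hT := to_primes h5 t (Λ t) Λ₀ (a4 t) a5 a8 (fun l a b => (a7 l a b).2 t) σ hσ (hC σ hσ hσ2).1
  rw [div_le_iff₀ (by linarith)] at hy2
  have h9 : 4 * K' * K * δ * Real.log y ≤ ε * Real.log y := mul_le_mul_of_nonneg_right hδ1 hlogy
  nlinarith

end Pool.Agent.Lib.MP_4b1228_nt.GS
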