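import Pool.Agent.Lib.MP_4b1228_nt.GS.St

/-! The mass of a residue class in a square annulus. -/

namespace Pool.Agent.Lib.MP_4b1228_nt.GS

open Finset Filter Topology Pool.Agent.Lib.MP_9d27bc_nt.C Pool.Agent.Lib.MP_9d27bc_nt.C.Two
open scoped Classical

namespace Den

theorem card_le (S : Finset GI) (n : ℕ) : #{m ∈ S | mx m = n} ≤ 4 * (2 * n + 1) := by
  have h : {m ∈ S | mx m = n} ⊆ ((({-(n : ℤ), (n : ℤ)} : Finset ℤ) ×ˢ Icc (-(n : ℤ)) n) ∪
      (Icc (-(n : ℤ)) n ×ˢ ({-(n : ℤ), (n : ℤ)} : Finset ℤ))).image fun w => (⟨w.1, w.2⟩ : GI) := by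
    intro m hm
    have a := (mem_filter.1 hm).2
    refine mem_image.2 ⟨(m.re, m.im), ?_, rfl⟩
    simp only [mem_union, mem_product, mem_insert, mem_singleton, mem_Icc]
    unfold mx at a
    omega
  refine (card_le_card h).trans (card_image_le.trans ((card_union_le _ _).trans ?_))
  have a : #({-(n : ℤ), (n : ℤ)} : Finset ℤ) ≤ 2 := card_le_two
  have b : #(Icc (-(n : ℤ)) n) = 2 * n + 1 := by rw [Int.card_Icc]; omega
  rw [card_product, card_product, b]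
  nlinarith

theorem layer (S : Finset GI) (I : Finset ℕ) (hI : ∀ m ∈ S, mx m ∈ I) (h0 : ∀ n ∈ I, 1 ≤ n)
    (g : ℕ → ℝ) (hg : ∀ n, 0 ≤ g n) : ∑ m ∈ S, g (mx m) ≤ ∑ n ∈ I, 12 * n * g n := by
  rw [← sum_fiberwise_of_maps_to hI]
  refine sum_le_sum fun n hn => ?_
  rw [sum_congr rfl fun m hm => congrArg g (mem_filter.1 hm).2, sum_const, nsmul_eq_mul]
  refine mul_le_mul_of_nonneg_right ?_ (hg n)
  have := card_le S n
  have := h0 n hn
  exact_mod_cast (by omega : #{m ∈ S | mx m = n} ≤ 12 * n)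

theorem nm_eq (m : GI) : (nm m : ℝ) = (m.re : ℝ) ^ 2 + (m.im : ℝ) ^ 2 := by
  have a : (nm m : ℤ) = m.re ^ 2 + m.im ^ 2 := by
    unfold nm
    rw [GaussianInt.natCast_natAbs_norm, Zsqrtd.norm_def]
    push_cast
    ring
  exact_mod_cast a

theorem mx_add (m e : GI) : mx (m + e) ≤ mx m + mx e ∧ mx m ≤ mx (m + e) + mx e := by
  unfold mx
  simp only [Zsqrtd.re_add, Zsqrtd.im_add]
  omega

theorem abs_le_mx (m : GI) : |(m.re : ℝ)| ≤ mx m ∧ |(m.im : ℝ)| ≤ mx m := by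
  have a : |m.re| ≤ mx m ∧ |m.im| ≤ mx m := by
    unfold mx
    simp only [Int.abs_eq_natAbs]
    omega
  exact_mod_cast a

theorem close (hB : Bas) {q : ℕ} {m e : GI} (hq : 1 ≤ q) (he : mx e ≤ q) (h : 7 * q ≤ mx m) :
    1 / (nm m : ℝ) ≤ 2 / (mx m : ℝ) ^ 2 ∧ 1 / (nm (m + e) : ℝ) ≤ 2 / (mx m : ℝ) ^ 2 ∧
      |1 / (nm (m + e) : ℝ) - 1 / (nm m : ℝ)| ≤ 10 * q / (mx m : ℝ) ^ 3 := by
  have q1 : (1 : ℝ) ≤ q := by exact_mod_cast hq
  have h1 : 7 * (q : ℝ) ≤ mx m := by exact_mod_cast h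
  have h2 : (mx m : ℝ) ≤ mx (m + e) + q := by
    exact_mod_cast (mx_add m e).2.trans (Nat.add_le_add_left he _)
  have h3 : (mx m : ℝ) ^ 2 ≤ nm m := by exact_mod_cast (hB.mx_nm m).1
  have h4 : (mx (m + e) : ℝ) ^ 2 ≤ nm (m + e) := by exact_mod_cast (hB.mx_nm _).1
  have h5 : (mx e : ℝ) ≤ q := by exact_mod_cast he
  obtain ⟨a1, a2⟩ := abs_le_mx m
  obtain ⟨b1, b2⟩ := abs_le_mx e
  have h6 : |(nm m : ℝ) - nm (m + e)| ≤ 5 * q * mx m := by
    have c : ∀ x y : ℝ, |x| ≤ mx m → |y| ≤ mx e → |y * (2 * x + y)| ≤ q * (5 / 2 * mx m) :=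
      fun x y hx hy => by
        rw [abs_mul]
        refine mul_le_mul (hy.trans h5) ((abs_add_le _ _).trans ?_) (abs_nonneg _) (by linarith)
        rw [abs_mul, abs_two]
        linarith
    have c1 := abs_le.1 (c _ _ a1 b1)
    have c2 := abs_le.1 (c _ _ a2 b2)
    rw [nm_eq, nm_eq, Zsqrtd.re_add, Zsqrtd.im_add, abs_le]
    push_cast
    constructor <;> nlinarith
  generalize (mx m : ℝ) = n at *
  have n0 : 0 < n := by linarith
  have h7 : n ^ 2 ≤ 2 * nm (m + e) := by nlinarith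
  have p1 : (0 : ℝ) < nm m := by nlinarith
  have p2 : (0 : ℝ) < nm (m + e) := by nlinarith
  refine ⟨?_, ?_, ?_⟩
  · rw [div_le_div_iff₀ p1 (by positivity)]
    linarith
  · rw [div_le_div_iff₀ p2 (by positivity)]
    linarith
  · rw [div_sub_div _ _ p2.ne' p1.ne', one_mul, mul_one, abs_div, abs_of_pos (mul_pos p2 p1),
      div_le_div_iff₀ (mul_pos p2 p1) (by positivity)]
    have c1 : n ^ 2 * n ^ 2 ≤ 2 * nm (m + e) * nm m := mul_le_mul h7 h3 (by positivity) (by positivity)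
    calc _ ≤ 5 * q * n * n ^ 3 := mul_le_mul_of_nonneg_right h6 (by positivity)
      _ = 5 * q * (n ^ 2 * n ^ 2) := by ring
      _ ≤ 5 * q * (2 * nm (m + e) * nm m) := mul_le_mul_of_nonneg_left c1 (by positivity)
      _ = _ := by ring

theorem total {q a b : ℕ} (hq : 1 ≤ q) (h : 8 * q ≤ a) :
    ∑ n ∈ Ioo (a - q) (b + q + 1), 12 * (n : ℝ) * (10 * q / (n : ℝ) ^ 3 +
      if n ∈ Ioc (a - q) (a + q) ∪ Ioc (b - q) (b + q) then 2 / (n : ℝ) ^ 2 else 0) ≤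
      400 * q / ((a : ℝ) + 1) := by
  have k1 : 7 * ((a : ℝ) + 1) ≤ 8 * (((a - q : ℕ) : ℝ) + 1) := by
    exact_mod_cast (by omega : 7 * (a + 1) ≤ 8 * (a - q + 1))
  have c1 := sum_Ioo_inv_sq_le (α := ℝ) (a - q) (b + q + 1)
  have c2 : #{n ∈ Ioo (a - q) (b + q + 1) | n ∈ Ioc (a - q) (a + q) ∪ Ioc (b - q) (b + q)} ≤
      4 * q := by
    refine (card_le_card fun n hn => (mem_filter.1 hn).2).trans ((card_union_le _ _).trans ?_)
    rw [Nat.card_Ioc, Nat.card_Ioc]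
    omega
  have c3 : (#{n ∈ Ioo (a - q) (b + q + 1) | n ∈ Ioc (a - q) (a + q) ∪ Ioc (b - q) (b + q)} : ℝ) ≤
      4 * q := by exact_mod_cast c2
  calc _ ≤ ∑ n ∈ Ioo (a - q) (b + q + 1), (120 * q * ((n : ℝ) ^ 2)⁻¹ +
        if n ∈ Ioc (a - q) (a + q) ∪ Ioc (b - q) (b + q) then 24 / (((a - q : ℕ) : ℝ) + 1) else 0) := by
        refine sum_le_sum fun n hn => ?_
        have d1 : ((a - q : ℕ) : ℝ) + 1 ≤ n := by exact_mod_cast (mem_Ioo.1 hn).1
        have d2 : (0 : ℝ) < n := lt_of_lt_of_le (by positivity) d1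
        rw [mul_add]
        refine add_le_add (le_of_eq (by field_simp; norm_num)) ?_
        split_ifs
        · refine le_trans (le_of_eq (by field_simp; norm_num)) (div_le_div_of_nonneg_left
            (by norm_num) (by positivity) d1)
        · simp
    _ ≤ 120 * q * (2 / (((a - q : ℕ) : ℝ) + 1)) + 4 * q * (24 / (((a - q : ℕ) : ℝ) + 1)) := by
        rw [sum_add_distrib, ← mul_sum, ← sum_filter, sum_const, nsmul_eq_mul]
        gcongr
    _ = 336 * q / (((a - q : ℕ) : ℝ) + 1) := by ring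
    _ ≤ _ := by
        rw [div_le_div_iff₀ (by positivity) (by positivity)]
        have : (0 : ℝ) ≤ q := by positivity
        have : (0 : ℝ) ≤ (a - q : ℕ) := by positivity
        nlinarith

theorem shift (hB : Bas) {q : ℕ} {P₁ P₂ : ℝ} (c : GI) {e : GI} (hq : 1 ≤ q) (h : 8 * (q : ℝ) ≤ P₁)
    (he : mx e ≤ q) : |ms (cls q (c + e)) P₁ P₂ - ms (cls q c) P₁ P₂| ≤ 400 * q / P₁ := by
  have q1 : (1 : ℝ) ≤ q := by exact_mod_cast hq
  have h8 : 8 * q ≤ ⌊P₁⌋₊ := Nat.le_floor (by exact_mod_cast h)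
  have mem : ∀ m, m ∈ Sq P₁ P₂ ↔ ⌊P₁⌋₊ < mx m ∧ mx m ≤ ⌊P₂⌋₊ := fun m => by
    rw [hB.mem_Sq, ← Nat.floor_lt (by linarith)]
    exact and_congr_right fun a => (Nat.le_floor_iff' (by omega)).symm
  obtain ⟨W, hW⟩ : ∃ W : Finset GI, ∀ m, m ∈ W ↔ ⌊P₁⌋₊ - q < mx m ∧ mx m ≤ ⌊P₂⌋₊ + q :=
    ⟨Sq (⌊P₁⌋₊ - q : ℕ) (⌊P₂⌋₊ + q : ℕ), fun m => by rw [hB.mem_Sq, Nat.cast_lt, Nat.cast_le]⟩
  have tr : ∀ d : GI, mx d ≤ q → ms (cls q (c + d)) P₁ P₂ = ∑ m ∈ W with cls q c m,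
      if m + d ∈ Sq P₁ P₂ then 1 / (nm (m + d) : ℝ) else 0 := fun d hd => by
    rw [← sum_filter]
    refine (sum_nbij' (· + d) (· - d) (fun m hm => ?_) (fun m hm => ?_) (by simp) (by simp)
      fun _ _ => rfl).symm
    · simp only [mem_filter] at hm ⊢
      exact ⟨hm.2, by rw [cls, add_sub_add_right_eq_sub]; exact hm.1.2⟩
    · simp only [mem_filter, sub_add_cancel] at hm ⊢
      have a := mx_add (m - d) d
      have b := (mem m).1 hm.1
      rw [sub_add_cancel] at a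
      exact ⟨⟨(hW _).2 (by omega), by rw [cls, sub_right_comm, sub_sub]; exact hm.2⟩, hm.1⟩
  have t0 := tr 0 (by simp [mx])
  simp only [add_zero] at t0
  rw [tr e he, t0, ← sum_sub_distrib]
  refine (abs_sum_le_sum_abs _ _).trans ((sum_le_sum fun m hm => ?_).trans
    ((layer _ (Ioo (⌊P₁⌋₊ - q) (⌊P₂⌋₊ + q + 1)) (fun m hm => ?_) (fun n hn => ?_)
      (fun n => 10 * q / (n : ℝ) ^ 3 + if n ∈ Ioc (⌊P₁⌋₊ - q) (⌊P₁⌋₊ + q) ∪
        Ioc (⌊P₂⌋₊ - q) (⌊P₂⌋₊ + q) then 2 / (n : ℝ) ^ 2 else 0) fun n => ?_).trans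
      ((total hq h8).trans ?_)))
  · have a := (hW m).1 (mem_filter.1 hm).1
    have b := mx_add m e
    obtain ⟨c1, c2, c3⟩ := close hB hq he (m := m) (by omega)
    have c4 : (0 : ℝ) ≤ 10 * q / (mx m : ℝ) ^ 3 := by positivity
    have c5 : (0 : ℝ) ≤ 2 / (mx m : ℝ) ^ 2 := by positivity
    simp only [mem, mem_union, mem_Ioc]
    split_ifs with d1 d2 d3 d3 d3 d3 d3
    any_goals omega
    · linarith
    · linarith
    · rw [sub_zero, abs_of_nonneg (by positivity)]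
      linarith
    · rw [zero_sub, abs_neg, abs_of_nonneg (by positivity)]
      linarith
    · simpa using add_nonneg c4 c5
  · have a := (hW m).1 (mem_filter.1 hm).1
    exact mem_Ioo.2 (by omega)
  · have := mem_Ioo.1 hn
    omega
  · positivity
  · exact div_le_div_of_nonneg_left (by positivity) (by linarith) (Nat.lt_floor_add_one _).le

theorem part {q : ℕ} (hq : 1 ≤ q) (c : GI) (P₁ P₂ : ℝ) :
    ∑ w ∈ Ico (0 : ℤ) q ×ˢ Ico (0 : ℤ) q, ms (cls q (c + ⟨w.1, w.2⟩)) P₁ P₂ = m0 P₁ P₂ := by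
  have q0 : (0 : ℤ) < q := by exact_mod_cast hq
  have key : ∀ x w : ℤ, w ∈ Ico (0 : ℤ) q → ((q : ℤ) ∣ x - w ↔ w = x % q) := fun x w hw => by
    rw [← Int.modEq_iff_dvd, Int.ModEq, Int.emod_eq_of_lt (mem_Ico.1 hw).1 (mem_Ico.1 hw).2]
  simp only [ms, m0, sum_filter]
  rw [sum_comm]
  refine sum_congr rfl fun m _ => ?_
  rw [sum_congr rfl (g := fun w => if w = ((m - c).re % q, (m - c).im % q) then 1 / (nm m : ℝ)
    else 0) fun w hw => ?_, sum_ite_eq', if_pos]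
  · exact mem_product.2 ⟨mem_Ico.2 ⟨Int.emod_nonneg _ q0.ne', Int.emod_lt_of_pos _ q0⟩,
      mem_Ico.2 ⟨Int.emod_nonneg _ q0.ne', Int.emod_lt_of_pos _ q0⟩⟩
  · refine if_congr ?_ rfl rfl
    obtain ⟨a, b⟩ := mem_product.1 hw
    rw [cls, ← sub_sub, ← Int.cast_natCast, Zsqrtd.intCast_dvd, Prod.ext_iff]
    exact and_congr (key _ _ a) (key _ _ b)

end Den

open Den in
theorem den (hB : Bas) : DenSt := by
  refine ⟨400, by norm_num, fun q c P₁ P₂ hq h => ?_⟩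
  have q1 : (0 : ℝ) < q := by exact_mod_cast hq
  have a : |∑ w ∈ Ico (0 : ℤ) q ×ˢ Ico (0 : ℤ) q,
      (ms (cls q (c + ⟨w.1, w.2⟩)) P₁ P₂ - ms (cls q c) P₁ P₂)| ≤ _ :=
    (abs_sum_le_sum_abs _ _).trans (sum_le_card_nsmul _ _ _ fun w hw => shift hB c hq h (by
      simp only [mem_product, mem_Ico] at hw
      unfold mx
      dsimp only
      omega))
  rw [sum_sub_distrib, part hq, sum_const, card_product, Int.card_Ico, sub_zero, Int.toNat_natCast,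
    nsmul_eq_mul, nsmul_eq_mul, Nat.cast_mul, ← sq] at a
  rw [abs_sub_comm, div_sub' (by positivity), abs_div, abs_of_pos (by positivity : (0 : ℝ) < q ^ 2),
    div_le_iff₀' (by positivity)]
  exact a

end Pool.Agent.Lib.MP_4b1228_nt.GS
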