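import Pool.Agent.Lib.MP_4b1228_nt.GS.St

/-! Divisibility by canonical primes. -/

namespace Pool.Agent.Lib.MP_4b1228_nt.GS

open Finset Filter Topology Pool.Agent.Lib.MP_9d27bc_nt.C Pool.Agent.Lib.MP_9d27bc_nt.C.Two
open scoped Classical

namespace DvA

theorem nm_dvd {a b : GI} (h : a ∣ b) : nm a ∣ nm b := by
  obtain ⟨c, rfl⟩ := h
  exact ⟨nm c, hG.1 a c⟩

theorem nm_cp {l : ℕ} (ε : Bool) (h : Split l) : nm (cp l ε) = l := (hG.2.2.2.2.2.2.2.2.1 l ε h).1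

theorem pr_cp {l : ℕ} (ε : Bool) (h : Split l) : Prime (cp l ε) :=
  (hG.2.2.2.2.2.2.2.2.1 l ε h).2.1

theorem cop_cp {l : ℕ} (ε : Bool) (h : Split l) : IsCoprime (cp l ε) (cp l (!ε)) :=
  (hG.2.2.2.2.2.2.2.2.1 l ε h).2.2.2.2.1

theorem sq_cp {l : ℕ} (ε : Bool) (h : Split l) {a : GI} (h1 : cp l ε ∣ a) (h2 : cp l (!ε) ∣ a) :
    l ^ 2 ∣ nm a :=
  ((hG.2.2.2.2.2.2.2.2.1 l ε h).2.2.2.2.2.2.2.2.2.2.2.2.2.1 a).2 (.inr (.inr ⟨h1, h2⟩))

theorem dvd_eq (l l' : ℕ) (ε ε' : Bool) (h : Split l) (h' : Split l') (hd : cp l ε ∣ cp l' ε') :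
    cp l ε = cp l' ε' := by
  have h1 := nm_dvd hd
  rw [nm_cp ε h, nm_cp ε' h'] at h1
  obtain rfl := (Nat.prime_dvd_prime_iff_eq h.1 h'.1).1 h1
  by_cases e : ε = ε'
  · rw [e]
  · have e' : ε' = !ε := by
      cases ε <;> cases ε' <;> simp_all
    subst e'
    exact absurd ((cop_cp ε h).isUnit_of_dvd hd) (pr_cp ε h).not_isUnit

variable (hX : Box) {y : ℝ} {j J : ℕ} (hy : 1 < y)
include hX hy

theorem prime {p : GI} (h : p ∈ PP y j J) : Prime p := by
  obtain ⟨l, ε, h1, rfl, -⟩ := (hX.mem_PP y j J p hy).1 h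
  exact pr_cp ε h1

theorem eq_of_dvd {p q : GI} (h : p ∈ PP y j J) (h' : q ∈ PP y j J) (hd : p ∣ q) : p = q := by
  obtain ⟨l, ε, h1, rfl, -⟩ := (hX.mem_PP y j J p hy).1 h
  obtain ⟨l', ε', h2, rfl, -⟩ := (hX.mem_PP y j J q hy).1 h'
  exact dvd_eq l l' ε ε' h1 h2 hd

theorem dvd_prod {S : Finset GI} {p : GI} (hS : S ⊆ PP y j J) (hp : p ∈ PP y j J) :
    p ∣ ∏ π ∈ S, π ↔ p ∈ S := by
  refine ⟨fun h => ?_, fun h => dvd_prod_of_mem (fun π => π) h⟩
  obtain ⟨q, hq, hd⟩ := (prime hX hy hp).exists_mem_finset_dvd h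
  rwa [eq_of_dvd hX hy hp (hS hq) hd]

theorem prod_dvd {S : Finset GI} {a : GI} (hS : S ⊆ PP y j J) (h : ∀ p ∈ S, p ∣ a) :
    ∏ π ∈ S, π ∣ a :=
  Finset.prod_dvd_of_coprime (fun _ hp _ hq hne => (prime hX hy (hS hp)).coprime_iff_not_dvd.2
    fun hd => hne (eq_of_dvd hX hy (hS hp) (hS hq) hd)) h

end DvA

open DvA in
theorem dv (hB : Bas) (hX : Box) : Dv where
  dvd_eq := dvd_eq
  dvd_prod _ _ _ _ _ hy hS hp := DvA.dvd_prod hX hy hS hp
  prod_dvd _ _ _ _ _ hy hS h := DvA.prod_dvd hX hy hS h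
  card_dvd y j J R a hy hj ha hn := by
    have hS : {p ∈ PP y j J | p ∣ a} ⊆ PP y j J := filter_subset _ _
    obtain ⟨h1, -, h2, -⟩ := hX.nm_set y j J _ hy hS
    have h3 := Nat.le_of_dvd ((hB.nm_pos a).1 ha)
      (nm_dvd (DvA.prod_dvd hX hy hS fun p hp => (mem_filter.1 hp).2))
    have h4 := (pow_le_pow_iff_right₀ hy).1 ((h1.trans (Nat.cast_le.2 h3)).trans hn)
    exact Nat.le_of_mul_le_mul_left (h2.trans (h4.trans_eq (mul_comm _ _))) hj
  mult_set y j J hy a := by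
    refine card_le_one.2 fun S hS S' hS' => ?_
    obtain ⟨h1, h2⟩ := mem_filter.1 hS
    obtain ⟨h3, h4⟩ := mem_filter.1 hS'
    rw [mem_powerset] at h1 h3
    have e : ∏ π ∈ S, π = ∏ π ∈ S', π := h2.trans h4.symm
    ext p
    refine ⟨fun h => ?_, fun h => ?_⟩
    · rw [← DvA.dvd_prod hX hy h3 (h1 h), ← e]
      exact dvd_prod_of_mem (fun π => π) h
    · rw [← DvA.dvd_prod hX hy h1 (h3 h), e]
      exact dvd_prod_of_mem (fun π => π) h
  mult_tup κ _ _ y j J hy a := by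
    rcases ({f ∈ Fintype.piFinset fun _ : κ => PP y j J | ∏ k, f k = a}).eq_empty_or_nonempty with
      h | ⟨f₀, h₀⟩
    · exact (congrArg card h).trans_le (Nat.zero_le _)
    · obtain ⟨h1, h2⟩ := mem_filter.1 h₀
      rw [Fintype.mem_piFinset] at h1
      refine (card_le_card (t := Fintype.piFinset fun _ : κ => univ.image f₀)
        fun f hf => ?_).trans ?_
      · obtain ⟨h3, h4⟩ := mem_filter.1 hf
        rw [Fintype.mem_piFinset] at h3 ⊢
        intro k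
        have h5 : f k ∣ ∏ k, f₀ k := by
          rw [h2.trans h4.symm]
          exact dvd_prod_of_mem f (mem_univ k)
        obtain ⟨k', -, hd⟩ := (prime hX hy (h3 k)).exists_mem_finset_dvd h5
        exact mem_image.2 ⟨k', mem_univ _, (eq_of_dvd hX hy (h3 k) (h1 k') hd).symm⟩
      · rw [Fintype.card_piFinset, prod_const, card_univ]
        exact Nat.pow_le_pow_left (card_image_le.trans_eq card_univ) _
  nice y j J a hy2 hj hs hr hl := by
    have hy : 1 < y := by linarith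
    have hS : {p ∈ PP y j J | p ∣ a} ⊆ PP y j J := filter_subset _ _
    have ho : Odd (nm a) := by
      rw [← Nat.not_even_iff_odd, even_iff_two_dvd]
      intro h
      have h1 := hr 2 Nat.prime_two h
      have h2 : y ≤ y ^ j := le_self_pow₀ hy.le (by omega)
      push_cast at h1
      linarith
    obtain ⟨h1, h2⟩ := hG.2.2.2.2.2.2.2.2.2.2.1 a hs ho
    have h3 : a ∣ ∏ π ∈ PP y j J with π ∣ a, π := h2 _ fun l ε hp hd hc =>
      dvd_prod_of_mem (fun π => π) (mem_filter.2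
        ⟨(hX.mem_PP y j J _ hy).2 ⟨l, ε, h1 l hp hd, rfl, hr l hp hd, hl l hp hd⟩, hc⟩)
    obtain ⟨u, hu⟩ := associated_of_dvd_dvd
      (DvA.prod_dvd hX hy hS fun p hp => (mem_filter.1 hp).2) h3
    refine ⟨_, mem_filter.2 ⟨mem_powerset.2 hS, fun p hp q hq e => ?_⟩, u, u.isUnit,
      hu.symm.trans (mul_comm _ _)⟩
    obtain ⟨hp1, hp2⟩ := mem_filter.1 (mem_coe.1 hp)
    obtain ⟨hq1, hq2⟩ := mem_filter.1 (mem_coe.1 hq)
    obtain ⟨l, ε, i1, rfl, -⟩ := (hX.mem_PP y j J p hy).1 hp1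
    obtain ⟨l', ε', i2, rfl, -⟩ := (hX.mem_PP y j J q hy).1 hq1
    rw [nm_cp ε i1, nm_cp ε' i2] at e
    subst e
    by_cases e : ε = ε'
    · rw [e]
    · have e' : ε' = !ε := by
        cases ε <;> cases ε' <;> simp_all
      subst e'
      have h4 := sq_cp ε i1 hp2 hq2
      rw [sq] at h4
      exact absurd (Nat.isUnit_iff.1 (hs l h4)) i1.1.ne_one
  sqf y j J S hy hS := by
    obtain ⟨h1, h2⟩ := mem_filter.1 hS
    rw [mem_powerset] at h1
    have hp : ∀ p ∈ S, (nm p).Prime := fun p hp => by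
      obtain ⟨l, ε, i1, rfl, -⟩ := (hX.mem_PP y j J p hy).1 (h1 hp)
      rw [nm_cp ε i1]
      exact i1.1
    rw [hB.nm_prod]
    refine Finset.squarefree_prod_of_pairwise_isCoprime (fun p hp' q hq hne => ?_)
      fun p hp' => (hp p hp').squarefree
    exact Nat.coprime_iff_isRelPrime.1
      ((Nat.coprime_primes (hp p hp') (hp q hq)).2 fun e => hne (h2 hp' hq e))
  units u := by
    constructor
    · intro h
      have h1 : nm u = 1 := Zsqrtd.norm_eq_one_iff.2 h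
      have h2 := hG.2.2.1 u
      rw [h1] at h2
      obtain ⟨a, b⟩ := u
      simp only [mem_insert, mem_singleton, Zsqrtd.ext_iff, Zsqrtd.re_one, Zsqrtd.im_one,
        Zsqrtd.re_neg, Zsqrtd.im_neg]
      push_cast at h2
      have ha : -1 ≤ a ∧ a ≤ 1 := ⟨by nlinarith, by nlinarith⟩
      have hb : -1 ≤ b ∧ b ≤ 1 := ⟨by nlinarith, by nlinarith⟩
      obtain ⟨a1, a2⟩ := ha
      obtain ⟨b1, b2⟩ := hb
      interval_cases a <;> interval_cases b <;> first | decide | exact absurd h2 (by decide)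
    · intro h
      rw [← Zsqrtd.norm_eq_one_iff]
      simp only [mem_insert, mem_singleton] at h
      rcases h with rfl | rfl | rfl | rfl <;> simp [Zsqrtd.norm_def]

end Pool.Agent.Lib.MP_4b1228_nt.GS
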