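import Pool.Agent.Lib.MP_4b1228_nt.GS.St2

/-!
Primes `a ^ 2 + b ^ 2` with small `b`: the primes far from the axis, and the end of the proof.
-/

namespace Pool.Agent.Lib.MP_4b1228_nt.GS

open Finset Filter Topology Pool.Agent.Lib.MP_9d27bc_nt.C Pool.Agent.Lib.MP_9d27bc_nt.C.Two
open scoped Classical

namespace End

theorem inj_le {α β : Type} (S : Finset α) (T : Finset β) (g : α → β) (f : α → ℝ) (F : β → ℝ)
    (hinj : Set.InjOn g S) (hmem : ∀ a ∈ S, g a ∈ T) (hF : ∀ b ∈ T, 0 ≤ F b)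
    (hle : ∀ a ∈ S, f a ≤ F (g a)) : ∑ a ∈ S, f a ≤ ∑ b ∈ T, F b :=
  calc ∑ a ∈ S, f a ≤ ∑ a ∈ S, F (g a) := sum_le_sum hle
    _ = ∑ b ∈ S.image g, F b := (sum_image hinj).symm
    _ ≤ ∑ b ∈ T, F b := by
      refine sum_le_sum_of_subset_of_nonneg ?_ fun b hb _ => hF b hb
      intro b hb
      obtain ⟨a, ha, rfl⟩ := mem_image.1 hb
      exact hmem a ha

theorem nm_real (a : GI) : (nm a : ℝ) = (a.re : ℝ) ^ 2 + (a.im : ℝ) ^ 2 := by
  have h := hG.2.2.1 a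
  exact_mod_cast h

theorem dir_four (a : GI) (ha : a ≠ 0) :
    ‖dir a ^ 4 - 1‖ ^ 2 = 16 * (a.re : ℝ) ^ 2 * (a.im : ℝ) ^ 2 / (nm a : ℝ) ^ 2 := by
  have hn : ‖(a : ℂ)‖ ≠ 0 := by
    rw [norm_ne_zero_iff]
    intro h
    exact ha (GaussianInt.toComplex_eq_zero.1 h)
  have hN : (nm a : ℝ) ≠ 0 := by
    rw [hA.nm_eq]; positivity
  have h4 : ((‖(a : ℂ)‖ : ℝ) : ℂ) ^ 4 = ((nm a : ℝ) : ℂ) ^ 2 := by
    rw [hA.nm_eq]; push_cast; ring
  have hNc : ((nm a : ℝ) : ℂ) ≠ 0 := by exact_mod_cast hN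
  have e : dir a ^ 4 - 1 = ((a : ℂ) ^ 4 - ((nm a : ℝ) : ℂ) ^ 2) / ((nm a : ℝ) : ℂ) ^ 2 := by
    unfold dir
    rw [div_pow, h4]
    field_simp
  have e2 : ‖(a : ℂ) ^ 4 - ((nm a : ℝ) : ℂ) ^ 2‖ ^ 2 =
      16 * (a.re : ℝ) ^ 2 * (a.im : ℝ) ^ 2 * (nm a : ℝ) ^ 2 := by
    rw [Complex.sq_norm, Complex.normSq_apply, nm_real, GaussianInt.toComplex_def]
    simp only [pow_succ, pow_zero, one_mul, Complex.sub_re, Complex.sub_im, Complex.mul_re,
      Complex.mul_im, Complex.add_re, Complex.add_im, Complex.ofReal_re, Complex.ofReal_im,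
      Complex.intCast_re, Complex.intCast_im, Complex.I_re, Complex.I_im]
    ring
  rw [e, norm_div, div_pow, e2, norm_pow, Complex.norm_real, Real.norm_eq_abs, sq_abs]
  field_simp

theorem ww_le (Z : ℕ) (a : GI) (hZ : 1 ≤ Z) (hb : a.im ≠ 0) (hab : |a.im| < a.re) :
    ww Z a ≤ 1 / (2 * Z * (a.im : ℝ) ^ 2) := by
  have ha : a ≠ 0 := by
    rintro rfl
    exact hb rfl
  have hd : ‖dir a ^ 4‖ = 1 := by rw [norm_pow, hA.norm_dir a ha, one_pow]
  have h := hK.decay Z _ hd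
  have h0 := hK.nonneg Z (dir a ^ 4)
  rw [dir_four a ha] at h
  have hZ' : (1 : ℝ) ≤ Z := by exact_mod_cast hZ
  have hb' : (a.im : ℝ) ≠ 0 := by exact_mod_cast hb
  have hab' : |(a.im : ℝ)| < a.re := by exact_mod_cast hab
  have hb2 : 0 < (a.im : ℝ) ^ 2 := by positivity
  have hsq : (a.im : ℝ) ^ 2 < (a.re : ℝ) ^ 2 := by
    rw [← sq_abs (a.im : ℝ)]
    exact pow_lt_pow_left₀ hab' (abs_nonneg _) two_ne_zero
  have hN := nm_real a
  have hNp : 0 < (nm a : ℝ) := by rw [hN]; positivity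
  unfold ww
  set k := ker Z (dir a ^ 4)
  set N := (nm a : ℝ)
  set x := (a.re : ℝ) ^ 2
  set u := (a.im : ℝ) ^ 2
  have h1 : k * (Z * (16 * x * u)) ≤ 4 * N ^ 2 := by
    have : k * (Z * (16 * x * u / N ^ 2)) = k * (Z * (16 * x * u)) / N ^ 2 := by ring
    rw [this, div_le_iff₀ (by positivity)] at h
    exact h
  rw [div_le_div_iff₀ hNp (by positivity)]
  have h2 : N ≤ 2 * x := by linarith
  have h3 : 0 ≤ k * (Z * u) := by positivity
  have h4 : k * (Z * u) * (8 * N) ≤ 4 * N ^ 2 := by nlinarith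
  have h5 : (k * (2 * Z * u)) * N ≤ (1 * N) * N := by nlinarith
  exact le_of_mul_le_mul_right h5 hNp

theorem tail_le (x : ℝ) (hx : 0 < x) (M : ℕ) :
    ∑ n ∈ range M, (if x < n then 1 / (n : ℝ) ^ 2 else 0) ≤ 2 / x := by
  rw [← sum_filter]
  calc _ ≤ ∑ n ∈ Ioo ⌊x⌋₊ M, ((n : ℝ) ^ 2)⁻¹ := by
        simp only [one_div]
        refine sum_le_sum_of_subset_of_nonneg ?_ fun n _ _ => by positivity
        intro n hn
        rw [mem_filter, mem_range] at hn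
        exact mem_Ioo.2 ⟨(Nat.floor_lt hx.le).2 hn.2, hn.1⟩
    _ ≤ 2 / ((⌊x⌋₊ : ℝ) + 1) := sum_Ioo_inv_sq_le _ _
    _ ≤ 2 / x := div_le_div_of_nonneg_left (by norm_num) hx (Nat.lt_floor_add_one x).le

theorem cp_facts (l : ℕ) (ε : Bool) (hl : Split l) :
    nm (cp l ε) = l ∧ (cp l ε).im ≠ 0 ∧ |(cp l ε).im| < (cp l ε).re := by
  obtain ⟨h1, -, -, -, -, -, -, h2, h3, -⟩ := hG.2.2.2.2.2.2.2.2.1 l ε hl
  refine ⟨h1, ?_⟩
  cases ε
  · simp only [cp, Bool.false_eq_true, if_false, Zsqrtd.im_star, Zsqrtd.re_star, abs_neg]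
    exact ⟨by omega, by rw [abs_of_pos h2]; exact h3⟩
  · simp only [cp, if_true]
    exact ⟨by omega, by rw [abs_of_pos h2]; exact h3⟩

theorem harm_le (A : ℕ) : ∑ a ∈ Icc 1 A, 1 / (a : ℝ) ≤ 1 + Real.log A := by
  have h := harmonic_le_one_add_log A
  rw [harmonic_eq_sum_Icc] at h
  push_cast at h
  simpa only [one_div] using h

theorem shape (l A B : ℕ) (h4 : l % 4 = 1) (e : l = A ^ 2 + B ^ 2) (hB : 0 < B) (hAB : B < A)
    (hT : ∀ q : ℕ, q.Prime → A ≠ q ∧ A ≠ 2 * q) :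
    ∃ q n : ℕ, q.Prime ∧ ((1 < n ∧ l = (2 * q * n) ^ 2 + B ^ 2) ∨
      (1 ≤ n ∧ Even B ∧ l = ((2 * n + 1) * q) ^ 2 + B ^ 2)) := by
  rcases Nat.even_or_odd' A with ⟨m, hm | hm⟩
  · have hm1 : m ≠ 1 := by
      rintro rfl
      exact (hT 2 Nat.prime_two).1 (by omega)
    have hq := Nat.minFac_prime hm1
    obtain ⟨n, hn⟩ := Nat.minFac_dvd m
    refine ⟨m.minFac, n, hq, Or.inl ⟨?_, ?_⟩⟩
    · rcases n with _ | _ | n
      · omega
      · exact absurd (by omega) (hT _ hq).2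
      · omega
    · rw [e, hm, mul_assoc, ← hn]
  · have hA1 : A ≠ 1 := by omega
    have hq := Nat.minFac_prime hA1
    obtain ⟨k, hk⟩ := Nat.minFac_dvd A
    have hodd : Odd A := ⟨m, hm⟩
    have hko : Odd k := by
      rw [hk] at hodd
      exact (Nat.odd_mul.1 hodd).2
    obtain ⟨n, hn⟩ := hko
    refine ⟨A.minFac, n, hq, Or.inr ⟨?_, ?_, ?_⟩⟩
    · rcases n with _ | n
      · exact absurd (by rw [hn] at hk; omega) (hT _ hq).1
      · omega
    · rcases Nat.even_or_odd' B with ⟨r, hr | hr⟩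
      · exact ⟨r, by omega⟩
      · exfalso
        have : l = 4 * (m ^ 2 + m + r ^ 2 + r) + 2 := by rw [e, hm, hr]; ring
        omega
    · rw [e, ← hn, mul_comm k, ← hk]

end End

open End in
theorem ext (hB : Bas) (hX : Box) : ExtSt := by
  refine ⟨2, by norm_num, fun y w Z j J hy hw hZ => ?_⟩
  have hy1 : 1 < y := by linarith
  have hZ' : (1 : ℝ) ≤ Z := by exact_mod_cast hZ
  set A := ⌊y ^ J⌋₊ with hAdef
  have hyJ : 1 ≤ y ^ J := one_le_pow₀ hy1.le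
  have key : ∀ π ∈ PP y j J, π.im ≠ 0 ∧ |π.im| < π.re ∧ π.re.natAbs ≤ A := by
    intro π hπ
    obtain ⟨l, ε, hl, rfl, -, h2⟩ := (hX.mem_PP y j J π hy1).1 hπ
    obtain ⟨h1, h3, h4⟩ := cp_facts l ε hl
    refine ⟨h3, h4, ?_⟩
    have h5 := hG.2.2.1 (cp l ε)
    rw [h1] at h5
    have h6 : (cp l ε).re.natAbs ≤ l := by
      have h7 : ((cp l ε).re.natAbs : ℤ) ≤ l := by
        rw [Int.natCast_natAbs, h5]
        nlinarith [sq_nonneg (cp l ε).im, Int.le_self_sq |(cp l ε).re|, sq_abs (cp l ε).re]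
      exact_mod_cast h7
    exact h6.trans (Nat.le_floor h2)
  calc ∑ π ∈ PP y j J with w * π.re < Z * |(π.im : ℝ)|, ww Z π
      ≤ ∑ t ∈ (Icc 1 A ×ˢ (univ : Finset Bool)) ×ˢ range A,
          1 / (2 * (Z : ℝ)) *
            (if w * (t.1.1 : ℝ) / (Z : ℝ) < (t.2 : ℝ) then 1 / (t.2 : ℝ) ^ 2 else 0) := by
        refine inj_le _ _ (fun π : GI => ((π.re.natAbs, decide (0 < π.im)), π.im.natAbs)) _ _
          ?_ ?_ ?_ ?_
        · intro a ha b hb hab
          obtain ⟨a1, a2, -⟩ := key a (mem_filter.1 (mem_coe.1 ha)).1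
          obtain ⟨b1, b2, -⟩ := key b (mem_filter.1 (mem_coe.1 hb)).1
          simp only [Prod.mk.injEq, decide_eq_decide] at hab
          have := abs_nonneg a.im
          have := abs_nonneg b.im
          ext <;> omega
        · intro a ha
          obtain ⟨a1, a2, a3⟩ := key a (mem_filter.1 ha).1
          have := abs_nonneg a.im
          have h' : (a.im.natAbs : ℤ) = |a.im| := Int.natCast_natAbs _
          simp only [mem_product, mem_Icc, mem_univ, mem_range, and_true]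
          omega
        · intro t _
          split_ifs <;> positivity
        · intro a ha
          obtain ⟨a1, a2, a3⟩ := key a (mem_filter.1 ha).1
          have a4 := (mem_filter.1 ha).2
          have a5 : 0 ≤ a.re := (abs_nonneg _).trans a2.le
          have e1 : ((a.re.natAbs : ℕ) : ℝ) = a.re := by
            rw [Nat.cast_natAbs, abs_of_nonneg a5]
          have e2 : ((a.im.natAbs : ℕ) : ℝ) = |(a.im : ℝ)| := by
            rw [Nat.cast_natAbs, Int.cast_abs]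
          simp only [e1, e2]
          rw [if_pos (by rw [div_lt_iff₀ (by positivity)]; linarith), sq_abs]
          refine (ww_le Z a hZ a1 a2).trans (le_of_eq ?_)
          rw [div_mul_div_comm, one_mul]
    _ ≤ ∑ s ∈ Icc 1 A ×ˢ (univ : Finset Bool), 1 / w * (1 / (s.1 : ℝ)) := by
        rw [sum_product]
        refine sum_le_sum fun s hs => ?_
        have hs1 : (1 : ℝ) ≤ s.1 := by exact_mod_cast (mem_Icc.1 (mem_product.1 hs).1).1
        rw [← mul_sum]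
        have ht := tail_le (w * s.1 / Z) (by positivity) A
        refine (mul_le_mul_of_nonneg_left ht (by positivity)).trans (le_of_eq ?_)
        field_simp
    _ = 2 / w * ∑ a ∈ Icc 1 A, 1 / (a : ℝ) := by
        rw [sum_product, mul_sum]
        refine sum_congr rfl fun a _ => ?_
        simp only [sum_const, card_univ, Fintype.card_bool, nsmul_eq_mul]
        push_cast
        ring
    _ ≤ 2 / w * (1 + J * Real.log y) := by
        refine mul_le_mul_of_nonneg_left ((harm_le A).trans ?_) (by positivity)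
        have hA1 : 1 ≤ A := Nat.le_floor (by exact_mod_cast hyJ)
        have hA2 : (A : ℝ) ≤ y ^ J := Nat.floor_le (by positivity)
        have := Real.log_le_log (by exact_mod_cast hA1) hA2
        rw [Real.log_pow] at this
        linarith
    _ = 2 * (1 + J * Real.log y) / w := by ring

open End in
theorem fin2 (hX : Box) (h : ExtSt) (h2 : FamSt) (th : ℝ) (hm : MainSt2 th) : FinSt2 th := by
  obtain ⟨C, hC0, hE⟩ := h
  obtain ⟨J₁, J₂, g₀, c, hc, hJ, hth, hM⟩ := hm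
  have hF := h2 J₁ (J₂ + 1) g₀ (c / 3) hJ (by positivity)
  have hlim : Tendsto (fun y : ℝ => C * (1 + ((J₂ + 1 : ℕ) : ℝ) * Real.log y) / y) atTop (𝓝 0) := by
    have t1 : Tendsto (fun y : ℝ => Real.log y / y) atTop (𝓝 0) := by
      simpa using Real.tendsto_pow_log_div_mul_add_atTop 1 0 1 one_ne_zero
    have t2 : Tendsto (fun y : ℝ => y⁻¹) atTop (𝓝 0) := tendsto_inv_atTop_zero
    have t3 := (t2.add (t1.const_mul ((J₂ + 1 : ℕ) : ℝ))).const_mul C
    simp only [mul_zero, add_zero] at t3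
    refine t3.congr fun y => ?_
    ring
  have hS := hlim.eventually (eventually_lt_nhds (show (0 : ℝ) < c / 3 by positivity))
  refine Set.infinite_of_forall_exists_gt fun n₀ => ?_
  obtain ⟨y, ⟨⟨hM, hF⟩, hS⟩, hy2, hyn⟩ := ((tendsto_natCast_atTop_atTop.eventually
    ((hM.and hF).and hS)).and ((eventually_ge_atTop 2).and (eventually_ge_atTop n₀))).exists
  have hy2' : (2 : ℝ) ≤ y := by exact_mod_cast hy2
  have hy1 : (1 : ℝ) < y := by linarith
  have hZ : 1 ≤ y ^ g₀ := Nat.one_le_pow _ _ (by omega)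
  have hZe : ((y ^ g₀ : ℕ) : ℝ) = (y : ℝ) ^ g₀ := by push_cast; rfl
  have hM := hM _ hZ hZe.le
  have hF := hF _ hZ hZe.le
  have hE := hE y y (y ^ g₀) J₁ (J₂ + 1) hy2' hy1.le hZ
  have hw0 : ∀ a : GI, 0 ≤ ww (y ^ g₀) a := fun a =>
    div_nonneg (hK.nonneg _ _) (Nat.cast_nonneg _)
  obtain ⟨π, hπ, hnf, hnt⟩ : ∃ π ∈ PP y J₁ (J₂ + 1),
      ¬((y : ℝ) * π.re < ((y ^ g₀ : ℕ) : ℝ) * |(π.im : ℝ)|) ∧ ¬Thin π.re := by
    by_contra hno
    have hle : ∑ π ∈ PP y J₁ (J₂ + 1), ww (y ^ g₀) π ≤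
        ∑ π ∈ PP y J₁ (J₂ + 1) with (y : ℝ) * π.re < ((y ^ g₀ : ℕ) : ℝ) * |(π.im : ℝ)|,
          ww (y ^ g₀) π + ∑ π ∈ PP y J₁ (J₂ + 1) with Thin π.re, ww (y ^ g₀) π := by
      rw [sum_filter, sum_filter, ← sum_add_distrib]
      refine sum_le_sum fun π hπ => ?_
      have := hw0 π
      split_ifs with p1 p2 p2
      · linarith
      · linarith
      · linarith
      · exact absurd ⟨π, hπ, p1, p2⟩ hno
    linarith
  obtain ⟨l, ε, hl, rfl, l1, l2⟩ := (hX.mem_PP y J₁ (J₂ + 1) π hy1).1 hπ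
  obtain ⟨h1, h3, h4⟩ := cp_facts l ε hl
  have h5 := hG.2.2.1 (cp l ε)
  rw [h1] at h5
  set a := (cp l ε).re
  set b := (cp l ε).im
  have ha0 : 0 ≤ a := (abs_nonneg _).trans h4.le
  have eA : (a.natAbs : ℤ) = a := Int.natAbs_of_nonneg ha0
  have eB : (b.natAbs : ℤ) = |b| := Int.natCast_natAbs _
  have e : l = a.natAbs ^ 2 + b.natAbs ^ 2 := by
    have : (l : ℤ) = (a.natAbs : ℤ) ^ 2 + (b.natAbs : ℤ) ^ 2 := by rw [eA, eB, sq_abs, h5]
    exact_mod_cast this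
  have hB0 : 0 < b.natAbs := Int.natAbs_pos.2 h3
  obtain ⟨q, n, hq, hsh⟩ := shape l a.natAbs b.natAbs hl.2 e hB0 (by omega) fun q hq =>
    ⟨fun hh => hnt ⟨q, hq, Or.inl (by omega)⟩, fun hh => hnt ⟨q, hq, Or.inr (by omega)⟩⟩
  refine ⟨l, ⟨hl.1, q, n, b.natAbs, hq, hB0, ?_, hsh⟩, ?_⟩
  · have e2 : ((b.natAbs : ℕ) : ℝ) = |(b : ℝ)| := by rw [Nat.cast_natAbs, Int.cast_abs]
    have hb1 : (1 : ℝ) ≤ |(b : ℝ)| := by
      rw [← e2]; exact_mod_cast hB0
    rw [e2]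
    rw [not_lt, hZe] at hnf
    have hl' : (l : ℝ) = (a : ℝ) ^ 2 + (b : ℝ) ^ 2 := by exact_mod_cast h5
    have s1 : ((y : ℝ) ^ g₀ * |(b : ℝ)|) ^ 2 ≤ ((y : ℝ) * a) ^ 2 :=
      pow_le_pow_left₀ (by positivity) hnf 2
    have s2 : ((y : ℝ) * a) ^ 2 ≤ (y : ℝ) ^ (J₂ + 3) := by
      calc ((y : ℝ) * a) ^ 2 = (y : ℝ) ^ 2 * (a : ℝ) ^ 2 := by ring
        _ ≤ (y : ℝ) ^ 2 * (y : ℝ) ^ (J₂ + 1) :=
          mul_le_mul_of_nonneg_left (by nlinarith [sq_nonneg (b : ℝ)]) (by positivity)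
        _ = (y : ℝ) ^ (J₂ + 3) := by ring
    have s3 : (y : ℝ) ^ (J₂ + 3) < ((y : ℝ) ^ g₀ * (y : ℝ) ^ (th * J₁)) ^ 2 := by
      rw [← Real.rpow_natCast (y : ℝ) g₀, ← Real.rpow_add (by linarith),
        ← Real.rpow_natCast _ 2, ← Real.rpow_mul (by linarith), ← Real.rpow_natCast (y : ℝ) (J₂ + 3)]
      refine Real.rpow_lt_rpow_of_exponent_lt hy1 ?_
      push_cast
      linarith
    have s4 : (y : ℝ) ^ g₀ * |(b : ℝ)| < (y : ℝ) ^ g₀ * (y : ℝ) ^ (th * J₁) :=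
      lt_of_pow_lt_pow_left₀ 2 (by positivity) ((s1.trans s2).trans_lt s3)
    have s5 : |(b : ℝ)| < (y : ℝ) ^ (th * J₁) := lt_of_mul_lt_mul_left s4 (by positivity)
    have s6 : 0 ≤ th := by
      by_contra hneg
      have : th * J₁ ≤ 0 := mul_nonpos_of_nonpos_of_nonneg (by linarith) (Nat.cast_nonneg _)
      have := Real.rpow_le_one_of_one_le_of_nonpos hy1.le this
      linarith
    refine s5.trans_le ?_
    rw [mul_comm, Real.rpow_mul (by linarith), Real.rpow_natCast]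
    exact Real.rpow_le_rpow (by positivity) l1.le s6
  · have : (y : ℝ) ≤ (y : ℝ) ^ J₁ := le_self_pow₀ hy1.le (by omega)
    have : (y : ℝ) < l := by linarith
    have : y < l := by exact_mod_cast this
    omega

end Pool.Agent.Lib.MP_4b1228_nt.GS
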