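import Pool.Agent.Lib.MP_4b1228_nt.GS.St
import Pool.Agent.Lib.MP_9d27bc_nt.C.FL

/-!
The fundamental lemma of the sieve with a rate.
-/

namespace Pool.Agent.Lib.MP_4b1228_nt.GS

open Finset Pool.Agent.Lib.MP_9d27bc_nt.C
open scoped Classical

open Pool.Agent.Lib.MP_9d27bc_nt.C.FL in
theorem flq : FLq := by
  intro κ hκ
  obtain ⟨C, hC, hblock⟩ := block
  have hex := Real.exp_pos (4 * (κ * C))
  refine ⟨3 * Real.exp (4 * (κ * C)) + 1, by positivity, fun m hm0 => ?_⟩
  set δ := (3 * Real.exp (4 * (κ * C)) + 1) / 2 ^ m with hδ'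
  have hδ : 0 < δ := by positivity
  set η := min 1 (δ / 3) with hη
  have hη0 : 0 < η := lt_min one_pos (by positivity)
  have hm : Real.exp (4 * (κ * C)) / η < 2 ^ m := by
    have a : (2 : ℝ) ^ m * (δ / 3) = Real.exp (4 * (κ * C)) + 1 / 3 := by
      rw [hδ']
      field_simp
    rw [div_lt_iff₀ hη0, hη, mul_min_of_nonneg _ _ (by positivity), a]
    exact lt_min (by linarith) (by linarith)
  clear_value δ
  intro ι S w P e ν₀ M E z hz hw hP hM hE hΛ
  set ν : ℕ → ℝ := fun l => if l ∈ P then ν₀ l else 0 with hν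
  have hν0 : ∀ l, 0 ≤ ν l := fun l => by
    simp only [hν]
    split_ifs with h
    · exact (hP l h).2.2.1
    · exact le_rfl
  have hνP : ∀ l ∈ P, ν l = ν₀ l := fun l hl => if_pos hl
  set X : ι → ℕ → ℝ := fun i l => if e l i then 1 else 0 with hX
  have hX0 : ∀ i l, 0 ≤ X i l ∧ X i l ≤ 1 := fun i l => by
    simp only [hX]
    split_ifs <;> norm_num
  set J := ⌊2 * z⌋₊ with hJ
  set B : Fin J → Finset ℕ := fun j => {l ∈ P | idx z l = j} with hB
  have hBP : ∀ j, ∀ l ∈ B j, l ∈ P ∧ idx z l = j := fun j l hl => mem_filter.1 hl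
  have hfib : ∀ x : ℕ → ℝ, ∏ l ∈ P, x l = ∏ j, ∏ l ∈ B j, x l := by
    intro x
    rw [← prod_fiberwise_of_maps_to (t := range J) (g := idx z)
      fun l hl => mem_range.2 (idx_spec (hP l hl).1 (hP l hl).2.1).2.2,
      ← Fin.prod_univ_eq_prod_range (fun j => ∏ l ∈ P with idx z l = j, x l)]
  have hlz : 0 ≤ Real.log z := Real.log_nonneg (by linarith)
  set h : Fin J → ℕ := fun j => 2 * (m + j) with hh
  have hev : ∀ j, Even (h j) := fun j => even_two_mul _
  have hexp := expand S w X ν P (M := M) (Z := z ^ (4 * m + 6)) hE (fun T hT hT' => by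
      have := hΛ T hT hT'
      rw [sum_filter] at this
      rw [prod_congr rfl fun l hl => hνP l (hT hl)]
      simpa only [hX, prod_boole, mul_boole] using this) B
    (fun i j hij => disjoint_left.2 fun l h1 h2 =>
      hij (Fin.ext ((hBP i l h1).2.symm.trans (hBP j l h2).2)))
    (fun j => Real.exp (Real.log z / 2 ^ (j : ℕ))) (fun j => Real.one_le_exp (by positivity))
    (fun j => h j + 1) (fun j l hl => by
      obtain ⟨a1, a2⟩ := hBP j l hl
      have a3 := (hP l a1).1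
      refine ⟨a1, a3, (Real.log_le_iff_le_exp (by exact_mod_cast a3.pos)).1 ?_⟩
      rw [← a2]
      exact (idx_spec a3 (hP l a1).2.1).1) (by
      simp only [← Real.exp_nat_mul, ← Real.exp_sum]
      rw [← Real.exp_log (show 0 < z ^ (4 * m + 6) by positivity), Real.log_pow,
        Real.exp_le_exp]
      have a1 : ∑ j : Fin J, ((h j + 1 : ℕ) : ℝ) * (Real.log z / 2 ^ (j : ℕ))
          = (∑ j ∈ range J, ((2 * m + 1 : ℝ) + 2 * j) / 2 ^ j) * Real.log z := by
        rw [← Fin.sum_univ_eq_sum_range (fun j => ((2 * m + 1 : ℝ) + 2 * j) / 2 ^ j), sum_mul]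
        refine sum_congr rfl fun j _ => ?_
        simp only [hh]
        push_cast
        ring
      rw [a1, sum_lev]
      refine mul_le_mul_of_nonneg_right ?_ hlz
      have : (0 : ℝ) ≤ (2 * (2 * m + 1) + 4 * J + 4) / 2 ^ J := by positivity
      push_cast
      linarith)
  have cU1 : ∀ a k, |cU a k| ≤ 1 := fun a k => by
    unfold cU
    split_ifs <;> simp
  have cD1 : ∀ a k, |cD a k| ≤ 1 := fun a k => by
    unfold cD
    split_ifs <;> simp
  have cU2 : ∀ a k, cU a k ≠ 0 → k ≤ a + 1 := fun a k hk => by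
    by_contra hc
    exact hk (if_neg (by omega))
  have cD2 : ∀ a k, cD a k ≠ 0 → k ≤ a + 1 := fun a k hk => by
    by_contra hc
    exact hk (if_neg (by omega))
  set U : (ℕ → ℝ) → ℝ := fun x => ∏ j, Q (cU (h j)) (B j) x with hU
  set D : Fin J → (ℕ → ℝ) → ℝ := fun j x =>
    ∏ i, if i = j then Q (cD (h i)) (B i) x else Q (cU (h i)) (B i) x with hD
  have E1 : |∑ i ∈ S, w i * U (X i) - M * U ν| ≤ z ^ (4 * m + 6) * E :=
    hexp (fun j => cU (h j)) (fun j => cU1 _) fun j => cU2 _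
  have E2 : ∀ j, |∑ i ∈ S, w i * D j (X i) - M * D j ν| ≤ z ^ (4 * m + 6) * E := by
    intro j
    have := hexp (fun i => if i = j then cD (h i) else cU (h i))
      (fun i k => by split_ifs; exacts [cD1 _ _, cU1 _ _])
      fun i k => by split_ifs; exacts [cD2 _ _, cU2 _ _]
    have a1 : ∀ i x, Q (if i = j then cD (h i) else cU (h i)) (B i) x
        = if i = j then Q (cD (h i)) (B i) x else Q (cU (h i)) (B i) x := by
      intro i x
      split_ifs <;> rfl
    simpa only [hD, a1] using this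
  have T : ∀ x : ℕ → ℝ, (∀ l ∈ P, 0 ≤ x l ∧ x l ≤ 1) →
      ∏ l ∈ P, (1 - x l) ≤ U x ∧ U x ≤ ∏ l ∈ P, (1 - x l) + ∑ j, D j x := by
    intro x hx
    have a1 : ∀ j, ∀ l ∈ B j, 0 ≤ x l ∧ x l ≤ 1 := fun j l hl => hx l (hBP j l hl).1
    have a2 : ∀ j, 0 ≤ ∏ l ∈ B j, (1 - x l) := fun j =>
      prod_nonneg fun l hl => sub_nonneg.2 (a1 j l hl).2
    rw [hfib]
    exact ⟨prod_le_prod (fun j _ => a2 j) fun j _ => (bonf_even (a1 j) (hev j)).1,
      tele univ a2 (fun j => (bonf_even (a1 j) (hev j)).1) fun j => (bonf_even (a1 j) (hev j)).2⟩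
  have hν1 : ∀ l ∈ P, 0 ≤ ν l ∧ ν l ≤ 1 / 2 := fun l hl =>
    ⟨hν0 l, (hνP l hl).trans_le (hP l hl).2.2.2.2⟩
  have hν2 : ∀ l ∈ P, 0 ≤ ν l ∧ ν l ≤ 1 := fun l hl => ⟨hν0 l, by linarith [(hν1 l hl).2]⟩
  set V : Fin J → ℝ := fun j => ∏ l ∈ B j, (1 - ν l) with hV
  set ε : Fin J → ℝ := fun j => η * (1 / 2 ^ ((j : ℕ) + 1)) with hε
  have hε0 : ∀ j, 0 ≤ ε j := fun j => by positivity
  have hV0 : ∀ j, 0 ≤ V j := fun j =>
    prod_nonneg fun l hl => sub_nonneg.2 (hν2 l (hBP j l hl).1).2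
  have hεs : ∑ j, ε j ≤ η := by
    rw [← mul_sum, Fin.sum_univ_eq_sum_range (fun j => (1 : ℝ) / 2 ^ (j + 1)), sum_geo]
    have : (0 : ℝ) ≤ 1 / 2 ^ J := by positivity
    nlinarith
  have hDj : ∀ j, Q (cD (h j)) (B j) ν ≤ V j * ε j := by
    intro j
    have a1 : ∑ l ∈ B j, ν l ≤ κ * C := by
      refine le_trans ?_ (mul_le_mul_of_nonneg_left (hblock (Real.log z / 2 ^ (j : ℕ)) (B j)
        fun l hl => ?_) hκ.le)
      · rw [mul_sum]
        refine sum_le_sum fun l hl => ?_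
        rw [hνP l (hBP j l hl).1, mul_one_div]
        exact (hP l (hBP j l hl).1).2.2.2.1
      · obtain ⟨b1, b2⟩ := hBP j l hl
        obtain ⟨b3, b4, -⟩ := idx_spec (hP l b1).1 (hP l b1).2.1
        rw [b2] at b3 b4
        exact ⟨(hP l b1).1, b3, b4⟩
    have a2 := (D_le (B := B j) hν0 (h j)).trans
      (Real.exp_le_exp.2 (show _ ≤ 2 * (κ * C) by linarith))
    have a3 := (Real.exp_le_exp.2 (show -(2 * (κ * C)) ≤ _ by linarith)).trans
      (prod_ge fun l hl => hν1 l (hBP j l hl).1)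
    have a4 : (2 : ℝ) ^ m * 2 ^ ((j : ℕ) + 1) ≤ 2 ^ (h j + 1) := by
      rw [← pow_add]
      exact pow_le_pow_right₀ one_le_two (by simp only [hh]; omega)
    have a5 : Real.exp (2 * (κ * C)) ≤ 2 ^ m * η * Real.exp (-(2 * (κ * C))) := by
      rw [div_lt_iff₀ hη0] at hm
      rw [Real.exp_neg, ← div_eq_mul_inv, le_div_iff₀ (Real.exp_pos _), ← Real.exp_add]
      rw [show 2 * (κ * C) + 2 * (κ * C) = 4 * (κ * C) by ring]
      exact hm.le
    have a6 := mul_le_mul_of_nonneg_right a4 (D_nonneg (B := B j) (fun l _ => hν0 l) (h j))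
    have a7 := mul_le_mul_of_nonneg_left a3 (show 0 ≤ 2 ^ m * η by positivity)
    refine le_of_mul_le_mul_left ?_ (show (0 : ℝ) < 2 ^ m * 2 ^ ((j : ℕ) + 1) by positivity)
    calc _ ≤ 2 ^ m * η * V j := by linarith
      _ = _ := by simp only [hε]; field_simp
  have hDs : ∑ j, D j ν ≤ δ * ∏ l ∈ P, (1 - ν l) := by
    have a1 : ∀ j, D j ν ≤ (∏ i, V i) * 3 * ε j := by
      intro j
      calc D j ν ≤ ∏ i, (V i * (1 + ε i)) * (if i = j then ε i else 1) := by
            refine prod_le_prod (fun i _ => ?_) fun i _ => ?_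
            · split_ifs
              · exact D_nonneg (fun l _ => hν0 l) _
              · exact (hV0 i).trans (bonf_even (fun l hl => hν2 l (hBP i l hl).1) (hev i)).1
            · have b1 := hDj i
              have b2 := mul_nonneg (mul_nonneg (hV0 i) (hε0 i)) (hε0 i)
              split_ifs
              · linarith
              · have := (bonf_even (fun l hl => hν2 l (hBP i l hl).1) (hev i)).2
                linarith
        _ = (∏ i, V i) * (∏ i, (1 + ε i)) * ε j := by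
            rw [prod_mul_distrib, prod_mul_distrib, prod_ite_eq']
            simp
        _ ≤ _ := by
            have b1 := prod_nonneg (s := univ) fun i _ => hV0 i
            have b2 : ∏ i, (1 + ε i) ≤ 3 := (Real.prod_one_add_le_exp_sum _ hε0).trans
              ((Real.exp_le_exp.2 (hεs.trans (min_le_left _ _))).trans Real.exp_one_lt_three.le)
            have b3 := hε0 j
            gcongr
    have a2 := sum_le_sum fun j (_ : j ∈ univ) => a1 j
    have a3 := prod_nonneg (s := univ) fun i _ => hV0 i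
    have a4 := mul_le_mul_of_nonneg_left (hεs.trans (min_le_right _ _)) (mul_nonneg a3 zero_le_three)
    rw [← mul_sum] at a2
    rw [hfib]
    linarith
  have e1 : ∑ i ∈ S with ∀ l ∈ P, ¬e l i, w i = ∑ i ∈ S, w i * ∏ l ∈ P, (1 - X i l) := by
    rw [sum_filter]
    refine sum_congr rfl fun i _ => ?_
    have : ∀ l, 1 - X i l = if ¬e l i then 1 else 0 := fun l => by
      simp only [hX]
      split_ifs <;> norm_num
    simp only [this, prod_boole, mul_boole]
  have b1 : ∑ i ∈ S, w i * ∏ l ∈ P, (1 - X i l) ≤ ∑ i ∈ S, w i * U (X i) :=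
    sum_le_sum fun i hi => mul_le_mul_of_nonneg_left (T _ fun l _ => hX0 i l).1 (hw i hi)
  have b2 : ∑ i ∈ S, w i * U (X i)
      ≤ ∑ i ∈ S, w i * ∏ l ∈ P, (1 - X i l) + ∑ j, ∑ i ∈ S, w i * D j (X i) := by
    rw [sum_comm, ← sum_add_distrib]
    refine sum_le_sum fun i hi => ?_
    rw [← mul_sum, ← mul_add]
    exact mul_le_mul_of_nonneg_left (T _ fun l _ => hX0 i l).2 (hw i hi)
  have b3 : ∑ j, ∑ i ∈ S, w i * D j (X i) ≤ M * ∑ j, D j ν + J * (z ^ (4 * m + 6) * E) := by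
    have := sum_le_sum fun j (_ : j ∈ univ) => (abs_le.1 (E2 j)).2
    rw [sum_sub_distrib, ← mul_sum, sum_const, card_univ, Fintype.card_fin, nsmul_eq_mul] at this
    linarith
  have b4 := mul_le_mul_of_nonneg_left (T ν hν2).1 hM
  have b5 := mul_le_mul_of_nonneg_left (T ν hν2).2 hM
  have b6 := mul_le_mul_of_nonneg_left hDs hM
  have b7 : (J + 1 : ℝ) * (z ^ (4 * m + 6) * E) ≤ E * z ^ (2 * (4 * m + 6)) := by
    have c1 : (J : ℝ) ≤ 2 * z := Nat.floor_le (by linarith)
    have c2 : z ^ 3 ≤ z ^ (4 * m + 6) := pow_le_pow_right₀ (by linarith) (by omega)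
    have c4 : 4 * z ≤ z ^ 3 := by nlinarith [mul_self_nonneg z, mul_le_mul hz hz (by norm_num) (by linarith)]
    have c3 : (J + 1 : ℝ) ≤ z ^ (4 * m + 6) := by linarith
    calc _ ≤ z ^ (4 * m + 6) * (z ^ (4 * m + 6) * E) := by gcongr
      _ = _ := by ring
  have b8 : 0 ≤ (J : ℝ) * (z ^ (4 * m + 6) * E) := by positivity
  obtain ⟨b9, b10⟩ := abs_le.1 E1
  rw [e1, ← prod_congr rfl fun l hl => congrArg (1 - ·) (hνP l hl), abs_le]
  constructor <;> linarith

end Pool.Agent.Lib.MP_4b1228_nt.GS
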