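import Pool.Agent.Lib.MP_4b1228_nt.GS.St2

/-! The primes whose real part is a prime or twice a prime have a small weight. -/

namespace Pool.Agent.Lib.MP_4b1228_nt.GS

open Finset Filter Pool.Agent.Lib.MP_9d27bc_nt.C Pool.Agent.Lib.MP_9d27bc_nt.C.Two
open scoped Classical

noncomputable section

namespace Fam

/-- the envelope -/
def env (Z a n : ℕ) : ℝ := 4 * Z / ((Z : ℝ) * n + a) ^ 2

theorem norm_sub (π : GI) (h : π ≠ 0) :
    (nm π : ℝ) ^ 2 * ‖dir π ^ 4 - 1‖ ^ 2 = 16 * (π.re : ℝ) ^ 2 * (π.im : ℝ) ^ 2 := by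
  have h1 := hA.nm_eq π
  have h2 := hA.eq_dir π
  have h3 : ((nm π : ℕ) : ℂ) = (π.re : ℂ) ^ 2 + (π.im : ℂ) ^ 2 := by
    exact_mod_cast hG.2.2.1 π
  have h4 : ((nm π : ℕ) : ℂ) = (‖(π : ℂ)‖ : ℂ) ^ 2 := by exact_mod_cast h1
  have h5 : ((nm π : ℕ) : ℂ) ^ 2 * (dir π ^ 4 - 1) =
      (π : ℂ) ^ 2 * (4 * π.re * π.im * Complex.I) := by
    have e : ((nm π : ℕ) : ℂ) ^ 2 * dir π ^ 4 = (π : ℂ) ^ 4 := by
      rw [h4]
      conv_rhs => rw [h2]
      ring
    rw [mul_sub, e, h3, GaussianInt.toComplex_def]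
    linear_combination ((π.im : ℂ) ^ 4 * (Complex.I ^ 2 - 1) - 2 * (π.re : ℂ) ^ 2 * π.im ^ 2) *
      Complex.I_sq
  have h6 := congrArg norm h5
  simp only [norm_mul, norm_pow, Complex.norm_natCast, Complex.norm_intCast, Complex.norm_I,
    Complex.norm_ofNat, mul_one, ← h1] at h6
  have h0 : (nm π : ℝ) ≠ 0 := by
    rw [h1]
    exact pow_ne_zero _ (norm_ne_zero_iff.2 (by simpa using h))
  have h7 : (nm π : ℝ) * ‖dir π ^ 4 - 1‖ = 4 * |(π.re : ℝ)| * |(π.im : ℝ)| :=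
    mul_left_cancel₀ h0 (by linear_combination h6)
  rw [← mul_pow, h7, mul_pow, mul_pow, sq_abs, sq_abs]
  norm_num

theorem ww_le {π : GI} {Z a n : ℕ} (hZ : 1 ≤ Z) (ha : π.re = a) (hn : |π.im| = n) (h0 : 0 < n)
    (h1 : n < a) : ww Z π ≤ env Z a n := by
  have hπ : π ≠ 0 := by
    rintro rfl
    simp at ha
    omega
  have hw : ‖dir π ^ 4‖ = 1 := by rw [norm_pow, hA.norm_dir π hπ, one_pow]
  have k1 := hK.le Z _ hw
  have k2 := hK.decay Z _ hw
  have k0 := hK.nonneg Z (dir π ^ 4)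
  have e1 : (π.re : ℝ) = a := by exact_mod_cast ha
  have e2 : (π.im : ℝ) ^ 2 = (n : ℝ) ^ 2 := by
    rw [← sq_abs, ← Int.cast_abs, hn, Int.cast_natCast]
  have e3 : (nm π : ℝ) = (a : ℝ) ^ 2 + (n : ℝ) ^ 2 := by
    rw [← e1, ← e2]
    exact_mod_cast hG.2.2.1 π
  have k3 := norm_sub π hπ
  rw [e1, e2, e3] at k3
  have z : (1 : ℝ) ≤ Z := by exact_mod_cast hZ
  have n0 : (0 : ℝ) < n := by exact_mod_cast h0
  have n1 : (n : ℝ) < a := by exact_mod_cast h1
  have a0 := n0.trans n1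
  rw [ww, env, e3, div_le_div_iff₀ (by positivity) (by positivity)]
  generalize ker Z (dir π ^ 4) = k at *
  generalize ‖dir π ^ 4 - 1‖ ^ 2 = d at *
  have zn : (0 : ℝ) < Z * n := by positivity
  rcases le_total ((Z : ℝ) * n) a with h | h
  · have : ((Z : ℝ) * n + a) ^ 2 ≤ 4 * (a ^ 2 + n ^ 2) := by nlinarith
    calc _ ≤ (Z : ℝ) * (4 * (a ^ 2 + n ^ 2)) := by gcongr
      _ = _ := by ring
  · have b1 : ((Z : ℝ) * n + a) ^ 2 ≤ 4 * (Z * n) ^ 2 := by nlinarith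
    have b2 : k * Z * (16 * a ^ 2 * n ^ 2) ≤ 4 * (a ^ 2 + n ^ 2) ^ 2 := by
      rw [← k3]
      nlinarith [mul_le_mul_of_nonneg_right k2 (sq_nonneg ((a : ℝ) ^ 2 + n ^ 2))]
    have b3 : (a : ℝ) ^ 2 + n ^ 2 ≤ 4 * a ^ 2 := by nlinarith
    have b4 : k * Z * n ^ 2 ≤ a ^ 2 + n ^ 2 := by
      refine le_of_mul_le_mul_left ?_ (by positivity : (0 : ℝ) < 16 * a ^ 2)
      nlinarith [mul_le_mul_of_nonneg_right b3 (by positivity : (0 : ℝ) ≤ a ^ 2 + n ^ 2)]
    calc _ ≤ k * (4 * (Z * n) ^ 2) := by gcongr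
      _ = 4 * Z * (k * Z * n ^ 2) := by ring
      _ ≤ _ := by gcongr

theorem tele {Z a Q : ℕ} (hZ : 1 ≤ Z) (ha : 1 ≤ a) (hQ : 1 ≤ Q) (K : ℕ) :
    ∑ k ∈ range (K + 1), env Z a (k * Q) ≤
      4 * Z / (a : ℝ) ^ 2 + 4 / (Q * a) - 4 / (Q * ((Z : ℝ) * Q * K + a)) := by
  have z : (0 : ℝ) < Z := by exact_mod_cast hZ
  have a0 : (0 : ℝ) < a := by exact_mod_cast ha
  have q : (0 : ℝ) < Q := by exact_mod_cast hQ
  induction K with
  | zero => simp [env]
  | succ K ih =>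
    rw [sum_range_succ]
    have : env Z a ((K + 1) * Q) ≤ 4 / (Q * ((Z : ℝ) * Q * K + a)) -
        4 / (Q * ((Z : ℝ) * Q * (K + 1 : ℕ) + a)) := by
      have e : 4 / (Q * ((Z : ℝ) * Q * K + a)) - 4 / (Q * ((Z : ℝ) * Q * (K + 1 : ℕ) + a)) =
          4 * Z / (((Z : ℝ) * Q * K + a) * ((Z : ℝ) * Q * (K + 1) + a)) := by
        push_cast
        field_simp
        ring
      rw [e, env]
      push_cast
      refine div_le_div_of_nonneg_left (by positivity) (by positivity) ?_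
      have : 0 ≤ (Z : ℝ) * Q * ((Z : ℝ) * Q * (K + 1) + a) := by positivity
      nlinarith
    linarith

theorem blocks {Z a : ℕ} (ha : 1 ≤ a) (Q c K : ℕ) :
    ∑ n ∈ range (K * Q), (if Q.Coprime (n + c) then env Z a n else 0) ≤
      Q.totient * ∑ k ∈ range K, env Z a (k * Q) := by
  have a0 : (0 : ℝ) < a := by exact_mod_cast ha
  induction K with
  | zero => simp
  | succ K ih =>
    rw [add_mul, one_mul, sum_range_add, sum_range_succ, mul_add]
    refine add_le_add ih ?_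
    rw [← sum_filter, ← Nat.filter_coprime_Ico_eq_totient Q (K * Q + c), ← nsmul_eq_mul]
    refine (sum_le_card_nsmul _ _ (env Z a (K * Q)) fun n _ => ?_).trans (le_of_eq ?_)
    · unfold env
      push_cast
      gcongr
      linarith [Nat.cast_nonneg (α := ℝ) n]
    · congr 1
      refine card_bij (fun n _ => K * Q + n + c) (fun n hn => ?_) (fun n _ m _ h => by omega)
        fun m hm => ?_
      · simp only [mem_filter, mem_range, mem_Ico] at hn ⊢
        exact ⟨by omega, hn.2⟩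
      · simp only [mem_filter, mem_range, mem_Ico] at hm ⊢
        obtain ⟨n, rfl⟩ := Nat.exists_eq_add_of_le hm.1.1
        exact ⟨n, ⟨by omega, by rw [add_right_comm]; exact hm.2⟩, by omega⟩

theorem row {Z a Q : ℕ} (hZ : 1 ≤ Z) (hQ : 1 ≤ Q) (h : Z * Q ≤ a) (c K : ℕ) :
    ∑ n ∈ range ((K + 1) * Q), (if Q.Coprime (n + c) then env Z a n else 0) ≤
      8 * (Q.totient / Q) * (1 / (a : ℝ)) := by
  have ha : 1 ≤ a := (Nat.mul_pos hZ hQ).trans_le h
  have a0 : (0 : ℝ) < a := by exact_mod_cast ha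
  have q : (0 : ℝ) < Q := by exact_mod_cast hQ
  have h' : (Z : ℝ) * Q ≤ a := by exact_mod_cast h
  have h1 := tele hZ ha hQ K
  have h2 : 4 * Z / (a : ℝ) ^ 2 ≤ 4 / (Q * a) := by
    rw [div_le_div_iff₀ (by positivity) (by positivity)]
    nlinarith
  have h3 : 0 ≤ 4 / (Q * ((Z : ℝ) * Q * K + a)) := by positivity
  have h4 : ∑ k ∈ range (K + 1), env Z a (k * Q) ≤ 2 * (4 / (Q * a)) := by linarith
  refine (blocks ha Q c _).trans ((mul_le_mul_of_nonneg_left h4 (by positivity)).trans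
    (le_of_eq ?_))
  field_simp
  norm_num

theorem modulus (δ : ℝ) (hδ : 0 < δ) :
    ∃ Q I : ℕ, 1 ≤ Q ∧ Q ∣ I ^ 2 + 1 ∧ (Q.totient : ℝ) / Q ≤ δ := by
  obtain ⟨C, -, h, -⟩ := hM
  obtain ⟨W, hW, hW'⟩ := ((eventually_ge_atTop (2 : ℝ)).and ((Real.tendsto_log_atTop.comp
    (Real.tendsto_log_atTop.atTop_div_const (Real.log_pos one_lt_two))).eventually_ge_atTop
      (C - 2 * Real.log δ))).exists
  have hs : ∀ l ∈ sp 2 W, Split l := fun l hl =>
    ((hG.2.2.2.2.2.2.2.2.2.2.2.2.2.2.2.2.2.2.2.2 2 W l).2.1 hl).1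
  have q1 : 0 < ∏ l ∈ sp 2 W, l := prod_pos fun l hl => (hs l hl).1.pos
  have sf : Squarefree (∏ l ∈ sp 2 W, l) := squarefree_prod_of_pairwise_isCoprime
    (fun _ hp _ hq e => Nat.coprime_iff_isRelPrime.1
      ((Nat.coprime_primes (hs _ hp).1 (hs _ hq).1).2 e)) fun l hl => (hs l hl).1.prime.squarefree
  have pf := Nat.primeFactors_prod fun l hl => (hs l hl).1
  obtain ⟨r, hr⟩ := (ZMod.isSquare_neg_one_iff_forall_mem_primeFactors_mod_four_ne_three sf).2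
    fun q hq => by
      have := (hs q (pf ▸ hq)).2
      omega
  have t := Nat.totient_eq_mul_prod_factors (∏ l ∈ sp 2 W, l)
  rw [pf] at t
  generalize ∏ l ∈ sp 2 W, l = Q at *
  have : NeZero Q := ⟨q1.ne'⟩
  refine ⟨Q, r.val, q1, (ZMod.natCast_eq_zero_iff _ _).1 ?_, ?_⟩
  · push_cast
    rw [ZMod.natCast_zmod_val, sq, ← hr, neg_add_cancel]
  · have t' : (Q.totient : ℝ) = Q * ∏ p ∈ sp 2 W, (1 - (p : ℝ)⁻¹) := by
      simpa using congrArg (Rat.cast : ℚ → ℝ) t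
    rw [t', mul_div_cancel_left₀ _ (by positivity)]
    refine (prod_le_prod (fun l hl => sub_nonneg.2 (inv_le_one_of_one_le₀ ?_))
      fun l _ => Real.one_sub_le_exp_neg _).trans ?_
    · exact_mod_cast (hs l hl).1.pos
    · rw [← Real.exp_sum, ← Real.le_log_iff_exp_le hδ, sum_neg_distrib]
      have h1 := (abs_le.1 (h 2 W le_rfl hW)).1
      simp only [div_eq_mul_inv (2 : ℝ), ← mul_sum] at h1
      simp only [Function.comp] at hW'
      linarith

theorem cop {Q I a n l : ℕ} (hQ : 1 ≤ Q) (hI : Q ∣ I ^ 2 + 1) (hl : l.Prime) (h : Q < l)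
    (e : l = a ^ 2 + n ^ 2) : Q.Coprime (n + I * a) := by
  refine Nat.coprime_of_dvd fun p hp h1 h2 => ?_
  have h3 : (p : ℤ) ∣ l := by
    have b1 : (p : ℤ) ∣ (I : ℤ) ^ 2 + 1 := by exact_mod_cast h1.trans hI
    have b2 : (p : ℤ) ∣ n + I * a := by exact_mod_cast h2
    have := (b2.mul_right (n - I * a)).add (b1.mul_right (a ^ 2))
    rwa [show (n + I * a : ℤ) * (n - I * a) + (I ^ 2 + 1) * a ^ 2 = l by rw [e]; push_cast; ring]
      at this
  have := (Nat.prime_dvd_prime_iff_eq hp hl).1 (by exact_mod_cast h3)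
  have := Nat.le_of_dvd hQ h1
  omega

end Fam

open Fam in
theorem fam (_hB : Bas) (hX : Box) : FamSt := by
  intro J₁ J g₀ ε hJ hε
  obtain ⟨C, hC, -, hm, -⟩ := hM
  obtain ⟨D, hD, hD0⟩ : ∃ D, D = C + Real.log (4 * (J + 1 : ℕ)) ∧ 0 < D :=
    ⟨_, rfl, by have := Real.log_nonneg (x := 4 * (J + 1 : ℕ)) (by norm_cast; omega); linarith⟩
  obtain ⟨Q, I, hQ, hI, hφ⟩ := modulus (ε / (32 * D)) (by positivity)
  filter_upwards [eventually_ge_atTop (64 : ℝ), eventually_ge_atTop (2 * (Q : ℝ) ^ 2)]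
    with y y1 y2 Z hZ hZy
  have q1 : (1 : ℝ) ≤ Q := by exact_mod_cast hQ
  have y0 : (1 : ℝ) ≤ y := by linarith
  have s1 : 8 ≤ √y := Real.le_sqrt_of_sq_le (by linarith)
  have s2 : 2 ≤ √(√y) := Real.le_sqrt_of_sq_le (by linarith)
  have s3 : √(√y) ≤ y ^ (J + 1) :=
    ((Real.sqrt_le_iff.2 ⟨by linarith, by nlinarith⟩ : √(√y) ≤ √y).trans
      (Real.sqrt_le_iff.2 ⟨by linarith, by nlinarith⟩ : √y ≤ y)).trans
      (le_self_pow₀ y0 J.succ_ne_zero)
  have hP : ∑ l ∈ pr (√(√y)) (y ^ (J + 1)), 1 / (l : ℝ) ≤ D := by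
    have h1 := (abs_le.1 (hm _ _ s2 s3)).2
    have l0 := Real.log_pos (show 1 < y by linarith)
    rw [Real.log_sqrt (by linarith), Real.log_sqrt (by linarith), Real.log_pow,
      show ((J + 1 : ℕ) : ℝ) * Real.log y / (Real.log y / 2 / 2) = 4 * (J + 1 : ℕ) by
        field_simp; norm_num] at h1
    linarith
  generalize hPP : pr (√(√y)) (y ^ (J + 1)) = P at hP
  let A : Finset ℕ := {a ∈ P ∪ P.image (fun q : ℕ => 2 * q) | Z * Q ≤ a}
  have hAs : ∑ a ∈ A, 1 / (a : ℝ) ≤ 2 * D := by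
    refine (sum_le_sum_of_subset_of_nonneg (filter_subset _ _) fun _ _ _ => by positivity).trans ?_
    have h1 := sum_union_inter (s₁ := P) (s₂ := P.image (fun q : ℕ => 2 * q)) (f := fun a : ℕ => 1 / (a : ℝ))
    have h2 : 0 ≤ ∑ a ∈ P ∩ P.image (fun q : ℕ => 2 * q), 1 / (a : ℝ) := sum_nonneg fun _ _ => by positivity
    have h3 : ∑ a ∈ P.image (fun q : ℕ => 2 * q), 1 / (a : ℝ) ≤ ∑ a ∈ P, 1 / (a : ℝ) := by
      rw [sum_image fun _ _ _ _ h => by simpa using h]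
      refine sum_le_sum fun a _ => ?_
      push_cast
      rw [mul_comm, ← div_div]
      exact half_le_self (by positivity)
    linarith
  let e : GI → ℕ × ℕ × Bool := fun π => (π.re.natAbs, π.im.natAbs, decide (0 < π.im))
  let F : ℕ × ℕ × Bool → ℝ := fun w =>
    if Q.Coprime (w.2.1 + I * w.1) then env Z w.1 w.2.1 else 0
  have key : ∀ π ∈ ({π ∈ PP y J₁ J | Thin π.re} : Finset GI), 0 < π.re ∧ ww Z π ≤ F (e π) ∧
      e π ∈ A ×ˢ range ((⌊y ^ J⌋₊ + 1) * Q) ×ˢ (univ : Finset Bool) := fun π hπ => by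
    obtain ⟨h1, q, hq, h2⟩ := mem_filter.1 hπ
    obtain ⟨l, s, hl, rfl, l1, l2⟩ := (hX.mem_PP y J₁ J π (by linarith)).1 h1
    obtain ⟨g1, -, -, -, -, -, -, g2, g3, -⟩ := hG.2.2.2.2.2.2.2.2.1 l s hl
    have g4 := hG.2.2.1 (cp l s)
    have g5 : 0 < |(cp l s).im| ∧ |(cp l s).im| < (cp l s).re := by
      cases s <;> simp [cp, abs_of_pos g2, g2, g3]
    rw [g1] at g4
    generalize cp l s = π at *
    obtain ⟨a, ha⟩ := Int.eq_ofNat_of_zero_le (g5.1.trans g5.2).le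
    obtain ⟨n, hn⟩ := Int.eq_ofNat_of_zero_le g5.1.le
    have e1 : π.re.natAbs = a := by omega
    have e2 : π.im.natAbs = n := by rw [Int.abs_eq_natAbs] at hn; omega
    have n0 : 0 < n := by omega
    have n1 : n < a := by omega
    have e3 : l = a ^ 2 + n ^ 2 := by
      rw [← sq_abs π.im, ha, hn] at g4
      exact_mod_cast g4
    have r1 : (n : ℝ) < a := by exact_mod_cast n1
    have r0 : (0 : ℝ) ≤ n := n.cast_nonneg
    have r3 : (l : ℝ) = a ^ 2 + n ^ 2 := by exact_mod_cast e3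
    have r4 : y * (y ^ g₀) ^ 2 ≤ y ^ J₁ := by
      rw [← pow_mul, ← pow_succ']
      exact pow_le_pow_right₀ y0 (by omega)
    have r5 : 1 ≤ (y ^ g₀) ^ 2 := one_le_pow₀ (one_le_pow₀ y0)
    have r6 : y < 2 * a ^ 2 := by nlinarith
    have r7 : (a : ℝ) ≤ y ^ (J + 1) := by
      have : (1 : ℝ) ≤ a := by exact_mod_cast n0.trans n1
      have : y ^ J ≤ y ^ (J + 1) := pow_le_pow_right₀ y0 J.le_succ
      nlinarith
    have hqP : q ∈ P := by
      have b : (q : ℝ) ≤ a ∧ (a : ℝ) ≤ 2 * q := by norm_cast; omega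
      refine hPP ▸ (hG.2.2.2.2.2.2.2.2.2.2.2.2.2.2.2.2.2.2.2.2 _ _ q).1.2 ⟨hq, ?_, b.1.trans r7⟩
      refine (Real.sqrt_lt' (by exact_mod_cast hq.pos)).2 ?_
      have b1 : (a : ℝ) ^ 2 ≤ (2 * q) ^ 2 := pow_le_pow_left₀ (r0.trans r1.le) b.2 2
      have b2 : 8 * √y ≤ y := by nlinarith [Real.mul_self_sqrt (show 0 ≤ y by linarith)]
      nlinarith
    refine ⟨by omega, ?_, mem_product.2 ⟨mem_filter.2 ⟨?_, ?_⟩, mem_product.2 ⟨?_, mem_univ _⟩⟩⟩
    · simp only [F, e, e1, e2]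
      rw [if_pos (cop hQ hI hl.1 (by
        have : (Q : ℝ) < l := by nlinarith
        exact_mod_cast this) e3)]
      exact ww_le hZ ha hn n0 n1
    · rcases h2 with h2 | h2
      · exact mem_union_left _ (by rwa [show (e π).1 = q by simp only [e]; omega])
      · exact mem_union_right _ (mem_image.2 ⟨q, hqP, by simp only [e]; omega⟩)
    · have : ((Z : ℝ) * Q) ^ 2 ≤ (a : ℝ) ^ 2 := by
        have b1 : (Z : ℝ) ^ 2 ≤ (y ^ g₀) ^ 2 := by gcongr
        have b2 := mul_le_mul b1 y2 (by positivity) (by positivity)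
        nlinarith
      have := (pow_le_pow_iff_left₀ (by positivity) (by positivity) two_ne_zero).1 this
      simp only [e, e1]
      exact_mod_cast this
    · have : n ≤ ⌊y ^ J⌋₊ := Nat.le_floor (by
        have : (1 : ℝ) ≤ n := by exact_mod_cast n0
        nlinarith)
      simp only [e, e2, mem_range]
      exact lt_of_lt_of_le (Nat.lt_succ_of_le this) (Nat.le_mul_of_pos_right _ hQ)
  have F0 : ∀ w, 0 ≤ F w := fun w => by
    simp only [F, env]
    positivity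
  refine (sum_le_sum fun π hπ => (key π hπ).2.1).trans ?_
  rw [← sum_image (f := F) (g := e) fun π hπ π' hπ' h => by
    have h1 := (key π hπ).1
    have h2 := (key π' hπ').1
    simp only [e, Prod.mk.injEq, decide_eq_decide] at h
    exact Zsqrtd.ext (by omega) (by omega)]
  refine (sum_le_sum_of_subset_of_nonneg (image_subset_iff.2 fun π hπ => (key π hπ).2.2)
    fun w _ _ => F0 w).trans ?_
  rw [sum_product]
  refine (sum_le_sum (g := fun a : ℕ => 16 * (Q.totient / Q) * (1 / (a : ℝ))) fun a ha => ?_).trans ?_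
  · have := row hZ hQ (mem_filter.1 ha).2 (I * a) ⌊y ^ J⌋₊
    simp only [sum_product, F, sum_const, card_univ, Fintype.card_bool, nsmul_eq_mul,
      ← mul_sum, Nat.cast_ofNat]
    linarith
  · rw [← mul_sum]
    calc _ ≤ 16 * (ε / (32 * D)) * (2 * D) := by gcongr
      _ = ε := by field_simp; norm_num

end

end Pool.Agent.Lib.MP_4b1228_nt.GS
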