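import Pool.Agent.Lib.MP_4b1228_nt.GS.St

/-!
A power saving for sums of angular characters over an annulus, for frequencies of polynomial size.
-/

namespace Pool.Agent.Lib.MP_4b1228_nt.GS

open Finset Filter Pool.Agent.Lib.MP_9d27bc_nt.C Pool.Agent.Lib.MP_9d27bc_nt.C.Two
open scoped Classical ComplexConjugate

noncomputable section

namespace GEP

/-- the weights of the two directions -/
def ph (d : ℕ) (u v : GI) : ℝ := (((u : ℂ) / dir v) ^ d).im ^ 2

variable {d : ℕ}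

lemma norm_dir_inv (v : GI) : ‖(dir v)⁻¹‖ ≤ 1 := by
  simpa [chi] using hA.norm_chi_le (-1) v

lemma norm_u {u : GI} (hu : u = 1 ∨ u = ⟨0, 1⟩) : ‖(u : ℂ)‖ = 1 := by
  rcases hu with rfl | rfl
  · simp
  · simp [GaussianInt.toComplex_def']

lemma abs_im_le {u : GI} (hu : u = 1 ∨ u = ⟨0, 1⟩) (v : GI) :
    |(((u : ℂ) / dir v) ^ d).im| ≤ 1 := by
  refine (Complex.abs_im_le_norm _).trans ?_
  rw [norm_pow, div_eq_mul_inv, norm_mul, norm_u hu, one_mul]
  exact pow_le_one₀ (norm_nonneg _) (norm_dir_inv v)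

lemma ph_nonneg (u v : GI) : 0 ≤ ph d u v := sq_nonneg _

lemma ph_le {u : GI} (hu : u = 1 ∨ u = ⟨0, 1⟩) (v : GI) :
    ph d u v ≤ |(((u : ℂ) / dir v) ^ d).im| := by
  have h := abs_im_le (d := d) hu v
  rw [ph, ← sq_abs]
  nlinarith [abs_nonneg (((u : ℂ) / dir v) ^ d).im]

lemma ph_add (hd : Odd d) {v : GI} (hv : v ≠ 0) : ph d 1 v + ph d ⟨0, 1⟩ v = 1 := by
  have h1 : ‖(dir v)⁻¹ ^ d‖ = 1 := by rw [norm_pow, norm_inv, hA.norm_dir v hv]; simp
  have h2 : ((((⟨0, 1⟩ : GI) : ℂ)) / dir v) ^ d = Complex.I ^ d * (dir v)⁻¹ ^ d := by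
    rw [div_eq_mul_inv, mul_pow, GaussianInt.toComplex_def']
    simp
  have h3 : Complex.I ^ d = Complex.I ∨ Complex.I ^ d = -Complex.I := by
    obtain ⟨k, rfl⟩ := hd
    rw [pow_succ, pow_mul, Complex.I_sq]
    rcases neg_one_pow_eq_or ℂ k with h | h <;> simp [h]
  have h4 := Complex.sq_norm ((dir v)⁻¹ ^ d)
  rw [h1, Complex.normSq_apply] at h4
  rw [ph, ph, h2, map_one, one_div]
  rcases h3 with h | h
  · rw [h, Complex.I_mul_im]
    linarith
  · rw [h, neg_mul, Complex.neg_im, Complex.I_mul_im]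
    linarith

lemma ph_lip {u : GI} (hu : u = 1 ∨ u = ⟨0, 1⟩) {v w : GI} (hv : v ≠ 0) (hw : w ≠ 0) :
    |ph d u w - ph d u v| ≤ 4 * d * ‖(v : ℂ) - w‖ / ‖(v : ℂ)‖ := by
  have h1 := hA.lip (-(d : ℤ)) v w (by simpa using hv) (by simpa using hw)
  have e : ∀ a : GI, ((u : ℂ) / dir a) ^ d =
      (u : ℂ) ^ d * ((a : ℂ) / (‖(a : ℂ)‖ : ℂ)) ^ (-(d : ℤ)) := fun a => by
    rw [div_eq_mul_inv, mul_pow, zpow_neg, inv_pow, zpow_natCast]
    rfl
  have h2 : |(((u : ℂ) / dir w) ^ d).im - (((u : ℂ) / dir v) ^ d).im| ≤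
      2 * d * ‖(v : ℂ) - w‖ / ‖(v : ℂ)‖ := by
    rw [abs_sub_comm, ← Complex.sub_im]
    refine (Complex.abs_im_le_norm _).trans ?_
    rw [e, e, ← mul_sub, norm_mul, norm_pow, norm_u hu, one_pow, one_mul]
    refine h1.trans (le_of_eq ?_)
    simp
  have h3 := abs_im_le (d := d) hu v
  have h4 := abs_im_le (d := d) hu w
  rw [ph, ph, sq_sub_sq, abs_mul]
  calc _ ≤ 2 * (2 * d * ‖(v : ℂ) - w‖ / ‖(v : ℂ)‖) :=
        mul_le_mul ((abs_add_le _ _).trans (by linarith)) h2 (abs_nonneg _) zero_le_two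
    _ = _ := by ring

lemma one_dir {C T s η : ℝ} {H : ℕ} {u : GI} {t : ℤ} (hu : u = 1 ∨ u = ⟨0, 1⟩)
    (hT : 1 ≤ T) (hH : 1 ≤ H) (hs : (H : ℝ) ≤ s) (hsT : s ≤ √T) (hη : 0 ≤ η)
    (hS : ∀ (Φ : GI ≃ GI) (G : GI → ℂ), (∀ v, |‖((Φ v : GI) : ℂ)‖ - ‖(v : ℂ)‖| ≤ s) →
      (∀ v, ‖G v‖ ≤ 1) → ‖∑ v ∈ ann T, G (Φ v) - ∑ v ∈ ann T, G v‖ ≤ C)
    (hRow : ∀ v ∈ ann T, η ≤ |(((u : ℂ) / dir v) ^ d).im| →
      ‖∑ n ∈ Ioc 0 H, chi t (v + (n : ℕ) * u)‖ ≤ H * η) :
    ‖∑ v ∈ ann T, chi t v * ph d u v‖ ≤ C + 18 * T * (η + 4 * d * s / √T) := by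
  have hH' : (0 : ℝ) < H := by exact_mod_cast hH
  have hs0 : 0 ≤ s := le_trans (by positivity) hs
  have hsq : 0 < √T := Real.sqrt_pos.2 (by linarith)
  have hcard : (#(Ioc 0 H) : ℝ) = H := by simp
  have hn : ∀ n ∈ Ioc 0 H, ‖((((n : ℕ) : GI) * u : GI) : ℂ)‖ ≤ s := fun n hn => by
    rw [map_mul, map_natCast, norm_mul, norm_u hu, mul_one, Complex.norm_natCast]
    exact le_trans (by exact_mod_cast (mem_Ioc.1 hn).2) hs
  have hG : ∀ v, ‖chi t v * ph d u v‖ ≤ 1 := fun v => by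
    rw [norm_mul, Complex.norm_real, Real.norm_of_nonneg (ph_nonneg u v)]
    exact mul_le_one₀ (hA.norm_chi_le t v) (ph_nonneg u v) ((ph_le hu v).trans (abs_im_le hu v))
  have h1 : ∀ n ∈ Ioc 0 H, ‖∑ v ∈ ann T, chi t v * ph d u v -
      ∑ v ∈ ann T, chi t (v + (n : ℕ) * u) * ph d u (v + (n : ℕ) * u)‖ ≤ C := fun n hn' => by
    rw [norm_sub_rev]
    refine hS (Equiv.addRight (((n : ℕ) : GI) * u)) (fun v => chi t v * ph d u v) (fun v => ?_) hG
    refine (abs_norm_sub_norm_le _ _).trans ?_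
    rw [Equiv.coe_addRight, map_add, add_sub_cancel_left]
    exact hn n hn'
  have h2 : ∀ v ∈ ann T, ‖∑ n ∈ Ioc 0 H, chi t (v + (n : ℕ) * u) * ph d u (v + (n : ℕ) * u)‖ ≤
      H * (η + 4 * d * s / √T) := fun v hv1 => by
    have hv2 : √T < ‖(v : ℂ)‖ := by
      rw [Real.sqrt_lt' (by
        have := ((hA.mem_ann T v).1 hv1).1
        rw [hA.nm_eq] at this
        exact lt_of_le_of_ne (norm_nonneg _) fun h => by rw [← h] at this; linarith), ← hA.nm_eq]
      exact ((hA.mem_ann T v).1 hv1).1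
    have hv0 : v ≠ 0 := fun h => by
      rw [h, map_zero, norm_zero] at hv2
      linarith
    have e : ∑ n ∈ Ioc 0 H, chi t (v + (n : ℕ) * u) * ph d u (v + (n : ℕ) * u) =
        (∑ n ∈ Ioc 0 H, chi t (v + (n : ℕ) * u)) * ph d u v + ∑ n ∈ Ioc 0 H,
          chi t (v + (n : ℕ) * u) * ((ph d u (v + (n : ℕ) * u) - ph d u v : ℝ) : ℂ) := by
      rw [sum_mul, ← sum_add_distrib]
      refine sum_congr rfl fun n _ => ?_
      rw [Complex.ofReal_sub]
      ring
    rw [e, mul_add]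
    refine (norm_add_le _ _).trans (add_le_add ?_ ?_)
    · rw [norm_mul, Complex.norm_real, Real.norm_of_nonneg (ph_nonneg u v)]
      rcases le_total η |(((u : ℂ) / dir v) ^ d).im| with h | h
      · exact (mul_le_of_le_one_right (norm_nonneg _)
          ((ph_le hu v).trans (abs_im_le hu v))).trans (hRow v hv1 h)
      · refine mul_le_mul ?_ ((ph_le hu v).trans h) (ph_nonneg u v) hH'.le
        refine (norm_sum_le_of_le _ fun n _ => hA.norm_chi_le t _).trans ?_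
        rw [sum_const, nsmul_eq_mul, hcard, mul_one]
    · refine (norm_sum_le_of_le _ (n := fun _ => 4 * d * s / √T) fun n hn' => ?_).trans ?_
      · have a1 := hn n hn'
        have hw : v + (n : ℕ) * u ≠ 0 := fun h => by
          rw [eq_neg_of_add_eq_zero_left h, map_neg, norm_neg] at hv2
          linarith
        have a2 := ph_lip (d := d) hu hv0 hw
        rw [map_add, sub_add_cancel_left, norm_neg] at a2
        rw [norm_mul, Complex.norm_real, Real.norm_eq_abs]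
        refine (mul_le_of_le_one_left (abs_nonneg _) (hA.norm_chi_le t _)).trans (a2.trans ?_)
        gcongr
      · rw [sum_const, nsmul_eq_mul, hcard]
  have h3 : (H : ℂ) * ∑ v ∈ ann T, chi t v * ph d u v =
      ∑ n ∈ Ioc 0 H, (∑ v ∈ ann T, chi t v * ph d u v -
        ∑ v ∈ ann T, chi t (v + (n : ℕ) * u) * ph d u (v + (n : ℕ) * u)) +
      ∑ v ∈ ann T, ∑ n ∈ Ioc 0 H, chi t (v + (n : ℕ) * u) * ph d u (v + (n : ℕ) * u) := by
    rw [sum_sub_distrib, sum_comm (s := ann T), sub_add_cancel, sum_const, nsmul_eq_mul]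
    simp
  have h4 : (#(ann T) : ℝ) ≤ 18 * T := hA.card_ann T (by linarith)
  have h5 : H * ‖∑ v ∈ ann T, chi t v * ph d u v‖ ≤
      H * C + 18 * T * (H * (η + 4 * d * s / √T)) := by
    rw [← Complex.norm_natCast H, ← norm_mul, h3, Complex.norm_natCast]
    refine (norm_add_le _ _).trans (add_le_add ((norm_sum_le_of_le _ h1).trans ?_)
      ((norm_sum_le_of_le _ h2).trans ?_))
    · rw [sum_const, nsmul_eq_mul, hcard]
    · rw [sum_const, nsmul_eq_mul]
      exact mul_le_mul_of_nonneg_right h4 (by positivity)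
  refine le_of_mul_le_mul_left (h5.trans (le_of_eq ?_)) hH'
  ring

end GEP

theorem gep (h : GRowSt) : GEPSt := by
  intro A
  obtain ⟨C, hC, hS⟩ := hSh
  obtain ⟨C₁, hC₁, h1⟩ := hE1
  obtain ⟨d, γ, hd, hγ, hRow⟩ := h A
  obtain ⟨g, hg, g1, g2⟩ : ∃ g : ℝ, 0 < g ∧ g ≤ γ / 2 ∧ g ≤ 1 / 4 :=
    ⟨min (γ / 2) (1 / 4), lt_min (half_pos hγ) (by norm_num), min_le_left _ _, min_le_right _ _⟩
  refine ⟨g / 2, half_pos hg, by linarith, ?_⟩
  filter_upwards [hRow, eventually_ge_atTop (1 : ℝ),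
    (tendsto_rpow_atTop (half_pos hg)).eventually_ge_atTop (2 * (2 * C + 18 + 72 * d)),
    (tendsto_rpow_atTop (half_pos hg)).eventually_ge_atTop (2 * C₁)] with T hR hT hbig hbig'
  intro t ht0 ht2
  have hT0 : 0 < T := by linarith
  have mono : ∀ {a b : ℝ}, a ≤ b → T ^ a ≤ T ^ b := fun h =>
    Real.rpow_le_rpow_of_exponent_le hT h
  have e' : T ^ (1 - g / 2) = T ^ (g / 2) * T ^ (1 - g) := by
    rw [← Real.rpow_add hT0]
    congr 1
    ring
  rw [e']
  rcases le_total (T ^ (1 / 4 : ℝ)) |(t : ℝ)| with ht1 | ht1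
  · obtain ⟨H, hH1, hH2, hR⟩ := hR t ht1 ht2
    have hsT : T ^ (1 / 2 - γ) ≤ √T := by
      rw [Real.sqrt_eq_rpow]
      exact mono (by linarith)
    have b1 : T ^ (3 / 4 : ℝ) * (√(T ^ (1 / 2 - γ)) + 1) ≤ 2 * T ^ (1 - g) := by
      rw [mul_add, mul_one, Real.sqrt_eq_rpow, ← Real.rpow_mul hT0.le, ← Real.rpow_add hT0,
        two_mul]
      exact add_le_add (mono (by linarith)) (mono (by linarith))
    have mulT : ∀ a : ℝ, T * T ^ a = T ^ (1 + a) := fun a => by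
      rw [Real.rpow_add hT0, Real.rpow_one]
    have b2 : T * T ^ (-γ) ≤ T ^ (1 - g) := by
      rw [mulT]
      exact mono (by linarith)
    have b3 : T * (T ^ (1 / 2 - γ) / √T) ≤ T ^ (1 - g) := by
      rw [Real.sqrt_eq_rpow, ← Real.rpow_sub hT0, mulT]
      exact mono (by linarith)
    have one : ∀ u : GI, (u = 1 ∨ u = ⟨0, 1⟩) →
        ‖∑ v ∈ ann T, chi t v * GEP.ph d u v‖ ≤ (2 * C + 18 + 72 * d) * T ^ (1 - g) :=
      fun u hu => by
        have h := GEP.one_dir (d := d) (t := t) hu hT hH1 hH2 hsT (Real.rpow_nonneg hT0.le (-γ))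
          (fun Φ G a b => by
            simpa only [filter_true] using hS T _ Φ (fun _ => True) (fun _ => True) G hT
              (Real.rpow_nonneg hT0.le _) hsT (fun _ => Iff.rfl) a b)
          fun v hv => hR v u hv hu
        have h' := mul_le_mul_of_nonneg_left b1 hC.le
        have h'' := mul_le_mul_of_nonneg_left b3 (Nat.cast_nonneg (α := ℝ) d)
        rw [mul_div_assoc] at h
        linarith
    have e : ∑ v ∈ ann T, chi t v = ∑ v ∈ ann T, chi t v * GEP.ph d 1 v +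
        ∑ v ∈ ann T, chi t v * GEP.ph d ⟨0, 1⟩ v := by
      rw [← sum_add_distrib]
      refine sum_congr rfl fun v hv => ?_
      have hv0 : v ≠ 0 := fun h => by
        have h1 := ((hA.mem_ann T v).1 hv).1
        rw [hA.nm_eq, h, map_zero, norm_zero] at h1
        linarith
      rw [← mul_add, ← Complex.ofReal_add, GEP.ph_add hd hv0, Complex.ofReal_one, mul_one]
    rw [e]
    refine (norm_add_le _ _).trans ((add_le_add (one _ (Or.inl rfl)) (one _ (Or.inr rfl))).trans ?_)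
    have := mul_le_mul_of_nonneg_right hbig (Real.rpow_nonneg hT0.le (1 - g))
    linarith
  · have h3 : |(t : ℝ)| * √T ≤ T ^ (3 / 4 : ℝ) := by
      refine (mul_le_mul_of_nonneg_right ht1 (Real.sqrt_nonneg _)).trans (le_of_eq ?_)
      rw [Real.sqrt_eq_rpow, ← Real.rpow_add hT0]
      norm_num
    have h4 := h1 T 1 0 t hT le_rfl ht0
    simp only [Nat.cast_one, one_dvd, filter_true, mul_one] at h4
    have h5 : T ^ (3 / 4 : ℝ) ≤ T ^ (1 - g) := mono (by linarith)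
    have h6 := mul_le_mul_of_nonneg_right hbig' (Real.rpow_nonneg hT0.le (1 - g))
    have h7 := mul_le_mul_of_nonneg_left (add_le_add h5 (h3.trans h5)) hC₁.le
    linarith

end

end Pool.Agent.Lib.MP_4b1228_nt.GS
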