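import Pool.Agent.Lib.MP_4b1228_nt.GS.St
import Pool.Agent.Lib.MP_9d27bc_nt.C.TwoRow

/-! Short horizontal or vertical sums of angular characters of any polynomial frequency. -/

namespace Pool.Agent.Lib.MP_4b1228_nt.GS

open Finset Filter Pool.Agent.Lib.MP_028aa5_nt Pool.Agent.Lib.MP_9d27bc_nt.C
  Pool.Agent.Lib.MP_9d27bc_nt.C.Two

namespace GRow

theorem pd (d : ℕ) (t : ℝ) (z : ℂ) : PD d (t * ((-1) ^ (d + 1) * z ^ d / d).im / (2 * Real.pi))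
    fun x => t * (Complex.logTaylor (d + 1) (x * z)).im / (2 * Real.pi) := by
  set c : ℕ → ℝ := fun j => t * ((-1) ^ (j + 1) * z ^ j / j).im / (2 * Real.pi) with hc
  have h := PD.poly d (∑ j ∈ range (d + 1), Polynomial.monomial j (c j))
    (Polynomial.natDegree_sum_le_of_forall_le _ _ fun j hj =>
      (Polynomial.natDegree_monomial_le _).trans (by rw [mem_range] at hj; omega))
  have h1 : (∑ j ∈ range (d + 1), Polynomial.monomial j (c j)).coeff d = c d := by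
    rw [Polynomial.finsetSum_coeff]
    simp only [Polynomial.coeff_monomial, sum_ite_eq', mem_range, Nat.lt_add_one, if_true]
  rw [h1] at h
  convert h using 2 with x
  rw [Polynomial.eval_finsetSum, Complex.logTaylor, Complex.im_sum, mul_sum, sum_div]
  refine sum_congr rfl fun j _ => ?_
  rw [Polynomial.eval_monomial, hc, show ((-1 : ℂ) ^ (j + 1) * (x * z) ^ j / j) =
    ((x ^ j : ℝ) : ℂ) * ((-1) ^ (j + 1) * z ^ j / j) by push_cast; ring, Complex.im_ofReal_mul]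
  ring

theorem lead (d : ℕ) (t : ℝ) (z : ℂ) : |t * ((-1) ^ (d + 1) * z ^ d / d).im / (2 * Real.pi)| =
    |t| * |(z ^ d).im| / (d * (2 * Real.pi)) := by
  rw [show ((-1 : ℂ) ^ (d + 1) * z ^ d / d) = (((-1) ^ (d + 1) / d : ℝ) : ℂ) * z ^ d by
      push_cast; ring, Complex.im_ofReal_mul, abs_div, abs_mul, abs_mul, abs_div, abs_pow, abs_neg,
    abs_one, one_pow, Nat.abs_cast, abs_of_pos Real.two_pi_pos]
  ring

theorem err {d : ℕ} (hd : 3 ≤ d) (t : ℝ) {w : ℂ} (hw : ‖w‖ ≤ 1 / 2) :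
    ‖e (t * (Complex.log (1 + w)).im / (2 * Real.pi)) -
      e (t * (Complex.logTaylor (d + 1) w).im / (2 * Real.pi))‖ ≤ |t| * ‖w‖ ^ (d + 1) := by
  refine (norm_e_sub_le _ _).trans ?_
  have h1 := (Complex.abs_im_le_norm _).trans
    (Complex.norm_log_sub_logTaylor_le d (hw.trans_lt (by norm_num)))
  have h2 : (1 - ‖w‖)⁻¹ ≤ 2 := inv_le_of_inv_le₀ two_pos (by linarith)
  have h7 : (3 : ℝ) ≤ d := by exact_mod_cast hd
  have h3 : ‖w‖ ^ (d + 1) * (1 - ‖w‖)⁻¹ / (d + 1) ≤ ‖w‖ ^ (d + 1) / 2 := by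
    have := mul_le_mul_of_nonneg_left h2 (pow_nonneg (norm_nonneg w) (d + 1))
    rw [div_le_iff₀ (by linarith)]
    nlinarith [pow_nonneg (norm_nonneg w) (d + 1)]
  have h4 := h1.trans h3
  rw [Complex.sub_im] at h4
  rw [← sub_div, ← mul_sub, abs_div, abs_mul, abs_of_pos Real.two_pi_pos, ← mul_div_assoc,
    div_le_iff₀ Real.two_pi_pos]
  have h5 := mul_le_mul_of_nonneg_left h4 (abs_nonneg t)
  have h6 : 0 ≤ |t| * ‖w‖ ^ (d + 1) := by positivity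
  nlinarith [Real.pi_gt_three]

theorem core {d B : ℕ} (hd : 3 ≤ d) (hB : WeylSt d B) {S X t : ℝ} {H : ℕ} {z : ℂ} (hS : 2 ≤ S)
    (X0 : 0 < X) (h1 : 1 ≤ H) (h2 : H * S ^ (2 * B + 2 * d + 5 + d + 2) ≤ X)
    (h3 : X ^ d * S ^ (2 * B + 2 * d + 5) ≤ |t| * H ^ d)
    (h4 : |t| * H ^ d ≤ 2 ^ d * (X ^ d * S ^ (2 * B + 2 * d + 5)))
    (ht : |t| * S ^ (2 * B + 1) ≤ X ^ d) (hz : ‖z‖ * X ≤ 1)
    (hz' : 1 ≤ 2 ^ d * S * X ^ d * |(z ^ d).im|) :
    ‖∑ n ∈ Ioc 0 H, e (t * (Complex.log (1 + n * z)).im / (2 * Real.pi))‖ ≤ H / S := by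
  have S1 : 1 < S := by linarith
  have S0 : 0 < S := by linarith
  have H0 : (0 : ℝ) < H := by exact_mod_cast h1
  have d1 : (3 : ℝ) ≤ d := by exact_mod_cast hd
  have hn : ∀ n ∈ Ioc 0 H, ‖(n : ℂ) * z‖ * X ≤ H := fun n hn => by
    rw [norm_mul, Complex.norm_natCast, mul_assoc]
    exact (mul_le_of_le_one_right n.cast_nonneg hz).trans (by exact_mod_cast (mem_Ioc.1 hn).2)
  have hE : ∀ n ∈ Ioc 0 H, ‖e (t * (Complex.log (1 + n * z)).im / (2 * Real.pi)) -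
      e (t * (Complex.logTaylor (d + 1) ((n : ℝ) * z)).im / (2 * Real.pi))‖ ≤ 1 / (2 * S) := by
    intro n hn'
    have k1 := hn n hn'
    have k2 : ‖(n : ℂ) * z‖ ≤ 1 / 2 := by
      have k3 := (mul_le_mul_of_nonneg_left (hS.trans (le_self_pow₀ S1.le (by omega))) H0.le).trans h2
      exact le_of_mul_le_mul_right (by linarith) X0
    rw [Complex.ofReal_natCast]
    refine (err hd t k2).trans ?_
    rw [le_div_iff₀ (by positivity)]
    refine le_of_mul_le_mul_right ?_ (pow_pos X0 (d + 1))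
    calc |t| * ‖(n : ℂ) * z‖ ^ (d + 1) * (2 * S) * X ^ (d + 1)
        = |t| * (‖(n : ℂ) * z‖ * X) ^ (d + 1) * (2 * S) := by ring
      _ ≤ |t| * H ^ (d + 1) * (2 * S) := by gcongr
      _ = |t| * H ^ d * H * (2 * S) := by ring
      _ ≤ 2 ^ d * (X ^ d * S ^ (2 * B + 2 * d + 5)) * H * (2 * S) := by gcongr
      _ ≤ S ^ d * (X ^ d * S ^ (2 * B + 2 * d + 5)) * H * (S * S) := by gcongr
      _ = X ^ d * (H * S ^ (2 * B + 2 * d + 5 + d + 2)) := by ring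
      _ ≤ X ^ d * X := by gcongr
      _ = 1 * X ^ (d + 1) := by ring
  by_contra hc
  have hD := (norm_sum_le _ _).trans (sum_le_sum hE)
  rw [sum_sub_distrib, sum_const, Nat.card_Ioc, Nat.sub_zero, nsmul_eq_mul] at hD
  have hL : (H : ℝ) / (2 * S) ≤ ‖∑ n ∈ Ioc 0 H,
      e (t * (Complex.logTaylor (d + 1) ((n : ℝ) * z)).im / (2 * Real.pi))‖ := by
    have k1 := (norm_sub_norm_le _ _).trans hD
    have k2 : (H : ℝ) / S = H / (2 * S) + H * (1 / (2 * S)) := by field_simp; ring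
    linarith [not_le.1 hc]
  obtain ⟨q, q1, q2, q3⟩ := hB (2 * S) _ _ H 0 H (by linarith) (pd d t z) (by omega) h1 hL
  have q1' : (1 : ℝ) ≤ q := by exact_mod_cast q1
  have q4 : |(q : ℝ) * (t * ((-1) ^ (d + 1) * z ^ d / d).im / (2 * Real.pi))| ≤ 1 / 2 := by
    rw [abs_mul, lead, Nat.abs_cast]
    have k1 : |(z ^ d).im| ≤ ‖z‖ ^ d := (Complex.abs_im_le_norm _).trans (norm_pow z d).le
    have k2 : |t| * |(z ^ d).im| / (d * (2 * Real.pi)) ≤ |t| * ‖z‖ ^ d :=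
      (div_le_self (by positivity) (by nlinarith [Real.pi_gt_three])).trans (by gcongr)
    refine le_of_mul_le_mul_right ?_ (pow_pos X0 d)
    calc (q : ℝ) * (|t| * |(z ^ d).im| / (d * (2 * Real.pi))) * X ^ d
        ≤ (2 * S) ^ B * (|t| * ‖z‖ ^ d) * X ^ d := by gcongr
      _ = (2 * S) ^ B * |t| * (‖z‖ * X) ^ d := by ring
      _ ≤ (S * S) ^ B * |t| * 1 ^ d := by gcongr
      _ = 1 / 2 * (|t| * (S ^ (2 * B) * 2)) := by ring
      _ ≤ 1 / 2 * (|t| * (S ^ (2 * B) * S)) := by gcongr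
      _ ≤ 1 / 2 * X ^ d := by rw [← pow_succ]; gcongr
  have q5 := q3.abs_le q4
  rw [abs_mul, lead, Nat.abs_cast, le_div_iff₀ (pow_pos H0 d)] at q5
  have q6 : |t| * |(z ^ d).im| / (d * (2 * Real.pi)) * H ^ d ≤ (2 * S) ^ B :=
    (mul_le_mul_of_nonneg_right (le_mul_of_one_le_left (by positivity) q1') (by positivity)).trans q5
  rw [div_mul_eq_mul_div, div_le_iff₀ (by positivity)] at q6
  have d2 : (d : ℝ) ≤ 2 ^ d := by exact_mod_cast d.lt_two_pow_self.le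
  have q7 : S ^ (2 * B + 2 * d + 5) ≤ S ^ (2 * B + 2 * d + 4) :=
    calc S ^ (2 * B + 2 * d + 5) ≤ S ^ (2 * B + 2 * d + 5) * (2 ^ d * S * X ^ d * |(z ^ d).im|) :=
          le_mul_of_one_le_right (by positivity) hz'
      _ = X ^ d * S ^ (2 * B + 2 * d + 5) * |(z ^ d).im| * (2 ^ d * S) := by ring
      _ ≤ |t| * H ^ d * |(z ^ d).im| * (2 ^ d * S) := by gcongr
      _ = |t| * |(z ^ d).im| * H ^ d * (2 ^ d * S) := by ring
      _ ≤ (2 * S) ^ B * (d * (2 * Real.pi)) * (2 ^ d * S) := by gcongr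
      _ ≤ (2 * S) ^ B * (2 ^ d * 2 ^ 3) * (2 ^ d * S) := by gcongr; linarith [Real.pi_lt_d2]
      _ ≤ (S * S) ^ B * (S ^ d * S ^ 3) * (S ^ d * S) := by gcongr
      _ = S ^ (2 * B + 2 * d + 4) := by ring
  exact absurd q7 (not_le.2 (pow_lt_pow_right₀ S1 (by omega)))

theorem exH {S X τ : ℝ} {d c m : ℕ} (hd : d ≠ 0) (hS : 2 ≤ S) (X0 : 0 < X)
    (h1 : S ^ (d + c + m * d) ≤ τ) (h2 : τ ≤ X ^ d) : ∃ H : ℕ, 1 ≤ H ∧ H * S ^ m ≤ X ∧
      X ^ d * S ^ c ≤ τ * H ^ d ∧ τ * H ^ d ≤ 2 ^ d * (X ^ d * S ^ c) := by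
  have S1 : 1 ≤ S := by linarith
  have t0 : 0 < τ := (pow_pos (by linarith) _).trans_le h1
  obtain ⟨Y, Y0, hY⟩ : ∃ Y : ℝ, 0 ≤ Y ∧ Y ^ d = X ^ d * S ^ c / τ :=
    ⟨_, by positivity, Real.rpow_inv_natCast_pow (by positivity) hd⟩
  have hY' : τ * Y ^ d = X ^ d * S ^ c := by rw [hY]; field_simp
  have Y1 : 1 ≤ Y := by
    rw [← one_le_pow_iff_of_nonneg Y0 hd, hY, one_le_div t0]
    exact h2.trans (le_mul_of_one_le_right (by positivity) (one_le_pow₀ S1))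
  have k1 : (⌈Y⌉₊ : ℝ) ≤ 2 * Y := by linarith [Nat.ceil_lt_add_one Y0]
  have k2 : τ * (2 * Y) ^ d = 2 ^ d * (X ^ d * S ^ c) := by rw [← hY']; ring
  refine ⟨⌈Y⌉₊, Nat.ceil_pos.2 (by linarith),
    (mul_le_mul_of_nonneg_right k1 (by positivity)).trans ?_, ?_, ?_⟩
  · refine le_of_pow_le_pow_left₀ hd X0.le (le_of_mul_le_mul_left ?_ t0)
    calc τ * (2 * Y * S ^ m) ^ d = τ * (2 * Y) ^ d * S ^ (m * d) := by rw [mul_pow, pow_mul]; ring
      _ = 2 ^ d * (X ^ d * S ^ c) * S ^ (m * d) := by rw [k2]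
      _ ≤ S ^ d * (X ^ d * S ^ c) * S ^ (m * d) := by gcongr
      _ = S ^ (d + c + m * d) * X ^ d := by ring
      _ ≤ τ * X ^ d := by gcongr
  · rw [← hY']
    gcongr
    exact Nat.le_ceil Y
  · rw [← k2]
    gcongr

end GRow

open GRow in
theorem grow : GRowSt := by
  intro A
  obtain ⟨d, hdA⟩ : ∃ d, d = 2 * A + 3 := ⟨_, rfl⟩
  have hd : 3 ≤ d := by omega
  obtain ⟨B, hWe⟩ := weyl (k := d) (by omega)
  obtain ⟨N, hN⟩ : ∃ N, N = d + (2 * B + 2 * d + 5) + (2 * B + 2 * d + 5 + d + 2) * d := ⟨_, rfl⟩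
  have N1 : 2 * B + 1 ≤ N := by omega
  have g0 : (0 : ℝ) < ((4 * N : ℕ) : ℝ)⁻¹ := inv_pos.2 (Nat.cast_pos.2 (by omega))
  refine ⟨d, _, ⟨A + 1, by omega⟩, g0, ?_⟩
  filter_upwards [(tendsto_rpow_atTop g0).eventually_ge_atTop 2, eventually_gt_atTop 0]
    with T hS T0 t t1 t2
  rw [Real.rpow_neg T0.le, Real.rpow_sub T0]
  have hT := Real.rpow_inv_natCast_pow (n := 4 * N) T0.le (by omega)
  generalize T ^ ((4 * N : ℕ) : ℝ)⁻¹ = S at hS hT
  have S1 : 1 ≤ S := by linarith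
  have S0 : 0 < S := by linarith
  have pw : ∀ (r : ℝ) (k : ℕ), (4 * N : ℕ) * r = k → T ^ r = S ^ k := fun r k h => by
    rw [← hT, ← Real.rpow_natCast, ← Real.rpow_mul S0.le, h, Real.rpow_natCast]
  rw [pw _ N (by push_cast; ring)] at t1
  rw [pw _ (2 * N) (by push_cast; ring)]
  obtain ⟨X, hX⟩ : ∃ X, X = S ^ (2 * N) := ⟨_, rfl⟩
  have X0 : 0 < X := hX ▸ by positivity
  have t3 : |(t : ℝ)| * S ^ (2 * B + 1) ≤ X ^ d := by
    refine (mul_le_mul_of_nonneg_right t2 (by positivity)).trans ?_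
    rw [← hT, hX, ← pow_mul, ← pow_mul, ← pow_add]
    exact pow_le_pow_right₀ S1 (by rw [hdA]; nlinarith)
  have hT' : T = X ^ 2 := by rw [← hT, hX]; ring
  rw [← hX]
  obtain ⟨H, h1, h2, h3, h4⟩ := exH (by omega) hS X0 (hN ▸ t1)
    ((le_mul_of_one_le_right (abs_nonneg _) (one_le_pow₀ S1)).trans t3)
  have h5 : H * S ≤ X :=
    (mul_le_mul_of_nonneg_left (le_self_pow₀ S1 (by omega)) H.cast_nonneg).trans h2
  refine ⟨H, h1, (le_div_iff₀ S0).2 h5, fun v u hv hu him => ?_⟩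
  rw [hA.mem_ann, hA.nm_eq, hT'] at hv
  have v1 : X ≤ ‖(v : ℂ)‖ := le_of_pow_le_pow_left₀ two_ne_zero (norm_nonneg _) hv.1.le
  have v2 : ‖(v : ℂ)‖ ≤ 2 * X :=
    le_of_pow_le_pow_left₀ two_ne_zero (by positivity) (by nlinarith [hv.2, pow_pos X0 2])
  have v0 : 0 < ‖(v : ℂ)‖ := X0.trans_le v1
  have v0' : (v : ℂ) ≠ 0 := norm_pos_iff.1 v0
  have u1 : ‖(u : ℂ)‖ = 1 := by
    rcases hu with rfl | rfl
    · simp
    · simp [GaussianInt.toComplex_def']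
  have hz : ‖(u : ℂ) / v‖ * X ≤ 1 := by
    rwa [norm_div, u1, div_mul_eq_mul_div, one_mul, div_le_one v0]
  have hz' : 1 ≤ 2 ^ d * S * X ^ d * |(((u : ℂ) / v) ^ d).im| := by
    have k1 : ((u : ℂ) / v) ^ d = (((1 / ‖(v : ℂ)‖) ^ d : ℝ) : ℂ) * ((u : ℂ) / dir v) ^ d := by
      have : ((‖(v : ℂ)‖ : ℝ) : ℂ) ≠ 0 := by exact_mod_cast v0.ne'
      unfold dir
      push_cast
      rw [← mul_pow]
      congr 1
      field_simp
    rw [k1, Complex.im_ofReal_mul, abs_mul, abs_of_pos (by positivity)]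
    calc (1 : ℝ) = S * (‖(v : ℂ)‖ * (1 / ‖(v : ℂ)‖)) ^ d * S⁻¹ := by
          rw [mul_one_div_cancel v0.ne', one_pow, mul_one, mul_inv_cancel₀ S0.ne']
      _ ≤ S * (2 * X * (1 / ‖(v : ℂ)‖)) ^ d * |(((u : ℂ) / dir v) ^ d).im| := by gcongr
      _ = _ := by ring
  have hc := core hd hWe hS X0 h1 h2 h3 h4 t3 hz hz'
  have hχ : ∀ n ∈ Ioc 0 H, chi t (v + (n : ℕ) * u) = chi t v *
      e (t * (Complex.log (1 + n * ((u : ℂ) / v))).im / (2 * Real.pi)) := by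
    intro n hn
    have k1 : ((v + (n : ℕ) * u : GI) : ℂ) = v * (1 + n * ((u : ℂ) / v)) := by
      rw [map_add, map_mul, map_natCast]
      field_simp
    have k2 : ‖(n : ℂ) * ((u : ℂ) / v)‖ < 1 := by
      refine lt_of_mul_lt_mul_right ?_ X0.le
      have k3 : (n : ℝ) ≤ H := by exact_mod_cast (mem_Ioc.1 hn).2
      have k4 : (1 : ℝ) ≤ H := by exact_mod_cast h1
      rw [norm_mul, Complex.norm_natCast, mul_assoc]
      nlinarith [mul_le_of_le_one_right (n.cast_nonneg (α := ℝ)) hz]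
    unfold chi dir
    rw [k1, Row.phase _ _ k2]
  rw [sum_congr rfl hχ, ← mul_sum, norm_mul, hA.norm_chi t v (fun h => v0' (by rw [h, map_zero])),
    one_mul, ← div_eq_mul_inv]
  exact hc

end Pool.Agent.Lib.MP_4b1228_nt.GS
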