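import Pool.Agent.Lib.MP_4b1228_nt.GS.St

/-! The good sets and the bad sets of primes. -/

namespace Pool.Agent.Lib.MP_4b1228_nt.GS

open Finset Filter Topology Pool.Agent.Lib.MP_9d27bc_nt.C Pool.Agent.Lib.MP_9d27bc_nt.C.Two
open scoped Classical

namespace Gd

/-- large `y`, uniformly in `Z`. -/
def fl (g₀ : ℕ) : Filter (ℝ × ℕ) :=
  comap Prod.fst atTop ⊓ 𝓟 {q | 1 ≤ q.2 ∧ (q.2 : ℝ) ≤ q.1 ^ g₀}

theorem ev {g₀ : ℕ} {P : ℝ × ℕ → Prop} : (∀ᶠ q in fl g₀, P q) ↔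
    ∀ᶠ y : ℝ in atTop, ∀ Z : ℕ, 1 ≤ Z → (Z : ℝ) ≤ y ^ g₀ → P (y, Z) := by
  rw [fl, eventually_inf_principal, eventually_comap]
  refine eventually_congr (Eventually.of_forall fun y => ⟨fun h Z a b => h (y, Z) rfl ⟨a, b⟩, ?_⟩)
  rintro h ⟨y', Z⟩ rfl k
  exact h Z k.1 k.2

theorem tz {g₀ : ℕ} {f : ℝ × ℕ → ℝ} : Tendsto f (fl g₀) (𝓝 0) ↔ ∀ ε : ℝ, 0 < ε →
    ∀ᶠ y : ℝ in atTop, ∀ Z : ℕ, 1 ≤ Z → (Z : ℝ) ≤ y ^ g₀ → |f (y, Z)| ≤ ε := by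
  rw [Metric.nhds_basis_closedBall.tendsto_right_iff]
  simp only [mem_closedBall_zero_iff, Real.norm_eq_abs, ev]

theorem nn (h3 : NNSt) {j₀ g₀ a : ℕ} (b : ℕ) (hj : 1 ≤ j₀) (ha : j₀ + 2 * g₀ ≤ a) (ε : ℝ)
    (hε : 0 < ε) : ∀ᶠ y : ℝ in atTop, ∀ Z : ℕ, 1 ≤ Z → (Z : ℝ) ≤ y ^ g₀ →
      NN (y ^ j₀) Z (y ^ a) (y ^ b) ≤ ε := by
  have t : Tendsto (fun y : ℝ => y ^ j₀) atTop atTop := tendsto_pow_atTop (by omega)
  filter_upwards [t.eventually (h3 b), ((tendsto_rpow_neg_atTop (y := 1 / 4) (by norm_num)).comp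
    t).eventually (ge_mem_nhds hε), eventually_ge_atTop (1 : ℝ)] with y k1 k2 k3 Z z1 z2
  refine (k1 Z _ _ z1 ?_ ?_).trans k2
  · calc y ^ j₀ * (Z : ℝ) ^ 2 ≤ y ^ j₀ * (y ^ g₀) ^ 2 := by gcongr
      _ = y ^ (j₀ + 2 * g₀) := by ring
      _ ≤ y ^ a := pow_le_pow_right₀ k3 ha
  · rw [← pow_mul]
    exact pow_le_pow_right₀ k3 (Nat.le_mul_of_pos_left _ hj)

/-- the error of the passage to cells. -/
noncomputable def er (j₀ J r : ℕ) (F : Multiset ℕ → ℝ) (y : ℝ) (Z : ℕ) : ℝ :=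
  ∑ S ∈ NS y j₀ J with #S = r, F (im y S) * ww Z (∏ π ∈ S, π) -
    (∑ jv ∈ Fintype.piFinset fun _ : Fin r => Ico j₀ J, F (vm jv) * cell y Z jv) / r.factorial

theorem er_small (h1 : TupSt) (h3 : NNSt) {j₀ g₀ a b : ℕ} (J r : ℕ) {F : Multiset ℕ → ℝ} {F₀ : ℝ}
    (hj : 1 ≤ j₀) (ha : j₀ + 2 * g₀ ≤ a) (h0 : 0 < F₀) (hF : ∀ M, M.card = r → |F M| ≤ F₀)
    (hs : ∀ M, F M ≠ 0 → a ≤ M.sum ∧ M.sum ≤ b) (ε : ℝ) (hε : 0 < ε) :
    ∀ᶠ y : ℝ in atTop, ∀ Z : ℕ, 1 ≤ Z → (Z : ℝ) ≤ y ^ g₀ → |er j₀ J r F y Z| ≤ ε := by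
  have hr : (0 : ℝ) < F₀ * (r : ℝ) ^ r := mul_pos h0 (by
    rcases Nat.eq_zero_or_pos r with rfl | k
    · simp
    · positivity)
  filter_upwards [nn h3 (b + r) hj ha (ε / (F₀ * (r : ℝ) ^ r)) (div_pos hε hr),
    eventually_ge_atTop (2 : ℝ)] with y k1 k2 Z z1 z2
  refine (h1 y j₀ J a b r Z F F₀ k2 h0.le hF hs).trans ?_
  exact (le_div_iff₀' hr).1 (k1 Z z1 z2)

theorem split (hX : Box) (p : Par) {y : ℝ} (hy : 1 < y) {j₀ : ℕ} (hj : 1 ≤ j₀) (Z : ℕ)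
    (F : Multiset ℕ → ℝ) : p.sc y j₀ Z F = ∑ r ∈ range (p.J₂ + 1),
      ∑ S ∈ NS y j₀ (p.J₂ + 1) with #S = r, (fun M : Multiset ℕ =>
        if p.J₁ ≤ M.sum ∧ M.sum ≤ p.J₂ then F M else 0) (im y S) * ww Z (∏ π ∈ S, π) := by
  rw [Par.sc, ← sum_fiberwise_of_maps_to (t := range (p.J₂ + 1)) (g := fun S => #S) fun S hS => ?_]
  · refine sum_congr rfl fun r _ => ?_
    rw [Par.co, filter_comm, sum_filter]
    exact sum_congr rfl fun S _ => by split_ifs <;> simp [*]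
  · obtain ⟨k1, -, k2⟩ := mem_filter.1 hS
    have := (hX.nm_set y j₀ _ S hy (mem_powerset.1 (mem_filter.1 k1).1)).2.2.1
    have := Nat.le_mul_of_pos_left (#S) hj
    exact mem_range.2 (by omega)

theorem memP (hX : Box) {y : ℝ} (hy : 1 < y) {j J a b : ℕ} {π : GI} (h : π ∈ PP y j J)
    (h1 : a ≤ ix y π) (h2 : ix y π < b) : π ∈ PP y a b :=
  mem_biUnion.2 ⟨_, mem_Ico.2 ⟨h1, h2⟩, (hX.ix_PP y j J π hy h).2.2⟩

theorem bad (hB : Bas) (hX : Box) (h4 : SignSt) {p : Par} (hp : p.OK) {y : ℝ} (hy : 1 < y)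
    (j₀ Z : ℕ) : (p.sc y j₀ Z fun M => if Good p.g M then 0 else p.T M) ≤
      ∑ π ∈ PP y p.J₁ (p.J₂ + 1), ww Z π +
        ∑ π ∈ PP y p.τ (p.J₂ - p.τ + 1), ∑ π' ∈ PP y p.τ (p.J₂ - p.τ + 1), ww Z (π * π') := by
  obtain ⟨-, -, -, s1, s2⟩ := h4 p hp
  obtain ⟨o1, o2, o3, -⟩ := hp
  have w0 := hB.ww_nonneg Z
  have a1 : ∑ S ∈ p.co y j₀ with #S = 1, ww Z (∏ π ∈ S, π) ≤
      ∑ π ∈ PP y p.J₁ (p.J₂ + 1), ww Z π := by
    refine (sum_le_sum_of_subset_of_nonneg (t := (PP y p.J₁ (p.J₂ + 1)).image fun π => {π})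
      (fun S hS => ?_) fun _ _ _ => w0 _).trans ((sum_image_le_of_nonneg fun _ _ => w0 _).trans
        (by simp))
    obtain ⟨k1, k2⟩ := mem_filter.1 hS
    obtain ⟨π, rfl⟩ := card_eq_one.1 k2
    obtain ⟨k3, k4, k5⟩ := mem_filter.1 k1
    have e : (im y {π}).sum = ix y π := by simp [im]
    rw [e] at k4 k5
    exact mem_image.2 ⟨π, memP hX hy (mem_powerset.1 (mem_filter.1 k3).1 (mem_singleton_self π))
      k4 (by omega), rfl⟩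
  have a2 : ∑ S ∈ p.co y j₀ with #S = 2 ∧ ∀ b ∈ im y S, p.τ ≤ b, ww Z (∏ π ∈ S, π) ≤
      ∑ π ∈ PP y p.τ (p.J₂ - p.τ + 1), ∑ π' ∈ PP y p.τ (p.J₂ - p.τ + 1), ww Z (π * π') := by
    rw [← sum_product']
    refine (sum_le_sum_of_subset_of_nonneg (t := ({w ∈ PP y p.τ (p.J₂ - p.τ + 1) ×ˢ
      PP y p.τ (p.J₂ - p.τ + 1) | w.1 ≠ w.2}).image fun w => {w.1, w.2})
      (fun S hS => ?_) fun _ _ _ => w0 _).trans ((sum_image_le_of_nonneg fun _ _ => w0 _).trans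
        ((sum_congr rfl fun w hw => by rw [prod_pair (mem_filter.1 hw).2]).trans_le
          (sum_le_sum_of_subset_of_nonneg (filter_subset _ _) fun _ _ _ => w0 _)))
    obtain ⟨k1, k2, k6⟩ := mem_filter.1 hS
    obtain ⟨π, π', n, rfl⟩ := card_eq_two.1 k2
    obtain ⟨k3, k4, k5⟩ := mem_filter.1 k1
    have e : im y {π, π'} = {ix y π, ix y π'} := by simp [im, n]
    rw [e] at k5 k6
    have k7 := mem_powerset.1 (mem_filter.1 k3).1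
    have b1 := k6 (ix y π) (by simp)
    have b2 := k6 (ix y π') (by simp)
    have k8 : ix y π + ix y π' ≤ p.J₂ := by simpa using k5
    have m1 : π ∈ PP y p.τ (p.J₂ - p.τ + 1) := memP hX hy (k7 (by simp)) b1 (by omega)
    have m2 : π' ∈ PP y p.τ (p.J₂ - p.τ + 1) := memP hX hy (k7 (by simp)) b2 (by omega)
    exact mem_image.2 ⟨(π, π'), mem_filter.2 ⟨mem_product.2 ⟨m1, m2⟩, n⟩, rfl⟩
  refine le_trans ?_ (add_le_add a1 a2)
  rw [Par.sc, sum_filter, sum_filter, ← sum_add_distrib]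
  refine sum_le_sum fun S hS => ?_
  obtain ⟨-, k4, k5⟩ := mem_filter.1 hS
  have e : (im y S).card = #S := by simp [im]
  rw [← e]
  generalize im y S = M at k4 k5
  have w1 := w0 (∏ π ∈ S, π)
  generalize ww Z (∏ π ∈ S, π) = w at w1
  by_cases g : Good p.g M
  · rw [if_pos g, zero_mul]
    exact add_nonneg (by split_ifs <;> simp [w1]) (by split_ifs <;> simp [w1])
  rw [if_neg g]
  rcases Nat.lt_trichotomy M.card 1 with k | k | k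
  · obtain rfl := Multiset.card_eq_zero.1 (Nat.lt_one_iff.1 k)
    rw [Multiset.sum_zero] at k4
    omega
  · obtain ⟨j, rfl⟩ := Multiset.card_eq_one.1 k
    rw [s1 j (by simpa using k4)]
    simp
  · have := s2 M k4 k5 k g
    rw [if_neg k.ne', zero_add]
    split_ifs at this ⊢
    · have : (p.T M : ℝ) ≤ 1 := by exact_mod_cast this
      nlinarith
    · have : (p.T M : ℝ) ≤ 0 := by exact_mod_cast this
      nlinarith

end Gd

open Gd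

theorem gd (hB : Bas) (hX : Box) (h1 : TupSt) (h2 : T3St) (h3 : NNSt) (h4 : SignSt) : GdSt := by
  obtain ⟨c, C, hC, t1, t2⟩ := h2
  refine ⟨c + 1, C, hC, fun p j₀ R g₀ ε hp hj _ hg hε => ?_⟩
  have o2 := hp.2.1
  have o3 := hp.2.2.1
  have o4 := hp.2.2.2.1
  rw [add_mul, one_mul] at hg
  let F : Multiset ℕ → ℝ := fun M =>
    if p.J₁ ≤ M.sum ∧ M.sum ≤ p.J₂ then (if Good p.g M then p.T M else 0) else 0
  have f1 : ∀ r M, M.card = r → |F M| ≤ 13 * 2 ^ r := fun r M k => by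
    have : |(p.T M : ℝ)| ≤ 13 * 2 ^ r := by
      rw [← k]
      exact_mod_cast (h4 p hp).2.2.1 M
    simp only [F]
    split_ifs
    · exact this
    all_goals rw [abs_zero]; positivity
  have f2 : ∀ M, F M ≠ 0 → p.J₁ ≤ M.sum ∧ M.sum ≤ p.J₂ := fun M k => by
    by_contra k'
    exact k (if_neg k')
  have e1 : ∀ r, Tendsto (fun q : ℝ × ℕ => er j₀ (p.J₂ + 1) r F q.1 q.2) (fl g₀) (𝓝 0) := fun r =>
    tz.2 (er_small h1 h3 _ r hj (by omega) (by positivity) (f1 r) f2)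
  have e2 : ∀ r, Tendsto (fun q : ℝ × ℕ => er j₀ (p.J₂ + 1) r F q.1 1) (fl g₀) (𝓝 0) := fun r =>
    tz.2 fun δ hδ => (er_small h1 h3 (g₀ := 0) _ r hj (by omega) (by positivity) (f1 r) f2 δ
      hδ).mono fun y k _ _ _ => k 1 le_rfl (by simp)
  have e3 : ∀ r, ∀ jv ∈ Fintype.piFinset fun _ : Fin r => Ico j₀ (p.J₂ + 1), Tendsto
      (fun q : ℝ × ℕ => F (vm jv) * (cell q.1 q.2 jv - cell q.1 1 jv)) (fl g₀) (𝓝 0) :=
    fun r jv k => by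
      by_cases g : Good p.g (vm jv)
      · simpa using (tz.2 fun δ hδ => t1 r jv j₀ p.g g₀ δ hj
          (fun i => (mem_Ico.1 (Fintype.mem_piFinset.1 k i)).1) (by omega) g hδ :
          Tendsto (fun q : ℝ × ℕ => cell q.1 q.2 jv - cell q.1 1 jv) _ _).const_mul (F (vm jv))
      · simp only [F, if_neg g, ite_self, zero_mul]
        exact tendsto_const_nhds
  have e4 := tendsto_finsetSum (range (p.J₂ + 1)) fun r _ => ((e1 r).sub (e2 r)).add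
    ((tendsto_finsetSum _ (e3 r)).div_const (r.factorial : ℝ))
  simp only [sub_self, sum_const_zero, zero_div, add_zero] at e4
  filter_upwards [tz.1 e4 ε hε, t2 j₀ p.τ (p.J₂ - p.τ + 1) g₀ hj (by omega) (by omega) (by omega),
    eventually_gt_atTop (1 : ℝ)] with y k1 k2 k3 Z z1 z2
  refine ⟨le_of_eq_of_le (congrArg _ ?_) (k1 Z z1 z2), (bad hB hX h4 hp k3 j₀ Z).trans ?_⟩
  · rw [split hX p k3 hj, split hX p k3 hj, ← sum_sub_distrib]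
    refine sum_congr rfl fun r _ => ?_
    simp only [er, mul_sub, sum_sub_distrib, F]
    ring
  · refine add_le_add le_rfl ((k2 Z z1 z2).trans_eq ?_)
    rw [Nat.cast_add, Nat.cast_sub (by omega)]
    push_cast
    ring

end Pool.Agent.Lib.MP_4b1228_nt.GS
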