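import Pool.Agent.Lib.MP_4b1228_nt.GS.St

/-! The sum of the first type as a sum over sets of primes. -/

namespace Pool.Agent.Lib.MP_4b1228_nt.GS

open Finset Pool.Agent.Lib.MP_9d27bc_nt.C Pool.Agent.Lib.MP_9d27bc_nt.C.Two
open scoped Classical

noncomputable section

namespace ID

theorem pw {α : Type} (g : α → ℕ) (S : Finset α) (f : Multiset ℕ → ℤ) :
    ((S.val.map g).powerset.map f).sum = ∑ T ∈ S.powerset, f (T.val.map g) := by
  induction S using Finset.induction_on generalizing f with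
  | empty => simp
  | insert a S h ih =>
    rw [insert_val_of_notMem h, Multiset.map_cons, Multiset.powerset_cons, Multiset.map_add,
      Multiset.sum_add, Multiset.map_map, ih, ih, sum_powerset_insert h]
    refine congrArg _ (sum_congr rfl fun T hT => ?_)
    rw [insert_val_of_notMem fun e => h (mem_powerset.1 hT e), Multiset.map_cons]
    rfl

theorem un {α : Type} {w : α → ℝ} (h : ∀ a, 0 ≤ w a) (A B : Finset α) :
    ∑ a ∈ A ∪ B, w a ≤ ∑ a ∈ A, w a + ∑ a ∈ B, w a := by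
  rw [← sum_union_inter]
  exact le_add_of_nonneg_right (sum_nonneg fun a _ => h a)

theorem nm_unit {u : GI} (h : IsUnit u) (a : GI) : nm (u * a) = nm a := by
  obtain ⟨v, e⟩ := h.exists_right_inv
  have := hG.1 u v
  rw [e, show nm 1 = 1 by simp [nm]] at this
  rw [hG.1, Nat.eq_one_of_mul_eq_one_right this.symm, one_mul]

theorem p1 (p : Par) {y : ℝ} (hy : 0 < y) (a : ℕ) : p.P1 y a ^ 2 * y ^ a * y = y ^ p.J₁ := by
  rw [Par.P1, ← Real.rpow_natCast, ← Real.rpow_mul hy.le, ← Real.rpow_natCast, ← Real.rpow_add hy,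
    ← Real.rpow_add_one hy.ne', ← Real.rpow_natCast]
  congr 1
  push_cast
  ring

theorem p2 (p : Par) {y : ℝ} (hy : 0 < y) (R a : ℕ) :
    p.P2 y R a ^ 2 * y ^ a = y ^ (p.J₂ + R) := by
  rw [Par.P2, ← Real.rpow_natCast, ← Real.rpow_mul hy.le, ← Real.rpow_natCast, ← Real.rpow_add hy,
    ← Real.rpow_natCast]
  congr 1
  push_cast
  ring

/-- the multiples of a product of primes by the admissible cofactors -/
def II (p : Par) (y : ℝ) (j₀ R : ℕ) (S : Finset GI) : Finset GI :=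
  ({m ∈ Sq (p.P1 y (im y S).sum) (p.P2 y R (im y S).sum) | Rough (y ^ j₀) (nm m)}).image
    fun m => (∏ π ∈ S, π) * m

/-- the sum of the weights of the divisors -/
def GG (p : Par) (y : ℝ) (j₀ R : ℕ) (z : GI) : ℝ :=
  ∑ S ∈ (PP y j₀ (p.J₂ + 1)).powerset, if z ∈ II p y j₀ R S then (p.yy (im y S) : ℝ) else 0

variable (hB : Bas) (hX : Box) (hD : Dv) {p : Par} {y : ℝ} {j₀ R : ℕ} (hy : 3 ≤ y) (hj : 1 ≤ j₀)

include hX hy in
theorem ne0 {J : ℕ} {S : Finset GI} (h : S ⊆ PP y j₀ J) : ∏ π ∈ S, π ≠ 0 := fun e => by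
  have := (hX.nm_set y j₀ J S (by linarith) h).1
  rw [e] at this
  exact absurd this (by simp [nm]; positivity)

include hB hX hy hj in
theorem bounds {S : Finset GI} (h : S ⊆ PP y j₀ (p.J₂ + 1)) (h1 : 1 ≤ p.J₁)
    (ha : (im y S).sum ≤ R * j₀) {z : GI} (hz : z ∈ II p y j₀ R S) :
    y ^ (p.J₁ - 1) ≤ nm z ∧ (nm z : ℝ) ≤ y ^ (p.J₂ + 2 * R + 1) ∧ Rough (y ^ j₀) (nm z) := by
  have y0 : 0 < y := by linarith
  obtain ⟨m, hm, rfl⟩ := mem_image.1 hz
  obtain ⟨hm, r⟩ := mem_filter.1 hm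
  obtain ⟨m1, m2⟩ := (hB.mem_Sq _ _ _).1 hm
  obtain ⟨n1, n2, n3, n4⟩ := hX.nm_set y j₀ _ S (by linarith) h
  have c1 : (mx m : ℝ) ^ 2 ≤ nm m := by exact_mod_cast (hB.mx_nm m).1
  have c2 : (nm m : ℝ) ≤ 2 * (mx m : ℝ) ^ 2 := by exact_mod_cast (hB.mx_nm m).2
  have cS : #S ≤ R := Nat.le_of_mul_le_mul_left (n3.trans (ha.trans (mul_comm _ _).le)) hj
  rw [hG.1, Nat.cast_mul]
  refine ⟨le_of_mul_le_mul_right ?_ y0, ?_, fun l hl d => (hl.dvd_mul.1 d).elim (n4 l hl) (r l hl)⟩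
  · rw [← pow_succ, Nat.sub_add_cancel h1, ← p1 p y0 (im y S).sum, mul_comm (nm _ : ℝ)]
    have : 0 ≤ p.P1 y (im y S).sum := Real.rpow_nonneg y0.le _
    gcongr
    exact (pow_le_pow_left₀ this m1.le 2).trans c1
  · calc _ ≤ y ^ ((im y S).sum + R) * (y * p.P2 y R (im y S).sum ^ 2) := by
          refine mul_le_mul (n2.trans (pow_le_pow_right₀ (by linarith) (by omega))) (c2.trans ?_)
            (by positivity) (by positivity)
          gcongr
          linarith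
      _ = p.P2 y R (im y S).sum ^ 2 * y ^ (im y S).sum * y ^ (R + 1) := by ring
      _ = _ := by rw [p2 p y0]; ring

include hB hX hD hy hj in
theorem val (hR : p.J₂ ≤ R * j₀) {S₀ : Finset GI} (h : S₀ ∈ p.co y j₀) {u : GI} (hu : IsUnit u) :
    GG p y j₀ R (u * ∏ π ∈ S₀, π) = p.T (im y S₀) := by
  have y0 : 0 < y := by linarith
  have y1 : 1 < y := by linarith
  obtain ⟨h0, a1, a2⟩ := mem_filter.1 h
  have h0 := mem_powerset.1 (mem_filter.1 h0).1
  have c0 : #S₀ ≤ R := Nat.le_of_mul_le_mul_left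
    ((hX.nm_set y j₀ _ S₀ y1 h0).2.2.1.trans (a2.trans (hR.trans (mul_comm _ _).le))) hj
  rw [Par.T, im, pw, Int.cast_sum, GG, ← sum_filter]
  refine sum_congr (Finset.ext fun S => ?_) fun _ _ => rfl
  rw [mem_filter, mem_powerset, mem_powerset]
  refine ⟨fun ⟨a, b⟩ π hπ => ?_, fun a => ⟨a.trans h0, mem_image.2 ⟨u * ∏ π ∈ S₀ \ S, π, ?_, ?_⟩⟩⟩
  · obtain ⟨m, -, e⟩ := mem_image.1 b
    exact (hD.dvd_prod y j₀ _ S₀ π y1 h0 (a hπ)).1
      (hu.dvd_mul_left.1 (e ▸ (dvd_prod_of_mem _ hπ).mul_right m))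
  · obtain ⟨n1, n2, -, n4⟩ := hX.nm_set y j₀ _ (S₀ \ S) y1 (sdiff_subset.trans h0)
    have e : (im y (S₀ \ S)).sum + (im y S).sum = (im y S₀).sum := sum_sdiff (f := ix y) a
    have c := card_le_card (sdiff_subset (s := S₀) (t := S))
    rw [mem_filter, hB.mem_Sq, hB.mx_unit _ _ hu, nm_unit hu]
    generalize ∏ π ∈ S₀ \ S, π = m at *
    have c1 : (mx m : ℝ) ^ 2 ≤ nm m := by exact_mod_cast (hB.mx_nm m).1
    have c2 : (nm m : ℝ) ≤ 2 * (mx m : ℝ) ^ 2 := by exact_mod_cast (hB.mx_nm m).2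
    have q : 0 < y ^ (im y S).sum := pow_pos y0 _
    refine ⟨⟨lt_of_pow_lt_pow_left₀ 2 (by positivity) (lt_of_mul_lt_mul_right ?_ (mul_pos q y0).le),
      le_of_pow_le_pow_left₀ two_ne_zero (Real.rpow_nonneg y0.le _)
        (le_of_mul_le_mul_right ?_ q)⟩, n4⟩
    · rw [← mul_assoc, p1 p y0]
      have := pow_pos y0 (im y (S₀ \ S)).sum
      calc _ ≤ y ^ (im y (S₀ \ S)).sum * y ^ (im y S).sum := by
            rw [← pow_add]; exact pow_le_pow_right₀ y1.le (by omega)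
        _ ≤ 2 * (mx m : ℝ) ^ 2 * y ^ (im y S).sum := by gcongr; exact n1.trans c2
        _ < _ := by nlinarith [mul_pos (show 0 < (mx m : ℝ) ^ 2 by linarith) q]
    · refine le_of_le_of_eq ?_ (p2 p y0 R _).symm
      calc _ ≤ y ^ ((im y (S₀ \ S)).sum + #(S₀ \ S)) * y ^ (im y S).sum := by
            gcongr; exact c1.trans n2
        _ ≤ _ := by rw [← pow_add]; exact pow_le_pow_right₀ y1.le (by omega)
  · rw [mul_left_comm, mul_comm (∏ π ∈ S, π), prod_sdiff a]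

end ID

open ID in
theorem idS (hB : Bas) (hX : Box) (hD : Dv) (h : SignSt) : IDSt := fun p y j₀ R Z ok hy hj hR => by
  obtain ⟨s1, s2, -⟩ := h p ok
  obtain ⟨o1, o2, o3, o4, -⟩ := ok
  have y0 : 0 < y := by linarith
  have y1 : 1 < y := by linarith
  have bd := fun {S : Finset GI} (h : S ⊆ PP y j₀ (p.J₂ + 1)) (e : p.yy (im y S) ≠ 0) {z : GI} =>
    bounds hB hX hy hj (R := R) h (by omega) (by have := mt (s2 _) e; omega) (z := z)
  let U : Finset GI := {1, -1, ⟨0, 1⟩, ⟨0, -1⟩}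
  let D := disc (y ^ (p.J₂ + 2 * R + 1))
  let E := (U ×ˢ p.co y j₀).image fun w => w.1 * ∏ π ∈ w.2, π
  have co : ∀ S ∈ p.co y j₀, S ⊆ PP y j₀ (p.J₂ + 1) := fun S h =>
    mem_powerset.1 (mem_filter.1 (mem_filter.1 h).1).1
  have e1 : p.TI y j₀ R Z = ∑ z ∈ D, GG p y j₀ R z * ww Z z := by
    simp only [GG, sum_mul]
    rw [sum_comm]
    refine sum_congr rfl fun S hS => ?_
    by_cases e : p.yy (im y S) = 0
    · simp [e]
    have hS := mem_powerset.1 hS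
    rw [← sum_image (g := fun m => (∏ π ∈ S, π) * m) (f := ww Z)
      fun a _ b _ e => mul_left_cancel₀ (ne0 hX hy hS) e, mul_sum]
    simp only [ite_mul, zero_mul]
    rw [← sum_filter, filter_mem_eq_inter, inter_eq_right.2 fun z hz =>
      (hA.mem_disc _ _).2 (bd hS e hz).2.1]
    rfl
  have e2 : 4 * p.sc y j₀ Z (fun M => p.T M) = ∑ z ∈ E, GG p y j₀ R z * ww Z z := by
    rw [sum_image, sum_product, sum_congr rfl (g := fun _ => p.sc y j₀ Z fun M => p.T M)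
      fun u hu => sum_congr rfl fun S hS => by
        rw [val hB hX hD hy hj (by omega) hS ((hD.units u).2 hu), hB.ww_unit _ _ _ ((hD.units u).2 hu)]]
    · rw [sum_const, show #U = 4 by decide]
      simp
    · rintro ⟨u, S⟩ a ⟨u', S'⟩ b e
      obtain ⟨a1, a2⟩ := mem_product.1 (mem_coe.1 a)
      obtain ⟨b1, b2⟩ := mem_product.1 (mem_coe.1 b)
      have k : ∀ π ∈ PP y j₀ (p.J₂ + 1), π ∈ S ↔ π ∈ S' := fun π hπ => by
        rw [← hD.dvd_prod y j₀ _ S π y1 (co _ a2) hπ, ← hD.dvd_prod y j₀ _ S' π y1 (co _ b2) hπ,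
          ← ((hD.units u).2 a1).dvd_mul_left, ← ((hD.units u').2 b1).dvd_mul_left (b := ∏ π ∈ S', π)]
        exact iff_of_eq (congrArg _ e)
      obtain rfl : S = S' := Finset.ext fun π =>
        ⟨fun c => (k π (co _ a2 c)).1 c, fun c => (k π (co _ b2 c)).2 c⟩
      exact Prod.ext (mul_right_cancel₀ (ne0 hX hy (co _ a2)) e) rfl
  have e3 : E ⊆ D := fun z hz => by
    obtain ⟨⟨u, S⟩, a, rfl⟩ := mem_image.1 hz
    obtain ⟨a1, a2⟩ := mem_product.1 a
    obtain ⟨-, n2, n3, -⟩ := hX.nm_set y j₀ _ S y1 (co _ a2)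
    have : (im y S).sum ≤ p.J₂ := (mem_filter.1 a2).2.2
    have : #S ≤ R := Nat.le_of_mul_le_mul_left (n3.trans (by rw [mul_comm]; omega)) hj
    rw [hA.mem_disc, nm_unit ((hD.units u).2 a1)]
    exact n2.trans (pow_le_pow_right₀ y1.le (by omega))
  have nz : ∀ z, GG p y j₀ R z ≠ 0 → y ^ (p.J₁ - 1) ≤ nm z ∧
      (nm z : ℝ) ≤ y ^ (p.J₂ + 2 * R + 1) ∧ Rough (y ^ j₀) (nm z) := fun z hz => by
    obtain ⟨S, hS, e⟩ := exists_ne_zero_of_sum_ne_zero hz
    rw [ne_eq, ite_eq_right_iff, Classical.not_imp] at e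
    exact bd (mem_powerset.1 hS) (by exact_mod_cast e.2) e.1
  have gb : ∀ z, GG p y j₀ R z ≠ 0 → |GG p y j₀ R z| ≤ 13 * 2 ^ R := fun z hz => by
    obtain ⟨a, b, -⟩ := nz z hz
    have z0 : z ≠ 0 := by
      rintro rfl
      exact absurd a (by simp [nm]; positivity)
    have c := hD.card_dvd y j₀ (p.J₂ + 1) R z y1 hj z0 (b.trans (pow_le_pow_right₀ y1.le hR))
    rw [GG, ← sum_filter]
    refine (abs_sum_le_sum_abs _ _).trans ((sum_le_card_nsmul _ _ 13 fun S _ => by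
      exact_mod_cast s1 _).trans ?_)
    rw [nsmul_eq_mul, mul_comm]
    gcongr
    have := (card_le_card (t := {π ∈ PP y j₀ (p.J₂ + 1) | π ∣ z}.powerset) (s :=
      {S ∈ (PP y j₀ (p.J₂ + 1)).powerset | z ∈ II p y j₀ R S}) fun S hS => by
        obtain ⟨a, b⟩ := mem_filter.1 hS
        obtain ⟨m, -, e⟩ := mem_image.1 b
        exact mem_powerset.2 fun π hπ => mem_filter.2
          ⟨mem_powerset.1 a hπ, e ▸ (dvd_prod_of_mem _ hπ).mul_right m⟩).trans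
      ((card_powerset _).trans_le (Nat.pow_le_pow_right two_pos c))
    exact_mod_cast this
  rw [e1, e2, ← sum_sdiff_eq_sub e3, ← sum_filter_of_ne (p := fun z => GG p y j₀ R z ≠ 0)
    fun z _ e => left_ne_zero_of_mul e]
  refine (abs_sum_le_sum_abs _ _).trans ((sum_le_sum (g := fun z => 13 * 2 ^ R * ww Z z)
    fun z hz => ?_).trans ?_)
  · rw [abs_mul, abs_of_nonneg (hB.ww_nonneg Z z)]
    exact mul_le_mul_of_nonneg_right (gb z (mem_filter.1 hz).2) (hB.ww_nonneg Z z)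
  rw [← mul_sum]
  gcongr
  refine (sum_le_sum_of_subset_of_nonneg (fun z hz => ?_) fun z _ _ => hB.ww_nonneg Z z).trans
    ((un (hB.ww_nonneg Z) _ _).trans (add_le_add_left (un (hB.ww_nonneg Z) _ _) _))
  obtain ⟨hz, g⟩ := mem_filter.1 hz
  obtain ⟨a, b, r⟩ := nz z g
  simp only [mem_union, mem_filter, hA.mem_disc]
  by_cases q : Squarefree (nm z)
  swap
  · obtain ⟨l, hl, d⟩ : ∃ l : ℕ, l.Prime ∧ l * l ∣ nm z := by
      simpa [Nat.squarefree_iff_prime_squarefree] using q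
    exact Or.inl (Or.inl ⟨b, a, l, hl, r l hl ((dvd_mul_right l l).trans d), sq l ▸ d⟩)
  obtain ⟨S, hS, u, hu, rfl⟩ := hD.nice y j₀ (p.J₂ + 2 * R + 1) z (by linarith) hj q r
    fun l _ d => (Nat.cast_le.2 (Nat.le_of_dvd (Nat.pos_of_ne_zero q.ne_zero) d)).trans b
  obtain ⟨hS, inj⟩ := mem_filter.1 hS
  have hS := mem_powerset.1 hS
  obtain ⟨n1, n2, n3, -⟩ := hX.nm_set y j₀ _ S y1 hS
  rw [← nm_unit hu] at n1 n2
  have c : (im y S).sum ≤ p.J₂ + 2 * R + 1 := (pow_le_pow_iff_right₀ y1).1 (n1.trans b)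
  have c' : #S ≤ R := Nat.le_of_mul_le_mul_left (n3.trans (by rw [mul_comm]; omega)) hj
  by_cases t1 : (im y S).sum < p.J₁
  · exact Or.inl (Or.inr ⟨n2.trans (pow_le_pow_right₀ y1.le (by omega)), a, r⟩)
  by_cases t2 : p.J₂ < (im y S).sum
  · exact Or.inr ⟨b, (pow_le_pow_right₀ y1.le t2.le).trans n1, r⟩
  refine absurd (mem_image.2 ⟨(u, S), mem_product.2 ⟨(hD.units u).1 hu, mem_filter.2
    ⟨mem_filter.2 ⟨mem_powerset.2 fun π hπ => ?_, inj⟩, not_lt.1 t1, not_lt.1 t2⟩⟩, rfl⟩)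
    (mem_sdiff.1 hz).2
  obtain ⟨i1, -, i3⟩ := hX.ix_PP y j₀ _ π y1 (hS hπ)
  have : ix y π ≤ (im y S).sum := single_le_sum (f := ix y) (fun _ _ => Nat.zero_le _) hπ
  exact mem_biUnion.2 ⟨_, mem_Ico.2 ⟨i1, by omega⟩, i3⟩

end

end Pool.Agent.Lib.MP_4b1228_nt.GS
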