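import Pool.Agent.Lib.MP_4b1228_nt.GS.St

/-! The large sieve for the angular characters. -/

namespace Pool.Agent.Lib.MP_4b1228_nt.GS

open Finset Filter Pool.Agent.Lib.MP_9d27bc_nt.C Pool.Agent.Lib.MP_9d27bc_nt.C.Two
open scoped Classical

namespace LS

/-- the content -/
def ct (a : GI) : ℕ := Int.gcd a.re a.im

/-- the primitive part -/
noncomputable def pp (a : GI) : GI := a / (ct a : GI)

lemma nm_nat (d : ℕ) : nm (d : GI) = d ^ 2 := by
  have h := hG.2.2.1 (d : GI)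
  simp only [Zsqrtd.re_natCast, Zsqrtd.im_natCast] at h
  rw [zero_pow two_ne_zero, add_zero] at h
  exact_mod_cast h

lemma dec {a : GI} (ha : a ≠ 0) : Prim (pp a) ∧ a = (ct a : GI) * pp a ∧ ct a ≠ 0 :=
  hA.content a ha

lemma nm_dec {a : GI} (ha : a ≠ 0) : nm a = ct a ^ 2 * nm (pp a) := by
  conv_lhs => rw [(dec ha).2.1, hG.1, nm_nat]

lemma four (T : ℕ) (g : ℤ → ℝ) (hg : ∀ t, 0 ≤ g t) :
    ∑ t ∈ fr T, g (4 * t) ≤ ∑ t ∈ fr (4 * T), g t := by
  rw [← sum_image (s := fr T) (g := fun t => 4 * t) (f := g) fun a _ b _ h => by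
    simpa using h]
  refine sum_le_sum_of_subset_of_nonneg (fun t ht => ?_) fun t _ _ => hg t
  obtain ⟨s, hs, rfl⟩ := mem_image.1 ht
  simp only [fr, mem_Icc] at hs ⊢
  push_cast
  omega

/-- one dyadic block with a given content -/
lemma block (hB : Bas) : ∃ K : ℝ, 0 < K ∧ ∀ (ι : Type) (W : Finset ι) (v : ι → GI) (B T d : ℕ)
    (X Y : ℝ), Mult W v B → 1 ≤ T → 1 ≤ X → 1 ≤ Y → 1 ≤ d →
    (∀ i ∈ W, ct (v i) = d ∧ X ≤ nm (v i) ∧ (nm (v i) : ℝ) ≤ 2 * X ∧ Y ≤ nm (v i)) →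
    en (fr T) (hat W v) ≤ K * B * √(1 + T / Y) * (1 / d) := by
  obtain ⟨C, hC1, -, -, hLS⟩ := hS
  have hC0 : 0 < C := by linarith
  refine ⟨√(144 * C), Real.sqrt_pos.2 (by positivity), ?_⟩
  intro ι W v B T d X Y hM hT hX hY hd hW
  rcases W.eq_empty_or_nonempty with rfl | ⟨i₀, hi₀⟩
  · simp only [en, hat, sum_empty, norm_zero, ne_eq, OfNat.ofNat_ne_zero, not_false_eq_true,
      zero_pow, sum_const_zero, Real.sqrt_zero]
    positivity
  have hYX : Y ≤ 2 * X := (hW i₀ hi₀).2.2.2.trans (hW i₀ hi₀).2.2.1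
  have hd1 : (1 : ℝ) ≤ d := by exact_mod_cast hd
  have h0 : ∀ i ∈ W, v i ≠ 0 := fun i hi =>
    (hB.nm_pos _).2 (by exact_mod_cast hX.trans (hW i hi).2.1)
  have hm : ∀ i ∈ W, v i = (d : GI) * pp (v i) := fun i hi => by
    have := (dec (h0 i hi)).2.1
    rwa [(hW i hi).1] at this
  set V : Finset GI := W.image fun i => pp (v i) with hV
  have hVp : ∀ a ∈ V, Prim a ∧ (nm a : ℝ) ≤ 2 * X / (d : ℝ) ^ 2 := fun a ha => by
    obtain ⟨i, hi, rfl⟩ := mem_image.1 ha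
    refine ⟨(dec (h0 i hi)).1, ?_⟩
    have h1 := (hW i hi).2.2.1
    rw [nm_dec (h0 i hi), (hW i hi).1] at h1
    push_cast at h1
    rw [le_div_iff₀ (by positivity)]
    linarith
  let f : GI → ℂ := fun a => ∑ i ∈ W with pp (v i) = a, 1 / (nm (v i) : ℂ)
  have hφ : ∀ t, hat W v t = ∑ a ∈ V, f a * chi (4 * t) a := fun t => by
    rw [hat, ← sum_fiberwise_of_maps_to (s := W) (t := V) (g := fun i => pp (v i))
      (fun i hi => mem_image_of_mem _ hi)]
    refine sum_congr rfl fun a _ => ?_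
    rw [sum_mul]
    refine sum_congr rfl fun i hi => ?_
    obtain ⟨hi, e⟩ := mem_filter.1 hi
    have e2 : xi t (v i) = chi (4 * t) a := by
      rw [hm i hi, e, xi, chi, chi, hA.dir_nat d a (by omega)]
    rw [e2]
    ring
  have hf : ∀ a, ‖f a‖ ≤ B / X := fun a => by
    have h1 : ‖f a‖ ≤ #{i ∈ W | pp (v i) = a} * (1 / X) := by
      refine (norm_sum_le _ _).trans ?_
      rw [← nsmul_eq_mul]
      refine sum_le_card_nsmul _ _ _ fun i hi => ?_
      rw [norm_div, norm_one, Complex.norm_natCast]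
      exact one_div_le_one_div_of_le (by linarith) (hW i (mem_filter.1 hi).1).2.1
    have h2 : (#{i ∈ W | pp (v i) = a} : ℝ) ≤ B := by
      refine Nat.cast_le.2 ((card_le_card fun i hi => ?_).trans (hM ((d : GI) * a)))
      obtain ⟨hi, e⟩ := mem_filter.1 hi
      exact mem_filter.2 ⟨hi, by rw [hm i hi, e]⟩
    rw [div_eq_mul_one_div (B : ℝ)]
    exact h1.trans (mul_le_mul_of_nonneg_right h2 (by positivity))
  have hc : (#V : ℝ) ≤ 9 * (2 * X / (d : ℝ) ^ 2) := by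
    have := hC.1 (2 * X / (d : ℝ) ^ 2) 1 V one_ne_zero (by positivity)
      fun a ha => ⟨hA.prim_ne a (hVp a ha).1, one_dvd _, (hVp a ha).2⟩
    simpa [nm] using this
  have hf2 : ∑ a ∈ V, ‖f a‖ ^ 2 ≤ 9 * (2 * X / (d : ℝ) ^ 2) * (B / X) ^ 2 := by
    refine le_trans ?_ (mul_le_mul_of_nonneg_right hc (sq_nonneg _))
    rw [← nsmul_eq_mul]
    exact sum_le_card_nsmul _ _ _ fun a _ => pow_le_pow_left₀ (norm_nonneg _) (hf a) 2
  have hL := (hLS V (2 * X) (4 * T) (by linarith) (by omega) fun a ha => ⟨(hVp a ha).1,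
    (hVp a ha).2.trans (div_le_self (by linarith) (one_le_pow₀ hd1))⟩).2 f
  have hTY : (T : ℝ) / X ≤ 2 * (T / Y) := by
    rw [← mul_div_assoc, div_le_div_iff₀ (by linarith) (by linarith)]
    nlinarith [mul_le_mul_of_nonneg_left hYX (Nat.cast_nonneg T : (0 : ℝ) ≤ T)]
  have hq : (0 : ℝ) ≤ T / Y := by positivity
  rw [en, Real.sqrt_le_left (by positivity)]
  simp only [hφ]
  refine (four T (fun t => ‖∑ a ∈ V, f a * chi t a‖ ^ 2) fun _ => sq_nonneg _).trans (hL.trans ?_)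
  calc C * (((4 * T : ℕ) : ℝ) + 2 * X) * ∑ a ∈ V, ‖f a‖ ^ 2
      ≤ C * (((4 * T : ℕ) : ℝ) + 2 * X) * (9 * (2 * X / (d : ℝ) ^ 2) * (B / X) ^ 2) :=
        mul_le_mul_of_nonneg_left hf2 (by positivity)
    _ = C * (B * (1 / d)) ^ 2 * (72 * (T / X) + 36) := by
        push_cast
        field_simp
        ring
    _ ≤ C * (B * (1 / d)) ^ 2 * (144 * (1 + T / Y)) :=
        mul_le_mul_of_nonneg_left (by linarith) (by positivity)
    _ = _ := by
        rw [mul_pow, mul_pow, mul_pow, mul_pow, Real.sq_sqrt (by positivity),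
          Real.sq_sqrt (by positivity)]
        ring

end LS

theorem ls (hB : Bas) : LSSt := by
  obtain ⟨K, hK0, hK⟩ := LS.block hB
  refine ⟨4 * K ^ 2, by positivity, ?_⟩
  intro ι S v B T Y₁ Y₂ hM hT h1 h12 hv
  have hY2 : 1 ≤ Y₂ := h1.trans h12
  have hl : 0 ≤ Real.log Y₂ := Real.log_nonneg hY2
  have hn : ∀ i ∈ S, 1 ≤ nm (v i) := fun i hi => by exact_mod_cast h1.trans (hv i hi).1
  have hD : ∀ i ∈ S, nm (v i) ≤ ⌊Y₂⌋₊ := fun i hi => Nat.le_floor (hv i hi).2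
  set L := Nat.log 2 ⌊Y₂⌋₊ with hL
  set I := range (L + 1) ×ˢ Icc 1 ⌊Y₂⌋₊ with hI
  let g : ι → ℕ × ℕ := fun i => (Nat.log 2 (nm (v i)), LS.ct (v i))
  have hg : ∀ i ∈ S, g i ∈ I := fun i hi => by
    have h0 := (hB.nm_pos _).2 (hn i hi)
    have h2 := (LS.dec h0).2.2
    have h3 := LS.nm_dec h0
    have h4 := (hB.nm_pos _).1 (hA.prim_ne _ (LS.dec h0).1)
    have h5 := hD i hi
    refine mem_product.2 ⟨mem_range.2 (Nat.lt_succ_of_le (Nat.log_mono_right (b := 2) h5)),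
      mem_Icc.2 ⟨Nat.one_le_iff_ne_zero.2 h2, le_trans ?_ h5⟩⟩
    rw [h3]
    exact (Nat.le_self_pow two_ne_zero _).trans (Nat.le_mul_of_pos_right _ h4)
  have hs : hat S v = fun t => ∑ j ∈ I, hat {i ∈ S | g i = j} v t := by
    funext t
    exact (sum_fiberwise_of_maps_to hg _).symm
  have hone : ∀ j ∈ I, en (fr T) (hat {i ∈ S | g i = j} v) ≤
      K * B * √(1 + T / Y₁) * (1 / j.2) := fun j hj => by
    refine hK ι _ v B T j.2 (2 ^ j.1) Y₁ (fun a => le_trans (card_le_card fun i hi => ?_) (hM a)) hT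
      (one_le_pow₀ one_le_two) h1 (mem_Icc.1 (mem_product.1 hj).2).1 fun i hi => ?_
    · exact mem_filter.2 ⟨(mem_filter.1 (mem_filter.1 hi).1).1, (mem_filter.1 hi).2⟩
    · obtain ⟨hi', rfl⟩ := mem_filter.1 hi
      have h2 := Nat.pow_log_le_self 2 (Nat.one_le_iff_ne_zero.1 (hn i hi'))
      have h3 := (Nat.lt_pow_succ_log_self one_lt_two (nm (v i))).le
      rw [pow_succ'] at h3
      exact ⟨rfl, by exact_mod_cast h2, by exact_mod_cast h3, (hv i hi').1⟩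
  have hH : ∑ d ∈ Icc 1 ⌊Y₂⌋₊, 1 / (d : ℝ) ≤ 1 + Real.log Y₂ := by
    have := hC.2.2.2.2.2.2 Y₂ 1 0 (Icc 1 ⌊Y₂⌋₊) one_pos hY2 fun n hn =>
      ⟨(mem_Icc.1 hn).1, (Nat.le_floor_iff (by linarith)).1 (mem_Icc.1 hn).2, by simp⟩
    simpa using this
  have hLL : ((L + 1 : ℕ) : ℝ) ≤ 2 * (1 + Real.log Y₂) := by
    have h2 : (2 : ℝ) ^ L ≤ Y₂ := by
      have h3 := Nat.pow_log_le_self 2 (Nat.one_le_iff_ne_zero.1 (Nat.one_le_floor_iff _ |>.2 hY2))
      exact le_trans (by exact_mod_cast h3) (Nat.floor_le (by linarith))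
    have h3 := Real.log_le_log (by positivity) h2
    rw [Real.log_pow] at h3
    have h4 := Real.log_two_gt_d9
    push_cast
    nlinarith [(Nat.cast_nonneg L : (0 : ℝ) ≤ L)]
  have hq : (0 : ℝ) ≤ 1 + T / Y₁ := by positivity
  have hen : en (fr T) (hat S v) ≤ 2 * K * B * √(1 + T / Y₁) * (1 + Real.log Y₂) ^ 2 := by
    rw [hs]
    refine (hA.en_sum _ I (fr T) _).trans ((sum_le_sum hone).trans ?_)
    rw [← mul_sum, hI, sum_product]
    simp only [sum_const, card_range, nsmul_eq_mul]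
    refine (mul_le_mul_of_nonneg_left (mul_le_mul hLL hH (sum_nonneg fun _ _ => by positivity)
      (by positivity)) (by positivity)).trans (le_of_eq (by ring))
  rw [en, Real.sqrt_le_left (by positivity)] at hen
  refine hen.trans (le_of_eq ?_)
  rw [mul_pow, mul_pow, Real.sq_sqrt hq]
  ring

end Pool.Agent.Lib.MP_4b1228_nt.GS
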