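import Pool.Agent.Lib.MP_4b1228_nt.GS.St

/-!
The mean value without logarithms.
-/

namespace Pool.Agent.Lib.MP_4b1228_nt.GS

open Finset Filter Topology Pool.Agent.Lib.MP_9d27bc_nt.C Pool.Agent.Lib.MP_9d27bc_nt.C.Two
open scoped Classical

namespace MV

variable {ι : Type} {S : Finset ι} {v : ι → GI} {B : ℕ}

lemma mult_sum (h : Mult S v B) {T : Finset GI} (hT : ∀ i ∈ S, v i ∈ T) {f : GI → ℝ}
    (hf : ∀ a, 0 ≤ f a) : ∑ i ∈ S, f (v i) ≤ B * ∑ a ∈ T, f a := by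
  rw [← sum_fiberwise_of_maps_to hT, mul_sum]
  refine sum_le_sum fun a _ => ?_
  rw [sum_congr rfl fun i hi => congrArg f (mem_filter.1 hi).2, sum_const, nsmul_eq_mul]
  exact mul_le_mul_of_nonneg_right (Nat.cast_le.2 (h a)) (hf a)

lemma mult_star (h : Mult S v B) : Mult S (fun i => star (v i)) B := fun a =>
  (card_le_card (monotone_filter_right _ fun _ _ e => by rw [← e, star_star])).trans (h (star a))

lemma mem_sq (hB : Bas) {Y Y' : ℝ} (hY : 0 < Y) {a : GI} (h : Y ≤ nm a) (h' : (nm a : ℝ) ≤ Y') :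
    a ∈ Sq (√Y / 2) √Y' := by
  have h1 : (mx a : ℝ) ^ 2 ≤ nm a := by exact_mod_cast (hB.mx_nm a).1
  have h2 : (nm a : ℝ) ≤ 2 * (mx a : ℝ) ^ 2 := by exact_mod_cast (hB.mx_nm a).2
  refine (hB.mem_Sq _ _ _).2 ⟨lt_of_pow_lt_pow_left₀ 2 (Nat.cast_nonneg _) ?_,
    Real.le_sqrt_of_sq_le (h1.trans h')⟩
  rw [div_pow, Real.sq_sqrt hY.le]
  linarith

lemma lg {Y Y' : ℝ} (hY : 0 < Y) (h : Y ≤ Y') :
    1 + Real.log (√Y' / (√Y / 2)) ≤ 2 * (1 + Real.log (Y' / Y)) := by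
  have h1 : 1 ≤ Y' / Y := (one_le_div hY).2 h
  have h2 := Real.log_nonneg h1
  have h3 : √Y' / (√Y / 2) = 2 * √(Y' / Y) := by
    rw [Real.sqrt_div (hY.le.trans h)]
    field_simp
  have h4 := Real.log_two_lt_d9
  rw [h3, Real.log_mul two_ne_zero (by positivity), Real.log_sqrt (by positivity)]
  linarith

lemma inv_le {z : ℝ} (hz : 2 ≤ z) : 1 / z ≤ 4 / Real.log z ^ 2 := by
  have h1 := Real.log_pos (show 1 < z by linarith)
  have h2 := Real.log_le_sub_one_of_pos (Real.sqrt_pos.2 (show 0 < z by linarith))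
  rw [Real.log_sqrt (by linarith)] at h2
  have h3 := Real.sq_sqrt (show 0 ≤ z by linarith)
  rw [div_le_div_iff₀ (by linarith) (by positivity)]
  nlinarith

end MV

open MV in
theorem mv (hB : Bas) (h1 : T1St) (h2 : UBSt) : MVSt := by
  obtain ⟨C₁, c1, h1⟩ := h1
  obtain ⟨c, C₂, c2, h2⟩ := h2
  obtain ⟨C₃, c3, h3⟩ := hB.m0_le
  obtain ⟨C₄, c4, -, -, -, -, h4, -⟩ := hM
  obtain ⟨k, hk⟩ := pow_unbounded_of_one_lt C₁ (one_lt_two (α := ℝ))
  refine ⟨(4 * k + 6) * 14 + 1 + c, 8 * C₂ * C₃ * C₄ + 8, by positivity, fun A B => ?_⟩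
  filter_upwards [(h1 k hk.le A B).1, h2 A, eventually_ge_atTop 16] with z t1 ub hz ι S v Z Y Y' hm
    hZ hY hYY hA hv
  have z1 : (1 : ℝ) ≤ z := by linarith
  have Z1 : (1 : ℝ) ≤ Z := by exact_mod_cast hZ
  set w := (z ^ (4 * k + 6)) ^ 14 with hw
  have w1 : 1 ≤ w := one_le_pow₀ (one_le_pow₀ z1)
  have p1 : 1 ≤ z ^ c := one_le_pow₀ z1
  rw [pow_add, pow_succ, pow_mul, ← hw] at hY
  have y1 : 16 * (w * Z) ≤ Y := by
    refine le_trans ?_ hY
    have : 16 ≤ z * z ^ c := by nlinarith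
    have : 0 ≤ w * Z := by positivity
    nlinarith
  have y2 : 1 ≤ w * Z := one_le_mul_of_one_le_of_one_le w1 Z1
  have y3 : z ^ c ≤ Y := by
    refine le_trans ?_ hY
    have : 1 ≤ w * Z * z := one_le_mul_of_one_le_of_one_le y2 z1
    nlinarith
  have y0 : 0 < Y := by linarith
  have s2 : (√Y / 2) ^ 2 = Y / 4 := by rw [div_pow, Real.sq_sqrt y0.le]; norm_num
  have s1 : 4 ≤ √Y := Real.le_sqrt_of_sq_le (by linarith)
  have s3 : √Y ≤ Y := by nlinarith [Real.sq_sqrt y0.le]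
  have s4 : √Y ≤ √Y' := Real.sqrt_le_sqrt hYY
  have e1 := t1 ι S (fun i => star (v i)) (2 * Z) (√Y / 2) √Y' Y (mult_star hm) (by linarith)
    (fun i hi => by rw [hG.2.1]; exact ⟨(hv i hi).1, (hv i hi).2.1.trans hA⟩) (by omega)
    (by linarith) (by linarith) (by rw [s2]; push_cast; linarith) (by
      rw [s2]
      push_cast
      have : w * Z ^ 2 ≤ (w * Z) ^ 2 := by nlinarith [sq_nonneg (Z : ℝ)]
      nlinarith)
  have e2 := ub 1 Y Y' le_rfl (by simpa using y3) hYY hA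
  have e3 := (h3 (√Y / 2) √Y' (by linarith) (by linarith)).trans
    (mul_le_mul_of_nonneg_left (lg y0 hYY) c3.le)
  have e4 := h4 z (by linarith)
  have l0 := Real.log_pos (show 1 < z by linarith)
  have e5 : D0 S (fun i => star (v i)) ≤ B * lay z 1 Y Y' := by
    refine le_of_eq_of_le (sum_congr rfl fun i _ => ?_) (mult_sum hm (fun i hi => mem_filter.2
      ⟨(GB.mem_disc _ _ (by linarith)).2 (hv i hi).2.1, (hv i hi).1, (hv i hi).2.2⟩)
      (hB.ww_nonneg 1))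
    rw [hB.ww_one, hG.2.1]
  have e6 : ∑ t ∈ fr Z, ‖hat S v t‖ ^ 2 ≤
      2 * (B * AA z (2 * Z) S (fun i => star (v i)) (√Y / 2) √Y') := by
    refine (hB.energy ι S v Z hZ fun i hi => (hB.nm_pos _).2 ?_).trans ?_
    · have := (hv i hi).1
      exact_mod_cast (show (1 : ℝ) ≤ nm (v i) by linarith)
    · rw [AA, mul_sum _ _ (B : ℝ)]
      gcongr with i hi
      exact mult_sum hm (f := fun m => ww (2 * Z) (star (v i) * m)) (fun l hl => mem_filter.2
        ⟨mem_sq hB y0 (hv l hl).1 (hv l hl).2.1, (hv l hl).2.2⟩) fun _ => hB.ww_nonneg _ _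
  set G := 1 + Real.log (Y' / Y) with hG'
  have g1 : 1 ≤ G := le_add_of_nonneg_right (Real.log_nonneg ((one_le_div y0).2 hYY))
  have d0 : 0 ≤ D0 S fun i => star (v i) := sum_nonneg fun _ _ => by positivity
  have m0' : 0 ≤ m0 (√Y / 2) √Y' := sum_nonneg fun _ _ => by positivity
  have v0 : 0 ≤ VV z := le_trans (by positivity) e4.1
  have e7 : D0 S (fun i => star (v i)) * m0 (√Y / 2) √Y' * VV z ≤
      B * (C₂ * G / Real.log z) * (C₃ * (2 * G)) * (C₄ / Real.log z) := by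
    have := e5.trans (mul_le_mul_of_nonneg_left e2 (Nat.cast_nonneg B))
    gcongr
    exact e4.2
  have e8 : C₁ / 2 ^ k ≤ 1 := (div_le_one (by positivity)).2 hk.le
  have e9 := mul_le_mul_of_nonneg_right e8 (mul_nonneg (mul_nonneg d0 m0') v0)
  have e10 := (abs_le.1 e1).2
  have e11 := inv_le (show 2 ≤ z by linarith)
  have e12 : (B : ℝ) * (4 / Real.log z ^ 2) ≤ 4 * (B * G / Real.log z) ^ 2 := by
    have b1 : (B : ℝ) ≤ B ^ 2 := by exact_mod_cast Nat.le_self_pow two_ne_zero B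
    have b2 : (B : ℝ) ^ 2 ≤ B ^ 2 * G ^ 2 := le_mul_of_one_le_right (by positivity) (one_le_pow₀ g1)
    rw [div_pow, mul_pow, ← mul_div_assoc, ← mul_div_assoc]
    gcongr ?_ / _
    linarith
  calc _ ≤ _ := e6
    _ ≤ 2 * (B * (2 * (B * (C₂ * G / Real.log z) * (C₃ * (2 * G)) * (C₄ / Real.log z)) +
        4 / Real.log z ^ 2)) := by gcongr; linarith
    _ = 8 * C₂ * C₃ * C₄ * (B * G / Real.log z) ^ 2 + 2 * (B * (4 / Real.log z ^ 2)) := by ring
    _ ≤ _ := by linarith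

end Pool.Agent.Lib.MP_4b1228_nt.GS
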