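import Pool.Agent.Lib.MP_4b1228_nt.GS.St2

/-!
The choice of the parameters.
-/

namespace Pool.Agent.Lib.MP_4b1228_nt.GS

open Finset Filter Topology Pool.Agent.Lib.MP_9d27bc_nt.C
open scoped Classical

namespace Main

lemma ex_k (a b : ℕ) (D : ℝ) (hD : 0 ≤ D) : ∃ k : ℕ, D * ((a * k + b : ℕ) : ℝ) ^ 2 ≤ 2 ^ k := by
  have h := tendsto_pow_const_div_const_pow_of_one_lt 2 (r := (2 : ℝ)) (by norm_num)
  have hp : (0 : ℝ) < 1 / (D * ((a : ℝ) + b) ^ 2 + 1) := by positivity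
  obtain ⟨k, hk, hk1⟩ := ((h.eventually (gt_mem_nhds hp)).and (eventually_ge_atTop 1)).exists
  refine ⟨k, ?_⟩
  have h2 : (0 : ℝ) < 2 ^ k := by positivity
  have h3 : (0 : ℝ) < D * ((a : ℝ) + b) ^ 2 + 1 := by positivity
  rw [div_lt_div_iff₀ h2 h3] at hk
  have hk1' : (1 : ℝ) ≤ k := by exact_mod_cast hk1
  have h4 : ((a * k + b : ℕ) : ℝ) ≤ ((a : ℝ) + b) * k := by
    push_cast
    have : (0 : ℝ) ≤ b := Nat.cast_nonneg b
    nlinarith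
  have h5 : ((a * k + b : ℕ) : ℝ) ^ 2 ≤ (((a : ℝ) + b) * k) ^ 2 := by gcongr
  have h6 : D * ((a * k + b : ℕ) : ℝ) ^ 2 ≤ D * (((a : ℝ) + b) * k) ^ 2 := by gcongr
  have h7 : (0 : ℝ) ≤ (k : ℝ) ^ 2 := by positivity
  nlinarith

/-- the parameters at scale `h` with a short range of totals -/
def par (q : Par) (h Δ : ℕ) : Par := { q.scale h with J₂ := q.J₁ * h + Δ }

lemma par_ok (q : Par) (hq : q.OK) (hlt : q.J₁ < q.J₂) (h Δ : ℕ) (hh : 0 < h) (hΔ : Δ ≤ h) :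
    (par q h Δ).OK := by
  obtain ⟨a1, a2, a3, a4, a5, a6, a7, a8, a9, a10, a11, a12, a13, a14, a15, a16⟩ := hq
  have hJ : q.J₁ * h + Δ ≤ q.J₂ * h := by nlinarith
  have m : ∀ a b : ℕ, a ≤ b → a * h ≤ b * h := fun a b hab => Nat.mul_le_mul_right h hab
  have m' : ∀ a b : ℕ, a < b → a * h < b * h := fun a b hab => Nat.mul_lt_mul_of_pos_right hab hh
  have b2 := m _ _ a2
  have b3 := m _ _ a3
  have b5 := m _ _ a5
  have b6 := m _ _ a6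
  have b7 := m' _ _ a7
  have b8 := m' _ _ a8
  have b9 := m' _ _ a9
  have b10 := m _ _ a10
  have b11 := m _ _ a11
  have b12 := m _ _ a12
  have b13 := m _ _ a13
  have b14 := m _ _ a14
  have b15 := m _ _ a15
  have b16 := m _ _ a16
  have b1 : 0 < q.g * h := Nat.mul_pos a1 hh
  simp only [add_mul, mul_assoc] at b2 b3 b7 b8 b9 b10 b11 b12 b13 b14 b15 b16
  simp only [Par.OK, par, Par.scale]
  refine ⟨b1, b2, b3, ?_, b5, b6, ?_, b8, ?_, ?_, b11, b12, b13, b14, b15, b16⟩ <;> omega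

lemma sc_add (p : Par) (y : ℝ) (j₀ Z : ℕ) :
    (p.sc y j₀ Z fun M => p.T M) = (p.sc y j₀ Z fun M => if Good p.g M then p.T M else 0) +
      p.sc y j₀ Z fun M => if Good p.g M then 0 else p.T M := by
  simp only [Par.sc, ← sum_add_distrib]
  refine sum_congr rfl fun S _ => ?_
  split_ifs <;> simp

lemma low (c : ℝ) (hc : 0 < c) (J₁ Δ B : ℕ) (l : ℕ → ℝ) (hJ : 2 / c ≤ J₁) (hB : J₁ + Δ ≤ B)
    (hl : ∀ J, J₁ ≤ J → J ≤ J₁ + Δ → l J ≤ (1 - c) / J) :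
    ((Δ : ℝ) + 1) * (c / (2 * B)) ≤ ∑ J ∈ Icc J₁ (J₁ + Δ), (1 / ((J : ℝ) + 1) - l J) := by
  have h0 : (0 : ℝ) < J₁ := lt_of_lt_of_le (by positivity) hJ
  have h1 : ∀ J ∈ Icc J₁ (J₁ + Δ), c / (2 * B) ≤ 1 / ((J : ℝ) + 1) - l J := by
    intro J hJm
    obtain ⟨ha, hb⟩ := mem_Icc.1 hJm
    have ha' : (J₁ : ℝ) ≤ J := by exact_mod_cast ha
    have hb' : (J : ℝ) ≤ B := by exact_mod_cast hb.trans hB
    have hp : (0 : ℝ) < J := by linarith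
    have h2 := hl J ha hb
    have h3 : c / (2 * B) ≤ c / (2 * J) := by gcongr
    have h4 : 2 ≤ c * J := by
      rw [div_le_iff₀ hc] at hJ
      nlinarith
    have h5 : c / (2 * J) ≤ 1 / ((J : ℝ) + 1) - (1 - c) / J := by
      have e : 1 / ((J : ℝ) + 1) - (1 - c) / J - c / (2 * J) =
          (c * (J + 1) - 2) / (2 * J * (J + 1)) := by
        field_simp
        ring
      have : 0 ≤ (c * ((J : ℝ) + 1) - 2) / (2 * J * (J + 1)) := by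
        apply div_nonneg _ (by positivity)
        nlinarith
      linarith
    linarith
  have h6 := card_nsmul_le_sum _ _ _ h1
  rw [Nat.card_Icc, nsmul_eq_mul] at h6
  have e : ((J₁ + Δ + 1 - J₁ : ℕ) : ℝ) = (Δ : ℝ) + 1 := by
    rw [show J₁ + Δ + 1 - J₁ = Δ + 1 by omega]
    push_cast
    ring
  rwa [e] at h6

lemma errs (c C₁ C₂ R Δ j W U : ℝ) (hc : 0 < c) (h1 : 0 < C₁) (h2 : 0 < C₂) (hR : 1 ≤ R)
    (hj : 0 < j) (hW : 0 < W) (hU : 0 < U) (hΔ : R ≤ Δ) (a : 32 * C₁ / c * R ^ 2 ≤ W)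
    (b : 16 * C₁ * U * R ^ 2 / c ≤ Δ) (d : 64 * C₂ * (Δ + 1) * R / c ≤ j) :
    C₁ * R * (Δ + R + 2) / (W * j) ≤ (Δ + 1) * (c / (2 * (R * j))) / 8 ∧
    C₁ * U * R / j ≤ (Δ + 1) * (c / (2 * (R * j))) / 8 ∧
    C₂ * ((Δ + 2) / j) ^ 2 ≤ (Δ + 1) * (c / (2 * (R * j))) / 8 := by
  have hR0 : 0 < R := by linarith
  have e : (Δ + 1) * (c / (2 * (R * j))) / 8 = (Δ + 1) * c / (16 * R * j) := by
    field_simp
    ring
  rw [e]
  rw [div_mul_eq_mul_div, div_le_iff₀ hc] at a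
  rw [div_le_iff₀ hc] at b d
  have hD : 0 < Δ + 1 := by linarith
  refine ⟨?_, ?_, ?_⟩
  · rw [div_le_div_iff₀ (by positivity) (by positivity)]
    have x1 : Δ + R + 2 ≤ 2 * (Δ + 1) := by linarith
    calc C₁ * R * (Δ + R + 2) * (16 * R * j) ≤ C₁ * R * (2 * (Δ + 1)) * (16 * R * j) := by gcongr
      _ = (32 * C₁ * R ^ 2) * ((Δ + 1) * j) := by ring
      _ ≤ (W * c) * ((Δ + 1) * j) := by gcongr
      _ = (Δ + 1) * c * (W * j) := by ring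
  · rw [div_le_div_iff₀ (by positivity) (by positivity)]
    calc C₁ * U * R * (16 * R * j) = (16 * C₁ * U * R ^ 2) * j := by ring
      _ ≤ (Δ * c) * j := by gcongr
      _ ≤ (Δ + 1) * c * j := by gcongr; linarith
  · rw [div_pow, ← mul_div_assoc, div_le_div_iff₀ (by positivity) (by positivity)]
    have x1 : (Δ + 2) ^ 2 ≤ (2 * (Δ + 1)) ^ 2 := by
      apply pow_le_pow_left₀ <;> linarith
    calc C₂ * (Δ + 2) ^ 2 * (16 * R * j) ≤ C₂ * (2 * (Δ + 1)) ^ 2 * (16 * R * j) := by gcongr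
      _ = (64 * C₂ * (Δ + 1) * R) * ((Δ + 1) * j) := by ring
      _ ≤ (j * c) * ((Δ + 1) * j) := by gcongr
      _ = (Δ + 1) * c * j ^ 2 := by ring

end Main

open Main in
theorem main (q : Par) (hq : q.OK) (hlt : q.J₁ < q.J₂) (hτ : 2 * q.τ = q.J₁) (h1 : CoSt)
    (h2 : GdSt) (h3 : BdSt) (h4 : LossSt q) (θ : ℝ) (hθ : 1 / 2 - (q.g : ℝ) / q.J₁ < θ) :
    MainSt2 θ := by
  obtain ⟨c₁, C₁, hC₁, h1⟩ := h1
  obtain ⟨c₂, C₂, hC₂, h2⟩ := h2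
  obtain ⟨c, hc, h4⟩ := h4
  obtain ⟨h₀, h4⟩ := eventually_atTop.1 h4
  have hg : 0 < q.g := hq.1
  have hgτ : 5 * q.g ≤ 4 * q.τ := hq.2.1
  have hN : 1 ≤ q.J₁ := by omega
  have hN' : (1 : ℝ) ≤ q.J₁ := by exact_mod_cast hN
  set δ := θ - (1 / 2 - (q.g : ℝ) / q.J₁) with hδ
  have hδ0 : 0 < δ := by linarith
  obtain ⟨K, hK1, hK⟩ : ∃ K : ℕ, 1 ≤ K ∧ 1 ≤ δ * K := by
    refine ⟨⌈1 / δ⌉₊ + 1, by omega, ?_⟩
    have := Nat.le_ceil (1 / δ)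
    rw [div_le_iff₀ hδ0] at this
    push_cast
    nlinarith
  obtain ⟨k, hk⟩ := ex_k (q.J₁ * K * 200) (q.J₁ * K * (306 + c₁ + c₂) + 1) (32 * C₁ / c + C₁)
    (by positivity)
  obtain ⟨s, hs⟩ : ∃ s : ℕ, s = 50 * (4 * k + 6) + c₁ + c₂ := ⟨_, rfl⟩
  obtain ⟨R', hR'⟩ : ∃ R' : ℕ, R' = K * (s + 6) := ⟨_, rfl⟩
  obtain ⟨R, hR⟩ : ∃ R : ℕ, R = q.J₁ * R' + 1 := ⟨_, rfl⟩
  have hkR : q.J₁ * K * 200 * k + (q.J₁ * K * (306 + c₁ + c₂) + 1) = R := by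
    rw [hR, hR', hs]; ring
  rw [hkR] at hk
  have hR1 : (1 : ℝ) ≤ R := by exact_mod_cast (by omega : 1 ≤ R)
  have hR2 : (1 : ℝ) ≤ (R : ℝ) ^ 2 := one_le_pow₀ hR1
  have hq1 : 0 ≤ 32 * C₁ / c := by positivity
  have hka : 32 * C₁ / c * (R : ℝ) ^ 2 ≤ 2 ^ k := by nlinarith
  have hkb : C₁ ≤ 2 ^ k := by nlinarith
  obtain ⟨Δ, hΔ1, hΔ2⟩ : ∃ Δ : ℕ, R ≤ Δ ∧ 16 * C₁ * 2 ^ R * (R : ℝ) ^ 2 / c ≤ Δ := by
    refine ⟨⌈16 * C₁ * 2 ^ R * (R : ℝ) ^ 2 / c⌉₊ + R, by omega, ?_⟩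
    push_cast
    linarith [Nat.le_ceil (16 * C₁ * 2 ^ R * (R : ℝ) ^ 2 / c)]
  obtain ⟨j₀, hj1, hj2, hj3, hj4⟩ : ∃ j₀ : ℕ, Δ + 2 * R + 1 ≤ j₀ ∧ h₀ ≤ j₀ ∧ 2 / c ≤ j₀ ∧
      64 * C₂ * ((Δ : ℝ) + 1) * R / c ≤ j₀ := by
    refine ⟨Δ + 2 * R + 1 + h₀ + ⌈2 / c⌉₊ + ⌈64 * C₂ * ((Δ : ℝ) + 1) * R / c⌉₊, by omega,
      by omega, ?_, ?_⟩
    · exact (Nat.le_ceil _).trans (by exact_mod_cast (by omega))
    · exact (Nat.le_ceil _).trans (by exact_mod_cast (by omega))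
  have hj0 : 1 ≤ j₀ := by omega
  have hj0' : (1 : ℝ) ≤ j₀ := by exact_mod_cast hj0
  have hRs : s + 6 ≤ R' := by rw [hR']; exact Nat.le_mul_of_pos_left _ hK1
  obtain ⟨h, hh⟩ : ∃ h : ℕ, h = R' * j₀ := ⟨_, rfl⟩
  have hsj : s * j₀ + 6 * j₀ ≤ h := by rw [hh, ← add_mul]; exact Nat.mul_le_mul_right _ hRs
  have hjh : j₀ ≤ h := by omega
  have hgh : h ≤ q.g * h := Nat.le_mul_of_pos_left _ hg
  have hNh : h ≤ q.J₁ * h := Nat.le_mul_of_pos_left _ hN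
  have hRj : R * j₀ = q.J₁ * h + j₀ := by rw [hR, hh]; ring
  obtain ⟨g₀, hg₀⟩ : ∃ g₀ : ℕ, g₀ + (s * j₀ + 2) = q.g * h := ⟨q.g * h - (s * j₀ + 2), by omega⟩
  have hok := par_ok q hq hlt h Δ (by omega) (by omega)
  set p := par q h Δ with hp
  have eJ₁ : p.J₁ = q.J₁ * h := rfl
  have eJ₂ : p.J₂ = q.J₁ * h + Δ := rfl
  have eg : p.g = q.g * h := rfl
  have eτ : p.τ = q.τ * h := rfl
  have hrange : p.J₂ + 2 * R + 1 ≤ R * j₀ := by omega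
  have hsa : (50 * (4 * k + 6) + c₁) * j₀ ≤ s * j₀ := Nat.mul_le_mul_right _ (by omega)
  have hsb : c₂ * j₀ ≤ s * j₀ := Nat.mul_le_mul_right _ (by omega)
  set m : ℝ := ((Δ : ℝ) + 1) * (c / (2 * ((R : ℝ) * j₀))) with hm
  have hm0 : 0 < m := by positivity
  have k1 := h1 k hkb p j₀ R g₀ hok hj0 hrange (by omega)
  have k2 := h2 p j₀ R g₀ (m / 8) hok hj0 hrange (by omega) (by positivity)
  have k3 := h3 p j₀ R (m / 8) hok hj0 (by omega) hrange (by positivity)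
  have hJ2 : q.J₁ * h + Δ ≤ q.J₂ * h := by
    have : (q.J₁ + 1) * h ≤ q.J₂ * h := Nat.mul_le_mul_right _ hlt
    rw [add_mul] at this
    omega
  have k4 := low c hc (q.J₁ * h) Δ (R * j₀) (fun J => p.ls j₀ (p.J₂ + 1) R J)
    (hj3.trans (by exact_mod_cast (by omega))) (by omega)
    (fun J ha hb => h4 h (by omega) J j₀ (p.J₂ + 1) R ha (hb.trans hJ2) hj0)
  obtain ⟨e1, e2, e3⟩ := errs c C₁ C₂ R Δ j₀ (2 ^ k) (2 ^ R) hc hC₁ hC₂ hR1 (by linarith)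
    (by positivity) (by positivity) (by exact_mod_cast hΔ1) hka hΔ2 hj4
  have hτh : 2 * (q.τ * h) = q.J₁ * h := by rw [← hτ]; ring
  have h5 : 5 * (q.g * h) ≤ 4 * (q.τ * h) := by
    have := Nat.mul_le_mul_right h hgτ
    simpa only [mul_assoc] using this
  refine ⟨p.J₁, p.J₂, g₀, m / 4, by positivity, by omega, ?_, ?_⟩
  · have x1 : (g₀ : ℝ) + (s * j₀ + 2) = q.g * h := by exact_mod_cast hg₀
    have x2 : (Δ : ℝ) ≤ j₀ := by exact_mod_cast (by omega : Δ ≤ j₀)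
    have x3 : (h : ℝ) = K * (s + 6) * j₀ := by rw [hh, hR']; push_cast; ring
    have x4 : θ * (q.J₁ * h) = δ * q.J₁ * h + (q.J₁ * h) / 2 - q.g * h := by
      rw [hδ]; field_simp; ring
    have x5 : ((s : ℝ) + 6) * j₀ ≤ δ * q.J₁ * h := by
      have x6 : (0 : ℝ) ≤ ((s : ℝ) + 6) * j₀ := by positivity
      have x7 : 1 ≤ δ * K * q.J₁ := by nlinarith
      calc ((s : ℝ) + 6) * j₀ = 1 * (((s : ℝ) + 6) * j₀) := by ring
        _ ≤ (δ * K * q.J₁) * (((s : ℝ) + 6) * j₀) := by gcongr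
        _ = δ * q.J₁ * h := by rw [x3]; ring
    rw [eJ₁, eJ₂]
    push_cast
    rw [x4]
    nlinarith
  · filter_upwards [k1, k2, k3] with y a1 a2 a3 Z hZ hZy
    have b1 := abs_le.1 (a1 Z hZ hZy)
    obtain ⟨b2, b3⟩ := a2 Z hZ hZy
    have b2' := abs_le.1 b2
    have s1 := sc_add p y j₀ Z
    have s2 := sc_add p y j₀ 1
    have y1 : (p.J₂ : ℝ) - p.J₁ = Δ := by rw [eJ₁, eJ₂]; push_cast; ring
    have y2 : (p.J₂ : ℝ) - 2 * p.τ = Δ := by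
      have : (2 : ℝ) * p.τ = p.J₁ := by exact_mod_cast (by omega : 2 * p.τ = p.J₁)
      rw [this, y1]
    rw [y1] at b1
    rw [y2] at b3
    rw [eJ₁, eJ₂] at a3
    have k4' : m ≤ ∑ J ∈ Icc (q.J₁ * h) (q.J₁ * h + Δ),
        (1 / ((J : ℝ) + 1) - p.ls j₀ (q.J₁ * h + Δ + 1) R J) := by
      rw [hm]
      have := k4
      push_cast at this
      exact this
    linarith [b1.1, b2'.2]

theorem main_cert (h1 : CoSt) (h2 : GdSt) (h3 : BdSt) (h4 : LossSt cert) (θ : ℝ)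
    (hθ : 11 / 100 < θ) : MainSt2 θ := by
  refine main cert (by simp only [Par.OK, cert]; omega) (by decide) (by decide) h1 h2 h3 h4 θ ?_
  simp only [cert]
  norm_num
  linarith

end Pool.Agent.Lib.MP_4b1228_nt.GS
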