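import Pool.Agent.Lib.MP_4b1228_nt.GS.Oct1

/-!
The mean square in one quarter of the plane.
-/

namespace Pool.Agent.Lib.MP_4b1228_nt.GS

open MeasureTheory hiding integral_add integral_sub integral_const_mul integral_mul_const
  norm_integral_le_integral_norm integral_const integral_finsetSum integral_div integral_neg
open intervalIntegral Finset Pool.Agent.Lib.MP_9d27bc_nt.C Pool.Agent.Lib.MP_9d27bc_nt.C.Two
open scoped ComplexConjugate

namespace Oct

/-- the character as a function of the slope -/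
noncomputable def ee (t : ℤ) (s : ℝ) : ℂ :=
  Complex.exp ((4 * t : ℤ) * ((Real.arctan s : ℝ) * Complex.I))

/-- the weight -/
noncomputable def wt (s : ℝ) : ℝ := 1 / (1 + s ^ 2)

/-- the weighted character -/
noncomputable def gg (t : ℤ) (s : ℝ) : ℂ := ee t s * wt s

lemma wt_pos (s : ℝ) : 0 < wt s := by unfold wt; positivity

lemma wt_le (s : ℝ) : wt s ≤ 1 := by
  unfold wt; rw [div_le_one (by positivity)]; nlinarith [sq_nonneg s]

lemma wt_le' (s : ℝ) : |2 * s * wt s| ≤ 1 := by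
  unfold wt
  rw [mul_one_div, abs_div, abs_of_pos (by positivity : 0 < 1 + s ^ 2), div_le_one (by positivity),
    abs_le]
  constructor <;> nlinarith [sq_nonneg (s - 1), sq_nonneg (s + 1)]

lemma cont_wt : Continuous wt := continuous_const.div (by fun_prop) fun s => by positivity

lemma cont_gg (t : ℤ) : Continuous (gg t) := by
  have := cont_wt
  unfold gg ee; fun_prop

lemma norm_ee (t : ℤ) (s : ℝ) : ‖ee t s‖ = 1 := by
  rw [ee, ← mul_assoc, ← Complex.ofReal_intCast, ← Complex.ofReal_mul, Complex.norm_exp_ofReal_mul_I]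

lemma norm_gg (t : ℤ) (s : ℝ) : ‖gg t s‖ ≤ 1 := by
  rw [gg, norm_mul, norm_ee, one_mul, Complex.norm_real, Real.norm_of_nonneg (wt_pos s).le]
  exact wt_le s

lemma der_ee (t : ℤ) (s : ℝ) : HasDerivAt (ee t) (4 * t * Complex.I * gg t s) s := by
  have := (((Real.hasDerivAt_arctan s).ofReal_comp.mul_const Complex.I).const_mul
    ((4 * t : ℤ) : ℂ)).cexp
  exact this.congr_deriv (by simp only [gg, ee, wt]; push_cast; ring)

lemma der_wt (s : ℝ) : HasDerivAt wt (-(2 * s * wt s) * wt s) s := by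
  have h : (1 + s ^ 2) ≠ 0 := by positivity
  have := (hasDerivAt_const s (1 : ℝ)).div ((hasDerivAt_pow 2 s).const_add 1) h
  exact this.congr_deriv (by simp only [wt]; field_simp; norm_num; ring)

lemma der_gg (t : ℤ) (s : ℝ) : HasDerivAt (gg t)
    (4 * t * Complex.I * gg t s * wt s - gg t s * (2 * s * wt s : ℝ)) s := by
  exact ((der_ee t s).mul (der_wt s).ofReal_comp).congr_deriv (by simp only [gg]; push_cast; ring)

lemma int_gg {t : ℤ} (ht : t ≠ 0) : ∫ s in (-1 : ℝ)..1, gg t s = 0 := by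
  have h := integral_eq_sub_of_hasDerivAt (a := -1) (b := 1) (fun s _ => der_ee t s)
    (((cont_gg t).const_mul _).intervalIntegrable _ _)
  have e : ee t 1 = ee t (-1) := by
    rw [ee, ee, Real.arctan_neg, Real.arctan_one, Complex.exp_eq_exp_iff_exists_int]
    exact ⟨t, by push_cast; ring⟩
  rw [e, sub_self, integral_const_mul] at h
  exact (mul_eq_zero.1 h).resolve_left (by simp [ht])

lemma gg_mul (t t' : ℤ) (s : ℝ) : gg t s * conj (gg t' s) = gg (t - t') s * wt s := by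
  have : ee t s * conj (ee t' s) = ee (t - t') s := by
    rw [ee, ee, ee, ← Complex.exp_conj, ← Complex.exp_add]
    congr 1
    simp only [map_mul, map_intCast, Complex.conj_ofReal, Complex.conj_I]
    push_cast; ring
  rw [gg, gg, gg, map_mul, Complex.conj_ofReal, ← this]; ring

lemma bessel (F : Finset ℤ) (a : ℤ → ℂ) :
    ∫ s in (-1 : ℝ)..1, ‖∑ t ∈ F, a t * gg t s‖ ^ 2 ≤ 2 * ∑ t ∈ F, ‖a t‖ ^ 2 := by
  have cg := cont_gg
  have cG : Continuous fun s => ∑ t ∈ F, a t * gg t s := by fun_prop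
  have e1 : ∀ s, ((‖∑ t ∈ F, a t * gg t s‖ ^ 2 * (1 + s ^ 2) : ℝ) : ℂ) =
      ∑ t ∈ F, ∑ t' ∈ F, a t * conj (a t') * gg (t - t') s := fun s => by
    have h : ((wt s : ℝ) : ℂ) * (1 + s ^ 2 : ℝ) = 1 := by
      rw [← Complex.ofReal_mul, wt, one_div_mul_cancel (by positivity), Complex.ofReal_one]
    rw [Complex.ofReal_mul, Complex.ofReal_pow, ← Complex.mul_conj', map_sum, sum_mul_sum, sum_mul]
    refine sum_congr rfl fun t _ => ?_
    rw [sum_mul]
    refine sum_congr rfl fun t' _ => ?_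
    rw [map_mul, mul_mul_mul_comm, gg_mul, mul_assoc, mul_assoc (gg _ _), h, mul_one]
  have e2 : ((∫ s in (-1 : ℝ)..1, ‖∑ t ∈ F, a t * gg t s‖ ^ 2 * (1 + s ^ 2) : ℝ) : ℂ) =
      (∑ t ∈ F, ‖a t‖ ^ 2 : ℝ) * ∫ s in (-1 : ℝ)..1, gg 0 s := by
    rw [← intervalIntegral.integral_ofReal]
    simp only [e1]
    rw [integral_finsetSum fun t _ => Continuous.intervalIntegrable (by fun_prop) _ _,
      Complex.ofReal_sum, sum_mul]
    refine sum_congr rfl fun t ht => ?_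
    rw [integral_finsetSum fun t _ => Continuous.intervalIntegrable (by fun_prop) _ _,
      sum_eq_single_of_mem t ht fun t' _ h => by
        rw [integral_const_mul, int_gg (sub_ne_zero.2 h.symm), mul_zero],
      integral_const_mul, sub_self, Complex.mul_conj', Complex.ofReal_pow]
  have b := norm_integral_le_of_norm_le_const (a := -1) (b := 1) fun s _ => norm_gg 0 s
  have e3 := congrArg norm e2
  rw [norm_mul, Complex.norm_real, Complex.norm_real, Real.norm_of_nonneg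
    (sum_nonneg fun _ _ => by positivity : 0 ≤ ∑ t ∈ F, ‖a t‖ ^ 2)] at e3
  refine (integral_mono_on (by norm_num) ((cG.norm.pow 2).intervalIntegrable _ _)
    (Continuous.intervalIntegrable (u := fun s => ‖∑ t ∈ F, a t * gg t s‖ ^ 2 * (1 + s ^ 2))
      (by fun_prop) _ _) fun s _ => le_mul_of_one_le_right (sq_nonneg _)
        (by nlinarith [sq_nonneg s])).trans ((le_abs_self _).trans ?_)
  rw [← Real.norm_eq_abs, e3, mul_comm]
  gcongr
  norm_num at b ⊢
  exact b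

lemma term (t : ℤ) {p : ℕ} (hp : 0 < p) (r : ℤ) :
    xi t ⟨p, r⟩ / (nm ⟨p, r⟩ : ℂ) = gg t (r / p) / (p : ℂ) ^ 2 := by
  have hp' : (0 : ℝ) < p := by exact_mod_cast hp
  set x : ℝ := r / p with hx
  have hr : (r : ℝ) = p * x := by rw [hx]; field_simp
  have e0 : ((⟨p, r⟩ : GI) : ℂ) = p * (1 + x * Complex.I) := by
    rw [GaussianInt.toComplex_def', ← Complex.ofReal_intCast r, hr]; push_cast; ring
  have e1 : ‖((⟨p, r⟩ : GI) : ℂ)‖ = p * √(1 + x ^ 2) := by
    rw [e0, norm_mul, Complex.norm_natCast, ← Complex.ofReal_one, Complex.norm_add_mul_I, one_pow]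
  have hs : (0 : ℝ) < √(1 + x ^ 2) := by positivity
  have e2 : dir ⟨p, r⟩ = Complex.exp ((Real.arctan x : ℝ) * Complex.I) := by
    rw [dir, e1, e0, Complex.exp_mul_I, ← Complex.ofReal_cos, ← Complex.ofReal_sin,
      Real.cos_arctan, Real.sin_arctan]
    have h1 : (p : ℂ) ≠ 0 := by exact_mod_cast hp.ne'
    have h2 : ((√(1 + x ^ 2) : ℝ) : ℂ) ≠ 0 := by exact_mod_cast hs.ne'
    push_cast
    field_simp
  have e3 : (nm ⟨p, r⟩ : ℂ) = ((p ^ 2 * (1 + x ^ 2) : ℝ) : ℂ) := by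
    rw [← Complex.ofReal_natCast, hA.nm_eq, e1, mul_pow, Real.sq_sqrt (by positivity)]
  rw [xi, chi, e2, ← Complex.exp_int_mul, e3, gg, ee, wt]
  push_cast
  rw [mul_one_div, div_div, mul_comm (1 + (x : ℂ) ^ 2)]

lemma cnt {q p : ℕ} (hq : 1 ≤ q) (hp : 0 < p) (ρ : ℤ) {u : ℝ} (h1 : -1 ≤ u) (h2 : u ≤ 1) :
    ∑ r ∈ Ioc (-(p : ℤ)) p with (q : ℤ) ∣ r - ρ, (if (r : ℝ) / p ≤ u then (1 : ℂ) else 0) =
      ((p / q * (u + 1) - Int.fract ((p * u - ρ) / q) + Int.fract ((p * (-1 : ℝ) - ρ) / q) : ℝ) :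
        ℂ) := by
  have hp' : (0 : ℝ) < p := by exact_mod_cast hp
  have hq' : (0 : ℝ) < q := by exact_mod_cast hq
  have hle : ⌊(p * (-1 : ℝ) - ρ) / q⌋ ≤ ⌊(p * u - ρ) / q⌋ := by gcongr
  have e : ({r ∈ Ioc (-(p : ℤ)) p | (q : ℤ) ∣ r - ρ}.filter fun r : ℤ => (r : ℝ) / p ≤ u) =
      (Ioc ⌊(p * (-1 : ℝ) - ρ) / q⌋ ⌊(p * u - ρ) / q⌋).image fun k => ρ + q * k := by
    ext r
    simp only [mem_filter, mem_Ioc, mem_image, Int.floor_lt, Int.le_floor, div_lt_iff₀ hq',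
      le_div_iff₀ hq', div_le_iff₀ hp']
    constructor
    · rintro ⟨⟨⟨h3, -⟩, k, hk⟩, h4⟩
      have h5 : (r : ℝ) - ρ = q * k := by exact_mod_cast hk
      have h6 : -(p : ℝ) < r := by exact_mod_cast h3
      exact ⟨k, ⟨by linarith, by linarith⟩, by linarith⟩
    · rintro ⟨k, ⟨h3, h4⟩, rfl⟩
      have h5 : -(p : ℝ) < ρ + q * k := by linarith
      have h6 : (ρ : ℝ) + q * k ≤ p := by nlinarith
      exact ⟨⟨⟨by exact_mod_cast h5, by exact_mod_cast h6⟩, k, by ring⟩, by push_cast; linarith⟩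
  have hq0 : (q : ℤ) ≠ 0 := by exact_mod_cast hq'.ne'
  rw [sum_boole, e, card_image_of_injective _ fun k k' h => mul_left_cancel₀ hq0 (add_left_cancel h),
    ← Complex.ofReal_natCast, ← Int.cast_natCast, Int.card_Ioc_of_le _ _ hle]
  congr 1
  simp only [Int.fract]
  push_cast
  field_simp
  ring

lemma abel {G G' : ℝ → ℂ} (hG : ∀ s, HasDerivAt G (G' s) s) (hc : Continuous G')
    (h0 : ∫ s in (-1 : ℝ)..1, G s = 0) {q p : ℕ} (hq : 1 ≤ q) (hp : 0 < p) (ρ : ℤ) :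
    ∑ r ∈ Ioc (-(p : ℤ)) p with (q : ℤ) ∣ r - ρ, G (r / p) =
      -(G 1 * (Int.fract ((p * (1 : ℝ) - ρ) / q) : ℝ)) +
        G (-1) * (Int.fract ((p * (-1 : ℝ) - ρ) / q) : ℝ) +
        ∫ s in (-1 : ℝ)..1, G' s * (Int.fract ((p * s - ρ) / q) : ℝ) := by
  have hp' : (0 : ℝ) < p := by exact_mod_cast hp
  have cG : Continuous G := continuous_iff_continuousAt.2 fun s => (hG s).continuousAt
  have hb : ∀ r ∈ {r ∈ Ioc (-(p : ℤ)) p | (q : ℤ) ∣ r - ρ}, -1 < (r : ℝ) / p ∧ (r : ℝ) / p ≤ 1 :=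
    fun r hr => by
      obtain ⟨h1, h2⟩ := mem_Ioc.1 (mem_filter.1 hr).1
      rw [lt_div_iff₀ hp', div_le_one hp', neg_one_mul]
      exact ⟨by exact_mod_cast h1, by exact_mod_cast h2⟩
  have e1 := cnt hq hp ρ (u := 1) (by norm_num) le_rfl
  rw [sum_congr rfl fun r hr => if_pos (hb r hr).2] at e1
  have i1 : ∀ s : ℝ, IntervalIntegrable (fun u => (if s ≤ u then (1 : ℂ) else 0) * G' u) volume
      (-1) 1 := fun s => (ib (M := 1) (Measurable.ite measurableSet_Ici measurable_const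
        measurable_const) (fun u => by split_ifs <;> simp) _ _).mul_continuousOn hc.continuousOn
  have i2 := iφ0 (D := fun s => Int.fract ((p * s - ρ) / q)) (M := 1) (by fun_prop)
    (fun s => by rw [Int.abs_fract]; exact (Int.fract_lt_one _).le) hc (-1) 1
  have f1 : ∫ u in (-1 : ℝ)..1, G' u = G 1 - G (-1) :=
    integral_eq_sub_of_hasDerivAt (fun x _ => hG x) (hc.intervalIntegrable _ _)
  have f2 : ∫ u in (-1 : ℝ)..1, ((u : ℂ) + 1) * G' u = 2 * G 1 := by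
    have := integral_eq_sub_of_hasDerivAt (a := -1) (b := 1)
      (fun x _ => ((hasDerivAt_id x).ofReal_comp.add_const 1).mul (hG x))
      (Continuous.intervalIntegrable (by simp only [id]; fun_prop) _ _)
    simp only [id, Complex.ofReal_one, one_mul, Pi.mul_apply] at this
    rw [integral_add (cG.intervalIntegrable _ _) (Continuous.intervalIntegrable (by fun_prop) _ _),
      h0] at this
    push_cast at this
    linear_combination this
  rw [sum_congr rfl fun r hr => step hG hc (hb r hr).1 (hb r hr).2, sum_sub_distrib,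
    ← integral_finsetSum fun r _ => i1 _, sum_congr rfl fun r _ => (one_mul (G 1)).symm, ← sum_mul,
    e1, integral_congr (g := fun u => (p / q : ℝ) * (((u : ℂ) + 1) * G' u) -
      G' u * (Int.fract ((p * u - ρ) / q) : ℝ) + (Int.fract ((p * (-1 : ℝ) - ρ) / q) : ℝ) * G' u)
      fun u hu => ?_]
  · rw [integral_add (IntervalIntegrable.sub (Continuous.intervalIntegrable (by fun_prop) _ _) i2)
      (Continuous.intervalIntegrable (by fun_prop) _ _),
      integral_sub (Continuous.intervalIntegrable (by fun_prop) _ _) i2, integral_const_mul,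
      integral_const_mul, f1, f2]
    push_cast; ring
  · rw [Set.uIcc_of_le (by norm_num)] at hu
    simp only
    rw [← sum_mul, cnt hq hp ρ hu.1 hu.2]
    push_cast; ring

lemma abel' {G G' : ℝ → ℂ} (hG : ∀ s, HasDerivAt G (G' s) s) (hc : Continuous G')
    (h0 : ∫ s in (-1 : ℝ)..1, G s = 0) {q : ℕ} (hq : 1 ≤ q) (ρ : ℤ) {A : Finset ℕ}
    (hA : ∀ p ∈ A, 0 < p) :
    ∑ p ∈ A, ∑ r ∈ Ioc (-(p : ℤ)) p with (q : ℤ) ∣ r - ρ, G (r / p) / (p : ℂ) ^ 2 =
      -(G 1 * DD q ρ A 1) + G (-1) * DD q ρ A (-1) + ∫ s in (-1 : ℝ)..1, G' s * DD q ρ A s := by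
  simp only [DD, Complex.ofReal_sum, mul_sum, Complex.ofReal_div, ← mul_div_assoc]
  rw [integral_finsetSum fun (p : ℕ) _ => (iφ0 (D := fun s => Int.fract ((p * s - ρ) / q)) (M := 1)
    (by fun_prop) (fun s => by rw [Int.abs_fract]; exact (Int.fract_lt_one _).le) hc
    (-1) 1).div_const _, ← sum_neg_distrib, ← sum_add_distrib, ← sum_add_distrib]
  refine sum_congr rfl fun p hp => ?_
  rw [← sum_div, abel hG hc h0 hq (hA p hp), integral_div]
  push_cast; ring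

lemma dd_le (q : ℕ) (ρ : ℤ) {A : Finset ℕ} {P : ℝ} (hP : 0 < P) (hA : ∀ p ∈ A, P < p) (s : ℝ) :
    |DD q ρ A s| ≤ 2 / P := by
  rw [DD, abs_of_nonneg (sum_nonneg fun p _ => div_nonneg (Int.fract_nonneg _) (by positivity))]
  calc _ ≤ ∑ p ∈ A, ((p : ℝ) ^ 2)⁻¹ := sum_le_sum fun p _ => by
        rw [← one_div]; gcongr; exact (Int.fract_lt_one _).le
    _ ≤ ∑ p ∈ Ioo ⌊P⌋₊ (A.sup id + 1), ((p : ℝ) ^ 2)⁻¹ :=
        sum_le_sum_of_subset_of_nonneg (fun p hp => mem_Ioo.2 ⟨(Nat.floor_lt hP.le).2 (hA p hp),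
          Nat.lt_succ_of_le (le_sup (f := id) hp)⟩) fun _ _ _ => by positivity
    _ ≤ 2 / (⌊P⌋₊ + 1) := sum_Ioo_inv_sq_le _ _
    _ ≤ 2 / P := by gcongr; exact (Nat.lt_floor_add_one P).le

lemma var2 {q : ℕ} (hq : 1 ≤ q) {D : ℝ → ℝ} {M x B : ℝ} (hD : Measurable D) (hM : ∀ s, |D s| ≤ M)
    (h : ∀ a : ℝ, ∫ s in a..(a + q), (D (s + x) - D s) ^ 2 ≤ B) :
    ∫ s in (-1 : ℝ)..1, (D (s + x) - D s) ^ 2 ≤ 2 * B := by
  have hq' : (1 : ℝ) ≤ q := by exact_mod_cast hq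
  have b : ∀ a : ℝ, ∫ s in a..(a + 1), (D (s + x) - D s) ^ 2 ≤ B := fun a =>
    (integral_mono_interval le_rfl (by linarith) (by linarith)
      (Filter.Eventually.of_forall fun s => sq_nonneg _) (isq hD hM x _ _)).trans (h a)
  have b1 := b (-1)
  have b2 := b 0
  rw [← integral_add_adjacent_intervals (b := 0) (isq hD hM x _ _) (isq hD hM x _ _)]
  norm_num at b1 b2 ⊢
  linarith

lemma dual {D : ℝ → ℝ} {M : ℝ} (hD : Measurable D) (hM : ∀ s, |D s| ≤ M) {T : ℕ} (hT : 1 ≤ T)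
    (a : ℤ → ℂ) {α β τ : ℝ} (hα : 0 < α) (hβ : 0 < β) (hτ : 0 < τ) (hτ' : τ ^ 2 = T)
    (hX : ∑ t ∈ fz T, ‖a t‖ ^ 2 = α ^ 2)
    (h2 : ∀ x, 0 ≤ x → x ≤ 1 / (T : ℝ) → ∫ s in (-1 : ℝ)..1, (D (s + x) - D s) ^ 2 ≤ β ^ 2) :
    ∃ G' : ℝ → ℂ, (∀ s, HasDerivAt (fun s => ∑ t ∈ fz T, a t * gg t s) (G' s) s) ∧ Continuous G' ∧
      ‖-((∑ t ∈ fz T, a t * gg t 1) * D 1) + (∑ t ∈ fz T, a t * gg t (-1)) * D (-1) +
        ∫ s in (-1 : ℝ)..1, G' s * D s‖ ≤ α * (28 * τ * M + 11 * T * β) := by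
  have hT' : (1 : ℝ) ≤ T := by exact_mod_cast hT
  have M0 : 0 ≤ M := (abs_nonneg _).trans (hM 0)
  have cg := cont_gg
  have cw := cont_wt
  have ht : ∀ t ∈ fz T, ‖4 * t * Complex.I * a t‖ ≤ 4 * T * ‖a t‖ := fun t ht => by
    have := abs_le.2 (mem_Icc.1 (mem_erase.1 ht).2)
    have : |(t : ℝ)| ≤ T := by exact_mod_cast this
    simp only [norm_mul, Complex.norm_I, Complex.norm_intCast, Complex.norm_ofNat, mul_one]
    gcongr
  have hc : (#(fz T) : ℝ) ≤ 4 * T := by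
    have : #(fz T) ≤ 4 * T := (card_erase_le).trans (by rw [fr, Int.card_Icc]; omega)
    exact_mod_cast this
  have hs : ∑ t ∈ fz T, ‖a t‖ ≤ 2 * τ * α := by
    refine (pow_le_pow_iff_left₀ (by positivity) (by positivity) two_ne_zero).1
      (sq_sum_le_card_mul_sum_sq.trans ?_)
    rw [hX, mul_pow, mul_pow, hτ']
    gcongr
    linarith
  have nb : ∀ (b : ℤ → ℂ) (s : ℝ), ‖∑ t ∈ fz T, b t * gg t s‖ ≤ ∑ t ∈ fz T, ‖b t‖ := fun b s =>
    norm_sum_le_of_le _ fun t _ => by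
      rw [norm_mul]; exact mul_le_of_le_one_right (norm_nonneg _) (norm_gg t s)
  set G : ℝ → ℂ := fun s => ∑ t ∈ fz T, a t * gg t s with hG
  set H : ℝ → ℂ := fun s => ∑ t ∈ fz T, 4 * t * Complex.I * a t * gg t s with hH
  have cG : Continuous G := by rw [hG]; fun_prop
  have cH : Continuous H := by rw [hH]; fun_prop
  have n0 : ∀ s, ‖G s‖ ≤ 2 * τ * α := fun s => (nb a s).trans hs
  have n1 : ∀ s, ‖H s‖ ≤ 4 * T * (2 * τ * α) := fun s =>
    (nb _ s).trans ((sum_le_sum ht).trans (by rw [← mul_sum]; gcongr))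
  have dG : ∀ s, HasDerivAt G (H s * wt s - G s * (2 * s * wt s : ℝ)) s := fun s =>
    (HasDerivAt.fun_sum fun t _ => (der_gg t s).const_mul (a t)).congr_deriv (by
      simp only [hG, hH, sum_mul, ← sum_sub_distrib]
      exact sum_congr rfl fun t _ => by ring)
  have n2 : ∀ s, ‖H s * wt s - G s * (2 * s * wt s : ℝ)‖ ≤ ‖H s‖ + ‖G s‖ := fun s => by
    refine (norm_sub_le _ _).trans (add_le_add ?_ ?_) <;>
      rw [norm_mul, Complex.norm_real, Real.norm_eq_abs] <;>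
      refine mul_le_of_le_one_right (norm_nonneg _) ?_
    exacts [by rw [abs_of_pos (wt_pos s)]; exact wt_le s, wt_le' s]
  have cG' : Continuous fun s => H s * wt s - G s * (2 * s * wt s : ℝ) := by fun_prop
  have l0 : ∫ s in (-1 : ℝ)..1, ‖G s‖ ^ 2 ≤ 2 * α ^ 2 := hX ▸ bessel _ a
  have l1 : ∫ s in (-1 : ℝ)..1, ‖H s‖ ^ 2 ≤ 2 * ((4 * T) ^ 2 * α ^ 2) := by
    refine (bessel _ _).trans ?_
    rw [← hX, mul_sum, mul_sum, mul_sum]
    refine sum_le_sum fun t h => ?_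
    rw [← mul_pow]
    gcongr
    exact ht t h
  have l2 : ∫ s in (-1 : ℝ)..1, ‖H s * wt s - G s * (2 * s * wt s : ℝ)‖ ^ 2 ≤ (9 * T * α) ^ 2 := by
    have i1 := ((cH.norm.pow 2).intervalIntegrable (μ := volume) (-1) 1).const_mul 2
    have i2 := ((cG.norm.pow 2).intervalIntegrable (μ := volume) (-1) 1).const_mul 2
    refine (integral_mono_on (by norm_num) ((cG'.norm.pow 2).intervalIntegrable _ _) (i1.add i2)
      fun s _ => (pow_le_pow_left₀ (norm_nonneg _) (n2 s) 2).trans ?_).trans ?_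
    · simp only [Pi.pow_apply]
      nlinarith [sq_nonneg (‖H s‖ - ‖G s‖)]
    · rw [integral_add i1 i2, integral_const_mul, integral_const_mul]
      simp only [Pi.pow_apply]
      have : α ^ 2 ≤ T ^ 2 * α ^ 2 := le_mul_of_one_le_left (by positivity) (one_le_pow₀ hT')
      nlinarith
  have g := gal hD hM dG cG' (d := 1 / T) (α₀ := 2 * α) (N₁ := 5 * T * (2 * τ * α)) (by positivity)
    n0 (fun s => (n2 s).trans (by
      have : 2 * τ * α ≤ T * (2 * τ * α) := le_mul_of_one_le_left (by positivity) hT'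
      linarith [n0 s, n1 s])) (by positivity) (by positivity) hβ (by nlinarith) l2 h2
  have b : ∀ s, ‖G s * D s‖ ≤ 2 * τ * α * M := fun s => by
    rw [norm_mul, Complex.norm_real, Real.norm_eq_abs]
    exact mul_le_mul (n0 s) (hM s) (abs_nonneg _) (by positivity)
  refine ⟨_, dG, cG', (norm_add_le _ _).trans ((add_le_add ((norm_add_le _ _).trans (add_le_add
    ((norm_neg _).trans_le (b 1)) (b (-1)))) g).trans (le_of_eq ?_))⟩
  field_simp
  ring

end Oct

open Oct in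
theorem oct (_hB : Bas) (h : VarSt) : OctSt := by
  obtain ⟨C, hC, hV⟩ := h
  refine ⟨6272 + 484 * C, by positivity, fun q ρ A P T hq hP hA => ?_⟩
  have P0 : 0 < P := by linarith
  have hA0 : ∀ p ∈ A, 0 < p := fun p hp => by exact_mod_cast P0.trans (hA p hp)
  have hL : 1 ≤ 1 + Real.log (2 * P) := le_add_of_nonneg_right (Real.log_nonneg (by linarith))
  generalize hLL : 1 + Real.log (2 * P) = L at hL
  rcases Nat.eq_zero_or_pos T with rfl | hT
  · simp [fz, fr]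
  have hT' : (0 : ℝ) < T := by exact_mod_cast hT
  rw [sum_congr rfl fun t _ => by
    rw [sum_congr rfl fun p hp => sum_congr rfl fun r _ => term t (hA0 p hp) r]]
  set S : ℤ → ℂ := fun t => ∑ p ∈ A, ∑ r ∈ Ioc (-(p : ℤ)) p with (q : ℤ) ∣ r - ρ,
    gg t (r / p) / (p : ℂ) ^ 2 with hS
  change ∑ t ∈ fz T, ‖S t‖ ^ 2 ≤ _
  rcases (sum_nonneg fun t _ => sq_nonneg ‖S t‖ : 0 ≤ ∑ t ∈ fz T, ‖S t‖ ^ 2).eq_or_lt with e | hX
  · rw [← e]; positivity
  obtain ⟨α, hα, eα⟩ : ∃ α : ℝ, 0 < α ∧ ∑ t ∈ fz T, ‖S t‖ ^ 2 = α ^ 2 :=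
    ⟨_, Real.sqrt_pos.2 hX, (Real.sq_sqrt hX.le).symm⟩
  obtain ⟨τ, hτ, eτ⟩ : ∃ τ : ℝ, 0 < τ ∧ τ ^ 2 = T := ⟨_, Real.sqrt_pos.2 hT', Real.sq_sqrt hT'.le⟩
  obtain ⟨l, hl, el⟩ : ∃ l : ℝ, 0 < l ∧ l ^ 2 = 2 * C * L :=
    ⟨_, Real.sqrt_pos.2 (by positivity), Real.sq_sqrt (by positivity)⟩
  have hD : Measurable (DD q ρ A) := by unfold DD; fun_prop
  have hM := dd_le q ρ P0 hA
  obtain ⟨G', dG, cG', b⟩ := dual hD hM hT (fun t => conj (S t)) hα
    (by positivity : 0 < l / (τ * P)) hτ eτ (by simpa using eα) fun x h0 hx => by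
      refine (var2 hq hD hM fun a => hV q ρ A P x a hq hP hA h0).trans ?_
      rw [hLL, div_pow, mul_pow, el, eτ]
      calc _ ≤ 2 * (C * (1 / T) * L / P ^ 2) := by gcongr
        _ = _ := by field_simp
  have cg := cont_gg
  rw [← abel' dG cG' (by
    rw [integral_finsetSum fun t _ => Continuous.intervalIntegrable (by fun_prop) _ _]
    exact sum_eq_zero fun t ht => by
      rw [integral_const_mul, int_gg (mem_erase.1 ht).1, mul_zero]) hq ρ hA0] at b
  have e : ∑ p ∈ A, ∑ r ∈ Ioc (-(p : ℤ)) p with (q : ℤ) ∣ r - ρ,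
      (∑ t ∈ fz T, conj (S t) * gg t (r / p)) / (p : ℂ) ^ 2 = ((α ^ 2 : ℝ) : ℂ) := by
    rw [← eα, Complex.ofReal_sum]
    simp only [sum_div, sum_comm (t := fz T)]
    refine sum_congr rfl fun t _ => ?_
    rw [Complex.ofReal_pow, ← Complex.conj_mul']
    simp only [mul_div_assoc, ← mul_sum]
    rfl
  rw [e, Complex.norm_real, Real.norm_of_nonneg (sq_nonneg α), sq] at b
  have b1 : α ≤ τ * (56 + 11 * l) / P := by
    refine (le_of_mul_le_mul_left b hα).trans (le_of_eq ?_)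
    rw [← eτ]; field_simp; ring
  rw [eα]
  refine (pow_le_pow_left₀ hα.le b1 2).trans ?_
  rw [div_pow, mul_pow, eτ, mul_comm (_ + 484 * C), mul_assoc]
  gcongr
  nlinarith [sq_nonneg (56 - 11 * l)]

end Pool.Agent.Lib.MP_4b1228_nt.GS
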