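import Pool.Agent.Lib.MP_4b1228_nt.GS.St

/-! Cancellation in a box of primes. -/

namespace Pool.Agent.Lib.MP_4b1228_nt.GS

open Finset Filter Topology Pool.Agent.Lib.MP_9d27bc_nt.C Pool.Agent.Lib.MP_9d27bc_nt.C.Two
open scoped Classical

namespace PB

theorem mem_sp {z₁ z₂ : ℝ} (h : 0 ≤ z₂) (l : ℕ) :
    l ∈ sp z₁ z₂ ↔ Split l ∧ z₁ < l ∧ (l : ℝ) ≤ z₂ := by
  simp only [sp, mem_filter, mem_range, Nat.lt_succ_iff, Nat.le_floor_iff h]
  tauto

theorem fp_le (t : ℤ) (l : ℕ) : ‖fp t l‖ ≤ if Split l then 2 else 0 := by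
  unfold fp
  split_ifs
  · refine (norm_add_le _ _).trans ?_
    have h1 : ‖xi t (cp l true)‖ ≤ 1 := hA.norm_chi_le _ _
    have h2 : ‖xi t (cp l false)‖ ≤ 1 := hA.norm_chi_le _ _
    linarith
  · simp

theorem X_mem {L : ℝ} (hL : 0 < L) (l : ℕ) : (l : ℝ) ^ (-(1 / L)) ∈ Set.Icc (0 : ℝ) 1 := by
  refine ⟨by positivity, ?_⟩
  rcases Nat.eq_zero_or_pos l with rfl | hl
  · rw [Nat.cast_zero, Real.zero_rpow (by simpa using hL.ne')]
    exact zero_le_one
  · exact Real.rpow_le_one_of_one_le_of_nonpos (by exact_mod_cast hl) (by simpa using hL.le)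

theorem X_le {y : ℝ} (hy : 1 < y) {l : ℕ} (hl : 0 < l) (u : ℝ) :
    Real.exp (-u) ≤ (l : ℝ) ^ (-(1 / Real.log y)) ↔ (l : ℝ) ≤ y ^ u := by
  have h0 : (0 : ℝ) < l := by exact_mod_cast hl
  have hL := Real.log_pos hy
  rw [Real.rpow_def_of_pos h0, Real.exp_le_exp, Real.le_rpow_iff_log_le h0 (by linarith),
    mul_neg, neg_le_neg_iff, mul_one_div, div_le_iff₀ hL]

theorem F_pow (a : ℂ) {L : ℝ} (l i : ℕ) :
    (Real.log l : ℂ) * a / (((l : ℝ) ^ (1 + 1 / L) : ℝ) : ℂ) * ((((l : ℝ) ^ (-(1 / L))) ^ i : ℝ) : ℂ) =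
      (Real.log l : ℂ) * a / (((l : ℝ) ^ (1 + ((i : ℝ) + 1) / L) : ℝ) : ℂ) := by
  rcases Nat.eq_zero_or_pos l with rfl | hl
  · simp
  have h0 : (0 : ℝ) < l := by exact_mod_cast hl
  have e : ((l : ℝ) ^ (-(1 / L))) ^ i = (l : ℝ) ^ (1 + 1 / L) / (l : ℝ) ^ (1 + ((i : ℝ) + 1) / L) := by
    rw [← Real.rpow_sub h0, ← Real.rpow_natCast, ← Real.rpow_mul h0.le]
    congr 1
    ring
  have h1 : (((l : ℝ) ^ (1 + 1 / L) : ℝ) : ℂ) ≠ 0 := by
    exact_mod_cast (Real.rpow_pos_of_pos h0 _).ne'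
  rw [e, Complex.ofReal_div]
  field_simp

theorem core (a : ℕ → ℂ) (ha : ∀ l, ‖a l‖ ≤ if Split l then 2 else 0) {L : ℝ} (hL : 0 < L)
    (h : ℝ → ℝ) (p : Polynomial ℝ) {δ W E : ℝ} (hδ : 0 ≤ δ)
    (hp : ∀ x ∈ Set.Icc (0 : ℝ) 1, |p.eval x - h x| < δ)
    (hs : Summable fun l : ℕ => if Split l then 2 * Real.log l / (l : ℝ) ^ (1 + 1 / L) else 0)
    (hW : ∑' l : ℕ, (if Split l then 2 * Real.log l / (l : ℝ) ^ (1 + 1 / L) else 0) ≤ W)
    (hD : ∀ i ≤ p.natDegree,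
      ‖∑' l : ℕ, (Real.log l : ℂ) * a l / (((l : ℝ) ^ (1 + ((i : ℝ) + 1) / L) : ℝ) : ℂ)‖ ≤ E) :
    ‖∑' l : ℕ, (Real.log l : ℂ) * a l / (((l : ℝ) ^ (1 + 1 / L) : ℝ) : ℂ) *
      (h ((l : ℝ) ^ (-(1 / L))) : ℂ)‖ ≤
      δ * W + (∑ i ∈ range (p.natDegree + 1), |p.coeff i|) * E := by
  set F : ℕ → ℂ := fun l => (Real.log l : ℂ) * a l / (((l : ℝ) ^ (1 + 1 / L) : ℝ) : ℂ) with hF
  set w : ℕ → ℝ := fun l => if Split l then 2 * Real.log l / (l : ℝ) ^ (1 + 1 / L) else 0 with hw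
  set X : ℕ → ℝ := fun l => (l : ℝ) ^ (-(1 / L)) with hX
  have hFw : ∀ l, ‖F l‖ ≤ w l := fun l => by
    have h1 := ha l
    have h2 : 0 ≤ Real.log l := Real.log_natCast_nonneg l
    have h3 : 0 ≤ (l : ℝ) ^ (1 + 1 / L) := by positivity
    simp only [hF, hw, norm_div, norm_mul, Complex.norm_real, Real.norm_of_nonneg h2,
      Real.norm_of_nonneg h3]
    split_ifs at h1 ⊢
    · gcongr ?_ / _
      nlinarith
    · rw [le_antisymm h1 (norm_nonneg _)]
      simp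
  have b1 : ∀ l, ‖F l * ((h (X l) - p.eval (X l) : ℝ) : ℂ)‖ ≤ δ * w l := fun l => by
    rw [norm_mul, mul_comm, Complex.norm_real, Real.norm_eq_abs, abs_sub_comm]
    exact mul_le_mul (hp _ (X_mem hL l)).le (hFw l) (norm_nonneg _) hδ
  have s1 : Summable fun l => F l * ((h (X l) - p.eval (X l) : ℝ) : ℂ) :=
    Summable.of_norm_bounded (hs.mul_left δ) b1
  have s2 : ∀ i : ℕ, Summable fun l => (p.coeff i : ℂ) * (F l * ((X l ^ i : ℝ) : ℂ)) := fun i => by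
    refine Summable.mul_left _ (Summable.of_norm_bounded (g := w) hs fun l => ?_)
    rw [norm_mul, Complex.norm_real, Real.norm_of_nonneg (pow_nonneg (X_mem hL l).1 i)]
    exact (mul_le_of_le_one_right (norm_nonneg _)
      (pow_le_one₀ (X_mem hL l).1 (X_mem hL l).2)).trans (hFw l)
  have e : ∀ l, F l * (h (X l) : ℂ) = F l * ((h (X l) - p.eval (X l) : ℝ) : ℂ) +
      ∑ i ∈ range (p.natDegree + 1), (p.coeff i : ℂ) * (F l * ((X l ^ i : ℝ) : ℂ)) := fun l => by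
    have : ∑ i ∈ range (p.natDegree + 1), (p.coeff i : ℂ) * (F l * ((X l ^ i : ℝ) : ℂ)) =
        F l * ((p.eval (X l) : ℝ) : ℂ) := by
      rw [Polynomial.eval_eq_sum_range, Complex.ofReal_sum, mul_sum]
      refine sum_congr rfl fun i _ => ?_
      push_cast
      ring
    rw [this]
    push_cast
    ring
  change ‖∑' l, F l * (h (X l) : ℂ)‖ ≤ _
  simp_rw [e]
  rw [s1.tsum_add (summable_sum fun i _ => s2 i), Summable.tsum_finsetSum fun i _ => s2 i]
  refine (norm_add_le _ _).trans (add_le_add ?_ ?_)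
  · refine (tsum_of_norm_bounded (hs.mul_left δ).hasSum b1).trans ?_
    rw [tsum_mul_left]
    exact mul_le_mul_of_nonneg_left hW hδ
  · rw [sum_mul]
    refine norm_sum_le_of_le _ fun i hi => ?_
    rw [tsum_mul_left, norm_mul, Complex.norm_real, Real.norm_eq_abs]
    refine mul_le_mul_of_nonneg_left ?_ (abs_nonneg _)
    simp only [hF, hX, F_pow]
    exact hD i (Nat.lt_succ_iff.1 (mem_range.1 hi))

theorem kappa {j ε : ℝ} (hj : 1 ≤ j) (hε : 0 < ε) : ∃ κ : ℝ, 0 < κ ∧ κ < 1 ∧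
    Real.log ((j + 1 + κ) / (j - κ)) - Real.log ((j + 1) / j) < ε := by
  have h0 : (0 : ℝ) < j := by linarith
  have c : ContinuousAt (fun κ : ℝ => Real.log ((j + 1 + κ) / (j - κ)) -
      Real.log ((j + 1) / j)) 0 := by
    refine ContinuousAt.sub (ContinuousAt.log (ContinuousAt.div (by fun_prop) (by fun_prop) ?_) ?_)
      continuousAt_const
    · simpa using h0.ne'
    · simp only [add_zero, sub_zero]
      positivity
  have e1 := c.tendsto.eventually (gt_mem_nhds (a := ε) (by simpa using hε))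
  have e2 : ∀ᶠ κ : ℝ in 𝓝 0, κ < 1 := gt_mem_nhds one_pos
  obtain ⟨κ, ⟨k1, k2⟩, k3⟩ := (((e1.and e2).filter_mono
    (nhdsWithin_le_nhds (s := Set.Ioi 0))).and self_mem_nhdsWithin).exists
  exact ⟨κ, k3, k2, k1⟩

theorem cut {a' a b b' : ℝ} (h0 : 0 < a') (h1 : a' < a) (h2 : a ≤ b) (h3 : b < b') (h4 : b' < 1) :
    ∃ G h : ℝ → ℝ, Continuous h ∧ (∀ x, |G x| ≤ 1) ∧ (∀ x, a ≤ x → x ≤ b → G x = 1) ∧
      (∀ x, x ≤ a' ∨ b' ≤ x → h x = 0) ∧
      ∀ x, a' ≤ x → x ≤ b' → h x = G x / (x * -Real.log x) := by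
  obtain ⟨G, g0, g1, g2⟩ := exists_continuous_zero_one_of_isClosed
    (isClosed_Iic.union isClosed_Ici : IsClosed (Set.Iic a' ∪ Set.Ici b'))
    (isClosed_Icc : IsClosed (Set.Icc a b)) (by
      rw [Set.disjoint_left]
      rintro x (hx | hx) ⟨x1, x2⟩
      · exact absurd (Set.mem_Iic.1 hx) (by linarith)
      · exact absurd (Set.mem_Ici.1 hx) (by linarith))
  have c0 : ∀ x, 0 < max a' (min b' x) := fun x => h0.trans_le (le_max_left _ _)
  have c1 : ∀ x, max a' (min b' x) < 1 := fun x =>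
    max_lt (by linarith) ((min_le_left _ _).trans_lt h4)
  have cc : Continuous fun x => max a' (min b' x) := by fun_prop
  refine ⟨G, fun x => G x / (max a' (min b' x) * -Real.log (max a' (min b' x))), ?_, fun x => ?_,
    fun x x1 x2 => g1 ⟨x1, x2⟩, fun x hx => ?_, fun x x1 x2 => ?_⟩
  · refine G.continuous.div (cc.mul (cc.log fun x => (c0 x).ne').neg) fun x => ?_
    exact mul_ne_zero (c0 x).ne' (neg_ne_zero.2 (Real.log_neg (c0 x) (c1 x)).ne)
  · exact abs_le.2 ⟨by linarith [(g2 x).1], (g2 x).2⟩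
  · have : G x = 0 := g0 hx
    simp [this]
  · simp only [min_eq_right x2, max_eq_right x1]

theorem term (a : ℂ) (g : ℝ) {L : ℝ} (hL : 0 < L) {l : ℕ} (hl : 1 < l) :
    (Real.log l : ℂ) * a / (((l : ℝ) ^ (1 + 1 / L) : ℝ) : ℂ) *
      ((g / ((l : ℝ) ^ (-(1 / L)) * -Real.log ((l : ℝ) ^ (-(1 / L)))) : ℝ) : ℂ) =
      (L : ℂ) * (a / l * g) := by
  have h1 : (1 : ℝ) < l := by exact_mod_cast hl
  have h0 : (0 : ℝ) < l := by linarith
  have h2 := Real.log_pos h1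
  have h3 := Real.rpow_pos_of_pos h0 (1 / L)
  have e : Real.log l / (l : ℝ) ^ (1 + 1 / L) *
      (g / ((l : ℝ) ^ (-(1 / L)) * -Real.log ((l : ℝ) ^ (-(1 / L))))) = L * (g / l) := by
    rw [Real.log_rpow h0, Real.rpow_add h0, Real.rpow_one, Real.rpow_neg h0.le]
    field_simp
  have e' := congrArg (fun x : ℝ => a * (x : ℂ)) e
  simp only [Complex.ofReal_mul L, Complex.ofReal_mul (Real.log l / _), Complex.ofReal_div g l,
    Complex.ofReal_div (Real.log l), Complex.ofReal_natCast] at e'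
  linear_combination e'

end PB

open PB in
theorem pb (hX : Box) (h1 : DSt) (h2 : MertSt) : PBSt := by
  intro j A ε hj hε
  have hj' : (1 : ℝ) ≤ j := by exact_mod_cast hj
  obtain ⟨κ, k0, k1, k2⟩ := kappa hj' (show 0 < ε / 3 by positivity)
  obtain ⟨G, h, hc, g0, g1, g2, g3⟩ := cut (a' := Real.exp (-(j + 1 + κ)))
    (a := Real.exp (-(j + 1))) (b := Real.exp (-j)) (b' := Real.exp (-(j - κ))) (Real.exp_pos _)
    (Real.exp_lt_exp.2 (by linarith)) (Real.exp_le_exp.2 (by linarith))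
    (Real.exp_lt_exp.2 (by linarith)) (Real.exp_lt_one_iff.2 (by linarith))
  obtain ⟨p, hp⟩ := exists_polynomial_near_of_continuousOn 0 1 h hc.continuousOn (ε / 6)
    (by positivity)
  obtain ⟨m1, ⟨C, hC, m2⟩, -⟩ := h2
  obtain ⟨K, hK⟩ : ∃ K, K = ∑ i ∈ range (p.natDegree + 1), |p.coeff i| := ⟨_, rfl⟩
  have hK0 : 0 ≤ K := hK ▸ sum_nonneg fun _ _ => abs_nonneg _
  have t1 := ((m1 (j - κ) (j + 1 + κ) (by linarith) (by linarith)).sub
    (m1 j (j + 1) (by linarith) (by linarith))).eventually (gt_mem_nhds k2)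
  filter_upwards [h1 A (ε / (3 * (K + 1))) (by positivity), t1, eventually_gt_atTop 1,
    Real.tendsto_log_atTop.eventually_ge_atTop (2 * C),
    Real.tendsto_log_atTop.eventually_ge_atTop (p.natDegree + 1)] with y d1 d2 hy d3 d4 t ht hA'
  have hL := Real.log_pos hy
  have hy0 : 0 < y := by linarith
  have hn : (0 : ℝ) ≤ p.natDegree := Nat.cast_nonneg _
  obtain ⟨s1, s2⟩ := m2 (1 + 1 / Real.log y) (by simpa using hL) (by
    have : 1 / Real.log y ≤ 1 := (div_le_one hL).2 (by linarith)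
    linarith)
  have c := core (fp t) (fp_le t) hL h p (by positivity) hp s1 (W := 2 * Real.log y)
    (E := ε / (3 * (K + 1)) * Real.log y) (s2.trans (by
      rw [add_sub_cancel_left, div_div_eq_mul_div, div_one]
      linarith)) fun i hi => d1 t ht hA' _ (by
        have : 0 < ((i : ℝ) + 1) / Real.log y := by positivity
        linarith) (by
        have h5 : (i : ℝ) ≤ p.natDegree := by exact_mod_cast hi
        have : ((i : ℝ) + 1) / Real.log y ≤ 1 := (div_le_one hL).2 (by linarith)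
        linarith)
  rw [tsum_eq_sum (s := sp (y ^ ((j : ℝ) - κ)) (y ^ ((j : ℝ) + 1 + κ))) (fun l hl => by
    by_cases hs : Split l
    · rw [mem_sp (by positivity)] at hl
      have : h ((l : ℝ) ^ (-(1 / Real.log y))) = 0 := by
        refine g2 _ ?_
        by_contra hcon
        rw [not_or, not_le, not_le] at hcon
        exact hl ⟨hs, not_le.1 fun h6 => hcon.2.not_ge ((X_le hy hs.1.pos _).2 h6),
          (X_le hy hs.1.pos _).1 hcon.1.le⟩
      simp [-one_div, this]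
    · simp [fp, hs])] at c
  rw [sum_congr rfl (g := fun l : ℕ => (Real.log y : ℂ) *
      (fp t l / l * (G ((l : ℝ) ^ (-(1 / Real.log y))) : ℝ))) (fun l hl => by
    obtain ⟨hs, l1, l2⟩ := (mem_sp (by positivity) l).1 hl
    rw [g3 _ ((X_le hy hs.1.pos _).2 l2) (not_le.1 fun h6 =>
      l1.not_ge ((X_le hy hs.1.pos _).1 h6)).le, term _ _ hL hs.1.one_lt]), ← mul_sum, norm_mul,
    Complex.norm_real, Real.norm_of_nonneg hL.le, ← hK] at c
  have sub : sp (y ^ (j : ℝ)) (y ^ ((j : ℝ) + 1)) ⊆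
      sp (y ^ ((j : ℝ) - κ)) (y ^ ((j : ℝ) + 1 + κ)) := fun l hl => by
    obtain ⟨hs, l1, l2⟩ := (mem_sp (by positivity) l).1 hl
    exact (mem_sp (by positivity) l).2
      ⟨hs, (Real.rpow_le_rpow_of_exponent_le hy.le (by linarith)).trans_lt l1,
        l2.trans (Real.rpow_le_rpow_of_exponent_le hy.le (by linarith))⟩
  have e1 : hat (Bx y j) id t = ∑ l ∈ sp (y ^ (j : ℝ)) (y ^ ((j : ℝ) + 1)),
      fp t l / l * (G ((l : ℝ) ^ (-(1 / Real.log y))) : ℝ) := by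
    rw [hX.hat_Bx, ← Real.rpow_natCast, ← Real.rpow_natCast, Nat.cast_succ]
    refine sum_congr rfl fun l hl => ?_
    obtain ⟨hs, l1, l2⟩ := (mem_sp (by positivity) l).1 hl
    rw [g1 _ ((X_le hy hs.1.pos _).2 l2) (not_le.1 fun h6 =>
      l1.not_ge ((X_le hy hs.1.pos _).1 h6)).le]
    simp
  rw [e1, ← sub_sub_cancel (∑ l ∈ sp (y ^ ((j : ℝ) - κ)) (y ^ ((j : ℝ) + 1 + κ)),
    fp t l / l * (G ((l : ℝ) ^ (-(1 / Real.log y))) : ℝ)) (∑ l ∈ sp (y ^ (j : ℝ)) _, _),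
    ← sum_sdiff_eq_sub sub]
  rw [← sum_sdiff_eq_sub sub] at d2
  refine (norm_sub_le _ _).trans ?_
  have b2 : ‖∑ l ∈ sp (y ^ ((j : ℝ) - κ)) (y ^ ((j : ℝ) + 1 + κ)) \
      sp (y ^ (j : ℝ)) (y ^ ((j : ℝ) + 1)),
      fp t l / l * (G ((l : ℝ) ^ (-(1 / Real.log y))) : ℝ)‖ ≤ ε / 3 := by
    refine (norm_sum_le_of_le _ fun l _ => ?_).trans d2.le
    rw [norm_mul, norm_div, Complex.norm_real, Real.norm_eq_abs, Complex.norm_natCast]
    refine (mul_le_of_le_one_right (by positivity) (g0 _)).trans ?_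
    gcongr
    refine (fp_le t l).trans ?_
    split_ifs <;> norm_num
  have b3 : K * (ε / (3 * (K + 1))) ≤ ε / 3 := by
    rw [mul_div_assoc', div_le_div_iff₀ (by positivity) (by positivity)]
    nlinarith
  have b4 := le_of_mul_le_mul_left (c.trans (show _ ≤ Real.log y * (2 * ε / 3) by
    nlinarith [mul_le_mul_of_nonneg_left b3 hL.le])) hL
  linarith

end Pool.Agent.Lib.MP_4b1228_nt.GS
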