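import Pool.Agent.Lib.MP_4b1228_nt.GS.PW1

/-! The pointwise bound for the smooth sums. -/

namespace Pool.Agent.Lib.MP_4b1228_nt.GS

open Finset Filter Pool.Agent.Lib.MP_9d27bc_nt.C Pool.Agent.Lib.MP_9d27bc_nt.C.Two
open scoped Classical

noncomputable section

namespace PW

theorem triv (hB : Bas) {P P' : ℝ} (h1 : 1 ≤ P) (hP : P ≤ P') (hP' : P' ≤ 2 * P) (E : GI → Prop)
    (φ : GI → ℂ) {D : ℝ} (hD : 0 ≤ D) (h : ∀ m ∈ Sq P P', ‖φ m‖ ≤ D) :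
    ‖∑ m ∈ Sq P P' with E m, φ m / (nm m : ℂ)‖ ≤ 40 * D := by
  refine (norm_sum_le _ _).trans (le_trans (sum_le_sum fun m hm => ?_)
    ((sum_mul _ _ D).ge.trans (mul_le_mul_of_nonneg_right
      (mass hB h1 hP hP' _ (filter_subset E _)) hD)))
  rw [norm_div, Complex.norm_natCast, one_div_mul_eq_div]
  gcongr
  exact h m (mem_filter.1 hm).1

theorem avg (hB : Bas) {P P' : ℝ} (q H : ℕ) (c : GI) (t : ℤ) (hP : P ≤ P') (hP' : P' ≤ 2 * P)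
    (hq : 1 ≤ q) (hH : 1 ≤ H) (hE : (q : ℝ) * H ≤ P) {D : ℝ} (hD : 0 ≤ D)
    (h : ∀ m ∈ Sq P P', ‖∑ h ∈ sqr 0 0 H, xi t (m + q * h)‖ ≤ (H : ℝ) ^ 2 * D) :
    ‖sm (cls q c) P P' t‖ ≤ 1200 * (q * H) / P + 40 * D := by
  have q1 : (1 : ℝ) ≤ q := by exact_mod_cast hq
  have H1 : (1 : ℝ) ≤ H := by exact_mod_cast hH
  have E1 : (1 : ℝ) ≤ q * H := one_le_mul_of_one_le_of_one_le q1 H1
  have a1 : ∀ h ∈ sqr 0 0 H, (mx (q * h) : ℝ) ≤ q * H := fun h hh => by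
    obtain ⟨k1, k2, k3, k4⟩ := (mem_sqr _ _ _ _).1 hh
    have e1 : ((q : GI) * h).re = q * h.re := by simp
    have e2 : ((q : GI) * h).im = q * h.im := by simp
    have : mx (q * h) ≤ q * H := by
      rw [mx, e1, e2, Int.natAbs_mul, Int.natAbs_mul, Int.natAbs_natCast]
      exact max_le (Nat.mul_le_mul_left _ (by omega)) (Nat.mul_le_mul_left _ (by omega))
    exact_mod_cast this
  have e : ((H : ℂ) ^ 2) * sm (cls q c) P P' t =
      ∑ h ∈ sqr 0 0 H, (sm (cls q c) P P' t -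
        ∑ m ∈ Sq P P' with cls q c m, xi t (m + q * h) / (nm m : ℂ)) +
      ∑ m ∈ Sq P P' with cls q c m, (∑ h ∈ sqr 0 0 H, xi t (m + q * h)) / (nm m : ℂ) := by
    simp only [sum_div]
    rw [sum_sub_distrib, sum_comm, sub_add_cancel, sum_const, card_sqr, nsmul_eq_mul]
    push_cast
    rfl
  have b1 := (norm_sum_le _ _).trans (sum_le_card_nsmul _ _ _ fun h hh =>
    sm_shift hB q c h t hP hP' E1 hE (a1 h hh))
  have b2 := triv hB (E1.trans hE) hP hP' (cls q c) _ (by positivity) h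
  rw [card_sqr, nsmul_eq_mul] at b1
  have b3 := (norm_add_le _ _).trans (add_le_add b1 b2)
  rw [← e, norm_mul, norm_pow, Complex.norm_natCast] at b3
  push_cast at b3
  refine le_of_mul_le_mul_left (b3.trans_eq ?_) (by positivity : (0 : ℝ) < (H : ℝ) ^ 2)
  ring

theorem alpha (hB : Bas) {P P' r : ℝ} (q : ℕ) (t : ℤ) (h0 : 0 < P) (hP' : P' ≤ 2 * P)
    (hr : r ^ 4 = |(t : ℝ)| * q ^ 3 / P ^ 3) {m : GI} (hm : m ∈ Sq P P') :
    r ^ 4 / 144 ≤ ‖((2 * t / (3 * Real.pi) : ℝ) : ℂ) * ((q : ℂ) / m) ^ 3‖ ∧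
      ‖((2 * t / (3 * Real.pi) : ℝ) : ℂ) * ((q : ℂ) / m) ^ 3‖ ≤ r ^ 4 / 4 := by
  obtain ⟨m1, m2⟩ := (hB.mem_Sq _ _ _).1 hm
  obtain ⟨n1, n2⟩ := nrm hB m
  have p1 := Real.pi_gt_three
  have p2 := Real.pi_lt_d2
  rw [norm_mul, norm_pow, norm_div, Complex.norm_natCast, Complex.norm_real, Real.norm_eq_abs,
    abs_div, abs_mul, abs_two, abs_of_pos (by positivity : 0 < 3 * Real.pi), hr]
  have x1 : P ≤ ‖(m : ℂ)‖ := by linarith
  have x2 : ‖(m : ℂ)‖ ≤ 3 * P := by linarith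
  constructor
  · calc |(t : ℝ)| * q ^ 3 / P ^ 3 / 144 ≤ |(t : ℝ)| * q ^ 3 / P ^ 3 / 135 := by
          gcongr
          norm_num
      _ = 2 * |(t : ℝ)| / 10 * (q / (3 * P)) ^ 3 := by field_simp; ring
      _ ≤ _ := by
          gcongr
          · linarith
          · linarith
  · calc _ ≤ 2 * |(t : ℝ)| / 8 * (q / P) ^ 3 := by
          gcongr
          linarith
      _ = _ := by field_simp; ring

theorem block (hB : Bas) {ε C : ℝ} (hε : 0 < ε) (hC : 0 < C)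
    (h : ∀ (H : ℕ) (α β γ : ℂ), 1 ≤ H → α ≠ 0 → ‖α‖ * (H : ℝ) ^ 2 ≤ 1 / 100 →
      ‖∑ h ∈ sqr 0 0 H, Complex.exp (2 * Real.pi * Complex.I *
        ((α * (h : ℂ) ^ 3 + β * (h : ℂ) ^ 2 + γ * (h : ℂ)).im : ℝ))‖ ≤
        C * (H : ℝ) ^ (1 / 2 + ε) / √‖α‖)
    {P P' r u : ℝ} (q : ℕ) (c : GI) (t : ℤ) (h1 : 1 ≤ P) (hP : P ≤ P') (hP' : P' ≤ 2 * P)
    (hq : 1 ≤ q) (r0 : 0 < r) (hr : r ^ 4 = |(t : ℝ)| * q ^ 3 / P ^ 3) (u1 : 1 ≤ u)
    (hu : u ^ 11 = |(t : ℝ)|) :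
    ‖sm (cls q c) P P' t‖ ≤ (16000 * C + 300) * P ^ ε * (r + 1 / u) := by
  have P0 : 0 < P := by linarith
  have u0 : 0 < u := by linarith
  have q1 : (1 : ℝ) ≤ q := by exact_mod_cast hq
  have e1 : 1 ≤ P ^ ε := Real.one_le_rpow h1 hε.le
  have v0 : 0 < 1 / u := by positivity
  set Y := min (1 / (5 * r ^ 2)) (P / (5 * q * u ^ 3)) with hY
  rcases lt_or_ge Y 1 with k | k
  · have r1 : 1 / 5 ≤ r := by
      rcases min_lt_iff.1 k with k | k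
      · rw [div_lt_one (by positivity)] at k
        nlinarith
      · rw [div_lt_one (by positivity)] at k
        refine le_of_pow_le_pow_left₀ (n := 4) (by norm_num) r0.le ?_
        rw [hr, ← hu, le_div_iff₀ (by positivity)]
        calc (1 / 5) ^ 4 * P ^ 3 ≤ (1 / 5) ^ 3 * (5 * q * u ^ 3) ^ 3 := by
              gcongr ?_ * ?_
              · norm_num
              · gcongr
          _ = u ^ 9 * q ^ 3 := by ring
          _ ≤ u ^ 11 * q ^ 3 := by gcongr; norm_num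
    have b := triv hB h1 hP hP' (cls q c) (xi t) zero_le_one fun m _ => hB.xi_le t m
    calc ‖sm (cls q c) P P' t‖ ≤ 40 * 1 := b
      _ ≤ 300 * 1 * r := by linarith
      _ ≤ _ := by gcongr <;> linarith
  obtain ⟨H, H1, H2, H3⟩ : ∃ H : ℕ, 1 ≤ H ∧ (H : ℝ) ≤ Y ∧ Y ≤ 2 * H := by
    have k1 : 1 ≤ ⌊Y⌋₊ := Nat.le_floor (by simpa using k)
    have k2 : (1 : ℝ) ≤ ⌊Y⌋₊ := by exact_mod_cast k1
    exact ⟨⌊Y⌋₊, k1, Nat.floor_le (by linarith), by linarith [Nat.lt_floor_add_one Y]⟩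
  have H0 : (1 : ℝ) ≤ H := by exact_mod_cast H1
  have a1 : (H : ℝ) * (5 * r ^ 2) ≤ 1 := (le_div_iff₀ (by positivity)).1 (H2.trans (min_le_left _ _))
  have a2 : (H : ℝ) * (5 * q * u ^ 3) ≤ P :=
    (le_div_iff₀ (by positivity)).1 (H2.trans (min_le_right _ _))
  have u3 : u ≤ u ^ 3 := le_self_pow₀ u1 (by norm_num)
  have a3 : (q : ℝ) * H / P ≤ 1 / (5 * u ^ 3) := by
    rw [div_le_div_iff₀ P0 (by positivity)]
    linarith
  have a4 : 1 / (5 * u ^ 3) ≤ 1 / 5 * (1 / u) := by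
    rw [one_div_mul_one_div]
    gcongr
  have v1 : 1 / u ≤ 1 := (div_le_one u0).2 u1
  have a5 : (q : ℝ) * H ≤ P := (div_le_one P0).1 (by linarith)
  have a6 : (H : ℝ) ≤ P := (le_mul_of_one_le_left (by positivity) q1).trans a5
  obtain ⟨s, s0, hs⟩ : ∃ s : ℝ, 0 < s ∧ s ^ 2 = H := ⟨√H, by positivity, Real.sq_sqrt (by positivity)⟩
  have a7 : 1 / 32 ≤ s ^ 3 * r ^ 2 * (r + 1 / u) := by
    refine le_of_pow_le_pow_left₀ two_ne_zero (by positivity) ?_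
    have k1 : (s ^ 3 * r ^ 2 * (r + 1 / u)) ^ 2 = (2 * H) ^ 3 / 8 * r ^ 4 * (r + 1 / u) ^ 2 := by
      rw [← hs]; ring
    rw [k1]
    refine le_trans (by norm_num : ((1 : ℝ) / 32) ^ 2 ≤ 1 / 1000) ?_
    rcases min_choice (1 / (5 * r ^ 2)) (P / (5 * q * u ^ 3)) with k2 | k2 <;> rw [hY, k2] at H3
    · calc (1 : ℝ) / 1000 = (1 / (5 * r ^ 2)) ^ 3 / 8 * r ^ 4 * r ^ 2 := by field_simp; norm_num
        _ ≤ _ := by gcongr; linarith
    · calc (1 : ℝ) / 1000 = (P / (5 * q * u ^ 3)) ^ 3 / 8 * r ^ 4 * (1 / u) ^ 2 := by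
            rw [hr, ← hu]; field_simp; norm_num
        _ ≤ _ := by gcongr; linarith
  have key : ∀ m ∈ Sq P P', ‖∑ h ∈ sqr 0 0 H, xi t (m + q * h)‖ ≤
      (H : ℝ) ^ 2 * (384 * C * P ^ ε * (r + 1 / u) + 1 / u) := fun m hm => by
    obtain ⟨m1, m2⟩ := (hB.mem_Sq _ _ _).1 hm
    have n1 : P ≤ ‖(m : ℂ)‖ := m1.le.trans (nrm hB m).1
    have m0 : m ≠ 0 := fun k => by
      rw [k, map_zero, norm_zero] at n1
      linarith
    obtain ⟨b1, b2⟩ := alpha hB q t P0 hP' hr hm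
    have b3 := short hB q H m t (δ := 3 / 2 * (1 / (5 * u ^ 3))) m0 (by linarith) fun h' hh => by
      obtain ⟨k1, k2, k3, k4⟩ := (mem_sqr _ _ _ _).1 hh
      have k5 : (mx h' : ℝ) ≤ H := by
        have : mx h' ≤ H := by unfold mx; omega
        exact_mod_cast this
      rw [norm_mul, norm_div, Complex.norm_natCast]
      calc ‖(h' : ℂ)‖ * (q / ‖(m : ℂ)‖) ≤ 3 / 2 * H * (q / P) := by
            gcongr
            linarith [(nrm hB h').2]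
        _ = 3 / 2 * (q * H / P) := by ring
        _ ≤ _ := by gcongr
    have b4 := h H _ (((-(t / Real.pi) : ℝ) : ℂ) * ((q : ℂ) / m) ^ 2)
      (((2 * t / Real.pi : ℝ) : ℂ) * ((q : ℂ) / m)) H1
      (norm_pos_iff.1 (lt_of_lt_of_le (by positivity) b1)) (by
        calc _ ≤ r ^ 4 / 4 * (H : ℝ) ^ 2 := by gcongr
          _ = (H * (5 * r ^ 2)) ^ 2 / 100 := by ring
          _ ≤ 1 ^ 2 / 100 := by gcongr
          _ = _ := by norm_num)
    refine b3.trans ((add_le_add b4 le_rfl).trans ?_)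
    rw [mul_add]
    refine add_le_add ?_ (mul_le_mul_of_nonneg_left ?_ (by positivity))
    · have k1 : r ^ 2 / 12 ≤ √‖((2 * t / (3 * Real.pi) : ℝ) : ℂ) * ((q : ℂ) / m) ^ 3‖ :=
        Real.le_sqrt_of_sq_le (by linarith)
      have k2 : (H : ℝ) ^ (1 / 2 + ε) ≤ s * P ^ ε := by
        rw [Real.rpow_add (by linarith), ← Real.sqrt_eq_rpow, ← hs, Real.sqrt_sq s0.le, hs]
        gcongr
      calc _ ≤ C * (s * P ^ ε) / (r ^ 2 / 12) := by gcongr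
        _ = 384 * C * P ^ ε * s / r ^ 2 * (1 / 32) := by field_simp; ring
        _ ≤ 384 * C * P ^ ε * s / r ^ 2 * (s ^ 3 * r ^ 2 * (r + 1 / u)) := by gcongr
        _ = _ := by rw [← hs]; field_simp
    · rw [← hu]
      calc 4 * u ^ 11 * (3 / 2 * (1 / (5 * u ^ 3))) ^ 4 = 4 * (3 / 10) ^ 4 * (1 / u) := by
            field_simp; ring
        _ ≤ 1 * (1 / u) := by gcongr; norm_num
        _ = _ := one_mul _
  refine (avg hB q H c t hP hP' hq H1 a5 (by positivity) key).trans ?_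
  have c1 : 1 / u ≤ P ^ ε * (r + 1 / u) := by nlinarith
  have c2 : 0 ≤ C * (P ^ ε * (r + 1 / u)) := by positivity
  rw [mul_div_assoc]
  nlinarith

theorem sm_add (hB : Bas) (E : GI → Prop) {a b c : ℝ} (h1 : a ≤ b) (h2 : b ≤ c) (t : ℤ) :
    sm E a c t = sm E a b t + sm E b c t := by
  unfold sm
  rw [← sum_union]
  · refine sum_congr ?_ fun _ _ => rfl
    ext m
    simp only [mem_union, mem_filter, hB.mem_Sq]
    constructor
    · rintro ⟨⟨k1, k2⟩, k3⟩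
      rcases le_or_gt (mx m : ℝ) b with k | k
      exacts [Or.inl ⟨⟨k1, k⟩, k3⟩, Or.inr ⟨⟨k, k2⟩, k3⟩]
    · rintro (⟨⟨k1, k2⟩, k3⟩ | ⟨⟨k1, k2⟩, k3⟩)
      exacts [⟨⟨k1, k2.trans h2⟩, k3⟩, ⟨⟨h1.trans_lt k1, k2⟩, k3⟩]
  · refine disjoint_left.2 fun m k1 k2 => ?_
    simp only [mem_filter, hB.mem_Sq] at k1 k2
    linarith [k1.1.2, k2.1.1]

theorem dyad (hB : Bas) (E : GI → Prop) (t : ℤ) {P₁ M B : ℝ} (h0 : 0 ≤ P₁) (hB0 : 0 ≤ B)
    (h : ∀ P P', P₁ ≤ P → P ≤ P' → P' ≤ 2 * P → P' ≤ M → ‖sm E P P' t‖ ≤ B) :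
    ∀ (k : ℕ) (P₂ : ℝ), P₁ ≤ P₂ → P₂ ≤ 2 ^ (k + 1) * P₁ → P₂ ≤ M → ‖sm E P₁ P₂ t‖ ≤ (k + 1) * B
  | 0, P₂, h1, h2, h3 => by simpa using h P₁ P₂ le_rfl h1 (by simpa using h2) h3
  | k + 1, P₂, h1, h2, h3 => by
    have k0 : (0 : ℝ) ≤ (k + 1) * B := by positivity
    push_cast
    rcases le_total P₂ (2 * P₁) with h4 | h4
    · linarith [h P₁ P₂ le_rfl h1 h4 h3]
    · have h5 : P₂ / 2 ≤ P₂ := by linarith
      rw [sm_add hB E (by linarith : P₁ ≤ P₂ / 2) h5]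
      have a1 := dyad hB E t h0 hB0 h k (P₂ / 2) (by linarith) (by rw [pow_succ] at h2; linarith)
        (h5.trans h3)
      have a2 := h (P₂ / 2) P₂ (by linarith) h5 (by linarith) h3
      linarith [norm_add_le (sm E P₁ (P₂ / 2) t) (sm E (P₂ / 2) P₂ t)]

end PW

open PW

theorem pw (hB : Bas) (h : CubSt) : PWSt := by
  intro ε hε
  have e2 : 0 < ε / 2 := by linarith
  obtain ⟨C, hC, h⟩ := h (ε / 2) e2
  refine ⟨(4 / ε + 2) * (16000 * C + 300), by positivity, fun q c P₁ P₂ t hq h1 h2 ht => ?_⟩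
  have q1 : (1 : ℝ) ≤ q := by exact_mod_cast hq
  have t1 : (1 : ℝ) ≤ |(t : ℝ)| := by exact_mod_cast Int.one_le_abs ht
  have P1 : 1 ≤ P₂ := h1.trans h2
  have e1 : 1 ≤ P₂ ^ (ε / 2) := Real.one_le_rpow P1 e2.le
  have hu : (|(t : ℝ)| ^ (1 / 11 : ℝ)) ^ 11 = |(t : ℝ)| := by
    rw [← Real.rpow_natCast, ← Real.rpow_mul (by linarith)]
    norm_num
  have h4 : ∀ x : ℝ, 0 ≤ x → (x ^ (1 / 4 : ℝ)) ^ 4 = x := fun x hx => by
    rw [← Real.rpow_natCast, ← Real.rpow_mul hx]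
    norm_num
  have a := dyad hB (cls q c) t (P₁ := P₁) (M := P₂) (B := (16000 * C + 300) * P₂ ^ (ε / 2) *
    (q * (|(t : ℝ)| / P₁ ^ 3) ^ (1 / 4 : ℝ) + |(t : ℝ)| ^ (-(1 / 11) : ℝ))) (by linarith)
    (by positivity)
    (fun P P' k1 k2 k3 k4 => by
      have P0 : 0 < P := by linarith
      refine (block hB e2 hC h q c t (h1.trans k1) k2 k3 hq (by positivity)
        (h4 _ (by positivity)) (Real.one_le_rpow t1 (by norm_num)) hu).trans ?_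
      rw [Real.rpow_neg (by linarith), one_div (_ ^ _)]
      gcongr
      · exact k2.trans k4
      · refine le_of_pow_le_pow_left₀ (n := 4) (by norm_num) (by positivity) ?_
        rw [mul_pow, h4 _ (by positivity), h4 _ (by positivity), ← mul_div_assoc, mul_comm _ |_|]
        gcongr
        norm_num)
    ⌈Real.logb 2 P₂⌉₊ P₂ h2 (by
      have k1 : P₂ ≤ 2 ^ (⌈Real.logb 2 P₂⌉₊ : ℝ) :=
        (Real.logb_le_iff_le_rpow one_lt_two (by linarith)).1 (Nat.le_ceil _)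
      rw [Real.rpow_natCast] at k1
      rw [pow_succ]
      nlinarith [pow_pos (two_pos : (0 : ℝ) < 2) ⌈Real.logb 2 P₂⌉₊]) le_rfl
  refine a.trans ?_
  have l0 : 0 ≤ Real.log P₂ := Real.log_nonneg P1
  have b1 : (⌈Real.logb 2 P₂⌉₊ : ℝ) + 1 ≤ (4 / ε + 2) * P₂ ^ (ε / 2) := by
    have k1 := Nat.ceil_lt_add_one (Real.logb_nonneg one_lt_two P1)
    have k2 : Real.logb 2 P₂ ≤ 2 * Real.log P₂ := by
      rw [Real.logb, div_le_iff₀ (Real.log_pos one_lt_two)]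
      nlinarith [Real.log_two_gt_d9]
    have k3 := Real.log_le_rpow_div (by linarith : 0 ≤ P₂) e2
    have k4 : P₂ ^ (ε / 2) / (ε / 2) * 2 = 4 / ε * P₂ ^ (ε / 2) := by field_simp; ring
    linarith
  have b2 : P₂ ^ ε = P₂ ^ (ε / 2) * P₂ ^ (ε / 2) := by
    rw [← Real.rpow_add (by linarith), add_halves]
  calc _ ≤ (4 / ε + 2) * P₂ ^ (ε / 2) * ((16000 * C + 300) * P₂ ^ (ε / 2) *
        (q * (|(t : ℝ)| / P₁ ^ 3) ^ (1 / 4 : ℝ) + |(t : ℝ)| ^ (-(1 / 11) : ℝ))) := by gcongr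
    _ = _ := by rw [b2]; ring

end

end Pool.Agent.Lib.MP_4b1228_nt.GS
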