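import Pool.Agent.Lib.MP_4b1228_nt.GS.St

/-!
The mean square of the smooth sums: four quarters of the plane.
-/

namespace Pool.Agent.Lib.MP_4b1228_nt.GS

open Finset Pool.Agent.Lib.MP_9d27bc_nt.C Pool.Agent.Lib.MP_9d27bc_nt.C.Two
open scoped Classical

namespace S2

/-- one quarter of the plane -/
def Qt (m : GI) : Prop := -m.re < m.im ∧ m.im ≤ m.re

/-- the four units -/
def un : Fin 4 → GI := ![1, -1, ⟨0, 1⟩, ⟨0, -1⟩]

/-- their inverses -/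
def ui : Fin 4 → GI := ![1, -1, ⟨0, -1⟩, ⟨0, 1⟩]

lemma un_ui (k : Fin 4) : un k * ui k = 1 := by fin_cases k <;> decide

lemma ui_un (k : Fin 4) : ui k * un k = 1 := by rw [mul_comm, un_ui]

lemma isU (k : Fin 4) : IsUnit (un k) := IsUnit.of_mul_eq_one _ (un_ui k)

lemma isU' (k : Fin 4) : IsUnit (ui k) := IsUnit.of_mul_eq_one _ (ui_un k)

lemma split (m : GI) (h : m ≠ 0) (z : ℂ) : z = ∑ k : Fin 4, if Qt (un k * m) then z else 0 := by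
  have h' : m.re ≠ 0 ∨ m.im ≠ 0 := by
    by_contra e
    push Not at e
    exact h (Zsqrtd.ext e.1 e.2)
  have e0 : Qt (un 0 * m) ↔ -m.re < m.im ∧ m.im ≤ m.re := by simp [Qt, un]
  have e1 : Qt (un 1 * m) ↔ m.re < -m.im ∧ -m.im ≤ -m.re := by simp [Qt, un]
  have e2 : Qt (un 2 * m) ↔ m.im < m.re ∧ m.re ≤ -m.im := by simp [Qt, un]
  have e3 : Qt (un 3 * m) ↔ -m.im < -m.re ∧ -m.re ≤ m.im := by simp [Qt, un]
  rw [Fin.sum_univ_four]
  split_ifs <;> simp only [e0, e1, e2, e3] at * <;> first | omega | simp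

lemma nm_unit (k : Fin 4) (m : GI) : nm (un k * m) = nm m := by
  have : (un k).norm = 1 := by fin_cases k <;> decide
  rw [nm, nm, Zsqrtd.norm_mul, this, one_mul]

lemma dvd_iff (q : ℕ) (m : GI) : (q : GI) ∣ m ↔ (q : ℤ) ∣ m.re ∧ (q : ℤ) ∣ m.im := by
  rw [← Zsqrtd.intCast_dvd, Int.cast_natCast]

variable (hB : Bas)
include hB

lemma rot (q : ℕ) (c : GI) (P₁ P₂ : ℝ) (t : ℤ) (k : Fin 4) :
    (∑ m ∈ Sq P₁ P₂ with cls q c m, if Qt (un k * m) then xi t m / (nm m : ℂ) else 0) =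
      ∑ m ∈ Sq P₁ P₂ with cls q (un k * c) m ∧ Qt m, xi t m / (nm m : ℂ) := by
  rw [← sum_filter, filter_filter]
  refine sum_nbij' (fun m => un k * m) (fun m => ui k * m) ?_ ?_ ?_ ?_ ?_
  · intro m hm
    rw [mem_filter, hB.mem_Sq, cls] at hm ⊢
    rw [hB.mx_unit _ _ (isU k), ← mul_sub]
    exact ⟨hm.1, hm.2.1.mul_left _, hm.2.2⟩
  · intro m hm
    rw [mem_filter, hB.mem_Sq, cls] at hm ⊢
    rw [hB.mx_unit _ _ (isU' k), ← mul_assoc, un_ui, one_mul]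
    refine ⟨hm.1, ?_, hm.2.2⟩
    have := hm.2.1.mul_left (ui k)
    rwa [mul_sub, ← mul_assoc, ui_un, one_mul] at this
  · intro m _
    show ui k * (un k * m) = m
    rw [← mul_assoc, ui_un, one_mul]
  · intro m _
    show un k * (ui k * m) = m
    rw [← mul_assoc, un_ui, one_mul]
  · intro m _
    rw [hB.xi_unit _ _ _ (isU k), nm_unit]

lemma quarter (q : ℕ) (c : GI) (P₁ P₂ : ℝ) (t : ℤ) :
    ∑ m ∈ Sq P₁ P₂ with cls q c m ∧ Qt m, xi t m / (nm m : ℂ) =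
      ∑ p ∈ (range (⌊P₂⌋₊ + 1)).filter
          fun p : ℕ => P₁ < (p : ℝ) ∧ (p : ℝ) ≤ P₂ ∧ (q : ℤ) ∣ (p : ℤ) - c.re,
        ∑ r ∈ Ioc (-(p : ℤ)) p with (q : ℤ) ∣ r - c.im, xi t ⟨p, r⟩ / (nm ⟨p, r⟩ : ℂ) := by
  rw [sum_sigma']
  symm
  refine sum_nbij' (fun w => (⟨w.1, w.2⟩ : GI)) (fun m => ⟨m.re.natAbs, m.im⟩) ?_ ?_ ?_ ?_ ?_
  · rintro ⟨p, r⟩ hw
    simp only [mem_sigma, mem_filter] at hw ⊢
    simp only [mem_range, mem_Ioc, hB.mem_Sq, cls, dvd_iff, Qt,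
      Zsqrtd.re_sub, Zsqrtd.im_sub] at hw ⊢
    have : mx ⟨p, r⟩ = p := by
      simp only [mx]
      omega
    rw [this]
    exact ⟨⟨hw.1.2.1, hw.1.2.2.1⟩, ⟨hw.1.2.2.2, hw.2.2⟩, hw.2.1⟩
  · intro m hm
    simp only [mem_sigma, mem_filter] at hm ⊢
    simp only [mem_range, mem_Ioc, hB.mem_Sq, cls, dvd_iff, Qt,
      Zsqrtd.re_sub, Zsqrtd.im_sub] at hm ⊢
    obtain ⟨⟨h1, h2⟩, ⟨h3, h4⟩, h5, h6⟩ := hm
    have e : mx m = m.re.natAbs := by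
      simp only [mx]
      omega
    have e' : (m.re.natAbs : ℤ) = m.re := by omega
    rw [e] at h1 h2
    rw [e']
    exact ⟨⟨Nat.lt_succ_of_le (Nat.le_floor h2), h1, h2, h3⟩, ⟨h5, h6⟩, h4⟩
  · rintro ⟨p, r⟩ _
    simp
  · intro m hm
    rw [mem_filter, Qt] at hm
    refine Zsqrtd.ext ?_ rfl
    show (m.re.natAbs : ℤ) = m.re
    omega
  · intro w _
    rfl

end S2

open S2

theorem s2 (hB : Bas) (h : OctSt) : S2St := by
  obtain ⟨C, C0, h⟩ := h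
  refine ⟨16 * C, by positivity, fun q c P₁ P₂ T hq hP => ?_⟩
  set F : Fin 4 → ℤ → ℂ := fun k t =>
    ∑ m ∈ Sq P₁ P₂ with cls q (un k * c) m ∧ Qt m, xi t m / (nm m : ℂ) with hF
  have e : ∀ t, sm (cls q c) P₁ P₂ t = ∑ k, F k t := fun t => by
    simp only [hF, ← rot hB]
    rw [sum_comm]
    refine sum_congr rfl fun m hm => split m ?_ _
    rintro rfl
    have := ((hB.mem_Sq _ _ _).1 (mem_filter.1 hm).1).1
    simp only [mx, Zsqrtd.re_zero, Zsqrtd.im_zero, Int.natAbs_zero, max_self, Nat.cast_zero] at this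
    linarith
  have b : ∀ k, ∑ t ∈ fz T, ‖F k t‖ ^ 2 ≤ C * T * (1 + Real.log (2 * P₁)) / P₁ ^ 2 := fun k => by
    simp only [hF, quarter hB]
    exact h q _ _ P₁ T hq hP fun p hp => (mem_filter.1 hp).2.1
  calc ∑ t ∈ fz T, ‖sm (cls q c) P₁ P₂ t‖ ^ 2 ≤ ∑ t ∈ fz T, 4 * ∑ k, ‖F k t‖ ^ 2 := by
        refine sum_le_sum fun t _ => ?_
        rw [e]
        refine (pow_le_pow_left₀ (norm_nonneg _) (norm_sum_le _ _) 2).trans ?_
        simpa using sq_sum_le_card_mul_sum_sq (s := (univ : Finset (Fin 4)))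
          (f := fun k => ‖F k t‖)
    _ = 4 * ∑ k, ∑ t ∈ fz T, ‖F k t‖ ^ 2 := by rw [← mul_sum, sum_comm]
    _ ≤ 4 * ∑ _k : Fin 4, C * T * (1 + Real.log (2 * P₁)) / P₁ ^ 2 := by
        gcongr with k
        exact b k
    _ = _ := by
        rw [sum_const, card_univ, Fintype.card_fin, nsmul_eq_mul]
        push_cast
        ring

end Pool.Agent.Lib.MP_4b1228_nt.GS
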