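import Pool.Agent.Lib.MP_4b1228_nt.GS.St

/-!
The truncated sum of Moebius and the sign of the sieve weights.
-/

namespace Pool.Agent.Lib.MP_4b1228_nt.GS

open Multiset
open scoped Classical

namespace Sign

theorem ps_cons (F : Multiset ℕ → ℤ) (a : ℕ) (R : Multiset ℕ) : ((a ::ₘ R).powerset.map F).sum =
    (R.powerset.map F).sum + (R.powerset.map fun S => F (a ::ₘ S)).sum := by
  rw [powerset_cons, Multiset.map_add, sum_add, Multiset.map_map]
  rfl

theorem compl (F : Multiset ℕ → ℤ) (R : Multiset ℕ) :
    (R.powerset.map F).sum = (R.powerset.map fun S => F (R - S)).sum := by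
  conv_lhs => rw [← antidiagonal_map_fst, antidiagonal_eq_map_powerset, Multiset.map_map,
    Multiset.map_map]
  rfl

theorem cnt {α : Type} (q : α → Prop) [DecidablePred q] (s : Multiset α) :
    ((s.countP q : ℕ) : ℤ) = (s.map fun a => if q a then (1 : ℤ) else 0).sum := by
  induction s using Multiset.induction_on with
  | empty => simp
  | cons a s ih => rw [countP_cons, map_cons, sum_cons, ← ih]; split_ifs <;> simp [add_comm]

theorem sumz {F : Multiset ℕ → ℤ} {R : Multiset ℕ} (h : ∀ S ≤ R, F S = 0) :
    (R.powerset.map F).sum = 0 :=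
  sum_eq_zero fun x hx => by
    obtain ⟨S, hS, rfl⟩ := mem_map.1 hx
    exact h S (mem_powerset.1 hS)

theorem sum0 {F : Multiset ℕ → ℤ} {R : Multiset ℕ} (h : ∀ S ≤ R, S ≠ 0 → F S = 0) :
    (R.powerset.map F).sum = F 0 := by
  induction R using Multiset.induction_on with
  | empty => simp
  | cons a R ih =>
    rw [ps_cons, ih fun S hS => h S (hS.trans (le_cons_self _ _)),
      sumz fun S hS => h _ (cons_le_cons a hS) cons_ne_zero, add_zero]

theorem sum1 {F : Multiset ℕ → ℤ} {R : Multiset ℕ} (h : ∀ S ≤ R, S.card ≠ 1 → F S = 0) :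
    (R.powerset.map F).sum = (R.map fun c => F {c}).sum := by
  induction R using Multiset.induction_on with
  | empty => simpa using h 0 le_rfl (by simp)
  | cons a R ih =>
    rw [ps_cons, ih fun S hS => h S (hS.trans (le_cons_self _ _)),
      sum0 fun S hS h0 => h _ (cons_le_cons a hS) (by simpa using h0), map_cons, sum_cons, add_comm]
    rfl

theorem sumT {F : Multiset ℕ → ℤ} {R : Multiset ℕ} (h : ∀ S ≤ R, S ≠ R → F S = 0) :
    (R.powerset.map F).sum = F R := by
  rw [compl, sum0 fun S hS h0 => h _ tsub_le_self fun e => h0 ?_, tsub_zero]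
  have := congrArg card e
  rw [card_sub hS] at this
  have h1 := card_le_card hS
  exact card_eq_zero.1 (by omega)

theorem sum_sub' {R S : Multiset ℕ} (h : S ≤ R) : (R - S).sum + S.sum = R.sum := by
  rw [← sum_add, tsub_add_cancel_of_le h]

theorem win1 (p : Par) (m : ℕ) (R : Multiset ℕ) : ((m ::ₘ R).powerset.map p.y0).sum =
    (R.powerset.map fun S => if p.win m S then (-1 : ℤ) ^ S.card else 0).sum := by
  rw [ps_cons, ← sum_map_add]
  refine congrArg _ (map_congr rfl fun S _ => ?_)
  simp only [Par.y0, Par.win, sum_cons, card_cons, pow_succ]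
  split_ifs <;> omega

theorem yY_nonneg (p : Par) (M : Multiset ℕ) : 0 ≤ p.yY M := by
  rw [Par.yY]
  split_ifs <;> positivity

theorem T_eq (p : Par) (M : Multiset ℕ) : p.T M = (M.powerset.map p.y0).sum +
    2 * (M.powerset.map p.yV).sum - (M.powerset.map p.yY).sum := by
  rw [← sum_map_mul_left, ← sum_map_add, ← sum_map_sub]
  rfl

theorem yy_le (p : Par) (M : Multiset ℕ) : |p.yy M| ≤ 13 := by
  have h0 : |p.y0 M| ≤ 1 := by
    rw [Par.y0]
    split_ifs <;> simp
  have h1 : 0 ≤ p.yV M ∧ p.yV M ≤ 2 := by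
    rw [Par.yV]
    split_ifs with h
    · exact ⟨by positivity, by exact_mod_cast h ▸ countP_le_card _ M⟩
    · simp
  have h2 : p.yY M ≤ 8 := by
    have : p.nn M ≤ M.card := countP_le_card _ M
    rw [Par.yY]
    split_ifs <;> omega
  have h3 := yY_nonneg p M
  rw [abs_le] at h0
  rw [Par.yy, abs_le]
  omega

theorem yy_zero {p : Par} (h : p.OK) {M : Multiset ℕ} (hM : p.J₁ ≤ M.sum) : p.yy M = 0 := by
  obtain ⟨h1, h2, h3, -, h5, h6, -, -, -, -, -, -, -, h14, -⟩ := h
  have e1 : p.yV M = 0 := by
    rw [Par.yV]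
    split_ifs
    · rw [countP_eq_zero.2, Nat.cast_zero]
      intro b hb r
      have := le_sum_of_mem hb
      have := r.2.2
      rw [Par.vis] at this
      omega
    · rfl
  have e2 : p.yY M = 0 := by
    rw [Par.yY]
    by_cases c : p.τ ≤ M.sum ∧ ∀ b ∈ M, M.sum < p.g + b
    · have := card_nsmul_le_sum (s := M) (a := M.sum + 1 - p.g) fun b hb => by
        have := c.2 b hb; omega
      rw [if_pos c, if_neg, if_neg] <;> intro e <;> rw [e, smul_eq_mul] at this <;> omega
    · exact if_neg c
  rw [Par.yy, e1, e2, Par.y0, if_neg (by omega)]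
  rfl

theorem ng {g m : ℕ} {R : Multiset ℕ} (h : ¬Good g (m ::ₘ R)) {S : Multiset ℕ} (hS : S ≤ R)
    (h1 : g ≤ S.sum) : (R - S).sum < g := by
  by_contra h2
  exact h ⟨S, R - S, {m}, by rw [add_tsub_cancel_of_le hS, add_comm, singleton_add],
    singleton_ne_zero m, h1, not_lt.1 h2⟩

/-- The case without positive correction. -/
theorem T0_le {p : Par} (h : p.OK) {m : ℕ} {R : Multiset ℕ} (hm : ∀ x ∈ R, m ≤ x)
    (hJ : p.J₁ ≤ m + R.sum) (hG : ¬Good p.g (m ::ₘ R)) (hτ : m < p.τ) :
    ((m ::ₘ R).powerset.map p.y0).sum ≤ ((m ::ₘ R).powerset.map p.yY).sum := by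
  obtain ⟨h1, h2, h3, -⟩ := h
  let E : Multiset ℕ → ℤ := fun S => if p.win m S ∧ Even S.card ∧ S.sum < p.g then 1 else 0
  let A : Multiset ℕ → ℤ := fun S => if p.win m S ∧ ¬Even S.card then 1 else 0
  have e1 : (R.powerset.map fun S => (if p.win m S then (-1 : ℤ) ^ S.card else 0) + A S).sum ≤
      (R.powerset.map fun S => E S + (A (R - S) + E (R - S))).sum := by
    refine sum_map_le_sum_map _ _ fun S hS => ?_
    have hS' := mem_powerset.1 hS
    have s1 := sum_sub' hS'
    have s2 := ng hG hS'
    rcases Nat.even_or_odd S.card with e | e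
    · simp only [E, A, e, e.neg_one_pow, Par.win, not_true, and_false, true_and, if_false]
      by_cases e' : Even (R - S).card <;> simp only [e', not_true, not_false_iff, and_true,
        and_false, true_and, false_and, if_false] <;> split_ifs <;> omega
    · simp only [E, A, Nat.not_even_iff_odd.2 e, e.neg_one_pow, not_false_iff, and_true,
        false_and, and_false, if_false]
      split_ifs <;> omega
  rw [sum_map_add, sum_map_add, sum_map_add, ← compl A, ← compl E, ← win1] at e1
  have e2 : (R.powerset.map fun S => 2 * E S).sum ≤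
      (R.powerset.map fun S => p.yY (m ::ₘ S)).sum := by
    refine sum_map_le_sum_map _ _ fun S hS => ?_
    simp only [E]
    split_ifs with c
    · obtain ⟨⟨c1, c2⟩, ⟨k, c3⟩, c4⟩ := c
      have hS' := mem_powerset.1 hS
      have c5 := card_nsmul_le_sum (s := S) (a := m) fun b hb => hm b (mem_of_le hS' hb)
      have c6 : S.card = 2 := by
        rcases Nat.lt_trichotomy k 1 with l | l | l
        · obtain rfl : S = 0 := card_eq_zero.1 (by omega)
          rw [sum_zero] at c2
          omega
        · omega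
        · have := Nat.mul_le_mul_right m (show 4 ≤ S.card by omega)
          rw [smul_eq_mul] at c5
          omega
      rw [Par.yY, if_pos, if_pos (by rw [card_cons, c6])]
      · omega
      · rw [sum_cons]
        refine ⟨by omega, fun b hb => ?_⟩
        rcases mem_cons.1 hb with rfl | hb
        · omega
        · have := hm b (mem_of_le hS' hb)
          omega
    · simpa using yY_nonneg p _
  have e3 : 0 ≤ (R.powerset.map p.yY).sum := sum_nonneg fun x hx => by
    obtain ⟨S, -, rfl⟩ := mem_map.1 hx
    exact yY_nonneg p S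
  rw [sum_map_mul_left] at e2
  rw [ps_cons p.yY]
  omega

/-- The case with a positive correction. -/
theorem T_row {p : Par} (h : p.OK) {P b : ℕ} {O : Multiset ℕ} (hb : b ∈ O) (r : p.row P b)
    (hJ : p.J₁ ≤ P + O.sum) (hJ' : P + O.sum ≤ p.J₂) (hG : ¬Good p.g (P ::ₘ O)) :
    p.T (P ::ₘ O) ≤ 0 := by
  obtain ⟨h1, h2, h3, -, h5, h6, h7, -, -, -, -, -, -, h14, -⟩ := h
  have hu : ∀ {c}, p.row P c → p.u₂ + (P + c) ≤ p.J₁ := fun r => by
    have := r.2.2
    rw [Par.vis] at this
    omega
  have r1 := r.1
  have r2 := r.2.1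
  have r3 := hu r
  have c2 : 2 ≤ O.card := by
    by_contra c
    obtain ⟨O', rfl⟩ := exists_cons_of_mem hb
    obtain rfl : O' = 0 := card_eq_zero.1 (by rw [card_cons] at c; omega)
    rw [sum_cons, sum_zero] at hJ
    omega
  have H : ∀ c ∈ O, O.sum < p.g + c := fun c hc => by
    obtain ⟨O', rfl⟩ := exists_cons_of_mem hc
    by_contra n
    rw [sum_cons] at n
    exact hG ⟨{P}, O', {c}, by rw [singleton_add, add_comm, singleton_add, cons_swap],
      singleton_ne_zero c, by simpa using r1, by omega⟩
  have H1 : ∀ S ≤ O, S ≠ O → S.sum < p.g := fun S hS n => by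
    obtain ⟨c, hc⟩ := lt_iff_cons_le.1 (lt_of_le_of_ne hS n)
    have := H c (mem_of_le hc (mem_cons_self _ _))
    have := sum_sub' hc
    rw [sum_cons] at this
    omega
  have H2 : ∀ c ∈ O, c < p.g := fun c hc => by
    simpa using H1 {c} (singleton_le.2 hc) fun e => by simp [← e] at c2
  have c4 : O.card ≤ 4 := by
    by_contra c
    have := card_nsmul_le_sum (s := O) (a := O.sum + 1 - p.g) fun c hc => by
      have := H c hc; omega
    have := Nat.mul_le_mul_right (O.sum + 1 - p.g) (show 5 ≤ O.card by omega)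
    rw [smul_eq_mul] at *
    omega
  have e0 : ((P ::ₘ O).powerset.map p.y0).sum = -1 - (-1) ^ O.card := by
    have a1 : (O.powerset.map fun S => (-1 : ℤ) ^ S.card).sum = 0 := by
      obtain ⟨O', rfl⟩ := exists_cons_of_mem hb
      rw [ps_cons, ← sum_map_add]
      exact sumz fun S _ => by rw [card_cons, pow_succ]; ring
    have a2 : (O.powerset.map fun S => (-1 : ℤ) ^ S.card - p.y0 S).sum = _ :=
      sumT fun S hS n => by
        have := H1 S hS n
        rw [Par.y0, if_pos (by omega), sub_self]
    have a3 : (O.powerset.map fun S => p.y0 (P ::ₘ S)).sum = _ := sum0 fun S hS n => by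
      obtain ⟨c, hc⟩ := exists_mem_of_ne_zero n
      have := H c (mem_of_le hS hc)
      have := le_sum_of_mem hc
      rw [Par.y0, sum_cons, if_neg (by omega)]
    rw [sum_map_sub, a1, Par.y0, if_neg (by omega)] at a2
    rw [Par.y0, sum_cons, sum_zero, if_pos (by omega), card_cons, card_zero] at a3
    rw [ps_cons, a3]
    linear_combination -a2
  have e1 : ((P ::ₘ O).powerset.map p.yV).sum = (O.countP (p.row P) : ℕ) := by
    rw [ps_cons, sumz, sum1, zero_add, cnt]
    · refine congrArg _ (map_congr rfl fun c hc => ?_)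
      have := H2 c hc
      have n : ¬ p.row c P := fun n => by have := n.1; omega
      rw [Par.yV, if_pos (by simp), countP_cons, ← cons_zero c, countP_cons, countP_zero, sum_cons,
        sum_cons, sum_zero, add_zero, Nat.add_sub_cancel, Nat.add_sub_cancel_left, if_neg n]
      split_ifs <;> simp
    · exact fun S _ n => if_neg (by rw [card_cons]; omega)
    · intro S hS
      rw [Par.yV]
      split_ifs with c
      · rw [countP_eq_zero.2, Nat.cast_zero]
        intro x hx n
        obtain ⟨x1, x2, rfl⟩ := card_eq_two.1 c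
        have := H2 x1 (mem_of_le hS (by simp))
        have := H2 x2 (mem_of_le hS (by simp))
        have := n.1
        simp only [insert_eq_cons, mem_cons, mem_singleton, sum_cons, sum_singleton] at hx this
        omega
      · rfl
  have e2 : p.yY O ≤ ((P ::ₘ O).powerset.map p.yY).sum :=
    single_le_sum (fun x hx => by
      obtain ⟨S, -, rfl⟩ := mem_map.1 hx
      exact yY_nonneg p S) _ (mem_map_of_mem _ (mem_powerset.2 (le_cons_self _ _)))
  have e3 : ((O.countP (p.row P) : ℕ) : ℤ) ≤ (p.nn O : ℕ) := by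
    rw [Par.nn, cnt, cnt]
    refine sum_map_le_sum_map _ _ fun c _ => ?_
    by_cases r : p.row P c
    · rw [if_pos r, if_pos]
      have := r.2.2
      rw [Par.vis] at this ⊢
      omega
    · rw [if_neg r]
      split_ifs <;> simp
  rw [T_eq, e0, e1]
  rw [Par.yY, if_pos ⟨by omega, H⟩] at e2
  rcases (show O.card = 2 ∨ O.card = 3 ∨ O.card = 4 by omega) with c | c | c
  · have e4 : countP (p.row P) O ≤ 1 := by
      obtain ⟨x1, x2, rfl⟩ := card_eq_two.1 c
      rw [insert_eq_cons, ← cons_zero x2, countP_cons, countP_cons, countP_zero]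
      rw [insert_eq_cons, sum_cons, sum_singleton] at hJ hJ'
      split_ifs with a a'
      · have := hu a
        have := hu a'
        omega
      all_goals omega
    rw [c] at e2 ⊢
    norm_num at e2 ⊢
    omega
  · rw [c] at e2 ⊢
    norm_num at e2 ⊢
    omega
  · rw [c] at e2 ⊢
    norm_num at e2 ⊢
    omega

end Sign

open Sign

theorem win : WinSt := by
  refine fun p m R => ⟨win1 p m R, fun h1 h2 => ?_⟩
  let E : Multiset ℕ → ℤ := fun S => if p.win m S ∧ Even S.card then 1 else 0
  have e1 : (R.powerset.map fun S => E S - E (R - S)).sum = 0 := by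
    rw [sum_map_sub, ← compl E, sub_self]
  rw [win1, cnt, ← sum_map_neg]
  refine (add_zero _).symm.trans_le ((congrArg (_ + ·) e1.symm).trans_le ?_)
  rw [← sum_map_add]
  refine sum_map_le_sum_map _ _ fun S hS => ?_
  have hS' := mem_powerset.1 hS
  have s1 := sum_sub' hS'
  rcases Nat.even_or_odd S.card with e | e
  · simp only [E, e, e.neg_one_pow, Nat.not_odd_iff_even.2 e, and_true, false_and, and_false,
      if_false]
    split_ifs <;> omega
  · have e' : Even (R - S).card := by
      rw [card_sub hS']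
      exact Nat.Odd.sub_odd h2 e
    simp only [E, e, e', Nat.not_even_iff_odd.2 e, e.neg_one_pow, Par.win, and_true, and_false,
      true_and, if_false]
    split_ifs <;> omega

theorem sign : SignSt := by
  refine fun p h => ⟨yy_le p, fun M => yy_zero h, fun M => ?_, fun j hj => ?_,
    fun M hJ hJ' c2 hG => ?_⟩
  · refine abs_sum_le_sum_abs.trans ((sum_le_card_nsmul _ 13 fun x hx => ?_).trans_eq ?_)
    · obtain ⟨y, hy, rfl⟩ := mem_map.1 hx
      obtain ⟨S, -, rfl⟩ := mem_map.1 hy
      exact yy_le p S
    · simp [mul_comm]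
  · rw [Par.T, sum0 fun S hS n => yy_zero h (by
      rw [(le_singleton.1 hS).resolve_left n]; simpa using hj)]
    obtain ⟨h1, h2, -⟩ := h
    simp [Par.yy, Par.y0, Par.yV, Par.yY, show 0 < p.τ by omega]
  have z : (0 : ℤ) ≤ if M.card = 2 ∧ ∀ b ∈ M, p.τ ≤ b then 1 else 0 := by split_ifs <;> simp
  by_cases hV : ∀ d ≤ M, p.yV d = 0
  · obtain ⟨m, hm, hm'⟩ := M.toFinset.exists_min_image id
      (toFinset_nonempty.2 fun e => by simp [e] at c2)
    obtain ⟨R, rfl⟩ := exists_cons_of_mem (mem_toFinset.1 hm)
    have hR : ∀ x ∈ R, m ≤ x := fun x hx => hm' x (mem_toFinset.2 (mem_cons_of_mem hx))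
    rw [sum_cons] at hJ
    rw [T_eq, sumz hV]
    rcases lt_or_ge m p.τ with l | l
    · have := T0_le h hR hJ hG l
      omega
    · have e3 : 0 ≤ ((m ::ₘ R).powerset.map p.yY).sum := sum_nonneg fun x hx => by
        obtain ⟨S, -, rfl⟩ := mem_map.1 hx
        exact yY_nonneg p S
      obtain ⟨h1, h2, -⟩ := h
      rw [card_cons] at c2
      obtain ⟨x, hx⟩ := card_pos_iff_exists_mem.1 (show 0 < R.card by omega)
      have c1 : R.card = 1 := by
        by_contra n
        have a1 := hR x hx
        have a2 := ng hG (singleton_le.2 hx) (by rw [sum_singleton]; omega)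
        obtain ⟨y, hy⟩ := card_pos_iff_exists_mem.1 (show 0 < (R - {x}).card by
          rw [card_sub (singleton_le.2 hx), card_singleton]; omega)
        have := hR y (mem_of_le tsub_le_self hy)
        have := le_sum_of_mem hy
        omega
      rw [if_pos ⟨by rw [card_cons, c1], fun b hb => l.trans (hm' b (mem_toFinset.2 hb))⟩, win1,
        sum0]
      · rw [card_zero, pow_zero]
        split_ifs <;> omega
      · refine fun S hS n => if_neg fun w => ?_
        obtain ⟨y, hy⟩ := exists_mem_of_ne_zero n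
        have := hR y (mem_of_le hS hy)
        have := le_sum_of_mem hy
        have := w.1
        omega
  · push Not at hV
    obtain ⟨d, hd, n⟩ := hV
    have c : d.card = 2 := by_contra fun c => n (if_neg c)
    rw [Par.yV, if_pos c, Nat.cast_ne_zero] at n
    obtain ⟨b, hb, r⟩ := countP_pos.1 (Nat.pos_of_ne_zero n)
    obtain ⟨d', rfl⟩ := exists_cons_of_mem hb
    obtain ⟨P, rfl⟩ := card_eq_one.1 (show d'.card = 1 by simpa using c)
    rw [sum_cons, sum_singleton, Nat.add_sub_cancel_left] at r
    obtain ⟨O, rfl⟩ := exists_cons_of_mem (mem_of_le hd (by simp) : P ∈ M)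
    rw [← cons_zero P, cons_swap, cons_le_cons_iff, cons_zero, singleton_le] at hd
    rw [sum_cons] at hJ hJ'
    exact (T_row h hd r hJ hJ' hG).trans z

end Pool.Agent.Lib.MP_4b1228_nt.GS
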