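import Pool.Agent.Lib.MP_4b1228_nt.GS.Sign

/-!
Where the loss lives.
-/

namespace Pool.Agent.Lib.MP_4b1228_nt.GS

open Multiset Sign
open scoped Classical

namespace Str

theorem two {p : Par} {M : Multiset ℕ} (hT : p.T M < 0) :
    (M.powerset.map p.y0).sum < 0 ∨ ∃ d ≤ M, p.yY d ≠ 0 := by
  by_contra h
  push Not at h
  have e : 0 ≤ (M.powerset.map p.yV).sum := sum_nonneg fun x hx => by
    obtain ⟨S, -, rfl⟩ := mem_map.1 hx
    rw [Par.yV]
    split_ifs <;> positivity
  rw [T_eq, sumz h.2] at hT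
  omega

theorem ex_win {p : Par} {m : ℕ} {R : Multiset ℕ} (h : ((m ::ₘ R).powerset.map p.y0).sum < 0) :
    ∃ S ≤ R, p.win m S ∧ S ≠ 0 := by
  by_contra n
  push Not at n
  rw [win1, sum0 fun S hS h0 => if_neg fun w => h0 (n S hS w), card_zero, pow_zero] at h
  split_ifs at h <;> omega

theorem yY_ne {p : Par} {d : Multiset ℕ} (h : p.yY d ≠ 0) :
    p.τ ≤ d.sum ∧ (∀ b ∈ d, d.sum < p.g + b) ∧ (d.card = 3 ∨ d.card = 4) := by
  rw [Par.yY] at h
  split_ifs at h with a b c
  · exact ⟨a.1, a.2, .inl b⟩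
  · exact ⟨a.1, a.2, .inr c⟩
  all_goals exact absurd rfl h

theorem alt {M : Multiset ℕ} (h : M ≠ 0) : (M.powerset.map fun S => (-1 : ℤ) ^ S.card).sum = 0 := by
  obtain ⟨b, hb⟩ := exists_mem_of_ne_zero h
  obtain ⟨O, rfl⟩ := exists_cons_of_mem hb
  rw [ps_cons, ← sum_map_add]
  exact sumz fun S _ => by rw [card_cons, pow_succ]; ring

theorem le_sum {S R : Multiset ℕ} (h : S ≤ R) : S.sum ≤ R.sum := by
  have := sum_sub' h
  omega

/-- No part is very large. -/
theorem big {p : Par} (h : p.g ≤ p.τ) {x : ℕ} {O : Multiset ℕ} (h0 : O ≠ 0) (h1 : O.sum < p.τ)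
    (h2 : p.τ ≤ x) : 0 ≤ p.T (x ::ₘ O) := by
  by_contra n
  rcases two (not_le.1 n) with a | ⟨d, hd, a⟩
  · rw [win1, map_congr rfl fun S hS => if_pos ?_, alt h0] at a
    · omega
    · have := le_sum (mem_powerset.1 hS)
      exact ⟨by omega, by omega⟩
  · obtain ⟨a1, a2, a3⟩ := yY_ne a
    by_cases c : x ∈ d
    · obtain ⟨d', rfl⟩ := exists_cons_of_mem c
      rw [card_cons] at a3
      obtain ⟨b, hb⟩ := card_pos_iff_exists_mem.1 (show 0 < d'.card by omega)
      have := a2 b (mem_cons_of_mem hb)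
      have := le_sum_of_mem hb
      rw [sum_cons] at *
      omega
    · have := le_sum ((le_cons_of_notMem c).1 hd)
      omega

theorem card_le {g β m : ℕ} {R : Multiset ℕ} (hG : ¬Good g (m ::ₘ R)) (h : g ≤ 4 * β)
    (hR : ∀ x ∈ R, β ≤ x) : R.card ≤ 7 := by
  by_contra n
  obtain ⟨S, hS⟩ : ∃ S, S ∈ powersetCard 4 R := card_pos_iff_exists_mem.1 (by
    rw [card_powersetCard]
    exact Nat.choose_pos (by omega))
  obtain ⟨h1, h2⟩ := mem_powersetCard.1 hS
  have a1 := card_nsmul_le_sum (s := S) (a := β) fun b hb => hR b (mem_of_le h1 hb)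
  have a2 := card_nsmul_le_sum (s := R - S) (a := β) fun b hb => hR b (mem_of_le tsub_le_self hb)
  have a3 := Nat.mul_le_mul_right β (show 4 ≤ (R - S).card by rw [card_sub h1]; omega)
  rw [h2, smul_eq_mul] at a1
  rw [smul_eq_mul] at a2
  have := ng hG h1 (by omega)
  omega

/-- The case of a small minimal part. -/
theorem small {p : Par} (h2 : 5 * p.g ≤ 4 * p.τ) {m : ℕ} {R d : Multiset ℕ} (hm : ∀ x ∈ R, m ≤ x)
    (hJ : 2 * p.τ ≤ m + R.sum) (hG : ¬Good p.g (m ::ₘ R)) (hs : p.g + m ≤ p.τ) (hd : d ≤ m ::ₘ R)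
    (a : p.yY d ≠ 0) : 2 * (m + R.sum) < 2 * m + 5 * p.g ∧ ∀ x ∈ R, p.τ < p.g + x := by
  obtain ⟨a1, a2, a3⟩ := yY_ne a
  have hd' : d ≤ R := (le_cons_of_notMem fun c => by have := a2 m c; omega).1 hd
  have b1 := ng hG hd' (by omega)
  have b2 := sum_sub' hd'
  have key : ∀ x, (∀ b ∈ d, d.sum + x < p.g + b) → 2 * d.sum + 3 * x < 3 * p.g := fun x hx => by
    have k1 := card_nsmul_le_sum (s := d) (a := d.sum + x + 1 - p.g) fun b hb => by
      have := hx b hb
      omega
    obtain ⟨b, hb⟩ := card_pos_iff_exists_mem.1 (show 0 < d.card by omega)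
    have := hx b hb
    have := le_sum_of_mem hb
    rcases a3 with c | c <;> rw [c, smul_eq_mul] at k1 <;> omega
  have b3 := key 0 a2
  refine ⟨by omega, fun x hx => ?_⟩
  by_cases c : x ∈ d
  · have := a2 x c
    omega
  by_contra n
  have := key x fun b hb => by
    obtain ⟨d', rfl⟩ := exists_cons_of_mem hb
    have c1 : x ::ₘ d' ≤ R := (cons_le_of_notMem fun e => c (mem_cons_of_mem e)).2
      ⟨hx, (le_cons_self _ _).trans hd'⟩
    have c2 := sum_sub' c1
    have c3 := ng hG c1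
    have c4 := a2 b hb
    rw [sum_cons] at *
    omega
  have := hm x hx
  omega

end Str

open Str

theorem str (_h : WinSt) : StrSt := by
  intro p m R h hm hJ hJ' hG hT
  obtain ⟨h1, h2, h3, -, -, -, -, -, -, h10, -⟩ := h
  have key : 2 * p.J₁ < 2 * m + 5 * p.g ∧ ∀ x ∈ R, p.τ < p.g + x := by
    rcases lt_or_ge p.τ (p.g + m) with l | l
    · exact ⟨by omega, fun x hx => by have := hm x hx; omega⟩
    rcases two hT with a | ⟨d, hd, a⟩
    · obtain ⟨S, hS, ⟨w1, w2⟩, -⟩ := ex_win a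
      have := ng hG hS
      have := sum_sub' hS
      omega
    · have := small h2 hm (by omega) hG l hd a
      exact ⟨by omega, this.2⟩
  refine ⟨?_, card_le hG (β := p.τ - p.g) (by omega) fun x hx => by have := key.2 x hx; omega,
    key.1, fun x hx => ⟨key.2 x hx, ?_⟩⟩
  · rcases two hT with a | ⟨d, hd, a⟩
    · obtain ⟨S, hS, ⟨w1, w2⟩, w3⟩ := ex_win a
      by_contra n
      have c1 := card_le_card hS
      have c2 := card_pos.2 w3
      obtain rfl := eq_of_le_of_card_le hS (by omega)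
      obtain ⟨x, rfl⟩ := card_eq_one.1 (show S.card = 1 by omega)
      have := hm x (mem_singleton_self x)
      rw [sum_singleton] at *
      omega
    · have := (yY_ne a).2.2
      have := card_le_card hd
      rw [card_cons] at this
      omega
  · by_contra n
    obtain ⟨O, rfl⟩ := exists_cons_of_mem hx
    rw [sum_cons] at *
    have := big (p := p) (by omega) (x := x) (O := m ::ₘ O) cons_ne_zero
      (by rw [sum_cons]; omega) (by omega)
    rw [cons_swap] at this
    omega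

end Pool.Agent.Lib.MP_4b1228_nt.GS
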