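import Pool.Agent.Lib.MP_4b1228_nt.GS.St

/-!
Sums of the first type, and the upper bound for rough vectors.
-/

namespace Pool.Agent.Lib.MP_4b1228_nt.GS

open Finset Filter Topology Pool.Agent.Lib.MP_9d27bc_nt.C Pool.Agent.Lib.MP_9d27bc_nt.C.Two

namespace T1

theorem D0_nonneg {ι : Type} (S : Finset ι) (v : ι → GI) : 0 ≤ D0 S v :=
  sum_nonneg fun _ _ => by positivity

theorem le_w {z : ℝ} (hz : 2 ≤ z) (k : ℕ) : z ^ 6 ≤ z ^ (4 * k + 6) :=
  pow_le_pow_right₀ (by linarith) (by omega)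

theorem le_wA {z : ℝ} (hz : 2 ≤ z) (k A : ℕ) : z ^ A ≤ (z ^ (4 * k + 6)) ^ A :=
  pow_le_pow_left₀ (by linarith) (le_self_pow₀ (by linarith) (by omega)) A

theorem err {z w P D : ℝ} (hz : 2 ≤ z) (hw : z ^ 6 ≤ w) (hP : 1 ≤ P) (h : w ^ 14 ≤ P ^ 2)
    (hD : D ≤ z ^ 2) : 8 * w ≤ P ∧ w ^ 4 * (1 / w ^ 5 + D * w / P) ≤ 1 / z := by
  have z0 : 0 < z := by linarith
  have h1 : (2 : ℝ) ^ 3 ≤ z ^ 3 := pow_le_pow_left₀ (by norm_num) hz 3
  have h2 : 2 * z ^ 3 ≤ w := by nlinarith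
  have h3 : z ≤ z ^ 3 := le_self_pow₀ (by linarith) (by norm_num)
  have w0 : 0 < w := by linarith
  have h4 : w ^ 7 ≤ P := le_of_sq_le_sq (by rw [← pow_mul]; exact h) (by linarith)
  have h5 : w ≤ w ^ 2 := le_self_pow₀ (by linarith) (by norm_num)
  have h6 : w ^ 2 ≤ w ^ 7 := pow_le_pow_right₀ (by linarith) (by norm_num)
  refine ⟨by nlinarith, ?_⟩
  have h7 : D * w / P ≤ z ^ 2 * w / w ^ 7 :=
    div_le_div₀ (by positivity) (mul_le_mul_of_nonneg_right hD w0.le) (by positivity) h4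
  have h8 : 1 / w ≤ 1 / (2 * z) := one_div_le_one_div_of_le (by positivity) (by linarith)
  have h9 : z ^ 2 / w ^ 2 ≤ 1 / (2 * z) := by
    rw [div_le_div_iff₀ (by positivity) (by positivity)]
    nlinarith
  calc w ^ 4 * (1 / w ^ 5 + D * w / P) ≤ w ^ 4 * (1 / w ^ 5 + z ^ 2 * w / w ^ 7) := by gcongr
    _ = 1 / w + z ^ 2 / w ^ 2 := by field_simp
    _ ≤ 1 / (2 * z) + 1 / (2 * z) := add_le_add h8 h9
    _ = 1 / z := by field_simp; norm_num

theorem mass (hB : Bas) (C : ℝ) (hC : 0 ≤ C) (A B : ℕ) : ∀ᶠ z : ℝ in atTop,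
    ∀ (ι : Type) (S : Finset ι) (v : ι → GI), Mult S v B → (∀ i ∈ S, (nm (v i) : ℝ) ≤ z ^ A) →
      C * D0 S v ≤ z ^ 2 := by
  obtain ⟨C', hC', h⟩ := hB.D0_le
  filter_upwards [eventually_ge_atTop 1, eventually_ge_atTop (C * (C' * B * (1 + A)))]
    with z h1 h2 ι S v hm hv
  have h3 := h ι S v B (z ^ A) hm (one_le_pow₀ h1) hv
  have h4 : Real.log z ≤ z := (Real.log_le_sub_one_of_pos (by linarith)).trans (by linarith)
  have h5 : 1 + Real.log (z ^ A) ≤ (1 + A) * z := by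
    rw [Real.log_pow]
    nlinarith [mul_le_mul_of_nonneg_left h4 (Nat.cast_nonneg (α := ℝ) A)]
  calc C * D0 S v ≤ C * (C' * B * ((1 + A) * z)) := by
        gcongr
        exact h3.trans (by gcongr)
    _ = C * (C' * B * (1 + A)) * z := by ring
    _ ≤ z * z := by gcongr
    _ = z ^ 2 := (sq z).symm

theorem tw (k : ℕ) : Tendsto (fun z : ℝ => z ^ (4 * k + 6)) atTop atTop :=
  tendsto_pow_atTop (by omega)

end T1

open T1 in
theorem t1 (hB : Bas) (h1 : TCSt) (h2 : EaSt) (h3 : EbSt) : T1St := by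
  obtain ⟨C, hC, h1⟩ := h1
  refine ⟨C, hC, fun k hk A B => ⟨?_, fun j j1 j2 => ?_⟩⟩
  · filter_upwards [eventually_ge_atTop 2, (tw k).eventually (h2 A B), mass hB C hC.le A B]
      with z hz ha hm ι S v Z P₁ P₂ Y a1 a2 a3 a4 a5 a6 a7 a8
    have hZ : (1 : ℝ) ≤ Z := by exact_mod_cast a4
    obtain ⟨e1, e2⟩ := err hz (le_w hz k) a5
      ((le_mul_of_one_le_right (by positivity) hZ).trans a7) (hm ι S v a1 fun i hi => (a3 i hi).2)
    exact (h1 k hk ι S v Z z P₁ P₂ _ hz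
      (fun i hi => (hB.nm_pos _).2 (by exact_mod_cast a2.trans (a3 i hi).1)) a4 e1 (by positivity)
      fun q c hq _ => ha ι S v Z q c P₁ P₂ Y a1 a2
        (fun i hi => ⟨(a3 i hi).1, (a3 i hi).2.trans (le_wA hz k A)⟩) a4 hq a5
        (a6.trans (le_wA hz k A)) a7 a8).trans (add_le_add le_rfl e2)
  · filter_upwards [eventually_ge_atTop 2, (tw k).eventually (h3 A B j j1 j2),
      mass hB (C * B) (by positivity) A B] with z hz ha hm ι κ S v S' v' Z P₁ P₂ a1 a2 a3 a4 a5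
    obtain ⟨b1, b2, b3, b4, b5, b6, b7⟩ := a1
    have hD : C * (D0 S v * D0 S' v') ≤ z ^ 2 := by
      refine le_trans ?_ (hm ι S v b1 fun i hi => (b2 i hi).2)
      have := D0_nonneg S v
      calc C * (D0 S v * D0 S' v') ≤ C * (D0 S v * B) := by gcongr
        _ = C * B * D0 S v := by ring
    obtain ⟨e1, e2⟩ := err hz (le_w hz k) a3 b6 hD
    have := h1 k hk _ (S ×ˢ S') (fun w => v w.1 * v' w.2) Z z P₁ P₂ (1 / (z ^ (4 * k + 6)) ^ 5) hz
      (fun i hi => mul_ne_zero ((hB.nm_pos _).2 (a2.trans (b2 _ (mem_product.1 hi).1).1))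
        ((hB.nm_pos _).2 (Nat.pos_of_ne_zero fun h0 => by
          have := a2.trans (b5 _ (mem_product.1 hi).2).1
          rw [h0, zero_pow (by omega)] at this
          omega))) a2 e1 (by positivity) fun q c hq hq' => by
        simp only [hB.hat_mul, norm_mul]
        exact ha ι κ S v S' v' Z q c P₁ P₂ ⟨b1, fun i hi => ⟨(b2 i hi).1,
          (b2 i hi).2.trans (le_wA hz k A)⟩, b3, b4, fun i hi => ⟨(b5 i hi).1,
          (b5 i hi).2.trans (le_wA hz k A)⟩, b6, b7⟩ a2 hq hq' a3 a4 (a5.trans (le_wA hz k A))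
    rw [hB.D0_mul] at this
    exact this.trans (add_le_add le_rfl e2)

open T1 in
theorem ub (hB : Bas) (h : T1St) : UBSt := by
  classical
  obtain ⟨C, hC, h⟩ := h
  obtain ⟨k, hk⟩ := pow_unbounded_of_one_lt C (one_lt_two (α := ℝ))
  obtain ⟨C₀, hC₀, h0⟩ := hB.m0_le
  obtain ⟨C₁, hC₁, -, -, -, -, hV, -⟩ := hM
  refine ⟨(4 * k + 6) * 14 + 2, 4 * C₀ * C₁ + 1, by positivity, fun A => ?_⟩
  filter_upwards [eventually_ge_atTop 2, (h k hk.le A 1).1] with z hz ha Z Y Y' a1 a2 a3 a4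
  have hZ : (1 : ℝ) ≤ Z := by exact_mod_cast a1
  have hw : 1 ≤ (z ^ (4 * k + 6)) ^ 14 := one_le_pow₀ (one_le_pow₀ (by linarith))
  rw [pow_add, pow_mul] at a2
  set w := (z ^ (4 * k + 6)) ^ 14
  have b1 : w * (Z : ℝ) ^ 2 ≤ Y / 4 := by
    have : 4 ≤ z ^ 2 := by nlinarith
    have : w * (Z : ℝ) ^ 2 * 4 ≤ w * (Z : ℝ) ^ 2 * z ^ 2 := by gcongr
    linarith
  have b2 : w * Z ≤ w * (Z : ℝ) ^ 2 := by
    gcongr
    exact le_self_pow₀ hZ two_ne_zero
  have b3 : 1 ≤ Y / 4 := (one_le_mul_of_one_le_of_one_le hw hZ).trans (b2.trans b1)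
  have Y0 : 0 < Y := by linarith
  have b4 : (√Y / 2) ^ 2 = Y / 4 := by rw [div_pow, Real.sq_sqrt Y0.le]; norm_num
  have b5 : 1 ≤ √Y / 2 := by
    rw [← b4] at b3
    exact (one_le_sq_iff₀ (by positivity)).1 b3
  have n1 : nm 1 = 1 := by simp [nm]
  have c1 := ha Unit univ (fun _ => 1) Z (√Y / 2) √Y' 1
    (fun a => (card_filter_le _ _).trans (by simp)) le_rfl
    (fun _ _ => by rw [n1, Nat.cast_one]; exact ⟨le_rfl, one_le_pow₀ (by linarith)⟩) a1 b5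
    ((le_self_pow₀ b5 two_ne_zero).trans (by rw [b4]; linarith)) (by rw [b4]; exact b2.trans b1)
    (by rw [b4, one_mul]; exact b1)
  have c2 : D0 (univ : Finset Unit) (fun _ => (1 : GI)) = 1 := by simp [D0, n1]
  have c3 : lay z Z Y Y' ≤ AA z Z (univ : Finset Unit) (fun _ => 1) (√Y / 2) √Y' := by
    simp only [lay, AA, univ_unique, sum_singleton, one_mul]
    refine sum_le_sum_of_subset_of_nonneg (fun a ha => ?_) fun a _ _ => hB.ww_nonneg Z a
    rw [mem_filter] at ha ⊢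
    have d1 : (nm a : ℝ) ≤ Y' := (mem_filter.1 ha.1).2
    have d2 : (mx a : ℝ) ^ 2 ≤ nm a := by exact_mod_cast (hB.mx_nm a).1
    have d3 : (nm a : ℝ) ≤ 2 * (mx a : ℝ) ^ 2 := by exact_mod_cast (hB.mx_nm a).2
    refine ⟨(hB.mem_Sq _ _ a).2 ⟨?_, Real.le_sqrt_of_sq_le (d2.trans d1)⟩, ha.2.2⟩
    exact lt_of_pow_lt_pow_left₀ 2 (Nat.cast_nonneg _) (by rw [b4]; linarith [ha.2.1])
  have r1 : 1 ≤ Y' / Y := (one_le_div Y0).2 a3
  have L0 := Real.log_nonneg r1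
  have s1 : √Y ≤ √Y' := Real.sqrt_le_sqrt a3
  have c4 : Real.log (√Y' / (√Y / 2)) ≤ 1 + Real.log (Y' / Y) := by
    have e : √Y' / (√Y / 2) = 2 * √(Y' / Y) := by
      rw [Real.sqrt_div' _ Y0.le]
      field_simp
    have := Real.log_le_sub_one_of_pos two_pos
    rw [e, Real.log_mul two_ne_zero (by positivity), Real.log_sqrt (by positivity)]
    linarith
  have c5 := h0 (√Y / 2) √Y' (by linarith) (by linarith)
  have l0 : 0 < Real.log z := Real.log_pos (by linarith)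
  have v0 : 0 ≤ VV z := le_trans (by positivity) (hV z hz).1
  have m0' : 0 ≤ m0 (√Y / 2) √Y' := sum_nonneg fun _ _ => by positivity
  have c6 : m0 (√Y / 2) √Y' * VV z ≤ 2 * C₀ * (1 + Real.log (Y' / Y)) * (C₁ / Real.log z) :=
    mul_le_mul (c5.trans (by nlinarith)) (hV z hz).2 v0 (by positivity)
  have c7 : C / 2 ^ k * (m0 (√Y / 2) √Y' * VV z) ≤ m0 (√Y / 2) √Y' * VV z :=
    mul_le_of_le_one_left (by positivity) ((div_le_one (by positivity)).2 hk.le)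
  have c8 : 1 / z ≤ (1 + Real.log (Y' / Y)) / Real.log z :=
    div_le_div₀ (by positivity) (by linarith) l0
      ((Real.log_le_sub_one_of_pos (by linarith)).trans (by linarith))
  rw [c2, one_mul] at c1
  have c9 := (abs_le.1 c1).2
  have e : (4 * C₀ * C₁ + 1) * (1 + Real.log (Y' / Y)) / Real.log z =
      2 * (2 * C₀ * (1 + Real.log (Y' / Y)) * (C₁ / Real.log z)) +
        (1 + Real.log (Y' / Y)) / Real.log z := by ring
  rw [e]
  linarith

end Pool.Agent.Lib.MP_4b1228_nt.GS
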