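import Pool.Agent.Lib.MP_4b1228_nt.GS.St

/-!
Good cells and products of two large primes.
-/

namespace Pool.Agent.Lib.MP_4b1228_nt.GS

open Finset Filter Topology Pool.Agent.Lib.MP_9d27bc_nt.C Pool.Agent.Lib.MP_9d27bc_nt.C.Two
open scoped Classical

namespace T3

lemma split_map {α β : Type} (f : α → β) (s : Multiset α) (A B : Multiset β)
    (h : s.map f = A + B) : ∃ a b : Multiset α, s = a + b ∧ a.map f = A ∧ b.map f = B := by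
  have h1 : Multiset.Rel (fun x y => x = f y) (A + B) s := by
    rw [← Multiset.rel_map_right (r := Eq), Multiset.rel_eq, h]
  obtain ⟨a, b, ha, hb, hs⟩ := Multiset.rel_add_left.1 h1
  refine ⟨a, b, hs, ?_, ?_⟩
  · rw [← Multiset.rel_map_right (r := Eq), Multiset.rel_eq] at ha
    exact ha.symm
  · rw [← Multiset.rel_map_right (r := Eq), Multiset.rel_eq] at hb
    exact hb.symm

lemma good_idx {r : ℕ} (jv : Fin r → ℕ) (g : ℕ) (h : Good g (vm jv)) :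
    ∃ (A B C : Finset (Fin r)), C.Nonempty ∧ g ≤ ∑ i ∈ A, jv i ∧ g ≤ ∑ i ∈ B, jv i ∧
      ∀ φ : Fin r → ℝ, ∏ i, φ i = (∏ i ∈ A, φ i) * (∏ i ∈ B, φ i) * ∏ i ∈ C, φ i := by
  obtain ⟨A, B, C, hM, hC0, hA0, hB0⟩ := h
  obtain ⟨ab, c, h1, h2, h3⟩ := split_map jv _ _ _ hM
  obtain ⟨a, b, h4, h5, h6⟩ := split_map jv _ _ _ h2
  have hn : (a + b + c).Nodup := by
    rw [← h4, ← h1]
    exact (univ : Finset (Fin r)).nodup
  have hna : a.Nodup := Multiset.nodup_of_le (by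
    rw [add_assoc]; exact Multiset.le_add_right _ _) hn
  have hnb : b.Nodup := Multiset.nodup_of_le (by
    exact (Multiset.le_add_left _ _).trans (Multiset.le_add_right _ _)) hn
  have hnc : c.Nodup := Multiset.nodup_of_le (Multiset.le_add_left _ _) hn
  refine ⟨⟨a, hna⟩, ⟨b, hnb⟩, ⟨c, hnc⟩, ?_, ?_, ?_, ?_⟩
  · rw [nonempty_iff_ne_empty]
    intro h
    have : c = 0 := congrArg Finset.val h
    apply hC0
    rw [← h3, this]
    simp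
  · simpa [Finset.sum, h5] using hA0
  · simpa [Finset.sum, h6] using hB0
  · intro φ
    simp only [Finset.prod]
    rw [h1, h4]
    simp

lemma ratio (y : ℝ) (hy : Real.exp 1 ≤ y) (j₀ n s : ℕ) (hj : 1 ≤ j₀) :
    0 ≤ (1 + Real.log (y ^ (s + n) / y ^ s)) / Real.log (y ^ j₀) ∧
    (1 + Real.log (y ^ (s + n) / y ^ s)) / Real.log (y ^ j₀) ≤ ((n : ℝ) + 1) / j₀ := by
  have h0 : 0 < y := lt_of_lt_of_le (Real.exp_pos 1) hy
  have hl : 1 ≤ Real.log y := by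
    rw [Real.le_log_iff_exp_le h0]
    exact hy
  have e : y ^ (s + n) / y ^ s = y ^ n := by
    rw [pow_add]
    field_simp
  have hj' : (1 : ℝ) ≤ j₀ := by exact_mod_cast hj
  rw [e, Real.log_pow, Real.log_pow]
  refine ⟨by positivity, ?_⟩
  rw [div_le_div_iff₀ (by positivity) (by positivity)]
  have : (0 : ℝ) ≤ n := Nat.cast_nonneg n
  nlinarith

lemma pow_le (y : ℝ) (hy : 1 ≤ y) (j₀ c g₀ s Z : ℕ) (h : g₀ + c * j₀ ≤ s) (hZ : (Z : ℝ) ≤ y ^ g₀) :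
    (y ^ j₀) ^ c * Z ≤ y ^ s := by
  calc (y ^ j₀) ^ c * Z ≤ (y ^ j₀) ^ c * y ^ g₀ := by gcongr
    _ = y ^ (g₀ + c * j₀) := by rw [← pow_mul, ← pow_add]; congr 1; ring
    _ ≤ y ^ s := pow_le_pow_right₀ hy h

/-- the content of the mean value statement -/
def MV (c : ℕ) (C : ℝ) : Prop :=
  ∀ A B : ℕ, ∀ᶠ z : ℝ in atTop, ∀ (ι : Type) (S : Finset ι)
    (v : ι → GI) (Z : ℕ) (Y Y' : ℝ), Mult S v B → 1 ≤ Z → z ^ c * Z ≤ Y → Y ≤ Y' → Y' ≤ z ^ A →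
    (∀ i ∈ S, Y ≤ nm (v i) ∧ (nm (v i) : ℝ) ≤ Y' ∧ Rough z (nm (v i))) →
    ∑ t ∈ fr Z, ‖hat S v t‖ ^ 2 ≤ C * (B * (1 + Real.log (Y' / Y)) / Real.log z) ^ 2

lemma exp_two (y : ℝ) (hy : Real.exp 1 ≤ y) : 2 ≤ y := by
  have := Real.add_one_le_exp (1 : ℝ)
  linarith

lemma mean (hB : Bas) (hX : Box) (hD : Dv) (c : ℕ) (C : ℝ) (hC0 : 0 < C) (h : MV c C) {r : ℕ}
    (jv : Fin r → ℕ) (j₀ g₀ : ℕ) (A : Finset (Fin r)) (hj : 1 ≤ j₀) (hjv : ∀ i, j₀ ≤ jv i)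
    (hg : g₀ + c * j₀ ≤ ∑ i ∈ A, jv i) : ∃ K : ℝ, 0 ≤ K ∧ ∀ᶠ y : ℝ in atTop, ∀ Z : ℕ, 1 ≤ Z →
      (Z : ℝ) ≤ y ^ g₀ → ∑ t ∈ fr Z, (∏ i ∈ A, ‖hat (Bx y (jv i)) id t‖) ^ 2 ≤ K := by
  obtain ⟨n, hn⟩ : ∃ n : ℕ, n = Fintype.card A := ⟨_, rfl⟩
  obtain ⟨s, hs⟩ : ∃ s : ℕ, s = ∑ k : A, jv k := ⟨_, rfl⟩
  have hs' : s = ∑ i ∈ A, jv i := by rw [hs, sum_coe_sort A jv]
  refine ⟨C * (((n ^ n : ℕ) : ℝ) * (((n : ℝ) + 1) / j₀)) ^ 2, by positivity, ?_⟩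
  have ht : Tendsto (fun y : ℝ => y ^ j₀) atTop atTop := tendsto_pow_atTop (by omega)
  filter_upwards [ht.eventually (h (s + n) (n ^ n)), eventually_ge_atTop (Real.exp 1)]
    with y h1 hy Z hZ hZy
  have hy2 := exp_two y hy
  have hy1 : 1 < y := by linarith
  have hsub : (Fintype.piFinset fun k : A => Bx y (jv k)) ⊆
      Fintype.piFinset fun _ : A => PP y j₀ (s + 1) := by
    refine Fintype.piFinset_subset _ _ fun k p hp => ?_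
    refine mem_biUnion.2 ⟨jv k, mem_Ico.2 ⟨hjv k, ?_⟩, hp⟩
    have : jv k ≤ ∑ k : A, jv k :=
      single_le_sum (f := fun k : A => jv k) (fun _ _ => Nat.zero_le _) (mem_univ k)
    omega
  have hm : Mult (Fintype.piFinset fun k : A => Bx y (jv k)) (fun f => ∏ k, f k) (n ^ n) := by
    intro a
    have h2 := hD.mult_tup A y j₀ (s + 1) hy1 a
    rw [← hn] at h2
    exact (card_le_card (filter_subset_filter _ hsub)).trans h2
  have h3 := h1 _ (Fintype.piFinset fun k : A => Bx y (jv k)) (fun f => ∏ k, f k) Z (y ^ s)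
    (y ^ (s + n)) hm hZ (pow_le y hy1.le j₀ c g₀ s Z (by omega) hZy)
    (pow_le_pow_right₀ hy1.le (by omega))
    (by
      rw [← pow_mul]
      exact pow_le_pow_right₀ hy1.le (Nat.le_mul_of_pos_left _ hj))
    (by
      intro f hf
      have h4 := hX.nm_tup A y j₀ (fun k => jv k) f hy1
        fun k => ⟨hjv k, Fintype.mem_piFinset.1 hf k⟩
      rw [← hs, ← hn] at h4
      exact h4)
  obtain ⟨r1, r2⟩ := ratio y hy j₀ n s hj
  have e : ∀ t : ℤ, ‖hat (Fintype.piFinset fun k : A => Bx y (jv k)) (fun f => ∏ k, f k) t‖ =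
      ∏ i ∈ A, ‖hat (Bx y (jv i)) id t‖ := by
    intro t
    have h5 := hB.hat_pi A GI (fun k : A => Bx y (jv k)) id t
    simp only [id] at h5
    rw [h5, norm_prod, prod_coe_sort A fun i => ‖hat (Bx y (jv i)) id t‖]
  simp only [e] at h3
  refine h3.trans ?_
  rw [mul_div_assoc]
  gcongr

lemma fz_sub (Z : ℕ) : fz Z ⊆ fr Z := erase_subset _ _

lemma mem_fz (Z : ℕ) (t : ℤ) (h : t ∈ fz Z) : t ≠ 0 ∧ |(t : ℝ)| ≤ Z := by
  obtain ⟨h1, h2⟩ := mem_erase.1 h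
  refine ⟨h1, ?_⟩
  obtain ⟨h3, h4⟩ := mem_Icc.1 h2
  have h5 : |t| ≤ (Z : ℤ) := abs_le.2 ⟨h3, h4⟩
  exact_mod_cast h5

lemma one (hB : Bas) (hX : Box) (hD : Dv) (h2 : PBSt) (c : ℕ) (C : ℝ) (hC0 : 0 < C) (h : MV c C)
    (r : ℕ) (jv : Fin r → ℕ) (j₀ g g₀ : ℕ) (ε : ℝ) (hj : 1 ≤ j₀) (hjv : ∀ i, j₀ ≤ jv i)
    (hg : g₀ + c * j₀ ≤ g) (hgood : Good g (vm jv)) (hε : 0 < ε) :
    ∀ᶠ y : ℝ in atTop, ∀ Z : ℕ, 1 ≤ Z → (Z : ℝ) ≤ y ^ g₀ → |cell y Z jv - cell y 1 jv| ≤ ε := by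
  obtain ⟨A, B, I, ⟨i₀, hi₀⟩, hA0, hB0, hprod⟩ := good_idx jv g hgood
  obtain ⟨K₁, hK₁, m1⟩ := mean hB hX hD c C hC0 h jv j₀ g₀ A hj hjv (hg.trans hA0)
  obtain ⟨K₂, hK₂, m2⟩ := mean hB hX hD c C hC0 h jv j₀ g₀ B hj hjv (hg.trans hB0)
  obtain ⟨C₀, hC₀⟩ := hX.D0_box
  obtain ⟨W, hW⟩ : ∃ W : ℝ, W = (C₀ : ℝ) ^ #(I.erase i₀) := ⟨_, rfl⟩
  have hW0 : 0 ≤ W := by rw [hW]; positivity
  have hp : 0 < ε / (W * (K₁ + K₂) + 1) := by positivity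
  filter_upwards [m1, m2, h2 (jv i₀) g₀ _ (hj.trans (hjv i₀)) hp, eventually_ge_atTop (2 : ℝ)]
    with y a1 a2 a3 hy Z hZ hZy
  have hy1 : 1 < y := by linarith
  have hne : ∀ f ∈ (Fintype.piFinset fun i => Bx y (jv i)), (∏ i, f i) ≠ 0 := by
    intro f hf
    have h4 := (hX.nm_tup (Fin r) y j₀ jv f hy1
      fun k => ⟨hjv k, Fintype.mem_piFinset.1 hf k⟩).1
    rw [hB.nm_pos]
    have h5 : (1 : ℝ) ≤ nm (∏ i, f i) := (one_le_pow₀ hy1.le).trans h4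
    exact_mod_cast h5
  have h6 := hB.expand _ (Fintype.piFinset fun i => Bx y (jv i)) (fun f => ∏ i, f i) Z hZ hne
  have e1 : cell y 1 jv = D0 (Fintype.piFinset fun i => Bx y (jv i)) (fun f => ∏ i, f i) := by
    simp only [cell, D0, hB.ww_one]
  rw [e1]
  refine h6.trans ?_
  have e : ∀ t ∈ fz Z, ‖hat (Fintype.piFinset fun i => Bx y (jv i)) (fun f => ∏ i, f i) t‖ ≤
      (ε / (W * (K₁ + K₂) + 1) * W) * ((∏ i ∈ A, ‖hat (Bx y (jv i)) id t‖) ^ 2 +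
        (∏ i ∈ B, ‖hat (Bx y (jv i)) id t‖) ^ 2) := by
    intro t ht
    obtain ⟨t1, t2⟩ := mem_fz Z t ht
    have h5 := hB.hat_pi (Fin r) GI (fun k => Bx y (jv k)) id t
    simp only [id] at h5
    rw [h5, norm_prod, hprod, ← mul_prod_erase I _ hi₀]
    have b1 := a3 t t1 (t2.trans hZy)
    have b2 : ∏ i ∈ I.erase i₀, ‖hat (Bx y (jv i)) id t‖ ≤ W := by
      rw [hW, ← prod_const]
      refine prod_le_prod (fun _ _ => norm_nonneg _) fun i _ => ?_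
      exact (hB.hat_le _ _ _ _).trans (hC₀ y _ hy (hj.trans (hjv i)))
    have b3 : 0 ≤ ∏ i ∈ A, ‖hat (Bx y (jv i)) id t‖ := prod_nonneg fun _ _ => norm_nonneg _
    have b4 : 0 ≤ ∏ i ∈ B, ‖hat (Bx y (jv i)) id t‖ := prod_nonneg fun _ _ => norm_nonneg _
    have b5 : 0 ≤ ∏ i ∈ I.erase i₀, ‖hat (Bx y (jv i)) id t‖ :=
      prod_nonneg fun _ _ => norm_nonneg _
    generalize (∏ i ∈ A, ‖hat (Bx y (jv i)) id t‖) = u at b3 ⊢
    generalize (∏ i ∈ B, ‖hat (Bx y (jv i)) id t‖) = v at b4 ⊢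
    have b6 : u * v ≤ u ^ 2 + v ^ 2 := by nlinarith [sq_nonneg (u - v), mul_nonneg b3 b4]
    rw [mul_comm]
    gcongr
  refine (sum_le_sum e).trans ?_
  rw [← mul_sum, sum_add_distrib]
  have c1 := (sum_le_sum_of_subset_of_nonneg (fz_sub Z) fun _ _ _ => sq_nonneg _).trans
    (a1 Z hZ hZy)
  have c2 := (sum_le_sum_of_subset_of_nonneg (fz_sub Z) fun _ _ _ => sq_nonneg _).trans
    (a2 Z hZ hZy)
  calc _ ≤ (ε / (W * (K₁ + K₂) + 1) * W) * (K₁ + K₂) := by gcongr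
    _ = ε * (W * (K₁ + K₂) / (W * (K₁ + K₂) + 1)) := by ring
    _ ≤ ε * 1 := by
      gcongr
      rw [div_le_one (by positivity)]
      linarith
    _ = ε := mul_one _

lemma two (hB : Bas) (hX : Box) (c : ℕ) (C : ℝ) (hC0 : 0 < C) (h : MV c C)
    (j₀ a b g₀ : ℕ) (hj : 1 ≤ j₀) (ha : j₀ ≤ a) (hab : a ≤ b) (hg : g₀ + c * j₀ ≤ a) :
    ∀ᶠ y : ℝ in atTop, ∀ Z : ℕ, 1 ≤ Z → (Z : ℝ) ≤ y ^ g₀ →
      ∑ π ∈ PP y a b, ∑ π' ∈ PP y a b, ww Z (π * π') ≤ C * (((b : ℝ) - a + 1) / j₀) ^ 2 := by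
  obtain ⟨n, rfl⟩ := Nat.exists_eq_add_of_le hab
  have ht : Tendsto (fun y : ℝ => y ^ j₀) atTop atTop := tendsto_pow_atTop (by omega)
  filter_upwards [ht.eventually (h (a + n) 1), eventually_ge_atTop (Real.exp 1)]
    with y h1 hy Z hZ hZy
  have hy2 := exp_two y hy
  have hy1 : 1 < y := by linarith
  have hm : Mult (PP y a (a + n)) id 1 := by
    intro x
    refine card_le_one.2 fun p hp q hq => ?_
    exact (mem_filter.1 hp).2.trans (mem_filter.1 hq).2.symm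
  have hn : ∀ p ∈ PP y a (a + n), y ^ a ≤ nm (id p) ∧ (nm (id p) : ℝ) ≤ y ^ (a + n) ∧
      Rough (y ^ j₀) (nm (id p)) := by
    intro p hp
    obtain ⟨l, e, hl, rfl, l1, l2⟩ := (hX.mem_PP y a (a + n) p hy1).1 hp
    have h4 : nm (cp l e) = l := (hG.2.2.2.2.2.2.2.2.1 l e hl).1
    simp only [id, h4]
    refine ⟨l1.le, l2, fun l' hl' hd => ?_⟩
    rw [(Nat.prime_dvd_prime_iff_eq hl' hl.1).1 hd]
    exact lt_of_le_of_lt (pow_le_pow_right₀ hy1.le ha) l1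
  have h3 := h1 _ (PP y a (a + n)) id Z (y ^ a) (y ^ (a + n)) hm hZ
    (pow_le y hy1.le j₀ c g₀ a Z hg hZy) (pow_le_pow_right₀ hy1.le (by omega))
    (by
      rw [← pow_mul]
      exact pow_le_pow_right₀ hy1.le (Nat.le_mul_of_pos_left _ hj)) hn
  have hne : ∀ p ∈ PP y a (a + n), p ≠ 0 := by
    intro p hp
    rw [hB.nm_pos]
    have h5 : (1 : ℝ) ≤ nm p := (one_le_pow₀ hy1.le).trans (hn p hp).1
    exact_mod_cast h5
  have h6 := hB.expand _ (PP y a (a + n) ×ˢ PP y a (a + n)) (fun w => id w.1 * id w.2) Z hZ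
    fun w hw => mul_ne_zero (hne _ (mem_product.1 hw).1) (hne _ (mem_product.1 hw).2)
  rw [hB.D0_mul, sum_product] at h6
  simp only [hB.hat_mul, ← sq, norm_pow] at h6
  have e0 : ‖hat (PP y a (a + n)) id 0‖ = D0 (PP y a (a + n)) id := by
    have : hat (PP y a (a + n)) id 0 = (D0 (PP y a (a + n)) id : ℝ) := by
      simp only [hat, D0, hB.xi_zero]
      push_cast
      rfl
    rw [this, Complex.norm_real, Real.norm_of_nonneg]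
    exact sum_nonneg fun _ _ => by positivity
  have h0 : (0 : ℤ) ∈ fr Z := mem_Icc.2 ⟨by omega, by omega⟩
  rw [← add_sum_erase _ _ h0, e0] at h3
  obtain ⟨r1, r2⟩ := ratio y hy j₀ n a hj
  have h7 := (abs_le.1 h6).2
  have e2 : ((a + n : ℕ) : ℝ) - a + 1 = n + 1 := by push_cast; ring
  rw [e2]
  have h8 : C * (((1 : ℕ) : ℝ) * (1 + Real.log (y ^ (a + n) / y ^ a)) / Real.log (y ^ j₀)) ^ 2 ≤
      C * (((n : ℝ) + 1) / j₀) ^ 2 := by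
    rw [Nat.cast_one, one_mul]
    gcongr
  simp only [id] at h7
  simp only [fz] at h7
  linarith

end T3

theorem t3 (hB : Bas) (hX : Box) (hD : Dv) (h1 : MVSt) (h2 : PBSt) : T3St := by
  obtain ⟨c, C, hC0, h⟩ := h1
  exact ⟨c, C, hC0, T3.one hB hX hD h2 c C hC0 h, T3.two hB hX c C hC0 h⟩

end Pool.Agent.Lib.MP_4b1228_nt.GS
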