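import Pool.Agent.Lib.MP_4b1228_nt.GS.St

/-! The sieve on the cofactor. -/

namespace Pool.Agent.Lib.MP_4b1228_nt.GS

open Finset Pool.Agent.Lib.MP_9d27bc_nt.C Pool.Agent.Lib.MP_9d27bc_nt.C.Two
open scoped Classical

namespace TC

variable {ι : Type} {S : Finset ι} {v : ι → GI} {Z : ℕ} {P₁ P₂ : ℝ}

theorem D0_nonneg (S : Finset ι) (v : ι → GI) : 0 ≤ D0 S v :=
  sum_nonneg fun _ _ => by positivity

theorem one (hB : Bas) (hv : ∀ i ∈ S, v i ≠ 0) (hZ : 1 ≤ Z) (hP : 0 < P₁) (E : GI → Prop) :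
    |∑ w ∈ S ×ˢ ({m ∈ Sq P₁ P₂ | E m} : Finset GI), ww Z (v w.1 * w.2) - D0 S v * ms E P₁ P₂| ≤
      ∑ t ∈ fz Z, ‖hat S v t‖ * ‖sm E P₁ P₂ t‖ := by
  have h := hB.expand _ (S ×ˢ ({m ∈ Sq P₁ P₂ | E m} : Finset GI)) (fun w => v w.1 * id w.2) Z hZ
    fun w hw => mul_ne_zero (hv _ (mem_product.1 hw).1) fun e => by
      have h1 := ((hB.mem_Sq _ _ _).1 (mem_filter.1 (mem_product.1 hw).2).1).1
      rw [show w.2 = 0 from e] at h1
      simp only [mx, Zsqrtd.re_zero, Zsqrtd.im_zero, Int.natAbs_zero, max_self,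
        Nat.cast_zero] at h1
      linarith
  simp only [hB.D0_mul, hB.hat_mul, norm_mul] at h
  exact h

theorem split {q : ℕ} (hq : 1 ≤ q) {E : GI → Prop} (hE : PerZ q E) (A : Finset GI)
    (f : ι × GI → ℝ) : ∑ w ∈ S ×ˢ A with E w.2, f w =
      ∑ c ∈ sqr 0 0 q with E c, ∑ w ∈ S ×ˢ ({m ∈ A | cls q c m} : Finset GI), f w := by
  have hq' : (0 : ℤ) < q := by exact_mod_cast hq
  rw [← sum_fiberwise_of_maps_to (g := fun w => Sh.rep q w.2)
    (t := {c ∈ sqr 0 0 q | E c}) fun w hw => ?_]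
  · refine sum_congr rfl fun c hc => sum_congr ?_ fun _ _ => rfl
    obtain ⟨h1, h2⟩ := mem_filter.1 hc
    ext w
    simp only [mem_filter, mem_product, Sh.rep_eq hA q c h1]
    exact ⟨fun h => ⟨h.1.1.1, h.1.1.2, h.2⟩, fun h => ⟨⟨⟨h.1, h.2.1⟩, (hE _ _ h.2.2).2 h2⟩, h.2.2⟩⟩
  · refine mem_filter.2 ⟨?_, (hE _ _ (Sh.dvd_rep hA q w.2)).1 (mem_filter.1 hw).2⟩
    rw [Sh.mem_sqr]
    simp only [Sh.rep, zero_add]
    exact ⟨Int.emod_nonneg _ hq'.ne', Int.emod_lt_of_pos _ hq', Int.emod_nonneg _ hq'.ne',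
      Int.emod_lt_of_pos _ hq'⟩

end TC

open TC in
theorem tc (hB : Bas) (h1 : FLq) (h2 : DenSt) : TCSt := by
  obtain ⟨C₁, hC₁, h1⟩ := h1 2 two_pos
  obtain ⟨C₂, hC₂, h2⟩ := h2
  refine ⟨C₁ + C₂, by positivity, fun k hk ι S v Z z P₁ P₂ E hz hv hZ hP hE hs => ?_⟩
  have mp := fun l => (hG.2.2.2.2.2.2.2.2.2.2.2.2.2.2.2.2.2.2.2.2 0 z l).1
  have hD := D0_nonneg S v
  have hm : 0 ≤ m0 P₁ P₂ := sum_nonneg fun _ _ => by positivity
  have hU : 0 < z ^ (4 * k + 6) := by positivity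
  have hP0 : 0 < P₁ := by linarith
  have key := h1 k (by linarith) _ (S ×ˢ Sq P₁ P₂) (fun w => ww Z (v w.1 * w.2)) (pr 0 z)
    (fun l w => l ∣ nm w.2) nu (D0 S v * m0 P₁ P₂)
    ((z ^ (4 * k + 6)) ^ 2 * (E + C₂ * D0 S v * z ^ (4 * k + 6) / P₁)) z hz
    (fun _ _ => hB.ww_nonneg _ _) (fun l hl => by
      obtain ⟨a1, -, a2⟩ := (mp l).1 hl
      obtain ⟨b1, b2, b3, -⟩ := Mer.seventh a1
      exact ⟨a1, a2, b1, b2, b3⟩) (by positivity) (by positivity) fun T hT hq => by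
      have hp : ∀ l ∈ T, l.Prime := fun l hl => ((mp l).1 (hT hl)).1
      obtain ⟨n1, n2⟩ := hNu T hp
      have q1 : 1 ≤ ∏ l ∈ T, l := prod_pos fun l hl => (hp l hl).pos
      rw [← Nat.cast_prod] at hq
      generalize ∏ l ∈ T, l = q at *
      have q0 : (0 : ℝ) < q := by exact_mod_cast q1
      have e := split (S := S) q1 n1 (Sq P₁ P₂) fun w => ww Z (v w.1 * w.2)
      have e' : D0 S v * m0 P₁ P₂ * ∏ l ∈ T, nu l =
          ∑ _c ∈ sqr 0 0 q with ∀ l ∈ T, l ∣ nm _c, D0 S v * (m0 P₁ P₂ / (q : ℝ) ^ 2) := by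
        rw [sum_const, nsmul_eq_mul, n2]
        field_simp
      have hc : (#{c ∈ sqr 0 0 q | ∀ l ∈ T, l ∣ nm c} : ℝ) ≤ (z ^ (4 * k + 6)) ^ 2 := by
        have := card_filter_le (sqr 0 0 q) fun c => ∀ l ∈ T, l ∣ nm c
        rw [Sh.card_sqr] at this
        exact le_trans (by exact_mod_cast this) (pow_le_pow_left₀ q0.le hq 2)
      refine le_trans (le_of_eq (congrArg _ ?_)) (((abs_sum_le_sum_abs _ _).trans
        (sum_le_card_nsmul {c ∈ sqr 0 0 q | ∀ l ∈ T, l ∣ nm c} (fun c => |∑ w ∈ S ×ˢ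
          ({m ∈ Sq P₁ P₂ | cls q c m} : Finset GI), ww Z (v w.1 * w.2) -
          D0 S v * (m0 P₁ P₂ / (q : ℝ) ^ 2)|) (E + C₂ * D0 S v * z ^ (4 * k + 6) / P₁)
          fun c _ => ?_)).trans ?_)
      · rw [sum_sub_distrib, ← e']
        congr 1
        convert e
      · have a1 := (one (P₂ := P₂) hB hv hZ hP0 (cls q c)).trans (hs q c q1 hq)
        have a2 := mul_le_mul_of_nonneg_left ((h2 q c P₁ P₂ q1 (by linarith)).trans
          (div_le_div_of_nonneg_right (mul_le_mul_of_nonneg_left hq hC₂.le) hP0.le)) hD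
        rw [← abs_of_nonneg hD, ← abs_mul, abs_of_nonneg hD, mul_sub] at a2
        refine (abs_sub_le _ _ _).trans ((add_le_add a1 a2).trans (le_of_eq ?_))
        ring
      · rw [nsmul_eq_mul]
        exact mul_le_mul_of_nonneg_right hc (by positivity)
  have hV : 0 ≤ VV z := prod_nonneg fun l hl => by
    linarith [(Mer.seventh ((mp l).1 hl).1).2.2.1]
  have e : AA z Z S v P₁ P₂ =
      ∑ w ∈ S ×ˢ Sq P₁ P₂ with ∀ l ∈ pr 0 z, ¬l ∣ nm w.2, ww Z (v w.1 * w.2) := by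
    rw [AA, sum_filter, sum_product]
    refine sum_congr rfl fun i _ => ?_
    rw [sum_filter]
    refine sum_congr rfl fun m _ => if_congr ⟨fun h l hl hd => ?_, fun h l hl hd => ?_⟩ rfl rfl
    · exact (h l ((mp l).1 hl).1 hd).not_ge ((mp l).1 hl).2.2
    · exact lt_of_not_ge fun hz => h l ((mp l).2 ⟨hl, by exact_mod_cast hl.pos, hz⟩) hd
  rw [e]
  unfold VV at hV ⊢
  refine le_trans (le_of_eq (by congr)) (key.trans (add_le_add ?_ ?_))
  · exact mul_le_mul_of_nonneg_right (div_le_div_of_nonneg_right (by linarith) (by positivity))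
      (mul_nonneg (mul_nonneg hD hm) hV)
  · rw [mul_comm 2, pow_mul, mul_right_comm, ← pow_add]
    gcongr
    linarith

end Pool.Agent.Lib.MP_4b1228_nt.GS
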