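import Pool.Agent.Lib.MP_4b1228_nt.GS.St

/-! The variance of the number of slopes in a short interval. -/

namespace Pool.Agent.Lib.MP_4b1228_nt.GS

open Finset MeasureTheory

namespace Var

/-- the increment of the fractional part -/
noncomputable def ee (h α c s : ℝ) : ℝ := Int.fract (α * (s + h) + c) - Int.fract (α * s + c)

variable {h α β c d τ δ L : ℝ} {m : ℕ}

theorem herm0 (hm : 0 < m) (n : ℤ) : ∑ j ∈ range m, (n + j) / (m : ℤ) = n := by
  have key : ∀ n : ℤ, ∑ j ∈ range m, (n + 1 + j) / (m : ℤ) = ∑ j ∈ range m, (n + j) / (m : ℤ) + 1 :=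
    fun n => by
      have h1 := sum_range_succ (fun j : ℕ => (n + j) / (m : ℤ)) m
      rw [sum_range_succ', Int.add_ediv_of_dvd_right dvd_rfl, Int.ediv_self (by omega)] at h1
      simp only [Nat.cast_add, Nat.cast_one, Nat.cast_zero, add_zero, ← add_assoc,
        add_right_comm n _ 1] at h1
      omega
  induction n using Int.induction_on with
  | zero => exact sum_eq_zero fun j hj => Int.ediv_eq_zero_of_lt (by omega) (by simpa using hj)
  | succ n ih => rw [key, ih]
  | pred n ih =>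
    have := key (-n - 1)
    rw [sub_add_cancel, ih] at this
    omega

theorem herm (hm : 0 < m) (x : ℝ) : ∑ j ∈ range m, (⌊x + j / m⌋ : ℝ) = ⌊m * x⌋ := by
  have h0 : (m : ℝ) ≠ 0 := by positivity
  rw [← herm0 hm ⌊m * x⌋, Int.cast_sum]
  refine sum_congr rfl fun j _ => ?_
  rw [← Int.floor_add_natCast, ← Int.floor_div_natCast, add_div, mul_div_cancel_left₀ _ h0]

theorem herm2 (hm : 0 < m) (s : ℝ) :
    ∑ j ∈ range m, ee h α (c + j / m) s = ee h (m * α) (m * c) s := by
  have e : ∀ j : ℕ, ee h α (c + j / m) s =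
      α * h - ⌊α * (s + h) + c + j / m⌋ + ⌊α * s + c + j / m⌋ := fun j => by
    simp only [ee, Int.fract, add_assoc]
    ring
  simp only [e, sum_add_distrib, sum_sub_distrib, herm hm, sum_const, card_range, nsmul_eq_mul]
  simp only [ee, Int.fract, mul_add, mul_assoc]
  ring

theorem shift (k : ℤ) (hk : α * τ = k + δ) (s : ℝ) : ee h α c (s + τ) = ee h α (c + δ) s := by
  rw [ee, ee, show α * (s + τ + h) + c = α * (s + h) + (c + δ) + k by linear_combination hk,
    show α * (s + τ) + c = α * s + (c + δ) + k by linear_combination hk, Int.fract_add_intCast,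
    Int.fract_add_intCast]

theorem per (k : ℤ) (hk : α * τ = k) (s : ℝ) : ee h α c (s + τ) = ee h α c s := by
  simpa using shift (δ := 0) k (by simpa using hk) s

theorem ee_le (s : ℝ) : |ee h α c s| ≤ 1 := by
  have := Int.fract_nonneg (α * (s + h) + c)
  have := Int.fract_lt_one (α * (s + h) + c)
  have := Int.fract_nonneg (α * s + c)
  have := Int.fract_lt_one (α * s + c)
  rw [ee, abs_le]
  constructor <;> linarith

theorem ee_meas : Measurable (ee h α c) := by
  unfold ee
  fun_prop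

theorem ii {f : ℝ → ℝ} (h1 : Measurable f) (h2 : ∀ s, |f s| ≤ 1) (a b : ℝ) :
    IntervalIntegrable f volume a b :=
  (intervalIntegrable_const (c := (1 : ℝ))).mono_fun' h1.aestronglyMeasurable (ae_of_all _ h2)

theorem ii2 (a b : ℝ) : IntervalIntegrable (fun s => ee h α c s * ee h β d s) volume a b :=
  ii (ee_meas.mul ee_meas) (fun s => (abs_mul _ _).trans_le
    (mul_le_one₀ (ee_le s) (abs_nonneg _) (ee_le s))) a b

theorem move {f : ℝ → ℝ} (hf : Function.Periodic f L) (a t : ℝ) :
    ∫ s in a..a + L, f (s + t) = ∫ s in a..a + L, f s := by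
  rw [intervalIntegral.integral_comp_add_right, add_right_comm, hf.intervalIntegral_add_eq]

theorem avg (hm : 0 < m) (a : ℝ) (k₁ k₂ k₃ k₄ : ℤ) (h1 : α * L = k₁) (h2 : β * L = k₂)
    (h3 : β * τ = k₃) (h4 : α * τ = k₄ + 1 / m) :
    m * ∫ s in a..a + L, ee h α c s * ee h β d s =
      ∫ s in a..a + L, ee h (m * α) (m * c) s * ee h β d s := by
  simp only [← herm2 hm, sum_mul]
  rw [intervalIntegral.integral_finsetSum fun _ _ => ii2 _ _, ← nsmul_eq_mul,
    ← card_range m, ← sum_const, card_range]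
  refine sum_congr rfl fun j _ => ?_
  rw [← move (f := fun s => ee h α c s * ee h β d s) (fun s => by
    simp only [per k₁ h1, per k₂ h2]) a (j * τ)]
  congr 1
  funext s
  rw [shift (δ := j / m) (j * k₄) (by push_cast; linear_combination j * h4),
    per (j * k₃) (by push_cast; linear_combination j * h3)]

theorem sq_le (a : ℝ) (k : ℤ) (h1 : α * L = k) (hL : 0 ≤ L) (h0 : 0 ≤ α * h) :
    ∫ s in a..a + L, ee h α c s * ee h α c s ≤ 2 * (α * h) * L := by
  have hf : ∀ t : ℝ, IntervalIntegrable (fun s => Int.fract (α * (s + t) + c)) volume a (a + L) :=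
    fun t => ii (by fun_prop) (fun s => by rw [Int.abs_fract]; exact (Int.fract_lt_one _).le) _ _
  have h2 : ∫ s in a..a + L, ee h α c s = 0 := by
    unfold ee
    rw [intervalIntegral.integral_sub (hf h) (by simpa using hf 0),
      move (f := fun s => Int.fract (α * s + c)) (fun s => by
        simp only [show α * (s + L) + c = α * s + c + k by linear_combination h1,
          Int.fract_add_intCast]), sub_self]
  have h3 := ii (ee_meas (h := h) (α := α) (c := c)) ee_le a (a + L)
  refine (intervalIntegral.integral_mono_on (g := fun s => 2 * (α * h) - ee h α c s) (by linarith)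
    (ii2 _ _) (intervalIntegrable_const.sub h3) fun s _ => ?_).trans (le_of_eq ?_)
  · have h4 := abs_le.1 (ee_le (h := h) (α := α) (c := c) s)
    have h5 : ee h α c s ≤ α * h := by
      have : (⌊α * s + c⌋ : ℝ) ≤ ⌊α * (s + h) + c⌋ := Int.cast_le.2 (Int.floor_mono (by linarith))
      simp only [ee, Int.fract]
      linarith
    rcases le_total 0 (ee h α c s) with h6 | h6 <;> nlinarith
  · rw [intervalIntegral.integral_sub intervalIntegrable_const h3, h2]
    rw [intervalIntegral.integral_const, smul_eq_mul]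
    ring

theorem pair {q p p' : ℕ} (hq : 0 < q) (hp : 0 < p) (hp' : 0 < p') (h0 : 0 ≤ h) (a c d : ℝ) :
    ∫ s in a..a + q, ee h (p / q) c s * ee h (p' / q) d s ≤ 2 * h * Nat.gcd p p' := by
  obtain ⟨g, u, v, hg, hc, rfl, rfl⟩ := Nat.exists_coprime' (Nat.gcd_pos_of_pos_left p' hp)
  have hu : 0 < u := Nat.pos_of_mul_pos_right hp
  have hv : 0 < v := Nat.pos_of_mul_pos_right hp'
  obtain ⟨A, B, hAB⟩ := Nat.isCoprime_iff_coprime.2 hc
  have hAB' : (A : ℝ) * u + B * v = 1 := by exact_mod_cast hAB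
  rw [Nat.gcd_mul_right, hc, one_mul]
  have e1 := avg (h := h) (c := c) (d := d) (α := (u * g : ℕ) / q) (β := (v * g : ℕ) / q) (L := q)
    (τ := q * A / (v * g)) hv a (u * g) (v * g) A (-B) (by push_cast; field_simp)
    (by push_cast; field_simp) (by push_cast; field_simp)
    (by push_cast; field_simp; linear_combination hAB')
  have e2 := avg (h := h) (c := d) (d := v * c) (α := (v * g : ℕ) / q)
    (β := v * ((u * g : ℕ) / q)) (L := q) (τ := q / (u * v * g)) hu a (v * g) (v * (u * g)) 1 0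
    (by push_cast; field_simp) (by push_cast; field_simp) (by push_cast; field_simp)
    (by push_cast; field_simp; ring)
  rw [show (u : ℝ) * ((v * g : ℕ) / q) = v * ((u * g : ℕ) / q) by push_cast; ring] at e2
  simp only [mul_comm (ee h ((v * g : ℕ) / q) d _)] at e2
  have e3 := fun c => sq_le (h := h) (c := c) (α := v * ((u * g : ℕ) / q)) (L := q) a (v * (u * g))
    (by push_cast; field_simp) (by positivity) (by positivity)
  rw [show 2 * (v * (((u * g : ℕ) : ℝ) / q) * h) * q = u * (v * (2 * h * g)) by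
    push_cast; field_simp] at e3
  refine le_of_mul_le_mul_left (le_of_mul_le_mul_left ?_ (Nat.cast_pos.2 hu)) (Nat.cast_pos.2 hv)
  rw [e1, e2]
  generalize (v : ℝ) * (((u * g : ℕ) : ℝ) / q) = γ at e3 ⊢
  have e4 := intervalIntegral.integral_mono_on (μ := volume) (a := a) (b := a + q)
    (g := fun s => 1 / 2 * (ee h γ (u * d) s * ee h γ (u * d) s +
      ee h γ (v * c) s * ee h γ (v * c) s)) (by simp) (ii2 _ _)
    (((ii2 _ _).add (ii2 _ _)).const_mul _) fun s _ =>
      show ee h γ (u * d) s * ee h γ (v * c) s ≤ _ by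
        nlinarith [sq_nonneg (ee h γ (u * d) s - ee h γ (v * c) s)]
  rw [intervalIntegral.integral_const_mul, intervalIntegral.integral_add (ii2 _ _) (ii2 _ _)] at e4
  linarith [e3 (u * d), e3 (v * c)]

theorem tail (A : Finset ℕ) {x : ℝ} (h0 : 0 < x) (hA : ∀ i ∈ A, x < i) :
    ∑ i ∈ A, 1 / (i : ℝ) ^ 2 ≤ 2 / max x 1 := by
  refine (sum_le_sum_of_subset_of_nonneg (t := Ioo ⌊x⌋₊ (A.sup id + 1)) (fun i hi => mem_Ioo.2
    ⟨(Nat.floor_lt h0.le).2 (hA i hi), Nat.lt_succ_of_le (le_sup (f := id) hi)⟩)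
    fun _ _ _ => by positivity).trans ?_
  simp only [one_div]
  refine (sum_Ioo_inv_sq_le _ _).trans ?_
  gcongr
  exact max_le (Nat.lt_floor_add_one x).le (by simp)

theorem mult (A : Finset ℕ) {P : ℝ} (h0 : 0 < P) (hA : ∀ p ∈ A, P < p) {g : ℕ} (hg : 0 < g) :
    ∑ p ∈ A with g ∣ p, 1 / (p : ℝ) ^ 2 ≤ 2 / (g * max P g) := by
  have hg' : (0 : ℝ) < g := by positivity
  have h1 := tail ((A.filter (g ∣ ·)).image (· / g)) (div_pos h0 hg') fun i hi => by
    obtain ⟨p, hp, rfl⟩ := mem_image.1 hi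
    rw [Nat.cast_div (mem_filter.1 hp).2 hg'.ne']
    exact div_lt_div_of_pos_right (hA p (mem_filter.1 hp).1) hg'
  rw [sum_image fun p hp p' hp' e => (Nat.div_left_inj (mem_filter.1 hp).2
    (mem_filter.1 hp').2).1 e] at h1
  have h2 : max P g = g * max (P / g) 1 := by
    rw [mul_max_of_nonneg _ _ hg'.le, mul_div_cancel₀ _ hg'.ne', mul_one]
  refine le_of_eq_of_le ?_ ((mul_le_mul_of_nonneg_left h1 (show 0 ≤ 1 / (g : ℝ) ^ 2 by
    positivity)).trans_eq (by rw [h2]; field_simp))
  rw [mul_sum]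
  refine sum_congr rfl fun p hp => ?_
  rw [Nat.cast_div (mem_filter.1 hp).2 hg'.ne']
  field_simp

theorem gcds (A : Finset ℕ) {P : ℝ} (h0 : 1 / 2 ≤ P) (hA : ∀ p ∈ A, P < p) :
    ∑ p ∈ A, ∑ p' ∈ A, (Nat.gcd p p' : ℝ) * (1 / (p : ℝ) ^ 2 * (1 / (p' : ℝ) ^ 2)) ≤
      12 * (1 + Real.log (2 * P)) / P ^ 2 := by
  have hP : 0 < P := by linarith
  have hl : 0 ≤ Real.log (2 * P) := Real.log_nonneg (by linarith)
  set G := Icc 1 (A.sup id)
  calc _ ≤ ∑ p ∈ A, ∑ p' ∈ A, ∑ g ∈ G, (g : ℝ) * ((if g ∣ p then 1 / (p : ℝ) ^ 2 else 0) *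
        (if g ∣ p' then 1 / (p' : ℝ) ^ 2 else 0)) := by
        refine sum_le_sum fun p hp => sum_le_sum fun p' _ => ?_
        have h1 : 0 < p := Nat.cast_pos.1 (hP.trans (hA p hp))
        refine le_of_eq_of_le ?_ (single_le_sum (a := Nat.gcd p p') (fun g _ => by positivity)
          (mem_Icc.2 ⟨Nat.gcd_pos_of_pos_left _ h1, (Nat.gcd_le_left _ h1).trans
            (le_sup (f := id) hp)⟩))
        rw [if_pos (Nat.gcd_dvd_left _ _), if_pos (Nat.gcd_dvd_right _ _)]
    _ = ∑ g ∈ G, (g : ℝ) * (∑ p ∈ A with g ∣ p, 1 / (p : ℝ) ^ 2) ^ 2 := by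
        simp only [sum_filter, sq (∑ _ ∈ A, _), sum_mul_sum]
        simp only [mul_sum]
        rw [sum_comm (s := G)]
        exact sum_congr rfl fun _ _ => sum_comm
    _ ≤ ∑ g ∈ G, 4 / (g * max P g ^ 2) := sum_le_sum fun g hg => by
        have h1 : 0 < g := (mem_Icc.1 hg).1
        refine (mul_le_mul_of_nonneg_left (pow_le_pow_left₀ (by positivity) (mult A hP hA h1) 2)
          (by positivity)).trans_eq ?_
        field_simp
        norm_num
    _ ≤ 4 / P ^ 2 * ∑ g ∈ Icc 1 ⌊P⌋₊, (g : ℝ)⁻¹ + 4 / P * ∑ g ∈ G with P < (g : ℕ), 1 / (g : ℝ) ^ 2 := by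
        rw [← sum_filter_add_sum_filter_not G fun g : ℕ => P < g, add_comm, mul_sum, mul_sum]
        refine add_le_add ((sum_le_sum_of_subset_of_nonneg (fun g hg => ?_)
          fun _ _ _ => by positivity).trans (sum_le_sum fun g hg => ?_)) (sum_le_sum fun g hg => ?_)
        · exact mem_Icc.2 ⟨(mem_Icc.1 (mem_filter.1 hg).1).1,
            Nat.le_floor (not_lt.1 (mem_filter.1 hg).2)⟩
        · rw [max_eq_left ((Nat.le_floor_iff hP.le).1 (mem_Icc.1 hg).2)]
          exact le_of_eq (by ring)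
        · have h1 := (mem_filter.1 hg).2
          have h2 := hP.trans h1
          rw [max_eq_right h1.le, div_mul_div_comm, mul_one]
          gcongr
    _ ≤ 4 / P ^ 2 * (1 + Real.log (2 * P)) + 4 / P * (2 / P) := by
        gcongr
        · have h1 := harmonic_le_one_add_log ⌊P⌋₊
          rw [harmonic_eq_sum_Icc] at h1
          push_cast at h1
          refine h1.trans (add_le_add_right ?_ _)
          rcases Nat.eq_zero_or_pos ⌊P⌋₊ with h | h
          · simpa [h] using hl
          · exact Real.log_le_log (by positivity) (by linarith [Nat.floor_le hP.le])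
        · refine (tail _ hP fun i hi => (mem_filter.1 hi).2).trans ?_
          gcongr
          exact le_max_left _ _
    _ ≤ _ := by
        rw [le_div_iff₀ (by positivity), show (4 / P ^ 2 * (1 + Real.log (2 * P)) + 4 / P * (2 / P))
          * P ^ 2 = 4 * (1 + Real.log (2 * P)) + 8 by field_simp; ring]
        linarith

end Var

open Var in
theorem var : VarSt := by
  refine ⟨24, by norm_num, fun q ρ A P h a hq hP hA h0 => ?_⟩
  have e : ∀ s : ℝ, (DD q ρ A (s + h) - DD q ρ A s) ^ 2 = ∑ p ∈ A, ∑ p' ∈ A,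
      ee h (p / q) (-ρ / q) s * ee h (p' / q) (-ρ / q) s *
        (1 / (p : ℝ) ^ 2 * (1 / (p' : ℝ) ^ 2)) := fun s => by
    have e1 : ∀ (p : ℕ) (t : ℝ), (p * t - ρ) / q = p / q * t + -ρ / q := fun p t => by ring
    simp only [DD, ← sum_sub_distrib, ← sub_div, e1, sq (∑ _ ∈ A, _), sum_mul_sum, ee]
    exact sum_congr rfl fun _ _ => sum_congr rfl fun _ _ => by ring
  simp only [e]
  rw [intervalIntegral.integral_finsetSum fun _ _ => by
    simpa only [Finset.sum_fn] using IntervalIntegrable.sum _ fun _ _ => (ii2 _ _).mul_const _]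
  refine le_trans (sum_le_sum fun p hp => ?_) ((mul_sum _ _ (2 * h)).ge.trans
    ((mul_le_mul_of_nonneg_left (gcds A hP hA) (by positivity)).trans_eq (by ring)))
  rw [intervalIntegral.integral_finsetSum fun _ _ => (ii2 _ _).mul_const _, mul_sum]
  refine sum_le_sum fun p' hp' => ?_
  have hp0 : ∀ p ∈ A, 0 < p := fun p hp => Nat.cast_pos.1 (by linarith [hA p hp] : (0 : ℝ) < p)
  rw [intervalIntegral.integral_mul_const, ← mul_assoc (2 * h)]
  exact mul_le_mul_of_nonneg_right (pair hq (hp0 p hp) (hp0 p' hp') h0 _ _ _) (by positivity)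

end Pool.Agent.Lib.MP_4b1228_nt.GS
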