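import Pool.Agent.Lib.MP_4b1228_nt.GS.AbsA
import Pool.Agent.Lib.MP_4b1228_nt.GS.AbsB
import Pool.Agent.Lib.MP_4b1228_nt.GS.Ar
import Pool.Agent.Lib.MP_4b1228_nt.GS.Bas
import Pool.Agent.Lib.MP_4b1228_nt.GS.Box
import Pool.Agent.Lib.MP_4b1228_nt.GS.Co
import Pool.Agent.Lib.MP_4b1228_nt.GS.Cub
import Pool.Agent.Lib.MP_4b1228_nt.GS.DS
import Pool.Agent.Lib.MP_4b1228_nt.GS.Den
import Pool.Agent.Lib.MP_4b1228_nt.GS.Dv
import Pool.Agent.Lib.MP_4b1228_nt.GS.Eab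
import Pool.Agent.Lib.MP_4b1228_nt.GS.End
import Pool.Agent.Lib.MP_4b1228_nt.GS.FLq
import Pool.Agent.Lib.MP_4b1228_nt.GS.Fam
import Pool.Agent.Lib.MP_4b1228_nt.GS.GEP
import Pool.Agent.Lib.MP_4b1228_nt.GS.GRow
import Pool.Agent.Lib.MP_4b1228_nt.GS.Gd
import Pool.Agent.Lib.MP_4b1228_nt.GS.ID
import Pool.Agent.Lib.MP_4b1228_nt.GS.LS
import Pool.Agent.Lib.MP_4b1228_nt.GS.MV
import Pool.Agent.Lib.MP_4b1228_nt.GS.Main
import Pool.Agent.Lib.MP_4b1228_nt.GS.Mert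
import Pool.Agent.Lib.MP_4b1228_nt.GS.NN
import Pool.Agent.Lib.MP_4b1228_nt.GS.Oct
import Pool.Agent.Lib.MP_4b1228_nt.GS.PB
import Pool.Agent.Lib.MP_4b1228_nt.GS.PW
import Pool.Agent.Lib.MP_4b1228_nt.GS.S2
import Pool.Agent.Lib.MP_4b1228_nt.GS.Sign
import Pool.Agent.Lib.MP_4b1228_nt.GS.Str
import Pool.Agent.Lib.MP_4b1228_nt.GS.T1
import Pool.Agent.Lib.MP_4b1228_nt.GS.T3
import Pool.Agent.Lib.MP_4b1228_nt.GS.TC
import Pool.Agent.Lib.MP_4b1228_nt.GS.TI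
import Pool.Agent.Lib.MP_4b1228_nt.GS.Tup
import Pool.Agent.Lib.MP_4b1228_nt.GS.Var

/-!
All blocks together.
-/

namespace Pool.Agent.Lib.MP_4b1228_nt.GS

theorem bX : Box := box bas
theorem bD : Dv := dv bas bX
theorem bS : S2St := s2 bas (oct bas var)
theorem bL : LSSt := ls bas
theorem bT : T1St := t1 bas (tc bas flq (den bas)) (ea bas bS bL) (eb bas bS bL (pw bas cub))
theorem bU : UBSt := ub bas bT
theorem bM : MVSt := mv bas bT bU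
theorem bN : NNSt := nn bas bS
theorem bP : PBSt := pb bX (ds bas (gep grow) absA absB (ar bas) mert) mert
theorem bC : CoSt := co (ti bas bX bD bT) (idS bas bX bD sign) bN bU
theorem bG : GdSt := gd bas bX (tup bas bX bD) (t3 bas bX bD bM bP) bN sign
theorem bB : BdSt := bd bas bX (tup bas bX bD) bN mert sign

theorem all (q : Par) (hq : q.OK) (hlt : q.J₁ < q.J₂) (hτ : 2 * q.τ = q.J₁) (h : LossSt q)
    (θ : ℝ) (hθ : 1 / 2 - (q.g : ℝ) / q.J₁ < θ) : FinSt2 θ :=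
  fin2 bX (ext bas bX) (fam bas bX) θ (main q hq hlt hτ bC bG bB h θ hθ)

end Pool.Agent.Lib.MP_4b1228_nt.GS
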