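import Pool.Agent.Lib.MP_4b1228_nt.GS.St3
import Pool.Agent.Lib.MP_4b1228_nt.GS.Gd
import Pool.Agent.Lib.MP_4b1228_nt.GS.Co

/-! The good sets and the bad sets of primes, for general weights. -/

namespace Pool.Agent.Lib.MP_4b1228_nt.GS

open Finset Filter Topology Pool.Agent.Lib.MP_9d27bc_nt.C Pool.Agent.Lib.MP_9d27bc_nt.C.Two
open scoped Classical

namespace GdG

theorem T_abs {s : Sv} (hs : s.Wt) (M : Multiset ℕ) : |s.T M| ≤ 100 * 2 ^ M.card := by
  have h := hs.2.2.2.2.1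
  have a1 : (M.powerset.map s.yy).sum ≤ (M.powerset.map s.yy).card • (100 : ℝ) :=
    Multiset.sum_le_card_nsmul _ _ fun x hx => by
      obtain ⟨A, -, rfl⟩ := Multiset.mem_map.1 hx
      exact (abs_le.1 (h A)).2
  have a2 : (M.powerset.map s.yy).card • (-100 : ℝ) ≤ (M.powerset.map s.yy).sum :=
    Multiset.card_nsmul_le_sum fun x hx => by
      obtain ⟨A, -, rfl⟩ := Multiset.mem_map.1 hx
      exact (abs_le.1 (h A)).1
  rw [Multiset.card_map, Multiset.card_powerset, nsmul_eq_mul] at a1 a2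
  push_cast at a1 a2
  exact abs_le.2 ⟨by unfold Sv.T; linarith, by unfold Sv.T; linarith⟩

theorem T_one {s : Sv} (hs : s.Wt) {j : ℕ} (hj : s.J₁ ≤ j) : s.T {j} = 1 := by
  have e : ({j} : Multiset ℕ) = j ::ₘ 0 := rfl
  have e1 : s.yy {j} = 0 := hs.2.2.2.2.2.1 _ (by simpa using hj)
  rw [Sv.T, e, Multiset.powerset_cons]
  simp [hs.2.2.2.1, e1]

theorem not_B {s : Sv} (hs : s.Wt) (j : ℕ) : ¬s.B {j} := by
  rintro (k | ⟨A, B, e, hA, hB⟩)
  · simpa using hs.2.2.2.2.2.2.1 _ k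
  · have e0 := hs.1
    have e1 := congrArg Multiset.card e
    have e3 : A ≠ 0 := by
      rintro rfl
      simp only [Multiset.sum_zero] at hA
      omega
    have e4 : B ≠ 0 := by
      rintro rfl
      simp only [Multiset.sum_zero] at hB
      omega
    have e5 := Multiset.card_pos.2 e3
    have e6 := Multiset.card_pos.2 e4
    simp only [Multiset.card_singleton, Multiset.card_add] at e1
    omega

theorem split (hX : Box) (s : Sv) {y : ℝ} (hy : 1 < y) {j₀ : ℕ} (hj : 1 ≤ j₀) (Z : ℕ)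
    (F : Multiset ℕ → ℝ) : s.sc y j₀ Z F = ∑ r ∈ range (s.J₂ + 1),
      ∑ S ∈ NS y j₀ (s.J₂ + 1) with #S = r, (fun M : Multiset ℕ =>
        if s.J₁ ≤ M.sum ∧ M.sum ≤ s.J₂ then F M else 0) (im y S) * ww Z (∏ π ∈ S, π) := by
  rw [Sv.sc, ← sum_fiberwise_of_maps_to (t := range (s.J₂ + 1)) (g := fun S => #S) fun S hS => ?_]
  · refine sum_congr rfl fun r _ => ?_
    rw [filter_comm, sum_filter]
    exact sum_congr rfl fun S _ => by split_ifs <;> simp [*]
  · obtain ⟨k1, -, k2⟩ := mem_filter.1 hS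
    have := (hX.nm_set y j₀ _ S hy (mem_powerset.1 (mem_filter.1 k1).1)).2.2.1
    have := Nat.le_mul_of_pos_left (#S) hj
    exact mem_range.2 (by omega)

theorem bad (hB : Bas) (hX : Box) {s : Sv} (hs : s.Wt) {y : ℝ} (hy : 1 < y) (j₀ Z : ℕ) :
    (s.sc y j₀ Z fun M => if s.B M then 0 else s.T M) ≤ ∑ π ∈ PP y s.J₁ (s.J₂ + 1), ww Z π := by
  have w0 := hB.ww_nonneg Z
  have a1 : ∑ S ∈ {S ∈ NS y j₀ (s.J₂ + 1) | s.J₁ ≤ (im y S).sum ∧ (im y S).sum ≤ s.J₂} with
      #S = 1, ww Z (∏ π ∈ S, π) ≤ ∑ π ∈ PP y s.J₁ (s.J₂ + 1), ww Z π := by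
    refine (sum_le_sum_of_subset_of_nonneg (t := (PP y s.J₁ (s.J₂ + 1)).image fun π => {π})
      (fun S hS => ?_) fun _ _ _ => w0 _).trans ((sum_image_le_of_nonneg fun _ _ => w0 _).trans
        (by simp))
    obtain ⟨k1, k2⟩ := mem_filter.1 hS
    obtain ⟨π, rfl⟩ := card_eq_one.1 k2
    obtain ⟨k3, k4, k5⟩ := mem_filter.1 k1
    have e : (im y {π}).sum = ix y π := by simp [im]
    rw [e] at k4 k5
    exact mem_image.2 ⟨π, Gd.memP hX hy (mem_powerset.1 (mem_filter.1 k3).1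
      (mem_singleton_self π)) k4 (by omega), rfl⟩
  refine le_trans ?_ a1
  rw [Sv.sc, sum_filter (fun S : Finset GI => #S = 1)]
  refine sum_le_sum fun S hS => ?_
  obtain ⟨-, k4, k5⟩ := mem_filter.1 hS
  have e : (im y S).card = #S := by simp [im]
  rw [← e]
  generalize im y S = M at k4 k5
  have w1 := w0 (∏ π ∈ S, π)
  generalize ww Z (∏ π ∈ S, π) = w at w1
  by_cases g : s.B M
  · rw [if_pos g, zero_mul]
    split_ifs <;> simp [w1]
  rw [if_neg g]
  rcases Nat.lt_trichotomy M.card 1 with k | k | k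
  · obtain rfl := Multiset.card_eq_zero.1 (Nat.lt_one_iff.1 k)
    rw [Multiset.sum_zero] at k4
    have o1 := hs.1
    have o2 := hs.2.1
    omega
  · obtain ⟨j, rfl⟩ := Multiset.card_eq_one.1 k
    rw [T_one hs (by simpa using k4)]
    simp
  · have := hs.2.2.2.2.2.2.2 M k4 k5 k g
    rw [if_neg k.ne']
    nlinarith

/-- the lower bound for the weight of a bad set. -/
noncomputable def lo (s : Sv) (M : Multiset ℕ) : ℝ :=
  if M.sum ∈ Icc s.J₁ s.J₂ then (if M.card = 1 then 1 else 0) - s.L M else 0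

theorem L_bd {s : Sv} (hs : s.Wt) (M : Multiset ℕ) : 0 ≤ s.L M ∧ s.L M ≤ 100 * 2 ^ M.card := by
  have := abs_le.1 (T_abs hs M)
  unfold Sv.L
  split_ifs
  · exact ⟨le_rfl, by positivity⟩
  · exact ⟨le_max_left _ _, max_le (by positivity) (by linarith [this.1])⟩

theorem lo_le {s : Sv} (hs : s.Wt) {M : Multiset ℕ} (hM : M.sum ∈ Icc s.J₁ s.J₂) :
    lo s M ≤ if s.B M then (0 : ℝ) else s.T M := by
  rw [lo, if_pos hM, Sv.L]
  by_cases h1 : M.card = 1
  · obtain ⟨j, rfl⟩ := Multiset.card_eq_one.1 h1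
    have e := not_B hs j
    rw [if_pos h1, if_neg e, if_neg e, T_one hs (by simpa using (mem_Icc.1 hM).1)]
    simp
  · rw [if_neg h1]
    split_ifs
    · simp
    · linarith [le_max_right 0 (-s.T M)]

theorem lo_abs {s : Sv} (hs : s.Wt) (M : Multiset ℕ) : |lo s M| ≤ 1 + 100 * 2 ^ M.card := by
  obtain ⟨e1, e2⟩ := L_bd hs M
  unfold lo
  split_ifs
  · exact abs_le.2 ⟨by linarith, by linarith⟩
  · exact abs_le.2 ⟨by linarith, by linarith⟩
  · rw [abs_zero]
    positivity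

/-- the limit. -/
theorem lim_ge {s : Sv} (hs : s.Wt) {j₀ R : ℕ} (hj : 1 ≤ j₀) (hJ : j₀ ≤ s.J₁)
    (hR : 1 ≤ R) : ∑ J ∈ Icc s.J₁ s.J₂, (1 / ((J : ℝ) + 1) - s.ls j₀ (s.J₂ + 1) R J) ≤
      ∑ r ∈ range (R + 1), (∑ jv ∈ Fintype.piFinset fun _ : Fin r => Ico j₀ (s.J₂ + 1),
        lo s (vm jv) * ∏ i, Real.log (((jv i : ℝ) + 1) / jv i)) / r.factorial := by
  calc _ ≤ ∑ J ∈ Icc s.J₁ s.J₂, ∑ r ∈ range (R + 1),
        (∑ jv ∈ (Fintype.piFinset fun _ : Fin r => Ico j₀ (s.J₂ + 1)) with ∑ i, jv i = J,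
          ((if r = 1 then ∏ i, 1 / ((jv i : ℝ) + 1) else 0) -
            s.L (vm jv) * ∏ i, 1 / (jv i : ℝ))) / r.factorial := by
        refine sum_le_sum fun J hJ' => ?_
        simp only [sum_sub_distrib, sub_div, Sv.ls]
        refine sub_le_sub_right (le_trans ?_ (single_le_sum (fun r _ => div_nonneg
          (sum_nonneg fun jv _ => by split_ifs <;> positivity) (Nat.cast_nonneg _))
          (mem_range.2 (by omega : 1 < R + 1)))) _
        rw [Nat.factorial_one, Nat.cast_one, div_one]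
        refine le_trans ?_ (single_le_sum (a := fun _ => J) (fun jv _ => by positivity) ?_)
        · simp
        · have := mem_Icc.1 hJ'
          simp only [mem_filter, Fintype.mem_piFinset, mem_Ico]
          exact ⟨fun _ => ⟨by omega, by omega⟩, by simp⟩
    _ ≤ _ := by
        rw [sum_comm]
        refine sum_le_sum fun r _ => ?_
        rw [← sum_div, sum_fiberwise_eq_sum_filter, sum_filter]
        refine div_le_div_of_nonneg_right (sum_le_sum fun jv hv => ?_) (Nat.cast_nonneg _)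
        have e0 : ∀ i, 1 ≤ jv i := fun i =>
          hj.trans (mem_Ico.1 (Fintype.mem_piFinset.1 hv i)).1
        have e1 : (vm jv).sum = ∑ i, jv i := rfl
        have e2 : (vm jv).card = r := by simp [vm]
        have e3 := prod_le_prod (s := univ) (fun i _ => by positivity) fun i _ =>
          (Co.log_bd (e0 i)).1
        have e4 := prod_le_prod (s := univ)
          (fun i _ => le_trans (by positivity) (Co.log_bd (e0 i)).1) fun i _ => (Co.log_bd (e0 i)).2
        have e5 := mul_le_mul_of_nonneg_left e4 (L_bd hs (vm jv)).1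
        rw [lo, e1, e2]
        split_ifs <;> linarith

end GdG

open GdG

theorem gdG (hB : Bas) (hX : Box) (h1 : TupSt) (h3 : NNSt) : GdG := by
  intro s ε j₀ R g₀ hs hε hj _ hg t1
  have o3 := hs.2.1
  let F : Multiset ℕ → ℝ := fun M =>
    if s.J₁ ≤ M.sum ∧ M.sum ≤ s.J₂ then (if s.G M then s.T M else 0) else 0
  have f1 : ∀ r M, M.card = r → |F M| ≤ 100 * 2 ^ r := fun r M k => by
    have : |s.T M| ≤ 100 * 2 ^ r := k ▸ T_abs hs M
    simp only [F]
    split_ifs
    · exact this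
    all_goals rw [abs_zero]; positivity
  have f2 : ∀ M, F M ≠ 0 → s.J₁ ≤ M.sum ∧ M.sum ≤ s.J₂ := fun M k => by
    by_contra k'
    exact k (if_neg k')
  have e1 : ∀ r, Tendsto (fun q : ℝ × ℕ => Gd.er j₀ (s.J₂ + 1) r F q.1 q.2) (Gd.fl g₀) (𝓝 0) :=
    fun r => Gd.tz.2 (Gd.er_small h1 h3 _ r hj (by omega) (by positivity) (f1 r) f2)
  have e2 : ∀ r, Tendsto (fun q : ℝ × ℕ => Gd.er j₀ (s.J₂ + 1) r F q.1 1) (Gd.fl g₀) (𝓝 0) :=
    fun r => Gd.tz.2 fun δ hδ => (Gd.er_small h1 h3 (g₀ := 0) _ r hj (by omega) (by positivity)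
      (f1 r) f2 δ hδ).mono fun y k _ _ _ => k 1 le_rfl (by simp)
  have e3 : ∀ r, ∀ jv ∈ Fintype.piFinset fun _ : Fin r => Ico j₀ (s.J₂ + 1), Tendsto
      (fun q : ℝ × ℕ => F (vm jv) * (cell q.1 q.2 jv - cell q.1 1 jv)) (Gd.fl g₀) (𝓝 0) :=
    fun r jv k => by
      by_cases g : s.G (vm jv)
      · simpa using (Gd.tz.2 fun δ hδ => t1 r jv δ
          (fun i => (mem_Ico.1 (Fintype.mem_piFinset.1 k i)).1) g hδ :
          Tendsto (fun q : ℝ × ℕ => cell q.1 q.2 jv - cell q.1 1 jv) _ _).const_mul (F (vm jv))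
      · simp only [F, if_neg g, ite_self, zero_mul]
        exact tendsto_const_nhds
  have e4 := tendsto_finsetSum (range (s.J₂ + 1)) fun r _ => ((e1 r).sub (e2 r)).add
    ((tendsto_finsetSum _ (e3 r)).div_const (r.factorial : ℝ))
  simp only [sub_self, sum_const_zero, zero_div, add_zero] at e4
  filter_upwards [Gd.tz.1 e4 ε hε, eventually_gt_atTop (1 : ℝ)] with y k1 k3 Z z1 z2
  refine ⟨le_of_eq_of_le (congrArg _ ?_) (k1 Z z1 z2), bad hB hX hs k3 j₀ Z⟩
  rw [split hX s k3 hj, split hX s k3 hj, ← sum_sub_distrib]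
  refine sum_congr rfl fun r _ => ?_
  simp only [Gd.er, mul_sub, sum_sub_distrib, F]
  ring

theorem bdG (hB : Bas) (hX : Box) (h1 : TupSt) (h2 : NNSt) (h3 : MertSt) : BdG := by
  intro s ε j₀ R hs hε hj hJ hR
  have lim : Tendsto (fun y : ℝ => ∑ r ∈ range (R + 1),
      ((∑ jv ∈ Fintype.piFinset fun _ : Fin r => Ico j₀ (s.J₂ + 1), lo s (vm jv) * cell y 1 jv) /
        r.factorial - (1 + 100 * 2 ^ r) * r ^ r * (y ^ j₀) ^ (-(1 / 4) : ℝ))) atTop
      (𝓝 (∑ r ∈ range (R + 1), ((∑ jv ∈ Fintype.piFinset fun _ : Fin r => Ico j₀ (s.J₂ + 1),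
        lo s (vm jv) * ∏ i, Real.log (((jv i : ℝ) + 1) / jv i)) / r.factorial -
          (1 + 100 * 2 ^ r) * r ^ r * 0))) :=
    tendsto_finsetSum _ fun r _ => ((tendsto_finsetSum _ fun jv hv => (Co.cell_lim hB hX h3
      fun i => hj.trans (mem_Ico.1 (Fintype.mem_piFinset.1 hv i)).1).const_mul _).div_const _).sub
        ((Co.small hj).const_mul _)
  simp only [mul_zero, sub_zero] at lim
  filter_upwards [lim.eventually_const_le ((sub_lt_self _ hε).trans_le
    (lim_ge hs hj hJ (Co.one_le hR))), (Co.tend hj).eventually (h2 R),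
    eventually_ge_atTop (2 : ℝ)] with y e1 e2 e3
  have y1 : 1 ≤ y := by linarith
  refine e1.trans ?_
  calc _ ≤ ∑ r ∈ range (R + 1), ∑ S ∈ NS y j₀ (s.J₂ + 1) with #S = r,
        lo s (im y S) * ww 1 (∏ π ∈ S, π) := by
        refine sum_le_sum fun r hr => ?_
        have f1 := abs_le.1 (h1 y j₀ (s.J₂ + 1) s.J₁ s.J₂ r 1 (lo s) (1 + 100 * 2 ^ r) e3
          (by positivity) (fun M hM => hM ▸ lo_abs hs M) fun M hM => mem_Icc.1 (by
            by_contra h
            exact hM (if_neg h)))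
        have f2 := e2 1 (y ^ s.J₁) (y ^ (s.J₂ + r)) le_rfl
          (by simpa using pow_le_pow_right₀ y1 hJ) (by
            have := mem_range.1 hr
            rw [← pow_mul, mul_comm]
            exact pow_le_pow_right₀ y1 (by omega))
        have f3 := mul_le_mul_of_nonneg_left f2
          (show (0 : ℝ) ≤ (1 + 100 * 2 ^ r) * r ^ r by positivity)
        linarith [f1.1]
    _ ≤ _ := by
        rw [sum_fiberwise_eq_sum_filter, sum_filter, Sv.sc, sum_filter]
        refine sum_le_sum fun S hS => ?_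
        have f1 := (hX.nm_set y j₀ _ S (by linarith) (mem_powerset.1 (mem_filter.1 hS).1)).2.2.1
        by_cases h : (im y S).sum ∈ Icc s.J₁ s.J₂
        · have f2 : #S ∈ range (R + 1) := by
            have f3 := (mem_Icc.1 h).2
            rw [mem_range]
            by_contra f4
            have := Nat.mul_le_mul_left j₀ (show R ≤ #S by omega)
            rw [mul_comm] at this
            omega
          rw [if_pos f2, if_pos (mem_Icc.1 h)]
          exact mul_le_mul_of_nonneg_right (lo_le hs h) (hB.ww_nonneg _ _)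
        · rw [if_neg fun h' => h (mem_Icc.2 h'), lo, if_neg h, zero_mul, ite_self]

end Pool.Agent.Lib.MP_4b1228_nt.GS
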