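import Pool.Agent.Lib.MP_4b1228_nt.GS.LV
import Pool.Agent.Lib.MP_4b1228_nt.GS.TC

/-!
The mean value over a thin set of frequencies, without logarithms.
-/

namespace Pool.Agent.Lib.MP_4b1228_nt.GS

open Finset Filter Topology Pool.Agent.Lib.MP_9d27bc_nt.C Pool.Agent.Lib.MP_9d27bc_nt.C.Two
open scoped Classical ComplexConjugate

namespace HL

/-- the weight of the dual sum -/
noncomputable def W (U : Finset ℤ) (a : ℤ → ℂ) (m : GI) : ℝ := ‖∑ t ∈ U, a t * xi t m‖ ^ 2 / nm m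

variable {U : Finset ℤ} {a : ℤ → ℂ} {P₁ P₂ : ℝ}

lemma W_nonneg (m : GI) : 0 ≤ W U a m := by
  unfold W
  positivity

lemma expand (hB : Bas) (hP : 0 ≤ P₁) (E : GI → Prop) :
    ((∑ m ∈ Sq P₁ P₂ with E m, W U a m : ℝ) : ℂ) =
      ∑ t ∈ U, ∑ s ∈ U, a t * conj (a s) * sm E P₁ P₂ (t - s) := by
  simp only [sm, mul_sum]
  rw [sum_congr rfl fun t _ => sum_comm, sum_comm, Complex.ofReal_sum]
  refine sum_congr rfl fun m hm' => ?_
  have h0 : m ≠ 0 := by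
    rintro rfl
    have := ((hB.mem_Sq _ _ _).1 (mem_filter.1 hm').1).1
    simp [mx] at this
    linarith
  rw [W, Complex.ofReal_div, Complex.ofReal_pow, ← Complex.mul_conj', map_sum, sum_mul_sum,
    sum_div]
  refine sum_congr rfl fun t _ => ?_
  rw [sum_div]
  refine sum_congr rfl fun s _ => ?_
  rw [LV.xi_sub hB t s h0, map_mul, Complex.ofReal_natCast]
  ring

lemma one (hB : Bas) (hP : 0 ≤ P₁) (E : GI → Prop) {δ : ℝ} (hδ : 0 ≤ δ)
    (h : ∀ t ∈ U, ∀ s ∈ U, s ≠ t → ‖sm E P₁ P₂ (t - s)‖ ≤ δ) :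
    |∑ m ∈ Sq P₁ P₂ with E m, W U a m - (∑ t ∈ U, ‖a t‖ ^ 2) * ms E P₁ P₂| ≤
      (∑ t ∈ U, ‖a t‖ ^ 2) * (δ * #U) := by
  have e : sm E P₁ P₂ 0 = (ms E P₁ P₂ : ℝ) := by simp [sm, ms, hB.xi_zero]
  rw [← Real.norm_eq_abs, ← Complex.norm_real, Complex.ofReal_sub, expand hB hP, sum_mul,
    Complex.ofReal_sum, ← sum_sub_distrib]
  have k : ∀ t ∈ U, ‖∑ s ∈ U, a t * conj (a s) * sm E P₁ P₂ (t - s) -
      ((‖a t‖ ^ 2 * ms E P₁ P₂ : ℝ) : ℂ)‖ ≤ ‖a t‖ * (∑ s ∈ U, ‖a s‖) * δ := fun t ht => by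
    rw [← add_sum_erase _ _ ht, sub_self, e, Complex.mul_conj', Complex.ofReal_mul,
      Complex.ofReal_pow, add_sub_cancel_left, mul_sum, sum_mul]
    refine (norm_sum_le_of_le _ fun s hs => ?_).trans (sum_le_sum_of_subset_of_nonneg
      (erase_subset t U) fun _ _ _ => by positivity)
    rw [norm_mul, norm_mul, Complex.norm_conj]
    gcongr
    exact h t ht s (mem_of_mem_erase hs) (ne_of_mem_erase hs)
  refine (norm_sum_le_of_le _ k).trans ?_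
  rw [← sum_mul, ← sum_mul, ← sq, mul_comm δ, ← mul_assoc, mul_comm _ (#U : ℝ)]
  gcongr
  exact sq_sum_le_card_mul_sum_sq

lemma split {q : ℕ} (hq : 1 ≤ q) {E : GI → Prop} (hE : PerZ q E) (A : Finset GI) (f : GI → ℝ) :
    ∑ m ∈ A with E m, f m = ∑ c ∈ sqr 0 0 q with E c, ∑ m ∈ A with cls q c m, f m := by
  have := TC.split (S := ({()} : Finset Unit)) hq hE A fun w => f w.2
  simpa [sum_filter, sum_product] using this

lemma sieve (hB : Bas) (h1 : FLq) (h2 : DenSt) : ∃ (k : ℕ) (C : ℝ), 0 < C ∧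
    ∀ (U : Finset ℤ) (a : ℤ → ℂ) (z P₁ P₂ δ : ℝ), 2 ≤ z → 8 * z ^ k ≤ P₁ → 0 ≤ δ →
    (∀ (q : ℕ) (c : GI), 1 ≤ q → (q : ℝ) ≤ z ^ k → ∀ t ∈ U, ∀ s ∈ U, s ≠ t →
      ‖sm (cls q c) P₁ P₂ (t - s)‖ ≤ δ) →
    ∑ m ∈ Sq P₁ P₂ with Rough z (nm m), W U a m ≤ (∑ t ∈ U, ‖a t‖ ^ 2) *
      (2 * (m0 P₁ P₂ * VV z) + (z ^ k) ^ 4 * (δ * #U + C * z ^ k / P₁)) := by
  obtain ⟨C₁, hC₁, h1⟩ := h1 2 two_pos
  obtain ⟨C₂, hC₂, h2⟩ := h2
  obtain ⟨k, hk⟩ := pow_unbounded_of_one_lt C₁ (one_lt_two (α := ℝ))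
  refine ⟨4 * k + 6, C₂, hC₂, fun U a z P₁ P₂ δ hz hP hδ hs => ?_⟩
  have mp := fun l => (hG.2.2.2.2.2.2.2.2.2.2.2.2.2.2.2.2.2.2.2.2 0 z l).1
  have hD : 0 ≤ ∑ t ∈ U, ‖a t‖ ^ 2 := by positivity
  have o := fun E => one (U := U) (a := a) (P₁ := P₁) (P₂ := P₂) hB (E := E) (hδ := hδ)
  generalize ∑ t ∈ U, ‖a t‖ ^ 2 = D at *
  have hm : 0 ≤ m0 P₁ P₂ := sum_nonneg fun _ _ => by positivity
  have hU : 0 < z ^ (4 * k + 6) := by positivity
  have hP0 : 0 < P₁ := by linarith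
  have key := h1 k hk.le _ (Sq P₁ P₂) (W U a) (pr 0 z) (fun l m => l ∣ nm m) nu (D * m0 P₁ P₂)
    ((z ^ (4 * k + 6)) ^ 2 * (D * (δ * #U + C₂ * z ^ (4 * k + 6) / P₁))) z hz
    (fun _ _ => W_nonneg _) (fun l hl => by
      obtain ⟨a1, -, a2⟩ := (mp l).1 hl
      obtain ⟨b1, b2, b3, -⟩ := Mer.seventh a1
      exact ⟨a1, a2, b1, b2, b3⟩) (by positivity) (by positivity) fun T hT hq => by
      have hp : ∀ l ∈ T, l.Prime := fun l hl => ((mp l).1 (hT hl)).1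
      obtain ⟨n1, n2⟩ := hNu T hp
      have q1 : 1 ≤ ∏ l ∈ T, l := prod_pos fun l hl => (hp l hl).pos
      rw [← Nat.cast_prod] at hq
      generalize ∏ l ∈ T, l = q at *
      have q0 : (0 : ℝ) < q := by exact_mod_cast q1
      have e := split q1 n1 (Sq P₁ P₂) (W U a)
      have e' : D * m0 P₁ P₂ * ∏ l ∈ T, nu l =
          ∑ _c ∈ sqr 0 0 q with ∀ l ∈ T, l ∣ nm _c, D * (m0 P₁ P₂ / (q : ℝ) ^ 2) := by
        rw [sum_const, nsmul_eq_mul, n2]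
        field_simp
      have hc : (#{c ∈ sqr 0 0 q | ∀ l ∈ T, l ∣ nm c} : ℝ) ≤ (z ^ (4 * k + 6)) ^ 2 := by
        have := card_filter_le (sqr 0 0 q) fun c => ∀ l ∈ T, l ∣ nm c
        rw [Sh.card_sqr] at this
        exact le_trans (by exact_mod_cast this) (pow_le_pow_left₀ q0.le hq 2)
      refine le_trans (le_of_eq (congrArg _ ?_)) (((abs_sum_le_sum_abs _ _).trans
        (sum_le_card_nsmul {c ∈ sqr 0 0 q | ∀ l ∈ T, l ∣ nm c} (fun c =>
          |∑ m ∈ Sq P₁ P₂ with cls q c m, W U a m - D * (m0 P₁ P₂ / (q : ℝ) ^ 2)|)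
          (D * (δ * #U + C₂ * z ^ (4 * k + 6) / P₁)) fun c _ => ?_)).trans ?_)
      · rw [sum_sub_distrib, ← e']
        congr 1
        convert e
      · have a1 := o (cls q c) hP0.le (hs q c q1 hq)
        have a2 := mul_le_mul_of_nonneg_left ((h2 q c P₁ P₂ q1 (by linarith)).trans
          (div_le_div_of_nonneg_right (mul_le_mul_of_nonneg_left hq hC₂.le) hP0.le)) hD
        rw [← abs_of_nonneg hD, ← abs_mul, abs_of_nonneg hD, mul_sub] at a2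
        refine (abs_sub_le _ _ _).trans ((add_le_add a1 a2).trans (le_of_eq ?_))
        ring
      · rw [nsmul_eq_mul]
        exact mul_le_mul_of_nonneg_right hc (by positivity)
  have hV : 0 ≤ VV z := prod_nonneg fun l hl => by
    linarith [(Mer.seventh ((mp l).1 hl).1).2.2.1]
  have e : ∑ m ∈ Sq P₁ P₂ with Rough z (nm m), W U a m =
      ∑ m ∈ Sq P₁ P₂ with ∀ l ∈ pr 0 z, ¬l ∣ nm m, W U a m := by
    refine sum_congr (filter_congr fun m _ => ⟨fun h l hl hd => ?_, fun h l hl hd => ?_⟩)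
      fun _ _ => rfl
    · exact (h l ((mp l).1 hl).1 hd).not_ge ((mp l).1 hl).2.2
    · exact lt_of_not_ge fun hz => h l ((mp l).2 ⟨hl, by exact_mod_cast hl.pos, hz⟩) hd
  have e8 : C₁ / 2 ^ k ≤ 1 := (div_le_one (by positivity)).2 hk.le
  have e9 := mul_le_mul_of_nonneg_right e8 (mul_nonneg (mul_nonneg hD hm) hV)
  have e10 : ∑ m ∈ Sq P₁ P₂ with ∀ l ∈ pr 0 z, ¬l ∣ nm m, W U a m - D * m0 P₁ P₂ * VV z ≤ _ :=
    le_trans (le_of_eq (by unfold VV; congr)) (abs_le.1 key).2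
  rw [mul_comm 2 (4 * k + 6), pow_mul] at e10
  rw [e]
  unfold VV at *
  linarith

lemma dual {ι : Type} {S : Finset ι} {v : ι → GI} {B : ℕ} (hm : Mult S v B) {T : Finset GI}
    (hv : ∀ i ∈ S, v i ∈ T) (U : Finset ℤ) : (∑ t ∈ U, ‖hat S v t‖ ^ 2) ^ 2 ≤
      D0 S v * (B * ∑ m ∈ T, W U (fun t => conj (hat S v t)) m) := by
  set F : GI → ℂ := fun m => ∑ t ∈ U, conj (hat S v t) * xi t m with hF
  have e1 : ((∑ t ∈ U, ‖hat S v t‖ ^ 2 : ℝ) : ℂ) = ∑ i ∈ S, F (v i) / (nm (v i) : ℂ) := by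
    rw [Complex.ofReal_sum, sum_congr rfl fun t _ => (Complex.ofReal_pow _ _).trans
      (Complex.conj_mul' (hat S v t)).symm]
    simp only [hF, sum_div, mul_div_assoc]
    rw [sum_comm]
    exact sum_congr rfl fun t _ => mul_sum _ _ _
  have e2 : ∑ t ∈ U, ‖hat S v t‖ ^ 2 ≤ ∑ i ∈ S, ‖F (v i)‖ / nm (v i) := by
    refine (le_abs_self _).trans ?_
    rw [← Real.norm_eq_abs, ← Complex.norm_real, e1]
    exact (norm_sum_le _ _).trans_eq (sum_congr rfl fun i _ => by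
      rw [norm_div, Complex.norm_natCast])
  have e3 : (∑ i ∈ S, ‖F (v i)‖ / nm (v i)) ^ 2 ≤ D0 S v * ∑ i ∈ S, ‖F (v i)‖ ^ 2 / nm (v i) :=
    sum_sq_le_sum_mul_sum_of_sq_le_mul S (fun _ _ => by positivity) (fun _ _ => by positivity)
      fun i _ => le_of_eq (by ring)
  exact ((pow_le_pow_left₀ (by positivity) e2 2).trans e3).trans (mul_le_mul_of_nonneg_left
    (MV.mult_sum hm hv (f := W U fun t => conj (hat S v t)) W_nonneg) (TC.D0_nonneg S v))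

lemma off (h3 : S2St) (h4 : PW2St) (A : ℕ) : ∀ᶠ z : ℝ in atTop, ∀ (q : ℕ) (c : GI) (x P₂ : ℝ)
    (τ : ℤ), 1 ≤ q → 2 ≤ x → x ^ 9 / 2 ≤ P₂ → P₂ ≤ z ^ A → τ ≠ 0 → |(τ : ℝ)| ≤ 2 * x ^ 24 →
    ‖sm (cls q c) (x ^ 9 / 2) P₂ τ‖ ≤ z * q / x := by
  obtain ⟨C₁, c1, h3⟩ := h3
  obtain ⟨C₂, c2, h4⟩ := h4 (1 / 2 / (A + 1)) (by positivity)
  filter_upwards [LV.ev (K := 4 * C₁) (by positivity) (A + 1) one_pos, eventually_ge_atTop 2,
    (tendsto_rpow_atTop (y := 1 / 2) (by norm_num)).eventually_ge_atTop (5 * C₂)]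
    with z l1 z2 l2 q c x P₂ τ hq x2 p1 p2 h0 hτ
  have q1 : (1 : ℝ) ≤ q := by exact_mod_cast hq
  have x1 : 1 ≤ x := by linarith
  have x9 : 2 ≤ x ^ 9 := x2.trans (le_self_pow₀ x1 (by norm_num))
  have t0 : 0 < |(τ : ℝ)| := abs_pos.2 (by exact_mod_cast h0)
  rcases le_total |(τ : ℝ)| (x ^ 9) with h | h
  · have a1 := (single_le_sum (f := fun t => ‖sm (cls q c) (x ^ 9 / 2) P₂ t‖ ^ 2)
      (fun _ _ => by positivity) (mem_erase.2 ⟨h0, mem_Icc.2 (abs_le.1 (Int.natCast_natAbs τ).ge)⟩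
        : τ ∈ fz τ.natAbs)).trans (h3 q c _ P₂ _ hq (by linarith))
    rw [Nat.cast_natAbs, Int.cast_abs] at a1
    have a2 : Real.log (2 * (x ^ 9 / 2)) ≤ (A + 1 : ℕ) * Real.log z := by
      rw [← Real.log_pow, pow_succ z A]
      have : 0 ≤ z ^ A := by positivity
      exact Real.log_le_log (by positivity) (by nlinarith)
    have a3 := Real.log_nonneg (show 1 ≤ 2 * (x ^ 9 / 2) by linarith)
    rw [Real.rpow_one] at l1
    refine le_of_pow_le_pow_left₀ two_ne_zero (by positivity) (a1.trans ?_)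
    calc _ ≤ C₁ * x ^ 9 * (1 + (A + 1 : ℕ) * Real.log z) / (x ^ 9 / 2) ^ 2 := by gcongr
      _ = 4 * C₁ * (1 + (A + 1 : ℕ) * Real.log z) / x ^ 9 := by field_simp; ring
      _ ≤ (z * q) ^ 2 / x ^ 2 := by
        gcongr
        · nlinarith [mul_le_mul_of_nonneg_left q1 (show 0 ≤ z by linarith)]
        · norm_num
      _ = _ := by rw [div_pow]
  · refine (h4 q c _ P₂ τ hq (by linarith) p1 h0).trans ?_
    have a1 : P₂ ^ (1 / 2 / (A + 1) : ℝ) ≤ z ^ (1 / 2 : ℝ) := by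
      refine (Real.rpow_le_rpow (by linarith) p2 (by positivity)).trans ?_
      rw [← Real.rpow_natCast, ← Real.rpow_mul (by linarith)]
      refine Real.rpow_le_rpow_of_exponent_le (by linarith) ?_
      rw [← mul_div_assoc, div_le_iff₀ (by positivity)]
      linarith
    have r : ∀ y : ℝ, 0 ≤ y → (y ^ 3) ^ (1 / 3 : ℝ) = y := fun y hy => by
      rw [one_div]
      exact_mod_cast Real.pow_rpow_inv_natCast hy (three_ne_zero)
    have a2 : |(τ : ℝ)| ^ (1 / 3 : ℝ) ≤ 2 * x ^ 8 := by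
      rw [← r (2 * x ^ 8) (by positivity)]
      gcongr
      have : 0 ≤ x ^ 24 := by positivity
      nlinarith
    have a3 : x ≤ |(τ : ℝ)| ^ (1 / 3 : ℝ) := by
      rw [← r x (by positivity)]
      gcongr
      exact (pow_le_pow_right₀ x1 (by norm_num)).trans h
    have a4 : z = z ^ (1 / 2 : ℝ) * z ^ (1 / 2 : ℝ) := by
      rw [← Real.rpow_add (by linarith), add_halves, Real.rpow_one]
    rw [Real.rpow_neg t0.le]
    calc _ ≤ C₂ * z ^ (1 / 2 : ℝ) * q * (2 * x ^ 8 / (x ^ 9 / 2) + x⁻¹) := by gcongr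
      _ = 5 * C₂ * z ^ (1 / 2 : ℝ) * q / x := by field_simp; ring
      _ ≤ _ := by nth_rewrite 2 [a4]; gcongr

end HL

open HL MV in
theorem hl (hB : Bas) (h1 : FLq) (h2 : DenSt) (h3 : S2St) (h4 : PW2St) (h5 : UBSt) : HLSt := by
  obtain ⟨k, C₁, c1, h1⟩ := sieve hB h1 h2
  obtain ⟨c, C₂, c2, h5⟩ := h5
  obtain ⟨C₃, c3, h6⟩ := hB.m0_le
  obtain ⟨C₄, c4, -, -, -, -, h7, -⟩ := hM
  refine ⟨k * 5 + 3 + c, C₂ * (4 * C₃ * C₄ + 1), by positivity, fun A B => ?_⟩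
  filter_upwards [off h3 h4 A, h5 A, eventually_ge_atTop (16 + 2 * C₁)]
    with z of ub hz ι S v Z Y Y' U hm hZ hU Y1 hZY hc hYY hA hv
  have z1 : (1 : ℝ) ≤ z := by linarith
  have y0 : 0 < Y := by linarith
  have e3 : ∀ n : ℕ, (Y ^ (1 / 18 : ℝ)) ^ n = Y ^ ((n : ℝ) / 18) := fun n => by
    rw [← Real.rpow_natCast, ← Real.rpow_mul y0.le]
    congr 1
    ring
  have e5 : √Y = (Y ^ (1 / 18 : ℝ)) ^ 9 := by rw [e3, Real.sqrt_eq_rpow]; norm_num
  have e6 : Y = (Y ^ (1 / 18 : ℝ)) ^ 18 := by rw [e3]; norm_num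
  generalize Y ^ (1 / 18 : ℝ) = x at e5 e6 hc
  have u1 : 1 ≤ z ^ k := one_le_pow₀ z1
  have p1 : 1 ≤ z ^ c := one_le_pow₀ z1
  rw [pow_add, pow_add, pow_mul] at hc
  have r0 : (0 : ℝ) ≤ #U := Nat.cast_nonneg _
  have g : 1 ≤ (z ^ k) ^ 5 * z ^ 3 := one_le_mul_of_one_le_of_one_le (one_le_pow₀ u1) (one_le_pow₀ z1)
  have x3 : (z ^ k) ^ 5 * z ^ 3 * (#U + 1) ≤ x := le_trans (mul_le_mul_of_nonneg_right
    (le_mul_of_one_le_right (by positivity) p1) (by positivity)) hc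
  have x4 : z ^ c ≤ x := le_trans (by nlinarith [mul_le_mul_of_nonneg_right g (zero_le_one.trans p1)]) hc
  have x5 : 16 * z ^ k ≤ x := by
    refine le_trans ?_ x3
    have a1 : z ^ k ≤ (z ^ k) ^ 5 := le_self_pow₀ u1 (by norm_num)
    have a2 : 16 ≤ z ^ 3 := le_trans (by linarith) (le_self_pow₀ z1 (by norm_num))
    nlinarith [mul_le_mul a1 a2 (by norm_num) (by positivity)]
  have x1 : 1 ≤ x := by linarith
  have x9 : x ≤ x ^ 9 := le_self_pow₀ x1 (by norm_num)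
  have s4 : √Y ≤ √Y' := Real.sqrt_le_sqrt hYY
  have s5 : √Y' ≤ z ^ A := (Real.sqrt_le_self_iff.2 (Or.inr (Y1.trans hYY))).trans hA
  have Zx : (Z : ℝ) ≤ x ^ 24 := by
    refine le_of_pow_le_pow_left₀ three_ne_zero (by positivity) (hZY.trans_eq ?_)
    rw [e6]
    ring
  have s1 := h1 U (fun t => conj (hat S v t)) z (√Y / 2) √Y' (z * z ^ k / x) (by linarith)
    (by rw [e5]; linarith) (by positivity) fun q c hq hq' t ht s hs hne => by
      rw [e5] at s4 ⊢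
      refine (of q c x _ _ hq (by linarith) (by linarith [pow_pos (zero_lt_one.trans_le x1) 9]) s5
        (sub_ne_zero.2 hne.symm) ?_).trans (by gcongr)
      have a1 : |(t : ℝ)| ≤ Z := by exact_mod_cast abs_le.2 (mem_Icc.1 (hU ht))
      have a2 : |(s : ℝ)| ≤ Z := by exact_mod_cast abs_le.2 (mem_Icc.1 (hU hs))
      rw [Int.cast_sub]
      linarith [abs_sub (t : ℝ) s]
  simp only [Complex.norm_conj] at s1
  have s2 := dual hm (T := {m ∈ Sq (√Y / 2) √Y' | Rough z (nm m)}) (fun i hi => mem_filter.2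
    ⟨mem_sq hB y0 (hv i hi).1 (hv i hi).2.1, (hv i hi).2.2⟩) U
  have e2 := ub 1 Y Y' le_rfl
    (by rw [e6]; simpa using x4.trans (le_self_pow₀ x1 (by norm_num))) hYY hA
  have e3 := (h6 (√Y / 2) √Y' (by positivity) (by linarith [Real.sqrt_nonneg Y])).trans
    (mul_le_mul_of_nonneg_left (lg y0 hYY) c3.le)
  have e4 := h7 z (by linarith)
  have l0 := Real.log_pos (show 1 < z by linarith)
  have e7 : D0 S v ≤ B * lay z 1 Y Y' := by
    refine le_of_eq_of_le (sum_congr rfl fun i _ => ?_) (mult_sum hm (fun i hi => mem_filter.2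
      ⟨(GB.mem_disc _ _ (by linarith)).2 (hv i hi).2.1, (hv i hi).1, (hv i hi).2.2⟩)
      (hB.ww_nonneg 1))
    rw [hB.ww_one]
  set G := 1 + Real.log (Y' / Y) with hG'
  have g1 : 1 ≤ G := le_add_of_nonneg_right (Real.log_nonneg ((one_le_div y0).2 hYY))
  have d0 := TC.D0_nonneg S v
  have v0 : 0 ≤ VV z := le_trans (by positivity) e4.1
  have e8 : (z ^ k) ^ 4 * (z * z ^ k / x * #U + C₁ * z ^ k / (√Y / 2)) ≤ G / Real.log z := by
    have a1 : Real.log z ≤ z := (Real.log_le_sub_one_of_pos (by linarith)).trans (by linarith)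
    calc _ ≤ (z ^ k) ^ 4 * (z * z ^ k / x * #U + C₁ * z ^ k / (x / 2)) := by rw [e5]; gcongr
      _ = (z ^ k) ^ 5 * (z * (z * #U + 2 * C₁)) / x / z := by field_simp
      _ ≤ (z ^ k) ^ 5 * (z ^ 3 * (#U + 1)) / x / z := by
        gcongr (z ^ k) ^ 5 * ?_ / x / z
        have a2 : z ≤ z ^ 2 := le_self_pow₀ z1 two_ne_zero
        have a3 : z * #U + 2 * C₁ ≤ z ^ 2 * (#U + 1) := by
          linarith [mul_le_mul_of_nonneg_right a2 r0]
        linarith [mul_le_mul_of_nonneg_left a3 (zero_le_one.trans z1)]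
      _ ≤ _ := by
        gcongr
        exact ((div_le_one (by linarith)).2 (by linarith)).trans g1
  have e9 : D0 S v * (B * (2 * (m0 (√Y / 2) √Y' * VV z) + G / Real.log z)) ≤
      C₂ * (4 * C₃ * C₄ + 1) * (B * G / Real.log z) ^ 2 := by
    have := e7.trans (mul_le_mul_of_nonneg_left e2 (Nat.cast_nonneg B))
    calc _ ≤ B * (C₂ * G / Real.log z) *
          (B * (2 * (C₃ * (2 * G) * (C₄ / Real.log z)) + G / Real.log z)) := by
          have m0' : 0 ≤ m0 (√Y / 2) √Y' := sum_nonneg fun _ _ => by positivity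
          gcongr
          exact e4.2
      _ = _ := by ring
  have D : 0 ≤ ∑ t ∈ U, ‖hat S v t‖ ^ 2 := by positivity
  generalize ∑ t ∈ U, ‖hat S v t‖ ^ 2 = Sg at *
  rcases D.eq_or_lt with rfl | D'
  · positivity
  refine le_of_mul_le_mul_left ?_ D'
  calc _ = Sg ^ 2 := by ring
    _ ≤ _ := s2
    _ ≤ D0 S v * (B * (Sg * (2 * (m0 (√Y / 2) √Y' * VV z) + G / Real.log z))) := by
      gcongr
      exact s1.trans (by gcongr)
    _ = Sg * (D0 S v * (B * (2 * (m0 (√Y / 2) √Y' * VV z) + G / Real.log z))) := by ring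
    _ ≤ _ := by gcongr

end Pool.Agent.Lib.MP_4b1228_nt.GS
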