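import Pool.Agent.Lib.MP_4b1228_nt.GS.St3
import Pool.Agent.Lib.MP_4b1228_nt.GS.MV

/-!
The number of large values.
-/

namespace Pool.Agent.Lib.MP_4b1228_nt.GS

open Finset Filter Topology Pool.Agent.Lib.MP_9d27bc_nt.C Pool.Agent.Lib.MP_9d27bc_nt.C.Two
open scoped Classical ComplexConjugate

namespace LV

lemma ev {K δ : ℝ} (hK : 0 ≤ K) (A : ℕ) (hδ : 0 < δ) :
    ∀ᶠ w : ℝ in atTop, K * (1 + A * Real.log w) ≤ w ^ δ := by
  have h2 : 0 < δ / 2 := by positivity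
  filter_upwards [(tendsto_rpow_atTop h2).eventually_ge_atTop (K * (1 + A / (δ / 2))),
    eventually_ge_atTop 1] with w h w1
  have h3 := Real.log_le_rpow_div (show 0 ≤ w by linarith) h2
  have h4 := Real.one_le_rpow w1 h2.le
  have h5 : w ^ δ = w ^ (δ / 2) * w ^ (δ / 2) := by
    rw [← Real.rpow_add (by linarith), add_halves]
  calc _ ≤ K * (w ^ (δ / 2) + A * (w ^ (δ / 2) / (δ / 2))) := by gcongr
    _ = K * (1 + A / (δ / 2)) * w ^ (δ / 2) := by ring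
    _ ≤ _ := by rw [h5]; gcongr

lemma xi_sub (hB : Bas) (t s : ℤ) {m : GI} (hm : m ≠ 0) :
    xi (t - s) m = xi t m * conj (xi s m) := by
  have h : dir m ≠ 0 := norm_ne_zero_iff.1 (by rw [hA.norm_dir _ hm]; exact one_ne_zero)
  rw [← Complex.inv_eq_conj (hB.norm_xi s m hm), xi, xi, xi, chi, chi, chi, mul_sub, zpow_sub₀ h,
    div_eq_mul_inv]

lemma sm_eq (P₁ P₂ : ℝ) (t : ℤ) :
    sm (cls 1 0) P₁ P₂ t = ∑ m ∈ Sq P₁ P₂, xi t m / (nm m : ℂ) := by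
  rw [sm, filter_true_of_mem fun m _ => by simp [cls]]

lemma sm_le (hB : Bas) (P₁ P₂ : ℝ) (t : ℤ) : ‖sm (cls 1 0) P₁ P₂ t‖ ≤ m0 P₁ P₂ := by
  rw [sm_eq]
  exact hB.hat_le GI (Sq P₁ P₂) id t

/-- duality -/
lemma dual (hB : Bas) {ι : Type} {S : Finset ι} {v : ι → GI} {B : ℕ} (hm : Mult S v B)
    {P₁ P₂ V : ℝ} (hP : 0 ≤ P₁) (hv : ∀ i ∈ S, v i ∈ Sq P₁ P₂) (hV : 0 ≤ V) {U : Finset ℤ}
    (hU : ∀ t ∈ U, V ≤ ‖hat S v t‖) :
    (#U * V) ^ 2 ≤ D0 S v * (B * ∑ t ∈ U, ∑ s ∈ U, ‖sm (cls 1 0) P₁ P₂ (t - s)‖) := by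
  choose a ha ha' using fun t => Complex.exists_norm_eq_mul_self (hat S v t)
  set F : GI → ℂ := fun m => ∑ t ∈ U, a t * xi t m with hF
  have e1 : ((∑ t ∈ U, ‖hat S v t‖ : ℝ) : ℂ) = ∑ i ∈ S, F (v i) / (nm (v i) : ℂ) := by
    rw [Complex.ofReal_sum, sum_congr rfl fun t _ => ha' t]
    simp only [hat, hF, mul_sum, sum_div, mul_div_assoc]
    exact sum_comm
  have e2 : #U * V ≤ ∑ i ∈ S, ‖F (v i)‖ / nm (v i) := by
    have h1 : #U * V ≤ ∑ t ∈ U, ‖hat S v t‖ := by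
      rw [← nsmul_eq_mul]
      exact card_nsmul_le_sum _ _ _ hU
    refine h1.trans ((le_abs_self _).trans ?_)
    rw [← Real.norm_eq_abs, ← Complex.norm_real, e1]
    exact (norm_sum_le _ _).trans_eq (sum_congr rfl fun i _ => by
      rw [norm_div, Complex.norm_natCast])
  have e3 : (∑ i ∈ S, ‖F (v i)‖ / nm (v i)) ^ 2 ≤ D0 S v * ∑ i ∈ S, ‖F (v i)‖ ^ 2 / nm (v i) :=
    sum_sq_le_sum_mul_sum_of_sq_le_mul S (fun _ _ => by positivity) (fun _ _ => by positivity)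
      fun i _ => le_of_eq (by ring)
  have e4 := MV.mult_sum hm hv (f := fun m => ‖F m‖ ^ 2 / nm m) fun _ => by positivity
  have e5 : ((∑ m ∈ Sq P₁ P₂, ‖F m‖ ^ 2 / nm m : ℝ) : ℂ) =
      ∑ t ∈ U, ∑ s ∈ U, a t * conj (a s) * sm (cls 1 0) P₁ P₂ (t - s) := by
    simp only [sm_eq, mul_sum]
    rw [sum_congr rfl fun t _ => sum_comm, sum_comm, Complex.ofReal_sum]
    refine sum_congr rfl fun m hm' => ?_
    have h0 : m ≠ 0 := by
      rintro rfl
      have := ((hB.mem_Sq _ _ _).1 hm').1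
      simp [mx] at this
      linarith
    rw [Complex.ofReal_div, Complex.ofReal_pow, ← Complex.mul_conj', hF, map_sum, sum_mul_sum,
      sum_div]
    refine sum_congr rfl fun t _ => ?_
    rw [sum_div]
    refine sum_congr rfl fun s _ => ?_
    rw [xi_sub hB t s h0, map_mul, Complex.ofReal_natCast]
    ring
  have e6 : ∑ m ∈ Sq P₁ P₂, ‖F m‖ ^ 2 / nm m ≤
      ∑ t ∈ U, ∑ s ∈ U, ‖sm (cls 1 0) P₁ P₂ (t - s)‖ := by
    refine (le_abs_self _).trans ?_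
    rw [← Real.norm_eq_abs, ← Complex.norm_real, e5]
    refine norm_sum_le_of_le _ fun t _ => norm_sum_le_of_le _ fun s _ => le_of_eq ?_
    rw [norm_mul, norm_mul, Complex.norm_conj, ha, ha, one_mul, one_mul]
  have d0 : 0 ≤ D0 S v := sum_nonneg fun _ _ => by positivity
  calc _ ≤ _ := pow_le_pow_left₀ (by positivity) e2 2
    _ ≤ _ := e3
    _ ≤ _ := by gcongr; exact e4.trans (by gcongr)

/-- one row of the matrix -/
lemma row {f : ℤ → ℝ} (hf : ∀ τ, 0 ≤ f τ) {η : ℝ} (hη : 0 < η) {T : ℕ} {U : Finset ℤ} {t : ℤ}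
    (h : ∀ s ∈ U, t - s ∉ fr T → f (t - s) ≤ η) :
    ∑ s ∈ U, f (t - s) ≤ #U * η + (f 0 + (∑ τ ∈ fz T, f τ ^ 2) / η) := by
  set g : ℤ → ℝ := fun τ => if τ = 0 then f 0 else f τ ^ 2 / η with hg
  have g0 : ∀ τ, 0 ≤ g τ := fun τ => by
    simp only [hg]
    split_ifs
    · exact hf 0
    · positivity
  have e1 : ∑ τ ∈ fr T, g τ = f 0 + (∑ τ ∈ fz T, f τ ^ 2) / η := by
    rw [← add_sum_erase _ _ (show (0 : ℤ) ∈ fr T from mem_Icc.2 ⟨by omega, by omega⟩), sum_div,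
      show g 0 = f 0 from if_pos rfl]
    exact congrArg _ (sum_congr rfl fun τ hτ => if_neg (ne_of_mem_erase hτ))
  have e2 : ∑ s ∈ U with t - s ∈ fr T, g (t - s) ≤ ∑ τ ∈ fr T, g τ := by
    rw [← sum_image (g := fun s => t - s) fun x _ y _ e => sub_right_injective e]
    exact sum_le_sum_of_subset_of_nonneg (image_subset_iff.2 fun s hs => (mem_filter.1 hs).2)
      fun τ _ _ => g0 τ
  rw [← e1]
  refine le_trans ?_ (add_le_add_right e2 _)
  rw [sum_filter, ← nsmul_eq_mul, ← sum_const, ← sum_add_distrib]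
  refine sum_le_sum fun s hs => ?_
  split_ifs with h1
  · simp only [hg]
    split_ifs with h2
    · rw [h2]
      linarith
    · have : f (t - s) - η ≤ f (t - s) ^ 2 / η := by
        rw [le_div_iff₀ hη]
        nlinarith [sq_nonneg (f (t - s) - η), hf (t - s)]
      linarith
  · linarith [h s hs h1]

/-- cutting into short intervals -/
lemma cut {Z T : ℕ} (hT : 1 ≤ T) {W : Finset ℤ} (hW : W ⊆ fr Z) {R : ℝ} (hR : 0 ≤ R)
    (h : ∀ U ⊆ W, (∀ t ∈ U, ∀ s ∈ U, |t - s| ≤ T) → (#U : ℝ) ≤ R) :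
    (#W : ℝ) ≤ (2 * Z / T + 1) * R := by
  have h1 : ∀ t ∈ W, (t + Z).toNat / T ∈ range (2 * Z / T + 1) := fun t ht => by
    have := mem_Icc.1 (hW ht)
    exact mem_range.2 (Nat.lt_succ_of_le (Nat.div_le_div_right (by omega)))
  rw [card_eq_sum_card_fiberwise h1, Nat.cast_sum]
  refine (sum_le_card_nsmul _ _ R fun k _ => h _ (filter_subset _ _) fun t ht s hs => ?_).trans ?_
  · obtain ⟨a1, a2⟩ := mem_filter.1 ht
    obtain ⟨b1, b2⟩ := mem_filter.1 hs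
    have a3 := mem_Icc.1 (hW a1)
    have b3 := mem_Icc.1 (hW b1)
    have a4 := Nat.div_add_mod (t + Z).toNat T
    have b4 := Nat.div_add_mod (s + Z).toNat T
    have a5 := Nat.mod_lt (t + Z).toNat hT
    have b5 := Nat.mod_lt (s + Z).toNat hT
    rw [a2] at a4
    rw [b2] at b4
    generalize T * k = q at a4 b4
    rw [abs_le]
    omega
  · rw [card_range, nsmul_eq_mul]
    gcongr
    push_cast
    gcongr
    exact_mod_cast Nat.cast_div_le (α := ℝ) (m := 2 * Z) (n := T)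

lemma cube {x : ℝ} (hx : 0 ≤ x) : (x ^ (1 / 3 : ℝ)) ^ 3 = x := by
  rw [← Real.rpow_natCast, ← Real.rpow_mul hx]
  norm_num

/-- the count in terms of the parameters -/
lemma num {f : ℤ → ℝ} (hf : ∀ τ, 0 ≤ f τ) {L u V : ℝ} (hL : 400 ≤ L) (hu : L ^ 2 ≤ u)
    (hV : 1 ≤ V * u) (hV' : V ≤ L) (h0 : f 0 ≤ L)
    (h1 : ∀ T : ℕ, ∑ τ ∈ fz T, f τ ^ 2 ≤ L * T / u ^ 12)
    (h2 : ∀ τ : ℤ, τ ≠ 0 →
      f τ ≤ L ^ 2 / 4 * (|(τ : ℝ)| ^ (1 / 3 : ℝ) / (u ^ 6 / 2) + |(τ : ℝ)| ^ (-(1 / 3) : ℝ)))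
    {Z : ℕ} {W : Finset ℤ} (hW : W ⊆ fr Z)
    (h3 : ∀ U ⊆ W, (#U * V) ^ 2 ≤ L ^ 2 * ∑ t ∈ U, ∑ s ∈ U, f (t - s)) :
    (#W : ℝ) ≤ L ^ 50 * (1 / V ^ 2 + Z / (u ^ 18 * V ^ 8)) := by
  have L1 : 1 ≤ L := by linarith
  have u1 : 1 ≤ u := (one_le_pow₀ L1).trans hu
  have V0 : 0 < V := pos_of_mul_pos_left (by linarith : 0 < V * u) (by linarith)
  set x := u ^ 6 / 2 * (V ^ 2 / L ^ 4) with hx
  set y := L ^ 4 / V ^ 2 with hy
  have x1 : 1 ≤ x := by
    have a1 : 1 ≤ (V * u) ^ 2 := one_le_pow₀ hV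
    have a2 : (L ^ 2) ^ 4 ≤ u ^ 4 := by gcongr
    have a3 : 2 ≤ L ^ 4 := le_trans (by linarith) (le_self_pow₀ L1 four_ne_zero)
    have a4 : x = u ^ 4 * (V * u) ^ 2 / (2 * L ^ 4) := by rw [hx]; field_simp
    rw [a4, one_le_div (by positivity)]
    have a5 : 2 * L ^ 4 ≤ (L ^ 2) ^ 4 := by
      rw [show (L ^ 2) ^ 4 = L ^ 4 * L ^ 4 by ring]
      gcongr
    have a6 : u ^ 4 ≤ u ^ 4 * (V * u) ^ 2 := le_mul_of_one_le_right (by positivity) a1
    linarith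
  have y1 : 1 ≤ y := by
    rw [hy, one_le_div (by positivity)]
    exact (pow_le_pow_left₀ V0.le hV' 2).trans (pow_le_pow_right₀ L1 (by norm_num))
  have x3 : 1 ≤ x ^ 3 := one_le_pow₀ x1
  have y3 : 1 ≤ y ^ 3 := one_le_pow₀ y1
  have T1 : 1 ≤ ⌊x ^ 3⌋₊ := Nat.le_floor (by simpa using x3)
  have T2 : x ^ 3 / 2 ≤ ⌊x ^ 3⌋₊ := by
    have a1 := Nat.lt_floor_add_one (x ^ 3)
    have a2 : (1 : ℝ) ≤ ⌊x ^ 3⌋₊ := by exact_mod_cast T1
    linarith
  have T3 : (⌈y ^ 3⌉₊ : ℝ) ≤ 2 * y ^ 3 := by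
    linarith [Nat.ceil_lt_add_one (show 0 ≤ y ^ 3 by linarith)]
  have η0 : 0 < V ^ 2 / (2 * L ^ 2) := by positivity
  have key := cut T1 hW (R := 10 * L ^ 17 / V ^ 2) (by positivity) fun U hU hd => by
    have b1 : ∀ t ∈ U, ∑ s ∈ U, f (t - s) ≤ #U * (V ^ 2 / (2 * L ^ 2)) + 5 * L ^ 15 := by
      intro t ht
      refine (row hf η0 (T := ⌈y ^ 3⌉₊) fun s hs h => ?_).trans ?_
      · have c1 : ((⌈y ^ 3⌉₊ : ℕ) : ℤ) < |t - s| := by
          rw [fr, mem_Icc, ← abs_le] at h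
          exact not_le.1 h
        have c2 : y ^ 3 ≤ |((t - s : ℤ) : ℝ)| :=
          (Nat.le_ceil _).trans (by exact_mod_cast c1.le)
        have c3 : |((t - s : ℤ) : ℝ)| ≤ x ^ 3 :=
          le_trans (by exact_mod_cast hd t ht s hs) (Nat.floor_le (by linarith))
        have c4 := cube (abs_nonneg ((t - s : ℤ) : ℝ))
        have c5 := Real.rpow_nonneg (abs_nonneg ((t - s : ℤ) : ℝ)) (1 / 3)
        refine (h2 _ (abs_pos.1 (lt_of_le_of_lt (Int.natCast_nonneg _) c1))).trans ?_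
        rw [Real.rpow_neg (abs_nonneg _)]
        rw [← c4] at c2 c3
        have c6 := (pow_le_pow_iff_left₀ (by linarith) c5 three_ne_zero).1 c2
        have c7 := (pow_le_pow_iff_left₀ c5 (by linarith) three_ne_zero).1 c3
        calc _ ≤ L ^ 2 / 4 * (x / (u ^ 6 / 2) + y⁻¹) := by gcongr
          _ = _ := by rw [hx, hy]; field_simp; ring
      · have c1 : (∑ τ ∈ fz ⌈y ^ 3⌉₊, f τ ^ 2) / (V ^ 2 / (2 * L ^ 2)) ≤ 4 * L ^ 15 := by
          have d1 : 1 ≤ (V * u) ^ 8 * u ^ 4 :=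
            one_le_mul_of_one_le_of_one_le (one_le_pow₀ hV) (one_le_pow₀ u1)
          calc _ ≤ L * (2 * y ^ 3) / u ^ 12 / (V ^ 2 / (2 * L ^ 2)) := by
                gcongr
                exact (h1 _).trans (by gcongr)
            _ = 4 * L ^ 15 / ((V * u) ^ 8 * u ^ 4) := by rw [hy]; field_simp; ring
            _ ≤ _ := div_le_self (by positivity) d1
        have c2 : L ≤ L ^ 15 := le_self_pow₀ L1 (by norm_num)
        linarith
    have b2 := (h3 U hU).trans (mul_le_mul_of_nonneg_left (sum_le_card_nsmul _ _ _ b1)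
      (by positivity))
    rw [nsmul_eq_mul] at b2
    have b3 : L ^ 2 * (#U * (#U * (V ^ 2 / (2 * L ^ 2)) + 5 * L ^ 15)) =
        (#U * V) ^ 2 / 2 + #U * (5 * L ^ 17) := by field_simp
    rw [le_div_iff₀ (by positivity)]
    rcases (Nat.cast_nonneg (α := ℝ) #U).eq_or_lt with b4 | b4
    · rw [← b4, zero_mul]
      positivity
    · refine le_of_mul_le_mul_left ?_ b4
      rw [b3] at b2
      linarith
  have a1 : 10 * L ^ 17 ≤ L ^ 50 := by
    calc _ ≤ L * L ^ 17 := by gcongr; linarith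
      _ ≤ _ := by rw [← pow_succ']; exact pow_le_pow_right₀ L1 (by norm_num)
  have a2 : 320 * L ^ 29 ≤ L ^ 50 := by
    calc _ ≤ L * L ^ 29 := by gcongr; linarith
      _ ≤ _ := by rw [← pow_succ']; exact pow_le_pow_right₀ L1 (by norm_num)
  calc _ ≤ _ := key
    _ ≤ (2 * Z / (x ^ 3 / 2) + 1) * (10 * L ^ 17 / V ^ 2) := by gcongr
    _ = 10 * L ^ 17 * (1 / V ^ 2) + 320 * L ^ 29 * (Z / (u ^ 18 * V ^ 8)) := by
      rw [hx]; field_simp; ring
    _ ≤ _ := by rw [mul_add]; gcongr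

end LV

open LV in
theorem lv (hB : Bas) (h1 : S2St) (h2 : PW2St) : LVSt := by
  intro A B ε hε
  obtain ⟨C₁, c1, h1⟩ := h1
  obtain ⟨C₂, c2, h2⟩ := h2 (ε / 50 / (A + 1)) (by positivity)
  obtain ⟨C₃, c3, h3⟩ := hB.m0_le
  obtain ⟨C₄, c4, h4⟩ := hB.D0_le
  have δ0 : 0 < ε / 50 := by positivity
  filter_upwards [ev (K := 4 * C₁ + C₃ + C₄ * B) (by positivity) A δ0,
    (tendsto_rpow_atTop δ0).eventually_ge_atTop (400 + 4 * C₂ + B), eventually_ge_atTop 1]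
    with w l1 l2 w1 ι S v Z Y V hm hY hv hZ hV
  have w0 : 0 < w := by linarith
  have e1 : w ^ ε = (w ^ (ε / 50)) ^ 50 := by
    rw [← Real.rpow_natCast, ← Real.rpow_mul w0.le]
    norm_num
  have e2 : (w ^ A) ^ (ε / 50 / (A + 1)) ≤ w ^ (ε / 50) := by
    rw [← Real.rpow_natCast, ← Real.rpow_mul w0.le]
    refine Real.rpow_le_rpow_of_exponent_le w1 ?_
    rw [← mul_div_assoc, div_le_iff₀ (by positivity)]
    linarith
  rw [← Real.log_pow] at l1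
  rw [e1]
  generalize w ^ (ε / 50) = L at l1 l2 e2
  have X1 : 1 ≤ w ^ A := one_le_pow₀ w1
  generalize w ^ A = X at l1 e2 hv X1
  have Y0 : 0 < Y := by linarith
  have e3 : ∀ n : ℕ, (Y ^ (1 / 12 : ℝ)) ^ n = Y ^ ((n : ℝ) / 12) := fun n => by
    rw [← Real.rpow_natCast, ← Real.rpow_mul Y0.le]
    congr 1
    ring
  have e4 : Y ^ (3 / 2 : ℝ) = (Y ^ (1 / 12 : ℝ)) ^ 18 := by rw [e3]; norm_num
  have e5 : √Y = (Y ^ (1 / 12 : ℝ)) ^ 6 := by rw [e3, Real.sqrt_eq_rpow]; norm_num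
  have e6 : Y = (Y ^ (1 / 12 : ℝ)) ^ 12 := by rw [e3]; norm_num
  have u1 := Real.one_le_rpow hY (show (0 : ℝ) ≤ 1 / 12 by norm_num)
  rw [Real.rpow_neg Y0.le] at hV
  rw [e4]
  generalize Y ^ (1 / 12 : ℝ) = u at e5 e6 u1 hV
  have V0 : 0 < V := lt_of_lt_of_le (by positivity) hV
  have B0 : (0 : ℝ) ≤ B := Nat.cast_nonneg B
  have hL : 400 ≤ L := by linarith
  rcases eq_empty_or_nonempty {t ∈ fr Z | V ≤ ‖hat S v t‖} with h | ⟨t, ht⟩
  · rw [h, card_empty, Nat.cast_zero]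
    positivity
  have g1 : 1 ≤ 1 + Real.log X := le_add_of_nonneg_right (Real.log_nonneg X1)
  have g2 : 0 ≤ C₁ * (1 + Real.log X) := by positivity
  have g3 : 0 ≤ C₃ * (1 + Real.log X) := by positivity
  have g4 : 0 ≤ C₄ * B * (1 + Real.log X) := by positivity
  have d1 : D0 S v ≤ L := by linarith [h4 ι S v B X hm X1 fun i hi => (hv i hi).2]
  have V1 : V ≤ L := ((mem_filter.1 ht).2.trans (hB.hat_le ι S v t)).trans d1
  rcases le_total u (L ^ 2) with hu | hu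
  · have a1 : (#{t ∈ fr Z | V ≤ ‖hat S v t‖} : ℝ) ≤ 3 * Z := by
      have : #{t ∈ fr Z | V ≤ ‖hat S v t‖} ≤ 3 * Z := by
        refine (card_filter_le _ _).trans ?_
        rw [fr, Int.card_Icc]
        omega
      exact_mod_cast this
    have a2 : 3 * (u ^ 18 * V ^ 8) ≤ L ^ 50 := by
      calc _ ≤ L * ((L ^ 2) ^ 18 * L ^ 8) := by gcongr; linarith
        _ = L ^ 45 := by ring
        _ ≤ _ := pow_le_pow_right₀ (by linarith) (by norm_num)
    calc _ ≤ _ := a1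
      _ = 3 * (u ^ 18 * V ^ 8) * (0 + Z / (u ^ 18 * V ^ 8)) := by field_simp; ring
      _ ≤ _ := by gcongr; positivity
  obtain ⟨i, hi⟩ : S.Nonempty := by
    refine nonempty_iff_ne_empty.2 fun h => ?_
    have := (mem_filter.1 ht).2
    rw [h, hat, sum_empty, norm_zero] at this
    linarith
  have YX : Y ≤ X := (hv i hi).1.trans (hv i hi).2
  have s1 : 2 ≤ √Y := by
    rw [e5]
    exact le_trans (by nlinarith) (le_self_pow₀ u1 (by norm_num))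
  have s2 : √Y ≤ √X := Real.sqrt_le_sqrt YX
  have s3 : √X ≤ X := Real.sqrt_le_self_iff.2 (Or.inr X1)
  refine num (f := fun τ => ‖sm (cls 1 0) (√Y / 2) √X τ‖) (fun _ => norm_nonneg _) hL hu
    ((inv_le_iff_one_le_mul₀ (by linarith)).1 hV) V1 ?_ (fun T => ?_) (fun τ hτ => ?_)
    (filter_subset _ _) fun U hU => ?_
  · have a1 : Real.log (√X / (√Y / 2)) ≤ Real.log X :=
      Real.log_le_log (by positivity) ((div_le_self (by positivity) (by linarith)).trans s3)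
    have a2 := (sm_le hB _ _ 0).trans (h3 (√Y / 2) √X (by linarith) (by linarith))
    have a3 : C₃ * (1 + Real.log (√X / (√Y / 2))) ≤ C₃ * (1 + Real.log X) := by gcongr
    linarith
  · refine (h1 1 0 _ _ T le_rfl (by linarith)).trans ?_
    have a1 : Real.log (2 * (√Y / 2)) ≤ Real.log X := Real.log_le_log (by positivity) (by linarith)
    rw [div_pow, Real.sq_sqrt Y0.le, ← e6]
    calc _ ≤ C₁ * T * (1 + Real.log X) / (Y / 2 ^ 2) := by gcongr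
      _ = 4 * C₁ * (1 + Real.log X) * T / Y := by field_simp; ring
      _ ≤ _ := by gcongr; linarith
  · refine (h2 1 0 _ _ τ le_rfl (by linarith) (by linarith) hτ).trans ?_
    rw [← e5, Nat.cast_one, mul_one]
    have a1 : √X ^ (ε / 50 / (A + 1)) ≤ L := le_trans (by gcongr) e2
    have a2 : C₂ * √X ^ (ε / 50 / (A + 1)) ≤ L / 4 * L := by gcongr; linarith
    gcongr
    linarith
  · refine (dual hB hm (by linarith) (fun i hi => MV.mem_sq hB Y0 (hv i hi).1 (hv i hi).2) V0.le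
      fun t ht => (mem_filter.1 (hU ht)).2).trans ?_
    rw [sq L, mul_assoc]
    gcongr
    linarith

end Pool.Agent.Lib.MP_4b1228_nt.GS
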