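import Pool.Agent.Lib.MP_4b1228_nt.GS.St

/-!
Primes `a ^ 2 + b ^ 2` with small `b`: the error terms of the sums of the first type.
-/

namespace Pool.Agent.Lib.MP_4b1228_nt.GS

open Finset Filter Topology Pool.Agent.Lib.MP_9d27bc_nt.C Pool.Agent.Lib.MP_9d27bc_nt.C.Two
open scoped Classical

namespace Eab

theorem ev_log (K : ℝ) (A n : ℕ) : ∀ᶠ w : ℝ in atTop, K * (2 + A * Real.log w) ^ n ≤ w := by
  have h0 : 0 < |K| * (2 + A) ^ n + 1 := by positivity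
  filter_upwards [(Real.isLittleO_pow_log_id_atTop (n := n)).bound (inv_pos.2 h0),
    Real.tendsto_log_atTop.eventually_ge_atTop 1, eventually_ge_atTop 0] with w h1 h2 h3
  rw [Real.norm_of_nonneg (by positivity), id, Real.norm_of_nonneg h3, ← div_eq_inv_mul,
    le_div_iff₀ h0] at h1
  have h4 : (2 + A * Real.log w) ^ n ≤ (2 + A) ^ n * Real.log w ^ n := by
    rw [← mul_pow]
    exact pow_le_pow_left₀ (by positivity) (by linarith) n
  have h5 : 0 ≤ Real.log w ^ n := by positivity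
  calc K * (2 + A * Real.log w) ^ n ≤ |K| * ((2 + A) ^ n * Real.log w ^ n) :=
        mul_le_mul (le_abs_self K) h4 (by positivity) (abs_nonneg K)
    _ ≤ w := by nlinarith

theorem cs {s : Finset ℤ} {a b : ℤ → ℝ} {X Y w : ℝ} (hw : 0 < w) (ha : ∑ t ∈ s, a t ^ 2 ≤ X)
    (hb : ∑ t ∈ s, b t ^ 2 ≤ Y) (h : X * Y ≤ 1 / w ^ 10) : ∑ t ∈ s, a t * b t ≤ 1 / w ^ 5 := by
  refine abs_le_of_sq_le_sq' ?_ (by positivity) |>.2
  have h1 : 0 ≤ ∑ t ∈ s, a t ^ 2 := sum_nonneg fun _ _ => sq_nonneg _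
  have h2 : 0 ≤ ∑ t ∈ s, b t ^ 2 := sum_nonneg fun _ _ => sq_nonneg _
  calc _ ≤ _ := sum_mul_sq_le_sq_mul_sq s a b
    _ ≤ X * Y := mul_le_mul ha hb h2 (h1.trans ha)
    _ ≤ 1 / w ^ 10 := h
    _ = _ := by field_simp

theorem fz_le (Z : ℕ) (a : ℤ → ℝ) : ∑ t ∈ fz Z, a t ^ 2 ≤ ∑ t ∈ fr Z, a t ^ 2 :=
  sum_le_sum_of_subset_of_nonneg (erase_subset _ _) fun _ _ _ => sq_nonneg _

theorem log_le {w P : ℝ} {A : ℕ} (hP : 1 ≤ P) (h : P ≤ w ^ A) :
    0 ≤ 1 + Real.log (2 * P) ∧ 1 + Real.log (2 * P) ≤ 2 + A * Real.log w := by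
  have h1 := Real.log_le_log (by linarith) h
  have h2 := Real.log_nonneg hP
  have h3 := Real.log_two_lt_d9
  have h4 := Real.log_two_gt_d9
  rw [Real.log_pow] at h1
  rw [Real.log_mul two_ne_zero (by linarith)]
  constructor <;> linarith

theorem pt {b s σ U : ℝ} (hU : 0 < U) (h0 : 0 ≤ s) (hs : s ≤ σ) (i : ℕ) :
    (b * s) ^ 2 ≤ s ^ 2 / U + σ ^ 2 * U ^ i * (b ^ (i + 1)) ^ 2 := by
  have h1 : 0 ≤ σ ^ 2 * U ^ i * (b ^ (i + 1)) ^ 2 := by positivity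
  have h2 : 0 ≤ s ^ 2 / U := by positivity
  rcases le_total (b ^ 2 * U) 1 with h | h
  · have : (b * s) ^ 2 ≤ s ^ 2 / U := by
      rw [le_div_iff₀ hU]
      nlinarith [sq_nonneg s]
    linarith
  · have h3 : b ^ 2 * s ^ 2 ≤ b ^ 2 * σ ^ 2 :=
      mul_le_mul_of_nonneg_left (pow_le_pow_left₀ h0 hs 2) (sq_nonneg b)
    have h4 : b ^ 2 * σ ^ 2 * 1 ≤ b ^ 2 * σ ^ 2 * (b ^ 2 * U) ^ i :=
      mul_le_mul_of_nonneg_left (one_le_pow₀ h) (by positivity)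
    have h5 : b ^ 2 * σ ^ 2 * (b ^ 2 * U) ^ i = σ ^ 2 * U ^ i * (b ^ (i + 1)) ^ 2 := by ring
    rw [mul_pow]
    linarith

theorem t1 {w Z P : ℝ} (hw : 1 ≤ w) (hZ : 0 < Z) (hP : 0 < P) {i : ℕ} (hi : i ≤ 3)
    (h : w ^ 50 * Z ^ (((i + 1 : ℕ) : ℝ) - 1 / 2) ≤ P ^ (2 * ((i + 1 : ℕ) : ℝ) - 1 / 2)) :
    (w * (Z / P ^ 3) ^ (1 / 4 : ℝ)) ^ 2 * (w ^ 11 * Z / P ^ 2) ^ i ≤ 1 / w ^ 14 := by
  have h0 : 0 < w := by linarith
  have h1 := Real.log_nonneg hw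
  have h2 : (i : ℝ) * Real.log w ≤ 3 * Real.log w :=
    mul_le_mul_of_nonneg_right (by exact_mod_cast hi) h1
  rw [← Real.log_le_log_iff (by positivity) (by positivity)] at h ⊢
  rw [Real.log_mul (by positivity) (by positivity), Real.log_rpow hZ, Real.log_rpow hP,
    Real.log_pow] at h
  rw [Real.log_mul (by positivity) (by positivity), Real.log_pow, Real.log_pow,
    Real.log_mul (by positivity) (by positivity), Real.log_rpow (by positivity),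
    Real.log_div (by positivity) (by positivity), Real.log_div (by positivity) (by positivity),
    Real.log_div (by positivity) (by positivity), Real.log_mul (by positivity) (by positivity),
    Real.log_pow, Real.log_pow, Real.log_pow, Real.log_pow, Real.log_one]
  push_cast at h ⊢
  nlinarith

theorem t2 {w Z P : ℝ} (hw : 1 ≤ w) (hZ : 0 < Z) (hP : 0 < P) {i : ℕ} (hi : i ≤ 3)
    (h : w ^ 50 * Z ^ (((i + 1 : ℕ) : ℝ) - 1) ≤ P ^ (2 * ((i + 1 : ℕ) : ℝ) - 2 + 4 / 11)) :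
    ((P ^ 2 / w ^ 14) ^ (-(1 / 11) : ℝ)) ^ 2 * (w ^ 11 * Z / P ^ 2) ^ i ≤ 1 / w ^ 14 := by
  have h0 : 0 < w := by linarith
  have h1 := Real.log_nonneg hw
  have h2 : (i : ℝ) * Real.log w ≤ 3 * Real.log w :=
    mul_le_mul_of_nonneg_right (by exact_mod_cast hi) h1
  rw [← Real.log_le_log_iff (by positivity) (by positivity)] at h ⊢
  rw [Real.log_mul (by positivity) (by positivity), Real.log_rpow hZ, Real.log_rpow hP,
    Real.log_pow] at h
  rw [Real.log_mul (by positivity) (by positivity), Real.log_pow, Real.log_pow,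
    Real.log_rpow (by positivity),
    Real.log_div (by positivity) (by positivity), Real.log_div (by positivity) (by positivity),
    Real.log_div (by positivity) (by positivity), Real.log_mul (by positivity) (by positivity),
    Real.log_pow, Real.log_pow, Real.log_pow, Real.log_one]
  push_cast at h ⊢
  nlinarith

theorem eps {w P : ℝ} {A : ℕ} (hw : 1 ≤ w) (hP : 0 ≤ P) (h : P ≤ w ^ A) :
    (P ^ (1 / (2 * ((A : ℝ) + 1)))) ^ 2 ≤ w := by
  have h1 : P ≤ w ^ (A + 1) := h.trans (pow_le_pow_right₀ hw (Nat.le_succ A))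
  have h2 := Real.rpow_le_rpow hP h1 (z := (((A + 1 : ℕ) : ℝ))⁻¹) (by positivity)
  rw [Real.pow_rpow_inv_natCast (by linarith) (Nat.succ_ne_zero A)] at h2
  rw [← Real.rpow_natCast, ← Real.rpow_mul hP]
  convert h2 using 2
  push_cast
  field_simp

end Eab

open Eab

theorem ea (_hB : Bas) (h1 : S2St) (h2 : LSSt) : EaSt := by
  intro A B
  obtain ⟨C₁, c1, h1⟩ := h1
  obtain ⟨C₂, c2, h2⟩ := h2
  filter_upwards [ev_log (2 * C₁ * C₂ * B ^ 2) A 5, eventually_ge_atTop 1] with w hw w1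
  intro ι S v Z q c P₁ P₂ Y hM hY hv hZ hq hP hP' a1 a2
  have w0 : 0 < w := by linarith
  rcases S.eq_empty_or_nonempty with rfl | ⟨i, hi⟩
  · simp only [hat, sum_empty, norm_zero, zero_mul, sum_const_zero]
    positivity
  refine cs w0 ((fz_le Z _).trans (h2 ι S v B Z Y _ hM hZ hY ((hv i hi).1.trans (hv i hi).2) hv))
    (h1 q c P₁ P₂ Z hq (by linarith)) ?_
  obtain ⟨l0, l1⟩ := log_le hP hP'
  have l2 := Real.log_nonneg w1
  rw [Real.log_pow]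
  generalize 1 + Real.log (2 * P₁) = L₁ at *
  have e1 : (1 + Z / Y) * Z / P₁ ^ 2 ≤ 2 / w ^ 14 := by
    rw [div_le_div_iff₀ (by positivity) (by positivity)]
    have : Z / Y * Z * w ^ 14 ≤ P₁ ^ 2 := by
      rw [div_mul_eq_mul_div, div_mul_eq_mul_div, div_le_iff₀ (by linarith)]
      linarith
    linarith
  have e2 : (1 + A * Real.log w) ^ 4 * L₁ ≤ (2 + A * Real.log w) ^ 5 := by
    rw [pow_succ _ 4]
    exact mul_le_mul (pow_le_pow_left₀ (by positivity) (by linarith) 4) l1 l0 (by positivity)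
  calc _ = C₁ * C₂ * B ^ 2 * ((1 + A * Real.log w) ^ 4 * L₁) * ((1 + Z / Y) * Z / P₁ ^ 2) := by ring
    _ ≤ C₁ * C₂ * B ^ 2 * (2 + A * Real.log w) ^ 5 * (2 / w ^ 14) := by gcongr
    _ = 2 * C₁ * C₂ * B ^ 2 * (2 + A * Real.log w) ^ 5 / w ^ 14 := by ring
    _ ≤ w ^ 4 / w ^ 14 := by
      gcongr
      exact hw.trans (le_self_pow₀ w1 (by norm_num))
    _ = _ := by field_simp

theorem eb (hB : Bas) (h1 : S2St) (h2 : LSSt) (h3 : PWSt) : EbSt := by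
  intro A B j j2 j4
  obtain ⟨C₁, c1, h1⟩ := h1
  obtain ⟨C₂, c2, h2⟩ := h2
  obtain ⟨C₃, c3, h3⟩ := h3 (1 / (2 * ((A : ℝ) + 1))) (by positivity)
  obtain ⟨i, rfl⟩ : ∃ i, j = i + 1 := ⟨j - 1, by omega⟩
  filter_upwards [ev_log (2 * C₂ * B ^ 2 * (B ^ 2 * C₁ + C₁ + 8 * C₃ ^ 2 * C₂ * B ^ 2)) (4 * A) 8,
    eventually_ge_atTop 1] with w hw w1
  rintro ι κ S v S' v' Z q c P P₂ ⟨m1, n1, d1, m2, n2, a1, a2, a3⟩ hZ hq hqw hP hP2 hP3
  have w0 : 0 < w := by linarith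
  have P0 : 0 < P := by linarith
  have Z1 : (1 : ℝ) ≤ Z := by exact_mod_cast hZ
  have Z0 : (0 : ℝ) < Z := by linarith
  rcases S.eq_empty_or_nonempty with rfl | ⟨i₀, hi⟩
  · simp only [hat, sum_empty, norm_zero, zero_mul, sum_const_zero]
    positivity
  have X1 : 1 ≤ w ^ A := one_le_pow₀ w1
  have ZX : (Z : ℝ) ≤ w ^ A := le_trans (by exact_mod_cast (n1 i₀ hi).1) (n1 i₀ hi).2
  have l2 := Real.log_nonneg w1
  have l3 : 0 ≤ A * Real.log w := by positivity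
  obtain ⟨l0, l1⟩ := log_le hP (hP2.trans hP3)
  obtain ⟨L, hL⟩ : ∃ L, L = 2 + ((4 * A : ℕ) : ℝ) * Real.log w := ⟨_, rfl⟩
  rw [← hL] at hw
  have hL' : L = 2 + 4 * (A * Real.log w) := by rw [hL]; push_cast; ring
  have L1 : 1 ≤ L := by linarith
  have ka : ∑ t ∈ fz Z, ‖hat S v t‖ ^ 2 ≤ 2 * C₂ * B ^ 2 * L ^ 4 := by
    refine (fz_le Z _).trans ((h2 ι S v B Z Z _ m1 hZ Z1 ZX fun k hk =>
      ⟨by exact_mod_cast (n1 k hk).1, (n1 k hk).2⟩).trans ?_)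
    rw [div_self Z0.ne', Real.log_pow]
    calc _ ≤ C₂ * B ^ 2 * (1 + 1) * L ^ 4 := by
          gcongr
          linarith
      _ = _ := by ring
  have kb : ∑ t ∈ fz Z, (‖hat S' v' t‖ ^ (i + 1)) ^ 2 ≤ 2 * C₂ * B ^ 2 * L ^ 4 := by
    have h4 := h2 _ _ _ B Z Z ((w ^ A) ^ (i + 1)) m2 hZ Z1
      (ZX.trans (le_self_pow₀ X1 (Nat.succ_ne_zero i))) fun f hf => by
        have hf' := Fintype.mem_piFinset.1 hf
        rw [hB.nm_prod]
        constructor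
        · have h5 : Z ^ (i + 1) ≤ (∏ k, nm (v' (f k))) ^ (i + 1) := by
            rw [← prod_pow]
            simpa using prod_le_prod' (s := univ) (f := fun _ : Fin (i + 1) => Z)
              fun k _ => (n2 _ (hf' k)).1
          exact_mod_cast (Nat.pow_le_pow_iff_left (Nat.succ_ne_zero i)).1 h5
        · push_cast
          simpa using prod_le_prod (s := univ) (g := fun _ : Fin (i + 1) => w ^ A)
            (fun k _ => Nat.cast_nonneg (nm (v' (f k)))) fun k _ => (n2 _ (hf' k)).2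
    simp only [hB.hat_pi (Fin (i + 1)) κ (fun _ => S') v', prod_const, card_univ, Fintype.card_fin,
      norm_pow] at h4
    refine (fz_le Z _).trans (h4.trans ?_)
    rw [div_self Z0.ne', Real.log_pow, Real.log_pow]
    have h6 : ((i + 1 : ℕ) : ℝ) * (A * Real.log w) ≤ 4 * (A * Real.log w) :=
      mul_le_mul_of_nonneg_right (by exact_mod_cast j4) l3
    calc _ ≤ C₂ * B ^ 2 * (1 + 1) * L ^ 4 := by
          gcongr
          linarith
      _ = _ := by ring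
  have ks : ∀ T : ℕ, ∑ t ∈ fz T, ‖sm (cls q c) P P₂ t‖ ^ 2 ≤ C₁ * L * (T / P ^ 2) := fun T => by
    refine (h1 q c P P₂ T hq (by linarith)).trans ?_
    calc _ ≤ C₁ * T * L / P ^ 2 := by
          gcongr
          linarith
      _ = _ := by ring
  obtain ⟨U, hU⟩ : ∃ U, U = w ^ 11 * Z / P ^ 2 := ⟨_, rfl⟩
  have U0 : 0 < U := by rw [hU]; positivity
  obtain ⟨σ, hσ⟩ : ∃ σ, σ = C₃ * P₂ ^ (1 / (2 * ((A : ℝ) + 1))) *
    (w * (Z / P ^ 3) ^ (1 / 4 : ℝ) + (P ^ 2 / w ^ 14) ^ (-(1 / 11) : ℝ)) := ⟨_, rfl⟩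
  have kσ : σ ^ 2 * U ^ i ≤ 4 * C₃ ^ 2 / w ^ 11 := by
    have b1 := t1 w1 Z0 P0 (by omega) a2
    have b2 := t2 w1 Z0 P0 (by omega) a3
    have b3 := eps w1 (P0.le.trans hP2) hP3
    rw [← hU] at b1 b2
    rw [hσ]
    generalize w * (Z / P ^ 3) ^ (1 / 4 : ℝ) = x at *
    generalize (P ^ 2 / w ^ 14) ^ (-(1 / 11) : ℝ) = y at *
    generalize P₂ ^ (1 / (2 * ((A : ℝ) + 1))) = e at *
    have b4 : 0 < U ^ i := pow_pos U0 i
    have b5 : (x + y) ^ 2 * U ^ i ≤ 4 / w ^ 14 := by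
      have : (x + y) ^ 2 * U ^ i ≤ (2 * x ^ 2 + 2 * y ^ 2) * U ^ i :=
        mul_le_mul_of_nonneg_right (by nlinarith [sq_nonneg (x - y)]) b4.le
      rw [show (4 : ℝ) / w ^ 14 = 4 * (1 / w ^ 14) by ring]
      linarith
    calc _ = C₃ ^ 2 * e ^ 2 * ((x + y) ^ 2 * U ^ i) := by ring
      _ ≤ C₃ ^ 2 * w ^ 3 * (4 / w ^ 14) := by
          gcongr
          exact b3.trans (le_self_pow₀ w1 (by norm_num))
      _ = _ := by field_simp
  have key : ∀ t ∈ fz Z, (‖hat S' v' t‖ * ‖sm (cls q c) P P₂ t‖) ^ 2 ≤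
      (if t ∈ fz ⌊P ^ 2 / w ^ 14⌋₊ then (B : ℝ) ^ 2 * ‖sm (cls q c) P P₂ t‖ ^ 2 else 0) +
      (‖sm (cls q c) P P₂ t‖ ^ 2 / U + σ ^ 2 * U ^ i * (‖hat S' v' t‖ ^ (i + 1)) ^ 2) := by
    intro t ht
    split_ifs with h
    · refine le_add_of_le_of_nonneg ?_ (by positivity)
      rw [mul_pow]
      gcongr
      exact (hB.hat_le _ _ _ _).trans d1
    · rw [zero_add]
      refine pt U0 (norm_nonneg _) ?_ i
      simp only [fz, fr, mem_erase, mem_Icc] at ht h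
      have b1 : |(t : ℝ)| ≤ Z := by
        rw [← Int.cast_abs]
        exact_mod_cast abs_le.2 ht.2
      have b2 : P ^ 2 / w ^ 14 ≤ |(t : ℝ)| := by
        refine (Nat.lt_floor_add_one _).le.trans ?_
        rw [← Int.cast_abs]
        have : ((⌊P ^ 2 / w ^ 14⌋₊ : ℤ) + 1) ≤ |t| := by
          rcases abs_cases t with e | e <;> omega
        exact_mod_cast this
      refine (h3 q c P P₂ t hq hP hP2 ht.1).trans ?_
      rw [hσ]
      have b3 : 0 ≤ P₂ := P0.le.trans hP2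
      have b4 : |(t : ℝ)| ^ (-(1 / 11) : ℝ) ≤ (P ^ 2 / w ^ 14) ^ (-(1 / 11) : ℝ) :=
        Real.rpow_le_rpow_of_nonpos (by positivity) b2 (by norm_num)
      refine mul_le_mul_of_nonneg_left (add_le_add (by gcongr) b4) (by positivity)
  simp only [mul_assoc]
  refine cs (Y := (B ^ 2 * C₁ + C₁ + 8 * C₃ ^ 2 * C₂ * B ^ 2) * L ^ 4 / w ^ 11) w0 ka
    ((sum_le_sum key).trans ?_) ?_
  · rw [sum_add_distrib, sum_add_distrib, ← sum_div, ← mul_sum, sum_ite_mem, ← mul_sum]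
    have LL : L ≤ L ^ 4 := le_self_pow₀ L1 (by norm_num)
    have b1 : ∑ t ∈ fz Z ∩ fz ⌊P ^ 2 / w ^ 14⌋₊, ‖sm (cls q c) P P₂ t‖ ^ 2 ≤
        C₁ * L ^ 4 / w ^ 11 := by
      refine (sum_le_sum_of_subset_of_nonneg inter_subset_right fun _ _ _ => sq_nonneg _).trans
        ((ks _).trans ?_)
      calc _ ≤ C₁ * L ^ 4 * (P ^ 2 / w ^ 11 / P ^ 2) := by
            gcongr
            refine (Nat.floor_le (by positivity)).trans ?_
            gcongr
            norm_num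
        _ = _ := by field_simp
    have b2 : (∑ t ∈ fz Z, ‖sm (cls q c) P P₂ t‖ ^ 2) / U ≤ C₁ * L ^ 4 / w ^ 11 := by
      calc _ ≤ C₁ * L ^ 4 * (Z / P ^ 2) / U := by
            gcongr
            refine (ks Z).trans ?_
            gcongr
        _ = _ := by rw [hU]; field_simp
    calc _ ≤ B ^ 2 * (C₁ * L ^ 4 / w ^ 11) + (C₁ * L ^ 4 / w ^ 11 +
          4 * C₃ ^ 2 / w ^ 11 * (2 * C₂ * B ^ 2 * L ^ 4)) := by gcongr
      _ = _ := by ring
  · calc _ = 2 * C₂ * B ^ 2 * (B ^ 2 * C₁ + C₁ + 8 * C₃ ^ 2 * C₂ * B ^ 2) * L ^ 8 / w ^ 11 := by ring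
      _ ≤ w / w ^ 11 := by gcongr
      _ = _ := by field_simp

end Pool.Agent.Lib.MP_4b1228_nt.GS
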