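import Pool.Agent.Lib.MP_4b1228_nt.GS.St3
import Pool.Agent.Lib.MP_4b1228_nt.GS.Eab

/-!
Primes `a ^ 2 + b ^ 2` with small `b`: moments of fractional order and two arbitrary factors.
-/

namespace Pool.Agent.Lib.MP_4b1228_nt.GS

open Finset Filter Topology Pool.Agent.Lib.MP_9d27bc_nt.C Pool.Agent.Lib.MP_9d27bc_nt.C.Two
open scoped Classical

namespace Mom

theorem ev_eps (K : ℝ) (A n : ℕ) {δ : ℝ} (hδ : 0 < δ) :
    ∀ᶠ w : ℝ in atTop, K * (2 + A * Real.log w) ^ n ≤ w ^ δ := by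
  obtain ⟨m, hm⟩ := exists_nat_ge (A / δ)
  filter_upwards [(tendsto_rpow_atTop hδ).eventually (Eab.ev_log |K| m n), eventually_ge_atTop 1]
    with w h w1
  have l := Real.log_nonneg w1
  rw [div_le_iff₀ hδ] at hm
  rw [Real.log_rpow (by linarith)] at h
  exact (mul_le_mul (le_abs_self K) (pow_le_pow_left₀ (by positivity) (by nlinarith) n)
    (by positivity) (abs_nonneg K)).trans h

/-- one class of large values. -/
theorem cla {V Y Z D p : ℝ} (hY : 1 ≤ Y) (hV : Y ^ (-(1 / 12) : ℝ) ≤ V) (hD : V ≤ D) (D1 : 1 ≤ D)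
    (p2 : 2 ≤ p) (p8 : p ≤ 8) (hZ : Z ≤ Y ^ ((p + 10) / 12)) :
    (1 / V ^ 2 + Z / (Y ^ (3 / 2 : ℝ) * V ^ 8)) * V ^ p ≤ 2 * D ^ 6 := by
  have Y0 : 0 < Y := by linarith
  have V0 : 0 < V := (Real.rpow_pos_of_pos Y0 _).trans_le hV
  have a1 : 1 / V ^ 2 * V ^ p ≤ D ^ 6 := by
    rw [← Real.rpow_natCast, ← Real.rpow_natCast, one_div, inv_mul_eq_div, ← Real.rpow_sub V0]
    exact (Real.rpow_le_rpow V0.le hD (by push_cast; linarith)).trans
      (Real.rpow_le_rpow_of_exponent_le D1 (by push_cast; linarith))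
  have a2 : Z / (Y ^ (3 / 2 : ℝ) * V ^ 8) * V ^ p ≤ 1 := by
    have b : V ^ (p - 8) ≤ Y ^ (-(1 / 12) * (p - 8)) := by
      rw [Real.rpow_mul Y0.le]
      exact Real.rpow_le_rpow_of_nonpos (Real.rpow_pos_of_pos Y0 _) hV (by linarith)
    calc _ = Z * V ^ (p - 8) / Y ^ (3 / 2 : ℝ) := by
          rw [Real.rpow_sub V0, ← Real.rpow_natCast V 8]
          push_cast
          ring
      _ ≤ Y ^ ((p + 10) / 12) * Y ^ (-(1 / 12) * (p - 8)) / Y ^ (3 / 2 : ℝ) := by gcongr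
      _ = 1 := by
          rw [← Real.rpow_add Y0, div_eq_one_iff_eq (Real.rpow_pos_of_pos Y0 _).ne']
          congr 1
          ring
  have a3 : 1 ≤ D ^ 6 := one_le_pow₀ D1
  rw [add_mul]
  linarith

theorem pt {b s σ U κ : ℝ} (hb : 0 ≤ b) (hU : 0 < U) (h0 : 0 ≤ s) (hs : s ≤ σ) (hκ : 0 ≤ κ) :
    (b * s) ^ 2 ≤ s ^ 2 / U + σ ^ 2 * U ^ κ * b ^ (2 * (1 + κ)) := by
  have h1 : 0 ≤ σ ^ 2 * U ^ κ * b ^ (2 * (1 + κ)) := by positivity
  have h2 : 0 ≤ s ^ 2 / U := by positivity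
  rcases le_total (b ^ 2 * U) 1 with h | h
  · have : (b * s) ^ 2 ≤ s ^ 2 / U := by
      rw [le_div_iff₀ hU]
      nlinarith [sq_nonneg s]
    linarith
  · have h3 : b ^ 2 * s ^ 2 ≤ b ^ 2 * σ ^ 2 :=
      mul_le_mul_of_nonneg_left (pow_le_pow_left₀ h0 hs 2) (sq_nonneg b)
    have h4 : b ^ 2 * σ ^ 2 * 1 ≤ b ^ 2 * σ ^ 2 * (b ^ 2 * U) ^ κ :=
      mul_le_mul_of_nonneg_left (Real.one_le_rpow h hκ) (by positivity)
    have h5 : b ^ 2 * σ ^ 2 * (b ^ 2 * U) ^ κ = σ ^ 2 * U ^ κ * b ^ (2 * (1 + κ)) := by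
      rw [Real.rpow_mul hb, Real.rpow_two, Real.rpow_one_add' (sq_nonneg b) (by positivity),
        Real.mul_rpow (sq_nonneg b) hU.le]
      ring
    rw [mul_pow]
    linarith

theorem ex {w Z P a κ : ℝ} (hw : 1 ≤ w) (hZ : 1 ≤ Z) (hP : 0 < P) (ha : 0 ≤ a) (hκ : 0 ≤ κ)
    (e : 2 * a * (1 + κ) = 1) (h : w ^ 60 * Z ^ (1 - 2 * a / 3) ≤ P ^ 2) :
    (w * (Z ^ (1 / 3 : ℝ) / P)) ^ 2 * (w ^ 11 * Z / P ^ 2) ^ κ ≤ 1 / w ^ 14 ∧
    (w * (P ^ 2 / w ^ 14) ^ (-(1 / 3) : ℝ)) ^ 2 * (w ^ 11 * Z / P ^ 2) ^ κ ≤ 1 / w ^ 14 := by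
  have h0 : 0 < w := by linarith
  have Z0 : 0 < Z := by linarith
  have h1 := Real.log_nonneg hw
  have h2 := Real.log_nonneg hZ
  rw [← Real.log_le_log_iff (by positivity) (by positivity),
    Real.log_mul (by positivity) (by positivity), Real.log_rpow Z0, Real.log_pow, Real.log_pow] at h
  have h3 := mul_le_mul_of_nonneg_left h hκ
  have h4 : a * κ * Real.log Z = Real.log Z / 2 - a * Real.log Z := by
    linear_combination Real.log Z / 2 * e
  have h5 := mul_nonneg hκ h1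
  have h6 := mul_nonneg ha h2
  constructor
  · rw [← Real.log_le_log_iff (by positivity) (by positivity),
      Real.log_mul (by positivity) (by positivity), Real.log_pow, Real.log_rpow (by positivity),
      Real.log_mul (by positivity) (by positivity), Real.log_div (by positivity) (by positivity),
      Real.log_rpow Z0, Real.log_div (by positivity) (by positivity),
      Real.log_div (by positivity) (by positivity), Real.log_mul (by positivity) (by positivity),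
      Real.log_pow, Real.log_pow, Real.log_pow, Real.log_one]
    push_cast at h h3 ⊢
    linarith
  · rw [← Real.log_le_log_iff (by positivity) (by positivity),
      Real.log_mul (by positivity) (by positivity), Real.log_pow, Real.log_rpow (by positivity),
      Real.log_mul (by positivity) (by positivity), Real.log_rpow (by positivity),
      Real.log_div (by positivity) (by positivity), Real.log_div (by positivity) (by positivity),
      Real.log_div (by positivity) (by positivity), Real.log_mul (by positivity) (by positivity),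
      Real.log_pow, Real.log_pow, Real.log_pow, Real.log_one]
    push_cast at h h3 ⊢
    linarith

end Mom

theorem mom (hB : Bas) (h1 : LSSt) (h2 : LVSt) : MomSt := by
  intro A B ε hε
  obtain ⟨C₁, c1, h1⟩ := h1
  obtain ⟨C₂, c2, h3⟩ := hB.D0_le
  filter_upwards [h2 A B (ε / 2) (by linarith), Eab.ev_log (C₂ * B + 1) A 1,
    Mom.ev_eps (2 * C₁ * B ^ 2 + 2 * Real.exp 8 * (C₂ * B + 1) ^ 6) (A + 1) 7 (half_pos hε),
    eventually_ge_atTop 1] with w h2 e1 e2 w1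
  intro ι S v Z Y p hM hY hv hZ p2 p8 hZY
  have w0 : 0 < w := by linarith
  have Y0 : 0 < Y := by linarith
  rcases S.eq_empty_or_nonempty with rfl | ⟨i₀, hi⟩
  · simp only [hat, sum_empty, norm_zero, Real.zero_rpow (show p ≠ 0 by linarith), sum_const_zero]
    positivity
  have YX : Y ≤ w ^ A := (hv i₀ hi).1.trans (hv i₀ hi).2
  have l2 := Real.log_nonneg w1
  have l3 : 0 ≤ A * Real.log w := by positivity
  obtain ⟨L, hL⟩ : ∃ L, L = 2 + ((A + 1 : ℕ) : ℝ) * Real.log w := ⟨_, rfl⟩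
  rw [← hL] at e2
  have hL' : L = 2 + A * Real.log w + Real.log w := by rw [hL]; push_cast; ring
  have L1 : 1 ≤ L := by linarith
  obtain ⟨D, hD⟩ : ∃ D, D = (C₂ * B + 1) * (2 + A * Real.log w) := ⟨_, rfl⟩
  rw [pow_one, ← hD] at e1
  have cB : 0 ≤ C₂ * B := by positivity
  have D1 : 1 ≤ D := by rw [hD]; nlinarith
  have hh : ∀ t, ‖hat S v t‖ ≤ D := fun t => by
    refine (hB.hat_le _ _ _ t).trans ((h3 ι S v B _ hM (hY.trans YX) fun i h => (hv i h).2).trans ?_)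
    rw [Real.log_pow, hD]
    nlinarith
  obtain ⟨V, hV⟩ : ∃ V, V = Y ^ (-(1 / 12) : ℝ) := ⟨_, rfl⟩
  have V0 : 0 < V := hV ▸ Real.rpow_pos_of_pos Y0 _
  have E1 : 1 ≤ w ^ (ε / 2) := Real.one_le_rpow w1 (by linarith)
  have s1 : ∑ t ∈ fr Z with ‖hat S v t‖ ≤ V, ‖hat S v t‖ ^ p ≤ 2 * C₁ * B ^ 2 * L ^ 4 := by
    have a1 : V ^ (p - 2) * (1 + Z / Y) ≤ 2 := by
      have b1 : V ^ (p - 2) ≤ 1 := Real.rpow_le_one V0.le
        (hV ▸ Real.rpow_le_one_of_one_le_of_nonpos hY (by norm_num)) (by linarith)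
      have b2 : V ^ (p - 2) * (Z / Y) ≤ 1 :=
        calc _ ≤ V ^ (p - 2) * (Y ^ ((p + 10) / 12) / Y) := by gcongr
          _ = 1 := by
            rw [hV, ← Real.rpow_mul Y0.le, ← mul_div_assoc, ← Real.rpow_add Y0,
              div_eq_one_iff_eq Y0.ne']
            conv_rhs => rw [← Real.rpow_one Y]
            congr 1
            ring
      linarith
    calc _ ≤ ∑ t ∈ fr Z with ‖hat S v t‖ ≤ V, V ^ (p - 2) * ‖hat S v t‖ ^ 2 :=
          sum_le_sum fun t ht => by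
            rw [show p = p - 2 + 2 by ring, Real.rpow_add' (norm_nonneg _) (by linarith),
              Real.rpow_two, add_sub_cancel_right]
            exact mul_le_mul_of_nonneg_right (Real.rpow_le_rpow (norm_nonneg _)
              (mem_filter.1 ht).2 (by linarith)) (sq_nonneg _)
      _ ≤ ∑ t ∈ fr Z, V ^ (p - 2) * ‖hat S v t‖ ^ 2 :=
          sum_le_sum_of_subset_of_nonneg (filter_subset _ _) fun _ _ _ => by positivity
      _ ≤ V ^ (p - 2) * (C₁ * B ^ 2 * (1 + Z / Y) * (1 + Real.log (w ^ A)) ^ 4) := by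
          rw [← mul_sum]
          exact mul_le_mul_of_nonneg_left (h1 ι S v B Z Y _ hM hZ hY YX hv) (by positivity)
      _ = C₁ * B ^ 2 * (V ^ (p - 2) * (1 + Z / Y)) * (1 + A * Real.log w) ^ 4 := by
          rw [Real.log_pow]
          ring
      _ ≤ C₁ * B ^ 2 * 2 * L ^ 4 := by
          gcongr
          linarith
      _ = _ := by ring
  have s2 : ∑ t ∈ fr Z with ¬‖hat S v t‖ ≤ V, ‖hat S v t‖ ^ p ≤
      L * (Real.exp 8 * (w ^ (ε / 2) * (2 * D ^ 6))) := by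
    rw [← sum_fiberwise_of_maps_to (g := fun t => ⌊Real.log (‖hat S v t‖ / V)⌋₊)
      (t := range (⌊((A + 1 : ℕ) : ℝ) * Real.log w⌋₊ + 1)) fun t ht => by
        have h := (not_le.1 (mem_filter.1 ht).2)
        refine mem_range.2 (Nat.lt_succ_of_le (Nat.floor_le_floor ?_))
        rw [← Real.log_pow]
        refine Real.log_le_log (div_pos (V0.trans h) V0) ?_
        rw [hV, Real.rpow_neg Y0.le, div_inv_eq_mul, pow_succ']
        exact mul_le_mul ((hh t).trans e1) ((Real.rpow_le_self_of_one_le hY (by norm_num)).trans YX)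
          (by positivity) w0.le]
    refine (sum_le_card_nsmul _ _ (Real.exp 8 * (w ^ (ε / 2) * (2 * D ^ 6))) fun i _ => ?_).trans ?_
    · have k : ∀ t ∈ ({t ∈ fr Z | ¬‖hat S v t‖ ≤ V} : Finset ℤ).filter
          fun t => ⌊Real.log (‖hat S v t‖ / V)⌋₊ = i, t ∈ fr Z ∧ V * Real.exp i ≤ ‖hat S v t‖ ∧
            ‖hat S v t‖ ≤ Real.exp 1 * (V * Real.exp i) := fun t ht => by
        obtain ⟨a, rfl⟩ := mem_filter.1 ht
        obtain ⟨a, b⟩ := mem_filter.1 a
        have b0 := div_pos (V0.trans (not_le.1 b)) V0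
        refine ⟨a, ?_, ?_⟩
        · rw [← le_div_iff₀' V0, ← Real.le_log_iff_exp_le b0]
          exact Nat.floor_le (Real.log_nonneg ((one_le_div V0).2 (not_le.1 b).le))
        · rw [mul_left_comm, ← div_le_iff₀' V0, ← Real.exp_add, ← Real.log_le_iff_le_exp b0,
            add_comm]
          exact (Nat.lt_floor_add_one _).le
      rcases Finset.eq_empty_or_nonempty (({t ∈ fr Z | ¬‖hat S v t‖ ≤ V} : Finset ℤ).filter
        fun t => ⌊Real.log (‖hat S v t‖ / V)⌋₊ = i) with e | ⟨t₀, ht₀⟩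
      · rw [e, sum_empty]
        positivity
      generalize hW : V * Real.exp i = W at k
      have VW : Y ^ (-(1 / 12) : ℝ) ≤ W := by
        rw [← hV, ← hW]
        exact le_mul_of_one_le_right V0.le (Real.one_le_exp (Nat.cast_nonneg i))
      have W0 : 0 < W := V0.trans_le (hV ▸ VW)
      refine (sum_le_card_nsmul _ _ (Real.exp 8 * W ^ p) fun t ht => ?_).trans ?_
      · refine (Real.rpow_le_rpow (norm_nonneg _) (k t ht).2.2 (by linarith)).trans ?_
        rw [Real.mul_rpow (Real.exp_pos 1).le W0.le, Real.exp_one_rpow]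
        gcongr
      · rw [nsmul_eq_mul, mul_left_comm]
        refine mul_le_mul_of_nonneg_left ?_ (Real.exp_pos 8).le
        refine (mul_le_mul_of_nonneg_right (le_trans (Nat.cast_le.2 (card_le_card fun t ht =>
          mem_filter.2 ⟨(k t ht).1, (k t ht).2.1⟩)) (h2 ι S v Z Y W hM hY hv hZ VW))
          (by positivity)).trans ?_
        rw [mul_assoc]
        exact mul_le_mul_of_nonneg_left
          (Mom.cla hY VW ((k t₀ ht₀).2.1.trans (hh t₀)) D1 p2 p8 hZY) (by positivity)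
    · rw [card_range, nsmul_eq_mul]
      refine mul_le_mul_of_nonneg_right ?_ (by positivity)
      have := Nat.floor_le (a := ((A + 1 : ℕ) : ℝ) * Real.log w) (by positivity)
      rw [Nat.cast_succ, hL]
      linarith
  rw [← sum_filter_add_sum_filter_not (fr Z) fun t => ‖hat S v t‖ ≤ V]
  have DL : D ≤ (C₂ * B + 1) * L := by
    rw [hD]
    gcongr
    linarith
  calc _ ≤ 2 * C₁ * B ^ 2 * L ^ 4 * 1 + L * (Real.exp 8 * (w ^ (ε / 2) * (2 * D ^ 6))) := by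
        linarith
    _ ≤ 2 * C₁ * B ^ 2 * L ^ 7 * w ^ (ε / 2) +
        L * (Real.exp 8 * (w ^ (ε / 2) * (2 * ((C₂ * B + 1) * L) ^ 6))) := by
        gcongr
        norm_num
    _ = (2 * C₁ * B ^ 2 + 2 * Real.exp 8 * (C₂ * B + 1) ^ 6) * L ^ 7 * w ^ (ε / 2) := by ring
    _ ≤ w ^ (ε / 2) * w ^ (ε / 2) := by gcongr
    _ = _ := by rw [← Real.rpow_add w0, add_halves]

open Eab in
theorem eb2 (hB : Bas) (h1 : S2St) (h2 : LSSt) (h3 : PW2St) : Eb2St := by
  intro A B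
  obtain ⟨C₁, c1, h1⟩ := h1
  obtain ⟨C₂, c2, h2⟩ := h2
  obtain ⟨C₃, c3, h3⟩ := h3 (1 / (2 * ((A : ℝ) + 1))) (by positivity)
  filter_upwards [ev_log (2 * C₂ * B ^ 2 * (B ^ 2 * C₁ + C₁ + 4 * C₃ ^ 2)) A 5,
    eventually_ge_atTop 1] with w hw w1
  rintro ι κ S v S' v' a Z q c P P₂ ⟨m1, n1, d1, -, a0, a4, kb, a2⟩ hZ hq hqw hP hP2 hP3
  have w0 : 0 < w := by linarith
  have P0 : 0 < P := by linarith
  have Z1 : (1 : ℝ) ≤ Z := by exact_mod_cast hZ
  have Z0 : (0 : ℝ) < Z := by linarith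
  rcases S.eq_empty_or_nonempty with rfl | ⟨i₀, hi⟩
  · simp only [hat, sum_empty, norm_zero, zero_mul, sum_const_zero]
    positivity
  have ZX : (Z : ℝ) ≤ w ^ A := le_trans (by exact_mod_cast (n1 i₀ hi).1) (n1 i₀ hi).2
  have l2 := Real.log_nonneg w1
  have l3 : 0 ≤ A * Real.log w := by positivity
  obtain ⟨l0, l1⟩ := log_le hP (hP2.trans hP3)
  obtain ⟨L, hL⟩ : ∃ L, L = 2 + (A : ℝ) * Real.log w := ⟨_, rfl⟩
  rw [← hL] at hw l1
  have L1 : 1 ≤ L := by linarith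
  obtain ⟨k, hk⟩ : ∃ k, 1 / a = 2 * (1 + k) := ⟨1 / a / 2 - 1, by ring⟩
  have ek : 2 * a * (1 + k) = 1 := by
    rw [div_eq_iff a0.ne'] at hk
    linarith
  have k0 : 0 ≤ k := by nlinarith
  rw [hk] at kb
  have ka : ∑ t ∈ fz Z, ‖hat S v t‖ ^ 2 ≤ 2 * C₂ * B ^ 2 * L ^ 4 := by
    refine (fz_le Z _).trans ((h2 ι S v B Z Z _ m1 hZ Z1 ZX fun k hk =>
      ⟨by exact_mod_cast (n1 k hk).1, (n1 k hk).2⟩).trans ?_)
    rw [div_self Z0.ne', Real.log_pow]
    calc _ ≤ C₂ * B ^ 2 * (1 + 1) * L ^ 4 := by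
          gcongr
          linarith
      _ = _ := by ring
  replace kb : ∑ t ∈ fz Z, ‖hat S' v' t‖ ^ (2 * (1 + k)) ≤ w :=
    (sum_le_sum_of_subset_of_nonneg (erase_subset _ _) fun _ _ _ => by positivity).trans kb
  have ks : ∀ T : ℕ, ∑ t ∈ fz T, ‖sm (cls q c) P P₂ t‖ ^ 2 ≤ C₁ * L * (T / P ^ 2) := fun T => by
    refine (h1 q c P P₂ T hq (by linarith)).trans ?_
    calc _ ≤ C₁ * T * L / P ^ 2 := by gcongr
      _ = _ := by ring
  obtain ⟨U, hU⟩ : ∃ U, U = w ^ 11 * Z / P ^ 2 := ⟨_, rfl⟩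
  have U0 : 0 < U := by rw [hU]; positivity
  obtain ⟨σ, hσ⟩ : ∃ σ, σ = C₃ * P₂ ^ (1 / (2 * ((A : ℝ) + 1))) * w *
    ((Z : ℝ) ^ (1 / 3 : ℝ) / P + (P ^ 2 / w ^ 14) ^ (-(1 / 3) : ℝ)) := ⟨_, rfl⟩
  have kσ : σ ^ 2 * U ^ k ≤ 4 * C₃ ^ 2 / w ^ 12 := by
    obtain ⟨b1, b2⟩ := Mom.ex w1 Z1 P0 a0.le k0 ek a2
    have b3 := eps w1 (P0.le.trans hP2) hP3
    rw [← hU] at b1 b2
    rw [hσ, mul_assoc _ w, mul_add w]
    generalize w * ((Z : ℝ) ^ (1 / 3 : ℝ) / P) = x at *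
    generalize w * (P ^ 2 / w ^ 14) ^ (-(1 / 3) : ℝ) = y at *
    generalize P₂ ^ (1 / (2 * ((A : ℝ) + 1))) = e at *
    have b4 : 0 < U ^ k := Real.rpow_pos_of_pos U0 k
    have b5 : (x + y) ^ 2 * U ^ k ≤ 4 / w ^ 14 := by
      have : (x + y) ^ 2 * U ^ k ≤ (2 * x ^ 2 + 2 * y ^ 2) * U ^ k :=
        mul_le_mul_of_nonneg_right (by nlinarith [sq_nonneg (x - y)]) b4.le
      rw [show (4 : ℝ) / w ^ 14 = 4 * (1 / w ^ 14) by ring]
      linarith
    calc _ = C₃ ^ 2 * e ^ 2 * ((x + y) ^ 2 * U ^ k) := by ring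
      _ ≤ C₃ ^ 2 * w ^ 2 * (4 / w ^ 14) :=
          mul_le_mul (mul_le_mul_of_nonneg_left (b3.trans (le_self_pow₀ w1 two_ne_zero))
            (sq_nonneg _)) b5 (by positivity) (by positivity)
      _ = _ := by field_simp
  have key : ∀ t ∈ fz Z, (‖hat S' v' t‖ * ‖sm (cls q c) P P₂ t‖) ^ 2 ≤
      (if t ∈ fz ⌊P ^ 2 / w ^ 14⌋₊ then (B : ℝ) ^ 2 * ‖sm (cls q c) P P₂ t‖ ^ 2 else 0) +
      (‖sm (cls q c) P P₂ t‖ ^ 2 / U + σ ^ 2 * U ^ k * ‖hat S' v' t‖ ^ (2 * (1 + k))) := by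
    intro t ht
    split_ifs with h
    · refine le_add_of_le_of_nonneg ?_ (by positivity)
      rw [mul_pow]
      gcongr
      exact (hB.hat_le _ _ _ _).trans d1
    · rw [zero_add]
      refine Mom.pt (norm_nonneg _) U0 (norm_nonneg _) ?_ k0
      simp only [fz, fr, mem_erase, mem_Icc] at ht h
      have b1 : |(t : ℝ)| ≤ Z := by
        rw [← Int.cast_abs]
        exact_mod_cast abs_le.2 ht.2
      have b2 : P ^ 2 / w ^ 14 ≤ |(t : ℝ)| := by
        refine (Nat.lt_floor_add_one _).le.trans ?_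
        rw [← Int.cast_abs]
        have : ((⌊P ^ 2 / w ^ 14⌋₊ : ℤ) + 1) ≤ |t| := by
          rcases abs_cases t with e | e <;> omega
        exact_mod_cast this
      refine (h3 q c P P₂ t hq hP hP2 ht.1).trans ?_
      rw [hσ]
      have b3 : 0 ≤ P₂ := P0.le.trans hP2
      have b4 : |(t : ℝ)| ^ (-(1 / 3) : ℝ) ≤ (P ^ 2 / w ^ 14) ^ (-(1 / 3) : ℝ) :=
        Real.rpow_le_rpow_of_nonpos (by positivity) b2 (by norm_num)
      exact mul_le_mul (by gcongr) (add_le_add (by gcongr) b4) (by positivity) (by positivity)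
  simp only [mul_assoc]
  refine cs (Y := (B ^ 2 * C₁ + C₁ + 4 * C₃ ^ 2) * L / w ^ 11) w0 ka
    ((sum_le_sum key).trans ?_) ?_
  · rw [sum_add_distrib, sum_add_distrib, ← sum_div, ← mul_sum, sum_ite_mem, ← mul_sum]
    have b1 : ∑ t ∈ fz Z ∩ fz ⌊P ^ 2 / w ^ 14⌋₊, ‖sm (cls q c) P P₂ t‖ ^ 2 ≤ C₁ * L / w ^ 11 := by
      refine (sum_le_sum_of_subset_of_nonneg inter_subset_right fun _ _ _ => sq_nonneg _).trans
        ((ks _).trans ?_)
      calc _ ≤ C₁ * L * (P ^ 2 / w ^ 11 / P ^ 2) := by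
            gcongr
            refine (Nat.floor_le (by positivity)).trans ?_
            gcongr
            norm_num
        _ = _ := by field_simp
    have b2 : (∑ t ∈ fz Z, ‖sm (cls q c) P P₂ t‖ ^ 2) / U ≤ C₁ * L / w ^ 11 := by
      calc _ ≤ C₁ * L * (Z / P ^ 2) / U := by
            gcongr
            exact ks Z
        _ = _ := by rw [hU]; field_simp
    calc _ ≤ B ^ 2 * (C₁ * L / w ^ 11) + (C₁ * L / w ^ 11 + 4 * C₃ ^ 2 / w ^ 12 * (w * L)) := by
          gcongr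
          exact kb.trans (le_mul_of_one_le_right w0.le L1)
      _ = _ := by field_simp; ring
  · calc _ = 2 * C₂ * B ^ 2 * (B ^ 2 * C₁ + C₁ + 4 * C₃ ^ 2) * L ^ 5 / w ^ 11 := by ring
      _ ≤ w / w ^ 11 := by gcongr
      _ = _ := by field_simp

end Pool.Agent.Lib.MP_4b1228_nt.GS
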