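import Pool.Agent.Lib.MP_4b1228_nt.GS.St3
import Pool.Agent.Lib.MP_4b1228_nt.GS.PW

/-! The bound of Weyl for the smooth sums. -/

namespace Pool.Agent.Lib.MP_4b1228_nt.GS

open Finset Filter Pool.Agent.Lib.MP_9d27bc_nt.C Pool.Agent.Lib.MP_9d27bc_nt.C.Two
open Pool.Agent.Lib.MP_028aa5_nt
open scoped Classical ComplexConjugate

noncomputable section

namespace PW2

theorem inv_sum (H : ℕ) :
    ∑ h ∈ sqr (-(H : ℤ)) (-(H : ℤ)) (2 * H + 1), 1 / (mx h : ℝ) = 8 * H := by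
  induction H with
  | zero =>
    refine (sum_eq_zero fun h hh => ?_).trans (by simp)
    have k := (PW.mem_sqr _ _ _ _).1 hh
    have : mx h = 0 := by unfold mx; omega
    simp [this]
  | succ H ih =>
    have hs : sqr (-(H : ℤ)) (-(H : ℤ)) (2 * H + 1) ⊆
        sqr (-((H + 1 : ℕ) : ℤ)) (-((H + 1 : ℕ) : ℤ)) (2 * (H + 1) + 1) := fun h hh => by
      rw [PW.mem_sqr] at hh ⊢
      omega
    rw [← sum_sdiff hs, ih, sum_congr rfl (g := fun _ => 1 / ((H : ℝ) + 1)) fun h hh => by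
      rw [Finset.mem_sdiff, PW.mem_sqr, PW.mem_sqr] at hh
      have : mx h = H + 1 := by unfold mx; omega
      rw [this]; push_cast; rfl, sum_const, card_sdiff_of_subset hs, PW.card_sqr, PW.card_sqr,
      show (2 * (H + 1) + 1) ^ 2 - (2 * H + 1) ^ 2 = 8 * (H + 1) from
        Nat.sub_eq_of_eq_add (by ring), nsmul_eq_mul]
    push_cast
    field_simp
    ring

theorem phase (hB : Bas) (t : ℤ) (q : ℕ) (c n h : GI) (hq : 1 ≤ q)
    (hz : ‖(h : ℂ)‖ < ‖(c : ℂ) / q + n‖) :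
    xi t (c + q * (n + h)) * conj (xi t (c + q * n)) = Complex.exp (Complex.I *
      (4 * t * (Complex.log (1 + (h : ℂ) / ((c : ℂ) / q + n))).im : ℝ)) := by
  have q0 : (q : ℂ) ≠ 0 := by exact_mod_cast (by omega : q ≠ 0)
  have z0 : (c : ℂ) / q + n ≠ 0 := norm_pos_iff.1 ((norm_nonneg _).trans_lt hz)
  have e1 : ((c + q * n : GI) : ℂ) = q * ((c : ℂ) / q + n) := by
    rw [map_add, map_mul, map_natCast]
    field_simp
  have m0 : (c + q * n : GI) ≠ 0 := fun k => by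
    rw [k, map_zero] at e1
    exact mul_ne_zero q0 z0 e1.symm
  have e2 : ((c + q * (n + h) : GI) : ℂ) =
      ((c + q * n : GI) : ℂ) * (1 + (h : ℂ) / ((c : ℂ) / q + n)) := by
    rw [mul_add _ 1, mul_one, mul_add, ← add_assoc, map_add, e1, mul_assoc,
      mul_div_cancel₀ _ z0, map_mul, map_natCast]
  have e3 : xi t (c + q * (n + h)) = xi t (c + q * n) *
      e ((4 * t : ℤ) * (Complex.log (1 + (h : ℂ) / ((c : ℂ) / q + n))).im / (2 * Real.pi)) := by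
    unfold xi chi dir
    rw [e2, Row.phase _ _ (by rw [norm_div, div_lt_one ((norm_nonneg _).trans_lt hz)]; exact hz)]
  rw [e3, mul_right_comm, Complex.mul_conj', hB.norm_xi t _ m0, e_eq,
    mul_div_cancel₀ _ (by positivity)]
  push_cast
  rw [one_pow, one_mul, mul_comm]

theorem core (hB : Bas) (h1 : AbelSt) (h2 : VCSt) (h3 : SDSt) : ∃ C : ℝ, 0 < C ∧
    ∀ (t : ℤ) (q : ℕ) (c : GI) (a b : ℤ) (L₁ L₂ : ℕ) (Q s : ℝ), 1 ≤ q → 1 ≤ s →
      s ^ 3 = |(t : ℝ)| → 20 * s ≤ Q → (L₁ : ℝ) ≤ 5 * Q → (L₂ : ℝ) ≤ 5 * Q →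
      (∀ n ∈ rct a b L₁ L₂, Q ≤ ((c : ℂ) / q + n).re ∧ ‖(c : ℂ) / q + n‖ ≤ 4 * Q) →
      ‖∑ n ∈ rct a b L₁ L₂, xi t (c + q * n)‖ ≤ C * (1 + Real.log Q) * (s * Q + Q ^ 2 / s) := by
  obtain ⟨C, hC, h3⟩ := h3
  refine ⟨240 * (C + 6), by positivity, fun t q c a b L₁ L₂ Q s hq s1 hs hQ l1 l2 hr => ?_⟩
  have s0 : 0 < s := by linarith
  have Q1 : 1 ≤ Q := by linarith
  have Q0 : 0 < Q := by linarith
  have t0 : t ≠ 0 := fun k => by
    rw [k, Int.cast_zero, abs_zero] at hs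
    exact (pow_pos s0 3).ne' hs
  obtain ⟨H, H1, H2, H3⟩ : ∃ H : ℕ, 1 ≤ H ∧ (H : ℝ) ≤ Q / (20 * s) ∧ Q / (20 * s) ≤ 2 * H := by
    have k : 1 ≤ Q / (20 * s) := (one_le_div (by positivity)).2 hQ
    have k1 : 1 ≤ ⌊Q / (20 * s)⌋₊ := Nat.le_floor (by simpa using k)
    have k2 : (1 : ℝ) ≤ ⌊Q / (20 * s)⌋₊ := by exact_mod_cast k1
    exact ⟨_, k1, Nat.floor_le (by linarith), by linarith [Nat.lt_floor_add_one (Q / (20 * s))]⟩
  have H0 : (1 : ℝ) ≤ H := by exact_mod_cast H1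
  have H4 : (H : ℝ) ≤ Q / 20 := H2.trans (by gcongr; linarith)
  have L1 : 1 ≤ 1 + Real.log Q := by linarith [Real.log_nonneg Q1]
  generalize hL : 1 + Real.log Q = L at L1
  have key : ∀ h ∈ sqr (-(H : ℤ)) (-(H : ℤ)) (2 * H + 1),
      ‖∑ n ∈ rct a b L₁ L₂ with n + h ∈ rct a b L₁ L₂,
        xi t (c + q * (n + h)) * conj (xi t (c + q * n))‖ ≤ (if h = 0 then 25 * Q ^ 2 else 0) +
        C * L ^ 2 * (s ^ 3 * (3 / 2 * H) / Q + Q ^ 3 / s ^ 3 * (1 / mx h)) := fun h hh => by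
    split_ifs with h0
    · refine le_add_of_le_of_nonneg ((norm_sum_le _ _).trans ((sum_le_card_nsmul _ _ 1
        fun n _ => ?_).trans ?_)) (by positivity)
      · rw [norm_mul, Complex.norm_conj]
        exact mul_le_one₀ (hB.xi_le _ _) (norm_nonneg _) (hB.xi_le _ _)
      · rw [nsmul_eq_mul, mul_one]
        refine le_trans (b := (L₁ : ℝ) * L₂) ?_ (by nlinarith)
        exact_mod_cast (card_filter_le _ _).trans_eq (h1.2.1 a b L₁ L₂)
    have k := (PW.mem_sqr _ _ _ _).1 hh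
    have k1 : (mx h : ℝ) ≤ H := by exact_mod_cast (by unfold mx; omega : mx h ≤ H)
    have k2 : (0 : ℝ) < mx h := by
      have : h.re ≠ 0 ∨ h.im ≠ 0 := by
        by_contra k3
        exact h0 (Zsqrtd.ext (by simpa using (not_or.1 k3).1) (by simpa using (not_or.1 k3).2))
      exact_mod_cast (by unfold mx; omega : 0 < mx h)
    obtain ⟨k3, k4⟩ := PW.nrm hB h
    have e1 : {n ∈ rct a b L₁ L₂ | n + h ∈ rct a b L₁ L₂} = rct (max a (a - h.re))
        (max b (b - h.im)) (L₁ - h.re.natAbs) (L₂ - h.im.natAbs) := by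
      ext n
      simp only [mem_filter, h1.1, Zsqrtd.re_add, Zsqrtd.im_add]
      omega
    have e2 : ∀ n ∈ rct (max a (a - h.re)) (max b (b - h.im)) (L₁ - h.re.natAbs)
        (L₂ - h.im.natAbs), Q ≤ ((c : ℂ) / q + n).re ∧ ‖(c : ℂ) / q + n‖ ≤ 4 * Q := fun n hn =>
      hr n (by rw [← e1] at hn; exact (mem_filter.1 hn).1)
    rw [e1, zero_add, sum_congr rfl fun n hn => phase hB t q c n h hq (by
      have := (e2 n hn).1.trans (Complex.re_le_norm _)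
      linarith)]
    refine (h3 t _ h _ _ _ _ Q Q1 t0 h0 (by linarith) e2).trans ?_
    rw [hL, ← hs, ← div_div, div_eq_mul_one_div _ ‖(h : ℂ)‖]
    gcongr
    linarith
  refine le_of_pow_le_pow_left₀ two_ne_zero (by positivity)
    ((h2 a b L₁ L₂ H (fun n => xi t (c + q * n)) H1).trans ?_)
  have b1 := sum_le_sum key
  rw [sum_add_distrib, ← mul_sum, sum_add_distrib, ← mul_sum, inv_sum, sum_const, PW.card_sqr,
    sum_ite_eq', nsmul_eq_mul] at b1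
  have b2 : (if (0 : GI) ∈ sqr (-(H : ℤ)) (-(H : ℤ)) (2 * H + 1) then 25 * Q ^ 2 else 0) ≤
      25 * Q ^ 2 := by split_ifs <;> [rfl; positivity]
  have b3 : (((2 * H + 1) ^ 2 : ℕ) : ℝ) * (s ^ 3 * (3 / 2 * H) / Q) ≤ Q ^ 2 :=
    calc _ ≤ (3 * H : ℝ) ^ 2 * (s ^ 3 * (3 / 2 * H) / Q) := by
          push_cast
          gcongr
          linarith
      _ ≤ (3 * (Q / (20 * s))) ^ 2 * (s ^ 3 * (3 / 2 * (Q / (20 * s))) / Q) := by gcongr
      _ = 27 / 16000 * Q ^ 2 := by field_simp; ring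
      _ ≤ _ := by nlinarith
  have b4 : Q ^ 3 / s ^ 3 * (8 * H) ≤ Q ^ 4 / s ^ 4 :=
    calc _ ≤ Q ^ 3 / s ^ 3 * (8 * (Q / (20 * s))) := by gcongr
      _ = 2 / 5 * (Q ^ 4 / s ^ 4) := by field_simp; ring
      _ ≤ _ := by linarith [show 0 ≤ Q ^ 4 / s ^ 4 by positivity]
  have b5 : ((L₁ : ℝ) + H) * (L₂ + H) / (H : ℝ) ^ 2 ≤ 57600 * s ^ 2 :=
    calc _ ≤ (6 * Q) * (6 * Q) / (Q / (20 * s) / 2) ^ 2 := by gcongr <;> linarith
      _ = _ := by field_simp; ring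
  calc _ ≤ 57600 * s ^ 2 * (25 * L ^ 2 * (Q ^ 2 + Q ^ 4 / s ^ 4) +
        C * L ^ 2 * (Q ^ 2 + Q ^ 4 / s ^ 4)) := by
        refine mul_le_mul b5 (b1.trans (add_le_add (b2.trans ?_) ?_))
          (sum_nonneg fun _ _ => norm_nonneg _) (by positivity)
        · calc 25 * Q ^ 2 = 25 * 1 ^ 2 * (Q ^ 2 + 0) := by ring
            _ ≤ _ := by gcongr; positivity
        · gcongr
    _ = 57600 * (C + 25) * L ^ 2 * ((s * Q) ^ 2 + (Q ^ 2 / s) ^ 2) := by field_simp; ring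
    _ ≤ 57600 * (C + 6) ^ 2 * L ^ 2 * (s * Q + Q ^ 2 / s) ^ 2 := by
        gcongr
        · nlinarith
        · nlinarith [show 0 ≤ s * Q * (Q ^ 2 / s) by positivity]
    _ = _ := by ring

theorem par (A c : ℤ) (L q : ℕ) (hq : 1 ≤ q) : ∃ (a : ℤ) (l : ℕ), q * l ≤ L + q ∧
    ∀ x : ℤ, (A ≤ c + q * x ∧ c + q * x < A + L) ↔ (a ≤ x ∧ x < a + l) := by
  have q0 : (0 : ℤ) < q := by exact_mod_cast hq
  have e : ∀ A x : ℤ, A ≤ c + q * x ↔ -((c - A) / q) ≤ x := fun A x => by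
    rw [neg_le, Int.le_ediv_iff_mul_le q0]
    constructor <;> intro h <;> linarith
  have e' : ∀ x : ℤ, (A ≤ c + q * x ∧ c + q * x < A + L) ↔ (-((c - A) / q) ≤ x ∧
      x < -((c - A) / q) + ((-((c - (A + L)) / q) - -((c - A) / q)).toNat : ℤ)) := fun x => by
    rw [← not_le, e, e]
    omega
  refine ⟨_, _, ?_, e'⟩
  generalize (-((c - (A + L)) / q) - -((c - A) / q)).toNat = l at e'
  generalize -((c - A) / (q : ℤ)) = a at e'
  rcases l with _ | l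
  · simp
  · have k1 := ((e' a).2 ⟨le_rfl, by omega⟩).1
    have k2 := ((e' (a + l)).2 ⟨by omega, by omega⟩).2
    have : (q : ℤ) * (l + 1 : ℕ) ≤ L + q := by push_cast; nlinarith
    exact_mod_cast this

theorem d1 {A A' B P D : ℝ} (hP : 0 < P) (h1 : P ^ 2 ≤ A + B) (h2 : P ^ 2 ≤ A' + B)
    (h : |A - A'| ≤ D) : |1 / (A' + B) - 1 / (A + B)| ≤ D / P ^ 4 := by
  have k1 : 0 < A + B := lt_of_lt_of_le (by positivity) h1
  have k2 : 0 < A' + B := lt_of_lt_of_le (by positivity) h2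
  rw [show 1 / (A' + B) - 1 / (A + B) = (A - A') / ((A' + B) * (A + B)) by field_simp; ring,
    abs_div, abs_of_pos (mul_pos k2 k1), show P ^ 4 = P ^ 2 * P ^ 2 by ring]
  have := (abs_nonneg _).trans h
  gcongr

theorem d2 {A A' B B' P D : ℝ} (hP : 0 < P) (h1 : P ^ 2 ≤ A) (h2 : P ^ 2 ≤ A') (h3 : 0 ≤ B)
    (h4 : 0 ≤ B') (h5 : A + A' + B + B' ≤ 16 * P ^ 2) (h : |A - A'| ≤ D) (h' : |B - B'| ≤ D) :
    |1 / (A' + B') - 1 / (A' + B) - 1 / (A + B') + 1 / (A + B)| ≤ 16 * D ^ 2 / P ^ 6 := by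
  have p : 0 < P ^ 2 := by positivity
  have k1 : 0 < A + B := by linarith
  have k2 : 0 < A' + B := by linarith
  have k3 : 0 < A + B' := by linarith
  have k4 : 0 < A' + B' := by linarith
  rw [show 1 / (A' + B') - 1 / (A' + B) - 1 / (A + B') + 1 / (A + B) = (A - A') * (B - B') *
      ((A + A' + B + B') / ((A' + B') * (A' + B) * (A + B') * (A + B))) by field_simp; ring,
    abs_mul, abs_mul, abs_of_pos (div_pos (by linarith : 0 < A + A' + B + B')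
      (mul_pos (mul_pos (mul_pos k4 k2) k3) k1))]
  have := (abs_nonneg _).trans h
  have k5 : 0 < A + A' + B + B' := by linarith
  calc _ ≤ D * D * (16 * P ^ 2 / (P ^ 2 * P ^ 2 * P ^ 2 * P ^ 2)) := by gcongr <;> linarith
    _ = _ := by field_simp

theorem dq {x x' q P : ℝ} (hq : 0 ≤ q) (h : x' = x + q) (h1 : |x| ≤ 2 * P) (h2 : |x'| ≤ 2 * P) :
    |x ^ 2 - x' ^ 2| ≤ 4 * P * q := by
  rw [show x ^ 2 - x' ^ 2 = -(x + x') * q by rw [h]; ring, abs_mul, abs_neg, abs_of_nonneg hq]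
  gcongr
  linarith [abs_add_le x x']

theorem nm_c (m : GI) : (1 : ℂ) / (nm m : ℂ) =
    ((1 / ((m.re : ℝ) ^ 2 + (m.im : ℝ) ^ 2) : ℝ) : ℂ) := by
  have : (nm m : ℝ) = (m.re : ℝ) ^ 2 + (m.im : ℝ) ^ 2 := by
    rw [hA.nm_eq, Complex.sq_norm, Complex.normSq_apply]
    simp only [GaussianInt.intCast_re, GaussianInt.intCast_im, sq]
  rw [← this]
  push_cast
  rfl

/-- the bound without the weight -/
def Core (C : ℝ) : Prop :=
  ∀ (t : ℤ) (q : ℕ) (c : GI) (a b : ℤ) (L₁ L₂ : ℕ) (Q s : ℝ), 1 ≤ q → 1 ≤ s →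
    s ^ 3 = |(t : ℝ)| → 20 * s ≤ Q → (L₁ : ℝ) ≤ 5 * Q → (L₂ : ℝ) ≤ 5 * Q →
    (∀ n ∈ rct a b L₁ L₂, Q ≤ ((c : ℂ) / q + n).re ∧ ‖(c : ℂ) / q + n‖ ≤ 4 * Q) →
    ‖∑ n ∈ rct a b L₁ L₂, xi t (c + q * n)‖ ≤ C * (1 + Real.log Q) * (s * Q + Q ^ 2 / s)

theorem rect (h1 : AbelSt) {C : ℝ} (hC : 0 < C) (h : Core C) (t : ℤ) (q : ℕ) (c : GI) (A B : ℤ)
    (L₁ L₂ : ℕ) {P s : ℝ} (hq : 1 ≤ q) (s1 : 1 ≤ s) (hs : s ^ 3 = |(t : ℝ)|)
    (hP : 20 * s * q ≤ P) (l1 : (L₁ : ℝ) ≤ 4 * P) (l2 : (L₂ : ℝ) ≤ 4 * P)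
    (hr : ∀ m ∈ rct A B L₁ L₂, P ≤ m.re ∧ (m.re : ℝ) ≤ 2 * P ∧ |(m.im : ℝ)| ≤ 2 * P) :
    ‖∑ m ∈ rct A B L₁ L₂ with cls q c m, xi t m / (nm m : ℂ)‖ ≤
      6441 * C * (1 + Real.log P) * q * (s / P + 1 / s) := by
  have q1 : (1 : ℝ) ≤ q := by exact_mod_cast hq
  have q0 : (0 : ℝ) < q := by linarith
  have s0 : 0 < s := by linarith
  have qP : (q : ℝ) ≤ P := by nlinarith
  have P0 : 0 < P := by linarith
  obtain ⟨a, l₁, ha, ea⟩ := par A c.re L₁ q hq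
  obtain ⟨b, l₂, hb, eb⟩ := par B c.im L₂ q hq
  have er : ∀ n : GI, (c + q * n).re = c.re + q * n.re := fun n => by simp
  have ei : ∀ n : GI, (c + q * n).im = c.im + q * n.im := fun n => by simp
  have em : ∀ n : GI, c + q * n ∈ rct A B L₁ L₂ ↔ n ∈ rct a b l₁ l₂ := fun n => by
    rw [h1.1, h1.1, er, ei, ← and_assoc, ea, eb, and_assoc]
  have e : ∑ m ∈ rct A B L₁ L₂ with cls q c m, xi t m / (nm m : ℂ) =
      ∑ n ∈ rct a b l₁ l₂, xi t (c + q * n) * (1 / (nm (c + q * n) : ℂ)) := by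
    refine (sum_bij (fun n _ => c + q * n) (fun n hn => ?_) (fun n _ n' _ k => ?_)
      (fun m hm => ?_) fun n _ => ?_).symm
    · exact mem_filter.2 ⟨(em n).2 hn, ⟨n, by ring⟩⟩
    · exact mul_left_cancel₀ (by exact_mod_cast (by omega : q ≠ 0)) (add_left_cancel k)
    · obtain ⟨k1, n, k2⟩ := mem_filter.1 hm
      have k3 : c + q * n = m := by rw [← k2]; ring
      exact ⟨n, (em n).1 (k3 ▸ k1), k3⟩
    · rw [mul_one_div]
  have c1 : ∀ l L : ℕ, q * l ≤ L + q → (L : ℝ) ≤ 4 * P → (l : ℝ) ≤ 5 * (P / q) := fun l L k k' => by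
    have : (q : ℝ) * l ≤ L + q := by exact_mod_cast k
    rw [← mul_div_assoc, le_div_iff₀ q0]
    linarith
  have c2 := c1 _ _ ha l1
  have c3 := c1 _ _ hb l2
  have hx : ∀ n ∈ rct a b l₁ l₂, P ^ 2 ≤ ((c + q * n).re : ℝ) ^ 2 ∧
      |((c + q * n).re : ℝ)| ≤ 2 * P ∧ |((c + q * n).im : ℝ)| ≤ 2 * P := fun n hn => by
    obtain ⟨k1, k2, k3⟩ := hr _ ((em n).2 hn)
    exact ⟨by gcongr, by rw [abs_of_nonneg (by linarith)]; exact k2, k3⟩
  have sq : ∀ x : ℝ, |x| ≤ 2 * P → x ^ 2 ≤ 4 * P ^ 2 := fun x k => by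
    nlinarith [sq_abs x, abs_nonneg x]
  have L0 : 0 ≤ Real.log (P / q) := Real.log_nonneg ((one_le_div q0).2 qP)
  rw [e]
  refine (h1.2.2 a b l₁ l₂ _ _ (C * (1 + Real.log (P / q)) * (s * (P / q) + (P / q) ^ 2 / s))
    (1 / P ^ 2) (4 * P * q / P ^ 4) (16 * (4 * P * q) ^ 2 / P ^ 6) (by positivity) (by positivity)
    (by positivity) (fun k₁ hk₁ k₂ hk₂ => ?_) (fun n hn => ?_) (fun n hn hn' => ?_)
    (fun n hn hn' => ?_) fun n hn hn' => ?_).trans ?_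
  · refine h t q c a b k₁ k₂ (P / q) s hq s1 hs ((le_div_iff₀ q0).2 hP)
      (le_trans (by exact_mod_cast hk₁) c2) (le_trans (by exact_mod_cast hk₂) c3) fun n hn => ?_
    obtain ⟨k1, k2, k3⟩ := hr _ ((em n).2 (by rw [h1.1] at hn ⊢; omega))
    have e1 : (c : ℂ) / q + n = ((c + q * n : GI) : ℂ) / ((q : ℝ) : ℂ) := by
      have : (q : ℂ) ≠ 0 := by exact_mod_cast q0.ne'
      rw [map_add, map_mul, map_natCast, Complex.ofReal_natCast]
      field_simp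
    rw [e1, Complex.div_ofReal_re, norm_div, Complex.norm_real, Real.norm_of_nonneg q0.le,
      ← mul_div_assoc, ← GaussianInt.intCast_re]
    refine ⟨by gcongr, ?_⟩
    gcongr
    refine (Complex.norm_le_abs_re_add_abs_im _).trans ?_
    rw [← GaussianInt.intCast_re, ← GaussianInt.intCast_im, abs_of_nonneg (by linarith)]
    linarith
  · rw [nm_c, Complex.norm_real, Real.norm_of_nonneg (by positivity)]
    gcongr
    linarith [(hx n hn).1, sq_nonneg ((c + q * n).im : ℝ)]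
  · obtain ⟨k1, k2, k3⟩ := hx n hn
    obtain ⟨k4, k5, k6⟩ := hx _ hn'
    have k7 : (c + q * (n + 1)).im = (c + q * n).im := by simp
    rw [nm_c, nm_c, ← Complex.ofReal_sub, Complex.norm_real, Real.norm_eq_abs, k7]
    exact d1 P0 (by linarith [sq_nonneg ((c + q * n).im : ℝ)])
      (by linarith [sq_nonneg ((c + q * n).im : ℝ)]) (dq q0.le (by simp; ring) k2 k5)
  · obtain ⟨k1, k2, k3⟩ := hx n hn
    obtain ⟨k4, k5, k6⟩ := hx _ hn'
    have k7 : (c + q * (n + ⟨0, 1⟩)).re = (c + q * n).re := by simp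
    rw [nm_c, nm_c, ← Complex.ofReal_sub, Complex.norm_real, Real.norm_eq_abs, k7,
      add_comm (((c + q * n).re : ℝ) ^ 2), add_comm (((c + q * n).re : ℝ) ^ 2)]
    exact d1 P0 (by linarith [sq_nonneg ((c + q * n).im : ℝ)])
      (by linarith [sq_nonneg ((c + q * (n + ⟨0, 1⟩)).im : ℝ)]) (dq q0.le (by simp; ring) k3 k6)
  · obtain ⟨k1, k2, k3⟩ := hx n hn
    obtain ⟨k4, k5, k6⟩ := hx _ hn'
    have k7 : (c + q * (n + 1)).im = (c + q * n).im := by simp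
    have k8 : (c + q * (n + ⟨0, 1⟩)).re = (c + q * n).re := by simp
    have k9 : (c + q * (n + 1)).re = (c + q * (n + ⟨1, 1⟩)).re := by simp
    have k0 : (c + q * (n + ⟨0, 1⟩)).im = (c + q * (n + ⟨1, 1⟩)).im := by simp
    rw [nm_c, nm_c, nm_c, nm_c, ← Complex.ofReal_sub, ← Complex.ofReal_sub, ← Complex.ofReal_add,
      Complex.norm_real, Real.norm_eq_abs, k7, k8, k9, k0]
    exact d2 P0 k1 k4 (sq_nonneg _) (sq_nonneg _)
      (by linarith [sq _ k2, sq _ k3, sq _ k5, sq _ k6]) (dq q0.le (by simp; ring) k2 k5)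
      (dq q0.le (by simp; ring) k3 k6)
  · have L1 : Real.log (P / q) ≤ Real.log P := Real.log_le_log (by positivity) (div_le_self P0.le q1)
    have L2 : 0 ≤ 1 + Real.log P := by linarith
    calc _ ≤ C * (1 + Real.log P) * (s * (P / q) + (P / q) ^ 2 / s) * (1 / P ^ 2 +
          (5 * (P / q) + 5 * (P / q)) * (4 * P * q / P ^ 4) +
          5 * (P / q) * (5 * (P / q)) * (16 * (4 * P * q) ^ 2 / P ^ 6)) := by gcongr
      _ = 6441 * C * (1 + Real.log P) * (s / P / q + 1 / s / q ^ 2) := by field_simp; ring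
      _ ≤ 6441 * C * (1 + Real.log P) * (s / P * q + 1 / s * q) := by
          gcongr
          · exact (div_le_self (by positivity) q1).trans (le_mul_of_one_le_right (by positivity) q1)
          · exact (div_le_self (by positivity) (one_le_pow₀ q1)).trans
              (le_mul_of_one_le_right (by positivity) q1)
      _ = _ := by ring

theorem rot (hB : Bas) (t : ℤ) (q : ℕ) (c u u' : GI) (hu : u * u' = 1) (S R : Finset GI)
    (h : ∀ m, u * m ∈ S ↔ m ∈ R) : ∑ m ∈ S with cls q c m, xi t m / (nm m : ℂ) =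
      ∑ m ∈ R with cls q (u' * c) m, xi t m / (nm m : ℂ) := by
  have U : IsUnit u := IsUnit.of_mul_eq_one u' hu
  have hc : ∀ m, cls q c (u * m) ↔ cls q (u' * c) m := fun m => by
    unfold cls
    rw [show u * m - c = u * (m - u' * c) by rw [mul_sub, ← mul_assoc, hu, one_mul],
      U.dvd_mul_left]
  have e : ∀ m, u * (u' * m) = m := fun m => by rw [← mul_assoc, hu, one_mul]
  refine (sum_nbij' (u * ·) (u' * ·) (fun m hm => ?_) (fun m hm => ?_)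
    (fun m _ => by rw [mul_left_comm, e]) (fun m _ => e m) fun m _ => ?_).symm
  · simp only [mem_filter] at hm ⊢
    exact ⟨(h m).2 hm.1, (hc m).2 hm.2⟩
  · simp only [mem_filter] at hm ⊢
    exact ⟨(h _).1 (by rw [e]; exact hm.1), (hc _).1 (by rw [e]; exact hm.2)⟩
  · rw [hB.xi_unit t u m U, nm, nm, Zsqrtd.norm_mul, Int.natAbs_mul, Zsqrtd.norm_eq_one_iff.2 U,
      one_mul]

theorem block (hB : Bas) (h1 : AbelSt) {C : ℝ} (hC : 0 < C) (h : Core C) (t : ℤ) (q : ℕ) (c : GI)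
    {P P' s : ℝ} (hq : 1 ≤ q) (s1 : 1 ≤ s) (hs : s ^ 3 = |(t : ℝ)|) (P1 : 1 ≤ P) (hP : P ≤ P')
    (hP' : P' ≤ 2 * P) : ‖sm (cls q c) P P' t‖ ≤
      (25764 * C + 800) * (1 + Real.log P) * q * (s / P + 1 / s) := by
  have P0 : 0 < P := by linarith
  have s0 : 0 < s := by linarith
  have L0 := Real.log_nonneg P1
  rcases le_total P (20 * s * q) with k | k
  · have b := PW.triv hB P1 hP hP' (cls q c) (xi t) zero_le_one fun m _ => hB.xi_le t m
    calc ‖sm (cls q c) P P' t‖ ≤ 40 * 1 := b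
      _ ≤ 40 * (20 * s * q / P) := by gcongr; exact (one_le_div P0).2 k
      _ = (0 + 800) * (1 + 0) * q * (s / P + 0) := by ring
      _ ≤ _ := by gcongr <;> positivity
  obtain ⟨d, hd⟩ := Nat.exists_eq_add_of_le (Nat.floor_mono hP)
  have a1 : (⌊P⌋₊ : ℝ) ≤ P := Nat.floor_le P0.le
  have a2 := Nat.lt_floor_add_one P
  have a3 : (⌊P'⌋₊ : ℝ) ≤ P' := Nat.floor_le (by linarith)
  have hm : ∀ m : GI, m ∈ Sq P P' ↔ ⌊P⌋₊ < mx m ∧ mx m ≤ ⌊P⌋₊ + d := fun m => by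
    rw [hB.mem_Sq, ← hd, Nat.floor_lt P0.le, Nat.le_floor_iff (by linarith)]
  rw [hd] at a3
  generalize ⌊P⌋₊ = a at *
  push_cast at a3
  have a0 : (0 : ℝ) ≤ a := a.cast_nonneg
  have d0 : (0 : ℝ) ≤ d := d.cast_nonneg
  have b : ∀ c : GI, ‖∑ m ∈ rct (a + 1) (-a) d (2 * a + d + 1) with cls q c m,
      xi t m / (nm m : ℂ)‖ ≤ 6441 * C * (1 + Real.log P) * q * (s / P + 1 / s) := fun c =>
    rect h1 hC h t q c _ _ _ _ hq s1 hs k (by linarith) (by push_cast; linarith) fun m hm => by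
      obtain ⟨k1, k2, k3, k4⟩ := (h1.1 _ _ _ _ m).1 hm
      have k5 : (a : ℝ) + 1 ≤ m.re := by exact_mod_cast k1
      have k6 : (m.re : ℝ) ≤ a + d := by exact_mod_cast (by omega : m.re ≤ a + d)
      have k7 : -(a : ℝ) ≤ m.im := by exact_mod_cast k3
      have k8 : (m.im : ℝ) ≤ a + d := by exact_mod_cast (by omega : m.im ≤ a + d)
      exact ⟨by linarith, by linarith, abs_le.2 ⟨by linarith, by linarith⟩⟩
  have e : sm (cls q c) P P' t =
      ∑ m ∈ rct (a + 1) (-a) d (2 * a + d + 1) with cls q c m, xi t m / (nm m : ℂ) +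
      ∑ m ∈ rct (-a - d) (a + 1) (2 * a + d + 1) d with cls q c m, xi t m / (nm m : ℂ) +
      ∑ m ∈ rct (-a - d) (-a - d) d (2 * a + d + 1) with cls q c m, xi t m / (nm m : ℂ) +
      ∑ m ∈ rct (-a) (-a - d) (2 * a + d + 1) d with cls q c m, xi t m / (nm m : ℂ) := by
    rw [← sum_union, ← sum_union, ← sum_union, ← filter_union, ← filter_union, ← filter_union]
    · refine sum_congr (congrArg _ ?_) fun _ _ => rfl
      ext m
      simp only [hm, mem_union, h1.1, mx]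
      omega
    all_goals
      refine disjoint_left.2 fun m k1 k2 => ?_
      simp only [mem_union, mem_filter, h1.1] at k1 k2
      omega
  rw [e, rot hB t q c ⟨0, 1⟩ ⟨0, -1⟩ (by decide) (rct (-a - d) (a + 1) _ _)
      (rct (a + 1) (-a) d (2 * a + d + 1)) fun m => by simp [h1.1]; omega,
    rot hB t q c (-1) (-1) (by decide) (rct (-a - d) (-a - d) _ _)
      (rct (a + 1) (-a) d (2 * a + d + 1)) fun m => by simp [h1.1]; omega,
    rot hB t q c ⟨0, -1⟩ ⟨0, 1⟩ (by decide) (rct (-a) (-a - d) _ _)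
      (rct (a + 1) (-a) d (2 * a + d + 1)) fun m => by simp [h1.1]; omega]
  refine ((norm_add_le _ _).trans (add_le_add ((norm_add_le _ _).trans (add_le_add
    ((norm_add_le _ _).trans (add_le_add (b _) (b _))) (b _))) (b _))).trans ?_
  calc _ = (25764 * C + 0) * (1 + Real.log P) * q * (s / P + 1 / s) := by ring
    _ ≤ _ := by gcongr; norm_num

end PW2

theorem pw2 (hB : Bas) (h1 : AbelSt) (h2 : VCSt) (h3 : SDSt) : PW2St := by
  intro ε hε
  have e2 : 0 < ε / 2 := by linarith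
  obtain ⟨C, hC, h⟩ := PW2.core hB h1 h2 h3
  refine ⟨(4 / ε + 2) ^ 2 * (25764 * C + 800), by positivity, fun q c P₁ P₂ t hq p1 p2 ht => ?_⟩
  have t1 : (1 : ℝ) ≤ |(t : ℝ)| := by exact_mod_cast Int.one_le_abs ht
  have P1 : 1 ≤ P₂ := p1.trans p2
  have e1 : 1 ≤ P₂ ^ (ε / 2) := Real.one_le_rpow P1 e2.le
  have s1 : 1 ≤ |(t : ℝ)| ^ (1 / 3 : ℝ) := Real.one_le_rpow t1 (by norm_num)
  have hs : (|(t : ℝ)| ^ (1 / 3 : ℝ)) ^ 3 = |(t : ℝ)| := by
    rw [← Real.rpow_natCast, ← Real.rpow_mul (by linarith)]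
    norm_num
  rw [Real.rpow_neg (by linarith), ← one_div (_ ^ _)]
  generalize |(t : ℝ)| ^ (1 / 3 : ℝ) = s at s1 hs
  have l0 : 0 ≤ Real.log P₂ := Real.log_nonneg P1
  have b0 : 2 * Real.log P₂ + 2 ≤ (4 / ε + 2) * P₂ ^ (ε / 2) := by
    have k3 := Real.log_le_rpow_div (by linarith : 0 ≤ P₂) e2
    have k4 : P₂ ^ (ε / 2) / (ε / 2) * 2 = 4 / ε * P₂ ^ (ε / 2) := by field_simp; ring
    linarith
  have a := PW.dyad hB (cls q c) t (P₁ := P₁) (M := P₂) (B := (25764 * C + 800) *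
    ((4 / ε + 2) * P₂ ^ (ε / 2)) * q * (s / P₁ + 1 / s)) (by linarith) (by positivity)
    (fun P P' k1 k2 k3 k4 => by
      refine (PW2.block hB h1 hC h t q c hq s1 hs (p1.trans k1) k2 k3).trans ?_
      have := Real.log_le_log (by linarith) (k2.trans k4)
      have P0 : 0 < P := by linarith
      gcongr
      linarith)
    ⌈Real.logb 2 P₂⌉₊ P₂ p2 (by
      have k1 : P₂ ≤ 2 ^ (⌈Real.logb 2 P₂⌉₊ : ℝ) :=
        (Real.logb_le_iff_le_rpow one_lt_two (by linarith)).1 (Nat.le_ceil _)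
      rw [Real.rpow_natCast] at k1
      rw [pow_succ]
      nlinarith [pow_pos (two_pos : (0 : ℝ) < 2) ⌈Real.logb 2 P₂⌉₊]) le_rfl
  refine a.trans ?_
  have b1 : (⌈Real.logb 2 P₂⌉₊ : ℝ) + 1 ≤ (4 / ε + 2) * P₂ ^ (ε / 2) := by
    have k1 := Nat.ceil_lt_add_one (Real.logb_nonneg one_lt_two P1)
    have k2 : Real.logb 2 P₂ ≤ 2 * Real.log P₂ := by
      rw [Real.logb, div_le_iff₀ (Real.log_pos one_lt_two)]
      nlinarith [Real.log_two_gt_d9]
    linarith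
  have b2 : P₂ ^ ε = P₂ ^ (ε / 2) * P₂ ^ (ε / 2) := by
    rw [← Real.rpow_add (by linarith), add_halves]
  calc _ ≤ (4 / ε + 2) * P₂ ^ (ε / 2) * ((25764 * C + 800) *
        ((4 / ε + 2) * P₂ ^ (ε / 2)) * q * (s / P₁ + 1 / s)) := by gcongr
    _ = _ := by rw [b2]; ring

end

end Pool.Agent.Lib.MP_4b1228_nt.GS
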