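import Pool.Agent.Lib.MP_4b1228_nt.GS.St3
import Pool.Agent.Lib.MP_4b1228_nt.GS.Cub

/-! The second derivative test on a rectangle of Gaussian integers. -/

namespace Pool.Agent.Lib.MP_4b1228_nt.GS

open Finset Pool.Agent.Lib.MP_9d27bc_nt.C
open scoped Classical ComplexConjugate

namespace SD

open Cub

theorem e_le (x : ℝ) : ‖e x - 1‖ ≤ 7 * |x| := by
  rw [e_eq]
  refine Real.norm_exp_I_mul_ofReal_sub_one_le.trans ?_
  rw [Real.norm_eq_abs, abs_mul, abs_of_pos (by positivity : 0 < 2 * Real.pi)]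
  exact mul_le_mul_of_nonneg_right (by linarith [Real.pi_lt_d2]) (abs_nonneg x)

theorem e_d1 (x y : ℝ) : ‖e y - e x‖ ≤ 7 * |y - x| := by
  have : e y - e x = e x * (e (y - x) - 1) := by
    rw [mul_sub, ← e_add, mul_one, add_sub_cancel]
  rw [this, norm_mul, norm_e, one_mul]
  exact e_le _

theorem e_d2 (x α γ δ : ℝ) :
    ‖e (x + α + γ + δ) - e (x + α) - e (x + γ) + e x‖ ≤ 49 * (|α| * |γ|) + 7 * |δ| := by
  have : e (x + α + γ + δ) - e (x + α) - e (x + γ) + e x =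
      e x * ((e α - 1) * (e γ - 1) + e (α + γ) * (e δ - 1)) := by
    simp only [e_add]
    ring
  rw [this, norm_mul, norm_e, one_mul]
  refine (norm_add_le _ _).trans (add_le_add ?_ ?_)
  · rw [norm_mul]
    exact (mul_le_mul (e_le α) (e_le γ) (norm_nonneg _) (by positivity)).trans_eq (by ring)
  · rw [norm_mul, norm_e, one_mul]
    exact e_le δ

theorem e_int (k : ℤ) : e k = 1 := by
  rw [e, ← Complex.exp_int_mul_two_pi_mul_I k]
  push_cast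
  ring_nf

/-- the cell of a frequency -/
noncomputable def cl (L : ℕ) (θ : ℝ) : ℤ × ℤ :=
  (round θ, ⌊2 * (θ - round θ) / (1 / (L : ℝ))⌋)

/-- the weight of a cell -/
noncomputable def wt (c : ℤ × ℤ) : ℝ := 1 / (|(c.2 : ℝ)| + 1)

theorem wt0 (c : ℤ × ℤ) : 0 ≤ wt c := by
  rw [wt]
  positivity

theorem lin' {L : ℕ} (hL : 1 ≤ L) (θ : ℝ) {a b : ℤ} (hab : b - a ≤ L) :
    ‖∑ x ∈ Ico a b, e (θ * x)‖ ≤ 3 * L * wt (cl L θ) := by
  have p : (0 : ℝ) < L := by exact_mod_cast hL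
  have := lin (θ := θ - round θ) (δ := 1 / L) (abs_sub_round θ) (by positivity)
    (by rw [one_div_mul_cancel p.ne']) hab
  rw [div_div_eq_mul_div, div_one] at this
  refine le_of_eq_of_le (congrArg _ (sum_congr rfl fun x _ => ?_)) this
  rw [show θ * x = (θ - round θ) * x + ((round θ * x : ℤ) : ℝ) by push_cast; ring, e_add, e_int,
    mul_one]

theorem cl_eq {L : ℕ} (hL : 1 ≤ L) {θ θ' : ℝ} (h : cl L θ = cl L θ') :
    2 * L * |θ - θ'| < 1 := by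
  have p : (0 : ℝ) < L := by exact_mod_cast hL
  have a : round θ = round θ' := congrArg Prod.fst h
  have b := Int.abs_sub_lt_one_of_floor_eq_floor (congrArg Prod.snd h)
  rw [a, show 2 * (θ - round θ') / (1 / (L : ℝ)) - 2 * (θ' - round θ') / (1 / (L : ℝ)) =
    2 * L * (θ - θ') by field_simp; ring, abs_mul, abs_of_pos (by positivity : (0 : ℝ) < 2 * L)] at b
  exact b

theorem cl_mem {L M : ℕ} (hL : 1 ≤ L) {θ : ℝ} (h : |θ| ≤ M) :
    cl L θ ∈ Icc (-M : ℤ) M ×ˢ Icc (-L : ℤ) L := by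
  have p : (0 : ℝ) < L := by exact_mod_cast hL
  have r := abs_le.1 (abs_sub_round θ)
  have s := abs_le.1 h
  refine mem_product.2 ⟨mem_Icc.2 ⟨?_, ?_⟩, fl_mem (by positivity) ?_⟩
  · have : ((-M - 1 : ℤ) : ℝ) < round θ := by
      push_cast
      linarith
    have := Int.cast_lt.1 this
    change _ ≤ round θ
    omega
  · have : (round θ : ℝ) < ((M + 1 : ℤ) : ℝ) := by
      push_cast
      linarith
    have := Int.cast_lt.1 this
    change round θ ≤ _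
    omega
  · rw [one_div_mul_cancel p.ne']
    linarith [abs_sub_round θ]

theorem wt_sum (L M : ℕ) : ∑ c ∈ Icc (-M : ℤ) M ×ˢ Icc (-L : ℤ) L, wt c ≤
    (2 * M + 1) * (1 + 2 * Real.log (L + 1)) := by
  rw [sum_product]
  refine (sum_le_card_nsmul _ _ _ fun x _ => harm0 L).trans_eq ?_
  rw [nsmul_eq_mul, Int.card_Icc, show (M + 1 - -M : ℤ) = ((2 * M + 1 : ℕ) : ℤ) by push_cast; ring,
    Int.toNat_natCast]
  push_cast
  ring

/-- the data of the test -/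
structure Dat (K : Set ℂ) (φ ψ : ℂ → ℂ) (lam : ℝ) : Prop where
  cv : Convex ℝ K
  de : ∀ z ∈ K, HasDerivAt φ (ψ z) z
  up : ∀ z ∈ K, ∀ z' ∈ K, ‖ψ z - ψ z'‖ ≤ 7 * lam * ‖z - z'‖
  lo : ∀ z ∈ K, ∀ z' ∈ K, lam * ‖z - z'‖ ≤ 300 * ‖ψ z - ψ z'‖
  po : 0 < lam

variable {K : Set ℂ} {φ ψ : ℂ → ℂ} {lam : ℝ}

theorem d1 (D : Dat K φ ψ lam) {c z y : ℂ} {ρ : ℝ} (hc : c ∈ K) (hz : z ∈ K) (hy : y ∈ K)
    (h1 : ‖z - c‖ ≤ ρ) (h2 : ‖y - c‖ ≤ ρ) (h3 : ‖y - z‖ = 1) :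
    ‖φ y - ψ c * y - (φ z - ψ c * z)‖ ≤ 7 * lam * ρ := by
  have := Convex.norm_image_sub_le_of_norm_hasDerivWithin_le (f := fun z => φ z - ψ c * z)
    (f' := fun z => ψ z - ψ c) (s := K ∩ Metric.closedBall c ρ) (C := 7 * lam * ρ)
    (fun x hx => ((D.de x hx.1).fun_sub (hasDerivAt_const_mul (ψ c))).hasDerivWithinAt)
    (fun x hx => (D.up x hx.1 c hc).trans (mul_le_mul_of_nonneg_left
      (mem_closedBall_iff_norm.1 hx.2) (by linarith [D.po])))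
    (D.cv.inter (convex_closedBall c ρ)) ⟨hz, mem_closedBall_iff_norm.2 h1⟩
    ⟨hy, mem_closedBall_iff_norm.2 h2⟩
  rwa [h3, mul_one] at this

theorem d2 (D : Dat K φ ψ lam) {z : ℂ} (h0 : z ∈ K) (h1 : z + 1 ∈ K) (h2 : z + Complex.I ∈ K)
    (h3 : z + 1 + Complex.I ∈ K) :
    ‖φ (z + 1 + Complex.I) - φ (z + 1) - (φ (z + Complex.I) - φ z)‖ ≤ 7 * lam := by
  have := Convex.norm_image_sub_le_of_norm_hasDerivWithin_le
    (f := fun z => φ (z + Complex.I) - φ z) (f' := fun z => ψ (z + Complex.I) - ψ z)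
    (s := K ∩ (fun z => z + Complex.I) ⁻¹' K) (C := 7 * lam)
    (fun x hx => (((D.de _ hx.2).comp_add_const x Complex.I).sub (D.de x hx.1)).hasDerivWithinAt)
    (fun x hx => by simpa using D.up _ hx.2 x hx.1)
    (D.cv.inter (D.cv.translate_preimage_left _)) (x := z) (y := z + 1) ⟨h0, h2⟩ ⟨h1, h3⟩
  simpa using this

theorem c10 (ζ : ℂ) (n : GI) : ζ + (n + 1 : GI) = ζ + n + 1 := by
  simp [add_assoc]

theorem c01 (ζ : ℂ) (n : GI) : ζ + (n + ⟨0, 1⟩ : GI) = ζ + n + Complex.I := by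
  simp [add_assoc, GaussianInt.toComplex_def']

theorem c11 (ζ : ℂ) (n : GI) : ζ + (n + ⟨1, 1⟩ : GI) = ζ + n + 1 + Complex.I := by
  simp [add_assoc, GaussianInt.toComplex_def']

theorem tile (hA : AbelSt) (D : Dat K φ ψ lam) {L l₁ l₂ : ℕ} (hL : 1 ≤ L) (hl : lam * L ^ 2 ≤ 1)
    (h1 : l₁ ≤ L) (h2 : l₂ ≤ L) (ζ : ℂ) (c : GI) (hc : ζ + c ∈ K)
    (hK : ∀ n ∈ rct c.re c.im l₁ l₂, ζ + n ∈ K) :
    ‖∑ n ∈ rct c.re c.im l₁ l₂, e (φ (ζ + n)).im‖ ≤
      90000 * L ^ 2 * (wt (cl L (ψ (ζ + c)).im) * wt (cl L (ψ (ζ + c)).re)) := by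
  obtain ⟨mem, -, ab⟩ := hA
  have p := D.po
  have L1 : (1 : ℝ) ≤ L := by exact_mod_cast hL
  obtain ⟨β, hβ⟩ : ∃ β, β = ψ (ζ + c) := ⟨_, rfl⟩
  obtain ⟨r, hr⟩ : ∃ r : ℂ → ℝ, ∀ z, r z = (φ z - β * z).im := ⟨_, fun _ => rfl⟩
  have ds : ∀ n ∈ rct c.re c.im l₁ l₂, ‖ζ + n - (ζ + c)‖ ≤ 2 * L := fun n hn => by
    obtain ⟨a1, a2, a3, a4⟩ := (mem _ _ _ _ _).1 hn
    rw [add_sub_add_left_eq_sub]
    refine (Complex.norm_le_abs_re_add_abs_im _).trans ?_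
    have b1 : |n.re - c.re| ≤ L := by rw [abs_le]; omega
    have b2 : |n.im - c.im| ≤ L := by rw [abs_le]; omega
    have b1' : |(n.re : ℝ) - c.re| ≤ L := by exact_mod_cast b1
    have b2' : |(n.im : ℝ) - c.im| ≤ L := by exact_mod_cast b2
    rw [Complex.sub_re, Complex.sub_im, ← GaussianInt.intCast_re, ← GaussianInt.intCast_re,
      ← GaussianInt.intCast_im, ← GaussianInt.intCast_im]
    linarith
  have df : ∀ n ∈ rct c.re c.im l₁ l₂, ∀ m ∈ rct c.re c.im l₁ l₂, ‖ζ + m - (ζ + n)‖ = 1 →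
      |r (ζ + m) - r (ζ + n)| ≤ 14 * lam * L := fun n hn m hm h => by
    rw [hr, hr, ← Complex.sub_im, hβ]
    exact (Complex.abs_im_le_norm _).trans
      ((d1 D hc (hK n hn) (hK m hm) (ds n hn) (ds m hm) h).trans_eq (by ring))
  have := ab c.re c.im l₁ l₂ (fun n => e ((β * ζ).im + (β * n).im)) (fun n => e (r (ζ + n)))
    (3 * L * wt (cl L β.im) * (3 * L * wt (cl L β.re))) 1 (98 * lam * L)
    (49 * (14 * lam * L) ^ 2 + 49 * lam) zero_le_one (by positivity) (by positivity)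
    (fun k₁ hk₁ k₂ hk₂ => by
      rw [rct, rect]
      exact mul_le_mul (lin' hL _ (by omega)) (lin' hL _ (by omega)) (norm_nonneg _)
        (mul_nonneg (by positivity) (wt0 _)))
    (fun n _ => (norm_e _).le)
    (fun n hn hm => (e_d1 _ _).trans (by
      have := df n hn _ hm (by rw [c10]; simp)
      linarith))
    (fun n hn hm => (e_d1 _ _).trans (by
      have := df n hn _ hm (by rw [c01]; simp)
      linarith))
    (fun n hn hm => by
      have m1 : n + 1 ∈ rct c.re c.im l₁ l₂ := by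
        simp only [mem, Zsqrtd.re_add, Zsqrtd.im_add, Zsqrtd.re_one, Zsqrtd.im_one] at hn hm ⊢
        omega
      have m2 : n + ⟨0, 1⟩ ∈ rct c.re c.im l₁ l₂ := by
        simp only [mem, Zsqrtd.re_add, Zsqrtd.im_add] at hn hm ⊢
        omega
      have a1 := df n hn _ m1 (by rw [c10]; simp)
      have a2 := df n hn _ m2 (by rw [c01]; simp)
      have a3 := (Complex.abs_im_le_norm _).trans
        (d2 D (hK n hn) (c10 ζ n ▸ hK _ m1) (c01 ζ n ▸ hK _ m2) (c11 ζ n ▸ hK _ hm))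
      have a4 := e_d2 (r (ζ + n)) (r (ζ + (n + 1 : GI)) - r (ζ + n))
        (r (ζ + (n + ⟨0, 1⟩ : GI)) - r (ζ + n))
        (φ (ζ + n + 1 + Complex.I) - φ (ζ + n + 1) - (φ (ζ + n + Complex.I) - φ (ζ + n))).im
      have a5 : r (ζ + n) + (r (ζ + (n + 1 : GI)) - r (ζ + n)) +
          (r (ζ + (n + ⟨0, 1⟩ : GI)) - r (ζ + n)) +
          (φ (ζ + n + 1 + Complex.I) - φ (ζ + n + 1) - (φ (ζ + n + Complex.I) - φ (ζ + n))).im =
          r (ζ + (n + ⟨1, 1⟩ : GI)) := by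
        simp only [hr, c10, c01, c11, mul_add, Complex.sub_im, Complex.add_im]
        ring
      rw [a5, add_sub_cancel, add_sub_cancel] at a4
      refine a4.trans (add_le_add ?_ (by linarith))
      rw [sq]
      exact mul_le_mul_of_nonneg_left (mul_le_mul a1 a2 (abs_nonneg _) (by positivity))
        (by norm_num))
  rw [← hβ]
  refine le_of_eq_of_le (congrArg _ (sum_congr rfl fun n _ => ?_)) (this.trans ?_)
  · rw [← e_add, hr, mul_add, Complex.sub_im, Complex.add_im, add_sub_cancel]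
  · have k1 : (l₁ : ℝ) ≤ L := by exact_mod_cast h1
    have k2 : (l₂ : ℝ) ≤ L := by exact_mod_cast h2
    have w := mul_nonneg (wt0 (cl L β.im)) (wt0 (cl L β.re))
    have b : 1 + ((l₁ : ℝ) + l₂) * (98 * lam * L) +
        (l₁ : ℝ) * l₂ * (49 * (14 * lam * L) ^ 2 + 49 * lam) ≤ 10000 := by
      calc _ ≤ 1 + ((L : ℝ) + L) * (98 * lam * L) +
            (L : ℝ) * L * (49 * (14 * lam * L) ^ 2 + 49 * lam) := by gcongr
        _ = 1 + 245 * (lam * L ^ 2) + 9604 * (lam * L ^ 2) ^ 2 := by ring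
        _ ≤ 1 + 245 * 1 + 9604 * 1 ^ 2 := by gcongr
        _ ≤ _ := by norm_num
    calc _ = 9 * L ^ 2 * (wt (cl L β.im) * wt (cl L β.re)) * _ := by ring
      _ ≤ 9 * L ^ 2 * (wt (cl L β.im) * wt (cl L β.re)) * 10000 :=
        mul_le_mul_of_nonneg_left b (by positivity)
      _ = _ := by ring

theorem dv {L : ℕ} (hL : 1 ≤ L) (x i : ℤ) : x / L = i ↔ i * L ≤ x ∧ x < i * L + L := by
  have p : (0 : ℤ) < L := by exact_mod_cast hL
  rw [le_antisymm_iff, ← Int.lt_add_one_iff, Int.ediv_lt_iff_lt_mul p, Int.le_ediv_iff_mul_le p,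
    add_mul, one_mul, and_comm]

theorem tiles (hA : AbelSt) (D : Dat K φ ψ lam) {L M : ℕ} (hL : 1 ≤ L) (hl : lam * L ^ 2 ≤ 1)
    (hl' : 1 ≤ 4 * (lam * L ^ 2)) (hM : ∀ z ∈ K, ‖ψ z‖ ≤ M) (ζ : ℂ) (a b : ℤ) (L₁ L₂ : ℕ)
    (hK : ∀ n ∈ rct a b L₁ L₂, ζ + n ∈ K) :
    ‖∑ n ∈ rct a b L₁ L₂, e (φ (ζ + n)).im‖ ≤
      90000 * L ^ 2 * (1200 ^ 2 * ((2 * M + 1) * (1 + 2 * Real.log (L + 1))) ^ 2) := by
  have mem := hA.1
  have p := D.po
  have L1 : (1 : ℝ) ≤ L := by exact_mod_cast hL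
  obtain ⟨g, hg⟩ : ∃ g : GI → ℤ × ℤ, ∀ n, g n = ((n.re - a) / L, (n.im - b) / L) :=
    ⟨_, fun _ => rfl⟩
  obtain ⟨c, hc⟩ : ∃ c : ℤ × ℤ → GI, ∀ k, c k = ⟨a + k.1 * L, b + k.2 * L⟩ := ⟨_, fun _ => rfl⟩
  have gk : ∀ n k, g n = k ↔ (k.1 * L ≤ n.re - a ∧ n.re - a < k.1 * L + L) ∧
      k.2 * L ≤ n.im - b ∧ n.im - b < k.2 * L + L := fun n k => by
    rw [hg, Prod.ext_iff, dv hL, dv hL]
  have cm : ∀ k ∈ (rct a b L₁ L₂).image g, c k ∈ rct a b L₁ L₂ := fun k hk => by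
    obtain ⟨n, hn, h⟩ := mem_image.1 hk
    have a1 : 0 ≤ k.1 * L := by
      rw [← h, hg]
      exact mul_nonneg (Int.ediv_nonneg (sub_nonneg.2 ((mem _ _ _ _ _).1 hn).1) (by positivity))
        (by positivity)
    have a2 : 0 ≤ k.2 * L := by
      rw [← h, hg]
      exact mul_nonneg (Int.ediv_nonneg (sub_nonneg.2 ((mem _ _ _ _ _).1 hn).2.2.1) (by positivity))
        (by positivity)
    rw [gk] at h
    rw [mem] at hn
    rw [hc, mem]
    dsimp only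
    omega
  obtain ⟨F, hF⟩ : ∃ F : ℤ × ℤ → (ℤ × ℤ) × (ℤ × ℤ) × ℤ × ℤ, ∀ k, F k =
      ((k.1 % 1200, k.2 % 1200), cl L (ψ (ζ + c k)).im, cl L (ψ (ζ + c k)).re) := ⟨_, fun _ => rfl⟩
  have inj : Set.InjOn F ((rct a b L₁ L₂).image g : Finset _) := fun k hk k' hk' h => by
    rw [hF, hF] at h
    simp only [Prod.mk.injEq] at h
    obtain ⟨⟨h1, h2⟩, h3, h4⟩ := h
    have b1 := cl_eq hL h3
    have b2 := cl_eq hL h4
    have b3 := D.lo _ (hK _ (cm k hk)) _ (hK _ (cm k' hk'))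
    have b4 := Complex.norm_le_abs_re_add_abs_im (ψ (ζ + c k) - ψ (ζ + c k'))
    rw [Complex.sub_re, Complex.sub_im] at b4
    have b5 : ‖ζ + c k - (ζ + c k')‖ < 1200 * L := by
      have := norm_nonneg (ζ + c k - (ζ + c k'))
      have b6 : L * (lam * ‖ζ + c k - (ζ + c k')‖) < 300 := by nlinarith
      by_contra hh
      have := mul_le_mul_of_nonneg_left (not_lt.1 hh) (by positivity : 0 ≤ L * lam)
      nlinarith
    rw [add_sub_add_left_eq_sub] at b5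
    have b6 := (Complex.abs_re_le_norm _).trans_lt b5
    have b7 := (Complex.abs_im_le_norm _).trans_lt b5
    rw [Complex.sub_re, ← GaussianInt.intCast_re, ← GaussianInt.intCast_re, hc, hc] at b6
    rw [Complex.sub_im, ← GaussianInt.intCast_im, ← GaussianInt.intCast_im, hc, hc] at b7
    have q : ∀ u x y : ℤ, |((u + x * L : ℤ) : ℝ) - (u + y * L : ℤ)| < 1200 * L → |x - y| < 1200 :=
      fun u x y h => by
        rw [show ((u + x * L : ℤ) : ℝ) - (u + y * L : ℤ) = ((x - y : ℤ) : ℝ) * L by push_cast; ring,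
          abs_mul, abs_of_pos (by positivity : (0 : ℝ) < L)] at h
        exact_mod_cast lt_of_mul_lt_mul_right h (by positivity)
    have b8 := abs_lt.1 (q _ _ _ b6)
    have b9 := abs_lt.1 (q _ _ _ b7)
    exact Prod.ext (by omega) (by omega)
  rw [← sum_fiberwise_of_maps_to fun n hn => mem_image_of_mem g hn]
  refine (norm_sum_le _ _).trans ((sum_le_sum (g := fun k => 90000 * (L : ℝ) ^ 2 *
    (wt (F k).2.1 * wt (F k).2.2)) fun k hk => ?_).trans ?_)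
  · have m := (mem _ _ _ _ _).1 (cm k hk)
    have s : {n ∈ rct a b L₁ L₂ | g n = k} = rct (c k).re (c k).im
        (min L (a + L₁ - (c k).re).toNat) (min L (b + L₂ - (c k).im).toNat) := by
      ext n
      rw [mem_filter, gk, mem, mem]
      rw [hc] at m ⊢
      dsimp only at m ⊢
      omega
    rw [s, hF]
    exact tile hA D hL hl (min_le_left _ _) (min_le_left _ _) ζ _ (hK _ (cm k hk))
      fun n hn => hK n (mem_filter.1 (s ▸ hn :)).1
  · rw [← mul_sum, ← sum_image (f := fun x : (ℤ × ℤ) × (ℤ × ℤ) × ℤ × ℤ => wt x.2.1 * wt x.2.2) inj]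
    obtain ⟨R, hR, cR⟩ : ∃ R : Finset ℤ, (∀ x, x ∈ R ↔ 0 ≤ x ∧ x < 1200) ∧ #R = 1200 :=
      ⟨Ico 0 1200, fun _ => mem_Ico, by simp⟩
    refine mul_le_mul_of_nonneg_left ((sum_le_sum_of_subset_of_nonneg
      (t := (R ×ˢ R) ×ˢ (Icc (-M : ℤ) M ×ˢ Icc (-L : ℤ) L) ×ˢ
        Icc (-M : ℤ) M ×ˢ Icc (-L : ℤ) L) (fun x hx => ?_)
      fun x _ _ => mul_nonneg (wt0 _) (wt0 _)).trans ?_) (by positivity)
    · obtain ⟨k, hk, rfl⟩ := mem_image.1 hx
      have := hM _ (hK _ (cm k hk))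
      rw [hF]
      refine mem_product.2 ⟨?_, mem_product.2 ⟨cl_mem hL ((Complex.abs_im_le_norm _).trans this),
        cl_mem hL ((Complex.abs_re_le_norm _).trans this)⟩⟩
      simp only [mem_product, hR]
      omega
    · rw [sum_product]
      refine (sum_le_card_nsmul _ _ (((2 * M + 1) * (1 + 2 * Real.log (L + 1))) ^ 2)
        fun x _ => ?_).trans_eq (by rw [nsmul_eq_mul, card_product, cR]; norm_num)
      dsimp only
      rw [sum_product' _ _ fun x y => wt x * wt y, ← sum_mul_sum, ← sq]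
      exact pow_le_pow_left₀ (sum_nonneg fun _ _ => wt0 _) (wt_sum L M) 2

/-- the region -/
def KK (P : ℝ) : Set ℂ := {z | P ≤ z.re} ∩ Metric.closedBall 0 (4 * P)

theorem KK_b {P : ℝ} {h z : ℂ} (hh : ‖h‖ ≤ P / 10) (hz : z ∈ KK P) :
    P ≤ ‖z‖ ∧ ‖z‖ ≤ 4 * P ∧ 9 / 10 * P ≤ ‖z + h‖ ∧ ‖z + h‖ ≤ 41 / 10 * P := by
  have a : P ≤ ‖z‖ := le_trans hz.1 (Complex.re_le_norm z)
  have b : ‖z‖ ≤ 4 * P := mem_closedBall_zero_iff.1 hz.2
  have c := norm_add_le z h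
  have d := norm_sub_le (z + h) h
  rw [add_sub_cancel_right] at d
  exact ⟨a, b, by linarith, by linarith⟩

theorem dat {P s : ℝ} {h : ℂ} (hP : 1 ≤ P) (hs : s ≠ 0) (h0 : h ≠ 0) (hh : ‖h‖ ≤ P / 10) :
    Dat (KK P) (fun z => (2 * s / Real.pi : ℝ) * Complex.log (1 + h / z))
      (fun z => -((2 * s / Real.pi : ℝ) * h / (z * (z + h)))) (|s| * ‖h‖ / P ^ 3) ∧
    ∀ z ∈ KK P, ‖-((2 * s / Real.pi : ℝ) * h / (z * (z + h)))‖ ≤ |s| * ‖h‖ / P ^ 3 * P := by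
  have p3 := Real.pi_gt_three
  have p4 := Real.pi_lt_four
  have P0 : 0 < P := by linarith
  have T0 : 0 < |s| * ‖h‖ := by positivity
  have nz : ∀ z ∈ KK P, z ≠ 0 ∧ z + h ≠ 0 := fun z hz => by
    obtain ⟨a, -, b, -⟩ := KK_b hh hz
    exact ⟨norm_pos_iff.1 (by linarith), norm_pos_iff.1 (by linarith)⟩
  have nc : ‖((2 * s / Real.pi : ℝ) : ℂ) * h‖ = 2 / Real.pi * (|s| * ‖h‖) := by
    rw [norm_mul, Complex.norm_real, Real.norm_eq_abs, abs_div, abs_mul, abs_two,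
      abs_of_pos Real.pi_pos]
    ring
  have u1 : 2 / Real.pi ≤ 2 / 3 := by gcongr
  have u2 : 1 / 2 ≤ 2 / Real.pi := by
    rw [le_div_iff₀ Real.pi_pos]
    linarith
  have key : ∀ z ∈ KK P, ∀ z' ∈ KK P,
      ‖-((2 * s / Real.pi : ℝ) * h / (z * (z + h))) - -((2 * s / Real.pi : ℝ) * h / (z' * (z' + h)))‖
        = 2 / Real.pi * (|s| * ‖h‖) * ‖z - z'‖ * ‖z + z' + h‖ /
          (‖z‖ * ‖z + h‖ * (‖z'‖ * ‖z' + h‖)) := fun z hz z' hz' => by
    obtain ⟨a, b⟩ := nz z hz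
    obtain ⟨a', b'⟩ := nz z' hz'
    rw [← nc]
    simp only [← norm_mul, ← norm_div]
    congr 1
    field_simp
    ring
  refine ⟨⟨(convex_halfSpace_re_ge P).inter (convex_closedBall _ _), fun z hz => ?_,
    fun z hz z' hz' => ?_, fun z hz z' hz' => ?_, by positivity⟩, fun z hz => ?_⟩
  · obtain ⟨a, b⟩ := nz z hz
    have sl : 1 + h / z ∈ Complex.slitPlane := Complex.mem_slitPlane_of_norm_lt_one (by
      rw [norm_div, div_lt_one (norm_pos_iff.2 a)]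
      linarith [(KK_b hh hz).1])
    have := ((((hasDerivAt_const z h).fun_div (hasDerivAt_id' z) a).const_add 1).clog sl).const_mul
      ((2 * s / Real.pi : ℝ) : ℂ)
    refine this.congr_deriv ?_
    rw [show 1 + h / z = (z + h) / z by field_simp]
    field_simp
    ring
  · obtain ⟨a1, a2, a3, -⟩ := KK_b hh hz
    obtain ⟨b1, b2, b3, -⟩ := KK_b hh hz'
    have c : ‖z + z' + h‖ ≤ 81 / 10 * P := by linarith [norm_add₃_le (a := z) (b := z') (c := h)]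
    rw [key z hz z' hz']
    calc _ ≤ 2 / 3 * (|s| * ‖h‖) * ‖z - z'‖ * (81 / 10 * P) /
          (P * (9 / 10 * P) * (P * (9 / 10 * P))) := by gcongr
      _ = 20 / 3 * (|s| * ‖h‖ / P ^ 3 * ‖z - z'‖) := by field_simp; ring
      _ ≤ 7 * (|s| * ‖h‖ / P ^ 3 * ‖z - z'‖) := by gcongr; norm_num
      _ = _ := by ring
  · obtain ⟨a1, a2, a3, a4⟩ := KK_b hh hz
    obtain ⟨b1, b2, b3, b4⟩ := KK_b hh hz'
    have c : 19 / 10 * P ≤ ‖z + z' + h‖ := by
      have c1 := Complex.re_le_norm (z + z' + h)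
      have c2 := (abs_le.1 (Complex.abs_re_le_norm h)).1
      have c3 : P ≤ z.re := hz.1
      have c4 : P ≤ z'.re := hz'.1
      simp only [Complex.add_re] at c1
      linarith
    have z1 : 0 < ‖z‖ := by linarith
    have z2 : 0 < ‖z'‖ := by linarith
    have z3 : 0 < ‖z + h‖ := by linarith
    have z4 : 0 < ‖z' + h‖ := by linarith
    rw [key z hz z' hz']
    calc _ = 1 * (|s| * ‖h‖ / P ^ 3 * ‖z - z'‖) := by ring
      _ ≤ 7125 / 6724 * (|s| * ‖h‖ / P ^ 3 * ‖z - z'‖) := by gcongr; norm_num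
      _ = 300 * (1 / 2 * (|s| * ‖h‖) * ‖z - z'‖ * (19 / 10 * P) /
          (4 * P * (41 / 10 * P) * (4 * P * (41 / 10 * P)))) := by field_simp; ring
      _ ≤ _ := by gcongr
  · obtain ⟨a1, -, a3, -⟩ := KK_b hh hz
    rw [norm_neg, norm_div, nc, norm_mul]
    calc _ ≤ 2 / 3 * (|s| * ‖h‖) / (P * (9 / 10 * P)) := by gcongr
      _ = 20 / 27 * (|s| * ‖h‖ / P ^ 3 * P) := by field_simp; ring
      _ ≤ 1 * (|s| * ‖h‖ / P ^ 3 * P) := by gcongr; norm_num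
      _ = _ := one_mul _

theorem cnt (hA : AbelSt) {P : ℝ} (hP : 1 ≤ P) {ζ : ℂ} {a b : ℤ} {L₁ L₂ : ℕ}
    (hK : ∀ n ∈ rct a b L₁ L₂, ζ + n ∈ KK P) : (#(rct a b L₁ L₂) : ℝ) ≤ 81 * P ^ 2 := by
  obtain ⟨mem, cd, -⟩ := hA
  rw [cd]
  rcases Nat.eq_zero_or_pos L₁ with rfl | h1
  · simp only [zero_mul, Nat.cast_zero]
    positivity
  rcases Nat.eq_zero_or_pos L₂ with rfl | h2
  · simp only [mul_zero, Nat.cast_zero]
    positivity
  have a1 := mem_closedBall_zero_iff.1 (hK ⟨a, b⟩ (by rw [mem]; dsimp only; omega)).2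
  have a2 := mem_closedBall_zero_iff.1
    (hK ⟨a + L₁ - 1, b + L₂ - 1⟩ (by rw [mem]; dsimp only; omega)).2
  have b1 := abs_le.1 ((Complex.abs_re_le_norm _).trans a1)
  have b2 := abs_le.1 ((Complex.abs_re_le_norm _).trans a2)
  have b3 := abs_le.1 ((Complex.abs_im_le_norm _).trans a1)
  have b4 := abs_le.1 ((Complex.abs_im_le_norm _).trans a2)
  simp only [Complex.add_re, Complex.add_im, GaussianInt.re_toComplex, GaussianInt.im_toComplex]
    at b1 b2 b3 b4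
  push_cast at b2 b4 ⊢
  calc _ ≤ 9 * P * (9 * P) :=
      mul_le_mul (by linarith [b1.1, b2.2]) (by linarith [b3.1, b4.2]) (by positivity)
        (by positivity)
    _ = _ := by ring

end SD

open SD Cub in
theorem sd (h : AbelSt) : SDSt := by
  refine ⟨10 ^ 14, by positivity, fun t ζ u a b L₁ L₂ P hP ht hu hh hK => ?_⟩
  have P0 : 0 < P := by linarith
  have u0 : (u : ℂ) ≠ 0 := fun c => hu (GaussianInt.toComplex_eq_zero.1 c)
  have t0 : (t : ℝ) ≠ 0 := by exact_mod_cast ht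
  have hK' : ∀ n ∈ rct a b L₁ L₂, ζ + n ∈ KK P := fun n hn =>
    ⟨(hK n hn).1, mem_closedBall_zero_iff.2 (hK n hn).2⟩
  obtain ⟨D, hM⟩ := dat hP t0 u0 hh
  have lg := Real.log_nonneg hP
  obtain ⟨lam, hl⟩ : ∃ lam, lam = |(t : ℝ)| * ‖(u : ℂ)‖ / P ^ 3 := ⟨_, rfl⟩
  rw [show |(t : ℝ)| * ‖(u : ℂ)‖ / P = lam * P ^ 2 by rw [hl]; field_simp,
    show P ^ 3 / (|(t : ℝ)| * ‖(u : ℂ)‖) = 1 / lam by rw [hl, one_div_div]]
  rw [← hl] at D hM
  have p := D.po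
  have q : 0 < 1 / lam := by positivity
  by_cases c : 1 ≤ lam ∨ lam * P ^ 2 ≤ 1
  · refine (norm_sum_le _ _).trans ?_
    simp only [Complex.norm_exp_I_mul_ofReal, sum_const, nsmul_eq_mul, mul_one]
    have : P ^ 2 ≤ lam * P ^ 2 + 1 / lam := by
      rcases c with c | c
      · nlinarith [sq_nonneg P]
      · have : P ^ 2 ≤ 1 / lam := by
          rw [le_div_iff₀ p]
          linarith
        linarith [mul_pos p (pow_pos P0 2)]
    calc _ ≤ 81 * 1 ^ 2 * P ^ 2 := by simpa using cnt h hP hK'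
      _ ≤ _ := by gcongr <;> linarith
  push Not at c
  obtain ⟨c1, c2⟩ := c
  obtain ⟨L, hL⟩ : ∃ L, L = Nat.sqrt ⌊1 / lam⌋₊ := ⟨_, rfl⟩
  have f1 : 1 ≤ ⌊1 / lam⌋₊ := Nat.le_floor (by
    rw [le_div_iff₀ p]
    simpa using c1.le)
  have L1 : 1 ≤ L := hL ▸ Nat.sqrt_pos.2 f1
  have L1' : (1 : ℝ) ≤ L := by exact_mod_cast L1
  have L2 : (L : ℝ) ^ 2 ≤ 1 / lam :=
    le_trans (by exact_mod_cast hL ▸ Nat.sqrt_le' _) (Nat.floor_le q.le)
  have L3 : 1 / lam < ((L : ℝ) + 1) ^ 2 :=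
    (Nat.lt_floor_add_one _).trans_le (by exact_mod_cast hL ▸ Nat.lt_succ_sqrt' _)
  have L4 : lam * L ^ 2 ≤ 1 := by rwa [le_div_iff₀' p] at L2
  have L5 : 1 ≤ 4 * (lam * L ^ 2) := by
    rw [div_lt_iff₀' p] at L3
    nlinarith [mul_le_mul_of_nonneg_left (show ((L : ℝ) + 1) ^ 2 ≤ 4 * L ^ 2 by nlinarith) p.le]
  have L6 : (L : ℝ) ≤ P := by
    refine le_of_pow_le_pow_left₀ two_ne_zero P0.le (le_of_mul_le_mul_left ?_ p)
    linarith
  have L7 : 1 + 2 * Real.log (L + 1) ≤ 3 * (1 + Real.log P) := by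
    have := Real.log_le_log (by positivity) (show (L : ℝ) + 1 ≤ 2 * P by linarith)
    rw [Real.log_mul two_ne_zero P0.ne'] at this
    linarith [Real.log_two_lt_d9]
  have M1 : (⌈lam * P⌉₊ : ℝ) ≤ lam * P + 1 := (Nat.ceil_lt_add_one (by positivity)).le
  have := tiles h D (M := ⌈lam * P⌉₊) L1 L4 L5 (fun z hz => (hM z hz).trans (Nat.le_ceil _))
    ζ a b L₁ L₂ hK'
  refine le_of_eq_of_le (congrArg _ (sum_congr rfl fun n _ => ?_)) (this.trans ?_)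
  · rw [e_eq, Complex.im_ofReal_mul]
    congr 3
    field_simp
    ring
  · have l0 : 0 ≤ Real.log (L + 1) := Real.log_nonneg (by linarith)
    have m : (2 * (⌈lam * P⌉₊ : ℝ) + 1) ^ 2 ≤ 18 * (lam * (lam * P ^ 2) + 1) := by
      have : (2 * (⌈lam * P⌉₊ : ℝ) + 1) ^ 2 ≤ (3 * (lam * P + 1)) ^ 2 :=
        pow_le_pow_left₀ (by positivity) (by linarith [mul_pos p P0]) 2
      nlinarith [sq_nonneg (lam * P - 1)]
    calc _ = 90000 * 1200 ^ 2 * ((L : ℝ) ^ 2 * (2 * (⌈lam * P⌉₊ : ℝ) + 1) ^ 2) *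
          (1 + 2 * Real.log (L + 1)) ^ 2 := by ring
      _ ≤ 90000 * 1200 ^ 2 * (1 / lam * (18 * (lam * (lam * P ^ 2) + 1))) *
          (3 * (1 + Real.log P)) ^ 2 := by gcongr
      _ = 90000 * 1200 ^ 2 * 162 * (1 + Real.log P) ^ 2 * (lam * P ^ 2 + 1 / lam) := by
        field_simp
        ring
      _ ≤ _ := by gcongr; norm_num

end Pool.Agent.Lib.MP_4b1228_nt.GS
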