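import Pool.Agent.Lib.MP_4b1228_nt.GS.St3
import Pool.Agent.Lib.MP_4b1228_nt.GS.Sign

/-!
The truncated sum of Moebius and the sign of the sieve weights, second version.
-/

namespace Pool.Agent.Lib.MP_4b1228_nt.GS

open Multiset Sign
open scoped Classical

namespace Sign2

theorem om_le (g N : ℕ) : om1 g N ≤ 1 / 2 := by
  rw [om1]
  split_ifs with h1 h2
  · exact le_rfl
  · have h3 : (N : ℝ) < g := by exact_mod_cast not_le.1 h1
    have h4 : (0 : ℝ) ≤ N := Nat.cast_nonneg N
    rw [div_le_iff₀ (by linarith)]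
    linarith
  · norm_num

theorem vis_ge {g u b : ℕ} (hg : 0 < g) (h : vis2 g u b) : 5 * g ≤ 6 * u := by
  obtain ⟨j, hj, h0, h1⟩ := h
  have j2 : (2 : ℝ) ≤ j := by exact_mod_cast (Finset.mem_Icc.1 hj).1
  have g0 : (0 : ℝ) < g := by exact_mod_cast hg
  have a1 : om1 g (j * b) / (j : ℝ) ≤ 1 / 4 := by
    rw [div_le_iff₀ (by linarith)]
    linarith [om_le g (j * b)]
  have a2 : 5 / 4 ≤ 3 * (u : ℝ) / (2 * g) := by linarith
  rw [le_div_iff₀ (by linarith)] at a2
  have : (5 : ℝ) * g ≤ 6 * u := by linarith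
  exact_mod_cast this

theorem vis_mono {g u u' b : ℕ} (hu : u ≤ u') (h : vis2 g u b) : vis2 g u' b := by
  obtain ⟨j, hj, h0, h1⟩ := h
  refine ⟨j, hj, h0, h1.trans ?_⟩
  have : (u : ℝ) ≤ u' := by exact_mod_cast hu
  gcongr

theorem yY_nonneg (p : Pq) (M : Multiset ℕ) : 0 ≤ p.yY M := by
  rw [Pq.yY]
  split_ifs <;> positivity

theorem sY_nonneg (p : Pq) (M : Multiset ℕ) : 0 ≤ (M.powerset.map p.yY).sum :=
  sum_nonneg fun x hx => by
    obtain ⟨S, -, rfl⟩ := mem_map.1 hx
    exact yY_nonneg p S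

theorem T_eq (p : Pq) (M : Multiset ℕ) : p.sv.T M = (((M.powerset.map p.y0).sum +
    2 * (M.powerset.map p.yV).sum - (M.powerset.map p.yY).sum : ℤ) : ℝ) := by
  rw [← sum_map_mul_left, ← sum_map_add, ← sum_map_sub, Int.cast_multiset_sum, Multiset.map_map]
  rfl

theorem yy_le {p : Pq} (h : p.OK) (M : Multiset ℕ) : |p.yy M| ≤ 15 := by
  obtain ⟨h1, h2, h3, h4, h5, h6⟩ := h
  have h0 : |p.y0 M| ≤ 1 := by
    rw [Pq.y0]
    split_ifs <;> simp
  have e1 : 0 ≤ p.yV M ∧ p.yV M ≤ 2 := by
    rw [Pq.yV]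
    split_ifs with h
    · exact ⟨by positivity, by exact_mod_cast h ▸ countP_le_card _ M⟩
    · simp
  have e2 : p.yY M ≤ 10 := by
    have : p.nn M ≤ M.card := countP_le_card _ M
    rw [Pq.yY]
    by_cases c : 3 ≤ M.card ∧ p.τ ≤ M.sum ∧ M.sum + p.g ≤ p.J₂ ∧ ∀ b ∈ M, M.sum < p.g + b
    · have c5 : M.card ≤ 5 := by
        by_contra n
        have := card_nsmul_le_sum (s := M) (a := M.sum + 1 - p.g) fun c' hc => by
          have := c.2.2.2 c' hc; omega
        have := Nat.mul_le_mul_right (M.sum + 1 - p.g) (show 6 ≤ M.card by omega)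
        rw [smul_eq_mul] at *
        omega
      rw [if_pos c]
      split_ifs <;> omega
    · rw [if_neg c]
      norm_num
  have e3 := yY_nonneg p M
  rw [abs_le] at h0
  rw [Pq.yy, abs_le]
  omega

theorem yy_zero {p : Pq} (h : p.OK) {M : Multiset ℕ} (hM : p.J₁ ≤ M.sum) : p.yy M = 0 := by
  obtain ⟨h1, h2, h3, h4, h5, h6⟩ := h
  have e1 : p.yV M = 0 := by
    rw [Pq.yV]
    split_ifs
    · rw [countP_eq_zero.2, Nat.cast_zero]
      intro b hb r
      have := le_sum_of_mem hb
      have := vis_ge h1 r.2.2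
      omega
    · rfl
  have e2 : p.yY M = 0 := by
    rw [Pq.yY, if_neg]
    omega
  rw [Pq.yy, e1, e2, Pq.y0, if_neg (by omega)]
  rfl

theorem alt {M : Multiset ℕ} (h : M ≠ 0) : (M.powerset.map fun S => (-1 : ℤ) ^ S.card).sum = 0 := by
  obtain ⟨b, hb⟩ := exists_mem_of_ne_zero h
  obtain ⟨O', rfl⟩ := exists_cons_of_mem hb
  rw [ps_cons, ← sum_map_add]
  exact sumz fun S _ => by rw [card_cons, pow_succ]; ring

theorem ne {τ : ℕ} {M : Multiset ℕ} (h : ¬Exc τ M) {S : Multiset ℕ} (hS : S ≤ M)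
    (h1 : τ ≤ S.sum) : (M - S).sum < τ := by
  by_contra h2
  exact h ⟨S, M - S, (add_tsub_cancel_of_le hS).symm, h1, not_lt.1 h2⟩

theorem T0_even {p : Pq} (h : p.OK) {M : Multiset ℕ} (hJ : p.J₁ ≤ M.sum) (hE : ¬Exc p.τ M)
    (he : Even M.card) : (M.powerset.map p.y0).sum = 0 := by
  obtain ⟨h1, h2, h3, h4, h5, h6⟩ := h
  have e : (M.powerset.map fun S => p.y0 S + p.y0 (M - S)).sum =
      (M.powerset.map fun S => (-1 : ℤ) ^ S.card).sum := by
    refine congrArg _ (map_congr rfl fun S hS => ?_)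
    have hS' := mem_powerset.1 hS
    have s1 := sum_sub' hS'
    have s2 := ne hE hS'
    have s3 : (-1 : ℤ) ^ (M - S).card = (-1) ^ S.card := by
      rw [card_sub hS']
      rcases Nat.even_or_odd S.card with e | e
      · rw [e.neg_one_pow, ((Nat.even_sub (card_le_card hS')).2 (by simp [e, he])).neg_one_pow]
      · rw [e.neg_one_pow, (Nat.Even.sub_odd (card_le_card hS') he e).neg_one_pow]
    rw [Pq.y0, Pq.y0, s3]
    split_ifs <;> omega
  rw [sum_map_add, ← compl p.y0, alt fun e => by rw [e, sum_zero] at hJ; omega] at e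
  omega

theorem T0_odd {p : Pq} (h : p.OK) {P : ℕ} {O : Multiset ℕ} (hJ : p.J₁ ≤ (P ::ₘ O).sum)
    (hE : ¬Exc p.τ (P ::ₘ O)) (he : Odd (P ::ₘ O).card) : ((P ::ₘ O).powerset.map p.y0).sum =
      (O.powerset.map fun S => if S.sum < p.τ then (-1 : ℤ) ^ S.card else -(-1) ^ S.card).sum := by
  obtain ⟨h1, h2, h3, h4, h5, h6⟩ := h
  rw [ps_cons, compl fun S => p.y0 (P ::ₘ S), ← sum_map_add]
  refine congrArg _ (map_congr rfl fun S hS => ?_)
  have hS' := mem_powerset.1 hS
  have s1 := sum_sub' hS'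
  have s2 := ne hE (hS'.trans (le_cons_self O P))
  have s4 := sum_sub' (hS'.trans (le_cons_self O P))
  have he' : Even O.card := by
    rw [card_cons] at he
    exact Nat.not_odd_iff_even.1 fun e => (Nat.odd_add_one.1 he) e
  have s3 : (-1 : ℤ) ^ (O - S).card = (-1) ^ S.card := by
    rw [card_sub hS']
    rcases Nat.even_or_odd S.card with e | e
    · rw [e.neg_one_pow, ((Nat.even_sub (card_le_card hS')).2 (by simp [e, he'])).neg_one_pow]
    · rw [e.neg_one_pow, (Nat.Even.sub_odd (card_le_card hS') he' e).neg_one_pow]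
  rw [sum_cons] at hJ s4
  rw [Pq.y0, Pq.y0, card_cons, pow_succ, s3, sum_cons]
  split_ifs <;> omega

/-- The case without positive correction. -/
theorem T0_le {p : Pq} (h : p.OK) {m : ℕ} {R : Multiset ℕ} (hm : ∀ x ∈ R, m ≤ x) (hR : R ≠ 0)
    (hJ : p.J₁ ≤ m + R.sum) (hJ' : m + R.sum ≤ p.J₂) (hG : ¬Good p.g (m ::ₘ R))
    (h3G : ¬Good3 p.g (m ::ₘ R)) (hE : ¬Exc p.τ (m ::ₘ R)) (he : Even R.card) :
    ((m ::ₘ R).powerset.map p.y0).sum ≤ ((m ::ₘ R).powerset.map p.yY).sum := by
  obtain ⟨h1, h2, h3, h4, h5, h6⟩ := h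
  have hτ : m < p.τ := by
    by_contra n
    obtain ⟨x, hx⟩ := exists_mem_of_ne_zero hR
    have := hm x hx
    have := le_sum_of_mem hx
    exact hE ⟨{m}, R, (singleton_add m R).symm, by rw [sum_singleton]; omega, by omega⟩
  have two : ∀ S ≤ R, Even S.card → p.τ ≤ S.sum + m → 2 ≤ S.card ∧ 2 * m ≤ S.sum := by
    rintro S hS ⟨k, c3⟩ c2
    have c5 := card_nsmul_le_sum (s := S) (a := m) fun b hb => hm b (mem_of_le hS hb)
    have c6 : 2 ≤ S.card := by
      by_contra n
      obtain rfl : S = 0 := card_eq_zero.1 (by omega)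
      rw [sum_zero] at c2
      omega
    have := Nat.mul_le_mul_right m c6
    rw [smul_eq_mul] at c5
    omega
  let E : Multiset ℕ → ℤ := fun S =>
    if Even S.card ∧ p.τ ≤ S.sum + m ∧ S.sum < p.g ∧ p.g ≤ (R - S).sum then 1 else 0
  have e1 : (R.powerset.map fun S => p.y0 S + p.y0 (m ::ₘ S)).sum ≤
      (R.powerset.map fun S => E S + E (R - S)).sum := by
    refine sum_map_le_sum_map _ _ fun S hS => ?_
    have hS' := mem_powerset.1 hS
    have s1 := sum_sub' hS'
    have s2 := ng hG hS'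
    have s5 : R - (R - S) = S := tsub_tsub_cancel_of_le hS'
    rcases Nat.even_or_odd S.card with e | e
    · have e' : Even (R - S).card := by
        rw [card_sub hS']
        exact (Nat.even_sub (card_le_card hS')).2 (by simp [e, he])
      have s6 : p.τ ≤ S.sum + m → S.sum < p.g → p.g ≤ (R - S).sum := fun a b => by
        by_contra n
        have := two S hS' e a
        exact h3G ⟨by rw [sum_cons]; omega, S, R - S, {m},
          by rw [add_tsub_cancel_of_le hS', add_comm, singleton_add], by omega, by omega,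
          by rw [sum_singleton]; omega⟩
      simp only [E, Pq.y0, e, e', s5, card_cons, sum_cons, pow_succ, e.neg_one_pow, true_and]
      split_ifs <;> omega
    · simp only [E, Pq.y0, card_cons, sum_cons, pow_succ, e.neg_one_pow]
      split_ifs <;> omega
  rw [sum_map_add, sum_map_add, ← compl E, ← ps_cons] at e1
  have e2 : (R.powerset.map fun S => 2 * E S).sum ≤
      (R.powerset.map fun S => p.yY (m ::ₘ S)).sum := by
    refine sum_map_le_sum_map _ _ fun S hS => ?_
    simp only [E]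
    split_ifs with c
    · obtain ⟨c1, c2, c3, c4⟩ := c
      have hS' := mem_powerset.1 hS
      have s1 := sum_sub' hS'
      have := two S hS' c1 c2
      rw [Pq.yY, if_pos, if_pos (by rw [card_cons]; exact c1.add_one)]
      · omega
      · rw [sum_cons, card_cons]
        refine ⟨by omega, by omega, by omega, fun b hb => ?_⟩
        rcases mem_cons.1 hb with rfl | hb
        · omega
        · have := hm b (mem_of_le hS' hb)
          omega
    · simpa using yY_nonneg p _
  have e3 := sY_nonneg p R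
  rw [sum_map_mul_left] at e2
  rw [ps_cons p.yY]
  omega

/-- The case with a positive correction. -/
theorem T_row {p : Pq} (h : p.OK) {P b : ℕ} {O : Multiset ℕ} (hb : b ∈ O) (r : p.row P b)
    (hJ : p.J₁ ≤ P + O.sum) (hJ' : P + O.sum ≤ p.J₂) (hG : ¬Good p.g (P ::ₘ O))
    (hE : ¬Exc p.τ (P ::ₘ O)) : ((P ::ₘ O).powerset.map p.y0).sum +
      2 * ((P ::ₘ O).powerset.map p.yV).sum - ((P ::ₘ O).powerset.map p.yY).sum ≤ 0 := by
  have hJ0 : p.J₁ ≤ (P ::ₘ O).sum := by rwa [sum_cons]
  have t1 := T0_even h hJ0 hE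
  have t2 := T0_odd h hJ0 hE
  obtain ⟨h1, h2, h3, h4, h5, h6⟩ := h
  have hu : ∀ {c}, p.row P c → 5 * p.g ≤ 6 * (p.J₁ - (P + c)) := fun r => vis_ge h1 r.2.2
  have r1 := r.1
  have r2 := r.2.1
  have r3 := hu r
  have c2 : 2 ≤ O.card := by
    by_contra c
    obtain ⟨O', rfl⟩ := exists_cons_of_mem hb
    obtain rfl : O' = 0 := card_eq_zero.1 (by rw [card_cons] at c; omega)
    rw [sum_cons, sum_zero] at hJ
    omega
  have H : ∀ c ∈ O, O.sum < p.g + c := fun c hc => by
    obtain ⟨O', rfl⟩ := exists_cons_of_mem hc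
    by_contra n
    rw [sum_cons] at n
    exact hG ⟨{P}, O', {c}, by rw [singleton_add, add_comm, singleton_add, cons_swap],
      singleton_ne_zero c, by simpa using r1, by omega⟩
  have H1 : ∀ S ≤ O, S ≠ O → S.sum < p.g := fun S hS n => by
    obtain ⟨c, hc⟩ := lt_iff_cons_le.1 (lt_of_le_of_ne hS n)
    have := H c (mem_of_le hc (mem_cons_self _ _))
    have := sum_sub' hc
    rw [sum_cons] at this
    omega
  have H2 : ∀ c ∈ O, c < p.g := fun c hc => by
    simpa using H1 {c} (singleton_le.2 hc) fun e => by simp [← e] at c2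
  have e0 : Even O.card → ((P ::ₘ O).powerset.map p.y0).sum = -2 := fun e => by
    have a2 : (O.powerset.map fun S => (-1 : ℤ) ^ S.card -
        if S.sum < p.τ then (-1 : ℤ) ^ S.card else -(-1) ^ S.card).sum = _ :=
      sumT fun S hS n => by
        have := H1 S hS n
        rw [if_pos (by omega), sub_self]
    rw [sum_map_sub, alt fun e => by simp [e] at c2, if_neg (by omega), e.neg_one_pow] at a2
    rw [t2 (by rw [card_cons]; exact e.add_one)]
    omega
  have e0' : ((P ::ₘ O).powerset.map p.y0).sum ≤ 0 := by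
    rcases Nat.even_or_odd O.card with e | e
    · rw [e0 e]
      norm_num
    · rw [t1 (by rw [card_cons]; exact e.add_one)]
  have e1 : ((P ::ₘ O).powerset.map p.yV).sum = (O.countP (p.row P) : ℕ) := by
    rw [ps_cons, sumz, sum1, zero_add, cnt]
    · refine congrArg _ (map_congr rfl fun c hc => ?_)
      have := H2 c hc
      have n : ¬ p.row c P := fun n => by have := n.1; omega
      rw [Pq.yV, if_pos (by simp), countP_cons, ← cons_zero c, countP_cons, countP_zero, sum_cons,
        sum_cons, sum_zero, add_zero, Nat.add_sub_cancel, Nat.add_sub_cancel_left, if_neg n]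
      split_ifs <;> simp
    · exact fun S _ n => if_neg (by rw [card_cons]; omega)
    · intro S hS
      rw [Pq.yV]
      split_ifs with c
      · rw [countP_eq_zero.2, Nat.cast_zero]
        intro x hx n
        obtain ⟨x1, x2, rfl⟩ := card_eq_two.1 c
        have := H2 x1 (mem_of_le hS (by simp))
        have := H2 x2 (mem_of_le hS (by simp))
        have := n.1
        simp only [insert_eq_cons, mem_cons, mem_singleton, sum_cons, sum_singleton] at hx this
        omega
      · rfl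
  have e2 : p.yY O ≤ ((P ::ₘ O).powerset.map p.yY).sum :=
    single_le_sum (fun x hx => by
      obtain ⟨S, -, rfl⟩ := mem_map.1 hx
      exact yY_nonneg p S) _ (mem_map_of_mem _ (mem_powerset.2 (le_cons_self _ _)))
  have e3 : ((O.countP (p.row P) : ℕ) : ℤ) ≤ (p.nn O : ℕ) := by
    rw [Pq.nn, cnt, cnt]
    refine sum_map_le_sum_map _ _ fun c _ => ?_
    by_cases r : p.row P c
    · rw [if_pos r, if_pos (vis_mono (by omega) r.2.2)]
    · rw [if_neg r]
      split_ifs <;> simp
  rw [e1]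
  rcases (show O.card = 2 ∨ 3 ≤ O.card by omega) with c | c
  · have e4 : countP (p.row P) O ≤ 1 := by
      obtain ⟨x1, x2, rfl⟩ := card_eq_two.1 c
      rw [insert_eq_cons, ← cons_zero x2, countP_cons, countP_cons, countP_zero]
      rw [insert_eq_cons, sum_cons, sum_singleton] at hJ hJ'
      split_ifs with a a'
      · have := hu a
        have := hu a'
        omega
      all_goals omega
    have := e0 (by rw [c]; exact even_two)
    have := sY_nonneg p (P ::ₘ O)
    omega
  · rw [Pq.yY, if_pos ⟨c, by omega, by omega, H⟩] at e2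
    split_ifs at e2 <;> omega

theorem pair {p : Pq} {d : Multiset ℕ} (n : p.yV d ≠ 0) : ∃ P b, d = {P, b} ∧ p.row P b := by
  have c : d.card = 2 := by_contra fun c => n (if_neg c)
  rw [Pq.yV, if_pos c, Nat.cast_ne_zero] at n
  obtain ⟨b, hb, r⟩ := countP_pos.1 (Nat.pos_of_ne_zero n)
  obtain ⟨d', rfl⟩ := exists_cons_of_mem hb
  obtain ⟨P, rfl⟩ := card_eq_one.1 (show d'.card = 1 by simpa using c)
  rw [sum_cons, sum_singleton, Nat.add_sub_cancel_left] at r
  exact ⟨P, b, by rw [insert_eq_cons, ← cons_zero P, cons_swap, cons_zero], r⟩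

theorem pos_card {A : Multiset ℕ} (h : 0 < A.sum) : 0 < A.card :=
  card_pos.2 fun e => by simp [e] at h

theorem card2 {g : ℕ} (hg : 0 < g) {M : Multiset ℕ} (h : Good2 g M) : 2 ≤ M.card := by
  rcases h with ⟨A, B, C, rfl, -, a, b⟩ | ⟨s, A, B, C, rfl, a, b, c⟩ | ⟨-, A, B, C, rfl, -, a, b⟩
  · have := pos_card (A := A) (by omega)
    have := pos_card (A := B) (by omega)
    rw [card_add, card_add]
    omega
  · rw [sum_add, sum_add] at s
    rw [card_add, card_add]
    have a1 : 0 < A.sum → 0 < A.card := pos_card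
    have a2 : 0 < B.sum → 0 < B.card := pos_card
    have a3 : 0 < C.sum → 0 < C.card := pos_card
    omega
  · have := pos_card (A := A) (by omega)
    have := pos_card (A := B) (by omega)
    rw [card_add, card_add]
    omega

theorem main {p : Pq} (h : p.OK) {M : Multiset ℕ} (hJ : p.J₁ ≤ M.sum) (hJ' : M.sum ≤ p.J₂)
    (c2 : 2 ≤ M.card) (hB : ¬(Good2 p.g M ∨ Exc p.τ M)) : (M.powerset.map p.y0).sum +
      2 * (M.powerset.map p.yV).sum - (M.powerset.map p.yY).sum ≤ 0 := by
  have hG : ¬Good p.g M := fun a => hB (Or.inl (Or.inl a))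
  have h3 : ¬Good3 p.g M := fun a => hB (Or.inl (Or.inr (Or.inl a)))
  have hE : ¬Exc p.τ M := fun a => hB (Or.inr a)
  by_cases hV : ∀ d ≤ M, p.yV d = 0
  · rw [sumz hV]
    rcases Nat.even_or_odd M.card with e | e
    · have := T0_even h hJ hE e
      have := sY_nonneg p M
      omega
    · obtain ⟨m, hm, hm'⟩ := M.toFinset.exists_min_image id
        (toFinset_nonempty.2 fun e => by simp [e] at c2)
      obtain ⟨R, rfl⟩ := exists_cons_of_mem (mem_toFinset.1 hm)
      have hR : ∀ x ∈ R, m ≤ x := fun x hx => hm' x (mem_toFinset.2 (mem_cons_of_mem hx))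
      rw [sum_cons] at hJ hJ'
      rw [card_cons] at e c2
      have := T0_le h hR (fun e => by simp [e] at c2) hJ hJ' hG h3 hE
        (Nat.not_odd_iff_even.1 fun a => (Nat.odd_add_one.1 e) a)
      omega
  · push Not at hV
    obtain ⟨d, hd, n⟩ := hV
    obtain ⟨P, b, rfl, r⟩ := pair n
    obtain ⟨O, rfl⟩ := exists_cons_of_mem (mem_of_le hd (by simp) : P ∈ M)
    rw [insert_eq_cons, cons_le_cons_iff, singleton_le] at hd
    rw [sum_cons] at hJ hJ'
    exact T_row h hd r hJ hJ' hG hE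

end Sign2

open Sign2

theorem sign2 : Sign2St := by
  intro p h
  have ⟨h1, h2, h3, h4, h5, h6⟩ := h
  refine ⟨⟨(by omega : 1 ≤ p.τ), h3, h4, ?_, fun M => ?_, fun M hM => ?_, fun M => card2 h1,
    fun M hJ hJ' c2 hB => ?_⟩, fun M n => ?_, fun M hJ hE => ⟨T0_even h hJ hE, ?_⟩⟩
  · show ((p.yy 0 : ℤ) : ℝ) = 1
    simp [Pq.yy, Pq.y0, Pq.yV, Pq.yY, show 0 < p.τ by omega]
  · show |((p.yy M : ℤ) : ℝ)| ≤ 100
    exact_mod_cast (yy_le h M).trans (by norm_num)
  · show ((p.yy M : ℤ) : ℝ) = 0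
    rw [yy_zero h hM, Int.cast_zero]
  · rw [Sign2.T_eq]
    exact_mod_cast main h hJ hJ' c2 hB
  · by_cases a : p.yV M = 0
    · left
      by_contra b
      apply n
      rw [Pq.yy, a, Pq.y0, Pq.yY, if_neg (by omega), if_neg fun c => b c.2.2.1]
      rfl
    · obtain ⟨P, b, rfl, r⟩ := pair a
      have := vis_ge h1 r.2.2
      have := r.1
      exact Or.inr ⟨P, b, rfl, by omega, r.1, r.2.2⟩
  · rintro P O rfl e
    exact T0_odd h hJ hE e

end Pool.Agent.Lib.MP_4b1228_nt.GS
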