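import Pool.Agent.Lib.MP_4b1228_nt.GS.St3
import Pool.Agent.Lib.MP_4b1228_nt.GS.Str

/-!
Where the loss lives, second version.
-/

namespace Pool.Agent.Lib.MP_4b1228_nt.GS

open Multiset Sign
open scoped Classical

namespace Str2

theorem T_eq (p : Pq) (M : Multiset ℕ) : p.sv.T M = (((M.powerset.map p.y0).sum +
    2 * (M.powerset.map p.yV).sum - (M.powerset.map p.yY).sum : ℤ) : ℝ) := by
  rw [← sum_map_mul_left, ← sum_map_add, ← sum_map_sub, Int.cast_multiset_sum, Multiset.map_map]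
  rfl

theorem two {p : Pq} {M : Multiset ℕ} (hT : p.sv.T M < 0) :
    (M.powerset.map p.y0).sum < 0 ∨ ∃ d ≤ M, p.yY d ≠ 0 := by
  by_contra h
  push Not at h
  have e : 0 ≤ (M.powerset.map p.yV).sum := sum_nonneg fun x hx => by
    obtain ⟨S, -, rfl⟩ := mem_map.1 hx
    rw [Pq.yV]
    split_ifs <;> positivity
  rw [T_eq, sumz h.2, Int.cast_lt_zero] at hT
  omega

theorem win (p : Pq) (m : ℕ) (R : Multiset ℕ) : ((m ::ₘ R).powerset.map p.y0).sum =
    (R.powerset.map fun S =>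
      if S.sum < p.τ ∧ p.τ ≤ m + S.sum then (-1 : ℤ) ^ S.card else 0).sum := by
  rw [ps_cons, ← sum_map_add]
  refine congrArg _ (map_congr rfl fun S _ => ?_)
  simp only [Pq.y0, sum_cons, card_cons, pow_succ]
  split_ifs <;> omega

theorem ex_win {p : Pq} {m : ℕ} {R : Multiset ℕ} (h : ((m ::ₘ R).powerset.map p.y0).sum < 0) :
    ∃ S ≤ R, S.sum < p.τ ∧ p.τ ≤ m + S.sum := by
  by_contra n
  rw [win, sumz fun S hS => if_neg fun w => n ⟨S, hS, w⟩] at h
  omega

theorem yY_ne {p : Pq} {d : Multiset ℕ} (h : p.yY d ≠ 0) :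
    3 ≤ d.card ∧ p.τ ≤ d.sum ∧ ∀ b ∈ d, d.sum < p.g + b := by
  rw [Pq.yY] at h
  by_contra n
  exact h (if_neg fun a => n ⟨a.1, a.2.1, a.2.2.2⟩)

/-- No part is very large. -/
theorem big {p : Pq} (h : p.g ≤ p.τ) (h0 : 0 < p.τ) {x : ℕ} {O : Multiset ℕ}
    (hE : ¬Exc p.τ (x ::ₘ O)) (hT : p.sv.T (x ::ₘ O) < 0) : x < p.τ := by
  by_contra h2
  have h1 : O.sum < p.τ := by
    by_contra n
    exact hE ⟨{x}, O, (singleton_add x O).symm, by rw [sum_singleton]; omega, by omega⟩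
  rcases two hT with a | ⟨d, hd, a⟩
  · rw [win, map_congr rfl fun S hS => if_pos ?_] at a
    · by_cases c : O = 0
      · subst c
        simp at a
      · rw [Str.alt c] at a
        omega
    · have := Str.le_sum (mem_powerset.1 hS)
      exact ⟨by omega, by omega⟩
  · obtain ⟨a3, a1, a2⟩ := yY_ne a
    by_cases c : x ∈ d
    · obtain ⟨d', rfl⟩ := exists_cons_of_mem c
      rw [card_cons] at a3
      obtain ⟨b, hb⟩ := card_pos_iff_exists_mem.1 (show 0 < d'.card by omega)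
      have := a2 b (mem_cons_of_mem hb)
      have := le_sum_of_mem hb
      rw [sum_cons] at *
      omega
    · have := Str.le_sum ((le_cons_of_notMem c).1 hd)
      omega

theorem card_le {g β m : ℕ} {R : Multiset ℕ} (hG : ¬Good g (m ::ₘ R)) (h : g ≤ 5 * β)
    (hR : ∀ x ∈ R, β ≤ x) : R.card ≤ 9 := by
  by_contra n
  obtain ⟨S, hS⟩ : ∃ S, S ∈ powersetCard 5 R := card_pos_iff_exists_mem.1 (by
    rw [card_powersetCard]
    exact Nat.choose_pos (by omega))
  obtain ⟨h1, h2⟩ := mem_powersetCard.1 hS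
  have a1 := card_nsmul_le_sum (s := S) (a := β) fun b hb => hR b (mem_of_le h1 hb)
  have a2 := card_nsmul_le_sum (s := R - S) (a := β) fun b hb => hR b (mem_of_le tsub_le_self hb)
  have a3 := Nat.mul_le_mul_right β (show 5 ≤ (R - S).card by rw [card_sub h1]; omega)
  rw [h2, smul_eq_mul] at a1
  rw [smul_eq_mul] at a2
  have := ng hG h1 (by omega)
  omega

theorem ex_min {d : Multiset ℕ} (h : 3 ≤ d.card) : ∃ b D, d = b ::ₘ D ∧ 2 * b ≤ D.sum := by
  obtain ⟨b, hb, hm⟩ := exists_min_image id (s := d) (card_pos.1 (by omega))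
  obtain ⟨D, rfl⟩ := exists_cons_of_mem hb
  refine ⟨b, D, rfl, ?_⟩
  have a := card_nsmul_le_sum (s := D) (a := b) fun c hc => hm c (mem_cons_of_mem hc)
  rw [card_cons] at h
  rw [smul_eq_mul] at a
  exact (Nat.mul_le_mul_right b (by omega)).trans a

theorem goodP {g b : ℕ} {A D : Multiset ℕ} (hA : g ≤ A.sum) (h1 : 12 * g < 13 * D.sum)
    (h2 : D.sum < g) (h3 : g ≤ 3 * b) : GoodP g (A + D + {b}) := by
  refine ⟨⟨3, ![A, D, {b}], ![1, 1, 3], by simp [Fin.sum_univ_three], ?_, ?_⟩,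
    A, D, {b}, rfl, singleton_ne_zero b, by omega, by omega⟩
  · intro i
    fin_cases i <;> simp
  · have e1 : (12 : ℝ) * g < 13 * D.sum := by exact_mod_cast h1
    have e2 : (D.sum : ℝ) < g := by exact_mod_cast h2
    have e3 : (1 : ℝ) / 3 < D.sum / (12 * g - 10 * D.sum) := by
      rw [div_lt_div_iff₀ (by norm_num) (by have := D.sum.cast_nonneg (α := ℝ); linarith)]
      linarith
    simp only [Fin.sum_univ_three, Matrix.cons_val_zero, Matrix.cons_val_one, Matrix.cons_val_two,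
      Matrix.head_cons, Matrix.tail_cons, one_mul, sum_singleton, om1, if_pos hA, if_pos h3,
      if_neg (not_le.2 h2), if_pos (show 2 * g ≤ 3 * D.sum by omega)]
    rw [Nat.cast_one, Nat.cast_ofNat]
    linarith

/-- The case of a small minimal part. -/
theorem small {p : Pq} (h2 : 6 * p.g ≤ 5 * p.τ) (h3 : 2 * p.τ ≤ p.J₁) {m : ℕ} {R d : Multiset ℕ}
    (hm : ∀ x ∈ R, m ≤ x) (hJ : p.J₁ ≤ m + R.sum) (hG : ¬Good2 p.g (m ::ₘ R))
    (hs : p.g + m ≤ p.τ) (hd : d ≤ m ::ₘ R) (a : p.yY d ≠ 0) :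
    13 * p.J₁ < 13 * m + 31 * p.g ∧ ∀ x ∈ R, p.τ < p.g + x := by
  obtain ⟨a3, a1, a2⟩ := yY_ne a
  have hd' : d ≤ R := (le_cons_of_notMem fun c => by have := a2 m c; omega).1 hd
  obtain ⟨b, D, rfl, hb⟩ := ex_min a3
  obtain ⟨Q, rfl⟩ := exists_add_of_le hd'
  have g1 : ¬Good p.g _ := fun e => hG (.inl e)
  have g3 : ∀ A B C : Multiset ℕ, m ::ₘ (b ::ₘ D + Q) = A + B + C → A.sum ≤ p.g → B.sum ≤ p.g →
      ¬2 * C.sum ≤ p.g := fun A B C e u v w =>
    hG (.inr (.inl ⟨by rw [sum_cons]; omega, A, B, C, e, u, v, w⟩))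
  have b1 := ng g1 hd' (by omega)
  have b2 := a2 b (mem_cons_self b D)
  rw [add_tsub_cancel_left] at b1
  have e0 : m ::ₘ (b ::ₘ D + Q) = m ::ₘ Q + D + {b} := by
    simp only [← singleton_add]
    abel
  simp only [sum_add, sum_cons] at a1 b2 hJ
  constructor
  · by_contra n
    by_cases c : m + Q.sum ≤ p.g
    · exact g3 _ _ _ e0 (by rwa [sum_cons]) (by omega) (by rw [sum_singleton]; omega)
    · refine hG (.inr (.inr ?_))
      rw [e0]
      exact goodP (by rw [sum_cons]; omega) (by omega) (by omega) (by omega)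
  · intro x hx
    rcases mem_add.1 hx with c | c
    · have := a2 x c
      rw [sum_cons] at this
      omega
    by_contra n
    obtain ⟨Q', rfl⟩ := exists_cons_of_mem c
    have := hm x hx
    rw [sum_cons] at b1 hJ
    by_cases c : x + D.sum ≤ p.g
    · refine g3 (m ::ₘ Q') (x ::ₘ D) {b} ?_ (by rw [sum_cons]; omega) (by rwa [sum_cons])
        (by rw [sum_singleton]; omega)
      simp only [← singleton_add]
      abel
    · refine g1 ⟨x ::ₘ D, b ::ₘ Q', {m}, ?_, singleton_ne_zero m, by rw [sum_cons]; omega,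
        by rw [sum_cons]; omega⟩
      simp only [← singleton_add]
      abel

end Str2

open Str2

theorem str2 (_h : Sign2St) : Str2St := by
  intro p m R h hm hJ _ hB hT
  obtain ⟨h1, h2, h3, -, -, h6⟩ := h
  have hG : ¬Good2 p.g (m ::ₘ R) := fun e => hB (.inl e)
  have hE : ¬Exc p.τ (m ::ₘ R) := fun e => hB (.inr e)
  have g1 : ¬Good p.g (m ::ₘ R) := fun e => hG (.inl e)
  have key : 13 * p.J₁ < 13 * m + 31 * p.g ∧ ∀ x ∈ R, p.τ < p.g + x := by
    rcases lt_or_ge p.τ (p.g + m) with l | l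
    · exact ⟨by omega, fun x hx => by have := hm x hx; omega⟩
    rcases two hT with a | ⟨d, hd, a⟩
    · obtain ⟨S, hS, w1, w2⟩ := ex_win a
      have := ng g1 hS
      have := sum_sub' hS
      omega
    · exact small h2 h3 hm hJ hG l hd a
  have hx : ∀ x ∈ R, x < p.τ := fun x hx => by
    obtain ⟨O, rfl⟩ := exists_cons_of_mem hx
    rw [cons_swap] at hE hT
    exact big (by omega) (by omega) hE hT
  refine ⟨?_, card_le g1 (β := p.τ - p.g) (by omega) fun x hx => by have := key.2 x hx; omega,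
    key.1, fun x h => ⟨key.2 x h, hx x h⟩⟩
  by_contra n
  have := big (by omega) (by omega) hE hT
  have a := sum_le_card_nsmul R (p.τ - 1) fun x h => by have := hx x h; omega
  have b := Nat.mul_le_mul_right (p.τ - 1) (show R.card ≤ 1 by omega)
  rw [smul_eq_mul] at a
  omega

end Pool.Agent.Lib.MP_4b1228_nt.GS
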