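import Pool.Agent.Lib.MP_4b1228_nt.GS.St

/-! All sums of the first type. -/

namespace Pool.Agent.Lib.MP_4b1228_nt.GS

open Finset Filter Topology Pool.Agent.Lib.MP_9d27bc_nt.C Pool.Agent.Lib.MP_9d27bc_nt.C.Two
open scoped Classical

noncomputable section

namespace TI

/-- the inner sum -/
def F (p : Par) (y : ℝ) (j₀ R Z a : ℕ) (v : GI) : ℝ :=
  ∑ m ∈ Sq (p.P1 y a) (p.P2 y R a) with Rough (y ^ j₀) (nm m), ww Z (v * m)

/-- the first estimate at one point -/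
def H1 (c : ℝ) (u A B : ℕ) (z : ℝ) : Prop :=
  ∀ (ι : Type) (S : Finset ι) (v : ι → GI) (Z : ℕ) (P₁ P₂ Y : ℝ),
    Mult S v B → 1 ≤ Y → (∀ i ∈ S, Y ≤ nm (v i) ∧ (nm (v i) : ℝ) ≤ z ^ A) → 1 ≤ Z → 1 ≤ P₁ →
    P₁ ≤ z ^ A → (z ^ u) ^ 14 * Z ≤ P₁ ^ 2 → (z ^ u) ^ 14 * (Z : ℝ) ^ 2 ≤ Y * P₁ ^ 2 →
    |AA z Z S v P₁ P₂ - D0 S v * m0 P₁ P₂ * VV z| ≤ c * (D0 S v * m0 P₁ P₂ * VV z) + 1 / z

/-- the second estimate at one point -/
def H2 (c : ℝ) (u A B j : ℕ) (z : ℝ) : Prop :=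
  ∀ (ι κ : Type) (S : Finset ι) (v : ι → GI) (S' : Finset κ) (v' : κ → GI) (Z : ℕ) (P₁ P₂ : ℝ),
    Two S v S' v' j B Z (z ^ u) (z ^ A) P₁ → 1 ≤ Z → 1 ≤ P₁ → P₁ ≤ P₂ → P₂ ≤ z ^ A →
    |AA z Z (S ×ˢ S') (fun w => v w.1 * v' w.2) P₁ P₂ - D0 S v * D0 S' v' * m0 P₁ P₂ * VV z| ≤
      c * (D0 S v * D0 S' v' * m0 P₁ P₂ * VV z) + 1 / z

lemma D0_nonneg {ι : Type} (S : Finset ι) (v : ι → GI) : 0 ≤ D0 S v :=
  sum_nonneg fun _ _ => by positivity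

lemma m0_nonneg (P₁ P₂ : ℝ) : 0 ≤ m0 P₁ P₂ := sum_nonneg fun _ _ => by positivity

lemma P12 (p : Par) {y : ℝ} (R a : ℕ) (hy : 1 ≤ y) (hJ : p.J₁ ≤ p.J₂) :
    p.P1 y a ≤ p.P2 y R a := by
  have : (p.J₁ : ℝ) ≤ p.J₂ := by exact_mod_cast hJ
  have hR : (0 : ℝ) ≤ R := Nat.cast_nonneg R
  exact Real.rpow_le_rpow_of_exponent_le hy (by linarith)

lemma kb (hB : Bas) : ∃ K : ℝ, 0 < K ∧ ∀ (p : Par) (y : ℝ) (j₀ R a : ℕ), p.J₁ ≤ p.J₂ → 1 ≤ j₀ →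
    3 ≤ y → m0 (p.P1 y a) (p.P2 y R a) * VV (y ^ j₀) ≤
      K * (((p.J₂ : ℝ) - p.J₁ + R + 2) / j₀) := by
  obtain ⟨C, hC, h1⟩ := hB.m0_le
  obtain ⟨C', hC', -, -, -, -, h2, -⟩ := hM
  refine ⟨C * C', by positivity, fun p y j₀ R a hJ hj hy => ?_⟩
  have hy0 : 0 < y := by linarith
  have hz : 2 ≤ y ^ j₀ := by
    have := le_self_pow₀ (by linarith : 1 ≤ y) (by omega : j₀ ≠ 0)
    linarith
  have hl : 1 ≤ Real.log y := by
    rw [Real.le_log_iff_exp_le hy0]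
    have := Real.exp_one_lt_d9
    linarith
  have hP : 0 < p.P1 y a := Real.rpow_pos_of_pos hy0 _
  have hP' : 0 < p.P2 y R a := Real.rpow_pos_of_pos hy0 _
  have h3 := h1 _ _ hP (P12 p R a (by linarith) hJ)
  have h4 := (h2 _ hz).2
  have h5 := (h2 _ hz).1
  have hj0 : (0 : ℝ) < j₀ := by exact_mod_cast hj
  rw [Real.log_pow] at h4 h5
  have hV : 0 ≤ VV (y ^ j₀) := le_trans (by positivity) h5
  have hJ' : (p.J₁ : ℝ) ≤ p.J₂ := by exact_mod_cast hJ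
  have hR : (0 : ℝ) ≤ R := Nat.cast_nonneg R
  have h6 : Real.log (p.P2 y R a / p.P1 y a) = ((p.J₂ : ℝ) - p.J₁ + R + 1) / 2 * Real.log y := by
    rw [Real.log_div hP'.ne' hP.ne', Par.P1, Par.P2, Real.log_rpow hy0, Real.log_rpow hy0]
    ring
  rw [h6] at h3
  have h7 : m0 (p.P1 y a) (p.P2 y R a) ≤ C * (((p.J₂ : ℝ) - p.J₁ + R + 2) * Real.log y) := by
    refine h3.trans (mul_le_mul_of_nonneg_left ?_ hC.le)
    nlinarith
  have hD : (0 : ℝ) ≤ (p.J₂ : ℝ) - p.J₁ + R + 2 := by linarith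
  calc _ ≤ C * (((p.J₂ : ℝ) - p.J₁ + R + 2) * Real.log y) * (C' / (j₀ * Real.log y)) :=
        mul_le_mul h7 h4 hV (by positivity)
    _ = _ := by field_simp

lemma close {x x' M D e c W K : ℝ} (h : |x - M| ≤ c * M + e) (h' : |x' - M| ≤ c * M + e)
    (hM : M = D * W) (hW : W ≤ K) (hc : 0 ≤ c) (hD : 0 ≤ D) :
    |x - x'| ≤ 2 * (c * K * D + e) := by
  have h1 : c * M ≤ c * K * D := by
    rw [hM, mul_assoc c K D, mul_comm K D]
    exact mul_le_mul_of_nonneg_left (mul_le_mul_of_nonneg_left hW hD) hc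
  have := abs_sub_le x M x'
  rw [abs_sub_comm M x'] at this
  linarith

lemma P1_eq (p : Par) (y : ℝ) {a n : ℕ} (h : n + a + 1 = p.J₁) :
    p.P1 y a = y ^ ((n : ℝ) / 2) := by
  have : (p.J₁ : ℝ) = n + a + 1 := by rw [← h]; push_cast; ring
  rw [Par.P1, this]
  congr 1
  ring

lemma sq_half {y : ℝ} (hy : 0 ≤ y) (n : ℕ) : (y ^ ((n : ℝ) / 2)) ^ 2 = y ^ n := by
  rw [← Real.rpow_natCast, ← Real.rpow_mul hy, ← Real.rpow_natCast]
  congr 1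
  push_cast
  ring

lemma rp_le {y s : ℝ} (hy : 1 ≤ y) {j₀ A : ℕ} (hj : 1 ≤ j₀) (hs : s ≤ A) :
    y ^ s ≤ (y ^ j₀) ^ A := by
  rw [← pow_mul, ← Real.rpow_natCast]
  refine Real.rpow_le_rpow_of_exponent_le hy (hs.trans ?_)
  exact_mod_cast Nat.le_mul_of_pos_left A hj

lemma np_le {y : ℝ} (hy : 1 ≤ y) {j₀ A n : ℕ} (hj : 1 ≤ j₀) (hs : n ≤ A) :
    y ^ n ≤ (y ^ j₀) ^ A := by
  rw [← pow_mul]
  exact pow_le_pow_right₀ hy (hs.trans (Nat.le_mul_of_pos_left A hj))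

lemma rp {y Z e s f : ℝ} {g₀ j₀ u : ℕ} (hy : 1 ≤ y) (hZ0 : 0 ≤ Z) (hZ : Z ≤ y ^ g₀) (he : 0 ≤ e)
    (h : (j₀ : ℝ) * u * 50 + g₀ * e ≤ s * f) :
    ((y ^ j₀) ^ u) ^ 50 * Z ^ e ≤ (y ^ s) ^ f := by
  have hy0 : 0 < y := by linarith
  have h1 : Z ^ e ≤ y ^ ((g₀ : ℝ) * e) := by
    rw [Real.rpow_mul hy0.le, Real.rpow_natCast]
    exact Real.rpow_le_rpow hZ0 hZ he
  rw [← pow_mul, ← pow_mul, ← Real.rpow_mul hy0.le, ← Real.rpow_natCast]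
  calc _ ≤ y ^ ((j₀ * (u * 50) : ℕ) : ℝ) * y ^ ((g₀ : ℝ) * e) :=
        mul_le_mul_of_nonneg_left h1 (by positivity)
    _ = y ^ (((j₀ * (u * 50) : ℕ) : ℝ) + (g₀ : ℝ) * e) := (Real.rpow_add hy0 _ _).symm
    _ ≤ _ := Real.rpow_le_rpow_of_exponent_le hy (by push_cast; linarith)

/-- one group of the first part -/
lemma one (hX : Box) (hD : Dv) {c K y : ℝ} {u B j₀ R g₀ a : ℕ} {p : Par} (hp : p.OK)
    (hj : 1 ≤ j₀) (hg : g₀ + 50 * u * j₀ + 2 ≤ p.g) (hy : 3 ≤ y) (hB : 1 ≤ B) (hc : 0 ≤ c)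
    (h : H1 c u (2 * p.J₂ + R + 1) B (y ^ j₀))
    (hK : m0 (p.P1 y a) (p.P2 y R a) * VV (y ^ j₀) ≤ K) (ha : a + p.g ≤ p.J₁)
    (T : Finset (Finset GI)) (hT : T ⊆ (PP y j₀ (p.J₂ + 1)).powerset)
    (hs : ∀ S ∈ T, (im y S).sum = a) {Z : ℕ} (hZ1 : 1 ≤ Z) (hZ : (Z : ℝ) ≤ y ^ g₀) :
    |∑ S ∈ T, (F p y j₀ R Z a (∏ π ∈ S, π) - F p y j₀ R 1 a (∏ π ∈ S, π))| ≤
      2 * (c * K * D0 T (fun S => ∏ π ∈ S, π) + 1 / y ^ j₀) := by
  obtain ⟨h0, h1, h2, h3, -⟩ := hp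
  have hy1 : 1 ≤ y := by linarith
  have hy1' : 1 < y := by linarith
  obtain ⟨n, hn⟩ : ∃ n, n + a + 1 = p.J₁ := ⟨p.J₁ - a - 1, by omega⟩
  have hP := P1_eq p y hn
  have hP2 : p.P1 y a ^ 2 = y ^ n := by rw [hP, sq_half (by linarith)]
  have e14 : ((y ^ j₀) ^ u) ^ 14 = y ^ (14 * (u * j₀)) := by
    rw [← pow_mul, ← pow_mul]; congr 1; ring
  have hu : 50 * u * j₀ = 50 * (u * j₀) := by ring
  have key : ∀ W : ℕ, 1 ≤ W → (W : ℝ) ≤ y ^ g₀ →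
      |AA (y ^ j₀) W T (fun S => ∏ π ∈ S, π) (p.P1 y a) (p.P2 y R a) -
        D0 T (fun S => ∏ π ∈ S, π) * m0 (p.P1 y a) (p.P2 y R a) * VV (y ^ j₀)| ≤
        c * (D0 T (fun S => ∏ π ∈ S, π) * m0 (p.P1 y a) (p.P2 y R a) * VV (y ^ j₀)) +
          1 / y ^ j₀ := by
    intro W hW1 hW
    refine h _ T _ W _ _ (y ^ a) (fun x => ?_) (one_le_pow₀ hy1) (fun S hS => ?_) hW1 ?_ ?_ ?_ ?_
    · exact (card_le_card (filter_subset_filter _ hT)).trans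
        ((hD.mult_set y j₀ _ hy1' x).trans hB)
    · obtain ⟨k1, k2, k3, -⟩ := hX.nm_set y j₀ _ S hy1' (mem_powerset.1 (hT hS))
      rw [hs S hS] at k1 k2 k3
      have : #S ≤ j₀ * #S := Nat.le_mul_of_pos_left _ hj
      exact ⟨k1, k2.trans (np_le hy1 hj (by omega))⟩
    · rw [hP]; exact Real.one_le_rpow hy1 (by positivity)
    · rw [hP]
      refine rp_le hy1 hj ?_
      have : (n : ℝ) ≤ (2 * p.J₂ + R + 1 : ℕ) := by exact_mod_cast (by omega)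
      have h5 : (0 : ℝ) ≤ n := Nat.cast_nonneg n
      linarith
    · rw [hP2, e14]
      calc _ ≤ y ^ (14 * (u * j₀)) * y ^ g₀ := mul_le_mul_of_nonneg_left hW (by positivity)
        _ ≤ _ := by rw [← pow_add]; exact pow_le_pow_right₀ hy1 (by omega)
    · rw [hP2, e14]
      calc _ ≤ y ^ (14 * (u * j₀)) * (y ^ g₀) ^ 2 := by gcongr
        _ ≤ _ := by rw [← pow_mul, ← pow_add, ← pow_add]; exact pow_le_pow_right₀ hy1 (by omega)
  rw [sum_sub_distrib]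
  exact close (key Z hZ1 hZ) (key 1 le_rfl (by rw [Nat.cast_one]; exact one_le_pow₀ hy1))
    (mul_assoc _ _ _) hK hc (D0_nonneg _ _)

lemma val (p : Par) (hp : p.OK) (M : Multiset ℕ) :
    |p.y0 M - p.yY M| ≤ 9 ∧ (p.y0 M - p.yY M ≠ 0 → M.sum + p.g ≤ p.J₁) := by
  obtain ⟨h0, h1, h2, h3, -⟩ := hp
  have hn : p.nn M ≤ M.card := Multiset.countP_le_card _ _
  have a1 : |p.y0 M| ≤ 1 := by
    unfold Par.y0
    split_ifs
    · rw [abs_pow, abs_neg, abs_one, one_pow]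
    · simp
  have a2 : 0 ≤ p.yY M ∧ p.yY M ≤ 8 := by
    unfold Par.yY
    split_ifs <;> omega
  refine ⟨?_, fun h => ?_⟩
  · rw [abs_le] at a1 ⊢
    omega
  · by_cases hτ : M.sum < p.τ
    · omega
    · have b1 : p.y0 M = 0 := by rw [Par.y0, if_neg hτ]
      have b2 : p.yY M ≠ 0 := by omega
      have b3 : (∀ b ∈ M, M.sum < p.g + b) ∧ (M.card = 3 ∨ M.card = 4) := by
        unfold Par.yY at b2
        split_ifs at b2 with k1 k2 k3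
        · exact ⟨k1.2, Or.inl k2⟩
        · exact ⟨k1.2, Or.inr k3⟩
        · exact absurd rfl b2
        · exact absurd rfl b2
      have b4 : M.card • (M.sum - p.g) ≤ M.sum :=
        Multiset.card_nsmul_le_sum fun b hb => by have := b3.1 b hb; omega
      rw [smul_eq_mul] at b4
      rcases b3.2 with k | k <;> rw [k] at b4 <;> omega

/-- the first part -/
lemma part1 (hX : Box) (hD : Dv) {c K y : ℝ} {u B j₀ R g₀ : ℕ} {p : Par} (hp : p.OK)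
    (hj : 1 ≤ j₀) (hg : g₀ + 50 * u * j₀ + 2 ≤ p.g) (hy : 3 ≤ y) (hB : 1 ≤ B) (hc : 0 ≤ c)
    (hK0 : 0 ≤ K) (h : H1 c u (2 * p.J₂ + R + 1) B (y ^ j₀))
    (hK : ∀ a, m0 (p.P1 y a) (p.P2 y R a) * VV (y ^ j₀) ≤ K)
    {Z : ℕ} (hZ1 : 1 ≤ Z) (hZ : (Z : ℝ) ≤ y ^ g₀) :
    |∑ S ∈ (PP y j₀ (p.J₂ + 1)).powerset, ((p.y0 (im y S) - p.yY (im y S) : ℤ) : ℝ) *
      (F p y j₀ R Z (im y S).sum (∏ π ∈ S, π) - F p y j₀ R 1 (im y S).sum (∏ π ∈ S, π))| ≤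
      18 * (c * K * D0 (PP y j₀ (p.J₂ + 1)).powerset (fun S => ∏ π ∈ S, π) +
        (19 * (p.J₁ + 1) : ℕ) * (1 / y ^ j₀)) := by
  set U := (PP y j₀ (p.J₂ + 1)).powerset with hU
  set φ : Finset GI → ℕ × ℤ := fun S => ((im y S).sum, p.y0 (im y S) - p.yY (im y S)) with hφ
  set T := U.filter fun S => p.y0 (im y S) - p.yY (im y S) ≠ 0 with hT
  set G := range (p.J₁ - p.g + 1) ×ˢ Icc (-9 : ℤ) 9 with hG
  have hm : ∀ S ∈ T, φ S ∈ G := fun S hS => by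
    obtain ⟨k1, k2⟩ := val p hp (im y S)
    have := k2 (mem_filter.1 hS).2
    exact mem_product.2 ⟨mem_range.2 (by simp only [hφ]; omega), mem_Icc.2 (abs_le.1 k1)⟩
  have hgJ : p.g ≤ p.J₁ := by obtain ⟨h0, h1, h2, h3, -⟩ := hp; omega
  have hz : (0 : ℝ) ≤ 1 / y ^ j₀ := by positivity
  rw [← sum_filter_of_ne (p := fun S => p.y0 (im y S) - p.yY (im y S) ≠ 0)
    (fun S _ hS k => hS (by rw [k, Int.cast_zero, zero_mul])), ← hT,
    ← sum_fiberwise_of_maps_to hm]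
  refine (abs_sum_le_sum_abs _ _).trans ?_
  have hb : ∀ g ∈ G, |∑ S ∈ T with φ S = g, ((p.y0 (im y S) - p.yY (im y S) : ℤ) : ℝ) *
      (F p y j₀ R Z (im y S).sum (∏ π ∈ S, π) - F p y j₀ R 1 (im y S).sum (∏ π ∈ S, π))| ≤
      18 * (c * K * D0 (T.filter fun S => φ S = g) (fun S => ∏ π ∈ S, π) + 1 / y ^ j₀) := by
    intro g hg'
    obtain ⟨g1, g2⟩ := mem_product.1 hg'
    have g3 := mem_range.1 g1
    have e1 : ∀ S ∈ T.filter fun S => φ S = g, (im y S).sum = g.1 := fun S hS =>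
      congrArg Prod.fst (mem_filter.1 hS).2
    have e2 : ∀ S ∈ T.filter fun S => φ S = g, p.y0 (im y S) - p.yY (im y S) = g.2 := fun S hS =>
      congrArg Prod.snd (mem_filter.1 hS).2
    rw [sum_congr rfl fun S hS => by rw [e1 S hS, e2 S hS], ← mul_sum, abs_mul]
    have k := one hX hD hp hj hg hy hB hc h (hK g.1) (by omega) _
      ((filter_subset _ _).trans (filter_subset _ _)) e1 hZ1 hZ
    have k2 : |(g.2 : ℝ)| ≤ 9 := by exact_mod_cast abs_le.2 (mem_Icc.1 g2)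
    refine (mul_le_mul k2 k (abs_nonneg _) (by norm_num)).trans (le_of_eq ?_)
    ring
  refine (sum_le_sum hb).trans ?_
  rw [← mul_sum, sum_add_distrib, ← mul_sum, sum_const, nsmul_eq_mul]
  have s1 : ∑ g ∈ G, D0 (T.filter fun S => φ S = g) (fun S => ∏ π ∈ S, π) ≤
      D0 U (fun S => ∏ π ∈ S, π) := by
    unfold D0
    rw [sum_fiberwise_of_maps_to hm]
    exact sum_le_sum_of_subset_of_nonneg (filter_subset _ _) fun _ _ _ => by positivity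
  have s2 : (#G : ℝ) ≤ (19 * (p.J₁ + 1) : ℕ) := by
    have : #G ≤ 19 * (p.J₁ + 1) := by
      rw [hG, card_product, card_range, Int.card_Icc]
      have : ((9 : ℤ) + 1 - -9).toNat = 19 := rfl
      rw [this]
      omega
    exact_mod_cast this
  gcongr

lemma row_lt {p : Par} (hp : p.OK) {P b : ℕ} (h : p.row P b) : b < p.g ∧ p.g ≤ P := by
  obtain ⟨h0, h1, h2, h3, h4, h5, h6, h7, h8, h9, h10, h11, h12, h13, h14, h15⟩ := hp
  obtain ⟨k1, k2, k3⟩ := h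
  unfold Par.vis at k3
  omega

lemma im_pair (y : ℝ) {a b : GI} (h : a ≠ b) : (im y {a, b}).sum = ix y a + ix y b :=
  sum_pair (f := ix y) h

lemma yV_eq {p : Par} (hp : p.OK) (y : ℝ) (U S : Finset GI) (hS : S ⊆ U) :
    p.yV (im y S) = (#{w ∈ (U ×ˢ U).filter fun w => p.row (ix y w.1) (ix y w.2) |
      ({w.1, w.2} : Finset GI) = S} : ℕ) := by
  have hne : ∀ w ∈ (U ×ˢ U).filter fun w => p.row (ix y w.1) (ix y w.2), w.1 ≠ w.2 := by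
    intro w hw e
    have := row_lt hp (mem_filter.1 hw).2
    rw [e] at this
    omega
  have hc : (im y S).card = #S := Multiset.card_map _ _
  unfold Par.yV
  rw [hc]
  split_ifs with h2
  · congr 1
    have : (im y S).countP (fun b => p.row ((im y S).sum - b) b) =
        #{b ∈ S | p.row ((im y S).sum - ix y b) (ix y b)} := by
      conv_lhs => rw [im, Multiset.countP_map]
      rfl
    rw [this]
    symm
    refine card_bij (fun w _ => w.2) (fun w hw => ?_) (fun w hw w' hw' e => ?_) (fun b hb => ?_)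
    · obtain ⟨k1, k2⟩ := mem_filter.1 hw
      refine mem_filter.2 ⟨by rw [← k2]; simp, ?_⟩
      rw [← k2, im_pair y (hne w k1), Nat.add_sub_cancel]
      exact (mem_filter.1 k1).2
    · obtain ⟨k1, k2⟩ := mem_filter.1 hw
      obtain ⟨k3, k4⟩ := mem_filter.1 hw'
      have e' : w.2 = w'.2 := e
      have : w.1 ∈ ({w'.1, w'.2} : Finset GI) := by rw [k4, ← k2]; simp
      rcases mem_insert.1 this with k | k
      · exact Prod.ext k e'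
      · exact absurd ((mem_singleton.1 k).trans e'.symm) (hne w k1)
    · obtain ⟨k1, k2⟩ := mem_filter.1 hb
      obtain ⟨a, ha⟩ := card_eq_one.1 (show #(S.erase b) = 1 by rw [card_erase_of_mem k1, h2])
      have ha' : a ∈ S.erase b := by rw [ha]; exact mem_singleton_self a
      obtain ⟨a1, a2⟩ := mem_erase.1 ha'
      have e : ({a, b} : Finset GI) = S := by
        rw [pair_comm, ← insert_erase k1, ha]
      refine ⟨(a, b), mem_filter.2 ⟨mem_filter.2 ⟨mem_product.2 ⟨hS a2, hS k1⟩, ?_⟩, e⟩, rfl⟩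
      rw [← e, im_pair y a1, Nat.add_sub_cancel] at k2
      exact k2
  · rw [eq_comm, Nat.cast_eq_zero, card_eq_zero, filter_eq_empty_iff]
    intro w hw e
    exact h2 (by rw [← e, card_pair (hne w hw)])

lemma pairs (hX : Box) {p : Par} (hp : p.OK) {y : ℝ} (hy : 1 < y) (j J : ℕ)
    (G : ℕ → GI → ℝ) :
    ∑ S ∈ (PP y j J).powerset, (p.yV (im y S) : ℝ) * G (im y S).sum (∏ π ∈ S, π) =
      ∑ a ∈ Ico j J, ∑ b ∈ Ico j J, if p.row a b then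
        ∑ w ∈ Bx y a ×ˢ Bx y b, G (a + b) (w.1 * w.2) else 0 := by
  set U := PP y j J with hU
  set W := (U ×ˢ U).filter fun w => p.row (ix y w.1) (ix y w.2) with hW
  have hm : ∀ w ∈ W, ({w.1, w.2} : Finset GI) ∈ U.powerset := fun w hw => by
    obtain ⟨k1, k2⟩ := mem_product.1 (mem_filter.1 hw).1
    exact mem_powerset.2 (insert_subset k1 (singleton_subset_iff.2 k2))
  have e1 : ∑ S ∈ U.powerset, (p.yV (im y S) : ℝ) * G (im y S).sum (∏ π ∈ S, π) =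
      ∑ w ∈ W, G (ix y w.1 + ix y w.2) (w.1 * w.2) := by
    rw [← sum_fiberwise_of_maps_to hm]
    refine sum_congr rfl fun S hS => ?_
    rw [yV_eq hp y U S (mem_powerset.1 hS), Int.cast_natCast, ← nsmul_eq_mul, ← sum_const]
    refine sum_congr rfl fun w hw => ?_
    obtain ⟨k1, k2⟩ := mem_filter.1 hw
    have hne : w.1 ≠ w.2 := by
      intro e
      have := row_lt hp (mem_filter.1 k1).2
      rw [e] at this
      omega
    rw [← k2, im_pair y hne, prod_pair hne]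
  rw [e1, hW, sum_filter, sum_product, hU, hX.sum_PP y j J _ hy]
  refine sum_congr rfl fun a _ => ?_
  rw [sum_congr rfl fun P _ => hX.sum_PP y j J _ hy, sum_comm]
  refine sum_congr rfl fun b _ => ?_
  rw [sum_congr rfl fun P hP => sum_congr rfl fun q hq => by
    rw [hX.ix_eq y a P hy hP, hX.ix_eq y b q hy hq]]
  split_ifs
  · rw [sum_product]
  · simp

lemma nm_Bx (hX : Box) {y : ℝ} {a : ℕ} {x : GI} (h : x ∈ Bx y a) :
    y ^ a ≤ nm x ∧ (nm x : ℝ) ≤ y ^ (a + 1) := by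
  obtain ⟨l, ε, k1, rfl, k2, k3⟩ := (hX.mem_Bx y a x).1 h
  obtain ⟨-, -, -, -, -, -, -, -, k, -⟩ := hG
  rw [(k l ε k1).1]
  exact ⟨k2.le, k3⟩

/-- one pair of boxes, with the exponent given -/
lemma two' (hX : Box) (hD : Dv) {c K y : ℝ} {u B j₀ R g₀ a b j n : ℕ} {p : Par}
    (hJ : p.J₁ ≤ p.J₂) (hj : 1 ≤ j₀) (hy : 3 ≤ y) (hB : 256 ≤ B) (hc : 0 ≤ c)
    (hB' : D0 (Bx y b) id ≤ B) (hj2 : 2 ≤ j) (hj4 : j ≤ 4)
    (h : H2 c u (2 * p.J₂ + R + 1) B j (y ^ j₀))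
    (hK : m0 (p.P1 y (a + b)) (p.P2 y R (a + b)) * VV (y ^ j₀) ≤ K)
    (hn : n + (a + b) + 1 = p.J₁) (ha : g₀ ≤ a) (hb : g₀ ≤ b * j) (n1 : 14 * (u * j₀) ≤ n)
    (n2 : (j₀ : ℝ) * u * 50 + g₀ * ((j : ℝ) - 1 / 2) ≤ (n : ℝ) / 2 * (2 * (j : ℝ) - 1 / 2))
    (n3 : (j₀ : ℝ) * u * 50 + g₀ * ((j : ℝ) - 1) ≤ (n : ℝ) / 2 * (2 * (j : ℝ) - 2 + 4 / 11))
    {Z : ℕ} (hZ1 : 1 ≤ Z) (hZ : (Z : ℝ) ≤ y ^ g₀) :
    |∑ w ∈ Bx y a ×ˢ Bx y b,
      (F p y j₀ R Z (a + b) (w.1 * w.2) - F p y j₀ R 1 (a + b) (w.1 * w.2))| ≤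
      2 * (c * K * (D0 (Bx y a) id * D0 (Bx y b) id) + 1 / y ^ j₀) := by
  have hy1 : 1 ≤ y := by linarith
  have hy1' : 1 < y := by linarith
  have hP := P1_eq p y hn
  have hP2 : p.P1 y (a + b) ^ 2 = y ^ n := by rw [hP, sq_half (by linarith)]
  have e14 : ((y ^ j₀) ^ u) ^ 14 = y ^ (14 * (u * j₀)) := by
    rw [← pow_mul, ← pow_mul]; congr 1; ring
  have hj' : (2 : ℝ) ≤ j := by exact_mod_cast hj2
  have key : ∀ W : ℕ, 1 ≤ W → (W : ℝ) ≤ y ^ g₀ →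
      |AA (y ^ j₀) W (Bx y a ×ˢ Bx y b) (fun w => id w.1 * id w.2) (p.P1 y (a + b))
        (p.P2 y R (a + b)) - D0 (Bx y a) id * D0 (Bx y b) id *
          m0 (p.P1 y (a + b)) (p.P2 y R (a + b)) * VV (y ^ j₀)| ≤
        c * (D0 (Bx y a) id * D0 (Bx y b) id * m0 (p.P1 y (a + b)) (p.P2 y R (a + b)) *
          VV (y ^ j₀)) + 1 / y ^ j₀ := by
    intro W hW1 hW
    refine h _ _ _ _ _ _ W _ _ ⟨fun x => ?_, fun x hx => ?_, hB', fun x => ?_, fun x hx => ?_,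
      ?_, ?_, ?_⟩ hW1 ?_ (P12 p R _ hy1 hJ) ?_
    · refine le_trans (card_le_one.2 fun s hs t ht => ?_) (by omega : 1 ≤ B)
      exact (mem_filter.1 hs).2.trans (mem_filter.1 ht).2.symm
    · obtain ⟨k1, k2⟩ := nm_Bx hX hx
      refine ⟨?_, k2.trans (np_le hy1 hj (by omega))⟩
      exact_mod_cast hW.trans ((pow_le_pow_right₀ hy1 ha).trans k1)
    · have k1 := hD.mult_tup (Fin j) y b (b + 1) hy1' x
      have k2 : Fintype.card (Fin j) ^ Fintype.card (Fin j) ≤ 256 := by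
        rw [Fintype.card_fin]
        interval_cases j <;> norm_num
      refine le_trans (card_le_card (filter_subset_filter _ ?_)) (k1.trans (k2.trans hB))
      refine Fintype.piFinset_subset _ _ fun _ => ?_
      exact subset_biUnion_of_mem (Bx y) (mem_Ico.2 ⟨le_rfl, Nat.lt_succ_self b⟩)
    · obtain ⟨k1, k2⟩ := nm_Bx hX hx
      refine ⟨?_, k2.trans (np_le hy1 hj (by omega))⟩
      have : (W : ℝ) ≤ (nm x : ℝ) ^ j := by
        refine hW.trans ((pow_le_pow_right₀ hy1 hb).trans ?_)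
        rw [pow_mul]
        exact pow_le_pow_left₀ (by positivity) k1 j
      exact_mod_cast this
    · rw [hP2, e14]; exact pow_le_pow_right₀ hy1 n1
    · rw [hP]; exact rp hy1 (Nat.cast_nonneg W) hW (by linarith) n2
    · rw [hP]; exact rp hy1 (Nat.cast_nonneg W) hW (by linarith) n3
    · rw [hP]; exact Real.one_le_rpow hy1 (by positivity)
    · refine rp_le hy1 hj ?_
      have h5 : (0 : ℝ) ≤ (a + b : ℕ) := Nat.cast_nonneg _
      have h6 : (0 : ℝ) ≤ p.J₂ := Nat.cast_nonneg _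
      have h7 : (0 : ℝ) ≤ R := Nat.cast_nonneg _
      rw [Nat.cast_add _ 1, Nat.cast_add _ R, Nat.cast_mul, Nat.cast_one, Nat.cast_ofNat]
      linarith
  rw [sum_sub_distrib]
  exact close (key Z hZ1 hZ) (key 1 le_rfl (by rw [Nat.cast_one]; exact one_le_pow₀ hy1))
    (mul_assoc _ _ _) hK hc (mul_nonneg (D0_nonneg _ _) (D0_nonneg _ _))

/-- one pair of boxes -/
lemma two (hX : Box) (hD : Dv) {c K y : ℝ} {u B j₀ R g₀ a b : ℕ} {p : Par} (hp : p.OK)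
    (hj : 1 ≤ j₀) (hg : g₀ + 50 * u * j₀ + 2 ≤ p.g) (hy : 3 ≤ y) (hB : 256 ≤ B) (hc : 0 ≤ c)
    (hB' : D0 (Bx y b) id ≤ B)
    (h : ∀ j, 2 ≤ j → j ≤ 4 → H2 c u (2 * p.J₂ + R + 1) B j (y ^ j₀))
    (hK : m0 (p.P1 y (a + b)) (p.P2 y R (a + b)) * VV (y ^ j₀) ≤ K) (hr : p.row a b)
    {Z : ℕ} (hZ1 : 1 ≤ Z) (hZ : (Z : ℝ) ≤ y ^ g₀) :
    |∑ w ∈ Bx y a ×ˢ Bx y b,
      (F p y j₀ R Z (a + b) (w.1 * w.2) - F p y j₀ R 1 (a + b) (w.1 * w.2))| ≤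
      2 * (c * K * (D0 (Bx y a) id * D0 (Bx y b) id) + 1 / y ^ j₀) := by
  obtain ⟨h0, h1, h2, h3, h4, h5, h6, h7, h8, h9, h10, h11, h12, h13, h14, h15⟩ := hp
  obtain ⟨k1, k2, k3⟩ := hr
  have hu : 50 * u * j₀ = 50 * (u * j₀) := by ring
  have hg' : (g₀ : ℝ) + j₀ * u * 50 + 2 ≤ p.g := by
    have : ((g₀ + 50 * u * j₀ + 2 : ℕ) : ℝ) ≤ p.g := by exact_mod_cast hg
    push_cast at this
    linarith
  have p0 : (0 : ℝ) ≤ g₀ := Nat.cast_nonneg _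
  have p1 : (0 : ℝ) ≤ j₀ * u * 50 := by positivity
  obtain ⟨n, hn⟩ : ∃ n, n + (a + b) + 1 = p.J₁ :=
    ⟨p.J₁ - (a + b) - 1, by unfold Par.vis at k3; omega⟩
  rcases k3 with k | k | k
  · have : ((6 * p.g : ℕ) : ℝ) ≤ (7 * (n + 1) : ℕ) := by exact_mod_cast (by omega)
    push_cast at this
    exact two' hX hD h3 hj hy hB hc hB' le_rfl (by norm_num) (h 2 le_rfl (by norm_num)) hK hn
      (by omega) (by omega) (by omega) (by push_cast; linarith) (by push_cast; linarith) hZ1 hZ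
  · have : ((11 * p.g : ℕ) : ℝ) ≤ (12 * (n + 1) : ℕ) := by exact_mod_cast (by omega)
    push_cast at this
    exact two' (j := 3) hX hD h3 hj hy hB hc hB' (by norm_num) (by norm_num)
      (h 3 (by norm_num) (by norm_num)) hK hn
      (by omega) (by omega) (by omega) (by push_cast; linarith) (by push_cast; linarith) hZ1 hZ
  · have : ((33 * p.g : ℕ) : ℝ) ≤ (35 * (n + 1) : ℕ) := by exact_mod_cast (by omega)
    push_cast at this
    exact two' hX hD h3 hj hy hB hc hB' (by norm_num) le_rfl (h 4 (by norm_num) le_rfl) hK hn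
      (by omega) (by omega) (by omega) (by push_cast; linarith) (by push_cast; linarith) hZ1 hZ

/-- the second part -/
lemma part2 (hX : Box) (hD : Dv) {c K y : ℝ} {u B j₀ R g₀ : ℕ} {p : Par} (hp : p.OK)
    (hj : 1 ≤ j₀) (hg : g₀ + 50 * u * j₀ + 2 ≤ p.g) (hy : 3 ≤ y) (hB : 256 ≤ B) (hc : 0 ≤ c)
    (hK0 : 0 ≤ K) (hB' : ∀ b, 1 ≤ b → D0 (Bx y b) id ≤ B)
    (h : ∀ j, 2 ≤ j → j ≤ 4 → H2 c u (2 * p.J₂ + R + 1) B j (y ^ j₀))
    (hK : ∀ a, m0 (p.P1 y a) (p.P2 y R a) * VV (y ^ j₀) ≤ K)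
    {Z : ℕ} (hZ1 : 1 ≤ Z) (hZ : (Z : ℝ) ≤ y ^ g₀) :
    |∑ S ∈ (PP y j₀ (p.J₂ + 1)).powerset, (p.yV (im y S) : ℝ) *
      (F p y j₀ R Z (im y S).sum (∏ π ∈ S, π) - F p y j₀ R 1 (im y S).sum (∏ π ∈ S, π))| ≤
      2 * (c * K * D0 (PP y j₀ (p.J₂ + 1)) id ^ 2 +
        ((p.J₂ + 1) ^ 2 : ℕ) * (1 / y ^ j₀)) := by
  have hy1' : 1 < y := by linarith
  have hz : (0 : ℝ) ≤ 1 / y ^ j₀ := by positivity
  rw [pairs hX hp hy1' j₀ (p.J₂ + 1) fun a v => F p y j₀ R Z a v - F p y j₀ R 1 a v]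
  have hb : ∀ a ∈ Ico j₀ (p.J₂ + 1), ∀ b ∈ Ico j₀ (p.J₂ + 1), |if p.row a b then
      ∑ w ∈ Bx y a ×ˢ Bx y b, (F p y j₀ R Z (a + b) (w.1 * w.2) - F p y j₀ R 1 (a + b) (w.1 * w.2))
        else 0| ≤ 2 * (c * K * (D0 (Bx y a) id * D0 (Bx y b) id) + 1 / y ^ j₀) := by
    intro a _ b hb
    split_ifs with hr
    · exact two hX hD hp hj hg hy hB hc (hB' b (hj.trans (mem_Ico.1 hb).1)) h (hK _) hr hZ1 hZ
    · have := D0_nonneg (Bx y a) id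
      have := D0_nonneg (Bx y b) id
      rw [abs_zero]
      positivity
  refine (abs_sum_le_sum_abs _ _).trans ((sum_le_sum fun a ha =>
    (abs_sum_le_sum_abs _ _).trans (sum_le_sum (hb a ha))).trans ?_)
  have e : D0 (PP y j₀ (p.J₂ + 1)) id = ∑ a ∈ Ico j₀ (p.J₂ + 1), D0 (Bx y a) id :=
    hX.sum_PP y j₀ _ (fun x => 1 / (nm x : ℝ)) hy1'
  have s2 : (#(Ico j₀ (p.J₂ + 1)) : ℝ) * #(Ico j₀ (p.J₂ + 1)) ≤ ((p.J₂ + 1) ^ 2 : ℕ) := by
    have : #(Ico j₀ (p.J₂ + 1)) ≤ p.J₂ + 1 := by rw [Nat.card_Ico]; omega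
    rw [sq]
    exact_mod_cast Nat.mul_le_mul this this
  rw [e, sq, sum_mul_sum]
  simp only [← mul_sum, sum_add_distrib, sum_const, nsmul_eq_mul]
  rw [← mul_assoc (#(Ico j₀ (p.J₂ + 1)) : ℝ)]
  gcongr

end TI

open TI in
theorem ti (hB : Bas) (hX : Box) (hD : Dv) (h : T1St) : TISt := by
  obtain ⟨C, hC, h⟩ := h
  obtain ⟨K, hK, hk⟩ := kb hB
  obtain ⟨E, hE, he⟩ := hX.exp_PP
  obtain ⟨B, hb⟩ := hX.D0_box
  refine ⟨C + 22 * (C * K * E) + 1, by positivity, fun k hk' p j₀ R g₀ hp hj hR hg => ?_⟩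
  have hCKE : 0 < C * K * E := by positivity
  obtain ⟨h1, h2⟩ := h k (by linarith) (2 * p.J₂ + R + 1) (max B 256)
  have hJ : p.J₁ ≤ p.J₂ := hp.2.2.2.1
  have hR1 : 1 ≤ R := by
    rcases Nat.eq_zero_or_pos R with rfl | k
    · omega
    · exact k
  have hJ' : (p.J₁ : ℝ) ≤ p.J₂ := by exact_mod_cast hJ
  have hR' : (1 : ℝ) ≤ R := by exact_mod_cast hR1
  have hj0 : (0 : ℝ) < j₀ := by exact_mod_cast hj
  set Δ : ℝ := (p.J₂ : ℝ) - p.J₁ + R + 2 with hΔ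
  have hΔ0 : 0 < Δ := by rw [hΔ]; linarith
  have ht : Tendsto (fun y : ℝ => y ^ j₀) atTop atTop := tendsto_pow_atTop (by omega)
  set N : ℝ := 18 * (19 * (p.J₁ + 1) : ℕ) + 4 * ((p.J₂ + 1) ^ 2 : ℕ) with hN
  filter_upwards [ht.eventually h1, ht.eventually (h2 2 le_rfl (by norm_num)),
    ht.eventually (h2 3 (by norm_num) (by norm_num)), ht.eventually (h2 4 (by norm_num) le_rfl),
    eventually_ge_atTop 3,
    ht.eventually (eventually_ge_atTop (N / (R * Δ / (2 ^ k * j₀))))] with y g1 g2 g3 g4 hy g5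
  intro Z hZ1 hZ
  have hc : 0 ≤ C / 2 ^ k := by positivity
  have hK0 : 0 ≤ K * (Δ / j₀) := by positivity
  have hkk := fun a => hk p y j₀ R a hJ hj hy
  have a1 := part1 hX hD hp hj hg hy (B := max B 256) (by omega) hc hK0 g1 hkk hZ1 hZ
  have a2 := part2 hX hD hp hj hg hy (le_max_right B 256) hc hK0
    (fun b k => (hb y b (by linarith) k).trans (by exact_mod_cast le_max_left B 256))
    (fun j k1 k2 => by
      interval_cases j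
      · exact g2
      · exact g3
      · exact g4) hkk hZ1 hZ
  obtain ⟨a3, a4⟩ := he y j₀ (p.J₂ + 1) R (by linarith) hj hR1 (by omega)
  have e : p.TI y j₀ R Z - p.TI y j₀ R 1 =
      ∑ S ∈ (PP y j₀ (p.J₂ + 1)).powerset, ((p.y0 (im y S) - p.yY (im y S) : ℤ) : ℝ) *
        (F p y j₀ R Z (im y S).sum (∏ π ∈ S, π) - F p y j₀ R 1 (im y S).sum (∏ π ∈ S, π)) +
      2 * ∑ S ∈ (PP y j₀ (p.J₂ + 1)).powerset, (p.yV (im y S) : ℝ) *
        (F p y j₀ R Z (im y S).sum (∏ π ∈ S, π) - F p y j₀ R 1 (im y S).sum (∏ π ∈ S, π)) := by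
    rw [Par.TI, Par.TI, ← sum_sub_distrib, mul_sum, ← sum_add_distrib]
    refine sum_congr rfl fun S _ => ?_
    rw [Par.yy, F, F]
    push_cast
    ring
  have hz : 0 < y ^ j₀ := by positivity
  have hQ : 0 < R * Δ / (2 ^ k * j₀) := by positivity
  have a5 : N * (1 / y ^ j₀) ≤ R * Δ / (2 ^ k * j₀) := by
    rw [div_le_iff₀ hQ] at g5
    rw [mul_one_div, div_le_iff₀ hz]
    linarith
  have a6 := mul_le_mul_of_nonneg_left a3 (mul_nonneg hc hK0)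
  have a7 := mul_le_mul_of_nonneg_left a4 (mul_nonneg hc hK0)
  have a8 : C / 2 ^ k * (K * (Δ / j₀)) * (E * R) = C * K * E * (R * Δ / (2 ^ k * j₀)) := by
    field_simp
  have a9 : (C + 22 * (C * K * E) + 1) * R * Δ / (2 ^ k * j₀) =
      (C + 22 * (C * K * E) + 1) * (R * Δ / (2 ^ k * j₀)) := by ring
  have a10 := mul_pos hC hQ
  rw [e, a9]
  refine (abs_add_le _ _).trans ?_
  rw [abs_mul, abs_two]
  rw [hN] at a5
  linarith

end

end Pool.Agent.Lib.MP_4b1228_nt.GS
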