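import Pool.Agent.Lib.MP_4b1228_nt.GS.St3
import Pool.Agent.Lib.MP_4b1228_nt.GS.TI
import Pool.Agent.Lib.MP_4b1228_nt.GS.T3

/-! All sums of the first type, and the exceptional sets, for general weights. -/

namespace Pool.Agent.Lib.MP_4b1228_nt.GS

open Finset Filter Topology Pool.Agent.Lib.MP_9d27bc_nt.C Pool.Agent.Lib.MP_9d27bc_nt.C.Two
open scoped Classical

noncomputable section

namespace TIG

lemma small {J : ℕ} {M : Multiset ℕ} (h1 : ∀ x ∈ M, 1 ≤ x) (h2 : M.sum < J) :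
    M ≤ J • Multiset.range J := by
  refine Multiset.le_iff_count.2 fun x => ?_
  by_cases hx : x ∈ M
  · have a1 : x ≤ M.sum := Multiset.single_le_sum (fun _ _ => Nat.zero_le _) x hx
    have a2 : M.card • 1 ≤ M.sum := Multiset.card_nsmul_le_sum h1
    have a3 := Multiset.count_le_card x M
    rw [Multiset.count_nsmul, Multiset.count_eq_one_of_mem (Multiset.nodup_range J)
      (Multiset.mem_range.2 (by omega))]
    rw [smul_eq_mul] at a2
    omega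
  · rw [Multiset.count_eq_zero_of_notMem hx]
    exact Nat.zero_le _

lemma im_ge (hX : Box) {y : ℝ} (hy : 1 < y) {j J : ℕ} {S : Finset GI} (h : S ⊆ PP y j J) :
    ∀ x ∈ im y S, j ≤ x := fun x hx => by
  obtain ⟨p, hp, rfl⟩ := Multiset.mem_map.1 hx
  exact (hX.ix_PP y j J p hy (h hp)).1

lemma T_le {s : Sv} (h : ∀ M, |s.yy M| ≤ 100) (M : Multiset ℕ) : |s.T M| ≤ 100 * 2 ^ M.card := by
  have a1 : |s.T M| ≤ (M.powerset.map fun N => |s.yy N|).sum := by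
    have := Multiset.abs_sum_le_sum_abs (s := M.powerset.map s.yy)
    rwa [Multiset.map_map] at this
  have a2 := Multiset.sum_le_card_nsmul (M.powerset.map fun N => |s.yy N|) 100 fun x hx => by
    obtain ⟨N, -, rfl⟩ := Multiset.mem_map.1 hx
    exact h N
  rw [Multiset.card_map, Multiset.card_powerset, nsmul_eq_mul] at a2
  push_cast at a2
  linarith

lemma split {y : ℝ} {τ : ℕ} {S : Finset GI} (h : Exc τ (im y S)) :
    ∃ A B : Finset GI, Disjoint A B ∧ A ∪ B = S ∧ τ ≤ (im y A).sum ∧ τ ≤ (im y B).sum ∧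
      (im y A).sum + (im y B).sum = (im y S).sum := by
  obtain ⟨A, B, e, hA, hB⟩ := h
  obtain ⟨a, b, h1, h2, h3⟩ := T3.split_map (ix y) _ _ _ e
  have hn : (a + b).Nodup := h1 ▸ S.nodup
  obtain ⟨na, nb, d⟩ := Multiset.nodup_add.1 hn
  have d' : Disjoint (⟨a, na⟩ : Finset GI) ⟨b, nb⟩ := Finset.disjoint_val.1 d
  refine ⟨⟨a, na⟩, ⟨b, nb⟩, d', ?_, ?_, ?_, ?_⟩
  · rw [← disjUnion_eq_union _ _ d']
    exact Finset.val_injective h1.symm
  · exact hA.trans_eq (congrArg Multiset.sum h2.symm)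
  · exact hB.trans_eq (congrArg Multiset.sum h3.symm)
  · rw [e, Multiset.sum_add, ← h2, ← h3]
    rfl

/-- the sum over pairs is at most the mean value -/
lemma pairs (hB : Bas) {ι : Type} (S : Finset ι) (v : ι → GI) {Z : ℕ} (hZ : 1 ≤ Z)
    (hne : ∀ i ∈ S, v i ≠ 0) :
    ∑ w ∈ S ×ˢ S, ww Z (v w.1 * v w.2) ≤ ∑ t ∈ fr Z, ‖hat S v t‖ ^ 2 := by
  have h6 := hB.expand _ (S ×ˢ S) (fun w => v w.1 * v w.2) Z hZ
    fun w hw => mul_ne_zero (hne _ (mem_product.1 hw).1) (hne _ (mem_product.1 hw).2)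
  rw [hB.D0_mul] at h6
  simp only [hB.hat_mul, ← sq, norm_pow] at h6
  have e0 : ‖hat S v 0‖ = D0 S v := by
    have : hat S v 0 = (D0 S v : ℝ) := by
      simp only [hat, D0, hB.xi_zero]
      push_cast
      rfl
    rw [this, Complex.norm_real, Real.norm_of_nonneg (TI.D0_nonneg S v)]
  have h0 : (0 : ℤ) ∈ fr Z := mem_Icc.2 ⟨by omega, by omega⟩
  rw [← add_sum_erase _ _ h0, e0]
  have h7 := (abs_le.1 h6).2
  simp only [fz] at h7
  linarith

end TIG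

open TIG in
theorem tiG (hB : Bas) (hX : Box) : TIG := by
  obtain ⟨K, hK, hk⟩ := TI.kb hB
  obtain ⟨E, hE, he⟩ := hX.exp_PP
  refine ⟨200 * K * E, by positivity, fun s η ε j₀ R g₀ hs hη hε hj hR hv => ?_⟩
  obtain ⟨-, -, hJ, -, hy100, hz0, -⟩ := hs
  have hR1 : 1 ≤ R := by
    rcases Nat.eq_zero_or_pos R with rfl | k
    · omega
    · exact k
  have hJ' : (s.J₁ : ℝ) ≤ s.J₂ := by exact_mod_cast hJ
  have hR' : (0 : ℝ) ≤ R := Nat.cast_nonneg R
  set Δ : ℝ := (s.J₂ : ℝ) - s.J₁ + R + 2 with hΔ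
  have hΔ0 : 0 < Δ := by rw [hΔ]; linarith
  set G : Finset (Multiset ℕ) := (s.J₁ • Multiset.range s.J₁).powerset.toFinset.filter
    fun M => s.yy M ≠ 0 ∧ ∀ x ∈ M, j₀ ≤ x with hG'
  set δ : ℝ := ε / (200 * #G + 1) with hδ
  have hδ0 : 0 < δ := by positivity
  filter_upwards [(eventually_all_finset G).2 fun M hM =>
    hv M (mem_filter.1 hM).2.1 (mem_filter.1 hM).2.2 δ hδ0, eventually_ge_atTop 3] with y g1 hy
  intro Z hZ1 hZ
  have hy1 : 1 < y := by linarith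
  set U := (PP y j₀ (s.J₂ + 1)).powerset with hU
  have e : ∀ W : ℕ, s.TI y j₀ R W = ∑ M ∈ G, s.yy M * AA (y ^ j₀) W (FM y j₀ (s.J₂ + 1) M)
      (fun S => ∏ π ∈ S, π) (pA s.J₁ y M.sum) (pB s.J₂ y R M.sum) := by
    intro W
    rw [Sv.TI, ← sum_filter_of_ne (p := fun S => im y S ∈ G), ← sum_fiberwise_of_maps_to
      (g := im y) (t := G) fun S hS => (mem_filter.1 hS).2]
    · refine sum_congr rfl fun M hM => ?_
      rw [AA, mul_sum, filter_filter]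
      refine sum_congr (filter_congr fun S _ => ⟨fun h => h.2, fun h => ⟨h ▸ hM, h⟩⟩)
        fun S hS => ?_
      rw [(mem_filter.1 hS).2]
    · intro S hS h
      have h1 := left_ne_zero_of_mul h
      have h2 := im_ge hX hy1 (mem_powerset.1 hS)
      refine mem_filter.2 ⟨Multiset.mem_toFinset.2 (Multiset.mem_powerset.2
        (small (fun x hx => hj.trans (h2 x hx)) ?_)), h1, h2⟩
      exact not_le.1 fun c => h1 (hz0 _ c)
  have hb : ∀ M ∈ G, |s.yy M * AA (y ^ j₀) Z (FM y j₀ (s.J₂ + 1) M)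
      (fun S => ∏ π ∈ S, π) (pA s.J₁ y M.sum) (pB s.J₂ y R M.sum) -
      s.yy M * AA (y ^ j₀) 1 (FM y j₀ (s.J₂ + 1) M)
      (fun S => ∏ π ∈ S, π) (pA s.J₁ y M.sum) (pB s.J₂ y R M.sum)| ≤
      200 * (η * (K * (Δ / j₀)) * D0 (FM y j₀ (s.J₂ + 1) M) (fun S => ∏ π ∈ S, π) + δ) := by
    intro M hM
    have k := TI.close (g1 M hM Z hZ1 hZ)
      (g1 M hM 1 le_rfl (by rw [Nat.cast_one]; exact one_le_pow₀ hy1.le)) (mul_assoc _ _ _)
      (hk ⟨0, 0, 0, 0, 0, 0, 0, 0, s.J₁, s.J₂⟩ y j₀ R M.sum hJ hj hy) hη (TI.D0_nonneg _ _)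
    rw [← mul_sub, abs_mul]
    refine (mul_le_mul (hy100 M) k (abs_nonneg _) (by norm_num)).trans (le_of_eq ?_)
    ring
  have s1 : ∑ M ∈ G, D0 (FM y j₀ (s.J₂ + 1) M) (fun S => ∏ π ∈ S, π) ≤ E * R := by
    refine le_trans ?_ (he y j₀ (s.J₂ + 1) R (by linarith) hj hR1 (by omega)).1
    unfold D0 FM
    rw [sum_fiberwise_eq_sum_filter]
    exact sum_le_sum_of_subset_of_nonneg (filter_subset _ _) fun _ _ _ => by positivity
  have s2 : 200 * (#G * δ) ≤ ε := by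
    rw [hδ, ← mul_div_assoc, ← mul_div_assoc, div_le_iff₀ (by positivity)]
    nlinarith
  rw [e, e, ← sum_sub_distrib]
  refine (abs_sum_le_sum_abs _ _).trans ((sum_le_sum hb).trans ?_)
  rw [← mul_sum, sum_add_distrib, ← mul_sum, sum_const, nsmul_eq_mul, mul_add]
  have s3 := mul_le_mul_of_nonneg_left s1 (show 0 ≤ η * (K * (Δ / j₀)) by positivity)
  have s4 : 200 * K * E * η * R * Δ / j₀ = 200 * (η * (K * (Δ / j₀)) * (E * R)) := by ring
  rw [s4]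
  linarith

open TIG in
theorem exG (hB : Bas) (hX : Box) (hD : Dv) (h : MVSt) : ExG := by
  obtain ⟨c, C, hC, h⟩ := h
  refine ⟨c, 100 * C, by positivity, fun s j₀ R g₀ hs hj hR hg => ?_⟩
  obtain ⟨-, hτ, hJ, -, hy100, -⟩ := hs
  obtain ⟨n, hn⟩ : ∃ n, s.J₂ + R = 2 * s.τ + n := ⟨s.J₂ + R - 2 * s.τ, by omega⟩
  have ht : Tendsto (fun y : ℝ => y ^ j₀) atTop atTop := tendsto_pow_atTop (by omega)
  filter_upwards [ht.eventually (h (s.τ + n) 1), eventually_ge_atTop (Real.exp 1)]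
    with y h1 hy Z hZ hZy
  have hy2 := T3.exp_two y hy
  have hy1 : 1 < y := by linarith
  set F := {A ∈ (PP y j₀ (s.J₂ + 1)).powerset |
    s.τ ≤ (im y A).sum ∧ (im y A).sum + s.τ ≤ s.J₂} with hF
  have hn' : ∀ A ∈ F, y ^ s.τ ≤ nm (∏ π ∈ A, π) ∧ (nm (∏ π ∈ A, π) : ℝ) ≤ y ^ (s.τ + n) ∧
      Rough (y ^ j₀) (nm (∏ π ∈ A, π)) := by
    intro A hA
    obtain ⟨a1, a2, a3⟩ := mem_filter.1 hA
    obtain ⟨k1, k2, k3, k4⟩ := hX.nm_set y j₀ _ A hy1 (mem_powerset.1 a1)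
    have : #A ≤ R := Nat.le_of_mul_le_mul_left (k3.trans (by rw [mul_comm]; omega)) hj
    exact ⟨(pow_le_pow_right₀ hy1.le a2).trans k1,
      k2.trans (pow_le_pow_right₀ hy1.le (by omega)), k4⟩
  have h3 := h1 _ F (fun A => ∏ π ∈ A, π) Z (y ^ s.τ) (y ^ (s.τ + n))
    (fun x => (card_le_card (filter_subset_filter _ (filter_subset _ _))).trans
      (hD.mult_set y j₀ _ hy1 x)) hZ
    (T3.pow_le y hy1.le j₀ c g₀ s.τ Z hg hZy) (pow_le_pow_right₀ hy1.le (by omega))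
    (TI.np_le hy1.le hj le_rfl) hn'
  have h4 := pairs hB F (fun A => ∏ π ∈ A, π) hZ fun A hA => by
    rw [hB.nm_pos]
    exact_mod_cast (one_le_pow₀ hy1.le).trans (hn' A hA).1
  obtain ⟨r1, r2⟩ := T3.ratio y hy j₀ n s.τ hj
  have e2 : (n : ℝ) + 1 ≤ (s.J₂ : ℝ) - 2 * s.τ + R + 2 := by
    have : ((s.J₂ + R : ℕ) : ℝ) = (2 * s.τ + n : ℕ) := by rw [hn]
    push_cast at this
    linarith
  have h8 : C * (((1 : ℕ) : ℝ) * (1 + Real.log (y ^ (s.τ + n) / y ^ s.τ)) / Real.log (y ^ j₀)) ^ 2 ≤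
      C * (((s.J₂ : ℝ) - 2 * s.τ + R + 2) / j₀) ^ 2 := by
    rw [Nat.cast_one, one_mul]
    exact mul_le_mul_of_nonneg_left (pow_le_pow_left₀ r1 (r2.trans (by gcongr)) 2) hC.le
  set D := {w ∈ F ×ˢ F | Disjoint w.1 w.2} with hD'
  have h9 : ∑ S ∈ D.image fun w => w.1 ∪ w.2, ww Z (∏ π ∈ S, π) ≤
      ∑ w ∈ F ×ˢ F, ww Z ((∏ π ∈ w.1, π) * ∏ π ∈ w.2, π) := by
    refine (sum_image_le_of_nonneg fun _ _ => hB.ww_nonneg _ _).trans ?_
    rw [sum_congr rfl fun w hw => by rw [prod_union (mem_filter.1 hw).2]]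
    exact sum_le_sum_of_subset_of_nonneg (filter_subset _ _) fun _ _ _ => hB.ww_nonneg _ _
  have h10 : (s.sc y j₀ Z fun M => if Exc s.τ M then |s.T M| else 0) ≤
      100 * 2 ^ R * ∑ S ∈ D.image fun w => w.1 ∪ w.2, ww Z (∏ π ∈ S, π) := by
    rw [Sv.sc, mul_sum]
    simp only [ite_mul, zero_mul]
    rw [← sum_filter]
    refine (sum_le_sum (g := fun S => 100 * 2 ^ R * ww Z (∏ π ∈ S, π)) fun S hS => ?_).trans
      (sum_le_sum_of_subset_of_nonneg (fun S hS => ?_) fun _ _ _ =>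
        mul_nonneg (by positivity) (hB.ww_nonneg _ _))
    · obtain ⟨a1, a2, a3⟩ := mem_filter.1 (mem_filter.1 hS).1
      have k3 := (hX.nm_set y j₀ _ S hy1 (mem_powerset.1 (mem_filter.1 a1).1)).2.2.1
      have k4 : #S ≤ R := Nat.le_of_mul_le_mul_left (k3.trans (by rw [mul_comm]; omega)) hj
      refine mul_le_mul_of_nonneg_right ((T_le hy100 _).trans ?_) (hB.ww_nonneg _ _)
      rw [show (im y S).card = #S from Multiset.card_map _ _]
      gcongr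
      norm_num
    · obtain ⟨b1, b2⟩ := mem_filter.1 hS
      obtain ⟨a1, a2, a3⟩ := mem_filter.1 b1
      have a4 := mem_powerset.1 (mem_filter.1 a1).1
      obtain ⟨A, B, d, rfl, c1, c2, c3⟩ := split b2
      have c4 : (im y A).sum + s.τ ≤ s.J₂ := by omega
      have c5 : (im y B).sum + s.τ ≤ s.J₂ := by omega
      exact mem_image.2 ⟨(A, B), mem_filter.2 ⟨mem_product.2
        ⟨mem_filter.2 ⟨mem_powerset.2 (subset_union_left.trans a4), c1, c4⟩,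
          mem_filter.2 ⟨mem_powerset.2 (subset_union_right.trans a4), c2, c5⟩⟩, d⟩, rfl⟩
  refine h10.trans ?_
  rw [show 100 * C * 2 ^ R * (((s.J₂ : ℝ) - 2 * s.τ + R + 2) / j₀) ^ 2 =
    100 * 2 ^ R * (C * (((s.J₂ : ℝ) - 2 * s.τ + R + 2) / j₀) ^ 2) by ring]
  exact mul_le_mul_of_nonneg_left (h9.trans (h4.trans (h3.trans h8))) (by positivity)

end

end Pool.Agent.Lib.MP_4b1228_nt.GS
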