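import Pool.Agent.Lib.MP_4b1228_nt.GS.Abel
import Pool.Agent.Lib.MP_4b1228_nt.GS.AbsA
import Pool.Agent.Lib.MP_4b1228_nt.GS.AbsB
import Pool.Agent.Lib.MP_4b1228_nt.GS.Ar
import Pool.Agent.Lib.MP_4b1228_nt.GS.Asy
import Pool.Agent.Lib.MP_4b1228_nt.GS.All
import Pool.Agent.Lib.MP_4b1228_nt.GS.GdG
import Pool.Agent.Lib.MP_4b1228_nt.GS.HL
import Pool.Agent.Lib.MP_4b1228_nt.GS.IDG
import Pool.Agent.Lib.MP_4b1228_nt.GS.LV
import Pool.Agent.Lib.MP_4b1228_nt.GS.Main2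
import Pool.Agent.Lib.MP_4b1228_nt.GS.Mom
import Pool.Agent.Lib.MP_4b1228_nt.GS.PW2
import Pool.Agent.Lib.MP_4b1228_nt.GS.SD
import Pool.Agent.Lib.MP_4b1228_nt.GS.Sign2
import Pool.Agent.Lib.MP_4b1228_nt.GS.Str2
import Pool.Agent.Lib.MP_4b1228_nt.GS.T2
import Pool.Agent.Lib.MP_4b1228_nt.GS.T3P
import Pool.Agent.Lib.MP_4b1228_nt.GS.TIG

/-!
All blocks of the second version together.
-/

namespace Pool.Agent.Lib.MP_4b1228_nt.GS

theorem cW : PW2St := pw2 bas abel (vc abel) (sd abel)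
theorem cM : MomSt := mom bas bL (lv bas bS cW)
theorem cH : HLSt := hl bas flq (den bas) bS cW bU
theorem cT : T2St := t2 bas (tc bas flq (den bas)) (eb2 bas bS bL cW)
theorem cV : VisSt := visS bas bX bD bT cT cM
theorem cA : AsySt := asy (t3 bas bX bD bM bP) (t3p bas bX bD cM cH bP)
theorem cC : CoreG :=
  coreG bas (coG (tiG bas bX) (idG bas bX bD) bN bU) (exG bas bX bD bM)
    (gdG bas bX (tup bas bX bD) bN) (bdG bas bX (tup bas bX bD) bN mert)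

theorem all2 (h : Cert2St) (θ : ℝ) (hθ : 1 / 12 < θ) : FinSt2 θ :=
  fin2 bX (ext bas bX) (fam bas bX) θ (main2 cC cV cA sign2 h θ hθ)

end Pool.Agent.Lib.MP_4b1228_nt.GS
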