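import Pool.Agent.Lib.MP_9d27bc_nt.C.GB
import Pool.Agent.Lib.MP_9d27bc_nt.C.Cnt
import Pool.Agent.Lib.MP_9d27bc_nt.C.Mer
import Pool.Agent.Lib.MP_9d27bc_nt.C.TwoBasA
import Pool.Agent.Lib.MP_9d27bc_nt.C.TwoKer
import Pool.Agent.Lib.MP_9d27bc_nt.C.TwoSep
import Pool.Agent.Lib.MP_9d27bc_nt.C.TwoNu
import Pool.Agent.Lib.MP_9d27bc_nt.C.TwoSh
import Pool.Agent.Lib.MP_9d27bc_nt.C.TwoE1

/-! Tools on Gaussian integers that are already proved. -/

namespace Pool.Agent.Lib.MP_4b1228_nt.GS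

open Pool.Agent.Lib.MP_9d27bc_nt.C Pool.Agent.Lib.MP_9d27bc_nt.C.Two

theorem hG : GBStmt := gb
theorem hC : CntStmt := cnt gb
theorem hM : MerStmt := mer gb
theorem hA : BasA := basA gb hC
theorem hK : KerS := kerS
theorem hS : SepStmt := sepS hA hK
theorem hNu : NuStmt := nus gb hA
theorem hSh : ShStmt := sh hA
theorem hE1 : E1Stmt := e1 gb hA hSh

end Pool.Agent.Lib.MP_4b1228_nt.GS
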