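import Pool.Agent.Lib.MP_4b1228_nt.GS.Cert0

/-!
Kernel computation of the bound for the loss, second version.
-/

namespace Pool.Agent.Lib.MP_4b1228_nt.GS.Cert

theorem c4 : Nat.ble (go qq false 3 64
    0x00179797806e056214838d791417805965070847b8c1ae15aa51609419a11d6101b2116994758c1c435be51fc3652526a36c252da300076765e3f2535015e330176765e5e5e3d255e36613ea55e34e13fc55e33815e3c8537e15e31613ce33e635e2fe139415e2e01418500765e5e6e5e5e37815e3ca55e36813e253fa55e348140a5388176765e6e5e5e37a15e3ca55e36c13e253fa540a55e338138815e3b453b435e328141c517979797978f19578df8578ef94f694e48578da84f91578d804fc157978fc14d58578ec14ec0ce70578c4840fb157979039578fb14d7045e5e5e5e5e3de537e1178df84f314e905797978f794df845e37e13cc53a433f2540255e5e40e55e3ec535a15e3a653a631797978fa94df045e37c13d255e5e5e38813e256e3701178df04f494e80d0095b978fa94d60578e894e88d78c404ea8d78bc850c95783d852cc11d9797904950994da8578ce057979b8e085b8f714e485b8f315b8d985b8f115b8ee95b8d70578d404ff95b8c185b80db84342139c53ae5179790b94db85b90315b8fb15b8cc05b8f695b8c785b86e034c139c537210ce84e894f114e38d783c452e815e0000e79438a329413aa5396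32a013b453e852c4139c345053b836e0000022213a8508604e40ceb141f813a033c0507984ea0c0240138c508a84e6141d013b033ca53f0525813f0347a505e1790c9578d4051695b90815b8c885b9b80d7040db04de0c03783380533a139e53b453f655e5e6e43256e6e0e694e914fd151494036413865038653481396537436e00de0ce214f114bd0579b91595b90495b80d284e694eb940d9040d80cd684e195b9b9b839a50d80ce994ed94c284da8d1e1579792495b91c95b90d15b80d284e6940d38c0d00cd20ce314ed95b9b9b80d20ce814ed94fd94c605b9b80cc8ceb14fb94ce8cd58d2c945e5e4d256e498503263031a332031b803465308339a50cd94c30431e531633b0550c55e5e52a56e4e056e00d894be0c35653a456e037c539e50db14bb8c34853b85302332c305e5e2b016e32c36e28614f656e48e56e23416e6e6e6e037436e030832861032030960431c327010bf8c254133a300234135a30d08c21e137430ce8c92842f4308284f214a304f3141f2107104f814fd154a940a68437836e0e715b83aa50a485b83aa50a484d38c00de9433a30cd8c3765292134e3034630d00cda94e394aa84dc8db800ab8436c50c58cb084e01402f230e314b2842e430b80c37c50dd942ba1302339c56e0a6840e11431430a484e715b9b83aa529a10a48439c531030bd0c38052aa132c3037830026a10e994cd0c394509684d20c035e30df149a8436a50d38c25a10d20ce394035e30e99490043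9450d38c34830e394950422e137030c88c310327c100a584322335e5032030a904d69402ce134650cb8c2b810ca0c2b2135050a28431630c20c27c136450cf1422010c9141fc13b852da1380342835e6e6e0e9142b413c6552251b9b812a1445e5276327c30fc153394a88db979785e5e5e0928d4d9578250314c147b84980c81841d6154c526a36e6e0013414131149705361538140484525c14b254ea527835e5e0226125a307f849d0d785e09a8c8b8420c127436e023c16e04d0508c849e0c04e8525c31341404d4504d25087844ce525634e65232126a36e00888426032361087849d8c24c34c254ee5004d850958c9a8c4c254ee52161280300968c4ea52743131947e853f1404f450988c9d0c4dc51ea150e502341008d85379421e14fa504fa507d047e844d2524236e023410978c230127a30948c21214ac56e024a127a309c0c2341496525010260313a947584a38d4894a88db9b811e149d8c26e311994256128630ff941fc147c526a1178001d6115494890c216356055e5e15914890c21c31569473041b8106c0478855b947b8401e011f410148941481451c5206121c100888540140890c504522a313c142121510507c041e41536500530507f854e9482040848451650840549941ee114214888c1d6154650056451d8101e811f83154947e041ca114c14840c4ea507b8c1a810780c4ce523430e094b68d5d9405e5e5e5e5e5e0330305d052494312305104d40c12014b650bd0c10c14cc503c85399444c538035065179797979797979797820a35a8507c0c15615dc506e8c120160450698c10c161c522635e024c305d055c1414010898d63949d0c05d04274353855e1681421830f212a2363a5678504e0505b842a2350652da36c255e6e017813ac305404f78c39430f79434a3428505e11314380350655e5e166142343652515d14b68c5e12f1431235e4507f0c1605b09442850d41428318e14bc1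
    (root qq 2)).1 26551319172 = true := by
  decide +kernel

end Pool.Agent.Lib.MP_4b1228_nt.GS.Cert
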