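import Pool.Agent.Lib.MP_4b1228_nt.GS.Cert3
import Pool.Agent.Lib.MP_4b1228_nt.GS.CertA
import Pool.Agent.Lib.MP_4b1228_nt.GS.CertB
import Pool.Agent.Lib.MP_4b1228_nt.GS.CertC
import Pool.Agent.Lib.MP_4b1228_nt.GS.CertD

/-!
The certificate exists.
-/

namespace Pool.Agent.Lib.MP_4b1228_nt.GS

namespace Cert

theorem qq_OK : qq.OK := by
  simp [Pq.OK, qq]

/-- the bounds -/
def vv (r : ℕ) : ℕ := [0, 0, 0, 886107142857, 26551319172, 108829679343, 64760947829, 1454851127,
  745297502, 47271776, 635507].getD r 0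

end Cert

open Cert in
theorem cert2 (h1 : Sign2St) (h2 : Str2St) : Cert2St := by
  have a : 12 * qq.g ≤ 5 * qq.J₁ := by decide
  have a' : 65 ≤ qq.g := by decide
  refine ⟨qq, qq_OK, by decide, by decide, by decide,
    loss_of h2 qq_OK vv (fun r hr => ?_) (by decide)⟩
  obtain ⟨b1, b2⟩ := Finset.mem_Icc.1 hr
  interval_cases r
  · have b := root_ok h1 qq_OK a a' 1 2 rfl true (by decide) c3
    exact b
  · have b := root_ok h1 qq_OK a a' 2 3 rfl false (by decide) c4
    exact b
  · have b := root_ok h1 qq_OK a a' 3 4 rfl true (by decide) c5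
    exact b
  · have b := root_ok h1 qq_OK a a' 4 5 rfl false (by decide) c6
    exact b
  · have b := root_ok h1 qq_OK a a' 5 6 rfl true (by decide) c7
    exact b
  · have b := root_ok h1 qq_OK a a' 6 7 rfl false (by decide) c8
    exact b
  · have b := root_ok h1 qq_OK a a' 7 8 rfl true (by decide) c9
    exact b
  · have b := root_ok h1 qq_OK a a' 8 9 rfl false (by decide) c10
    exact b

end Pool.Agent.Lib.MP_4b1228_nt.GS
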