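import Pool.Agent.Lib.MP_4b1228_nt.GS.St

/-!
The checker of the loss: boxes of integer intervals, bisection along a code.
-/

namespace Pool.Agent.Lib.MP_4b1228_nt.GS.Loss

noncomputable section

/-- an interval -/
abbrev IV := ℕ × ℕ

/-- sum of the lower ends -/
def sL (B : List IV) : ℕ := List.rec 0 (fun I _ r => Nat.add I.1 r) B

/-- sum of the upper ends -/
def sH (B : List IV) : ℕ := List.rec 0 (fun I _ r => Nat.add I.2 r) B

/-- visibility -/
def visB (q : Par) (u b : ℕ) : Bool :=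
  Nat.ble q.u₂ u && (Nat.ble q.b₂ b || (Nat.ble q.u₃ u && (Nat.ble q.b₃ b ||
    (Nat.ble q.u₄ u && Nat.ble q.b₄ b))))

/-- number of visible members -/
def cnt (q : Par) (f g : IV → ℕ) (D : List IV) : ℕ :=
  List.rec 0 (fun I _ r => bif visB q (f I) (g I) then Nat.succ r else r) D

/-- surely good -/
def gd (q : Par) (l : List IV) : ℕ → ℕ → Bool :=
  List.rec (fun _ _ => false) (fun I _ r cl ch =>
    (Nat.ble (Nat.add I.2 ch) q.J₁ &&
      (Nat.ble q.g (Nat.add I.1 cl) || r (Nat.add I.1 cl) (Nat.add I.2 ch))) || r cl ch) l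

/-- sum over all sublists -/
def enum (f : ℕ → ℕ → ℕ → List IV → ℕ) (l : List IV) : ℕ → ℕ → ℕ → List IV → ℕ :=
  List.rec (fun k cl ch D => f k cl ch D) (fun I _ r k cl ch D =>
    Nat.add (r k cl ch D) (r (Nat.succ k) (Nat.add I.1 cl) (Nat.add I.2 ch) (I :: D))) l

/-- the value of the negative correction -/
def val (three : Bool) (c : ℕ) : ℕ :=
  Nat.mul 2 (bif three then (bif Nat.ble c 1 then 1 else c) else c)

/-- negative correction without the largest member -/
def ya (q : Par) (k DL DH : ℕ) (I : IV) (D : List IV) : ℕ :=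
  bif Nat.ble q.τ DH && (Nat.blt DL (Nat.add q.g I.1) && (Nat.ble 3 k && Nat.ble k 4)) then
    val (Nat.ble k 3) (cnt q (fun I => Nat.sub DH I.2) (fun I => I.2) D) else 0

/-- negative correction with the largest member -/
def yc (q : Par) (XH PH k DL DH : ℕ) (I : IV) (D : List IV) : ℕ :=
  bif Nat.ble q.τ (Nat.add PH DL) && (Nat.blt (Nat.add q.J₁ DH) (Nat.add (Nat.add q.g I.2) XH) &&
      (Nat.ble 2 k && Nat.ble k 3)) then
    val (Nat.ble k 2) (Nat.add (bif visB q DH PH then 1 else 0)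
      (cnt q (fun I => Nat.sub (Nat.add PH DL) I.1) (fun I => I.2) D)) else 0

/-- both -/
def yb (q : Par) (XH PH k DL DH : ℕ) (D : List IV) : ℕ :=
  List.rec 0 (fun I _ _ => Nat.add (ya q k DL DH I D) (yc q XH PH k DL DH I D)) D

/-- odd subsets in the window -/
def wn (q : Par) (od : Bool) (ml mh XH PH k cl ch : ℕ) : ℕ :=
  bif (bif Nat.beq (Nat.mod k 2) 1 then
      Nat.ble q.τ (Nat.add mh ch) && (Nat.blt cl q.τ &&
        (od || Nat.ble (Nat.add (Nat.add ml cl) q.τ) q.J₂))
    else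
      Nat.blt (Nat.add q.J₁ ch) (Nat.add q.τ XH) && (Nat.ble q.τ (Nat.add PH (Nat.add ml cl)) &&
        (od || Nat.ble (Nat.add q.τ (Nat.add mh ch)) XH))) then 1 else 0

/-- the term of one sublist -/
def tm (q : Par) (od : Bool) (I : IV) (XH PH : ℕ) (k cl ch : ℕ) (D : List IV) : ℕ :=
  Nat.add (wn q od I.1 I.2 XH PH k cl ch) (Nat.add (yb q XH PH k cl ch D)
    (yb q XH PH (Nat.succ k) (Nat.add I.1 cl) (Nat.add I.2 ch) (I :: D)))

/-- sure rows -/
def rows (q : Par) (XL XH : ℕ) (B : List IV) : ℕ :=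
  bif Nat.ble (Nat.add q.g XH) q.J₁ && Nat.blt q.J₂ (Nat.add q.τ XL) then
    cnt q (fun I => Nat.sub (Nat.add (Nat.sub XL I.1) q.J₁) q.J₂) (fun I => I.1) B else 0

/-- the largest member is too small -/
def dead (q : Par) (XL : ℕ) (l : List IV) : Bool :=
  List.rec false (fun I _ _ => Nat.blt q.J₂ (Nat.add XL I.1)) l

/-- reversal -/
def rev (l : List IV) : List IV → List IV := List.rec (fun a => a) (fun I _ r a => r (I :: a)) l

/-- the bound for the loss on a box -/
def ev (q : Par) (od : Bool) (I : IV) (l : List IV) (XL XH : ℕ) : ℕ :=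
  bif dead q XL l || gd q l 0 (Nat.add q.g I.2) then 0 else
    Nat.sub (enum (tm q od I XH (Nat.sub q.J₂ XL)) l 0 0 0 []) (Nat.mul 2 (rows q XL XH (I :: l)))

/-- numerator of the weight -/
def nu (B : List IV) : ℕ :=
  List.rec 1 (fun I _ r => Nat.mul (Nat.mul (Nat.sub I.2 I.1) (Nat.succ (Nat.add I.2 I.1))) r) B

/-- denominator of the weight -/
def de (B : List IV) : ℕ := List.rec 1 (fun I _ r => Nat.mul (Nat.mul 2 (Nat.mul I.1 I.2)) r) B

/-- the weighted bound -/
def wv (q : Par) (T ml XH : ℕ) (B : List IV) : ℕ :=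
  bif Nat.ble T 0 then 0 else
    Nat.succ (Nat.div (Nat.mul (Nat.mul (Nat.mul T q.J₂) 1099511627776) (nu B))
      (Nat.mul (bif Nat.ble (Nat.add XH ml) q.J₁ then Nat.sub q.J₁ XH else ml) (de B)))

/-- the value of a leaf -/
def leaf (q : Par) (od : Bool) (B : List IV) : ℕ :=
  List.rec 0 (fun I l _ => wv q (ev q od I (rev l []) (sL B) (sH B)) I.1 (sH B) B) B

/-- lower half of a box -/
def setHi (c : ℕ) (B : List IV) : ℕ → List IV :=
  List.rec (fun _ => []) (fun I B' r i =>
    (I.1, bif Nat.ble I.2 c then I.2 else c) :: Nat.rec B' (fun j _ => r j) i) B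

/-- raise all lower ends -/
def up (c : ℕ) (B : List IV) : List IV :=
  List.rec [] (fun I _ r => (bif Nat.ble I.1 c then c else I.1, I.2) :: r) B

/-- upper half of a box -/
def setLo (c : ℕ) (B : List IV) : ℕ → List IV :=
  List.rec (fun _ => []) (fun I B' r i => Nat.rec (up c (I :: B')) (fun j _ => I :: r j) i) B

/-- bisection along a code -/
def go (q : Par) (od : Bool) (fuel : ℕ) : ℕ → List IV → ℕ × ℕ :=
  Nat.rec (fun code B => (leaf q od B, code)) (fun _ r code B =>
    bif Nat.beq (Nat.mod code 2) 0 then (leaf q od B, Nat.div code 2) else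
      Prod.rec (fun s₁ c₁ => Prod.rec (fun s₂ c₂ => (Nat.add s₁ s₂, c₂))
        (r c₁ (setLo (Nat.succ (Nat.mod (Nat.div code 16) 1024)) B (Nat.mod (Nat.div code 2) 8))))
        (r (Nat.div code 16384)
          (setHi (Nat.succ (Nat.mod (Nat.div code 16) 1024)) B (Nat.mod (Nat.div code 2) 8)))) fuel

/-- the first box -/
def root (q : Par) (n : ℕ) : List IV :=
  ((2 * q.J₁ - 5 * q.g) / 2, q.J₂ - q.τ + 1) :: List.replicate n (q.τ - q.g, q.J₂ - q.τ + 1)

end

end Pool.Agent.Lib.MP_4b1228_nt.GS.Loss
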