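import Pool.Agent.Lib.MP_4b1228_nt.GS.St3
import Pool.Agent.Lib.MP_4b1228_nt.GS.Loss0

/-!
The checker of the loss, second version: leaves carry partitions.
-/

namespace Pool.Agent.Lib.MP_4b1228_nt.GS.Cert

open Loss

noncomputable section

/-- minimum -/
def mn (a b : ℕ) : ℕ := bif Nat.ble a b then a else b

/-- maximum -/
def mj (a b : ℕ) : ℕ := bif Nat.ble a b then b else a

/-- the length of the cofactor needed with the power `j` -/
def th (g z j b : ℕ) : ℕ :=
  bif Nat.ble g (Nat.mul j b) then Nat.div (Nat.sub (Nat.mul (Nat.mul 3 g) j) g) (Nat.mul 3 j) else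
    bif Nat.ble (Nat.mul 2 g) (Nat.mul 3 (Nat.mul j b)) then
      Nat.div (Nat.sub (Nat.mul (Nat.mul 3 g) (Nat.sub (Nat.mul 12 g) (Nat.mul 10 (Nat.mul j b))))
        (Nat.mul (Nat.mul 2 g) b)) (Nat.mul 3 (Nat.sub (Nat.mul 12 g) (Nat.mul 10 (Nat.mul j b))))
    else z

/-- the length of the cofactor needed -/
def vt (g z b : ℕ) : ℕ := mn (mn (th g z 2 b) (th g z 3 b)) (mn (th g z 4 b) (th g z 5 b))

/-- counting -/
def cn (t : IV → Bool) (D : List IV) : ℕ :=
  List.rec 0 (fun I _ r => bif t I then Nat.succ r else r) D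

/-- negative correction without the largest member -/
def ya (q : Pq) (k cl ch : ℕ) (I : IV) (D : List IV) : ℕ :=
  bif Nat.ble q.τ ch && (Nat.blt cl (Nat.add q.g I.1) && (Nat.ble 3 k &&
      Nat.ble (Nat.add cl q.g) q.J₂)) then
    val (Nat.ble 1 (Nat.mod k 2)) (cn (fun I => Nat.ble (Nat.add (vt q.g q.J₂ I.2) I.2) ch) D)
  else 0

/-- negative correction with the largest member -/
def yc (q : Pq) (tl XL XH k cl ch : ℕ) (I : IV) (D : List IV) : ℕ :=
  bif Nat.blt (Nat.add cl tl) (Nat.add q.g I.1) && (Nat.ble 2 k &&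
      (Nat.ble (Nat.add q.τ XL) (Nat.add q.J₂ cl) &&
      (Nat.blt (Nat.add q.J₁ ch) (Nat.add (Nat.add q.g XH) I.2) &&
      (Nat.ble (Nat.add (Nat.add q.J₁ q.g) ch) (Nat.add q.J₂ XH) &&
      Nat.ble (Nat.add (Nat.add cl tl) q.g) q.J₂)))) then
    val (Nat.ble (Nat.mod k 2) 0)
      (Nat.add (bif Nat.ble (vt q.g q.J₂ (Nat.sub q.J₂ XL)) ch then 1 else 0)
        (cn (fun I => Nat.ble (Nat.add (Nat.add (vt q.g q.J₂ I.2) I.1) XL) (Nat.add q.J₂ cl)) D))
  else 0

/-- the truncated sum of Moebius -/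
def t0 (q : Pq) (od : Bool) (k cl ch : ℕ) : ℕ :=
  bif od && (bif Nat.ble 1 (Nat.mod k 2) then Nat.blt cl q.τ else Nat.ble q.τ ch) then 2 else 0

/-- the term of one sublist -/
def tm (q : Pq) (od : Bool) (tl XL XH k cl ch : ℕ) (D : List IV) : ℕ :=
  Nat.add (t0 q od k cl ch)
    (List.rec 0 (fun I _ _ => Nat.add (ya q k cl ch I D) (yc q tl XL XH k cl ch I D)) D)

/-- surely visible -/
def sv (g u b : ℕ) : Bool := Nat.blt (vt g u b) u

/-- sure rows -/
def rw0 (q : Pq) (PL XL : ℕ) (B : List IV) : ℕ :=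
  bif Nat.ble q.g PL then
    cn (fun I => sv q.g (Nat.sub (Nat.add (Nat.sub XL I.1) q.J₁) q.J₂) I.1) B else 0

/-- the bound for the loss on a box -/
def ev (q : Pq) (od : Bool) (n tl PL XL XH : ℕ) (l : List IV) : ℕ :=
  bif Nat.blt q.J₂ (Nat.add XL tl) || Nat.ble (Nat.add q.τ XH) q.J₁ then 0 else
    Nat.sub (enum (tm q od tl XL XH) l 0 0 0 [])
      (Nat.add (bif od then Nat.pow 2 n else 0) (Nat.mul 2 (rw0 q PL XL l)))

/-- the weighted bound -/
def wv (q : Pq) (T PL : ℕ) (B : List IV) : ℕ :=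
  bif Nat.ble T 0 then 0 else
    Nat.succ (Nat.div (Nat.mul (Nat.mul (Nat.mul T q.J₂) 1099511627776) (nu B))
      (Nat.mul PL (de B)))

/-- the last lower end -/
def lst (B : List IV) : ℕ := List.rec 0 (fun I B' r => List.rec I.1 (fun _ _ _ => r) B') B

/-- the value of a leaf -/
def leaf (q : Pq) (od : Bool) (n : ℕ) (B : List IV) : ℕ :=
  wv q (ev q od n (lst B) (mj (Nat.sub q.J₁ (sH B)) (lst B)) (sL B) (sH B) (rev B []))
    (mj (Nat.sub q.J₁ (sH B)) (lst B)) B

/-- the exponent of a group, rounded down -/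
def om (g N : ℕ) : ℕ :=
  bif Nat.ble N 0 then 0 else
    mj (Nat.div 536870912 (Nat.succ (Nat.div g N)))
      (bif Nat.ble (Nat.mul 2 g) (Nat.mul 3 (Nat.mul (Nat.div g N) N)) then
        Nat.div (Nat.mul 1073741824 N)
          (Nat.sub (Nat.mul 12 g) (Nat.mul 10 (Nat.mul (Nat.div g N) N))) else 0)

/-- the test for large values -/
def gp (g a b c d : ℕ) : Bool :=
  Nat.blt 1073741824 (Nat.add (Nat.add (om g a) (om g b)) (Nat.add (om g c) (om g d))) &&
    (Nat.ble (Nat.mul 3 g) (Nat.mul 4 a) && (Nat.ble (Nat.mul 3 g) (Nat.mul 4 (Nat.add b c)) &&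
      Nat.ble 1 d))

/-- the test on four groups -/
def fn (q : Pq) (tl : ℕ) (a b c d : IV) : Bool :=
  (Nat.ble (Nat.mul 2 d.2) q.g && (Nat.ble (Nat.add b.2 c.2) q.g &&
    Nat.ble q.J₂ (Nat.add q.g (Nat.add (Nat.add b.1 c.1) d.1)))) ||
  gp q.g (mj (Nat.sub q.J₁ (Nat.add (Nat.add b.2 c.2) d.2)) (Nat.add a.1 tl)) b.1 c.1 d.1

/-- sum of intervals -/
def ad (I a : IV) : IV := (Nat.add I.1 a.1, Nat.add I.2 a.2)

/-- distribution of the members along a code -/
def wt (F : IV → IV → IV → IV → Bool) (B : List IV) : ℕ → IV → IV → IV → IV → Bool :=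
  List.rec (fun _ a b c d => F a b c d) (fun I _ r w a b c d =>
    bif Nat.ble (Nat.land w 2) 0 then
      (bif Nat.ble (Nat.land w 1) 0 then r (Nat.shiftRight w 2) (ad I a) b c d
        else r (Nat.shiftRight w 2) a (ad I b) c d)
    else
      (bif Nat.ble (Nat.land w 1) 0 then r (Nat.shiftRight w 2) a b (ad I c) d
        else r (Nat.shiftRight w 2) a b c (ad I d))) B

/-- the index of a cut -/
def ci (code : ℕ) : ℕ := Nat.land (Nat.shiftRight (Nat.land code 65535) 1) 15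

/-- the position of a cut -/
def cc (code : ℕ) : ℕ := Nat.succ (Nat.shiftRight (Nat.land code 65535) 5)

/-- bisection along a code -/
def go (q : Pq) (od : Bool) (n fuel : ℕ) : ℕ → List IV → ℕ × ℕ :=
  Nat.rec (fun code B => (leaf q od n B, code)) (fun _ r code B =>
    bif Nat.ble (Nat.land code 1) 0 then
      (bif Nat.ble (Nat.land code 2) 0 then (leaf q od n B, Nat.shiftRight code 2) else
        (bif wt (fn q (lst B)) B (Nat.shiftRight (Nat.land code 4194303) 2)
            (0, 0) (0, 0) (0, 0) (0, 0) then 0 else leaf q od n B,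
          Nat.shiftRight code (Nat.add (Nat.mul 2 n) 2)))
    else
      Prod.rec (fun s₁ c₁ => Prod.rec (fun s₂ c₂ => (Nat.add s₁ s₂, c₂))
        (r c₁ (setLo (cc code) B (ci code))))
        (r (Nat.shiftRight code 16) (setHi (cc code) B (ci code)))) fuel

/-- the first box -/
def root (q : Pq) (n : ℕ) : List IV :=
  ((13 * q.J₁ - 31 * q.g) / 13, q.τ) :: List.replicate n (q.τ - q.g, q.τ)

/-- the parameters -/
def qq : Pq := ⟨1000, 1200, 2400, 2401⟩

end

end Pool.Agent.Lib.MP_4b1228_nt.GS.Cert
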