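import Pool.Agent.Lib.MP_4b1228_nt.GS.Loss0

/-!
Soundness of the bound on one box.
-/

namespace Pool.Agent.Lib.MP_4b1228_nt.GS.Loss

open Finset List
open scoped Classical

noncomputable section

/-- membership in a scaled interval -/
def In (h : ℕ) (I : IV) (x : ℕ) : Prop := I.1 * h ≤ x ∧ x < I.2 * h

theorem sL_cons (I : IV) (B : List IV) : sL (I :: B) = I.1 + sL B := rfl
theorem sH_cons (I : IV) (B : List IV) : sH (I :: B) = I.2 + sH B := rfl

theorem sum_bd {h : ℕ} {B : List IV} {X : List ℕ} (H : Forall₂ (In h) B X) :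
    sL B * h ≤ X.sum ∧ X.sum ≤ sH B * h := by
  induction H with
  | nil => simp [sL, sH]
  | cons h1 _ ih =>
    obtain ⟨a, b⟩ := h1
    rw [sL_cons, sH_cons, List.sum_cons, add_mul, add_mul]
    omega

theorem scale_OK {q : Par} {h : ℕ} (hq : q.OK) (hh : 1 ≤ h) : (q.scale h).OK := by
  obtain ⟨a1, a2, a3, a4, a5, a6, a7, a8, a9, a10, a11, a12, a13, a14, a15, a16⟩ := hq
  have m : ∀ a b : ℕ, a ≤ b → a * h ≤ b * h := fun a b c => Nat.mul_le_mul_right h c
  have s : ∀ a b : ℕ, a < b → a * h < b * h := fun a b c => Nat.mul_lt_mul_of_pos_right c hh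
  have b1 := s _ _ a1
  have b2 := m _ _ a2
  have b3 := m _ _ a3
  have b7 := s _ _ a7
  have b8 := s _ _ a8
  have b9 := s _ _ a9
  have b10 := m _ _ a10
  have b11 := m _ _ a11
  have b12 := m _ _ a12
  have b13 := m _ _ a13
  have b14 := m _ _ a14
  have b15 := m _ _ a15
  have b16 := m _ _ a16
  simp only [add_mul, mul_assoc, zero_mul] at b1 b2 b3 b7 b8 b9 b10 b11 b12 b13 b14 b15 b16
  exact ⟨b1, b2, b3, m _ _ a4, m _ _ a5, m _ _ a6, b7, b8, b9, b10, b11, b12, b13, b14, b15, b16⟩

theorem le_of_sc {h a b x : ℕ} (hh : 1 ≤ h) (h1 : a * h ≤ x) (h2 : x ≤ b * h) : a ≤ b :=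
  Nat.le_of_mul_le_mul_right (h1.trans h2) hh

theorem visB_iff {q : Par} (hq : q.OK) (u b : ℕ) : visB q u b = true ↔ q.vis u b := by
  obtain ⟨-, -, -, -, a5, a6, -⟩ := hq
  simp only [visB, Par.vis, Bool.and_eq_true, Bool.or_eq_true, Nat.ble_eq]
  omega

theorem vis_up {q : Par} (hq : q.OK) {h u b U B : ℕ} (hh : 1 ≤ h) (hu : u ≤ U * h)
    (hb : b ≤ B * h) (H : (q.scale h).vis u b) : visB q U B = true := by
  rw [visB_iff hq]
  rcases H with H | H | H
  · exact Or.inl ⟨le_of_sc hh H.1 hb, le_of_sc hh H.2 hu⟩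
  · exact Or.inr (Or.inl ⟨le_of_sc hh H.1 hb, le_of_sc hh H.2 hu⟩)
  · exact Or.inr (Or.inr ⟨le_of_sc hh H.1 hb, le_of_sc hh H.2 hu⟩)

theorem vis_dn {q : Par} (hq : q.OK) {h u b U B : ℕ} (hu : U * h ≤ u)
    (hb : B * h ≤ b) (H : visB q U B = true) : (q.scale h).vis u b := by
  rw [visB_iff hq] at H
  have m : ∀ a b : ℕ, a ≤ b → a * h ≤ b * h := fun a b c => Nat.mul_le_mul_right h c
  rcases H with H | H | H
  · exact Or.inl ⟨(m _ _ H.1).trans hb, (m _ _ H.2).trans hu⟩
  · exact Or.inr (Or.inl ⟨(m _ _ H.1).trans hb, (m _ _ H.2).trans hu⟩)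
  · exact Or.inr (Or.inr ⟨(m _ _ H.1).trans hb, (m _ _ H.2).trans hu⟩)

theorem cnt_cons (q : Par) (f g : IV → ℕ) (I : IV) (D : List IV) :
    cnt q f g (I :: D) = bif visB q (f I) (g I) then cnt q f g D + 1 else cnt q f g D := rfl

theorem cnt_up (q : Par) (f g : IV → ℕ) (P : ℕ → Prop) {D : List IV} {d : List ℕ}
    (H : Forall₂ (fun I b => P b → visB q (f I) (g I) = true) D d) :
    (d : Multiset ℕ).countP P ≤ cnt q f g D := by
  induction H with
  | nil => simp
  | @cons I b D d h1 _ ih =>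
    rw [← Multiset.cons_coe, Multiset.countP_cons, cnt_cons]
    by_cases hb : P b
    · rw [h1 hb, if_pos hb, cond_true]; omega
    · rw [if_neg hb]
      cases visB q (f I) (g I)
      · rw [cond_false]; omega
      · rw [cond_true]; omega

theorem cnt_dn (q : Par) (f g : IV → ℕ) (P : ℕ → Prop) {D : List IV} {d : List ℕ}
    (H : Forall₂ (fun I b => visB q (f I) (g I) = true → P b) D d) :
    cnt q f g D ≤ (d : Multiset ℕ).countP P := by
  induction H with
  | nil => simp [cnt]
  | @cons I b D d h1 _ ih =>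
    rw [← Multiset.cons_coe, Multiset.countP_cons, cnt_cons]
    cases hv : visB q (f I) (g I)
    · simp only [cond_false]; omega
    · rw [if_pos (h1 hv), cond_true]; omega

theorem mem_bd {h : ℕ} {D : List IV} {d : List ℕ} (H : Forall₂ (In h) D d) :
    ∀ s L U : ℕ, L * h ≤ s → s ≤ U * h → Forall₂ (fun I b => In h I b ∧
      s + d.sum + I.2 * h ≤ (U + sH D) * h + b ∧ (L + sL D) * h + b ≤ s + d.sum + I.1 * h) D d := by
  induction H with
  | nil => intro s L U _ _; exact Forall₂.nil
  | @cons I b D d h1 h2 ih =>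
    intro s L U hL hU
    obtain ⟨e1, e2⟩ := sum_bd h2
    obtain ⟨e3, e4⟩ := h1
    refine Forall₂.cons ⟨⟨e3, e4⟩, ?_, ?_⟩ ?_
    · simp only [sH_cons, List.sum_cons, add_mul]; omega
    · simp only [sL_cons, List.sum_cons, add_mul]; omega
    · have := ih (s + b) (L + I.1) (U + I.2) (by rw [add_mul]; omega) (by rw [add_mul]; omega)
      refine this.imp fun I' b' H => ⟨H.1, ?_, ?_⟩
      · have := H.2.1
        simp only [sH_cons, List.sum_cons, add_mul] at this ⊢; omega
      · have := H.2.2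
        simp only [sL_cons, List.sum_cons, add_mul] at this ⊢; omega

theorem gd_ok (q : Par) {h : ℕ} {l : List IV} {x : List ℕ} (H : Forall₂ (In h) l x) :
    ∀ cl ch : ℕ, gd q l cl ch = true → ∃ S T : Multiset ℕ, (x : Multiset ℕ) = S + T ∧
      q.g * h ≤ cl * h + S.sum ∧ ch * h + S.sum ≤ q.J₁ * h := by
  induction H with
  | nil => intro cl ch H; simp [gd] at H
  | @cons I b l x h1 _ ih =>
    intro cl ch H
    obtain ⟨e1, e2⟩ := h1
    have H' : ((Nat.ble (I.2 + ch) q.J₁ && (Nat.ble q.g (I.1 + cl) ||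
      gd q l (I.1 + cl) (I.2 + ch))) || gd q l cl ch) = true := H
    simp only [Bool.and_eq_true, Bool.or_eq_true, Nat.ble_eq] at H'
    rcases H' with ⟨a, c | c⟩ | c
    · refine ⟨{b}, x, by rw [← Multiset.cons_coe, Multiset.singleton_add], ?_, ?_⟩
      · have := Nat.mul_le_mul_right h c
        rw [add_mul] at this
        rw [Multiset.sum_singleton]; omega
      · have := Nat.mul_le_mul_right h a
        rw [add_mul] at this
        rw [Multiset.sum_singleton]; omega
    · obtain ⟨S, T, f1, f2, f3⟩ := ih _ _ c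
      refine ⟨b ::ₘ S, T, by rw [← Multiset.cons_coe, f1, Multiset.cons_add], ?_, ?_⟩
      · rw [add_mul] at f2
        rw [Multiset.sum_cons]; omega
      · rw [add_mul] at f3
        rw [Multiset.sum_cons]; omega
    · obtain ⟨S, T, f1, f2, f3⟩ := ih _ _ c
      exact ⟨S, b ::ₘ T, by rw [← Multiset.cons_coe, f1, Multiset.add_cons], f2, f3⟩

/-- the data of a sublist and of its complement -/
def Ctx (h TL TH tot : ℕ) (D : List IV) (d : List ℕ) : Prop :=
  Forall₂ (In h) D d ∧ ∃ N nl nh : ℕ, sL D + nl = TL ∧ sH D + nh = TH ∧ nl * h ≤ N ∧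
    N ≤ nh * h ∧ d.sum + N = tot

theorem enum_le (f : ℕ → ℕ → ℕ → List IV → ℕ) (G : Multiset ℕ → ℤ) (h TL TH tot : ℕ)
    (hf : ∀ D d, Ctx h TL TH tot D d → G d ≤ f D.length (sL D) (sH D) D)
    {l : List IV} {x : List ℕ} (H : Forall₂ (In h) l x) :
    ∀ (D : List IV) (d : List ℕ) (N nl nh : ℕ), Forall₂ (In h) D d → sL D + nl + sL l = TL →
      sH D + nh + sH l = TH → nl * h ≤ N → N ≤ nh * h → d.sum + N + x.sum = tot →
      ((x : Multiset ℕ).powerset.map fun S => G (S + d)).sum ≤
        enum f l D.length (sL D) (sH D) D := by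
  induction H with
  | nil =>
    intro D d N nl nh h1 h2 h3 h4 h5 h6
    have := hf D d ⟨h1, N, nl, nh, h2, h3, h4, h5, h6⟩
    simpa [enum] using this
  | @cons I b l x g1 _ ih =>
    intro D d N nl nh h1 h2 h3 h4 h5 h6
    have e : enum f (I :: l) D.length (sL D) (sH D) D = enum f l D.length (sL D) (sH D) D +
      enum f l (I :: D).length (sL (I :: D)) (sH (I :: D)) (I :: D) := rfl
    rw [sL_cons] at h2
    rw [sH_cons] at h3
    rw [List.sum_cons] at h6
    have a := ih D d (N + b) (nl + I.1) (nh + I.2) h1 (by omega) (by omega)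
      (by have := g1.1; rw [add_mul]; omega) (by have := g1.2; rw [add_mul]; omega) (by omega)
    have c := ih (I :: D) (b :: d) N nl nh (Forall₂.cons g1 h1) (by rw [sL_cons]; omega)
      (by rw [sH_cons]; omega) h4 h5 (by rw [List.sum_cons]; omega)
    rw [e, ← Multiset.cons_coe, Multiset.powerset_cons, Multiset.map_add, Multiset.sum_add,
      Multiset.map_map]
    push_cast
    refine add_le_add a (le_of_eq_of_le ?_ c)
    congr 1
    refine Multiset.map_congr rfl fun S _ => ?_
    simp only [Function.comp]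
    rw [← Multiset.cons_coe, Multiset.cons_add, Multiset.add_cons]

theorem val_t (c : ℕ) : val true c = 2 * max 1 c := by
  show 2 * (bif Nat.ble c 1 then 1 else c) = _
  cases hc : Nat.ble c 1
  · have : ¬c ≤ 1 := by rw [← Nat.ble_eq, hc]; simp
    simp only [cond_false]; omega
  · have : c ≤ 1 := by rw [← Nat.ble_eq, hc]
    simp only [cond_true]; omega

theorem yY_le (p : Par) (M : Multiset ℕ) (c k : ℕ) (e : Bool) (hc : p.nn M ≤ c)
    (he : p.τ ≤ M.sum → (∀ b ∈ M, M.sum < p.g + b) → 3 ≤ M.card → M.card ≤ 4 → e = true)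
    (t : Bool) (ht : t = true ↔ M.card ≤ 3) (hk : k = bif e then val t c else 0) :
    p.yY M ≤ k := by
  unfold Par.yY
  split_ifs with h1 h2 h3
  · rw [hk, he h1.1 h1.2 (by omega) (by omega), ht.2 (by omega), cond_true, val_t]
    push_cast; omega
  · have : t = false := by
      cases t
      · rfl
      · have := ht.1 rfl; omega
    rw [hk, he h1.1 h1.2 (by omega) (by omega), this, cond_true]
    show _ ≤ ((2 * c : ℕ) : ℤ)
    push_cast; omega
  · positivity
  · positivity

theorem lt_of_sc {h a b : ℕ} (h1 : a * h < b * h) : a < b := Nat.lt_of_mul_lt_mul_right h1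

theorem yb_ok {q : Par} (hq : q.OK) {h J P XL XH tot : ℕ} (hh : 1 ≤ h) (h1 : q.J₁ * h ≤ J)
    (h2 : J ≤ q.J₂ * h) (hP : P + tot = J) {D : List IV} {d : List ℕ}
    (H : Ctx h XL XH tot D d) :
    (q.scale h).yY d + (q.scale h).yY (P ::ₘ d) ≤
      yb q XH (q.J₂ - XL) D.length (sL D) (sH D) D := by
  obtain ⟨H, N, nl, nh, c1, c2, c3, c4, c5⟩ := H
  obtain ⟨s1, s2⟩ := sum_bd H
  have hl := H.length_eq
  have hm := mem_bd H 0 0 0 (by simp) (by simp)
  have hPH : P + d.sum ≤ (q.J₂ - XL + sL D) * h := by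
    have : q.J₂ ≤ q.J₂ - XL + sL D + nl := by omega
    have := Nat.mul_le_mul_right h this
    rw [add_mul] at this
    omega
  cases H with
  | nil => simp [Par.yY, yb]
  | @cons I b D d g1 g2 =>
    have e : yb q XH (q.J₂ - XL) (I :: D).length (sL (I :: D)) (sH (I :: D)) (I :: D) =
      ya q (I :: D).length (sL (I :: D)) (sH (I :: D)) I (I :: D) +
      yc q XH (q.J₂ - XL) (I :: D).length (sL (I :: D)) (sH (I :: D)) I (I :: D) := rfl
    rw [e]
    have hb : b ∈ ((b :: d : List ℕ) : Multiset ℕ) := by simp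
    have h0 := (List.forall₂_cons.1 hm).1
    generalize (I :: D) = D' at *
    generalize (b :: d) = d' at *
    push_cast
    refine add_le_add (yY_le _ _ _ _ _ (cnt_up q (fun I => sH D' - I.2) (fun I => I.2) _ ?_) ?_
      _ ?_ rfl) (yY_le _ _ ((bif visB q (sH D') (q.J₂ - XL) then 1 else 0) +
        cnt q (fun I => q.J₂ - XL + sL D' - I.1) (fun I => I.2) D') _ _ ?_ ?_ _ ?_ rfl)
    · refine hm.imp fun I b H hv => vis_up hq hh ?_ H.1.2.le hv
      have := H.2.1
      rw [Multiset.sum_coe, Nat.sub_mul]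
      simp only [zero_add] at this
      omega
    · intro a1 a2 a3 a4
      have a5 := a2 b hb
      have a6 := h0.2.2
      simp only [Multiset.sum_coe, Multiset.coe_card, zero_add, Par.scale] at a1 a3 a4 a5 a6
      simp only [Bool.and_eq_true, Nat.ble_eq, Nat.blt_eq, Nat.add_eq]
      refine ⟨le_of_sc hh a1 s2, lt_of_sc (h := h) ?_, by omega, by omega⟩
      rw [add_mul]; omega
    · rw [Nat.ble_eq, Multiset.coe_card, hl]
    · unfold Par.nn
      rw [Multiset.countP_cons, add_comm]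
      refine add_le_add ?_ (cnt_up q _ _ _ ?_)
      · split_ifs with hv
        · rw [vis_up hq hh (U := sH D') (B := q.J₂ - XL) ?_ ?_ hv]
          · rfl
          · rw [Multiset.sum_cons, Multiset.sum_coe]; omega
          · rw [add_mul] at hPH; omega
        · omega
      · refine hm.imp fun I b H hv => vis_up hq hh ?_ H.1.2.le hv
        have := H.1.1
        rw [Multiset.sum_cons, Multiset.sum_coe, Nat.sub_mul]
        omega
    · intro a1 a2 a3 a4
      have a5 := a2 b (Multiset.mem_cons_of_mem hb)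
      have a6 := g1.2
      simp only [Multiset.sum_cons, Multiset.card_cons, Multiset.sum_coe, Multiset.coe_card,
        Par.scale] at a1 a3 a4 a5
      simp only [Bool.and_eq_true, Nat.ble_eq, Nat.blt_eq, Nat.add_eq]
      refine ⟨le_of_sc hh a1 hPH, lt_of_sc (h := h) ?_, by omega, by omega⟩
      rw [← c2]
      simp only [add_mul]; omega
    · rw [Nat.ble_eq, Multiset.card_cons, Multiset.coe_card, hl]; omega

/-- odd subsets in the window -/
def ind (p : Par) (od : Bool) (m J : ℕ) (S : Multiset ℕ) : ℤ :=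
  if p.win m S ∧ Odd S.card ∧ (od = true ∨ S.sum + m + p.τ ≤ J) then 1 else 0

theorem wn_ok {q : Par} {h J P XL XH m tot : ℕ} (od : Bool) {I : IV} (hh : 1 ≤ h)
    (h1 : q.J₁ * h ≤ J) (h2 : J ≤ q.J₂ * h) (hP : P + (m + tot) = J) (hm : In h I m)
    {TL TH : ℕ} (hL : XL = I.1 + TL) (hH : XH = I.2 + TH) {D : List IV} {d : List ℕ}
    (H : Ctx h TL TH tot D d) :
    ind (q.scale h) od m J d + ind (q.scale h) od m J (P ::ₘ d) ≤
      wn q od I.1 I.2 XH (q.J₂ - XL) D.length (sL D) (sH D) := by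
  obtain ⟨H, N, nl, nh, c1, c2, c3, c4, c5⟩ := H
  obtain ⟨s1, s2⟩ := sum_bd H
  obtain ⟨m1, m2⟩ := hm
  have hl := H.length_eq
  unfold ind wn
  simp only [Par.win, Par.scale, Multiset.sum_cons, Multiset.card_cons, Multiset.sum_coe,
    Multiset.coe_card, ← hl, Nat.odd_iff, Nat.add_eq, show D.length.mod 2 = D.length % 2 from rfl]
  rcases Nat.mod_two_eq_zero_or_one D.length with e | e
  · have e1 : ¬(D.length % 2 = 1) := by omega
    have e2 : (D.length + 1) % 2 = 1 := by omega
    rw [if_neg (fun a => e1 a.2.1), zero_add]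
    simp only [e2, e, true_and]
    split_ifs with a
    · obtain ⟨⟨a1, a2⟩, a3⟩ := a
      have : (Nat.blt (q.J₁ + sH D) (q.τ + XH) && (Nat.ble q.τ (q.J₂ - XL + (I.1 + sL D)) &&
          (od || Nat.ble (q.τ + (I.2 + sH D)) XH))) = true := by
        simp only [Bool.and_eq_true, Bool.or_eq_true, Nat.ble_eq, Nat.blt_eq]
        refine ⟨lt_of_sc (h := h) ?_, le_of_sc hh a2 ?_, a3.imp id fun a3 => ?_⟩
        · rw [hH, ← c2]; simp only [add_mul]; omega
        · have : q.J₂ ≤ q.J₂ - XL + (I.1 + sL D) + nl := by omega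
          have := Nat.mul_le_mul_right h this
          rw [add_mul] at this
          omega
        · have : q.τ ≤ nh := le_of_sc hh (x := N) (by omega) c4
          omega
      rw [this]; exact le_of_eq rfl
    · positivity
  · have e2 : ¬((D.length + 1) % 2 = 1) := by omega
    rw [if_neg (c := _ ∧ (D.length + 1) % 2 = 1 ∧ _) (fun a => e2 a.2.1), add_zero]
    simp only [e, true_and]
    split_ifs with a
    · obtain ⟨⟨a1, a2⟩, a3⟩ := a
      have : (Nat.ble q.τ (I.2 + sH D) && (Nat.blt (sL D) q.τ &&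
          (od || Nat.ble (I.1 + sL D + q.τ) q.J₂))) = true := by
        simp only [Bool.and_eq_true, Bool.or_eq_true, Nat.ble_eq, Nat.blt_eq]
        refine ⟨le_of_sc hh a2 ?_, lt_of_sc (h := h) (by omega), a3.imp id fun a3 => ?_⟩
        · rw [add_mul]; omega
        · refine le_of_sc hh (x := J) ?_ h2
          simp only [add_mul]; omega
      rw [this]; exact le_of_eq rfl
    · positivity

theorem yV_nonneg (p : Par) (M : Multiset ℕ) : 0 ≤ p.yV M := by
  unfold Par.yV
  split_ifs <;> positivity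

theorem sum_nn (f : Multiset ℕ → ℤ) (hf : ∀ M, 0 ≤ f M) (s : Multiset (Multiset ℕ)) :
    0 ≤ (s.map f).sum :=
  Multiset.sum_nonneg fun _ hx => by
    obtain ⟨M, -, rfl⟩ := Multiset.mem_map.1 hx
    exact hf M

theorem single_le (f : Multiset ℕ → ℤ) (hf : ∀ M, 0 ≤ f M) (P : ℕ → Prop)
    (hP : ∀ b, P b → 1 ≤ f {b}) (X : Multiset ℕ) :
    (X.countP P : ℤ) ≤ (X.powerset.map f).sum := by
  induction X using Multiset.induction_on with
  | empty => simpa using hf 0
  | cons b X ih =>
    rw [Multiset.countP_cons, Multiset.powerset_cons, Multiset.map_add, Multiset.sum_add,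
      Multiset.map_map]
    push_cast
    refine add_le_add ih ?_
    split_ifs with hb
    · refine (hP b hb).trans (Multiset.single_le_sum (fun _ hx => ?_) _
        (Multiset.mem_map.2 ⟨0, by simp, rfl⟩))
      obtain ⟨M, -, rfl⟩ := Multiset.mem_map.1 hx
      exact hf _
    · exact sum_nn _ (fun M => hf _) _

theorem rows_ok {q : Par} (hq : q.OK) {h J P : ℕ} (hh : 1 ≤ h) (h1 : q.J₁ * h ≤ J)
    (h2 : J ≤ q.J₂ * h) {B : List IV} {X : List ℕ} (hP : P + X.sum = J)
    (H : Forall₂ (In h) B X) :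
    (rows q (sL B) (sH B) B : ℤ) ≤
      ((P ::ₘ (X : Multiset ℕ)).powerset.map (q.scale h).yV).sum := by
  obtain ⟨s1, s2⟩ := sum_bd H
  have hm := mem_bd H 0 0 0 (by simp) (by simp)
  unfold rows
  cases hc : (Nat.ble (Nat.add q.g (sH B)) q.J₁ && Nat.blt q.J₂ (Nat.add q.τ (sL B)))
  · exact sum_nn _ (yV_nonneg _) _
  · simp only [Bool.and_eq_true, Nat.ble_eq, Nat.blt_eq, Nat.add_eq] at hc
    have c1 := Nat.mul_le_mul_right h hc.1
    have c2 := Nat.mul_lt_mul_of_pos_right hc.2 hh
    rw [add_mul] at c1 c2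
    rw [cond_true, Multiset.powerset_cons, Multiset.map_add, Multiset.sum_add, Multiset.map_map]
    refine le_add_of_nonneg_of_le (sum_nn _ (yV_nonneg _) _) (le_trans ?_
      (single_le _ (fun M => yV_nonneg _ _) ((q.scale h).row P) (fun b hb => ?_) _))
    · refine Int.ofNat_le.2 (cnt_dn q _ _ _ (hm.imp fun I b H hv => ⟨?_, ?_, ?_⟩))
      · show q.g * h ≤ P
        omega
      · show P < q.τ * h
        omega
      · refine vis_dn hq ?_ H.1.1 hv
        have := H.2.2
        show (sL B - I.1 + q.J₁ - q.J₂) * h ≤ q.J₁ * h - (P + b)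
        rw [Nat.sub_mul, add_mul, Nat.sub_mul]
        simp only [zero_add] at this
        omega
    · show 1 ≤ (q.scale h).yV (P ::ₘ {b})
      unfold Par.yV
      rw [if_pos (by simp)]
      refine Int.ofNat_le.2 (Multiset.countP_pos.2 ⟨b, by simp, ?_⟩)
      simpa using hb

theorem ite_sum (P : Multiset ℕ → Prop) [DecidablePred P] (s : Multiset (Multiset ℕ)) :
    (s.countP P : ℤ) = (s.map fun S => if P S then (1 : ℤ) else 0).sum := by
  induction s using Multiset.induction_on with
  | empty => simp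
  | cons a s ih =>
    rw [Multiset.countP_cons, Multiset.map_cons, Multiset.sum_cons, ← ih]
    push_cast
    ring

theorem y0_le (hW : WinSt) (p : Par) (od : Bool) (m : ℕ) (R : Multiset ℕ)
    (h1 : 2 * p.τ ≤ m + R.sum) (h2 : od = false → Odd R.card) :
    -((m ::ₘ R).powerset.map p.y0).sum ≤ (R.powerset.map (ind p od m (m + R.sum))).sum := by
  cases od
  · refine ((hW p m R).2 h1 (h2 rfl)).trans (le_of_eq ?_)
    rw [ite_sum]
    congr 1
    refine Multiset.map_congr rfl fun S _ => ?_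
    simp [ind]
  · rw [(hW p m R).1, ← Multiset.sum_map_neg]
    refine Multiset.sum_map_le_sum_map _ _ fun S _ => ?_
    unfold ind
    by_cases a : p.win m S
    · rcases Nat.even_or_odd S.card with e | e
      · simp [a, e.neg_one_pow, Nat.not_odd_iff_even.2 e]
      · simp [a, e.neg_one_pow, e]
    · simp [a]

theorem ev_ok (hW : WinSt) {q : Par} (hq : q.OK) {h J P m : ℕ} (od : Bool) (hh : 1 ≤ h)
    (h1 : q.J₁ * h ≤ J) (h2 : J ≤ q.J₂ * h) {I : IV} {l : List IV} {x : List ℕ}
    (hP : P + (m + x.sum) = J) (hm : In h I m) (H : Forall₂ (In h) l x) (hx : ∀ b ∈ x, b ≤ P)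
    (ho : od = false → Even l.length) :
    (q.scale h).L (P ::ₘ m ::ₘ (x : Multiset ℕ)) ≤ ev q od I l (sL (I :: l)) (sH (I :: l)) := by
  unfold Par.L
  split_ifs with hG
  · positivity
  obtain ⟨s1, s2⟩ := sum_bd H
  have hd : dead q (sL (I :: l)) l = false := by
    cases H with
    | nil => rfl
    | @cons I' b l x g1 g2 =>
      have a := hx b (by simp)
      have := g1.1
      have := hm.1
      have : sL (I :: I' :: l) + I'.1 ≤ q.J₂ := by
        refine le_of_sc hh (x := J) ?_ h2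
        rw [sL_cons I, add_mul, add_mul]; omega
      show Nat.blt q.J₂ (sL (I :: I' :: l) + I'.1) = false
      rw [← Bool.not_eq_true, Nat.blt_eq]; omega
  have hg : gd q l 0 (Nat.add q.g I.2) = false := by
    rw [← Bool.not_eq_true]
    intro c
    obtain ⟨S, T, f1, f2, f3⟩ := gd_ok q H _ _ c
    have f4 : x.sum = S.sum + T.sum := by rw [← Multiset.sum_coe, f1, Multiset.sum_add]
    refine hG ⟨S, P ::ₘ T, {m}, ?_, by simp, by simpa [Par.scale] using f2, ?_⟩
    · rw [f1, Multiset.add_cons, Multiset.cons_add, add_comm (S + T) {m},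
        Multiset.singleton_add]
    · have := hm.2
      rw [Nat.add_eq, add_mul] at f3
      show q.g * h ≤ _
      rw [Multiset.sum_cons]; omega
  have hr := rows_ok hq hh h1 h2 (B := I :: l) (X := m :: x) hP (Forall₂.cons hm H)
  have hy := y0_le hW (q.scale h) od m (P ::ₘ x) (by
    have := (scale_OK hq hh).2.2.1
    rw [Multiset.sum_cons, Multiset.sum_coe]
    simp only [Par.scale] at this ⊢
    omega) (fun a => by
    rw [Multiset.card_cons, Multiset.coe_card, ← H.length_eq]; exact (ho a).add_one)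
  have he := enum_le (tm q od I (sH (I :: l)) (q.J₂ - sL (I :: l)))
    (fun S => (ind (q.scale h) od m J S + ind (q.scale h) od m J (P ::ₘ S)) +
      (((q.scale h).yY S + (q.scale h).yY (P ::ₘ S)) +
        ((q.scale h).yY (m ::ₘ S) + (q.scale h).yY (P ::ₘ m ::ₘ S)))) h (sL l) (sH l) x.sum
    (fun D d c => by
      have a1 := wn_ok od hh h1 h2 hP hm (sL_cons I l) (sH_cons I l) c
      obtain ⟨c0, N, nl, nh, c1, c2, c3, c4, c5⟩ := c
      have := hm.1
      have := hm.2
      have a2 := yb_ok hq hh h1 h2 hP (XL := sL (I :: l)) (XH := sH (I :: l))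
        ⟨c0, N + m, nl + I.1, nh + I.2, by rw [sL_cons]; omega, by rw [sH_cons]; omega,
          by rw [add_mul]; omega, by rw [add_mul]; omega, by omega⟩
      have a3 := yb_ok hq hh h1 h2 hP (XL := sL (I :: l)) (XH := sH (I :: l))
        ⟨Forall₂.cons hm c0, N, nl, nh, by rw [sL_cons, sL_cons]; omega,
          by rw [sH_cons, sH_cons]; omega, c3, c4, by rw [List.sum_cons]; omega⟩
      exact (add_le_add a1 (add_le_add a2 a3)).trans (le_of_eq (by norm_cast))) H [] [] 0 0 0
    Forall₂.nil (by simp [sL]) (by simp [sH]) (by simp) (by simp) (by simp)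
  have e1 : m + (P ::ₘ (x : Multiset ℕ)).sum = J := by
    rw [Multiset.sum_cons, Multiset.sum_coe]; omega
  rw [e1, Multiset.cons_swap, Multiset.powerset_cons P (x : Multiset ℕ), Multiset.map_add,
    Multiset.sum_add, Multiset.map_map] at hy
  have e2 : (q.scale h).T (P ::ₘ m ::ₘ (x : Multiset ℕ)) =
      ((P ::ₘ m ::ₘ (x : Multiset ℕ)).powerset.map (q.scale h).y0).sum +
      2 * ((P ::ₘ m ::ₘ (x : Multiset ℕ)).powerset.map (q.scale h).yV).sum -
      ((P ::ₘ m ::ₘ (x : Multiset ℕ)).powerset.map (q.scale h).yY).sum := by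
    unfold Par.T Par.yy
    rw [Multiset.sum_map_sub, Multiset.sum_map_add, Multiset.sum_map_mul_left]
  have e3 : ((P ::ₘ m ::ₘ (x : Multiset ℕ)).powerset.map (q.scale h).yY).sum =
      (((x : Multiset ℕ).powerset.map (q.scale h).yY).sum +
      ((x : Multiset ℕ).powerset.map fun S => (q.scale h).yY (m ::ₘ S)).sum) +
      (((x : Multiset ℕ).powerset.map fun S => (q.scale h).yY (P ::ₘ S)).sum +
      ((x : Multiset ℕ).powerset.map fun S => (q.scale h).yY (P ::ₘ m ::ₘ S)).sum) := by
    simp only [Multiset.powerset_cons, Multiset.map_add, Multiset.sum_add, Multiset.map_map,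
      Function.comp_def]
  simp only [Multiset.coe_nil, add_zero, Multiset.sum_map_add] at he
  unfold ev
  rw [hd, hg, Bool.or_false, cond_false]
  rw [← Multiset.cons_coe] at hr
  have e4 : max 0 (-(q.scale h).T (P ::ₘ m ::ₘ (x : Multiset ℕ))) ≤
      ((enum (tm q od I (sH (I :: l)) (q.J₂ - sL (I :: l))) l 0 0 0 [] -
        2 * rows q (sL (I :: l)) (sH (I :: l)) (I :: l) : ℕ) : ℤ) := by
    have he' : _ ≤ ((enum (tm q od I (sH (I :: l)) (q.J₂ - sL (I :: l))) l 0 0 0 [] : ℕ) : ℤ) := he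
    simp only [Function.comp_def] at hy
    rw [e2, e3]
    omega
  exact_mod_cast e4

end

end Pool.Agent.Lib.MP_4b1228_nt.GS.Loss
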