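import Pool.Agent.Lib.MP_4b1228_nt.GS.Cert0
import Pool.Agent.Lib.MP_4b1228_nt.GS.Loss1
import Pool.Agent.Lib.MP_4b1228_nt.GS.Asy

/-!
Soundness of the tests on one box: visibility and partitions.
-/

namespace Pool.Agent.Lib.MP_4b1228_nt.GS.Cert

open Finset List Loss
open scoped Classical

noncomputable section

theorem mn_eq (a b : ℕ) : mn a b = min a b := by
  unfold mn
  cases hc : Nat.ble a b
  · have : ¬a ≤ b := by rw [← Nat.ble_eq, hc]; simp
    simp only [cond_false]; omega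
  · have : a ≤ b := by rw [← Nat.ble_eq, hc]
    simp only [cond_true]; omega

theorem mj_eq (a b : ℕ) : mj a b = max a b := by
  unfold mj
  cases hc : Nat.ble a b
  · have : ¬a ≤ b := by rw [← Nat.ble_eq, hc]; simp
    simp only [cond_false]; omega
  · have : a ≤ b := by rw [← Nat.ble_eq, hc]
    simp only [cond_true]; omega

theorem bif_ble {α : Type} (a b : ℕ) (x y : α) :
    (bif Nat.ble a b then x else y) = if a ≤ b then x else y := by
  cases hc : Nat.ble a b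
  · have : ¬a ≤ b := by rw [← Nat.ble_eq, hc]; simp
    rw [cond_false, if_neg this]
  · have : a ≤ b := by rw [← Nat.ble_eq, hc]
    rw [cond_true, if_pos this]

theorem th_eq (g z j b : ℕ) : th g z j b = if g ≤ j * b then (3 * g * j - g) / (3 * j) else
    if 2 * g ≤ 3 * (j * b) then
      (3 * g * (12 * g - 10 * (j * b)) - 2 * g * b) / (3 * (12 * g - 10 * (j * b))) else z := by
  unfold th
  rw [bif_ble, bif_ble]; rfl

theorem key {g D b u : ℕ} (hg : 0 < g) (hD : 0 < D) :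
    3 / 2 ≤ (b : ℝ) / D + 3 * (u : ℝ) / (2 * g) ↔ 3 * g * D ≤ 2 * g * b + 3 * D * u := by
  have g0 : (0 : ℝ) < g := by exact_mod_cast hg
  have D0 : (0 : ℝ) < D := by exact_mod_cast hD
  rw [div_add_div _ _ D0.ne' (by positivity), div_le_div_iff₀ (by norm_num) (by positivity),
    ← Nat.cast_le (α := ℝ)]
  push_cast
  constructor <;> intro H <;> nlinarith

theorem om_a {g j b : ℕ} (hj : 0 < j) (c : g ≤ j * b) :
    om1 g (j * b) / j = ((1 : ℕ) : ℝ) / ((2 * j : ℕ) : ℝ) := by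
  rw [Asy.om1_of_le c]
  push_cast
  field_simp

theorem om_b {g j b : ℕ} (hj : 0 < j) (c : j * b ≤ g) (c2 : 2 * g ≤ 3 * (j * b)) (hg : 0 < g) :
    om1 g (j * b) / j = (b : ℝ) / ((12 * g - 10 * (j * b) : ℕ) : ℝ) := by
  have j0 : (0 : ℝ) < j := by exact_mod_cast hj
  rw [Nat.cast_sub (by omega)]
  rcases c.eq_or_lt with e | e
  · rw [Asy.om1_of_le e.ge, ← e]
    have : 0 < b := Nat.pos_of_ne_zero fun a => by rw [a] at e; omega
    have b0 : (0 : ℝ) < b := by exact_mod_cast this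
    push_cast
    rw [show (12 : ℝ) * (j * b) - 10 * (j * b) = 2 * (j * b) by ring]
    field_simp
  · unfold om1
    rw [if_neg (by omega), if_pos c2]
    push_cast
    rw [div_div, mul_comm _ (j : ℝ), mul_div_mul_left _ _ j0.ne']

theorem th_le {g j b u : ℕ} (z : ℕ) (hg : 0 < g) (hj : 0 < j) (h1 : 0 < om1 g (j * b))
    (h2 : 3 / 2 ≤ om1 g (j * b) / (j : ℝ) + 3 * (u : ℝ) / (2 * g)) : th g z j b ≤ u := by
  rw [th_eq]
  split_ifs with c1 c2
  · rw [om_a hj c1, key hg (by omega)] at h2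
    refine Nat.div_le_of_le_mul ?_
    have e1 : 3 * g * (2 * j) = 2 * (3 * g * j) := by ring
    have e2 : 3 * (2 * j) * u = 2 * (3 * j * u) := by ring
    omega
  · rw [om_b hj (by omega) c2 hg, key hg (by omega)] at h2
    exact Nat.div_le_of_le_mul (by omega)
  · unfold om1 at h1
    rw [if_neg c1, if_neg c2] at h1
    exact absurd h1 (lt_irrefl _)

theorem th_lt {g j b u : ℕ} (hg : 0 < g) (hj : 0 < j) (H : th g u j b < u) :
    0 < om1 g (j * b) ∧ 3 / 2 ≤ om1 g (j * b) / (j : ℝ) + 3 * (u : ℝ) / (2 * g) := by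
  rw [th_eq] at H
  split_ifs at H with c1 c2
  · rw [Nat.div_lt_iff_lt_mul (by omega)] at H
    refine ⟨by rw [Asy.om1_of_le c1]; norm_num, ?_⟩
    rw [om_a hj c1, key hg (by omega)]
    have e1 : 3 * g * (2 * j) = 2 * (3 * g * j) := by ring
    have e2 : 3 * (2 * j) * u = 2 * (u * (3 * j)) := by ring
    omega
  · rw [Nat.div_lt_iff_lt_mul (by omega), mul_comm u] at H
    refine ⟨?_, ?_⟩
    · unfold om1
      rw [if_neg c1, if_pos c2]
      have a1 : ((j * b : ℕ) : ℝ) < g := by exact_mod_cast not_le.1 c1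
      have a2 : (0 : ℝ) < ((j * b : ℕ) : ℝ) := by exact_mod_cast (by omega : 0 < j * b)
      exact div_pos a2 (by linarith)
    · rw [om_b hj (by omega) c2 hg, key hg (by omega)]
      omega
  · exact absurd H (lt_irrefl _)

theorem vis_mono {g u b u' b' : ℕ} (H : vis2 g u b) (hu : u ≤ u') (hb : b ≤ b') :
    vis2 g u' b' := by
  obtain ⟨j, hj, h1, h2⟩ := H
  have a := Asy.om1_mono g (Nat.mul_le_mul_left j hb)
  have c : (u : ℝ) ≤ u' := by exact_mod_cast hu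
  exact ⟨j, hj, h1.trans_le a, h2.trans (by gcongr)⟩

theorem vis_scale {g u b h : ℕ} (hh : 1 ≤ h) : vis2 (g * h) (u * h) (b * h) ↔ vis2 g u b := by
  have h0 : (h : ℝ) ≠ 0 := by exact_mod_cast (by omega : h ≠ 0)
  have e : 3 * ((u * h : ℕ) : ℝ) / (2 * ((g * h : ℕ) : ℝ)) = 3 * (u : ℝ) / (2 * g) := by
    push_cast
    rw [← mul_assoc, ← mul_assoc, mul_div_mul_right _ _ h0]
  unfold vis2
  simp only [← mul_assoc _ b h, Asy.om1_scale g _ hh, e]

theorem vt_up {g h u b U B : ℕ} (z : ℕ) (hg : 0 < g) (hh : 1 ≤ h) (hu : u ≤ U * h)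
    (hb : b ≤ B * h) (H : vis2 (g * h) u b) : vt g z B ≤ U := by
  obtain ⟨j, hj, h1, h2⟩ := (vis_scale hh).1 (vis_mono H hu hb)
  obtain ⟨j1, j2⟩ := Finset.mem_Icc.1 hj
  have := th_le z hg (by omega) h1 h2
  unfold vt
  simp only [mn_eq]
  interval_cases j <;> omega

theorem sv_dn {g h u b U B : ℕ} (hg : 0 < g) (hh : 1 ≤ h) (hu : U * h ≤ u)
    (hb : B * h ≤ b) (H : sv g U B = true) : vis2 (g * h) u b := by
  refine vis_mono ((vis_scale hh).2 ?_) hu hb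
  unfold sv vt at H
  simp only [mn_eq, Nat.blt_eq, min_lt_iff] at H
  rcases H with (H | H) | H | H
  · exact ⟨2, by simp, th_lt hg (by omega) H⟩
  · exact ⟨3, by simp, th_lt hg (by omega) H⟩
  · exact ⟨4, by simp, th_lt hg (by omega) H⟩
  · exact ⟨5, by simp, th_lt hg (by omega) H⟩

theorem om_ok {g h N s : ℕ} (hg : 0 < g) (hh : 1 ≤ h) (hs : N * h ≤ s) :
    ∃ j : ℕ, 1 ≤ j ∧ (om g N : ℝ) ≤ 1073741824 * (om1 (g * h) (j * s) / j) := by
  have a : ∃ j : ℕ, 1 ≤ j ∧ (om g N : ℝ) ≤ 1073741824 * (om1 g (j * N) / j) := by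
    have e : om g N = if N ≤ 0 then 0 else max (536870912 / (g / N + 1))
        (if 2 * g ≤ 3 * (g / N * N) then 1073741824 * N / (12 * g - 10 * (g / N * N)) else 0) := by
      unfold om
      rw [bif_ble, mj_eq, bif_ble]; rfl
    rw [e]
    have z : ((0 : ℕ) : ℝ) ≤ 1073741824 * (om1 g (1 * N) / (1 : ℕ)) := by
      have := Asy.om1_nonneg g (1 * N)
      rw [Nat.cast_zero]; positivity
    split_ifs with c1 c2
    · exact ⟨1, le_rfl, z⟩
    all_goals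
      have b1 : g ≤ (g / N + 1) * N := by
        rw [mul_comm]; exact (Nat.lt_mul_div_succ g (by omega)).le
      have b2 : ((536870912 / (g / N + 1) : ℕ) : ℝ) ≤
          1073741824 * (om1 g ((g / N + 1) * N) / (g / N + 1 : ℕ)) := by
        refine Nat.cast_div_le.trans (le_of_eq ?_)
        rw [Asy.om1_of_le b1]
        push_cast
        ring
    · rcases max_choice (536870912 / (g / N + 1))
        (1073741824 * N / (12 * g - 10 * (g / N * N))) with m | m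
      · rw [m]; exact ⟨_, Nat.succ_pos _, b2⟩
      · have j0 : 0 < g / N := Nat.pos_of_ne_zero fun a => by rw [a] at c2; omega
        refine ⟨g / N, j0, ?_⟩
        rw [m, om_b j0 (Nat.div_mul_le_self g N) c2 hg]
        refine Nat.cast_div_le.trans (le_of_eq ?_)
        rw [Nat.cast_mul, mul_div_assoc]; rfl
    · rw [max_eq_left (Nat.zero_le _)]; exact ⟨_, Nat.succ_pos _, b2⟩
  obtain ⟨j, j1, j2⟩ := a
  refine ⟨j, j1, j2.trans ?_⟩
  have := Asy.om1_mono (g * h) (Nat.mul_le_mul_left j hs)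
  rw [← mul_assoc, Asy.om1_scale g _ hh] at this
  gcongr

/-- a sum in a scaled closed interval -/
def Cl (h : ℕ) (a : IV) (S : Multiset ℕ) : Prop := a.1 * h ≤ S.sum ∧ S.sum ≤ a.2 * h

theorem Cl.ad {h x : ℕ} {I a : IV} {S : Multiset ℕ} (H : In h I x) (c : Cl h a S) :
    Cl h (ad I a) (x ::ₘ S) := by
  obtain ⟨a1, a2⟩ := H
  obtain ⟨a3, a4⟩ := c
  refine ⟨?_, ?_⟩
  · show (I.1 + a.1) * h ≤ _
    rw [Multiset.sum_cons, add_mul]; omega
  · show _ ≤ (I.2 + a.2) * h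
    rw [Multiset.sum_cons, add_mul]; omega

theorem wt_ok (F : IV → IV → IV → IV → Bool) {h : ℕ} {B : List IV} {X : List ℕ}
    (H : Forall₂ (In h) B X) : ∀ (w : ℕ) (a b c d : IV) (A₀ A₁ A₂ A₃ : Multiset ℕ), Cl h a A₀ →
      Cl h b A₁ → Cl h c A₂ → Cl h d A₃ → wt F B w a b c d = true →
      ∃ (a' b' c' d' : IV) (S₀ S₁ S₂ S₃ : Multiset ℕ), Cl h a' S₀ ∧ Cl h b' S₁ ∧ Cl h c' S₂ ∧
        Cl h d' S₃ ∧ F a' b' c' d' = true ∧ X + (A₀ + A₁ + A₂ + A₃) = S₀ + S₁ + S₂ + S₃ := by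
  induction H with
  | nil =>
    intro w a b c d A₀ A₁ A₂ A₃ h0 h1 h2 h3 H
    exact ⟨a, b, c, d, A₀, A₁, A₂, A₃, h0, h1, h2, h3, H, by simp⟩
  | @cons I x B X g _ ih =>
    intro w a b c d A₀ A₁ A₂ A₃ h0 h1 h2 h3 H
    have e : wt F (I :: B) w a b c d = bif Nat.ble (Nat.land w 2) 0 then
      (bif Nat.ble (Nat.land w 1) 0 then wt F B (Nat.shiftRight w 2) (ad I a) b c d
        else wt F B (Nat.shiftRight w 2) a (ad I b) c d)
      else (bif Nat.ble (Nat.land w 1) 0 then wt F B (Nat.shiftRight w 2) a b (ad I c) d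
        else wt F B (Nat.shiftRight w 2) a b c (ad I d)) := rfl
    rw [e] at H
    rw [← Multiset.cons_coe]
    cases c1 : Nat.ble (Nat.land w 2) 0 <;> cases c2 : Nat.ble (Nat.land w 1) 0 <;>
      simp only [c1, c2, cond_true, cond_false] at H
    · obtain ⟨a', b', c', d', S₀, S₁, S₂, S₃, k⟩ := ih _ _ _ _ _ _ _ _ _ h0 h1 h2 (h3.ad g) H
      refine ⟨a', b', c', d', S₀, S₁, S₂, S₃, k.1, k.2.1, k.2.2.1, k.2.2.2.1, k.2.2.2.2.1, ?_⟩
      rw [← k.2.2.2.2.2]; simp only [Multiset.cons_add, Multiset.add_cons]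
    · obtain ⟨a', b', c', d', S₀, S₁, S₂, S₃, k⟩ := ih _ _ _ _ _ _ _ _ _ h0 h1 (h2.ad g) h3 H
      refine ⟨a', b', c', d', S₀, S₁, S₂, S₃, k.1, k.2.1, k.2.2.1, k.2.2.2.1, k.2.2.2.2.1, ?_⟩
      rw [← k.2.2.2.2.2]; simp only [Multiset.cons_add, Multiset.add_cons]
    · obtain ⟨a', b', c', d', S₀, S₁, S₂, S₃, k⟩ := ih _ _ _ _ _ _ _ _ _ h0 (h1.ad g) h2 h3 H
      refine ⟨a', b', c', d', S₀, S₁, S₂, S₃, k.1, k.2.1, k.2.2.1, k.2.2.2.1, k.2.2.2.2.1, ?_⟩
      rw [← k.2.2.2.2.2]; simp only [Multiset.cons_add, Multiset.add_cons]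
    · obtain ⟨a', b', c', d', S₀, S₁, S₂, S₃, k⟩ := ih _ _ _ _ _ _ _ _ _ (h0.ad g) h1 h2 h3 H
      refine ⟨a', b', c', d', S₀, S₁, S₂, S₃, k.1, k.2.1, k.2.2.1, k.2.2.2.1, k.2.2.2.2.1, ?_⟩
      rw [← k.2.2.2.2.2]; simp only [Multiset.cons_add, Multiset.add_cons]

theorem gp_ok {g h a b c d : ℕ} (hg : 0 < g) (hh : 1 ≤ h) {A B C D : Multiset ℕ}
    (h0 : a * h ≤ A.sum) (h1 : b * h ≤ B.sum) (h2 : c * h ≤ C.sum) (h3 : d * h ≤ D.sum)
    (H : gp g a b c d = true) : GoodP (g * h) (A + B + C + D) := by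
  simp only [gp, Bool.and_eq_true, Nat.ble_eq, Nat.blt_eq, Nat.add_eq, Nat.mul_eq] at H
  obtain ⟨H1, H2, H3, H4⟩ := H
  obtain ⟨i0, u0, v0⟩ := om_ok hg hh h0
  obtain ⟨i1, u1, v1⟩ := om_ok hg hh h1
  obtain ⟨i2, u2, v2⟩ := om_ok hg hh h2
  obtain ⟨i3, u3, v3⟩ := om_ok hg hh h3
  have m2 := Nat.mul_le_mul_right h H2
  have m3 := Nat.mul_le_mul_right h H3
  have m4 := Nat.mul_le_mul_right h H4
  rw [mul_assoc, mul_assoc] at m2 m3
  rw [add_mul] at m3
  refine ⟨⟨4, ![A, B, C, D], ![i0, i1, i2, i3], ?_, ?_, ?_⟩, A, B + C, D, by rw [add_assoc A B C],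
    ?_, by omega, by rw [Multiset.sum_add]; omega⟩
  · rw [Fin.sum_univ_four]; rfl
  · intro i
    fin_cases i <;> assumption
  · rw [Fin.sum_univ_four]
    have H' : (1073741824 : ℝ) < (om g a : ℝ) + om g b + (om g c + om g d) := by exact_mod_cast H1
    change 1 < om1 (g * h) (i0 * A.sum) / i0 + om1 (g * h) (i1 * B.sum) / i1 +
      om1 (g * h) (i2 * C.sum) / i2 + om1 (g * h) (i3 * D.sum) / i3
    linarith
  · rintro rfl
    rw [Multiset.sum_zero] at h3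
    omega

theorem wit_ok {q : Pq} (hg : 0 < q.g) (h5 : 12 * q.g ≤ 5 * q.J₁) {h J P tl w : ℕ} (hh : 1 ≤ h)
    (h1 : q.J₁ * h ≤ J) (h2 : J ≤ q.J₂ * h) {B : List IV} {X : List ℕ} (hP : P + X.sum = J)
    (ht : tl * h ≤ P) (H : Forall₂ (In h) B X)
    (hw : wt (fn q tl) B w (0, 0) (0, 0) (0, 0) (0, 0) = true) :
    Good2 (q.g * h) (P ::ₘ (X : Multiset ℕ)) := by
  have z : Cl h (0, 0) 0 := ⟨by simp, by simp⟩
  obtain ⟨a, b, c, d, S₀, S₁, S₂, S₃, ⟨a1, a2⟩, ⟨b1, b2⟩, ⟨c1, c2⟩, ⟨d1, d2⟩, k, e⟩ :=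
    wt_ok _ H w _ _ _ _ 0 0 0 0 z z z z hw
  simp only [add_zero] at e
  have s : X.sum = S₀.sum + S₁.sum + S₂.sum + S₃.sum := by
    rw [← Multiset.sum_coe, e]; simp only [Multiset.sum_add]
  have e2 : P ::ₘ (X : Multiset ℕ) = P ::ₘ S₀ + S₁ + S₂ + S₃ := by
    rw [e]; simp only [Multiset.cons_add]
  unfold fn at k
  rw [Bool.or_eq_true] at k
  rcases k with k | k
  · simp only [Bool.and_eq_true, Nat.ble_eq, Nat.add_eq, Nat.mul_eq] at k
    have m1 := Nat.mul_le_mul_right h k.1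
    have m2 := Nat.mul_le_mul_right h k.2.1
    have m3 := Nat.mul_le_mul_right h k.2.2
    have m4 := Nat.mul_le_mul_right h h5
    simp only [add_mul, mul_assoc] at m1 m2 m3 m4
    refine Or.inr (Or.inl ⟨?_, P ::ₘ S₀, S₁ + S₂, S₃, by rw [e2, add_assoc _ S₁ S₂], ?_, ?_, ?_⟩)
    · rw [Multiset.sum_cons, Multiset.sum_coe]; omega
    · rw [Multiset.sum_cons]; omega
    · rw [Multiset.sum_add]; omega
    · omega
  · rw [e2]
    refine Or.inr (Or.inr (gp_ok hg hh ?_ b1 c1 d1 k))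
    rw [mj_eq, Multiset.sum_cons]
    simp only [Nat.add_eq, Nat.sub_eq]
    rcases max_choice (q.J₁ - (b.2 + c.2 + d.2)) (a.1 + tl) with m | m
    · rw [m, Nat.sub_mul, add_mul, add_mul]; omega
    · rw [m, add_mul]; omega

end

end Pool.Agent.Lib.MP_4b1228_nt.GS.Cert
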