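import Pool.Agent.Lib.MP_4b1228_nt.GS.Cert1

/-!
Soundness of the bound on one box, second version.
-/

namespace Pool.Agent.Lib.MP_4b1228_nt.GS.Cert

open Finset List Loss
open scoped Classical

noncomputable section

theorem cn_cons (t : IV → Bool) (I : IV) (D : List IV) :
    cn t (I :: D) = bif t I then cn t D + 1 else cn t D := rfl

theorem cn_up (t : IV → Bool) (P : ℕ → Prop) {D : List IV} {d : List ℕ}
    (H : Forall₂ (fun I b => P b → t I = true) D d) : (d : Multiset ℕ).countP P ≤ cn t D := by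
  induction H with
  | nil => simp
  | @cons I b D d h1 _ ih =>
    rw [← Multiset.cons_coe, Multiset.countP_cons, cn_cons]
    by_cases hb : P b
    · rw [h1 hb, if_pos hb, cond_true]; omega
    · rw [if_neg hb]
      cases t I
      · rw [cond_false]; omega
      · rw [cond_true]; omega

theorem cn_dn (t : IV → Bool) (P : ℕ → Prop) {D : List IV} {d : List ℕ}
    (H : Forall₂ (fun I b => t I = true → P b) D d) : cn t D ≤ (d : Multiset ℕ).countP P := by
  induction H with
  | nil => simp [cn]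
  | @cons I b D d h1 _ ih =>
    rw [← Multiset.cons_coe, Multiset.countP_cons, cn_cons]
    cases hv : t I
    · simp only [cond_false]; omega
    · rw [if_pos (h1 hv), cond_true]; omega

theorem yY_le (p : Pq) (M : Multiset ℕ) (c k : ℕ) (e : Bool) (hc : p.nn M ≤ c)
    (he : 3 ≤ M.card → p.τ ≤ M.sum → M.sum + p.g ≤ p.J₂ → (∀ b ∈ M, M.sum < p.g + b) → e = true)
    (t : Bool) (ht : t = true ↔ Odd M.card) (hk : k = bif e then val t c else 0) :
    p.yY M ≤ k := by
  unfold Pq.yY
  split_ifs with h1 h2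
  · rw [hk, he h1.1 h1.2.1 h1.2.2.1 h1.2.2.2, ht.2 h2, cond_true, val_t]
    push_cast; omega
  · have : t = false := by
      cases t
      · rfl
      · exact absurd (ht.1 rfl) h2
    rw [hk, he h1.1 h1.2.1 h1.2.2.1 h1.2.2.2, this, cond_true]
    show _ ≤ ((2 * c : ℕ) : ℤ)
    push_cast; omega
  · positivity

theorem yb_ok {q : Pq} (hg : 0 < q.g) {h J J₂ P tl XL XH tot : ℕ} (hh : 1 ≤ h)
    (h1 : q.J₁ * h ≤ J) (h2 : J ≤ q.J₂ * h) (h3 : J₂ ≤ q.J₂ * h) (hP : P + tot = J)
    (ht : tl * h ≤ P) {D : List IV} {d : List ℕ} (H : Ctx h XL XH tot D d) :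
    (q.sc h J₂).yY d + (q.sc h J₂).yY (P ::ₘ d) ≤
      ((List.rec 0 (fun I _ _ => Nat.add (ya q D.length (sL D) (sH D) I D)
        (yc q tl XL XH D.length (sL D) (sH D) I D)) D : ℕ) : ℤ) := by
  obtain ⟨H, N, nl, nh, c1, c2, c3, c4, c5⟩ := H
  obtain ⟨s1, s2⟩ := sum_bd H
  have hl := H.length_eq
  have hm := mem_bd H 0 0 0 (by simp) (by simp)
  have d1 : XL * h = sL D * h + nl * h := by rw [← c1, add_mul]
  have d2 : XH * h = sH D * h + nh * h := by rw [← c2, add_mul]
  cases H with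
  | nil => simp [Pq.yY]
  | @cons I b D d g1 g2 =>
    show _ ≤ ((ya q (I :: D).length (sL (I :: D)) (sH (I :: D)) I (I :: D) +
      yc q tl XL XH (I :: D).length (sL (I :: D)) (sH (I :: D)) I (I :: D) : ℕ) : ℤ)
    have hb : b ∈ ((b :: d : List ℕ) : Multiset ℕ) := by simp
    have h0 := (List.forall₂_cons.1 hm).1
    generalize (I :: D) = D' at *
    generalize (b :: d) = d' at *
    push_cast
    refine add_le_add (yY_le _ _ _ _ _
      (cn_up (fun I => Nat.ble (Nat.add (vt q.g q.J₂ I.2) I.2) (sH D')) _ ?_) ?_ _ ?_ rfl)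
      (yY_le _ _ ((bif Nat.ble (vt q.g q.J₂ (q.J₂ - XL)) (sH D') then 1 else 0) +
        cn (fun I => Nat.ble (Nat.add (Nat.add (vt q.g q.J₂ I.2) I.1) XL) (Nat.add q.J₂ (sL D'))) D')
        _ _ ?_ ?_ _ ?_ rfl)
    · refine hm.imp fun I b H hv => ?_
      have a1 := H.2.1
      have a2 := H.1.2
      simp only [zero_add] at a1
      have a3 : b ≤ d'.sum := by
        by_contra n
        obtain ⟨j, hj, k1, k2⟩ := hv
        have j2 : (2 : ℝ) ≤ j := by exact_mod_cast (Finset.mem_Icc.1 hj).1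
        have k3 := Asy.om1_le (q.sc h J₂).g (j * b)
        rw [Multiset.sum_coe, show d'.sum - b = 0 by omega, Nat.cast_zero, mul_zero, zero_div,
          add_zero, le_div_iff₀ (by linarith)] at k2
        linarith
      have a4 : I.2 ≤ sH D' := Nat.le_of_mul_le_mul_right (by omega) hh
      have := vt_up q.J₂ hg hh (U := sH D' - I.2) (by
        rw [Multiset.sum_coe, Nat.sub_mul]; omega) a2.le hv
      rw [Nat.ble_eq, Nat.add_eq]; omega
    · intro a1 a2 a3 a4
      have a5 := a4 b hb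
      have a6 := h0.2.2
      simp only [Multiset.sum_coe, Multiset.coe_card, zero_add, Pq.sc] at a1 a2 a3 a5 a6
      simp only [Bool.and_eq_true, Nat.ble_eq, Nat.blt_eq, Nat.add_eq]
      refine ⟨le_of_sc hh a2 s2, lt_of_sc (h := h) ?_, by omega,
        Nat.le_of_mul_le_mul_right ?_ hh⟩
      · rw [add_mul]; omega
      · rw [add_mul]; omega
    · rw [Nat.ble_eq, Multiset.coe_card, ← hl, Nat.odd_iff]
      show 1 ≤ D'.length % 2 ↔ _
      omega
    · unfold Pq.nn
      rw [Multiset.countP_cons, add_comm]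
      refine add_le_add ?_ (cn_up _ _ ?_)
      · split_ifs with hv
        · have := vt_up q.J₂ hg hh (U := sH D') (B := q.J₂ - XL) (by
            rw [Multiset.sum_cons, Multiset.sum_coe]; omega) (by rw [Nat.sub_mul]; omega) hv
          rw [Nat.ble_eq.mpr this]; rfl
        · omega
      · refine hm.imp fun I b H hv => ?_
        have a1 := H.1.1
        have a2 := H.1.2
        have a3 := H.2.2
        simp only [zero_add] at a3
        have a5 : b ≤ P + d'.sum := by
          by_contra n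
          obtain ⟨j, hj, k1, k2⟩ := hv
          have j2 : (2 : ℝ) ≤ j := by exact_mod_cast (Finset.mem_Icc.1 hj).1
          have k3 := Asy.om1_le (q.sc h J₂).g (j * b)
          rw [Multiset.sum_cons, Multiset.sum_coe, show P + d'.sum - b = 0 by omega, Nat.cast_zero,
            mul_zero, zero_div, add_zero, le_div_iff₀ (by linarith)] at k2
          linarith
        have a4 : I.1 + XL ≤ q.J₂ + sL D' :=
          Nat.le_of_mul_le_mul_right (by rw [add_mul, add_mul]; omega) hh
        have := vt_up q.J₂ hg hh (U := q.J₂ + sL D' - (I.1 + XL)) (by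
          rw [Multiset.sum_cons, Multiset.sum_coe, Nat.sub_mul, add_mul, add_mul]; omega) a2.le hv
        rw [Nat.ble_eq]
        simp only [Nat.add_eq]; omega
    · intro a1 a2 a3 a4
      have a5 := a4 b (Multiset.mem_cons_of_mem hb)
      have a6 := g1.2
      have a7 := h0.2.2
      simp only [Multiset.sum_cons, Multiset.card_cons, Multiset.sum_coe, Multiset.coe_card,
        Pq.sc, zero_add] at a1 a2 a3 a5 a7
      simp only [Bool.and_eq_true, Nat.ble_eq, Nat.blt_eq, Nat.add_eq]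
      refine ⟨lt_of_sc (h := h) ?_, by omega, Nat.le_of_mul_le_mul_right ?_ hh,
        lt_of_sc (h := h) ?_, Nat.le_of_mul_le_mul_right ?_ hh,
        Nat.le_of_mul_le_mul_right ?_ hh⟩ <;> simp only [add_mul] <;> omega
    · rw [Nat.ble_eq, Multiset.card_cons, Multiset.coe_card, ← hl, Nat.odd_iff]
      show D'.length % 2 ≤ 0 ↔ _
      omega

/-- the terms of the truncated sum -/
def ind (p : Pq) (od : Bool) (S : Multiset ℕ) : ℤ :=
  bif od then 1 - (if S.sum < p.τ then (-1 : ℤ) ^ S.card else -(-1) ^ S.card) else 0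

theorem t0_ok (q : Pq) {h : ℕ} (J₂ : ℕ) (od : Bool) (hh : 1 ≤ h) {D : List IV} {d : List ℕ}
    (H : Forall₂ (In h) D d) : ind (q.sc h J₂) od d ≤ t0 q od D.length (sL D) (sH D) := by
  obtain ⟨s1, s2⟩ := sum_bd H
  have hl := H.length_eq
  unfold ind t0
  cases od
  · simp
  simp only [cond_true, Bool.true_and, Multiset.sum_coe, Multiset.coe_card, ← hl, Pq.sc, bif_ble,
    show D.length.mod 2 = D.length % 2 from rfl]
  rcases Nat.even_or_odd D.length with e | e
  · rw [e.neg_one_pow, if_neg (c := 1 ≤ D.length % 2) (by have := Nat.even_iff.1 e; omega),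
      bif_ble]
    split_ifs with a b b
    · norm_num
    · norm_num
    · norm_num
    · exact absurd (le_of_sc hh (not_lt.1 a) s2) b
  · rw [e.neg_one_pow, if_pos (c := 1 ≤ D.length % 2) (by have := Nat.odd_iff.1 e; omega)]
    split_ifs with a
    · rw [Nat.blt_eq.mpr (lt_of_sc (h := h) (by omega))]; norm_num
    · simp only [neg_neg, sub_self]; positivity

theorem yV_nonneg (p : Pq) (M : Multiset ℕ) : 0 ≤ p.yV M := by
  unfold Pq.yV
  split_ifs <;> positivity

theorem rows_ok {q : Pq} (hg : 0 < q.g) {h J P PL : ℕ} (J₂ : ℕ) (hh : 1 ≤ h) (h1 : q.J₁ * h ≤ J)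
    (h2 : J ≤ q.J₂ * h) {B : List IV} {X : List ℕ} (hP : P + X.sum = J) (hL : PL * h ≤ P)
    (hτ : P < q.τ * h) (H : Forall₂ (In h) B X) :
    (rw0 q PL (sL B) B : ℤ) ≤ ((P ::ₘ (X : Multiset ℕ)).powerset.map (q.sc h J₂).yV).sum := by
  have hm := mem_bd H 0 0 0 (by simp) (by simp)
  unfold rw0
  rw [bif_ble]
  split_ifs with hc
  swap
  · exact sum_nn _ (yV_nonneg _) _
  have c1 := Nat.mul_le_mul_right h hc
  rw [Multiset.powerset_cons, Multiset.map_add, Multiset.sum_add, Multiset.map_map]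
  refine le_add_of_nonneg_of_le (sum_nn _ (yV_nonneg _) _) (le_trans ?_
    (single_le _ (fun M => yV_nonneg _ _) ((q.sc h J₂).row P) (fun b hb => ?_) _))
  · refine Int.ofNat_le.2 (cn_dn _ _ (hm.imp fun I b H hv => ⟨c1.trans hL, hτ, ?_⟩))
    refine sv_dn hg hh ?_ H.1.1 hv
    have := H.2.2
    show (sL B - I.1 + q.J₁ - q.J₂) * h ≤ q.J₁ * h - (P + b)
    rw [Nat.sub_mul, add_mul, Nat.sub_mul]
    simp only [zero_add] at this
    omega
  · show 1 ≤ (q.sc h J₂).yV (P ::ₘ {b})
    unfold Pq.yV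
    rw [if_pos (by simp)]
    refine Int.ofNat_le.2 (Multiset.countP_pos.2 ⟨b, by simp, ?_⟩)
    simpa using hb

theorem T_eq (p : Pq) (M : Multiset ℕ) : p.sv.T M = (((M.powerset.map p.y0).sum +
    2 * (M.powerset.map p.yV).sum - (M.powerset.map p.yY).sum : ℤ) : ℝ) := by
  rw [← Multiset.sum_map_mul_left, ← Multiset.sum_map_add, ← Multiset.sum_map_sub,
    Int.cast_multiset_sum, Multiset.map_map]
  rfl

theorem ev_ok (hS : Sign2St) {q : Pq} (hg : 0 < q.g) {h J J₂ P tl PL n : ℕ} (od : Bool)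
    (hh : 1 ≤ h) (hp : (q.sc h J₂).OK) (h1 : q.J₁ * h ≤ J) (h2 : J ≤ q.J₂ * h)
    (h3 : J₂ ≤ q.J₂ * h) {l : List IV} {x : List ℕ} (hP : P + x.sum = J)
    (H : Forall₂ (In h) l x) (ht : tl * h ≤ P) (hL : PL * h ≤ P) (hτ : P < q.τ * h)
    (hn : l.length = n) (ho : od = true ↔ Even n) :
    (q.sc h J₂).sv.L (P ::ₘ (x : Multiset ℕ)) ≤ ev q od n tl PL (sL l) (sH l) l := by
  unfold Sv.L
  split_ifs with hG
  · positivity
  obtain ⟨s1, s2⟩ := sum_bd H
  have hd : (Nat.blt q.J₂ (Nat.add (sL l) tl) || Nat.ble (Nat.add q.τ (sH l)) q.J₁) = false := by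
    rw [← Bool.not_eq_true]
    simp only [Bool.or_eq_true, Nat.blt_eq, Nat.ble_eq, Nat.add_eq]
    rintro (a | a)
    · have := Nat.mul_lt_mul_of_pos_right a hh
      rw [add_mul] at this; omega
    · have := Nat.mul_le_mul_right h a
      rw [add_mul] at this; omega
  have hr := rows_ok hg J₂ hh h1 h2 hP hL hτ H
  have hy := (hS _ hp).2.2 (P ::ₘ (x : Multiset ℕ)) (by
    rw [Multiset.sum_cons, Multiset.sum_coe, hP]; exact h1) fun a => hG (Or.inr a)
  have hc : (P ::ₘ (x : Multiset ℕ)).card = n + 1 := by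
    rw [Multiset.card_cons, Multiset.coe_card, ← H.length_eq, hn]
  have e0 : ((x : Multiset ℕ).powerset.map (ind (q.sc h J₂) od)).sum =
      ((bif od then Nat.pow 2 n else 0 : ℕ) : ℤ) -
        ((P ::ₘ (x : Multiset ℕ)).powerset.map (q.sc h J₂).y0).sum := by
    cases od
    · have : ¬Even n := fun a => by simpa using ho.2 a
      rw [hy.1 (by rw [hc]; exact Nat.even_add_one.2 this)]
      exact Multiset.sum_map_zero
    · rw [hy.2 P x rfl (by rw [hc]; exact (ho.1 rfl).add_one)]
      simp only [ind, cond_true, Multiset.sum_map_sub, Multiset.map_const', Multiset.sum_replicate,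
        Multiset.card_powerset, Multiset.coe_card, ← H.length_eq, hn, Nat.pow_eq]
      simp
  have he := enum_le (tm q od tl (sL l) (sH l))
    (fun S => ind (q.sc h J₂) od S + ((q.sc h J₂).yY S + (q.sc h J₂).yY (P ::ₘ S))) h (sL l)
    (sH l) x.sum (fun D d c =>
      (add_le_add (t0_ok q J₂ od hh c.1) (yb_ok hg hh h1 h2 h3 hP ht c)).trans
        (le_of_eq (by norm_cast))) H [] [] 0 0 0
    Forall₂.nil (by simp [sL]) (by simp [sH]) (by simp) (by simp) (by simp)
  have e3 : ((P ::ₘ (x : Multiset ℕ)).powerset.map (q.sc h J₂).yY).sum =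
      ((x : Multiset ℕ).powerset.map (q.sc h J₂).yY).sum +
      ((x : Multiset ℕ).powerset.map fun S => (q.sc h J₂).yY (P ::ₘ S)).sum := by
    simp only [Multiset.powerset_cons, Multiset.map_add, Multiset.sum_add, Multiset.map_map,
      Function.comp_def]
  simp only [Multiset.coe_nil, add_zero, Multiset.sum_map_add] at he
  unfold ev
  rw [hd, cond_false, T_eq, e3]
  have he' : _ ≤ ((enum (tm q od tl (sL l) (sH l)) l 0 0 0 [] : ℕ) : ℤ) := he
  have e4 : max 0 (-(((P ::ₘ (x : Multiset ℕ)).powerset.map (q.sc h J₂).y0).sum +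
      2 * ((P ::ₘ (x : Multiset ℕ)).powerset.map (q.sc h J₂).yV).sum -
      (((x : Multiset ℕ).powerset.map (q.sc h J₂).yY).sum +
      ((x : Multiset ℕ).powerset.map fun S => (q.sc h J₂).yY (P ::ₘ S)).sum))) ≤
      ((enum (tm q od tl (sL l) (sH l)) l 0 0 0 [] -
        ((bif od then Nat.pow 2 n else 0) + 2 * rw0 q PL (sL l) l) : ℕ) : ℤ) := by
    rw [e0] at he'
    omega
  exact_mod_cast e4

end

end Pool.Agent.Lib.MP_4b1228_nt.GS.Cert
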