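import Pool.Agent.Lib.MP_4b1228_nt.GS.Loss1

/-!
Sums over boxes, bisection, and the reduction to sorted tuples.
-/

namespace Pool.Agent.Lib.MP_4b1228_nt.GS.Loss

open Finset List
open scoped Classical

noncomputable section

/-- the lists in a box -/
def bx (h : ℕ) : List IV → Finset (List ℕ)
  | [] => {[]}
  | I :: B => (Finset.Ico (I.1 * h) (I.2 * h) ×ˢ bx h B).image fun w => w.1 :: w.2

theorem mem_bx (h : ℕ) (B : List IV) : ∀ X : List ℕ, X ∈ bx h B ↔ Forall₂ (In h) B X := by
  induction B with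
  | nil => intro X; simp [bx]
  | cons I B ih =>
    intro X
    simp only [bx, Finset.mem_image, Finset.mem_product, Finset.mem_Ico, ih, forall₂_cons_left_iff]
    constructor
    · rintro ⟨w, ⟨a, b⟩, rfl⟩
      exact ⟨w.1, w.2, a, b, rfl⟩
    · rintro ⟨x, X, a, b, rfl⟩
      exact ⟨(x, X), ⟨a, b⟩, rfl⟩

/-- the product of the inverses -/
def pr (X : List ℕ) : ℝ := (X.map fun x : ℕ => 1 / (x : ℝ)).prod

theorem pr_cons (x : ℕ) (X : List ℕ) : pr (x :: X) = 1 / (x : ℝ) * pr X := by simp [pr]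

theorem pr_nonneg (X : List ℕ) : 0 ≤ pr X := by
  induction X with
  | nil => simp [pr]
  | cons x X ih => rw [pr_cons]; positivity

theorem lin_sum (A : ℕ) (C : ℝ) (n : ℕ) :
    ∑ x ∈ Finset.Ico A (A + n), (C - x) = n * (2 * C - 2 * A - n + 1) / 2 := by
  induction n with
  | zero => simp
  | succ n ih =>
    rw [← add_assoc, Finset.sum_Ico_succ_top (by omega), ih]
    push_cast
    ring

theorem inv_sum {h lo hi : ℕ} (hh : 1 ≤ h) (hl : 0 < lo) :
    ∑ x ∈ Finset.Ico (lo * h) (hi * h), 1 / (x : ℝ) ≤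
      ((hi - lo : ℕ) * (hi + lo + 1) : ℝ) / (2 * (lo * hi)) := by
  rcases le_or_gt hi lo with c | c
  · rw [Finset.Ico_eq_empty_of_le (Nat.mul_le_mul_right h c), Finset.sum_empty]
    positivity
  obtain ⟨n, rfl⟩ := Nat.exists_eq_add_of_le c.le
  have h1 : (1 : ℝ) ≤ h := by exact_mod_cast hh
  have h2 : (0 : ℝ) < lo := by exact_mod_cast hl
  have h3 : (0 : ℝ) ≤ n := by positivity
  have h4 : ∑ x ∈ Finset.Ico (lo * h) ((lo + n) * h), 1 / (x : ℝ) ≤
      ∑ x ∈ Finset.Ico (lo * h) (lo * h + n * h),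
        ((lo * h + (lo + n) * h : ℝ) - x) / (lo * h * ((lo + n) * h)) := by
    rw [add_mul]
    refine Finset.sum_le_sum fun x hx => ?_
    obtain ⟨a, b⟩ := Finset.mem_Ico.1 hx
    have a' : (lo * h : ℝ) ≤ x := by exact_mod_cast a
    have b' : (x : ℝ) ≤ (lo + n) * h := by rw [add_mul]; exact_mod_cast b.le
    have : (0 : ℝ) < x := lt_of_lt_of_le (by positivity) a'
    rw [div_le_div_iff₀ this (by positivity)]
    nlinarith [mul_nonneg (sub_nonneg.2 a') (sub_nonneg.2 b')]
  refine h4.trans ?_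
  rw [← Finset.sum_div, lin_sum, Nat.add_sub_cancel_left,
    div_le_div_iff₀ (by positivity) (by positivity)]
  push_cast
  have : (0 : ℝ) ≤ n * h * (lo * (lo + n)) * (h - 1) :=
    mul_nonneg (by positivity) (sub_nonneg.2 h1)
  nlinarith

theorem sum_pr {h : ℕ} (hh : 1 ≤ h) (B : List IV) (hB : ∀ I ∈ B, 0 < I.1) :
    ∑ X ∈ bx h B, pr X ≤ (nu B : ℝ) / de B := by
  induction B with
  | nil => simp [bx, pr, nu, de]
  | cons I B ih =>
    have e1 : nu (I :: B) = (I.2 - I.1) * (I.2 + I.1 + 1) * nu B := rfl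
    have e2 : de (I :: B) = 2 * (I.1 * I.2) * de B := rfl
    rw [bx, Finset.sum_image (fun a _ b _ c => Prod.ext (List.cons.inj c).1 (List.cons.inj c).2),
      Finset.sum_product]
    simp only [pr_cons]
    rw [← Finset.sum_mul_sum, e1, e2, Nat.cast_mul _ (nu B), Nat.cast_mul _ (de B),
      ← div_mul_div_comm]
    refine mul_le_mul (le_of_le_of_eq (inv_sum hh (hB I (by simp))) ?_)
      (ih fun J hJ => hB J (by simp [hJ])) (Finset.sum_nonneg fun X _ => pr_nonneg X)
      (by positivity)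
    push_cast
    ring

/-- sorted lists -/
def Srt (J : ℕ) (X : List ℕ) : Prop := X ≠ [] ∧ X.Pairwise (· ≤ ·) ∧ ∀ x ∈ X, x + X.sum ≤ J

/-- the summand -/
def FF (p : Par) (J : ℕ) (X : List ℕ) : ℝ :=
  if Srt J X then p.L ((J - X.sum) ::ₘ X) * (1 / ((J - X.sum : ℕ) : ℝ) * pr X) else 0

theorem L_nonneg (p : Par) (M : Multiset ℕ) : 0 ≤ p.L M := by
  unfold Par.L
  split_ifs
  · rfl
  · exact_mod_cast le_max_left _ _

theorem FF_nonneg (p : Par) (J : ℕ) (X : List ℕ) : 0 ≤ FF p J X := by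
  unfold FF
  split_ifs
  · exact mul_nonneg (L_nonneg _ _) (mul_nonneg (by positivity) (pr_nonneg X))
  · rfl

/-- a bound on a box -/
def Bnd (q : Par) (B : List IV) (v : ℕ) : Prop :=
  ∀ h J : ℕ, 1 ≤ h → q.J₁ * h ≤ J → J ≤ q.J₂ * h →
    J * ∑ X ∈ bx h B, FF (q.scale h) J X ≤ v / 1099511627776

theorem Bnd.mono {q : Par} {B : List IV} {v w : ℕ} (H : Bnd q B v) (c : v ≤ w) : Bnd q B w :=
  fun h J a1 a2 a3 => (H h J a1 a2 a3).trans (by gcongr)

theorem rev_eq (l : List IV) : ∀ a, rev l a = l.reverse ++ a := by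
  induction l with
  | nil => intro a; rfl
  | cons I l ih =>
    intro a
    show rev l (I :: a) = _
    rw [ih]; simp

theorem sL_eq (B : List IV) : sL B = (B.map Prod.fst).sum := by
  induction B with
  | nil => rfl
  | cons I B ih => rw [sL_cons, ih]; rfl

theorem sH_eq (B : List IV) : sH B = (B.map Prod.snd).sum := by
  induction B with
  | nil => rfl
  | cons I B ih => rw [sH_cons, ih]; rfl

theorem leaf_ok (hW : WinSt) {q : Par} (hq : q.OK) (od : Bool) (B : List IV)
    (hB : ∀ I ∈ B, 0 < I.1) (ho : od = false → Odd B.length) : Bnd q B (leaf q od B) := by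
  intro h J hh h1 h2
  cases B with
  | nil => simp [bx, FF, Srt, leaf]
  | cons I l =>
  have e : leaf q od (I :: l) = wv q (ev q od I (rev l []) (sL (I :: l)) (sH (I :: l))) I.1
    (sH (I :: l)) (I :: l) := rfl
  rw [e, rev_eq, List.append_nil]
  have e1 : sL (I :: l) = sL (I :: l.reverse) := by simp [sL_eq, List.sum_reverse]
  have e2 : sH (I :: l) = sH (I :: l.reverse) := by simp [sH_eq, List.sum_reverse]
  set T := ev q od I l.reverse (sL (I :: l)) (sH (I :: l)) with hT
  set PL := (bif Nat.ble (Nat.add (sH (I :: l)) I.1) q.J₁ then Nat.sub q.J₁ (sH (I :: l))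
    else I.1) with hPL
  have hI := hB I (by simp)
  have hPL0 : 0 < PL := by
    rw [hPL]
    cases hc : Nat.ble (Nat.add (sH (I :: l)) I.1) q.J₁
    · exact hI
    · rw [Nat.ble_eq, Nat.add_eq] at hc
      show 0 < q.J₁ - sH (I :: l)
      omega
  have key : ∀ X ∈ bx h (I :: l), J * FF (q.scale h) J X ≤ T * (q.J₂ / PL) * pr X := by
    intro X hX
    rw [mem_bx] at hX
    have := pr_nonneg X
    unfold FF
    split_ifs with hS
    swap
    · rw [mul_zero]; positivity
    obtain ⟨s1, s2⟩ := sum_bd hX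
    cases hX with
    | @cons _ m _ x g1 g2 =>
    obtain ⟨-, -, hS⟩ := hS
    have a1 := hS m (by simp)
    have a2 : (q.scale h).L ((J - (m :: x).sum) ::ₘ ((m :: x : List ℕ) : Multiset ℕ)) ≤ T := by
      rw [hT, e1, e2, ← Multiset.cons_coe, ← Multiset.coe_reverse x]
      refine ev_ok hW hq od hh h1 h2 ?_ g1 (List.rel_reverse g2) (fun b hb => ?_) fun a => ?_
      · rw [List.sum_reverse, ← List.sum_cons]; omega
      · have := hS b (List.mem_cons_of_mem _ (List.mem_reverse.1 hb))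
        omega
      · have := ho a
        rw [List.length_cons, Nat.odd_add_one, Nat.not_odd_iff_even] at this
        rwa [List.length_reverse]
    have a3 : PL * h ≤ J - (m :: x).sum := by
      rw [hPL]
      cases Nat.ble (Nat.add (sH (I :: l)) I.1) q.J₁
      · have := g1.1
        rw [cond_false]; omega
      · show (q.J₁ - sH (I :: l)) * h ≤ _
        rw [Nat.sub_mul]; omega
    generalize J - (m :: x).sum = P at *
    have a4 : (J : ℝ) * (1 / P) ≤ q.J₂ / PL := by
      have b0 : 0 < PL * h := by positivity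
      have b1 : (0 : ℝ) < P := by exact_mod_cast b0.trans_le a3
      rw [mul_one_div, div_le_div_iff₀ b1 (by exact_mod_cast hPL0)]
      have : J * PL ≤ q.J₂ * P := by
        calc J * PL ≤ q.J₂ * h * PL := Nat.mul_le_mul_right _ h2
          _ = q.J₂ * (PL * h) := by ring
          _ ≤ q.J₂ * P := Nat.mul_le_mul_left _ a3
      exact_mod_cast this
    have := L_nonneg (q.scale h) (P ::ₘ ((m :: x : List ℕ) : Multiset ℕ))
    calc _ = (q.scale h).L (P ::ₘ ((m :: x : List ℕ) : Multiset ℕ)) * (J * (1 / P)) *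
          pr (m :: x) := by ring
      _ ≤ _ := by gcongr
  rw [Finset.mul_sum]
  refine (Finset.sum_le_sum key).trans ?_
  rw [← Finset.mul_sum]
  refine (mul_le_mul_of_nonneg_left (sum_pr hh _ hB) (by positivity)).trans ?_
  unfold wv
  cases hc : Nat.ble T 0
  · rw [cond_false, ← hPL]
    rcases Nat.eq_zero_or_pos (de (I :: l)) with d | d
    · rw [d]; simp; positivity
    have := Nat.lt_mul_div_succ (T * q.J₂ * 1099511627776 * nu (I :: l))
      (show 0 < PL * de (I :: l) by positivity)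
    have t : ((T * q.J₂ * 1099511627776 * nu (I :: l) : ℕ) : ℝ) ≤ ((PL * de (I :: l) *
      (T * q.J₂ * 1099511627776 * nu (I :: l) / (PL * de (I :: l)) + 1) : ℕ) : ℝ) := by
      exact_mod_cast this.le
    show _ ≤ ((T * q.J₂ * 1099511627776 * nu (I :: l) / (PL * de (I :: l)) + 1 : ℕ) : ℝ) / _
    generalize T * q.J₂ * 1099511627776 * nu (I :: l) / (PL * de (I :: l)) + 1 = w at t
    push_cast at t
    have b1 : (0 : ℝ) < PL := by exact_mod_cast hPL0
    have b2 : (0 : ℝ) < de (I :: l) := by exact_mod_cast d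
    rw [le_div_iff₀ (by norm_num)]
    refine le_of_mul_le_mul_left (le_of_eq_of_le ?_ t) (mul_pos b1 b2)
    field_simp
  · rw [Nat.ble_eq, Nat.le_zero] at hc
    rw [hc]; simp

theorem up_in {h c : ℕ} {B : List IV} {X : List ℕ} (H : Forall₂ (In h) B X)
    (hc : ∀ x ∈ X, c * h ≤ x) : Forall₂ (In h) (up c B) X := by
  induction H with
  | nil => exact Forall₂.nil
  | @cons I x B X g _ ih =>
    refine Forall₂.cons ⟨?_, g.2⟩ (ih fun y hy => hc y (List.mem_cons_of_mem _ hy))
    show (bif Nat.ble I.1 c then c else I.1) * h ≤ x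
    cases Nat.ble I.1 c
    · exact g.1
    · exact hc x (by simp)

theorem hi_in {h c x : ℕ} {I : IV} (g : In h I x) (a : x < c * h) :
    In h (I.1, bif Nat.ble I.2 c then I.2 else c) x := by
  refine ⟨g.1, ?_⟩
  show x < (bif Nat.ble I.2 c then I.2 else c) * h
  cases Nat.ble I.2 c
  · exact a
  · exact g.2

theorem split_in {h c : ℕ} {B : List IV} {X : List ℕ} (H : Forall₂ (In h) B X)
    (hs : X.Pairwise (· ≤ ·)) : ∀ i, (Forall₂ (In h) (setHi c B i) X ∧
      ∀ y, (∀ x ∈ X, y ≤ x) → y < c * h) ∨ Forall₂ (In h) (setLo c B i) X := by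
  induction H with
  | nil => intro i; exact Or.inr Forall₂.nil
  | @cons I x B X g g' ih =>
    intro i
    rw [List.pairwise_cons] at hs
    cases i with
    | zero =>
      rcases lt_or_ge x (c * h) with a | a
      · exact Or.inl ⟨Forall₂.cons (hi_in g a) g', fun y hy => (hy x (by simp)).trans_lt a⟩
      · refine Or.inr (up_in (Forall₂.cons g g') fun y hy => ?_)
        rcases List.mem_cons.1 hy with rfl | hy
        · exact a
        · exact a.trans (hs.1 y hy)
    | succ j =>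
      rcases ih hs.2 j with ⟨a, b⟩ | a
      · exact Or.inl ⟨Forall₂.cons (hi_in g (b x hs.1)) a,
          fun y hy => b y fun z hz => hy z (List.mem_cons_of_mem _ hz)⟩
      · exact Or.inr (Forall₂.cons g a)

theorem Bnd.split {q : Par} {B : List IV} (i c : ℕ) {v w : ℕ} (H1 : Bnd q (setHi c B i) v)
    (H2 : Bnd q (setLo c B i) w) : Bnd q B (v + w) := by
  intro h J a1 a2 a3
  have b : ∑ X ∈ bx h B, FF (q.scale h) J X ≤
      ∑ X ∈ bx h (setHi c B i) ∪ bx h (setLo c B i), FF (q.scale h) J X := by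
    rw [← Finset.sum_filter_ne_zero]
    refine Finset.sum_le_sum_of_subset_of_nonneg (fun X hX => ?_) fun X _ _ => FF_nonneg _ _ _
    obtain ⟨d1, d2⟩ := Finset.mem_filter.1 hX
    have d3 : Srt J X := by
      by_contra d3
      exact d2 (if_neg d3)
    rw [Finset.mem_union, mem_bx, mem_bx]
    exact (split_in ((mem_bx _ _ _).1 d1) d3.2.1 i).imp_left And.left
  have b2 : ∑ X ∈ bx h (setHi c B i) ∪ bx h (setLo c B i), FF (q.scale h) J X ≤
      ∑ X ∈ bx h (setHi c B i), FF (q.scale h) J X +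
        ∑ X ∈ bx h (setLo c B i), FF (q.scale h) J X := by
    rw [← Finset.sum_union_inter]
    exact le_add_of_nonneg_right (Finset.sum_nonneg fun X _ => FF_nonneg _ _ _)
  have := mul_le_mul_of_nonneg_left (b.trans b2) (Nat.cast_nonneg (α := ℝ) J)
  have c1 := H1 h J a1 a2 a3
  have c2 := H2 h J a1 a2 a3
  push_cast
  rw [add_div]
  linarith

/-- the invariant of the bisection -/
def Inv (n : ℕ) (B : List IV) : Prop := B.length = n ∧ ∀ I ∈ B, 0 < I.1

theorem inv_cons {n : ℕ} {I : IV} {B : List IV} : Inv (n + 1) (I :: B) ↔ 0 < I.1 ∧ Inv n B := by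
  simp only [Inv, List.length_cons, List.forall_mem_cons, Nat.add_right_cancel_iff]
  tauto

theorem inv_up (c : ℕ) (B : List IV) : ∀ n, Inv n B → Inv n (up (c + 1) B) := by
  induction B with
  | nil => intro n H; exact H
  | cons I B ih =>
    intro n H
    obtain rfl : n = B.length + 1 := H.1.symm
    rw [inv_cons] at H
    refine inv_cons.2 ⟨?_, ih _ H.2⟩
    show 0 < (bif Nat.ble I.1 (c + 1) then c + 1 else I.1)
    cases Nat.ble I.1 (c + 1)
    · exact H.1
    · exact Nat.succ_pos c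

theorem inv_set (c : ℕ) (B : List IV) :
    ∀ n i, Inv n B → Inv n (setHi (c + 1) B i) ∧ Inv n (setLo (c + 1) B i) := by
  induction B with
  | nil => intro n i H; exact ⟨H, H⟩
  | cons I B ih =>
    intro n i H
    have H' := H
    obtain rfl : n = B.length + 1 := H.1.symm
    rw [inv_cons] at H
    cases i with
    | zero => exact ⟨inv_cons.2 ⟨H.1, H.2⟩, inv_up c _ _ H'⟩
    | succ j => exact ⟨inv_cons.2 ⟨H.1, (ih _ j H.2).1⟩, inv_cons.2 ⟨H.1, (ih _ j H.2).2⟩⟩

theorem go_ok (hW : WinSt) {q : Par} (hq : q.OK) (od : Bool) (n : ℕ) (ho : od = false → Odd n)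
    (fuel : ℕ) : ∀ (code : ℕ) (B : List IV), Inv n B → Bnd q B (go q od fuel code B).1 := by
  have lf : ∀ B, Inv n B → Bnd q B (leaf q od B) := fun B hB =>
    leaf_ok hW hq od B hB.2 fun a => hB.1 ▸ ho a
  induction fuel with
  | zero => intro code B hB; exact lf B hB
  | succ f ih =>
    intro code B hB
    have e : (go q od (f + 1) code B).1 = (bif Nat.beq (Nat.mod code 2) 0 then
      (leaf q od B, Nat.div code 2) else
      ((go q od f (code / 16384) (setHi (code / 16 % 1024 + 1) B (code / 2 % 8))).1 +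
        (go q od f (go q od f (code / 16384) (setHi (code / 16 % 1024 + 1) B (code / 2 % 8))).2
          (setLo (code / 16 % 1024 + 1) B (code / 2 % 8))).1,
        (go q od f (go q od f (code / 16384) (setHi (code / 16 % 1024 + 1) B (code / 2 % 8))).2
          (setLo (code / 16 % 1024 + 1) B (code / 2 % 8))).2)).1 := rfl
    rw [e]
    cases Nat.beq (Nat.mod code 2) 0
    · exact Bnd.split _ _ (ih _ _ (inv_set _ B n _ hB).1) (ih _ _ (inv_set _ B n _ hB).2)
    · exact lf B hB

theorem rep_in {h : ℕ} {I : IV} {x : List ℕ} (H : ∀ b ∈ x, In h I b) :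
    Forall₂ (In h) (List.replicate x.length I) x := by
  induction x with
  | nil => exact Forall₂.nil
  | cons b x ih =>
    exact Forall₂.cons (H b (by simp)) (ih fun c hc => H c (List.mem_cons_of_mem _ hc))

theorem root_in (hS : StrSt) {q : Par} (hq : q.OK) {h J : ℕ} (hh : 1 ≤ h) (h1 : q.J₁ * h ≤ J)
    (h2 : J ≤ q.J₂ * h) (Y : List ℕ) (hY : Y.Pairwise (· ≤ ·)) (hJ : Y.sum = J)
    (hL : (q.scale h).L Y ≠ 0) : 3 ≤ Y.length ∧ Y.length ≤ 8 ∧
      Y.dropLast ∈ bx h (root q (Y.length - 2)) ∧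
      FF (q.scale h) J Y.dropLast = (q.scale h).L Y * pr Y := by
  have hq' := scale_OK hq hh
  have hG : ¬Good (q.scale h).g Y := fun c => hL (if_pos c)
  have hT : (q.scale h).T Y < 0 := by
    by_contra c
    refine hL ?_
    unfold Par.L
    rw [if_neg hG, max_eq_left (by omega)]; simp
  cases Y with
  | nil =>
    obtain ⟨a1, a2, a3, -⟩ := hq'
    simp only [Par.scale, List.sum_nil] at a1 a2 a3 hJ
    omega
  | cons m R =>
  rw [List.sum_cons] at hJ
  rw [List.pairwise_cons] at hY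
  obtain ⟨b1, b2, b3, b4⟩ := hS (q.scale h) m R hq' (fun x hx => hY.1 x (by simpa using hx))
    (by rw [Multiset.sum_coe, hJ]; exact h1) (by rw [Multiset.sum_coe, hJ]; exact h2) hG hT
  simp only [Multiset.coe_card, Multiset.mem_coe, Multiset.sum_coe, Par.scale, hJ] at b1 b2 b3 b4
  rcases List.eq_nil_or_concat R with rfl | ⟨x, P, rfl⟩
  · simp at b1
  rw [List.concat_eq_append] at *
  have e : (m :: (x ++ [P])).dropLast = m :: x := by
    rw [← List.cons_append, List.dropLast_concat]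
  have up : ∀ b ∈ x ++ [P], b < (q.J₂ - q.τ + 1) * h := fun b hb => by
    have := (b4 b hb).2
    rw [add_mul, Nat.sub_mul]; omega
  have hP := hY.1 P (by simp)
  have e2 : (m :: x).sum + P = J := by simpa [add_assoc] using hJ
  rw [e, mem_bx, List.length_cons]
  refine ⟨by omega, by omega, ?_, ?_⟩
  · rw [show (x ++ [P]).length + 1 - 2 = x.length by simp]
    refine Forall₂.cons ⟨?_, hP.trans_lt (up P (by simp))⟩ (rep_in fun b hb =>
      ⟨?_, up b (by simp [hb])⟩)
    · have := Nat.mul_le_mul_right h (Nat.div_mul_le_self (2 * q.J₁ - 5 * q.g) 2)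
      rw [Nat.sub_mul, mul_assoc, mul_assoc, mul_assoc, mul_comm 2 h, ← mul_assoc] at this
      show (2 * q.J₁ - 5 * q.g) / 2 * h ≤ m
      omega
    · have := (b4 b (by simp [hb])).1
      show (q.τ - q.g) * h ≤ b
      rw [Nat.sub_mul]; omega
  · have hp := List.pairwise_append.1 hY.2
    have s : Srt J (m :: x) := by
      refine ⟨by simp, List.pairwise_cons.2 ⟨fun b hb => hY.1 b (by simp [hb]), hp.1⟩,
        fun b hb => ?_⟩
      rcases List.mem_cons.1 hb with rfl | hb
      · omega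
      · have := hp.2.2 b hb P (by simp)
        omega
    unfold FF
    rw [if_pos s, show J - (m :: x).sum = P by omega]
    congr 1
    · congr 1
      rw [← List.cons_append, ← Multiset.coe_add, add_comm]; rfl
    · simp [pr]; ring

theorem term_le (hS : StrSt) {q : Par} (hq : q.OK) {h J : ℕ} (hh : 1 ≤ h) (h1 : q.J₁ * h ≤ J)
    (h2 : J ≤ q.J₂ * h) (r : ℕ) (S : Finset (Fin r → ℕ)) (hJ : ∀ jv ∈ S, ∑ i, jv i = J) :
    (∑ jv ∈ S, (q.scale h).L (vm jv) * ∏ i, 1 / (jv i : ℝ)) / r.factorial ≤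
      if r ∈ Finset.Icc 3 8 then ∑ X ∈ bx h (root q (r - 2)), FF (q.scale h) J X else 0 := by
  have a : ∀ jv ∈ S, (q.scale h).L (vm jv) * ∏ i, 1 / (jv i : ℝ) ≠ 0 → r ∈ Finset.Icc 3 8 ∧
      (List.ofFn (jv ∘ Tuple.sort jv)).dropLast ∈ bx h (root q (r - 2)) ∧
      FF (q.scale h) J (List.ofFn (jv ∘ Tuple.sort jv)).dropLast =
        (q.scale h).L (vm jv) * ∏ i, 1 / (jv i : ℝ) := by
    intro jv hj hn
    have e1 : ((List.ofFn (jv ∘ Tuple.sort jv) : List ℕ) : Multiset ℕ) = vm jv := by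
      rw [← Fin.univ_val_map, ← Multiset.map_map, Multiset.map_univ_val_equiv]; rfl
    have e2 : pr (List.ofFn (jv ∘ Tuple.sort jv)) = ∏ i, 1 / (jv i : ℝ) := by
      rw [pr, List.map_ofFn, List.prod_ofFn]
      exact Equiv.prod_comp (Tuple.sort jv) fun i => 1 / (jv i : ℝ)
    have := root_in hS hq hh h1 h2 (List.ofFn (jv ∘ Tuple.sort jv))
      (List.pairwise_ofFn.2 fun i j c => Tuple.monotone_sort jv c.le)
      (by rw [List.sum_ofFn, ← hJ jv hj]; exact Equiv.sum_comp (Tuple.sort jv) jv)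
      (by rw [e1]; exact left_ne_zero_of_mul hn)
    rw [List.length_ofFn, e1, e2] at this
    exact ⟨Finset.mem_Icc.2 ⟨this.1, this.2.1⟩, this.2.2⟩
  rw [← Finset.sum_filter_ne_zero]
  split_ifs with hr
  swap
  · rw [Finset.sum_eq_zero, zero_div]
    intro jv hj
    exact absurd (a jv (Finset.mem_filter.1 hj).1 (Finset.mem_filter.1 hj).2).1 hr
  rw [div_le_iff₀ (by positivity), Finset.sum_congr rfl fun jv hj =>
    (a jv (Finset.mem_filter.1 hj).1 (Finset.mem_filter.1 hj).2).2.2.symm]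
  have inj : Set.InjOn (fun jv : Fin r → ℕ =>
      (Tuple.sort jv, (List.ofFn (jv ∘ Tuple.sort jv)).dropLast))
      (S.filter fun jv => (q.scale h).L (vm jv) * ∏ i, 1 / (jv i : ℝ) ≠ 0 : Finset _) := by
    intro u hu v hv c
    have c1 : Tuple.sort u = Tuple.sort v := congrArg Prod.fst c
    have c2 : (List.ofFn (u ∘ Tuple.sort u)).dropLast = (List.ofFn (v ∘ Tuple.sort v)).dropLast :=
      congrArg Prod.snd c
    have c3 : (List.ofFn (u ∘ Tuple.sort u)).sum = (List.ofFn (v ∘ Tuple.sort v)).sum := by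
      rw [List.sum_ofFn, List.sum_ofFn]
      exact ((Equiv.sum_comp (Tuple.sort u) u).trans (hJ u (Finset.mem_filter.1 hu).1)).trans
        ((Equiv.sum_comp (Tuple.sort v) v).trans (hJ v (Finset.mem_filter.1 hv).1)).symm
    have n : ∀ w : Fin r → ℕ, List.ofFn w ≠ [] := fun w c => by
      have := congrArg List.length c
      rw [List.length_ofFn] at this
      have := (Finset.mem_Icc.1 hr).1
      simp at *; omega
    have d1 := List.dropLast_append_getLast (n (u ∘ Tuple.sort u))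
    have d2 := List.dropLast_append_getLast (n (v ∘ Tuple.sort v))
    rw [← d1, ← d2, List.sum_append, List.sum_append, c2, List.sum_singleton, List.sum_singleton,
      add_right_inj] at c3
    rw [c2, c3, d2] at d1
    have d3 := List.ofFn_injective d1
    rw [c1] at d3
    exact ((Tuple.sort v).surjective.injective_comp_right d3).symm
  rw [← Finset.sum_image (f := fun y : Equiv.Perm (Fin r) × List ℕ => FF (q.scale h) J y.2) inj]
  refine (Finset.sum_le_sum_of_subset_of_nonneg (t := Finset.univ ×ˢ bx h (root q (r - 2)))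
    (fun y hy => ?_) fun y _ _ => FF_nonneg _ _ _).trans (le_of_eq ?_)
  · obtain ⟨jv, hj, rfl⟩ := Finset.mem_image.1 hy
    exact Finset.mem_product.2 ⟨Finset.mem_univ _,
      (a jv (Finset.mem_filter.1 hj).1 (Finset.mem_filter.1 hj).2).2.1⟩
  · rw [Finset.sum_product]
    simp [Fintype.card_perm, mul_comm]

theorem loss_of (hS : StrSt) {q : Par} (hq : q.OK) (v : ℕ → ℕ)
    (hv : ∀ r ∈ Finset.Icc 3 8, Bnd q (root q (r - 2)) (v r))
    (hs : ∑ r ∈ Finset.Icc 3 8, v r < 1099511627776) : LossSt q := by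
  have hs' : ((∑ r ∈ Finset.Icc 3 8, v r : ℕ) : ℝ) < 1099511627776 := by exact_mod_cast hs
  refine ⟨1 - (∑ r ∈ Finset.Icc 3 8, v r : ℕ) / 1099511627776, by
    rw [sub_pos, div_lt_one (by norm_num)]; exact hs', ?_⟩
  filter_upwards [Filter.eventually_ge_atTop 1] with h hh J j₀ J' R h1 h2 _
  have hJ : 0 < J := by
    obtain ⟨a1, a2, a3, -⟩ := scale_OK hq hh
    simp only [Par.scale] at a1 a2 a3
    omega
  unfold Par.ls
  refine (Finset.sum_le_sum fun r _ => term_le hS hq hh h1 h2 r _ fun jv hj =>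
    (Finset.mem_filter.1 hj).2).trans ?_
  rw [← Finset.sum_filter, sub_sub_cancel, le_div_iff₀ (by exact_mod_cast hJ), mul_comm]
  refine (mul_le_mul_of_nonneg_left (Finset.sum_le_sum_of_subset_of_nonneg
    (t := Finset.Icc 3 8) (fun r hr => (Finset.mem_filter.1 hr).2) fun r _ _ =>
      Finset.sum_nonneg fun X _ => FF_nonneg _ _ _) (Nat.cast_nonneg J)).trans ?_
  rw [Finset.mul_sum]
  push_cast
  rw [Finset.sum_div]
  exact Finset.sum_le_sum fun r hr => hv r hr h J hh h1 h2

theorem root_ok (hW : WinSt) {q : Par} (hq : q.OK) (h1 : 5 * q.g + 2 ≤ 2 * q.J₁) (n : ℕ)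
    (od : Bool) (ho : od = false → Even n) {fuel code v : ℕ}
    (H : Nat.ble (go q od fuel code (root q n)).1 v = true) : Bnd q (root q n) v := by
  refine (go_ok hW hq od (n + 1) (fun a => (ho a).add_one) fuel code _ ?_).mono (Nat.ble_eq ▸ H)
  obtain ⟨a1, a2, a3, a4, -, -, -, -, a9, -⟩ := hq
  refine ⟨by simp [root], fun I hI => ?_⟩
  rcases List.mem_cons.1 hI with rfl | hI
  · show 0 < (2 * q.J₁ - 5 * q.g) / 2
    omega
  · rw [List.eq_of_mem_replicate hI]
    show 0 < q.τ - q.g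
    omega

end

end Pool.Agent.Lib.MP_4b1228_nt.GS.Loss
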