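import Pool.Agent.Lib.MP_4b1228_nt.GS.Cert2
import Pool.Agent.Lib.MP_4b1228_nt.GS.Loss2

/-!
Sums over boxes and bisection, second version.
-/

namespace Pool.Agent.Lib.MP_4b1228_nt.GS.Cert

open Finset List Loss
open scoped Classical

noncomputable section

/-- the summand -/
def FF (p : Pq) (J : ℕ) (X : List ℕ) : ℝ :=
  if Srt J X ∧ J < p.τ + X.sum then
    p.sv.L ((J - X.sum) ::ₘ X) * (1 / ((J - X.sum : ℕ) : ℝ) * pr X) else 0

theorem L_nonneg (s : Sv) (M : Multiset ℕ) : 0 ≤ s.L M := by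
  unfold Sv.L
  split_ifs
  · rfl
  · exact le_max_left _ _

theorem FF_nonneg (p : Pq) (J : ℕ) (X : List ℕ) : 0 ≤ FF p J X := by
  unfold FF
  split_ifs
  · exact mul_nonneg (L_nonneg _ _) (mul_nonneg (by positivity) (pr_nonneg X))
  · rfl

/-- a bound on a box -/
def Bnd (q : Pq) (B : List IV) (v : ℕ) : Prop :=
  ∀ h J J₂ : ℕ, 1 ≤ h → q.J₁ * h ≤ J → J ≤ J₂ → J₂ ≤ q.J₂ * h →
    J * ∑ X ∈ bx h B, FF (q.sc h J₂) J X ≤ v / 1099511627776

theorem Bnd.mono {q : Pq} {B : List IV} {v w : ℕ} (H : Bnd q B v) (c : v ≤ w) : Bnd q B w :=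
  fun h J J₂ a1 a2 a3 a4 => (H h J J₂ a1 a2 a3 a4).trans (by gcongr)

theorem sc_OK {q : Pq} {h J₂ : ℕ} (hq : q.OK) (hh : 1 ≤ h) (h1 : q.J₁ * h ≤ J₂)
    (h2 : J₂ ≤ q.J₂ * h) : (q.sc h J₂).OK := by
  obtain ⟨a1, a2, a3, a4, a5, a6⟩ := hq
  have b1 := Nat.mul_lt_mul_of_pos_right a1 hh
  have b2 := Nat.mul_le_mul_right h a2
  have b3 := Nat.mul_le_mul_right h a3
  have b5 := Nat.mul_lt_mul_of_pos_right a5 hh
  have b6 := Nat.mul_le_mul_right h a6
  simp only [add_mul, mul_assoc, zero_mul] at b1 b2 b3 b5 b6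
  exact ⟨b1, b2, b3, h1, by show 3 * J₂ < 8 * (q.g * h); omega, b6⟩

theorem lst_le {h P : ℕ} {B : List IV} {X : List ℕ} (H : Forall₂ (In h) B X)
    (hx : ∀ x ∈ X, x ≤ P) : lst B * h ≤ P := by
  induction H with
  | nil => simp [lst]
  | @cons I x B X g g' ih =>
    cases B with
    | nil => exact g.1.trans (hx x (by simp))
    | cons I' B => exact ih fun y hy => hx y (List.mem_cons_of_mem _ hy)

theorem lst_pos (B : List IV) (h0 : B ≠ []) (hB : ∀ I ∈ B, 0 < I.1) : 0 < lst B := by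
  induction B with
  | nil => exact absurd rfl h0
  | cons I B ih =>
    cases B with
    | nil => exact hB I (by simp)
    | cons I' B => exact ih (by simp) fun K hK => hB K (List.mem_cons_of_mem _ hK)

theorem leaf_ok (hS : Sign2St) {q : Pq} (hq : q.OK) (od : Bool) (n : ℕ) (B : List IV)
    (hB : Inv n B) (ho : od = true ↔ Even n) : Bnd q B (leaf q od n B) := by
  intro h J J₂ hh h1 h2 h3
  by_cases h0 : B = []
  · subst h0
    simp only [bx, FF, Srt, ne_eq, not_true_eq_false, false_and, if_false, Finset.sum_singleton,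
      mul_zero]
    positivity
  unfold leaf
  rw [rev_eq, List.append_nil]
  have e1 : sL B = sL B.reverse := by simp [sL_eq, List.sum_reverse]
  have e2 : sH B = sH B.reverse := by simp [sH_eq, List.sum_reverse]
  set PL := mj (Nat.sub q.J₁ (sH B)) (lst B) with hPL
  set T := ev q od n (lst B) PL (sL B) (sH B) B.reverse with hT
  have hPL0 : 0 < PL := by
    rw [hPL, mj_eq]
    exact lt_max_of_lt_right (lst_pos B h0 hB.2)
  have key : ∀ X ∈ bx h B, J * FF (q.sc h J₂) J X ≤ T * (q.J₂ / PL) * pr X := by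
    intro X hX
    rw [mem_bx] at hX
    have := pr_nonneg X
    unfold FF
    split_ifs with hs
    swap
    · rw [mul_zero]; positivity
    obtain ⟨s1, s2⟩ := sum_bd hX
    obtain ⟨⟨t1, -, t2⟩, t3⟩ := hs
    obtain ⟨m, hm⟩ := List.exists_mem_of_ne_nil X t1
    have a1 := t2 m hm
    have a5 : lst B * h ≤ J - X.sum := lst_le hX fun x hx => by have := t2 x hx; omega
    have a3 : PL * h ≤ J - X.sum := by
      rw [hPL, mj_eq]
      rcases max_choice (Nat.sub q.J₁ (sH B)) (lst B) with c | c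
      · rw [c, Nat.sub_eq, Nat.sub_mul]; omega
      · rw [c]; exact a5
    have a2 : (q.sc h J₂).sv.L ((J - X.sum) ::ₘ (X : Multiset ℕ)) ≤ T := by
      rw [hT, e1, e2, ← Multiset.coe_reverse X]
      refine ev_ok hS hq.1 od hh (sc_OK hq hh (h1.trans h2) h3) h1 (h2.trans h3) h3 ?_
        (List.rel_reverse hX) a5 a3 ?_ (by rw [List.length_reverse]; exact hB.1) ho
      · rw [List.sum_reverse]; omega
      · have : J < q.τ * h + X.sum := t3
        omega
    generalize J - X.sum = P at *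
    have a4 : (J : ℝ) * (1 / P) ≤ q.J₂ / PL := by
      have b0 : 0 < PL * h := by positivity
      have b1 : (0 : ℝ) < P := by exact_mod_cast b0.trans_le a3
      rw [mul_one_div, div_le_div_iff₀ b1 (by exact_mod_cast hPL0)]
      have : J * PL ≤ q.J₂ * P := by
        calc J * PL ≤ q.J₂ * h * PL := Nat.mul_le_mul_right _ (h2.trans h3)
          _ = q.J₂ * (PL * h) := by ring
          _ ≤ q.J₂ * P := Nat.mul_le_mul_left _ a3
      exact_mod_cast this
    have := L_nonneg (q.sc h J₂).sv (P ::ₘ (X : Multiset ℕ))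
    calc _ = (q.sc h J₂).sv.L (P ::ₘ (X : Multiset ℕ)) * (J * (1 / P)) * pr X := by ring
      _ ≤ _ := by gcongr
  rw [Finset.mul_sum]
  refine (Finset.sum_le_sum key).trans ?_
  rw [← Finset.mul_sum]
  refine (mul_le_mul_of_nonneg_left (sum_pr hh _ hB.2) (by positivity)).trans ?_
  unfold wv
  cases hc : Nat.ble T 0
  · rw [cond_false]
    rcases Nat.eq_zero_or_pos (de B) with d | d
    · rw [d]; simp; positivity
    have := Nat.lt_mul_div_succ (T * q.J₂ * 1099511627776 * nu B)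
      (show 0 < PL * de B by positivity)
    have t : ((T * q.J₂ * 1099511627776 * nu B : ℕ) : ℝ) ≤ ((PL * de B *
      (T * q.J₂ * 1099511627776 * nu B / (PL * de B) + 1) : ℕ) : ℝ) := by
      exact_mod_cast this.le
    show _ ≤ ((T * q.J₂ * 1099511627776 * nu B / (PL * de B) + 1 : ℕ) : ℝ) / _
    generalize T * q.J₂ * 1099511627776 * nu B / (PL * de B) + 1 = w at t
    push_cast at t
    have b1 : (0 : ℝ) < PL := by exact_mod_cast hPL0
    have b2 : (0 : ℝ) < de B := by exact_mod_cast d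
    rw [le_div_iff₀ (by norm_num)]
    refine le_of_mul_le_mul_left (le_of_eq_of_le ?_ t) (mul_pos b1 b2)
    field_simp
  · rw [Nat.ble_eq, Nat.le_zero] at hc
    rw [hc]; simp

theorem zero_ok {q : Pq} (hq : q.OK) (h5 : 12 * q.g ≤ 5 * q.J₁) (B : List IV) (w : ℕ)
    (hw : wt (fn q (lst B)) B w (0, 0) (0, 0) (0, 0) (0, 0) = true) : Bnd q B 0 := by
  intro h J J₂ hh h1 h2 h3
  rw [Finset.sum_eq_zero, mul_zero, Nat.cast_zero, zero_div]
  intro X hX
  rw [mem_bx] at hX
  unfold FF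
  split_ifs with hs
  swap
  · rfl
  obtain ⟨⟨t1, -, t2⟩, -⟩ := hs
  obtain ⟨m, hm⟩ := List.exists_mem_of_ne_nil X t1
  have a1 := t2 m hm
  have := wit_ok hq.1 h5 hh h1 (h2.trans h3) (P := J - X.sum) (by omega)
    (lst_le hX fun x hx => by have := t2 x hx; omega) hX hw
  have hb : (q.sc h J₂).sv.B ((J - X.sum) ::ₘ (X : Multiset ℕ)) := Or.inl this
  unfold Sv.L
  rw [if_pos hb, zero_mul]

theorem Bnd.split {q : Pq} {B : List IV} (i c : ℕ) {v w : ℕ} (H1 : Bnd q (setHi c B i) v)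
    (H2 : Bnd q (setLo c B i) w) : Bnd q B (v + w) := by
  intro h J J₂ a1 a2 a3 a4
  have b : ∑ X ∈ bx h B, FF (q.sc h J₂) J X ≤
      ∑ X ∈ bx h (setHi c B i) ∪ bx h (setLo c B i), FF (q.sc h J₂) J X := by
    rw [← Finset.sum_filter_ne_zero]
    refine Finset.sum_le_sum_of_subset_of_nonneg (fun X hX => ?_) fun X _ _ => FF_nonneg _ _ _
    obtain ⟨d1, d2⟩ := Finset.mem_filter.1 hX
    have d3 : Srt J X := by
      by_contra d3
      exact d2 (if_neg fun a => d3 a.1)
    rw [Finset.mem_union, mem_bx, mem_bx]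
    exact (split_in ((mem_bx _ _ _).1 d1) d3.2.1 i).imp_left And.left
  have b2 : ∑ X ∈ bx h (setHi c B i) ∪ bx h (setLo c B i), FF (q.sc h J₂) J X ≤
      ∑ X ∈ bx h (setHi c B i), FF (q.sc h J₂) J X +
        ∑ X ∈ bx h (setLo c B i), FF (q.sc h J₂) J X := by
    rw [← Finset.sum_union_inter]
    exact le_add_of_nonneg_right (Finset.sum_nonneg fun X _ => FF_nonneg _ _ _)
  have := mul_le_mul_of_nonneg_left (b.trans b2) (Nat.cast_nonneg (α := ℝ) J)
  have c1 := H1 h J J₂ a1 a2 a3 a4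
  have c2 := H2 h J J₂ a1 a2 a3 a4
  push_cast
  rw [add_div]
  linarith

theorem go_ok (hS : Sign2St) {q : Pq} (hq : q.OK) (h5 : 12 * q.g ≤ 5 * q.J₁) (od : Bool) (n : ℕ)
    (ho : od = true ↔ Even n) (fuel : ℕ) :
    ∀ (code : ℕ) (B : List IV), Inv n B → Bnd q B (go q od n fuel code B).1 := by
  induction fuel with
  | zero => intro code B hB; exact leaf_ok hS hq od n B hB ho
  | succ f ih =>
    intro code B hB
    have e : (go q od n (f + 1) code B).1 = (bif Nat.ble (Nat.land code 1) 0 then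
      (bif Nat.ble (Nat.land code 2) 0 then (leaf q od n B, Nat.shiftRight code 2) else
        (bif wt (fn q (lst B)) B (Nat.shiftRight (Nat.land code 4194303) 2)
            (0, 0) (0, 0) (0, 0) (0, 0) then 0 else leaf q od n B,
          Nat.shiftRight code (Nat.add (Nat.mul 2 n) 2))) else
      ((go q od n f (Nat.shiftRight code 16) (setHi (cc code) B (ci code))).1 +
        (go q od n f (go q od n f (Nat.shiftRight code 16) (setHi (cc code) B (ci code))).2
          (setLo (cc code) B (ci code))).1,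
        (go q od n f (go q od n f (Nat.shiftRight code 16) (setHi (cc code) B (ci code))).2
          (setLo (cc code) B (ci code))).2)).1 := rfl
    rw [e]
    cases Nat.ble (Nat.land code 1) 0
    · exact Bnd.split _ _ (ih _ _ (inv_set _ B n _ hB).1) (ih _ _ (inv_set _ B n _ hB).2)
    · cases Nat.ble (Nat.land code 2) 0
      · cases hw : wt (fn q (lst B)) B (Nat.shiftRight (Nat.land code 4194303) 2)
            (0, 0) (0, 0) (0, 0) (0, 0)
        · exact leaf_ok hS hq od n B hB ho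
        · exact zero_ok hq h5 B _ hw
      · exact leaf_ok hS hq od n B hB ho

theorem root_in (hS : Str2St) {q : Pq} (hq : q.OK) {h J J₂ : ℕ} (hh : 1 ≤ h) (h1 : q.J₁ * h ≤ J)
    (h2 : J ≤ J₂) (h3 : J₂ ≤ q.J₂ * h) (Y : List ℕ) (hY : Y.Pairwise (· ≤ ·)) (hJ : Y.sum = J)
    (hL : (q.sc h J₂).sv.L Y ≠ 0) : 3 ≤ Y.length ∧ Y.length ≤ 10 ∧
      Y.dropLast ∈ bx h (root q (Y.length - 2)) ∧
      FF (q.sc h J₂) J Y.dropLast = (q.sc h J₂).sv.L Y * pr Y := by
  have hq' := sc_OK hq hh (h1.trans h2) h3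
  have hG : ¬(q.sc h J₂).sv.B Y := fun c => hL (if_pos c)
  have hT : (q.sc h J₂).sv.T Y < 0 := by
    by_contra c
    refine hL ?_
    unfold Sv.L
    rw [if_neg hG, max_eq_left (by linarith)]
  cases Y with
  | nil =>
    obtain ⟨a1, a2, a3, -⟩ := hq'
    simp only [Pq.sc, List.sum_nil] at a1 a2 a3 hJ
    omega
  | cons m R =>
  rw [List.sum_cons] at hJ
  rw [List.pairwise_cons] at hY
  obtain ⟨b1, b2, b3, b4⟩ := hS (q.sc h J₂) m R hq' (fun x hx => hY.1 x (by simpa using hx))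
    (by rw [Multiset.sum_coe, hJ]; exact h1) (by rw [Multiset.sum_coe, hJ]; exact h2) hG hT
  simp only [Multiset.coe_card, Multiset.mem_coe, Pq.sc] at b1 b2 b3 b4
  rcases List.eq_nil_or_concat R with rfl | ⟨x, P, rfl⟩
  · simp at b1
  rw [List.concat_eq_append] at *
  have e : (m :: (x ++ [P])).dropLast = m :: x := by
    rw [← List.cons_append, List.dropLast_concat]
  have hP := hY.1 P (by simp)
  have hP2 := (b4 P (by simp)).2
  have e2 : (m :: x).sum + P = J := by simpa [add_assoc] using hJ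
  rw [e, mem_bx, List.length_cons]
  refine ⟨by omega, by omega, ?_, ?_⟩
  · rw [show (x ++ [P]).length + 1 - 2 = x.length by simp]
    refine Forall₂.cons ⟨?_, hP.trans_lt hP2⟩ (rep_in fun b hb =>
      ⟨?_, (b4 b (by simp [hb])).2⟩)
    · have := Nat.mul_le_mul_right h (Nat.div_mul_le_self (13 * q.J₁ - 31 * q.g) 13)
      rw [Nat.sub_mul, mul_assoc, mul_assoc, mul_assoc, mul_comm 13 h, ← mul_assoc] at this
      show (13 * q.J₁ - 31 * q.g) / 13 * h ≤ m
      omega
    · have := (b4 b (by simp [hb])).1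
      show (q.τ - q.g) * h ≤ b
      rw [Nat.sub_mul]; omega
  · have hp := List.pairwise_append.1 hY.2
    have s : Srt J (m :: x) := by
      refine ⟨by simp, List.pairwise_cons.2 ⟨fun b hb => hY.1 b (by simp [hb]), hp.1⟩,
        fun b hb => ?_⟩
      rcases List.mem_cons.1 hb with rfl | hb
      · omega
      · have := hp.2.2 b hb P (by simp)
        omega
    unfold FF
    rw [if_pos ⟨s, by show J < q.τ * h + (m :: x).sum; omega⟩,
      show J - (m :: x).sum = P by omega]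
    congr 1
    · congr 1
      rw [← List.cons_append, ← Multiset.coe_add, add_comm]; rfl
    · simp [pr]; ring

theorem term_le (hS : Str2St) {q : Pq} (hq : q.OK) {h J J₂ : ℕ} (hh : 1 ≤ h) (h1 : q.J₁ * h ≤ J)
    (h2 : J ≤ J₂) (h3 : J₂ ≤ q.J₂ * h) (r : ℕ) (S : Finset (Fin r → ℕ))
    (hJ : ∀ jv ∈ S, ∑ i, jv i = J) :
    (∑ jv ∈ S, (q.sc h J₂).sv.L (vm jv) * ∏ i, 1 / (jv i : ℝ)) / r.factorial ≤
      if r ∈ Finset.Icc 3 10 then ∑ X ∈ bx h (root q (r - 2)), FF (q.sc h J₂) J X else 0 := by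
  have a : ∀ jv ∈ S, (q.sc h J₂).sv.L (vm jv) * ∏ i, 1 / (jv i : ℝ) ≠ 0 → r ∈ Finset.Icc 3 10 ∧
      (List.ofFn (jv ∘ Tuple.sort jv)).dropLast ∈ bx h (root q (r - 2)) ∧
      FF (q.sc h J₂) J (List.ofFn (jv ∘ Tuple.sort jv)).dropLast =
        (q.sc h J₂).sv.L (vm jv) * ∏ i, 1 / (jv i : ℝ) := by
    intro jv hj hn
    have e1 : ((List.ofFn (jv ∘ Tuple.sort jv) : List ℕ) : Multiset ℕ) = vm jv := by
      rw [← Fin.univ_val_map, ← Multiset.map_map, Multiset.map_univ_val_equiv]; rfl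
    have e2 : pr (List.ofFn (jv ∘ Tuple.sort jv)) = ∏ i, 1 / (jv i : ℝ) := by
      rw [pr, List.map_ofFn, List.prod_ofFn]
      exact Equiv.prod_comp (Tuple.sort jv) fun i => 1 / (jv i : ℝ)
    have := root_in hS hq hh h1 h2 h3 (List.ofFn (jv ∘ Tuple.sort jv))
      (List.pairwise_ofFn.2 fun i j c => Tuple.monotone_sort jv c.le)
      (by rw [List.sum_ofFn, ← hJ jv hj]; exact Equiv.sum_comp (Tuple.sort jv) jv)
      (by rw [e1]; exact left_ne_zero_of_mul hn)
    rw [List.length_ofFn, e1, e2] at this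
    exact ⟨Finset.mem_Icc.2 ⟨this.1, this.2.1⟩, this.2.2⟩
  rw [← Finset.sum_filter_ne_zero]
  split_ifs with hr
  swap
  · rw [Finset.sum_eq_zero, zero_div]
    intro jv hj
    exact absurd (a jv (Finset.mem_filter.1 hj).1 (Finset.mem_filter.1 hj).2).1 hr
  rw [div_le_iff₀ (by positivity), Finset.sum_congr rfl fun jv hj =>
    (a jv (Finset.mem_filter.1 hj).1 (Finset.mem_filter.1 hj).2).2.2.symm]
  have inj : Set.InjOn (fun jv : Fin r → ℕ =>
      (Tuple.sort jv, (List.ofFn (jv ∘ Tuple.sort jv)).dropLast))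
      (S.filter fun jv => (q.sc h J₂).sv.L (vm jv) * ∏ i, 1 / (jv i : ℝ) ≠ 0 : Finset _) := by
    intro u hu v hv c
    have c1 : Tuple.sort u = Tuple.sort v := congrArg Prod.fst c
    have c2 : (List.ofFn (u ∘ Tuple.sort u)).dropLast = (List.ofFn (v ∘ Tuple.sort v)).dropLast :=
      congrArg Prod.snd c
    have c3 : (List.ofFn (u ∘ Tuple.sort u)).sum = (List.ofFn (v ∘ Tuple.sort v)).sum := by
      rw [List.sum_ofFn, List.sum_ofFn]
      exact ((Equiv.sum_comp (Tuple.sort u) u).trans (hJ u (Finset.mem_filter.1 hu).1)).trans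
        ((Equiv.sum_comp (Tuple.sort v) v).trans (hJ v (Finset.mem_filter.1 hv).1)).symm
    have n : ∀ w : Fin r → ℕ, List.ofFn w ≠ [] := fun w c => by
      have := congrArg List.length c
      rw [List.length_ofFn] at this
      have := (Finset.mem_Icc.1 hr).1
      simp at *; omega
    have d1 := List.dropLast_append_getLast (n (u ∘ Tuple.sort u))
    have d2 := List.dropLast_append_getLast (n (v ∘ Tuple.sort v))
    rw [← d1, ← d2, List.sum_append, List.sum_append, c2, List.sum_singleton, List.sum_singleton,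
      add_right_inj] at c3
    rw [c2, c3, d2] at d1
    have d3 := List.ofFn_injective d1
    rw [c1] at d3
    exact ((Tuple.sort v).surjective.injective_comp_right d3).symm
  rw [← Finset.sum_image (f := fun y : Equiv.Perm (Fin r) × List ℕ => FF (q.sc h J₂) J y.2) inj]
  refine (Finset.sum_le_sum_of_subset_of_nonneg (t := Finset.univ ×ˢ bx h (root q (r - 2)))
    (fun y hy => ?_) fun y _ _ => FF_nonneg _ _ _).trans (le_of_eq ?_)
  · obtain ⟨jv, hj, rfl⟩ := Finset.mem_image.1 hy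
    exact Finset.mem_product.2 ⟨Finset.mem_univ _,
      (a jv (Finset.mem_filter.1 hj).1 (Finset.mem_filter.1 hj).2).2.1⟩
  · rw [Finset.sum_product]
    simp [Fintype.card_perm, mul_comm]

theorem loss_of (hS : Str2St) {q : Pq} (hq : q.OK) (v : ℕ → ℕ)
    (hv : ∀ r ∈ Finset.Icc 3 10, Bnd q (root q (r - 2)) (v r))
    (hs : ∑ r ∈ Finset.Icc 3 10, v r < 1099511627776) : Loss2St q := by
  have hs' : ((∑ r ∈ Finset.Icc 3 10, v r : ℕ) : ℝ) < 1099511627776 := by exact_mod_cast hs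
  refine ⟨1 - (∑ r ∈ Finset.Icc 3 10, v r : ℕ) / 1099511627776, by
    rw [sub_pos, div_lt_one (by norm_num)]; exact hs', ?_⟩
  filter_upwards [Filter.eventually_ge_atTop 1] with h hh J J₂ j₀ J' R h1 h2 h3 _
  have hJ : 0 < J := by
    obtain ⟨a1, a2, a3, -⟩ := sc_OK hq hh (h1.trans h2) h3
    simp only [Pq.sc] at a1 a2 a3
    omega
  unfold Sv.ls
  refine (Finset.sum_le_sum fun r _ => term_le hS hq hh h1 h2 h3 r _ fun jv hj =>
    (Finset.mem_filter.1 hj).2).trans ?_
  rw [← Finset.sum_filter, sub_sub_cancel, le_div_iff₀ (by exact_mod_cast hJ), mul_comm]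
  refine (mul_le_mul_of_nonneg_left (Finset.sum_le_sum_of_subset_of_nonneg
    (t := Finset.Icc 3 10) (fun r hr => (Finset.mem_filter.1 hr).2) fun r _ _ =>
      Finset.sum_nonneg fun X _ => FF_nonneg _ _ _) (Nat.cast_nonneg J)).trans ?_
  rw [Finset.mul_sum]
  push_cast
  rw [Finset.sum_div]
  exact Finset.sum_le_sum fun r hr => hv r hr h J J₂ hh h1 h2 h3

theorem root_ok (hS : Sign2St) {q : Pq} (hq : q.OK) (h5 : 12 * q.g ≤ 5 * q.J₁) (h6 : 65 ≤ q.g)
    (n m : ℕ) (hm : m = n + 1) (od : Bool) (ho : od = true ↔ Even m) {fuel code v : ℕ}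
    (H : Nat.ble (go q od m fuel code (root q n)).1 v = true) : Bnd q (root q n) v := by
  subst hm
  refine (go_ok hS hq h5 od (n + 1) ho fuel code _ ?_).mono (Nat.ble_eq ▸ H)
  obtain ⟨a1, a2, -⟩ := hq
  refine ⟨by simp [root], fun I hI => ?_⟩
  rcases List.mem_cons.1 hI with rfl | hI
  · show 0 < (13 * q.J₁ - 31 * q.g) / 13
    omega
  · rw [List.eq_of_mem_replicate hI]
    show 0 < q.τ - q.g
    omega

end

end Pool.Agent.Lib.MP_4b1228_nt.GS.Cert
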