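import Pool.Agent.Lib.MP_4b1228_nt.GS.Loss2
import Pool.Agent.Lib.MP_4b1228_nt.GS.LossA
import Pool.Agent.Lib.MP_4b1228_nt.GS.LossB
import Pool.Agent.Lib.MP_4b1228_nt.GS.LossC
import Pool.Agent.Lib.MP_4b1228_nt.GS.LossD

/-!
The loss is smaller than the main term.
-/

namespace Pool.Agent.Lib.MP_4b1228_nt.GS

namespace Loss

theorem cert_OK : cert.OK := by
  simp [Par.OK, cert]

/-- the bounds -/
def vv (r : ℕ) : ℕ := [0, 0, 0, 669927627450, 64209540067, 252534658085, 100302138399, 907098414, 629349246].getD r 0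

end Loss

open Loss in
theorem loss (h1 : WinSt) (h2 : StrSt) : LossSt cert := by
  have a : 5 * cert.g + 2 ≤ 2 * cert.J₁ := by decide
  refine loss_of h2 cert_OK vv (fun r hr => ?_) (by decide)
  obtain ⟨b1, b2⟩ := Finset.mem_Icc.1 hr
  interval_cases r
  · have b := root_ok h1 cert_OK a 1 true (by simp) c3
    exact b
  · have b := root_ok h1 cert_OK a 2 false (by decide) c4
    exact b
  · have b := root_ok h1 cert_OK a 3 true (by simp) c5
    exact b
  · have b := root_ok h1 cert_OK a 4 false (by decide) c6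
    exact b
  · have b := root_ok h1 cert_OK a 5 true (by simp) c7
    exact b
  · have b := root_ok h1 cert_OK a 6 false (by decide) c8
    exact b

end Pool.Agent.Lib.MP_4b1228_nt.GS
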