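import Pool.Agent.Lib.MP_4b1228_nt.GS.St

/-! The theorem of Mertens for split primes. -/

namespace Pool.Agent.Lib.MP_4b1228_nt.GS

open Finset Real Filter Topology Pool.Agent.Lib.MP_9d27bc_nt.C
open scoped Classical

namespace Mert

theorem abel {a f : ℕ → ℝ} {c : ℝ} {M : ℕ} (hA : ∀ n, M ≤ n → ∑ m ∈ Ioc 0 n, a m ≤ c * n)
    (hf : ∀ n, M < n → f (n + 1) ≤ f n) (h0 : ∀ n, M < n → 0 ≤ f n) {N : ℕ} (hN : M ≤ N) :
    ∑ m ∈ Ioc M N, a m * f m ≤
      c * ∑ m ∈ Ioc M N, f m + (c * M - ∑ m ∈ Ioc 0 M, a m) * f (M + 1) := by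
  have key : ∑ m ∈ Ioc M N, a m * f m ≤ c * ∑ m ∈ Ioc M N, f m +
      (c * M - ∑ m ∈ Ioc 0 M, a m) * f (M + 1) - (c * N - ∑ m ∈ Ioc 0 N, a m) * f (N + 1) := by
    induction N, hN using Nat.le_induction with
    | base => simp
    | succ N hN ih =>
      have h1 := hA (N + 1) (by omega)
      have h2 := hf (N + 1) (by omega)
      rw [sum_Ioc_succ_top (Nat.zero_le N)] at h1
      rw [sum_Ioc_succ_top hN, sum_Ioc_succ_top hN, sum_Ioc_succ_top (Nat.zero_le N)]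
      push_cast at h1 ⊢
      nlinarith [mul_nonneg (sub_nonneg.2 h1) (sub_nonneg.2 h2)]
  nlinarith [mul_nonneg (sub_nonneg.2 (hA N hN)) (h0 (N + 1) (by omega))]

theorem step {n : ℕ} (h : 1 ≤ n) : 1 / ((n + 1 : ℕ) : ℝ) ≤ log (n + 1 : ℕ) - log n := by
  have h1 : (0 : ℝ) < n := by exact_mod_cast h
  have h2 := one_sub_inv_le_log_of_pos (show (0 : ℝ) < (n + 1 : ℕ) / n by positivity)
  rw [log_div (by positivity) h1.ne'] at h2
  refine le_trans (le_of_eq ?_) h2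
  push_cast
  field_simp
  ring

theorem lharm {M N : ℕ} (h : 2 ≤ M) (hN : M ≤ N) :
    ∑ m ∈ Ioc M N, 1 / ((m : ℝ) * log m) ≤ log (log N) - log (log M) := by
  induction N, hN using Nat.le_induction with
  | base => simp
  | succ N hN ih =>
    rw [sum_Ioc_succ_top hN]
    have h1 : 0 < log (N : ℝ) := log_pos (by exact_mod_cast (by omega : 1 < N))
    have h2 : 0 < log ((N + 1 : ℕ) : ℝ) := log_pos (by exact_mod_cast (by omega : 1 < N + 1))
    have h3 := one_sub_inv_le_log_of_pos (div_pos h2 h1)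
    rw [log_div h2.ne' h1.ne', inv_div, one_sub_div h2.ne'] at h3
    have h4 := div_le_div_of_nonneg_right (step (n := N) (by omega)) h2.le
    rw [div_div] at h4
    linarith

theorem step' {n : ℕ} (h : 1 ≤ n) : log (n + 1 : ℕ) - log n ≤ 1 / (n : ℝ) := by
  have h1 : (0 : ℝ) < n := by exact_mod_cast h
  have h2 := log_le_sub_one_of_pos (show (0 : ℝ) < (n + 1 : ℕ) / n by positivity)
  rw [log_div (by positivity) h1.ne'] at h2
  refine h2.trans (le_of_eq ?_)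
  push_cast
  field_simp
  ring

/-- The weight of a prime. -/
noncomputable def wp (m : ℕ) : ℝ := if Split m then 2 * log m else 0

theorem wp_nonneg (m : ℕ) : 0 ≤ wp m := by
  have := log_natCast_nonneg m
  unfold wp
  split_ifs <;> positivity

theorem wp_sum (n : ℕ) : ∑ m ∈ Ioc 0 n, wp m = 2 * Shared.PNTAP.thetaAP (1 : ZMod 4) n := by
  rw [Shared.PNTAP.thetaAP, Nat.floor_natCast, sum_filter, mul_sum]
  refine sum_congr rfl fun m _ => ?_
  have h4 : (m : ZMod 4) = 1 ↔ m % 4 = 1 := (ZMod.natCast_eq_natCast_iff' m 1 4).trans Iff.rfl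
  simp only [wp, Split, h4, mul_ite, mul_zero]
  congr

theorem wp_lim : Tendsto (fun n : ℕ => (∑ m ∈ Ioc 0 n, wp m) / n) atTop (𝓝 1) := by
  have t := ((Shared.PNTAP.theta_ap (q := 4) (a := 1) isUnit_one).comp
    tendsto_natCast_atTop_atTop).const_mul 2
  have e : Nat.totient 4 = 2 := by decide
  rw [e, Nat.cast_two, mul_inv_cancel₀ two_ne_zero] at t
  refine t.congr fun n => ?_
  rw [wp_sum, mul_div_assoc]
  rfl

theorem bounds {δ : ℝ} (hδ : 0 < δ) : ∃ M : ℕ, 2 ≤ M ∧ ∀ n, M ≤ n →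
    (1 - δ) * n ≤ ∑ m ∈ Ioc 0 n, wp m ∧ ∑ m ∈ Ioc 0 n, wp m ≤ (1 + δ) * n := by
  obtain ⟨M, hM⟩ := eventually_atTop.1 ((wp_lim.eventually_const_lt (sub_lt_self 1 hδ)).and
    (wp_lim.eventually_lt_const (lt_add_of_pos_right 1 hδ)))
  refine ⟨max 2 M, le_max_left _ _, fun n hn => ?_⟩
  obtain ⟨a, b⟩ := hM n ((le_max_right _ _).trans hn)
  have h0 : (0 : ℝ) < n := by exact_mod_cast (by omega : 0 < n)
  exact ⟨((lt_div_iff₀ h0).1 a).le, ((div_lt_iff₀ h0).1 b).le⟩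

theorem two {δ : ℝ} (hδ : 0 < δ) (δ1 : δ ≤ 1) {M₀ : ℕ} (hM : ∀ n, M₀ ≤ n →
      (1 - δ) * n ≤ ∑ m ∈ Ioc 0 n, wp m ∧ ∑ m ∈ Ioc 0 n, wp m ≤ (1 + δ) * n)
    {f : ℕ → ℝ} {G : ℝ → ℝ} (f0 : ∀ n, 2 ≤ n → 0 ≤ f n ∧ f (n + 1) ≤ f n ∧
      f (n + 1) ≤ G (n + 1 : ℕ) - G n ∧ G (n + 1 : ℕ) - G n ≤ f n)
    (hG : ∀ x y, 2 ≤ x → x ≤ y → G x ≤ G y) {y y' : ℝ} {M N : ℕ} (h2 : 2 ≤ M) (h0 : M₀ ≤ M)
    (hN : M ≤ N) (a1 : (M : ℝ) ≤ y) (a2 : y ≤ M + 1) (b1 : (N : ℝ) ≤ y') (b2 : y' ≤ N + 1)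
    (hy : y ≤ y') :
    |∑ m ∈ Ioc M N, wp m * f m - (G y' - G y)| ≤ δ * (G y' - G y) + (2 * δ * M + 3) * f M := by
  have M2 : (2 : ℝ) ≤ M := by exact_mod_cast h2
  have N2 : (2 : ℝ) ≤ N := by exact_mod_cast h2.trans hN
  have u := abel (a := wp) (f := f) (c := 1 + δ) (M := M) (fun n hn => (hM n (h0.trans hn)).2)
    (fun n hn => (f0 n (by omega)).2.1) (fun n hn => (f0 n (by omega)).1) hN
  have l := abel (a := fun m => -wp m) (f := f) (c := -(1 - δ)) (M := M)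
    (fun n hn => by rw [sum_neg_distrib]; linarith [(hM n (h0.trans hn)).1])
    (fun n hn => (f0 n (by omega)).2.1) (fun n hn => (f0 n (by omega)).1) hN
  simp only [neg_mul, sum_neg_distrib] at l
  have s : ∑ m ∈ Ioc M N, f m ≤ G N - G M ∧ G (N + 1 : ℕ) - G (M + 1 : ℕ) ≤ ∑ m ∈ Ioc M N, f m ∧
      f N ≤ f M := by
    clear u l b1 b2 N2
    induction N, hN using Nat.le_induction with
    | base => simp
    | succ N hN ih =>
      rw [sum_Ioc_succ_top hN]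
      have := f0 N (by omega)
      have := f0 (N + 1) (by omega)
      refine ⟨by linarith, by linarith, by linarith⟩
  obtain ⟨c1, c2, c3, c4⟩ := f0 M h2
  obtain ⟨d1, d2, d3, d4⟩ := f0 N (h2.trans hN)
  have c5 := (f0 (M + 1) (by omega)).1
  have g1 := hG M y M2 a1
  have g2 := hG y (M + 1 : ℕ) (M2.trans a1) (by exact_mod_cast a2)
  have g3 := hG N y' N2 b1
  have g4 := hG y' (N + 1 : ℕ) (N2.trans b1) (by exact_mod_cast b2)
  have g5 := hG y y' (M2.trans a1) hy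
  obtain ⟨w1, w2⟩ := hM M h0
  have e1 : ((1 + δ) * M - ∑ m ∈ Ioc 0 M, wp m) * f (M + 1) ≤ 2 * δ * M * f M :=
    (mul_le_mul_of_nonneg_right (by linarith) c5).trans
      (mul_le_mul_of_nonneg_left c2 (by positivity))
  have e2 : (-((1 - δ) * M) - -∑ m ∈ Ioc 0 M, wp m) * f (M + 1) ≤ 2 * δ * M * f M :=
    (mul_le_mul_of_nonneg_right (by linarith) c5).trans
      (mul_le_mul_of_nonneg_left c2 (by positivity))
  have s1 : ∑ m ∈ Ioc M N, f m ≤ G y' - G y + f M := by linarith [s.1]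
  have s2 : G y' - G y - f M ≤ ∑ m ∈ Ioc M N, f m := by linarith [s.2.1]
  have t1 := mul_le_mul_of_nonneg_left s1 (show 0 ≤ 1 + δ by linarith)
  have t2 := mul_le_mul_of_nonneg_left s2 (show 0 ≤ 1 - δ by linarith)
  have t3 := mul_le_mul_of_nonneg_right δ1 c1
  have t4 := mul_nonneg hδ.le c1
  rw [abs_le]
  constructor <;> nlinarith

theorem sum_sp {y y' : ℝ} (h : 0 ≤ y) : ∑ l ∈ sp y y', 2 / (l : ℝ) =
    ∑ m ∈ Ioc ⌊y⌋₊ ⌊y'⌋₊, wp m * (1 / ((m : ℝ) * log m)) := by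
  have e : sp y y' = (Ioc ⌊y⌋₊ ⌊y'⌋₊).filter Split := by
    ext l
    rw [sp, mem_filter, mem_filter, mem_range, mem_Ioc, Nat.floor_lt h, Nat.lt_succ_iff]
    tauto
  rw [e, sum_filter]
  refine sum_congr rfl fun m _ => ?_
  unfold wp
  split_ifs with hm
  · have : 0 < log (m : ℝ) := log_pos (by exact_mod_cast hm.1.one_lt)
    field_simp
  · rw [zero_mul]

theorem one {a b : ℝ} (a0 : 0 < a) (hab : a ≤ b) :
    Tendsto (fun y : ℝ => ∑ l ∈ sp (y ^ a) (y ^ b), 2 / (l : ℝ)) atTop (𝓝 (log (b / a))) := by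
  have r0 : 0 ≤ log (b / a) := log_nonneg ((one_le_div a0).2 hab)
  refine Metric.tendsto_nhds.2 fun τ hτ => ?_
  obtain ⟨δ, hδ, δ1, δ2⟩ : ∃ δ : ℝ, 0 < δ ∧ δ ≤ 1 ∧ δ * (log (b / a) + 6) ≤ τ :=
    ⟨min 1 (τ / (log (b / a) + 6)), by positivity, min_le_left _ _,
      (le_div_iff₀ (by positivity)).1 (min_le_right _ _)⟩
  obtain ⟨M₀, M2, hM⟩ := bounds hδ
  filter_upwards [(tendsto_rpow_atTop a0).eventually_ge_atTop (M₀ + 2 + 1 / δ),
    eventually_gt_atTop 1] with X x1 x3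
  have X0 : 0 < X := by linarith
  have m2 : (2 : ℝ) ≤ M₀ := by exact_mod_cast M2
  have d0 : 0 < 1 / δ := by positivity
  have y2 : X ^ a ≤ X ^ b := rpow_le_rpow_of_exponent_le x3.le hab
  have p1 := (Nat.lt_floor_add_one (X ^ a)).le
  have p2 : (⌊X ^ a⌋₊ : ℝ) ≤ X ^ a := Nat.floor_le (by linarith)
  have p3 := (Nat.lt_floor_add_one (X ^ b)).le
  have p4 : (⌊X ^ b⌋₊ : ℝ) ≤ X ^ b := Nat.floor_le (by linarith)
  have MN := Nat.floor_mono y2
  rw [dist_eq, sum_sp (by linarith)]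
  generalize ⌊X ^ a⌋₊ = M at *
  generalize ⌊X ^ b⌋₊ = N at *
  have q0 : (M₀ : ℝ) + 1 ≤ M := by linarith
  have q1 : M₀ + 1 ≤ M := by exact_mod_cast q0
  have M0 : (0 : ℝ) < M := by linarith
  have q2 : 1 / (M : ℝ) ≤ δ := by
    rw [div_le_iff₀ M0, mul_comm, ← div_le_iff₀ hδ]; linarith
  have B := two hδ δ1 hM (f := fun m => 1 / ((m : ℝ) * log m)) (G := fun x => log (log x))
    (fun n hn => by
      have n0 : (2 : ℝ) ≤ n := by exact_mod_cast hn
      have l0 : 0 < log (n : ℝ) := log_pos (by linarith)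
      have l1 : log (n : ℝ) ≤ log ((n + 1 : ℕ) : ℝ) :=
        log_le_log (by linarith) (by push_cast; linarith)
      refine ⟨by positivity, one_div_le_one_div_of_le (by positivity)
        (mul_le_mul (by push_cast; linarith) l1 l0.le (by positivity)), ?_, ?_⟩
      · simpa using lharm hn (Nat.le_succ n)
      · have h2 := log_le_sub_one_of_pos (div_pos (l0.trans_le l1) l0)
        rw [log_div (l0.trans_le l1).ne' l0.ne', div_sub_one l0.ne'] at h2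
        refine h2.trans ((div_le_div_of_nonneg_right (step' (by omega)) l0.le).trans_eq ?_)
        rw [div_div])
    (fun x y hx hy => log_le_log (log_pos (by linarith)) (log_le_log (by linarith) hy))
    (by omega) (by omega) MN p2 p1 p4 p3 y2
  have lX : log X ≠ 0 := (log_pos x3).ne'
  have b0 : 0 < b := by linarith
  simp only [log_rpow X0] at B
  rw [← log_div (mul_ne_zero b0.ne' lX) (mul_ne_zero a0.ne' lX), mul_div_mul_right _ _ lX] at B
  have lM : 1 ≤ log (M : ℝ) := by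
    rw [le_log_iff_exp_le M0]; linarith [exp_one_lt_three]
  have k1 : (2 * δ * M + 3) * (1 / (M : ℝ)) ≤ 5 * δ := by
    rw [add_mul]
    have : 2 * δ * M * (1 / (M : ℝ)) = 2 * δ := by field_simp
    linarith
  have k2 : (2 * δ * M + 3) * (1 / ((M : ℝ) * log M)) ≤ 5 * δ :=
    (mul_le_mul_of_nonneg_left (one_div_le_one_div_of_le M0 (le_mul_of_one_le_right M0.le lM))
      (by positivity)).trans k1
  linarith

theorem tel {σ : ℝ} (h : 1 < σ) {M N : ℕ} (h1 : 1 ≤ M) (hN : M ≤ N) :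
    ∑ m ∈ Ioc M N, (m : ℝ) ^ (-σ) ≤ 1 / (σ - 1) := by
  have M1 : (1 : ℝ) ≤ M := by exact_mod_cast h1
  have N1 : (M : ℝ) ≤ N := by exact_mod_cast hN
  have t := AntitoneOn.sum_le_integral_Ico (f := fun x : ℝ => x ^ (-σ)) hN fun x hx y _ e =>
    rpow_le_rpow_of_nonpos (by linarith [hx.1]) e (by linarith)
  rw [integral_rpow (Or.inr ⟨by linarith, Set.notMem_uIcc_of_lt (by linarith) (by linarith)⟩),
    sum_Ico_add' (fun m : ℕ => (m : ℝ) ^ (-σ)), Ico_add_one_add_one_eq_Ioc] at t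
  refine t.trans ?_
  have u1 : (M : ℝ) ^ (-σ + 1) ≤ 1 := rpow_le_one_of_one_le_of_nonpos M1 (by linarith)
  have u2 : 0 ≤ (N : ℝ) ^ (-σ + 1) := by positivity
  rw [← neg_div_neg_eq, neg_sub, neg_add, neg_neg, ← sub_eq_add_neg]
  exact div_le_div_of_nonneg_right (by linarith) (by linarith)

theorem dir : ∃ C : ℝ, 0 < C ∧ ∀ σ : ℝ, 1 < σ → ∀ n,
    ∑ l ∈ range n, wp l * (l : ℝ) ^ (-σ) ≤ 11 / 10 / (σ - 1) + C := by
  obtain ⟨M, M2, hM⟩ := bounds (δ := 1 / 10) (by norm_num)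
  have M0 : (2 : ℝ) ≤ M := by exact_mod_cast M2
  refine ⟨11 / 10 * M, by positivity, fun σ h n => ?_⟩
  have p : ∀ l : ℕ, 0 ≤ wp l * (l : ℝ) ^ (-σ) := fun l => mul_nonneg (wp_nonneg l) (by positivity)
  have e1 : ∀ l : ℕ, 1 ≤ l → (l : ℝ) ^ (-σ) ≤ 1 := fun l hl =>
    rpow_le_one_of_one_le_of_nonpos (by exact_mod_cast hl) (by linarith)
  have s1 : ∑ l ∈ range n, wp l * (l : ℝ) ^ (-σ) ≤ ∑ l ∈ Ioc 0 (M + n), wp l * (l : ℝ) ^ (-σ) := by
    refine (sum_le_sum_of_subset_of_nonneg (range_mono (by omega : n ≤ M + n + 1))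
      fun l _ _ => p l).trans_eq (sum_subset (fun l hl => ?_) fun l h1 h2 => ?_).symm
    · exact mem_range.2 (Nat.lt_succ_of_le (mem_Ioc.1 hl).2)
    · rw [mem_range] at h1
      rw [mem_Ioc] at h2
      rw [show l = 0 by omega, wp, if_neg fun c => Nat.not_prime_zero c.1, zero_mul]
  have s2 : ∑ l ∈ Ioc 0 M, wp l * (l : ℝ) ^ (-σ) ≤ ∑ l ∈ Ioc 0 M, wp l :=
    sum_le_sum fun l hl => mul_le_of_le_one_right (wp_nonneg l) (e1 l (mem_Ioc.1 hl).1)
  have s3 := abel (f := fun l => (l : ℝ) ^ (-σ)) (fun k hk => (hM k hk).2) (fun k hk =>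
    rpow_le_rpow_of_nonpos (by exact_mod_cast (by omega : 0 < k)) (by simp) (by linarith))
    (fun k _ => by positivity) (Nat.le_add_right M n)
  have s4 := tel h (by omega) (Nat.le_add_right M n)
  have s5 := mul_le_of_le_one_right (sub_nonneg.2 (hM M le_rfl).2) (e1 (M + 1) (by omega))
  rw [← sum_Ioc_consecutive _ (Nat.zero_le M) (Nat.le_add_right M n)] at s1
  rw [div_eq_mul_one_div (11 / 10 : ℝ)]
  linarith

end Mert

open Mert in
theorem mert : MertSt := by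
  refine ⟨fun a b => one, ?_, ?_⟩
  · obtain ⟨C, hC, h⟩ := dir
    refine ⟨C, hC, fun σ h1 _ => ?_⟩
    have e : (fun l : ℕ => if Split l then 2 * log l / (l : ℝ) ^ σ else 0) =
        fun l => wp l * (l : ℝ) ^ (-σ) := funext fun l => by
      rw [wp, ite_mul, zero_mul, rpow_neg l.cast_nonneg, div_eq_mul_inv]
    have p : ∀ l : ℕ, 0 ≤ wp l * (l : ℝ) ^ (-σ) := fun l =>
      mul_nonneg (wp_nonneg l) (by positivity)
    rw [e]
    exact ⟨summable_of_sum_range_le p (h σ h1), Real.tsum_le_of_sum_range_le p (h σ h1)⟩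
  · refine (ArithmeticFunction.vonMangoldt.summable_residueClass_non_primes_div
      (0 : ZMod 1)).congr fun n => ?_
    rw [ite_div, zero_div, ArithmeticFunction.vonMangoldt.residueClass,
      Set.indicator_of_mem (show n ∈ {n : ℕ | (n : ZMod 1) = 0} from Subsingleton.elim _ _)]

end Pool.Agent.Lib.MP_4b1228_nt.GS
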