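import Pool.Agent.Lib.MP_4b1228_nt.GS.St

/-!
An inequality of the type of Gallagher.
-/

namespace Pool.Agent.Lib.MP_4b1228_nt.GS

open MeasureTheory hiding integral_add integral_sub integral_const_mul integral_mul_const
  norm_integral_le_integral_norm integral_const integral_finsetSum integral_div integral_neg
open intervalIntegral

namespace Oct

lemma ib {E : Type} [NormedAddCommGroup E] [MeasurableSpace E] [BorelSpace E]
    [SecondCountableTopology E] {f : ℝ → E} (hf : Measurable f) {M : ℝ} (hM : ∀ s, ‖f s‖ ≤ M)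
    (a b : ℝ) : IntervalIntegrable f volume a b :=
  (intervalIntegrable_const (c := M)).mono_fun' hf.aestronglyMeasurable
    (Filter.Eventually.of_forall hM)

variable {D : ℝ → ℝ} {M : ℝ}

lemma isq (hD : Measurable D) (hM : ∀ s, |D s| ≤ M) (x a b : ℝ) :
    IntervalIntegrable (fun s => (D (s + x) - D s) ^ 2) volume a b := by
  refine ib (M := (M + M) ^ 2) (by fun_prop) (fun s => ?_) a b
  rw [norm_pow, Real.norm_eq_abs]
  exact pow_le_pow_left₀ (abs_nonneg _) ((abs_sub _ _).trans (add_le_add (hM _) (hM _))) 2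

lemma iφ (hD : Measurable D) (hM : ∀ s, |D s| ≤ M) {φ : ℝ → ℂ} (hφ : Continuous φ) (x a b : ℝ) :
    IntervalIntegrable (fun s => φ s * (D (s + x) : ℂ)) volume a b :=
  (ib (f := fun s => (D (s + x) : ℂ)) (M := M) (by fun_prop)
    (fun s => by simpa using hM _) a b).continuousOn_mul hφ.continuousOn

lemma iφ0 (hD : Measurable D) (hM : ∀ s, |D s| ≤ M) {φ : ℝ → ℂ} (hφ : Continuous φ) (a b : ℝ) :
    IntervalIntegrable (fun s => φ s * (D s : ℂ)) volume a b := by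
  simpa using iφ hD hM hφ 0 a b

lemma cs (hD : Measurable D) (hM : ∀ s, |D s| ≤ M) {φ : ℝ → ℂ} (hφ : Continuous φ) {x α β : ℝ}
    (hα : 0 < α) (hβ : 0 < β) (h1 : ∫ s in (-1 : ℝ)..1, ‖φ s‖ ^ 2 ≤ α ^ 2)
    (h2 : ∫ s in (-1 : ℝ)..1, (D (s + x) - D s) ^ 2 ≤ β ^ 2) :
    ‖∫ s in (-1 : ℝ)..1, (φ s * (D (s + x) : ℂ) - φ s * (D s : ℂ))‖ ≤ α * β := by
  have i1 : IntervalIntegrable (fun s => ‖φ s‖ ^ 2) volume (-1) 1 :=
    (hφ.norm.pow 2).intervalIntegrable _ _
  have i2 := isq hD hM x (-1) 1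
  refine (norm_integral_le_integral_norm (by norm_num)).trans ?_
  refine (integral_mono_on (by norm_num) ((iφ hD hM hφ x _ _).sub (iφ0 hD hM hφ _ _)).norm
    ((i1.const_mul (β / α / 2)).add (i2.const_mul (α / β / 2))) fun s _ => ?_).trans ?_
  · rw [← mul_sub, norm_mul, ← Complex.ofReal_sub, Complex.norm_real, Real.norm_eq_abs,
      ← sq_abs (D _ - _)]
    generalize ‖φ s‖ = u
    generalize |D (s + x) - D s| = v
    have e : β / α / 2 * u ^ 2 + α / β / 2 * v ^ 2 - u * v = (β * u - α * v) ^ 2 / (2 * α * β) := by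
      field_simp; ring
    have : 0 ≤ (β * u - α * v) ^ 2 / (2 * α * β) := by positivity
    linarith
  · rw [integral_add (i1.const_mul _) (i2.const_mul _), integral_const_mul, integral_const_mul]
    have e : α * β = β / α / 2 * α ^ 2 + α / β / 2 * β ^ 2 := by field_simp; ring
    rw [e]
    gcongr

lemma kb (hD : Measurable D) (hM : ∀ s, |D s| ≤ M) {φ : ℝ → ℂ} (hφ : Continuous φ)
    {x α β N : ℝ} (hN : ∀ s, ‖φ s‖ ≤ N) (hx : 0 ≤ x)
    (hα : 0 < α) (hβ : 0 < β) (h1 : ∫ s in (-1 : ℝ)..1, ‖φ s‖ ^ 2 ≤ α ^ 2)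
    (h2 : ∫ s in (-1 : ℝ)..1, (D (s + x) - D s) ^ 2 ≤ β ^ 2) :
    ‖∫ s in (-1 : ℝ)..1, (φ s - φ (s - x)) * (D s : ℂ)‖ ≤ α * β + 2 * x * N * M := by
  have hφ' : Continuous fun s => φ (s - x) := by fun_prop
  have j := iφ0 hD hM hφ'
  have e1 : ∫ s in (-1 : ℝ)..1, φ s * (D (s + x) : ℂ) =
      ∫ s in (-1 + x)..(1 + x), φ (s - x) * (D s : ℂ) := by
    rw [← integral_comp_add_right]; simp
  have e2 : ∫ s in (-1 : ℝ)..1, (φ s - φ (s - x)) * (D s : ℂ) =
      -(∫ s in (-1 : ℝ)..1, (φ s * (D (s + x) : ℂ) - φ s * (D s : ℂ))) +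
        ((∫ s in (1 : ℝ)..(1 + x), φ (s - x) * (D s : ℂ)) -
          ∫ s in (-1 : ℝ)..(-1 + x), φ (s - x) * (D s : ℂ)) := by
    simp only [sub_mul]
    rw [integral_sub (iφ0 hD hM hφ _ _) (j _ _), integral_sub (iφ hD hM hφ x _ _) (iφ0 hD hM hφ _ _),
      e1, ← integral_interval_sub_interval_comm' (j _ _) (j _ _) (j _ _)]
    ring
  have b : ∀ a : ℝ, ‖∫ s in a..(a + x), φ (s - x) * (D s : ℂ)‖ ≤ N * M * x := fun a => by
    have := norm_integral_le_of_norm_le_const (a := a) (b := a + x) (C := N * M)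
      (f := fun s => φ (s - x) * (D s : ℂ)) fun s _ => by
        rw [norm_mul, Complex.norm_real, Real.norm_eq_abs]
        exact mul_le_mul (hN _) (hM _) (abs_nonneg _) ((norm_nonneg _).trans (hN 0))
    rwa [add_sub_cancel_left, abs_of_nonneg hx] at this
  rw [e2]
  refine (norm_add_le _ _).trans ?_
  rw [norm_neg]
  have := (norm_sub_le _ _).trans (add_le_add (b 1) (b (-1)))
  have := cs hD hM hφ hα hβ h1 h2
  linarith

lemma gal (hD : Measurable D) (hM : ∀ s, |D s| ≤ M) {G G' : ℝ → ℂ}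
    (hG : ∀ s, HasDerivAt G (G' s) s) (hc : Continuous G') {d α₀ α₁ β N₀ N₁ : ℝ} (hd : 0 < d)
    (hN₀ : ∀ s, ‖G s‖ ≤ N₀) (hN₁ : ∀ s, ‖G' s‖ ≤ N₁) (hα₀ : 0 < α₀) (hα₁ : 0 < α₁) (hβ : 0 < β)
    (h0 : ∫ s in (-1 : ℝ)..1, ‖G s‖ ^ 2 ≤ α₀ ^ 2) (h1 : ∫ s in (-1 : ℝ)..1, ‖G' s‖ ^ 2 ≤ α₁ ^ 2)
    (h2 : ∀ x, 0 ≤ x → x ≤ d → ∫ s in (-1 : ℝ)..1, (D (s + x) - D s) ^ 2 ≤ β ^ 2) :
    ‖∫ s in (-1 : ℝ)..1, G' s * (D s : ℂ)‖ ≤
      α₀ * β / d + α₁ * β + 2 * N₀ * M + 2 * d * N₁ * M := by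
  have cG : Continuous G := continuous_iff_continuousAt.2 fun s => (hG s).continuousAt
  have M0 : 0 ≤ M := (abs_nonneg _).trans (hM 0)
  have N0 : 0 ≤ N₁ := (norm_nonneg _).trans (hN₁ 0)
  have sw : ∫ x in (0 : ℝ)..d, ∫ s in (-1 : ℝ)..1, (G' s - G' (s - x)) * (D s : ℂ) =
      ∫ s in (-1 : ℝ)..1, ∫ x in (0 : ℝ)..d, (G' s - G' (s - x)) * (D s : ℂ) := by
    refine intervalIntegral_intervalIntegral_swap (Measure.integrableOn_of_bounded (M := (N₁ + N₁) * M)
      ?_ (Measurable.aestronglyMeasurable ?_) (Filter.Eventually.of_forall fun z => ?_))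
    · rw [Measure.volume_eq_prod, Measure.prod_prod]
      exact ENNReal.mul_ne_top measure_Ioc_lt_top.ne measure_Ioc_lt_top.ne
    · have := hc.measurable
      unfold Function.uncurry
      fun_prop
    · simp only [Function.uncurry, norm_mul, Complex.norm_real, Real.norm_eq_abs]
      exact mul_le_mul ((norm_sub_le _ _).trans (add_le_add (hN₁ _) (hN₁ _))) (hM _) (abs_nonneg _)
        (by positivity)
  have e1 : ∀ s, ∫ x in (0 : ℝ)..d, (G' s - G' (s - x)) * (D s : ℂ) =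
      d * (G' s * D s) - (G s - G (s - d)) * D s := fun s => by
    rw [integral_mul_const, integral_sub (by simp)
      ((by fun_prop : Continuous fun x => G' (s - x)).intervalIntegrable _ _),
      integral_comp_sub_left (fun x => G' x), integral_eq_sub_of_hasDerivAt (fun x _ => hG x)
        (hc.intervalIntegrable _ _)]
    simp only [intervalIntegral.integral_const, sub_zero, Complex.real_smul]
    ring
  simp only [e1] at sw
  rw [integral_sub ((iφ0 hD hM hc _ _).const_mul _)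
    (iφ0 hD hM (by fun_prop : Continuous fun s => G s - G (s - d)) _ _), integral_const_mul] at sw
  have b1 := kb hD hM cG hN₀ hd.le hα₀ hβ h0 (h2 d hd.le le_rfl)
  have b2 := norm_integral_le_of_norm_le_const (a := 0) (b := d) (C := α₁ * β + 2 * d * N₁ * M)
    (f := fun x => ∫ s in (-1 : ℝ)..1, (G' s - G' (s - x)) * (D s : ℂ)) fun x hx => by
      rw [Set.uIoc_of_le hd.le] at hx
      refine (kb hD hM hc hN₁ hx.1.le hα₁ hβ h1 (h2 x hx.1.le hx.2)).trans ?_
      have := hx.2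
      gcongr
  rw [sub_zero, abs_of_pos hd, sw] at b2
  have b3 := (norm_add_le _ _).trans (add_le_add b2 b1)
  rw [sub_add_cancel, norm_mul, Complex.norm_real, Real.norm_of_nonneg hd.le] at b3
  refine le_of_mul_le_mul_left (b3.trans (le_of_eq ?_)) hd
  field_simp
  ring

lemma step {G G' : ℝ → ℂ} (hG : ∀ s, HasDerivAt G (G' s) s) (hc : Continuous G') {s : ℝ}
    (h1 : -1 < s) (h2 : s ≤ 1) :
    G s = G 1 - ∫ u in (-1 : ℝ)..1, (if s ≤ u then (1 : ℂ) else 0) * G' u := by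
  have e : (fun u => (if s ≤ u then (1 : ℂ) else 0) * G' u) = (Set.Ici s).indicator G' := by
    funext u; simp [Set.indicator]
  have e' : Set.Ioc (-1 : ℝ) 1 ∩ Set.Ici s = Set.Icc s 1 := by
    ext u
    exact ⟨fun h => ⟨h.2, h.1.2⟩, fun h => ⟨⟨h1.trans_le h.1, h.2⟩, h.1⟩⟩
  rw [e, integral_of_le (by norm_num), setIntegral_indicator measurableSet_Ici, e',
    integral_Icc_eq_integral_Ioc, ← integral_of_le h2,
    integral_eq_sub_of_hasDerivAt (fun x _ => hG x) (hc.intervalIntegrable _ _)]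
  ring

end Oct

end Pool.Agent.Lib.MP_4b1228_nt.GS
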