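import Pool.Agent.Lib.MP_4b1228_nt.GS.St
import Pool.Agent.Lib.MP_9d27bc_nt.C.TwoRow

/-! The pointwise bound for the smooth sums: counting, shifts and the short sums. -/

namespace Pool.Agent.Lib.MP_4b1228_nt.GS

open Finset Filter Pool.Agent.Lib.MP_9d27bc_nt.C Pool.Agent.Lib.MP_9d27bc_nt.C.Two
open Pool.Agent.Lib.MP_028aa5_nt
open scoped Classical

noncomputable section

namespace PW

theorem mem_sqr (a b : ℤ) (L : ℕ) (v : GI) :
    v ∈ sqr a b L ↔ a ≤ v.re ∧ v.re < a + L ∧ b ≤ v.im ∧ v.im < b + L := by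
  simp only [sqr, mem_image, mem_product, mem_Ico, Prod.exists]
  constructor
  · rintro ⟨x, y, ⟨⟨h1, h2⟩, h3, h4⟩, rfl⟩
    exact ⟨h1, h2, h3, h4⟩
  · rintro ⟨h1, h2, h3, h4⟩
    exact ⟨v.re, v.im, ⟨⟨h1, h2⟩, h3, h4⟩, rfl⟩

theorem card_sqr (a b : ℤ) (L : ℕ) : #(sqr a b L) = L ^ 2 := by
  unfold sqr
  rw [card_image_of_injective, card_product, Int.card_Ico, Int.card_Ico]
  · simp [sq]
  · intro w w' h
    simp only [Zsqrtd.mk.injEq] at h
    exact Prod.ext h.1 h.2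

theorem card_Sq (hB : Bas) {a b : ℝ} (ha : 0 ≤ a) (hab : a ≤ b) :
    (#(Sq a b) : ℝ) ≤ 4 * (b - a + 1) * (2 * b + 1) := by
  obtain ⟨d, hd⟩ := Nat.exists_eq_add_of_le (Nat.floor_mono hab)
  set a' := ⌊a⌋₊ with ha'
  set b' := ⌊b⌋₊ with hb'
  let A : Finset ℤ := Ioc (a' : ℤ) b' ∪ Ico (-(b' : ℤ)) (-a')
  let B : Finset ℤ := Icc (-(b' : ℤ)) b'
  have h1 : Sq a b ⊆ (A ×ˢ B ∪ B ×ˢ A).image fun w => (⟨w.1, w.2⟩ : GI) := fun m hm => by
    obtain ⟨m1, m2⟩ := (hB.mem_Sq a b m).1 hm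
    have m3 : a' < mx m := (Nat.floor_lt ha).2 m1
    have m4 : mx m ≤ b' := Nat.le_floor m2
    refine mem_image.2 ⟨(m.re, m.im), ?_, rfl⟩
    simp only [A, B, mem_union, mem_product, mem_Ioc, mem_Ico, mem_Icc]
    unfold mx at m3 m4
    omega
  have h2 : #A ≤ 2 * d := (card_union_le _ _).trans (by rw [Int.card_Ioc, Int.card_Ico]; omega)
  have h3 : #B = 2 * b' + 1 := by rw [Int.card_Icc]; omega
  have h4 : #(Sq a b) ≤ 4 * d * (2 * b' + 1) := by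
    refine (card_le_card h1).trans (card_image_le.trans ((card_union_le _ _).trans ?_))
    rw [card_product, card_product, h3]
    nlinarith [Nat.mul_le_mul_right (2 * b' + 1) h2]
  have h5 : (b' : ℝ) ≤ b := Nat.floor_le (ha.trans hab)
  have h6 : (d : ℝ) ≤ b - a + 1 := by
    have := Nat.lt_floor_add_one a
    have e : (b' : ℝ) = a' + d := by exact_mod_cast hd
    linarith
  calc (#(Sq a b) : ℝ) ≤ 4 * d * (2 * b' + 1) := by exact_mod_cast h4
    _ ≤ _ := by gcongr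

theorem mx_add (m f : GI) : mx (m + f) ≤ mx m + mx f ∧ mx m ≤ mx (m + f) + mx f := by
  simp only [mx, Zsqrtd.re_add, Zsqrtd.im_add]
  omega

theorem nrm (hB : Bas) (m : GI) : (mx m : ℝ) ≤ ‖(m : ℂ)‖ ∧ ‖(m : ℂ)‖ ≤ 3 / 2 * mx m := by
  obtain ⟨h1, h2⟩ := hB.mx_nm m
  have h3 : (mx m : ℝ) ^ 2 ≤ ‖(m : ℂ)‖ ^ 2 := by rw [← hA.nm_eq]; exact_mod_cast h1
  have h4 : ‖(m : ℂ)‖ ^ 2 ≤ 2 * (mx m : ℝ) ^ 2 := by rw [← hA.nm_eq]; exact_mod_cast h2
  exact ⟨le_of_pow_le_pow_left₀ two_ne_zero (norm_nonneg _) h3,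
    le_of_pow_le_pow_left₀ two_ne_zero (by positivity) (by nlinarith)⟩

/-- the weight of a block -/
def F (P P' : ℝ) (m : GI) : ℝ := if m ∈ Sq P P' then 1 / nm m else 0

theorem inv_le (hB : Bas) {P : ℝ} (hP : 0 < P) {m : GI} (h : P < mx m) :
    1 / (nm m : ℝ) ≤ 1 / P ^ 2 := by
  rw [hA.nm_eq]
  have := (nrm hB m).1
  gcongr
  linarith

theorem pt (hB : Bas) {P P' E : ℝ} (f : GI) (h1 : 0 < P) (hP' : P' ≤ 2 * P) (hE : 0 < E)
    (he : (mx f : ℝ) ≤ E) (m : GI) : |F P P' (m + f) - F P P' m| ≤ 9 * E / P ^ 3 +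
      (if m ∈ Sq (P - E) (P + E) then 1 / P ^ 2 else 0) +
      (if m ∈ Sq (P' - E) (P' + E) then 1 / P ^ 2 else 0) := by
  have a1 : (mx (m + f) : ℝ) ≤ mx m + mx f := by exact_mod_cast (mx_add m f).1
  have a2 : (mx m : ℝ) ≤ mx (m + f) + mx f := by exact_mod_cast (mx_add m f).2
  have p0 : 0 ≤ 9 * E / P ^ 3 := by positivity
  have p1 : 0 ≤ 1 / P ^ 2 := by positivity
  have key : ∀ x : ℝ, |x| ≤ 1 / P ^ 2 → (m ∈ Sq (P - E) (P + E) ∨ m ∈ Sq (P' - E) (P' + E)) →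
      |x| ≤ 9 * E / P ^ 3 + (if m ∈ Sq (P - E) (P + E) then 1 / P ^ 2 else 0) +
        (if m ∈ Sq (P' - E) (P' + E) then 1 / P ^ 2 else 0) := fun x hx h => by
    split_ifs with k1 k2 k2
    · linarith
    · linarith
    · linarith
    · tauto
  unfold F
  by_cases b1 : m + f ∈ Sq P P' <;> by_cases b2 : m ∈ Sq P P'
  · rw [if_pos b1, if_pos b2]
    rw [hB.mem_Sq] at b1 b2
    have c1 := nrm hB m
    have c2 := nrm hB (m + f)
    have c3 := (nrm hB f).2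
    have c4 : |‖((m + f : GI) : ℂ)‖ - ‖(m : ℂ)‖| ≤ 3 / 2 * E := by
      refine (abs_norm_sub_norm_le _ _).trans ?_
      rw [map_add, add_sub_cancel_left]
      linarith
    rw [hA.nm_eq, hA.nm_eq]
    generalize ‖((m + f : GI) : ℂ)‖ = x at c2 c4
    generalize ‖(m : ℂ)‖ = y at c1 c4
    have x1 : P ≤ x := by linarith [c2.1, b1.1]
    have y1 : P ≤ y := by linarith [c1.1, b2.1]
    have x0 : 0 < x := by linarith
    have y0 : 0 < y := by linarith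
    have d1 : |1 / x ^ 2 - 1 / y ^ 2| ≤ 9 * E / P ^ 3 := by
      rw [show 1 / x ^ 2 - 1 / y ^ 2 = -(x - y) * ((x + y) / (x ^ 2 * y ^ 2)) by field_simp; ring,
        abs_mul, abs_neg, abs_of_pos (by positivity : 0 < (x + y) / (x ^ 2 * y ^ 2))]
      calc |x - y| * ((x + y) / (x ^ 2 * y ^ 2)) ≤ 3 / 2 * E * (6 * P / (P ^ 2 * P ^ 2)) := by
            gcongr
            linarith [c1.2, c2.2, b1.2, b2.2]
        _ = 9 * E / P ^ 3 := by field_simp; ring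
    split_ifs <;> linarith
  · rw [if_pos b1, if_neg b2, sub_zero]
    rw [hB.mem_Sq] at b1 b2
    refine key _ (by rw [abs_of_nonneg (by positivity)]; exact inv_le hB h1 b1.1) ?_
    rw [hB.mem_Sq, hB.mem_Sq]
    rcases le_or_gt (mx m : ℝ) P with k | k
    · exact Or.inl ⟨by linarith [b1.1], by linarith⟩
    · have k' : P' < mx m := not_le.1 fun c => b2 ⟨k, c⟩
      exact Or.inr ⟨by linarith, by linarith [b1.2]⟩
  · rw [if_neg b1, if_pos b2, zero_sub]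
    rw [hB.mem_Sq] at b1 b2
    refine key _ (by rw [abs_neg, abs_of_nonneg (by positivity)]; exact inv_le hB h1 b2.1) ?_
    rw [hB.mem_Sq, hB.mem_Sq]
    rcases le_or_gt (mx (m + f) : ℝ) P with k | k
    · exact Or.inl ⟨by linarith [b2.1], by linarith⟩
    · have k' : P' < mx (m + f) := not_le.1 fun c => b1 ⟨k, c⟩
      exact Or.inr ⟨by linarith, by linarith [b2.2]⟩
  · rw [if_neg b1, if_neg b2, sub_zero, abs_zero]
    split_ifs <;> linarith

theorem sum_ite_le (Ω A : Finset GI) {c : ℝ} (hc : 0 ≤ c) :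
    ∑ m ∈ Ω, (if m ∈ A then c else 0) ≤ #A * c := by
  rw [sum_ite_mem, sum_const, nsmul_eq_mul]
  gcongr
  exact inter_subset_right

theorem shift (hB : Bas) {P P' E : ℝ} (f : GI) (hP : P ≤ P') (hP' : P' ≤ 2 * P) (hE : 1 ≤ E)
    (hE' : E ≤ P) (he : (mx f : ℝ) ≤ E) :
    ∑ m ∈ Sq (P - E) (P' + E), |F P P' (m + f) - F P P' m| ≤ 1200 * E / P := by
  have h1 : 0 < P := by linarith
  refine (sum_le_sum fun m _ => pt hB f h1 hP' (by linarith) he m).trans ?_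
  rw [sum_add_distrib, sum_add_distrib, sum_const, nsmul_eq_mul]
  have c1 := card_Sq hB (a := P - E) (b := P' + E) (by linarith) (by linarith)
  have c2 := card_Sq hB (a := P - E) (b := P + E) (by linarith) (by linarith)
  have c3 := card_Sq hB (a := P' - E) (b := P' + E) (by linarith) (by linarith)
  have d1 : (#(Sq (P - E) (P' + E)) : ℝ) * (9 * E / P ^ 3) ≤ 1008 * E / P :=
    calc _ ≤ 4 * (4 * P) * (7 * P) * (9 * E / P ^ 3) := by
          gcongr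
          refine c1.trans ?_
          gcongr <;> linarith
      _ = _ := by field_simp; ring
  have d2 : ∀ A : Finset GI, (#A : ℝ) ≤ 4 * (3 * E) * (7 * P) →
      ∑ m ∈ Sq (P - E) (P' + E), (if m ∈ A then 1 / P ^ 2 else 0) ≤ 84 * E / P := fun A h =>
    calc _ ≤ #A * (1 / P ^ 2) := sum_ite_le _ _ (by positivity)
      _ ≤ 4 * (3 * E) * (7 * P) * (1 / P ^ 2) := by gcongr
      _ = _ := by field_simp; ring
  have d3 := d2 _ (c2.trans (by gcongr <;> linarith))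
  have d4 := d2 _ (c3.trans (by gcongr <;> linarith))
  have : 0 ≤ E / P := by positivity
  simp only [mul_div_assoc] at d1 d3 d4 ⊢
  linarith

theorem mass (hB : Bas) {P P' : ℝ} (h1 : 1 ≤ P) (hP : P ≤ P') (hP' : P' ≤ 2 * P) (S : Finset GI)
    (hS : S ⊆ Sq P P') : ∑ m ∈ S, 1 / (nm m : ℝ) ≤ 40 := by
  have h0 : 0 < P := by linarith
  calc _ ≤ ∑ m ∈ S, 1 / P ^ 2 :=
        sum_le_sum fun m hm => inv_le hB h0 ((hB.mem_Sq _ _ _).1 (hS hm)).1
    _ = #S * (1 / P ^ 2) := by rw [sum_const, nsmul_eq_mul]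
    _ ≤ 4 * (2 * P) * (5 * P) * (1 / P ^ 2) := by
        gcongr
        refine le_trans (by exact_mod_cast card_le_card hS) ((card_Sq hB h0.le hP).trans ?_)
        gcongr <;> linarith
    _ = 40 := by field_simp; ring

theorem sm_shift (hB : Bas) {P P' E : ℝ} (q : ℕ) (c h : GI) (t : ℤ) (hP : P ≤ P')
    (hP' : P' ≤ 2 * P) (hE : 1 ≤ E) (hE' : E ≤ P) (he : (mx (q * h) : ℝ) ≤ E) :
    ‖sm (cls q c) P P' t - ∑ m ∈ Sq P P' with cls q c m, xi t (m + q * h) / (nm m : ℂ)‖ ≤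
      1200 * E / P := by
  have hc : ∀ m, cls q c (m + q * h) ↔ cls q c m := fun m => by
    unfold cls
    rw [show m + q * h - c = q * h + (m - c) by ring]
    exact dvd_add_right (dvd_mul_right _ _)
  have e1 : sm (cls q c) P P' t = ∑ m ∈ Sq (P - E) (P' + E) with cls q c m,
      (F P P' (m + q * h) : ℂ) * xi t (m + q * h) := by
    have : ∀ m, (F P P' m : ℂ) * xi t m = if m ∈ Sq P P' then xi t m / (nm m : ℂ) else 0 :=
      fun m => by unfold F; split_ifs <;> simp [div_eq_inv_mul]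
    simp only [this]
    rw [← sum_filter, sm]
    refine (sum_nbij' (· + q * h) (· - q * h) (fun m hm => ?_) (fun m hm => ?_)
      (fun m _ => add_sub_cancel_right _ _) (fun m _ => sub_add_cancel _ _) fun _ _ => rfl).symm
    · simp only [mem_filter] at hm ⊢
      exact ⟨hm.2, (hc m).2 hm.1.2⟩
    · simp only [mem_filter, sub_add_cancel] at hm ⊢
      refine ⟨⟨?_, (hc _).1 (by rw [sub_add_cancel]; exact hm.2)⟩, hm.1⟩
      have a := mx_add (m - q * h) (q * h)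
      rw [sub_add_cancel] at a
      have a1 : (mx m : ℝ) ≤ mx (m - q * h) + mx (q * h : GI) := by exact_mod_cast a.1
      have a2 : (mx (m - q * h) : ℝ) ≤ mx m + mx (q * h : GI) := by exact_mod_cast a.2
      have b := (hB.mem_Sq _ _ _).1 hm.1
      exact (hB.mem_Sq _ _ _).2 ⟨by linarith [b.1], by linarith [b.2]⟩
  have e2 : ∑ m ∈ Sq P P' with cls q c m, xi t (m + q * h) / (nm m : ℂ) =
      ∑ m ∈ Sq (P - E) (P' + E) with cls q c m, (F P P' m : ℂ) * xi t (m + q * h) := by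
    have : ∀ m, (F P P' m : ℂ) * xi t (m + q * h) =
        if m ∈ Sq P P' then xi t (m + q * h) / (nm m : ℂ) else 0 :=
      fun m => by unfold F; split_ifs <;> simp [div_eq_inv_mul]
    simp only [this]
    rw [← sum_filter]
    refine sum_congr ?_ fun _ _ => rfl
    ext m
    simp only [mem_filter, hB.mem_Sq]
    exact ⟨fun k => ⟨⟨⟨by linarith [k.1.1], by linarith [k.1.2]⟩, k.2⟩, k.1⟩, fun k => ⟨k.2, k.1.2⟩⟩
  rw [e1, e2, ← sum_sub_distrib]
  refine (norm_sum_le _ _).trans (le_trans ?_ (shift hB (q * h) hP hP' hE hE' he))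
  refine (sum_le_sum fun m _ => ?_).trans
    (sum_le_sum_of_subset_of_nonneg (filter_subset _ _) fun _ _ _ => abs_nonneg _)
  rw [← sub_mul, norm_mul, ← Complex.ofReal_sub, Complex.norm_real, Real.norm_eq_abs]
  exact mul_le_of_le_one_right (abs_nonneg _) (hB.xi_le _ _)

theorem err (τ : ℝ) {w : ℂ} (hw : ‖w‖ ≤ 1 / 2) :
    ‖e (τ * (Complex.log (1 + w)).im / (2 * Real.pi)) -
      e (τ * (w ^ 3 / 3 - w ^ 2 / 2 + w).im / (2 * Real.pi))‖ ≤ |τ| * ‖w‖ ^ 4 := by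
  refine (norm_e_sub_le _ _).trans ?_
  have h1 := (Complex.abs_im_le_norm _).trans
    (Complex.norm_log_sub_logTaylor_le 3 (hw.trans_lt (by norm_num)))
  have h0 : Complex.logTaylor (3 + 1) w = w ^ 3 / 3 - w ^ 2 / 2 + w := by
    simp only [Complex.logTaylor, sum_range_succ, range_zero, sum_empty]
    push_cast
    ring
  rw [h0] at h1
  have h2 : (1 - ‖w‖)⁻¹ ≤ 2 := inv_le_of_inv_le₀ two_pos (by linarith)
  have h3 : ‖w‖ ^ (3 + 1) * (1 - ‖w‖)⁻¹ / ((3 : ℕ) + 1) ≤ ‖w‖ ^ 4 / 2 := by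
    have := mul_le_mul_of_nonneg_left h2 (pow_nonneg (norm_nonneg w) 4)
    norm_num at this ⊢
    linarith
  have h4 := h1.trans h3
  rw [Complex.sub_im] at h4
  rw [← sub_div, ← mul_sub, abs_div, abs_mul, abs_of_pos Real.two_pi_pos, ← mul_div_assoc,
    div_le_iff₀ Real.two_pi_pos]
  have h5 := mul_le_mul_of_nonneg_left h4 (abs_nonneg τ)
  have h6 : 0 ≤ |τ| * ‖w‖ ^ 4 := by positivity
  nlinarith [Real.pi_gt_three]

/-- the short sum is a cubic sum up to a small error -/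
theorem short (hB : Bas) (q H : ℕ) (z : GI) (t : ℤ) {δ : ℝ} (hz : z ≠ 0) (hδ : δ ≤ 1 / 2)
    (h : ∀ h ∈ sqr 0 0 H, ‖(h : ℂ) * ((q : ℂ) / z)‖ ≤ δ) :
    ‖∑ h ∈ sqr 0 0 H, xi t (z + q * h)‖ ≤
      ‖∑ h ∈ sqr 0 0 H, Complex.exp (2 * Real.pi * Complex.I *
        ((((2 * t / (3 * Real.pi) : ℝ) : ℂ) * ((q : ℂ) / z) ^ 3 * (h : ℂ) ^ 3 +
          ((-(t / Real.pi) : ℝ) : ℂ) * ((q : ℂ) / z) ^ 2 * (h : ℂ) ^ 2 +
          ((2 * t / Real.pi : ℝ) : ℂ) * ((q : ℂ) / z) * (h : ℂ)).im : ℝ))‖ +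
        (H : ℝ) ^ 2 * (4 * |(t : ℝ)| * δ ^ 4) := by
  have z0 : (z : ℂ) ≠ 0 := fun k => hz (GaussianInt.toComplex_eq_zero.1 k)
  have e1 : ∀ h' ∈ sqr 0 0 H, xi t (z + q * h') = xi t z *
      e ((4 * t : ℤ) * (Complex.log (1 + h' * ((q : ℂ) / z))).im / (2 * Real.pi)) := by
    intro h' hh
    have k1 : ((z + q * h' : GI) : ℂ) = z * (1 + h' * ((q : ℂ) / z)) := by
      rw [map_add, map_mul, map_natCast]
      field_simp
    unfold xi chi dir
    rw [k1, Row.phase _ _ ((h h' hh).trans_lt (by linarith))]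
  rw [sum_congr rfl e1, ← mul_sum, norm_mul, hB.norm_xi t z hz, one_mul]
  refine (norm_le_insert' _ _).trans (add_le_add_right ?_ _)
  rw [← sum_sub_distrib]
  refine (norm_sum_le _ _).trans ((sum_le_card_nsmul _ _ (4 * |(t : ℝ)| * δ ^ 4)
    fun h' hh => ?_).trans (by rw [card_sqr, nsmul_eq_mul]; push_cast; rfl))
  have k := err ((4 * t : ℤ) : ℝ) ((h h' hh).trans hδ)
  have k2 : ((((2 * t / (3 * Real.pi) : ℝ) : ℂ) * ((q : ℂ) / z) ^ 3 * (h' : ℂ) ^ 3 +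
      ((-(t / Real.pi) : ℝ) : ℂ) * ((q : ℂ) / z) ^ 2 * (h' : ℂ) ^ 2 +
      ((2 * t / Real.pi : ℝ) : ℂ) * ((q : ℂ) / z) * (h' : ℂ)).im : ℝ) =
      ((4 * t : ℤ) : ℝ) * ((h' * ((q : ℂ) / z)) ^ 3 / 3 - (h' * ((q : ℂ) / z)) ^ 2 / 2 +
        h' * ((q : ℂ) / z)).im / (2 * Real.pi) := by
    have p0 : (Real.pi : ℂ) ≠ 0 := by exact_mod_cast Real.pi_ne_zero
    generalize (q : ℂ) / z = w
    rw [mul_div_right_comm (((4 * t : ℤ) : ℝ)), ← Complex.im_ofReal_mul]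
    refine congrArg Complex.im ?_
    push_cast
    field_simp
    ring
  rw [k2]
  refine le_trans k ?_
  push_cast
  rw [abs_mul, abs_of_pos (by norm_num : (0 : ℝ) < 4)]
  gcongr
  exact h h' hh

end PW

end

end Pool.Agent.Lib.MP_4b1228_nt.GS
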