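import Pool.Agent.Lib.MP_4b1228_nt.GS.Base

/-!
Primes `a ^ 2 + b ^ 2` with small `b`: definitions and the statements of all blocks.
-/

namespace Pool.Agent.Lib.MP_4b1228_nt.GS

open Finset Filter Topology Pool.Agent.Lib.MP_9d27bc_nt.C Pool.Agent.Lib.MP_9d27bc_nt.C.Two
open scoped Classical ComplexConjugate

noncomputable section

/-! ### Definitions -/

/-- the angular characters that are trivial on the units -/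
def xi (t : ℤ) (a : GI) : ℂ := chi (4 * t) a

/-- the weight; for `Z = 1` it is `1 / nm a` -/
def ww (Z : ℕ) (a : GI) : ℝ := ker Z (dir a ^ 4) / nm a

/-- the frequencies other than zero -/
def fz (T : ℕ) : Finset ℤ := (fr T).erase 0

/-- a square annulus -/
def Sq (P₁ P₂ : ℝ) : Finset GI := {m ∈ disc (2 * P₂ ^ 2) | P₁ < mx m ∧ (mx m : ℝ) ≤ P₂}

/-- a residue class -/
def cls (q : ℕ) (c : GI) (m : GI) : Prop := (q : GI) ∣ m - c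

/-- the smooth sums -/
def sm (E : GI → Prop) (P₁ P₂ : ℝ) (t : ℤ) : ℂ := ∑ m ∈ Sq P₁ P₂ with E m, xi t m / (nm m : ℂ)

/-- their masses -/
def ms (E : GI → Prop) (P₁ P₂ : ℝ) : ℝ := ∑ m ∈ Sq P₁ P₂ with E m, 1 / (nm m : ℝ)

/-- the mass of the whole annulus -/
def m0 (P₁ P₂ : ℝ) : ℝ := ∑ m ∈ Sq P₁ P₂, 1 / (nm m : ℝ)

/-- the trigonometric polynomial of a family -/
def hat {ι : Type} (S : Finset ι) (v : ι → GI) (t : ℤ) : ℂ := ∑ i ∈ S, xi t (v i) / (nm (v i) : ℂ)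

/-- the mass of a family -/
def D0 {ι : Type} (S : Finset ι) (v : ι → GI) : ℝ := ∑ i ∈ S, 1 / (nm (v i) : ℝ)

/-- every value is taken at most `B` times -/
def Mult {ι : Type} (S : Finset ι) (v : ι → GI) (B : ℕ) : Prop := ∀ a : GI, #{i ∈ S | v i = a} ≤ B

/-- the weight of the multiples of a family by rough cofactors -/
def AA {ι : Type} (z : ℝ) (Z : ℕ) (S : Finset ι) (v : ι → GI) (P₁ P₂ : ℝ) : ℝ :=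
  ∑ i ∈ S, ∑ m ∈ Sq P₁ P₂ with Rough z (nm m), ww Z (v i * m)

/-- the weight of the rough vectors of norm in `[Y, Y']` -/
def lay (z : ℝ) (Z : ℕ) (Y Y' : ℝ) : ℝ := ∑ a ∈ disc Y' with Y ≤ nm a ∧ Rough z (nm a), ww Z a

/-- the weight of the vectors of norm in `[Y, Y']` divisible by the square of a large prime -/
def NN (z : ℝ) (Z : ℕ) (Y Y' : ℝ) : ℝ :=
  ∑ a ∈ disc Y' with Y ≤ nm a ∧ ∃ l : ℕ, l.Prime ∧ z < l ∧ l ^ 2 ∣ nm a, ww Z a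

/-- the canonical primes of norm in `(y ^ j, y ^ (j + 1)]` -/
def Bx (y : ℝ) (j : ℕ) : Finset GI :=
  (sp (y ^ j) (y ^ (j + 1)) ×ˢ (univ : Finset Bool)).image fun w => cp w.1 w.2

/-- the index of the box -/
def ix (y : ℝ) (p : GI) : ℕ := ⌈Real.logb y (nm p)⌉₊ - 1

/-- the canonical primes with index in `[j, J)` -/
def PP (y : ℝ) (j J : ℕ) : Finset GI := (Ico j J).biUnion (Bx y)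

/-- the multiset of the indices -/
def im (y : ℝ) (S : Finset GI) : Multiset ℕ := S.val.map (ix y)

/-- the multiset of the values of a vector -/
def vm {r : ℕ} (jv : Fin r → ℕ) : Multiset ℕ := (univ : Finset (Fin r)).val.map jv

/-- sets of canonical primes with different norms -/
def NS (y : ℝ) (j J : ℕ) : Finset (Finset GI) :=
  {S ∈ (PP y j J).powerset | Set.InjOn nm (S : Set GI)}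

/-- the weight of a cell -/
def cell (y : ℝ) (Z : ℕ) {r : ℕ} (jv : Fin r → ℕ) : ℝ :=
  ∑ f ∈ Fintype.piFinset fun i => Bx y (jv i), ww Z (∏ i, f i)

/-- the parameters of the certificate -/
structure Par where
  /-- two factors of this size give a mean value -/
  g : ℕ
  /-- the truncation of the function of Moebius -/
  τ : ℕ
  /-- lower bound for the second prime -/
  b₂ : ℕ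
  /-- lower bound for the second prime -/
  b₃ : ℕ
  /-- lower bound for the second prime -/
  b₄ : ℕ
  /-- lower bound for the cofactor -/
  u₂ : ℕ
  /-- lower bound for the cofactor -/
  u₃ : ℕ
  /-- lower bound for the cofactor -/
  u₄ : ℕ
  /-- the smallest total -/
  J₁ : ℕ
  /-- the largest total -/
  J₂ : ℕ

/-- admissible parameters -/
def Par.OK (p : Par) : Prop :=
  0 < p.g ∧ 5 * p.g ≤ 4 * p.τ ∧ 2 * p.τ ≤ p.J₁ ∧ p.J₁ ≤ p.J₂ ∧ p.u₂ ≤ p.u₃ ∧ p.u₃ ≤ p.u₄ ∧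
  p.J₂ < p.g + 2 * p.u₂ ∧ p.J₁ < 2 * p.g + p.u₂ ∧ p.J₂ + 10 * p.g < 10 * p.τ ∧
  2 * p.J₂ ≤ 2 * p.τ + 3 * p.g ∧
  p.g ≤ 2 * p.b₂ ∧ p.g ≤ 3 * p.b₃ ∧ p.g ≤ 4 * p.b₄ ∧
  6 * p.g ≤ 7 * p.u₂ ∧ 11 * p.g ≤ 12 * p.u₃ ∧ 33 * p.g ≤ 35 * p.u₄

/-- the cofactor `u` is long enough for the prime `b` -/
def Par.vis (p : Par) (u b : ℕ) : Prop :=
  (p.b₂ ≤ b ∧ p.u₂ ≤ u) ∨ (p.b₃ ≤ b ∧ p.u₃ ≤ u) ∨ (p.b₄ ≤ b ∧ p.u₄ ≤ u)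

/-- the pairs beyond the level -/
def Par.row (p : Par) (P b : ℕ) : Prop := p.g ≤ P ∧ P < p.τ ∧ p.vis (p.J₁ - (P + b)) b

/-- the truncated function of Moebius -/
def Par.y0 (p : Par) (M : Multiset ℕ) : ℤ := if M.sum < p.τ then (-1) ^ M.card else 0

/-- the positive correction -/
def Par.yV (p : Par) (M : Multiset ℕ) : ℤ :=
  if M.card = 2 then (M.countP fun b => p.row (M.sum - b) b : ℕ) else 0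

/-- the number of visible members -/
def Par.nn (p : Par) (M : Multiset ℕ) : ℕ := M.countP fun b => p.vis (M.sum - b) b

/-- the negative correction -/
def Par.yY (p : Par) (M : Multiset ℕ) : ℤ :=
  if p.τ ≤ M.sum ∧ ∀ b ∈ M, M.sum < p.g + b then
    (if M.card = 3 then 2 * (max 1 (p.nn M) : ℕ) else if M.card = 4 then 2 * (p.nn M : ℕ) else 0)
  else 0

/-- the sieve weight -/
def Par.yy (p : Par) (M : Multiset ℕ) : ℤ := p.y0 M + 2 * p.yV M - p.yY M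

/-- the sum over all divisors -/
def Par.T (p : Par) (M : Multiset ℕ) : ℤ := (M.powerset.map p.yy).sum

/-- two long factors and a prime -/
def Good (g : ℕ) (M : Multiset ℕ) : Prop :=
  ∃ A B C : Multiset ℕ, M = A + B + C ∧ C ≠ 0 ∧ g ≤ A.sum ∧ g ≤ B.sum

/-- the loss -/
def Par.L (p : Par) (M : Multiset ℕ) : ℝ := if Good p.g M then 0 else (max 0 (-p.T M) : ℤ)

/-- the lower end of the range of the cofactor -/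
def Par.P1 (p : Par) (y : ℝ) (a : ℕ) : ℝ := y ^ (((p.J₁ : ℝ) - a - 1) / 2)

/-- the upper end of the range of the cofactor -/
def Par.P2 (p : Par) (y : ℝ) (R a : ℕ) : ℝ := y ^ (((p.J₂ : ℝ) + R - a) / 2)

/-- the sum of the first type -/
def Par.TI (p : Par) (y : ℝ) (j₀ R Z : ℕ) : ℝ :=
  ∑ S ∈ (PP y j₀ (p.J₂ + 1)).powerset, (p.yy (im y S) : ℝ) *
    ∑ m ∈ Sq (p.P1 y (im y S).sum) (p.P2 y R (im y S).sum) with Rough (y ^ j₀) (nm m),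
      ww Z ((∏ π ∈ S, π) * m)

/-- the sets of primes with total index in the range -/
def Par.co (p : Par) (y : ℝ) (j₀ : ℕ) : Finset (Finset GI) :=
  {S ∈ NS y j₀ (p.J₂ + 1) | p.J₁ ≤ (im y S).sum ∧ (im y S).sum ≤ p.J₂}

/-- a sum over these sets -/
def Par.sc (p : Par) (y : ℝ) (j₀ Z : ℕ) (F : Multiset ℕ → ℝ) : ℝ :=
  ∑ S ∈ p.co y j₀, F (im y S) * ww Z (∏ π ∈ S, π)

/-- the discrete form of the loss -/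
def Par.ls (p : Par) (j₀ J' R J : ℕ) : ℝ :=
  ∑ r ∈ range (R + 1), (∑ jv ∈ (Fintype.piFinset fun _ : Fin r => Ico j₀ J') with ∑ i, jv i = J,
    p.L (vm jv) * ∏ i, 1 / (jv i : ℝ)) / r.factorial

/-- scaling of the parameters -/
def Par.scale (q : Par) (h : ℕ) : Par :=
  ⟨q.g * h, q.τ * h, q.b₂ * h, q.b₃ * h, q.b₄ * h, q.u₂ * h, q.u₃ * h, q.u₄ * h, q.J₁ * h, q.J₂ * h⟩

/-- the certificate -/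
def cert : Par := ⟨780, 1000, 390, 260, 195, 669, 715, 736, 2000, 2001⟩

/-- the discrepancy of a residue class on the slopes -/
def DD (q : ℕ) (ρ : ℤ) (A : Finset ℕ) (s : ℝ) : ℝ :=
  ∑ p ∈ A, Int.fract ((p * s - ρ) / q) / (p : ℝ) ^ 2

/-- the coefficients of the series of Hecke -/
def ff (t : ℤ) (n : ℕ) : ℂ := (∑ a ∈ disc n with nm a = n, xi t a) / 4

/-- the values at the split primes -/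
def fp (t : ℤ) (l : ℕ) : ℂ := if Split l then xi t (cp l true) + xi t (cp l false) else 0

/-! ### Basic facts -/

/-- Characters, weights, annuli. -/
structure Bas : Prop where
  xi_mul : ∀ (t : ℤ) (a b : GI), xi t (a * b) = xi t a * xi t b
  xi_unit : ∀ (t : ℤ) (u a : GI), IsUnit u → xi t (u * a) = xi t a
  xi_zero : ∀ a : GI, xi 0 a = 1
  xi_star : ∀ (t : ℤ) (a : GI), xi t (star a) = conj (xi t a)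
  xi_le : ∀ (t : ℤ) (a : GI), ‖xi t a‖ ≤ 1
  xi_two : ∀ (t : ℤ) (a : GI), xi (2 * t) a = xi t a ^ 2
  norm_xi : ∀ (t : ℤ) (a : GI), a ≠ 0 → ‖xi t a‖ = 1
  nm_pos : ∀ a : GI, a ≠ 0 ↔ 1 ≤ nm a
  nm_prod : ∀ (ι : Type) (s : Finset ι) (f : ι → GI), nm (∏ i ∈ s, f i) = ∏ i ∈ s, nm (f i)
  ww_nonneg : ∀ (Z : ℕ) (a : GI), 0 ≤ ww Z a
  ww_unit : ∀ (Z : ℕ) (u a : GI), IsUnit u → ww Z (u * a) = ww Z a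
  ww_one : ∀ a : GI, ww 1 a = 1 / nm a
  expand : ∀ (ι : Type) (S : Finset ι) (v : ι → GI) (Z : ℕ), 1 ≤ Z → (∀ i ∈ S, v i ≠ 0) →
    |∑ i ∈ S, ww Z (v i) - D0 S v| ≤ ∑ t ∈ fz Z, ‖hat S v t‖
  energy : ∀ (ι : Type) (S : Finset ι) (v : ι → GI) (Z : ℕ), 1 ≤ Z → (∀ i ∈ S, v i ≠ 0) →
    ∑ t ∈ fr Z, ‖hat S v t‖ ^ 2 ≤ 2 * ∑ i ∈ S, ∑ k ∈ S, ww (2 * Z) (star (v i) * v k)
  hat_le : ∀ (ι : Type) (S : Finset ι) (v : ι → GI) (t : ℤ), ‖hat S v t‖ ≤ D0 S v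
  hat_mul : ∀ (ι κ : Type) (S : Finset ι) (v : ι → GI) (S' : Finset κ) (v' : κ → GI) (t : ℤ),
    hat (S ×ˢ S') (fun w => v w.1 * v' w.2) t = hat S v t * hat S' v' t
  hat_pi : ∀ (κ : Type) [Fintype κ] [DecidableEq κ] (ι : Type) (S : κ → Finset ι) (v : ι → GI)
    (t : ℤ), hat (Fintype.piFinset S) (fun f => ∏ k, v (f k)) t = ∏ k, hat (S k) v t
  D0_mul : ∀ (ι κ : Type) (S : Finset ι) (v : ι → GI) (S' : Finset κ) (v' : κ → GI),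
    D0 (S ×ˢ S') (fun w => v w.1 * v' w.2) = D0 S v * D0 S' v'
  D0_pi : ∀ (κ : Type) [Fintype κ] [DecidableEq κ] (ι : Type) (S : κ → Finset ι) (v : ι → GI),
    D0 (Fintype.piFinset S) (fun f => ∏ k, v (f k)) = ∏ k, D0 (S k) v
  mem_Sq : ∀ (P₁ P₂ : ℝ) (m : GI), m ∈ Sq P₁ P₂ ↔ P₁ < mx m ∧ (mx m : ℝ) ≤ P₂
  mx_nm : ∀ m : GI, mx m ^ 2 ≤ nm m ∧ nm m ≤ 2 * mx m ^ 2
  mx_unit : ∀ u a : GI, IsUnit u → mx (u * a) = mx a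
  m0_le : ∃ C : ℝ, 0 < C ∧ ∀ P₁ P₂ : ℝ, 0 < P₁ → P₁ ≤ P₂ →
    m0 P₁ P₂ ≤ C * (1 + Real.log (P₂ / P₁))
  D0_le : ∃ C : ℝ, 0 < C ∧ ∀ (ι : Type) (S : Finset ι) (v : ι → GI) (B : ℕ) (Y : ℝ), Mult S v B →
    1 ≤ Y → (∀ i ∈ S, (nm (v i) : ℝ) ≤ Y) → D0 S v ≤ C * B * (1 + Real.log Y)

/-- Boxes of primes. -/
structure Box : Prop where
  mem_Bx : ∀ (y : ℝ) (j : ℕ) (p : GI), p ∈ Bx y j ↔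
    ∃ (l : ℕ) (ε : Bool), Split l ∧ p = cp l ε ∧ y ^ j < l ∧ (l : ℝ) ≤ y ^ (j + 1)
  ix_eq : ∀ (y : ℝ) (j : ℕ) (p : GI), 1 < y → p ∈ Bx y j → ix y p = j
  mem_PP : ∀ (y : ℝ) (j J : ℕ) (p : GI), 1 < y → (p ∈ PP y j J ↔
    ∃ (l : ℕ) (ε : Bool), Split l ∧ p = cp l ε ∧ y ^ j < l ∧ (l : ℝ) ≤ y ^ J)
  ix_PP : ∀ (y : ℝ) (j J : ℕ) (p : GI), 1 < y → p ∈ PP y j J →
    j ≤ ix y p ∧ ix y p < J ∧ p ∈ Bx y (ix y p)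
  sum_PP : ∀ (y : ℝ) (j J : ℕ) (f : GI → ℝ), 1 < y →
    ∑ p ∈ PP y j J, f p = ∑ k ∈ Ico j J, ∑ p ∈ Bx y k, f p
  hat_Bx : ∀ (y : ℝ) (j : ℕ) (t : ℤ),
    hat (Bx y j) id t = ∑ l ∈ sp (y ^ j) (y ^ (j + 1)), fp t l / (l : ℂ)
  D0_Bx : ∀ (y : ℝ) (j : ℕ), D0 (Bx y j) id = ∑ l ∈ sp (y ^ j) (y ^ (j + 1)), 2 / (l : ℝ)
  D0_PP : ∀ (y : ℝ) (j J : ℕ), 1 < y → D0 (PP y j J) id = ∑ l ∈ sp (y ^ j) (y ^ J), 2 / (l : ℝ)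
  nm_set : ∀ (y : ℝ) (j J : ℕ) (S : Finset GI), 1 < y → S ⊆ PP y j J →
    y ^ (im y S).sum ≤ nm (∏ π ∈ S, π) ∧ (nm (∏ π ∈ S, π) : ℝ) ≤ y ^ ((im y S).sum + #S) ∧
    j * #S ≤ (im y S).sum ∧ Rough (y ^ j) (nm (∏ π ∈ S, π))
  nm_tup : ∀ (κ : Type) [Fintype κ] (y : ℝ) (j : ℕ) (jv : κ → ℕ) (f : κ → GI), 1 < y →
    (∀ k, j ≤ jv k ∧ f k ∈ Bx y (jv k)) → y ^ (∑ k, jv k) ≤ nm (∏ k, f k) ∧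
    (nm (∏ k, f k) : ℝ) ≤ y ^ (∑ k, jv k + Fintype.card κ) ∧ Rough (y ^ j) (nm (∏ k, f k))
  D0_box : ∃ C : ℕ, ∀ (y : ℝ) (j : ℕ), 2 ≤ y → 1 ≤ j → D0 (Bx y j) id ≤ C
  exp_PP : ∃ C : ℝ, 0 < C ∧ ∀ (y : ℝ) (j J R : ℕ), 2 ≤ y → 1 ≤ j → 1 ≤ R → J ≤ R * j →
    D0 (PP y j J).powerset (fun S => ∏ π ∈ S, π) ≤ C * R ∧ D0 (PP y j J) id ^ 2 ≤ C * R

/-- Divisibility by canonical primes. -/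
structure Dv : Prop where
  dvd_eq : ∀ (l l' : ℕ) (ε ε' : Bool), Split l → Split l' → cp l ε ∣ cp l' ε' → cp l ε = cp l' ε'
  dvd_prod : ∀ (y : ℝ) (j J : ℕ) (S : Finset GI) (p : GI), 1 < y → S ⊆ PP y j J → p ∈ PP y j J →
    (p ∣ ∏ π ∈ S, π ↔ p ∈ S)
  prod_dvd : ∀ (y : ℝ) (j J : ℕ) (S : Finset GI) (a : GI), 1 < y → S ⊆ PP y j J →
    (∀ p ∈ S, p ∣ a) → ∏ π ∈ S, π ∣ a
  card_dvd : ∀ (y : ℝ) (j J R : ℕ) (a : GI), 1 < y → 1 ≤ j → a ≠ 0 → (nm a : ℝ) ≤ y ^ (R * j) →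
    #{p ∈ PP y j J | p ∣ a} ≤ R
  mult_set : ∀ (y : ℝ) (j J : ℕ), 1 < y → Mult (PP y j J).powerset (fun S => ∏ π ∈ S, π) 1
  mult_tup : ∀ (κ : Type) [Fintype κ] [DecidableEq κ] (y : ℝ) (j J : ℕ), 1 < y →
    Mult (Fintype.piFinset fun _ : κ => PP y j J) (fun f => ∏ k, f k)
      (Fintype.card κ ^ Fintype.card κ)
  nice : ∀ (y : ℝ) (j J : ℕ) (a : GI), 2 ≤ y → 1 ≤ j → Squarefree (nm a) →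
    Rough (y ^ j) (nm a) → (∀ l : ℕ, l.Prime → l ∣ nm a → (l : ℝ) ≤ y ^ J) →
    ∃ S ∈ NS y j J, ∃ u : GI, IsUnit u ∧ a = u * ∏ π ∈ S, π
  sqf : ∀ (y : ℝ) (j J : ℕ) (S : Finset GI), 1 < y → S ∈ NS y j J → Squarefree (nm (∏ π ∈ S, π))
  units : ∀ u : GI, IsUnit u ↔ u ∈ ({1, -1, ⟨0, 1⟩, ⟨0, -1⟩} : Finset GI)

/-- The fundamental lemma with a rate. -/
def FLq : Prop :=
  ∀ κ : ℝ, 0 < κ → ∃ C : ℝ, 0 < C ∧ ∀ k : ℕ, C ≤ 2 ^ k →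
    ∀ (ι : Type) (S : Finset ι) (w : ι → ℝ) (P : Finset ℕ) (e : ℕ → ι → Prop) (ν : ℕ → ℝ)
      (M E z : ℝ), 2 ≤ z → (∀ i ∈ S, 0 ≤ w i) →
      (∀ l ∈ P, l.Prime ∧ (l : ℝ) ≤ z ∧ 0 ≤ ν l ∧ ν l ≤ κ / l ∧ ν l ≤ 1 / 2) → 0 ≤ M → 0 ≤ E →
      (∀ T ⊆ P, ∏ l ∈ T, (l : ℝ) ≤ z ^ (4 * k + 6) →
        |∑ i ∈ S with ∀ l ∈ T, e l i, w i - M * ∏ l ∈ T, ν l| ≤ E) →
      |∑ i ∈ S with ∀ l ∈ P, ¬e l i, w i - M * ∏ l ∈ P, (1 - ν l)| ≤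
        C / 2 ^ k * (M * ∏ l ∈ P, (1 - ν l)) + E * z ^ (2 * (4 * k + 6))

/-- The theorem of Mertens for split primes. -/
def MertSt : Prop :=
  (∀ a b : ℝ, 0 < a → a ≤ b →
    Tendsto (fun y : ℝ => ∑ l ∈ sp (y ^ a) (y ^ b), 2 / (l : ℝ)) atTop (𝓝 (Real.log (b / a)))) ∧
  (∃ C : ℝ, 0 < C ∧ ∀ σ : ℝ, 1 < σ → σ ≤ 2 →
    (Summable fun l : ℕ => if Split l then 2 * Real.log l / (l : ℝ) ^ σ else 0) ∧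
    ∑' l : ℕ, (if Split l then 2 * Real.log l / (l : ℝ) ^ σ else 0) ≤ 11 / 10 / (σ - 1) + C) ∧
  Summable fun n : ℕ => if n.Prime then 0 else ArithmeticFunction.vonMangoldt n / (n : ℝ)

/-! ### Smooth sums -/

/-- The mass of a residue class. -/
def DenSt : Prop :=
  ∃ C : ℝ, 0 < C ∧ ∀ (q : ℕ) (c : GI) (P₁ P₂ : ℝ), 1 ≤ q → 8 * (q : ℝ) ≤ P₁ →
    |ms (cls q c) P₁ P₂ - m0 P₁ P₂ / (q : ℝ) ^ 2| ≤ C * q / P₁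

/-- The variance of the number of slopes in a short interval. -/
def VarSt : Prop :=
  ∃ C : ℝ, 0 < C ∧ ∀ (q : ℕ) (ρ : ℤ) (A : Finset ℕ) (P h a : ℝ), 1 ≤ q → 1 / 2 ≤ P →
    (∀ p ∈ A, P < p) → 0 ≤ h →
    ∫ s in a..(a + q), (DD q ρ A (s + h) - DD q ρ A s) ^ 2 ≤ C * h * (1 + Real.log (2 * P)) / P ^ 2

/-- The mean square in one quarter of the plane. -/
def OctSt : Prop :=
  ∃ C : ℝ, 0 < C ∧ ∀ (q : ℕ) (ρ : ℤ) (A : Finset ℕ) (P : ℝ) (T : ℕ), 1 ≤ q → 1 / 2 ≤ P →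
    (∀ p ∈ A, P < p) →
    ∑ t ∈ fz T, ‖∑ p ∈ A, ∑ r ∈ Ioc (-(p : ℤ)) p with (q : ℤ) ∣ r - ρ,
      xi t ⟨p, r⟩ / (nm ⟨p, r⟩ : ℂ)‖ ^ 2 ≤ C * T * (1 + Real.log (2 * P)) / P ^ 2

/-- The mean square of the smooth sums. -/
def S2St : Prop :=
  ∃ C : ℝ, 0 < C ∧ ∀ (q : ℕ) (c : GI) (P₁ P₂ : ℝ) (T : ℕ), 1 ≤ q → 1 / 2 ≤ P₁ →
    ∑ t ∈ fz T, ‖sm (cls q c) P₁ P₂ t‖ ^ 2 ≤ C * T * (1 + Real.log (2 * P₁)) / P₁ ^ 2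

/-- The inequality of Weyl for a cubic polynomial on a square. -/
def CubSt : Prop :=
  ∀ ε : ℝ, 0 < ε → ∃ C : ℝ, 0 < C ∧ ∀ (H : ℕ) (α β γ : ℂ), 1 ≤ H → α ≠ 0 →
    ‖α‖ * (H : ℝ) ^ 2 ≤ 1 / 100 →
    ‖∑ h ∈ sqr 0 0 H, Complex.exp (2 * Real.pi * Complex.I *
      ((α * (h : ℂ) ^ 3 + β * (h : ℂ) ^ 2 + γ * (h : ℂ)).im : ℝ))‖ ≤
      C * (H : ℝ) ^ (1 / 2 + ε) / √‖α‖

/-- The pointwise bound for the smooth sums. -/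
def PWSt : Prop :=
  ∀ ε : ℝ, 0 < ε → ∃ C : ℝ, 0 < C ∧ ∀ (q : ℕ) (c : GI) (P₁ P₂ : ℝ) (t : ℤ), 1 ≤ q → 1 ≤ P₁ →
    P₁ ≤ P₂ → t ≠ 0 → ‖sm (cls q c) P₁ P₂ t‖ ≤
      C * P₂ ^ ε * (q * (|(t : ℝ)| / P₁ ^ 3) ^ (1 / 4 : ℝ) + |(t : ℝ)| ^ (-(1 / 11) : ℝ))

/-- The large sieve. -/
def LSSt : Prop :=
  ∃ C : ℝ, 0 < C ∧ ∀ (ι : Type) (S : Finset ι) (v : ι → GI) (B T : ℕ) (Y₁ Y₂ : ℝ), Mult S v B →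
    1 ≤ T → 1 ≤ Y₁ → Y₁ ≤ Y₂ → (∀ i ∈ S, Y₁ ≤ nm (v i) ∧ (nm (v i) : ℝ) ≤ Y₂) →
    ∑ t ∈ fr T, ‖hat S v t‖ ^ 2 ≤ C * (B : ℝ) ^ 2 * (1 + T / Y₁) * (1 + Real.log Y₂) ^ 4

/-! ### Sums of the first type -/

/-- One arbitrary factor. -/
def EaSt : Prop :=
  ∀ A B : ℕ, ∀ᶠ w : ℝ in atTop, ∀ (ι : Type) (S : Finset ι) (v : ι → GI) (Z q : ℕ) (c : GI)
    (P₁ P₂ Y : ℝ), Mult S v B → 1 ≤ Y → (∀ i ∈ S, Y ≤ nm (v i) ∧ (nm (v i) : ℝ) ≤ w ^ A) →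
    1 ≤ Z → 1 ≤ q → 1 ≤ P₁ → P₁ ≤ w ^ A → w ^ 14 * Z ≤ P₁ ^ 2 →
    w ^ 14 * (Z : ℝ) ^ 2 ≤ Y * P₁ ^ 2 →
    ∑ t ∈ fz Z, ‖hat S v t‖ * ‖sm (cls q c) P₁ P₂ t‖ ≤ 1 / w ^ 5

/-- the conditions on two arbitrary factors -/
def Two {ι κ : Type} (S : Finset ι) (v : ι → GI) (S' : Finset κ) (v' : κ → GI) (j B Z : ℕ)
    (w X P₁ : ℝ) : Prop :=
  Mult S v B ∧ (∀ i ∈ S, Z ≤ nm (v i) ∧ (nm (v i) : ℝ) ≤ X) ∧ D0 S' v' ≤ B ∧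
  Mult (Fintype.piFinset fun _ : Fin j => S') (fun f => ∏ k, v' (f k)) B ∧
  (∀ i ∈ S', Z ≤ nm (v' i) ^ j ∧ (nm (v' i) : ℝ) ≤ X) ∧ w ^ 14 ≤ P₁ ^ 2 ∧
  w ^ 50 * (Z : ℝ) ^ ((j : ℝ) - 1 / 2) ≤ P₁ ^ (2 * (j : ℝ) - 1 / 2) ∧
  w ^ 50 * (Z : ℝ) ^ ((j : ℝ) - 1) ≤ P₁ ^ (2 * (j : ℝ) - 2 + 4 / 11)

/-- Two arbitrary factors. -/
def EbSt : Prop :=
  ∀ A B j : ℕ, 2 ≤ j → j ≤ 4 → ∀ᶠ w : ℝ in atTop, ∀ (ι κ : Type) (S : Finset ι) (v : ι → GI)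
    (S' : Finset κ) (v' : κ → GI) (Z q : ℕ) (c : GI) (P₁ P₂ : ℝ), Two S v S' v' j B Z w (w ^ A) P₁ →
    1 ≤ Z → 1 ≤ q → (q : ℝ) ≤ w → 1 ≤ P₁ → P₁ ≤ P₂ → P₂ ≤ w ^ A →
    ∑ t ∈ fz Z, ‖hat S v t‖ * ‖hat S' v' t‖ * ‖sm (cls q c) P₁ P₂ t‖ ≤ 1 / w ^ 5

/-- The sieve on the cofactor. -/
def TCSt : Prop :=
  ∃ C : ℝ, 0 < C ∧ ∀ k : ℕ, C ≤ 2 ^ k → ∀ (ι : Type) (S : Finset ι) (v : ι → GI) (Z : ℕ)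
    (z P₁ P₂ E : ℝ), 2 ≤ z → (∀ i ∈ S, v i ≠ 0) → 1 ≤ Z → 8 * z ^ (4 * k + 6) ≤ P₁ → 0 ≤ E →
    (∀ (q : ℕ) (c : GI), 1 ≤ q → (q : ℝ) ≤ z ^ (4 * k + 6) →
      ∑ t ∈ fz Z, ‖hat S v t‖ * ‖sm (cls q c) P₁ P₂ t‖ ≤ E) →
    |AA z Z S v P₁ P₂ - D0 S v * m0 P₁ P₂ * VV z| ≤ C / 2 ^ k * (D0 S v * m0 P₁ P₂ * VV z) +
      (z ^ (4 * k + 6)) ^ 4 * (E + C * D0 S v * z ^ (4 * k + 6) / P₁)

/-- Sums of the first type. -/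
def T1St : Prop :=
  ∃ C : ℝ, 0 < C ∧ ∀ k : ℕ, C ≤ 2 ^ k → ∀ A B : ℕ,
    (∀ᶠ z : ℝ in atTop, ∀ (ι : Type) (S : Finset ι) (v : ι → GI) (Z : ℕ) (P₁ P₂ Y : ℝ),
      Mult S v B → 1 ≤ Y → (∀ i ∈ S, Y ≤ nm (v i) ∧ (nm (v i) : ℝ) ≤ z ^ A) → 1 ≤ Z → 1 ≤ P₁ →
      P₁ ≤ z ^ A → (z ^ (4 * k + 6)) ^ 14 * Z ≤ P₁ ^ 2 →
      (z ^ (4 * k + 6)) ^ 14 * (Z : ℝ) ^ 2 ≤ Y * P₁ ^ 2 →
      |AA z Z S v P₁ P₂ - D0 S v * m0 P₁ P₂ * VV z| ≤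
        C / 2 ^ k * (D0 S v * m0 P₁ P₂ * VV z) + 1 / z) ∧
    ∀ j : ℕ, 2 ≤ j → j ≤ 4 → ∀ᶠ z : ℝ in atTop, ∀ (ι κ : Type) (S : Finset ι) (v : ι → GI)
      (S' : Finset κ) (v' : κ → GI) (Z : ℕ) (P₁ P₂ : ℝ),
      Two S v S' v' j B Z (z ^ (4 * k + 6)) (z ^ A) P₁ → 1 ≤ Z → 1 ≤ P₁ → P₁ ≤ P₂ → P₂ ≤ z ^ A →
      |AA z Z (S ×ˢ S') (fun w => v w.1 * v' w.2) P₁ P₂ - D0 S v * D0 S' v' * m0 P₁ P₂ * VV z| ≤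
        C / 2 ^ k * (D0 S v * D0 S' v' * m0 P₁ P₂ * VV z) + 1 / z

/-- The upper bound for rough vectors. -/
def UBSt : Prop :=
  ∃ (c : ℕ) (C : ℝ), 0 < C ∧ ∀ A : ℕ, ∀ᶠ z : ℝ in atTop, ∀ (Z : ℕ) (Y Y' : ℝ), 1 ≤ Z →
    z ^ c * (Z : ℝ) ^ 2 ≤ Y → Y ≤ Y' → Y' ≤ z ^ A →
    lay z Z Y Y' ≤ C * (1 + Real.log (Y' / Y)) / Real.log z

/-- The mean value without logarithms. -/
def MVSt : Prop :=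
  ∃ (c : ℕ) (C : ℝ), 0 < C ∧ ∀ A B : ℕ, ∀ᶠ z : ℝ in atTop, ∀ (ι : Type) (S : Finset ι)
    (v : ι → GI) (Z : ℕ) (Y Y' : ℝ), Mult S v B → 1 ≤ Z → z ^ c * Z ≤ Y → Y ≤ Y' → Y' ≤ z ^ A →
    (∀ i ∈ S, Y ≤ nm (v i) ∧ (nm (v i) : ℝ) ≤ Y' ∧ Rough z (nm (v i))) →
    ∑ t ∈ fr Z, ‖hat S v t‖ ^ 2 ≤ C * (B * (1 + Real.log (Y' / Y)) / Real.log z) ^ 2

/-- Squares are rare. -/
def NNSt : Prop :=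
  ∀ A : ℕ, ∀ᶠ z : ℝ in atTop, ∀ (Z : ℕ) (Y Y' : ℝ), 1 ≤ Z → z * (Z : ℝ) ^ 2 ≤ Y → Y' ≤ z ^ A →
    NN z Z Y Y' ≤ z ^ (-(1 / 4) : ℝ)

/-- All sums of the first type. -/
def TISt : Prop :=
  ∃ C : ℝ, 0 < C ∧ ∀ k : ℕ, C ≤ 2 ^ k → ∀ (p : Par) (j₀ R g₀ : ℕ), p.OK → 1 ≤ j₀ →
    p.J₂ + 2 * R + 1 ≤ R * j₀ → g₀ + 50 * (4 * k + 6) * j₀ + 2 ≤ p.g →
    ∀ᶠ y : ℝ in atTop, ∀ Z : ℕ, 1 ≤ Z → (Z : ℝ) ≤ y ^ g₀ →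
      |p.TI y j₀ R Z - p.TI y j₀ R 1| ≤ C * R * ((p.J₂ : ℝ) - p.J₁ + R + 2) / (2 ^ k * j₀)

/-! ### Cancellation in the sums over primes -/

/-- Short sums. -/
def GRowSt : Prop :=
  ∀ A : ℕ, ∃ (d : ℕ) (γ : ℝ), Odd d ∧ 0 < γ ∧ ∀ᶠ T : ℝ in atTop, ∀ t : ℤ,
    T ^ (1 / 4 : ℝ) ≤ |(t : ℝ)| → |(t : ℝ)| ≤ T ^ A →
    ∃ H : ℕ, 1 ≤ H ∧ (H : ℝ) ≤ T ^ (1 / 2 - γ) ∧ ∀ v u : GI, v ∈ ann T → (u = 1 ∨ u = ⟨0, 1⟩) →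
      T ^ (-γ) ≤ |(((u : ℂ) / dir v) ^ d).im| →
      ‖∑ n ∈ Ioc 0 H, chi t (v + (n : ℕ) * u)‖ ≤ H * T ^ (-γ)

/-- A power saving for frequencies of any polynomial size. -/
def GEPSt : Prop :=
  ∀ A : ℕ, ∃ θ : ℝ, 0 < θ ∧ θ ≤ 1 / 2 ∧ ∀ᶠ T : ℝ in atTop, ∀ t : ℤ, t ≠ 0 → |(t : ℝ)| ≤ T ^ A →
    ‖∑ v ∈ ann T, chi t v‖ ≤ T ^ (1 - θ)

/-- the hypotheses on a series and its logarithmic derivative -/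
def Ser (θ C Y : ℝ) (f Λ : ℕ → ℂ) (Λ₀ : ℕ → ℝ) : Prop :=
  f 1 = 1 ∧ (∀ x : ℕ, ∑ n ∈ Icc 1 x, ‖f n‖ ≤ C * x) ∧
  (∀ x : ℕ, Y ≤ x → ‖∑ n ∈ Icc 1 x, f n‖ ≤ C * (x : ℝ) ^ (1 - θ)) ∧
  (∀ n : ℕ, (Real.log n : ℂ) * f n = ∑ d ∈ n.divisorsAntidiagonal, Λ d.1 * f d.2) ∧
  (∀ n : ℕ, ‖Λ n‖ ≤ Λ₀ n) ∧
  ∀ σ : ℝ, 1 < σ → σ ≤ 2 → (Summable fun n : ℕ => Λ₀ n / (n : ℝ) ^ σ) ∧
    ∑' n : ℕ, Λ₀ n / (n : ℝ) ^ σ ≤ 11 / 10 / (σ - 1) + C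

/-- partial fractions near the point `1` -/
def PF (θ E : ℝ) (Λ : ℕ → ℂ) : Prop :=
  ∃ (M : ℕ) (ρ : Fin M → ℂ), (∀ j, (ρ j).re ≤ 1) ∧ ∀ s : ℂ, 1 < s.re → s.re ≤ 1 + θ / 4 →
    |s.im| ≤ θ / 4 → ‖LSeries Λ s + ∑ j, 1 / (s - ρ j)‖ ≤ E

/-- The lemma of Landau. -/
def AbsA : Prop :=
  ∃ K : ℝ, 0 < K ∧ ∀ θ C : ℝ, 0 < θ → θ ≤ 1 / 2 → 1 ≤ C → ∃ C₁ : ℝ, 0 < C₁ ∧
    ∀ (Y : ℝ) (f Λ : ℕ → ℂ) (Λ₀ : ℕ → ℝ), 1 ≤ Y → Ser θ C Y f Λ Λ₀ →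
      PF θ (K * Real.log Y + C₁) Λ

/-- The region without zeros and the bound on the real axis. -/
def AbsB : Prop :=
  ∃ K : ℝ, 0 < K ∧ ∀ (θ C E : ℝ) (Λ₁ Λ₂ : ℕ → ℂ) (Λ₀ : ℕ → ℝ), 0 < θ → θ ≤ 1 / 2 → 1 ≤ C →
    C ≤ E → 8 / θ ≤ E → PF θ E Λ₁ → PF θ E Λ₂ → (∀ n, ‖Λ₁ n‖ ≤ Λ₀ n ∧ ‖Λ₂ n‖ ≤ Λ₀ n) →
    (∀ σ : ℝ, 1 < σ → σ ≤ 2 → (Summable fun n : ℕ => Λ₀ n / (n : ℝ) ^ σ) ∧
      ∑' n : ℕ, Λ₀ n / (n : ℝ) ^ σ ≤ 11 / 10 / (σ - 1) + C) →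
    (∀ (τ : ℝ) (n : ℕ), 1 ≤ n → 0 ≤ 3 * Λ₀ n + 4 * (Λ₁ n / (n : ℂ) ^ (τ * Complex.I)).re +
      (Λ₂ n / (n : ℂ) ^ (2 * τ * Complex.I)).re) →
    ∀ σ : ℝ, 1 < σ → σ ≤ 2 → ‖LSeries Λ₁ σ‖ ≤ K * E

/-- The function of von Mangoldt of the Gaussian integers. -/
def ArSt : Prop :=
  ∃ (Λ : ℤ → ℕ → ℂ) (Λ₀ : ℕ → ℝ), (∀ t, ff t 1 = 1) ∧
    (∀ (t : ℤ) (x : ℕ), ∑ n ∈ Icc 1 x, ‖ff t n‖ ≤ 9 * x) ∧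
    (∀ (t : ℤ) (n : ℕ), (Real.log n : ℂ) * ff t n =
      ∑ d ∈ n.divisorsAntidiagonal, Λ t d.1 * ff t d.2) ∧
    (∀ t n, ‖Λ t n‖ ≤ Λ₀ n) ∧ (∀ n, Λ₀ n ≤ 2 * ArithmeticFunction.vonMangoldt n) ∧
    (∀ (t : ℤ) (τ : ℝ) (n : ℕ), 1 ≤ n →
      0 ≤ 3 * Λ₀ n + 4 * (Λ t n / (n : ℂ) ^ (τ * Complex.I)).re +
        (Λ (2 * t) n / (n : ℂ) ^ (2 * τ * Complex.I)).re) ∧
    ∀ l : ℕ, l.Prime → l ≠ 2 → (¬Split l → Λ₀ l = 0) ∧ ∀ t, Λ t l = (Real.log l : ℂ) * fp t l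

/-- The logarithmic derivative is small. -/
def DSt : Prop :=
  ∀ (A : ℕ) (ε : ℝ), 0 < ε → ∀ᶠ y : ℝ in atTop, ∀ t : ℤ, t ≠ 0 → |(t : ℝ)| ≤ y ^ A →
    ∀ σ : ℝ, 1 < σ → σ ≤ 2 →
      ‖∑' l : ℕ, (Real.log l : ℂ) * fp t l / (((l : ℝ) ^ σ : ℝ) : ℂ)‖ ≤ ε * Real.log y

/-- Cancellation in a box of primes. -/
def PBSt : Prop :=
  ∀ (j A : ℕ) (ε : ℝ), 1 ≤ j → 0 < ε → ∀ᶠ y : ℝ in atTop, ∀ t : ℤ, t ≠ 0 → |(t : ℝ)| ≤ y ^ A →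
    ‖hat (Bx y j) id t‖ ≤ ε

/-! ### Cells -/

/-- Good cells; two large primes. -/
def T3St : Prop :=
  ∃ (c : ℕ) (C : ℝ), 0 < C ∧
    (∀ (r : ℕ) (jv : Fin r → ℕ) (j₀ g g₀ : ℕ) (ε : ℝ), 1 ≤ j₀ → (∀ i, j₀ ≤ jv i) →
      g₀ + c * j₀ ≤ g → Good g (vm jv) → 0 < ε →
      ∀ᶠ y : ℝ in atTop, ∀ Z : ℕ, 1 ≤ Z → (Z : ℝ) ≤ y ^ g₀ → |cell y Z jv - cell y 1 jv| ≤ ε) ∧
    ∀ j₀ a b g₀ : ℕ, 1 ≤ j₀ → j₀ ≤ a → a ≤ b → g₀ + c * j₀ ≤ a →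
      ∀ᶠ y : ℝ in atTop, ∀ Z : ℕ, 1 ≤ Z → (Z : ℝ) ≤ y ^ g₀ →
        ∑ π ∈ PP y a b, ∑ π' ∈ PP y a b, ww Z (π * π') ≤ C * (((b : ℝ) - a + 1) / j₀) ^ 2

/-- The sum of the first type as a sum over sets of primes. -/
def IDSt : Prop :=
  ∀ (p : Par) (y : ℝ) (j₀ R Z : ℕ), p.OK → 3 ≤ y → 1 ≤ j₀ → p.J₂ + 2 * R + 1 ≤ R * j₀ →
    |p.TI y j₀ R Z - 4 * p.sc y j₀ Z fun M => p.T M| ≤
      13 * 2 ^ R * (NN (y ^ j₀) Z (y ^ (p.J₁ - 1)) (y ^ (p.J₂ + 2 * R + 1)) +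
        lay (y ^ j₀) Z (y ^ (p.J₁ - 1)) (y ^ (p.J₁ + R)) +
        lay (y ^ j₀) Z (y ^ p.J₂) (y ^ (p.J₂ + 2 * R + 1)))

/-- From sets of primes to cells. -/
def TupSt : Prop :=
  ∀ (y : ℝ) (j₀ J a b r Z : ℕ) (F : Multiset ℕ → ℝ) (F₀ : ℝ), 2 ≤ y → 0 ≤ F₀ →
    (∀ M, M.card = r → |F M| ≤ F₀) → (∀ M, F M ≠ 0 → a ≤ M.sum ∧ M.sum ≤ b) →
    |∑ S ∈ NS y j₀ J with #S = r, F (im y S) * ww Z (∏ π ∈ S, π) -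
        (∑ jv ∈ Fintype.piFinset fun _ : Fin r => Ico j₀ J, F (vm jv) * cell y Z jv) /
          r.factorial| ≤ F₀ * r ^ r * NN (y ^ j₀) Z (y ^ a) (y ^ (b + r))

/-! ### The certificate -/

/-- the subsets in the window -/
def Par.win (p : Par) (m : ℕ) (S : Multiset ℕ) : Prop := S.sum < p.τ ∧ p.τ ≤ S.sum + m

/-- The truncated sum of Moebius. -/
def WinSt : Prop :=
  ∀ (p : Par) (m : ℕ) (R : Multiset ℕ),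
    ((m ::ₘ R).powerset.map p.y0).sum =
      (R.powerset.map fun S => if p.win m S then (-1 : ℤ) ^ S.card else 0).sum ∧
    (2 * p.τ ≤ m + R.sum → Odd R.card → -((m ::ₘ R).powerset.map p.y0).sum ≤
      (R.powerset.countP fun S => p.win m S ∧ Odd S.card ∧ S.sum + m + p.τ ≤ m + R.sum : ℕ))

/-- The sign of the sieve weights. -/
def SignSt : Prop :=
  ∀ p : Par, p.OK → (∀ M, |p.yy M| ≤ 13) ∧ (∀ M, p.J₁ ≤ M.sum → p.yy M = 0) ∧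
    (∀ M, |p.T M| ≤ 13 * 2 ^ M.card) ∧ (∀ j, p.J₁ ≤ j → p.T {j} = 1) ∧
    ∀ M : Multiset ℕ, p.J₁ ≤ M.sum → M.sum ≤ p.J₂ → 2 ≤ M.card → ¬Good p.g M →
      p.T M ≤ if M.card = 2 ∧ ∀ b ∈ M, p.τ ≤ b then 1 else 0

/-- Where the loss lives. -/
def StrSt : Prop :=
  ∀ (p : Par) (m : ℕ) (R : Multiset ℕ), p.OK → (∀ x ∈ R, m ≤ x) → p.J₁ ≤ m + R.sum →
    m + R.sum ≤ p.J₂ → ¬Good p.g (m ::ₘ R) → p.T (m ::ₘ R) < 0 →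
    2 ≤ R.card ∧ R.card ≤ 7 ∧ 2 * p.J₁ < 2 * m + 5 * p.g ∧
      ∀ x ∈ R, p.τ < p.g + x ∧ x + p.τ ≤ m + R.sum

/-- The loss is smaller than the main term. -/
def LossSt (q : Par) : Prop :=
  ∃ c : ℝ, 0 < c ∧ ∀ᶠ h : ℕ in atTop, ∀ J j₀ J' R : ℕ, q.J₁ * h ≤ J → J ≤ q.J₂ * h → 1 ≤ j₀ →
    (q.scale h).ls j₀ J' R J ≤ (1 - c) / J

/-! ### The end -/

/-- The sums over all sets of primes agree. -/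
def CoSt : Prop :=
  ∃ (c : ℕ) (C : ℝ), 0 < C ∧ ∀ k : ℕ, C ≤ 2 ^ k → ∀ (p : Par) (j₀ R g₀ : ℕ), p.OK → 1 ≤ j₀ →
    p.J₂ + 2 * R + 1 ≤ R * j₀ → g₀ + (50 * (4 * k + 6) + c) * j₀ + 2 ≤ p.g →
    ∀ᶠ y : ℝ in atTop, ∀ Z : ℕ, 1 ≤ Z → (Z : ℝ) ≤ y ^ g₀ →
      |(p.sc y j₀ Z fun M => p.T M) - p.sc y j₀ 1 fun M => p.T M| ≤
        C * R * ((p.J₂ : ℝ) - p.J₁ + R + 2) / (2 ^ k * j₀) + C * 2 ^ R * R / j₀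

/-- The sums over the good sets agree; the bad sets. -/
def GdSt : Prop :=
  ∃ (c : ℕ) (C : ℝ), 0 < C ∧ ∀ (p : Par) (j₀ R g₀ : ℕ) (ε : ℝ), p.OK → 1 ≤ j₀ →
    p.J₂ + 2 * R + 1 ≤ R * j₀ → g₀ + c * j₀ + 2 ≤ p.g → 0 < ε →
    ∀ᶠ y : ℝ in atTop, ∀ Z : ℕ, 1 ≤ Z → (Z : ℝ) ≤ y ^ g₀ →
      |(p.sc y j₀ Z fun M => if Good p.g M then p.T M else 0) -
        p.sc y j₀ 1 fun M => if Good p.g M then p.T M else 0| ≤ ε ∧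
      (p.sc y j₀ Z fun M => if Good p.g M then 0 else p.T M) ≤
        ∑ π ∈ PP y p.J₁ (p.J₂ + 1), ww Z π + C * (((p.J₂ : ℝ) - 2 * p.τ + 2) / j₀) ^ 2

/-- The bad sets in the model. -/
def BdSt : Prop :=
  ∀ (p : Par) (j₀ R : ℕ) (ε : ℝ), p.OK → 1 ≤ j₀ → j₀ ≤ p.J₁ → p.J₂ + 2 * R + 1 ≤ R * j₀ → 0 < ε →
    ∀ᶠ y : ℝ in atTop, ∑ J ∈ Icc p.J₁ p.J₂, (1 / ((J : ℝ) + 1) - p.ls j₀ (p.J₂ + 1) R J) - ε ≤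
      p.sc y j₀ 1 fun M => if Good p.g M then 0 else p.T M

/-- The primes far from the axis have a small weight. -/
def ExtSt : Prop :=
  ∃ C : ℝ, 0 < C ∧ ∀ (y w : ℝ) (Z j J : ℕ), 2 ≤ y → 1 ≤ w → 1 ≤ Z →
    ∑ π ∈ PP y j J with w * π.re < Z * |(π.im : ℝ)|, ww Z π ≤ C * (1 + J * Real.log y) / w

/-- The lower bound for the weight of the primes. -/
def MainSt (θ : ℝ) : Prop :=
  ∃ (J₁ J₂ g₀ : ℕ) (c : ℝ), 0 < c ∧ 0 < J₁ ∧ (J₂ : ℝ) / 2 + 3 - g₀ ≤ θ * J₁ ∧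
    ∀ᶠ y : ℝ in atTop, ∀ Z : ℕ, 1 ≤ Z → (Z : ℝ) ≤ y ^ g₀ → c ≤ ∑ π ∈ PP y J₁ (J₂ + 1), ww Z π

/-- The theorem. -/
def FinSt (θ : ℝ) : Prop :=
  {p : ℕ | p.Prime ∧ ∃ a b : ℕ, 0 < b ∧ p = a ^ 2 + b ^ 2 ∧ (b : ℝ) < (p : ℝ) ^ θ}.Infinite

end

end Pool.Agent.Lib.MP_4b1228_nt.GS
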