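import Pool.Agent.Lib.MP_4b1228_nt.GS.St

/-!
Primes `a ^ 2 + b ^ 2` with small `b`: the restriction to the two families.
-/

namespace Pool.Agent.Lib.MP_4b1228_nt.GS

open Finset Filter Pool.Agent.Lib.MP_9d27bc_nt.C
open scoped Classical

noncomputable section

/-- the number is a prime or twice a prime -/
def Thin (a : ℤ) : Prop := ∃ q : ℕ, q.Prime ∧ (a = q ∨ a = 2 * q)

/-- The primes whose real part is a prime or twice a prime have a small weight. -/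
def FamSt : Prop :=
  ∀ (J₁ J g₀ : ℕ) (ε : ℝ), 2 * g₀ < J₁ → 0 < ε →
    ∀ᶠ y : ℝ in atTop, ∀ Z : ℕ, 1 ≤ Z → (Z : ℝ) ≤ y ^ g₀ →
      ∑ π ∈ PP y J₁ J with Thin π.re, ww Z π ≤ ε

/-- The lower bound for the weight of the primes. -/
def MainSt2 (θ : ℝ) : Prop :=
  ∃ (J₁ J₂ g₀ : ℕ) (c : ℝ), 0 < c ∧ 2 * g₀ < J₁ ∧ (J₂ : ℝ) / 2 + 3 - g₀ ≤ θ * J₁ ∧
    ∀ᶠ y : ℝ in atTop, ∀ Z : ℕ, 1 ≤ Z → (Z : ℝ) ≤ y ^ g₀ → c ≤ ∑ π ∈ PP y J₁ (J₂ + 1), ww Z π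

/-- The theorem. -/
def FinSt2 (θ : ℝ) : Prop :=
  {p : ℕ | p.Prime ∧ ∃ q n b : ℕ, q.Prime ∧ 0 < b ∧ (b : ℝ) < (p : ℝ) ^ θ ∧
    ((1 < n ∧ p = (2 * q * n) ^ 2 + b ^ 2) ∨
      (1 ≤ n ∧ Even b ∧ p = ((2 * n + 1) * q) ^ 2 + b ^ 2))}.Infinite

end

end Pool.Agent.Lib.MP_4b1228_nt.GS
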