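import Pool.Agent.Lib.MP_4b1228_nt.GS.St2

/-!
Primes `a ^ 2 + b ^ 2` with small `b`, second version: the bound of Weyl, large values, and sieve
weights in general form.
-/

namespace Pool.Agent.Lib.MP_4b1228_nt.GS

open Finset Filter Topology Pool.Agent.Lib.MP_9d27bc_nt.C Pool.Agent.Lib.MP_9d27bc_nt.C.Two
open scoped Classical ComplexConjugate

noncomputable section

/-! ### The bound of Weyl -/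

/-- a rectangle -/
def rct (a b : ℤ) (L₁ L₂ : ℕ) : Finset GI :=
  (Ico a (a + L₁) ×ˢ Ico b (b + L₂)).image fun w => (⟨w.1, w.2⟩ : GI)

/-- Partial summation in two variables. -/
def AbelSt : Prop :=
  (∀ (a b : ℤ) (L₁ L₂ : ℕ) (v : GI), v ∈ rct a b L₁ L₂ ↔
    a ≤ v.re ∧ v.re < a + L₁ ∧ b ≤ v.im ∧ v.im < b + L₂) ∧
  (∀ (a b : ℤ) (L₁ L₂ : ℕ), #(rct a b L₁ L₂) = L₁ * L₂) ∧
  ∀ (a b : ℤ) (L₁ L₂ : ℕ) (f w : GI → ℂ) (K W₀ W₁ W₂ : ℝ), 0 ≤ W₀ → 0 ≤ W₁ → 0 ≤ W₂ →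
    (∀ l₁ ≤ L₁, ∀ l₂ ≤ L₂, ‖∑ n ∈ rct a b l₁ l₂, f n‖ ≤ K) →
    (∀ n ∈ rct a b L₁ L₂, ‖w n‖ ≤ W₀) →
    (∀ n ∈ rct a b L₁ L₂, n + 1 ∈ rct a b L₁ L₂ → ‖w (n + 1) - w n‖ ≤ W₁) →
    (∀ n ∈ rct a b L₁ L₂, n + ⟨0, 1⟩ ∈ rct a b L₁ L₂ → ‖w (n + ⟨0, 1⟩) - w n‖ ≤ W₁) →
    (∀ n ∈ rct a b L₁ L₂, n + ⟨1, 1⟩ ∈ rct a b L₁ L₂ →
      ‖w (n + ⟨1, 1⟩) - w (n + 1) - w (n + ⟨0, 1⟩) + w n‖ ≤ W₂) →
    ‖∑ n ∈ rct a b L₁ L₂, f n * w n‖ ≤ K * (W₀ + ((L₁ : ℝ) + L₂) * W₁ + (L₁ : ℝ) * L₂ * W₂)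

/-- The inequality of van der Corput. -/
def VCSt : Prop :=
  ∀ (a b : ℤ) (L₁ L₂ H : ℕ) (f : GI → ℂ), 1 ≤ H →
    ‖∑ n ∈ rct a b L₁ L₂, f n‖ ^ 2 ≤ ((L₁ : ℝ) + H) * ((L₂ : ℝ) + H) / (H : ℝ) ^ 2 *
      ∑ h ∈ sqr (-(H : ℤ)) (-(H : ℤ)) (2 * H + 1),
        ‖∑ n ∈ rct a b L₁ L₂ with n + h ∈ rct a b L₁ L₂, f (n + h) * conj (f n)‖

/-- The second derivative test. -/
def SDSt : Prop :=
  ∃ C : ℝ, 0 < C ∧ ∀ (t : ℤ) (ζ : ℂ) (h : GI) (a b : ℤ) (L₁ L₂ : ℕ) (P : ℝ), 1 ≤ P → t ≠ 0 →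
    h ≠ 0 → ‖(h : ℂ)‖ ≤ P / 10 →
    (∀ n ∈ rct a b L₁ L₂, P ≤ (ζ + n).re ∧ ‖ζ + n‖ ≤ 4 * P) →
    ‖∑ n ∈ rct a b L₁ L₂, Complex.exp (Complex.I *
      (4 * t * (Complex.log (1 + (h : ℂ) / (ζ + n))).im : ℝ))‖ ≤
      C * (1 + Real.log P) ^ 2 * (|(t : ℝ)| * ‖(h : ℂ)‖ / P + P ^ 3 / (|(t : ℝ)| * ‖(h : ℂ)‖))

/-- The bound of Weyl for the smooth sums. -/
def PW2St : Prop :=
  ∀ ε : ℝ, 0 < ε → ∃ C : ℝ, 0 < C ∧ ∀ (q : ℕ) (c : GI) (P₁ P₂ : ℝ) (t : ℤ), 1 ≤ q → 1 ≤ P₁ →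
    P₁ ≤ P₂ → t ≠ 0 → ‖sm (cls q c) P₁ P₂ t‖ ≤
      C * P₂ ^ ε * q * (|(t : ℝ)| ^ (1 / 3 : ℝ) / P₁ + |(t : ℝ)| ^ (-(1 / 3) : ℝ))

/-! ### Large values -/

/-- The number of large values. -/
def LVSt : Prop :=
  ∀ (A B : ℕ) (ε : ℝ), 0 < ε → ∀ᶠ w : ℝ in atTop, ∀ (ι : Type) (S : Finset ι) (v : ι → GI) (Z : ℕ)
    (Y V : ℝ), Mult S v B → 1 ≤ Y → (∀ i ∈ S, Y ≤ nm (v i) ∧ (nm (v i) : ℝ) ≤ w ^ A) → 1 ≤ Z →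
    Y ^ (-(1 / 12) : ℝ) ≤ V →
    (#{t ∈ fr Z | V ≤ ‖hat S v t‖} : ℝ) ≤ w ^ ε * (1 / V ^ 2 + Z / (Y ^ (3 / 2 : ℝ) * V ^ 8))

/-- Moments of fractional order. -/
def MomSt : Prop :=
  ∀ (A B : ℕ) (ε : ℝ), 0 < ε → ∀ᶠ w : ℝ in atTop, ∀ (ι : Type) (S : Finset ι) (v : ι → GI) (Z : ℕ)
    (Y p : ℝ), Mult S v B → 1 ≤ Y → (∀ i ∈ S, Y ≤ nm (v i) ∧ (nm (v i) : ℝ) ≤ w ^ A) → 1 ≤ Z →
    2 ≤ p → p ≤ 8 → (Z : ℝ) ≤ Y ^ ((p + 10) / 12) → ∑ t ∈ fr Z, ‖hat S v t‖ ^ p ≤ w ^ ε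

/-- The mean value over a thin set of frequencies, without logarithms. -/
def HLSt : Prop :=
  ∃ (c : ℕ) (C : ℝ), 0 < C ∧ ∀ A B : ℕ, ∀ᶠ z : ℝ in atTop, ∀ (ι : Type) (S : Finset ι)
    (v : ι → GI) (Z : ℕ) (Y Y' : ℝ) (U : Finset ℤ), Mult S v B → 1 ≤ Z → U ⊆ fr Z → 1 ≤ Y →
    (Z : ℝ) ^ 3 ≤ Y ^ 4 → z ^ c * (#U + 1) ≤ Y ^ (1 / 18 : ℝ) → Y ≤ Y' → Y' ≤ z ^ A →
    (∀ i ∈ S, Y ≤ nm (v i) ∧ (nm (v i) : ℝ) ≤ Y' ∧ Rough z (nm (v i))) →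
    ∑ t ∈ U, ‖hat S v t‖ ^ 2 ≤ C * (B * (1 + Real.log (Y' / Y)) / Real.log z) ^ 2

/-- the conditions on two arbitrary factors -/
def Two2 {ι κ : Type} (S : Finset ι) (v : ι → GI) (S' : Finset κ) (v' : κ → GI) (a : ℝ)
    (B Z : ℕ) (w X P₁ : ℝ) : Prop :=
  Mult S v B ∧ (∀ i ∈ S, Z ≤ nm (v i) ∧ (nm (v i) : ℝ) ≤ X) ∧ D0 S' v' ≤ B ∧
  (∀ i ∈ S', v' i ≠ 0) ∧ 0 < a ∧ a ≤ 1 / 4 ∧ ∑ t ∈ fr Z, ‖hat S' v' t‖ ^ (1 / a) ≤ w ∧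
  w ^ 60 * (Z : ℝ) ^ (1 - 2 * a / 3) ≤ P₁ ^ 2

/-- Two arbitrary factors. -/
def Eb2St : Prop :=
  ∀ A B : ℕ, ∀ᶠ w : ℝ in atTop, ∀ (ι κ : Type) (S : Finset ι) (v : ι → GI)
    (S' : Finset κ) (v' : κ → GI) (a : ℝ) (Z q : ℕ) (c : GI) (P₁ P₂ : ℝ),
    Two2 S v S' v' a B Z w (w ^ A) P₁ → 1 ≤ Z → 1 ≤ q → (q : ℝ) ≤ w → 1 ≤ P₁ → P₁ ≤ P₂ →
    P₂ ≤ w ^ A → ∑ t ∈ fz Z, ‖hat S v t‖ * ‖hat S' v' t‖ * ‖sm (cls q c) P₁ P₂ t‖ ≤ 1 / w ^ 5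

/-- Sums of the first type with two arbitrary factors. -/
def T2St : Prop :=
  ∃ C : ℝ, 0 < C ∧ ∀ k : ℕ, C ≤ 2 ^ k → ∀ A B : ℕ,
    ∀ᶠ z : ℝ in atTop, ∀ (ι κ : Type) (S : Finset ι) (v : ι → GI)
      (S' : Finset κ) (v' : κ → GI) (a : ℝ) (Z : ℕ) (P₁ P₂ : ℝ),
      Two2 S v S' v' a B Z (z ^ (4 * k + 6)) (z ^ A) P₁ → 1 ≤ Z → 1 ≤ P₁ → P₁ ≤ P₂ → P₂ ≤ z ^ A →
      |AA z Z (S ×ˢ S') (fun w => v w.1 * v' w.2) P₁ P₂ - D0 S v * D0 S' v' * m0 P₁ P₂ * VV z| ≤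
        C / 2 ^ k * (D0 S v * D0 S' v' * m0 P₁ P₂ * VV z) + 1 / z

/-! ### Good cells and visible divisors -/

/-- the exponent that a factor of size `N` can carry in the inequality of Hoelder -/
def om1 (g N : ℕ) : ℝ :=
  if g ≤ N then 1 / 2 else if 2 * g ≤ 3 * N then (N : ℝ) / (12 * g - 10 * N) else 0

/-- the exponents of some groups add up to more than one -/
def GoodP (g : ℕ) (M : Multiset ℕ) : Prop :=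
  (∃ (k : ℕ) (A : Fin k → Multiset ℕ) (j : Fin k → ℕ), M = ∑ i, A i ∧ (∀ i, 1 ≤ j i) ∧
    1 < ∑ i, om1 g (j i * (A i).sum) / j i) ∧
  ∃ A B C : Multiset ℕ, M = A + B + C ∧ C ≠ 0 ∧ 3 * g ≤ 4 * A.sum ∧ 3 * g ≤ 4 * B.sum

/-- three short groups -/
def Good3 (g : ℕ) (M : Multiset ℕ) : Prop :=
  12 * g ≤ 5 * M.sum ∧ ∃ A B C : Multiset ℕ, M = A + B + C ∧ A.sum ≤ g ∧ B.sum ≤ g ∧ 2 * C.sum ≤ g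

/-- the good cells -/
def Good2 (g : ℕ) (M : Multiset ℕ) : Prop := Good g M ∨ Good3 g M ∨ GoodP g M

/-- two factors beyond the truncation -/
def Exc (τ : ℕ) (M : Multiset ℕ) : Prop := ∃ A B : Multiset ℕ, M = A + B ∧ τ ≤ A.sum ∧ τ ≤ B.sum

/-- the cofactor `u` is long enough for the prime `b` -/
def vis2 (g u b : ℕ) : Prop :=
  ∃ j ∈ Icc 2 5, 0 < om1 g (j * b) ∧ 3 / 2 ≤ om1 g (j * b) / (j : ℝ) + 3 * (u : ℝ) / (2 * g)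

/-- the weights of the cells with the property `G` agree with the model -/
def Asy (G : Multiset ℕ → Prop) (j₀ g₀ : ℕ) : Prop :=
  ∀ (r : ℕ) (jv : Fin r → ℕ) (ε : ℝ), (∀ i, j₀ ≤ jv i) → G (vm jv) → 0 < ε →
    ∀ᶠ y : ℝ in atTop, ∀ Z : ℕ, 1 ≤ Z → (Z : ℝ) ≤ y ^ g₀ → |cell y Z jv - cell y 1 jv| ≤ ε

/-- Cells with large values. -/
def T3PSt : Prop :=
  ∃ c : ℕ, ∀ g j₀ g₀ : ℕ, 1 ≤ j₀ → g₀ + c * j₀ ≤ g → Asy (GoodP g) j₀ g₀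

/-- All good cells. -/
def AsySt : Prop :=
  ∃ c : ℕ, ∀ g j₀ g₀ : ℕ, 1 ≤ j₀ → g₀ + c * j₀ ≤ g → Asy (Good2 g) j₀ g₀

/-- the lower end of the range of the cofactor -/
def pA (J₁ : ℕ) (y : ℝ) (a : ℕ) : ℝ := y ^ (((J₁ : ℝ) - a - 1) / 2)

/-- the upper end of the range of the cofactor -/
def pB (J₂ : ℕ) (y : ℝ) (R a : ℕ) : ℝ := y ^ (((J₂ : ℝ) + R - a) / 2)

/-- the sets of primes with given indices -/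
def FM (y : ℝ) (j₀ J : ℕ) (M : Multiset ℕ) : Finset (Finset GI) :=
  {S ∈ (PP y j₀ J).powerset | im y S = M}

/-- the main term for these sets -/
def mT (J₁ J₂ R j₀ : ℕ) (M : Multiset ℕ) (y : ℝ) : ℝ :=
  D0 (FM y j₀ (J₂ + 1) M) (fun S => ∏ π ∈ S, π) * m0 (pA J₁ y M.sum) (pB J₂ y R M.sum) *
    VV (y ^ j₀)

/-- the multiples of these sets have the expected weight -/
def AsyI (η : ℝ) (J₁ J₂ R j₀ g₀ : ℕ) (M : Multiset ℕ) : Prop :=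
  ∀ ε : ℝ, 0 < ε → ∀ᶠ y : ℝ in atTop, ∀ Z : ℕ, 1 ≤ Z → (Z : ℝ) ≤ y ^ g₀ →
    |AA (y ^ j₀) Z (FM y j₀ (J₂ + 1) M) (fun S => ∏ π ∈ S, π) (pA J₁ y M.sum) (pB J₂ y R M.sum) -
      mT J₁ J₂ R j₀ M y| ≤ η * mT J₁ J₂ R j₀ M y + ε

/-- Visible divisors. -/
def VisSt : Prop :=
  ∃ C : ℝ, 0 < C ∧ ∀ k : ℕ, C ≤ 2 ^ k → ∀ (g J₁ J₂ R j₀ g₀ : ℕ) (M : Multiset ℕ), 1 ≤ j₀ →
    J₁ ≤ J₂ → 2 * g ≤ J₁ → g₀ + 80 * (4 * k + 6) * j₀ + (J₂ - J₁) + 2 ≤ g → (∀ x ∈ M, j₀ ≤ x) →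
    (M.sum + g ≤ J₂ ∨ ∃ P b : ℕ, M = {P, b} ∧ b < P ∧ g ≤ P ∧ vis2 g (J₁ - (P + b)) b) →
    AsyI (C / 2 ^ k) J₁ J₂ R j₀ g₀ M

/-! ### Sieve weights in general form -/

/-- a system of sieve weights -/
structure Sv where
  /-- the truncation -/
  τ : ℕ
  /-- the smallest total -/
  J₁ : ℕ
  /-- the largest total -/
  J₂ : ℕ
  /-- the weights -/
  yy : Multiset ℕ → ℝ
  /-- the good cells -/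
  G : Multiset ℕ → Prop

/-- the sum over all divisors -/
def Sv.T (s : Sv) (M : Multiset ℕ) : ℝ := (M.powerset.map s.yy).sum

/-- the cells that are good or exceptional -/
def Sv.B (s : Sv) (M : Multiset ℕ) : Prop := s.G M ∨ Exc s.τ M

/-- admissible systems -/
def Sv.Wt (s : Sv) : Prop :=
  1 ≤ s.τ ∧ 2 * s.τ ≤ s.J₁ ∧ s.J₁ ≤ s.J₂ ∧ s.yy 0 = 1 ∧ (∀ M, |s.yy M| ≤ 100) ∧
  (∀ M, s.J₁ ≤ M.sum → s.yy M = 0) ∧ (∀ M, s.G M → 2 ≤ M.card) ∧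
  ∀ M : Multiset ℕ, s.J₁ ≤ M.sum → M.sum ≤ s.J₂ → 2 ≤ M.card → ¬s.B M → s.T M ≤ 0

/-- the loss -/
def Sv.L (s : Sv) (M : Multiset ℕ) : ℝ := if s.B M then 0 else max 0 (-s.T M)

/-- the sum of the first type -/
def Sv.TI (s : Sv) (y : ℝ) (j₀ R Z : ℕ) : ℝ :=
  ∑ S ∈ (PP y j₀ (s.J₂ + 1)).powerset, s.yy (im y S) *
    ∑ m ∈ Sq (pA s.J₁ y (im y S).sum) (pB s.J₂ y R (im y S).sum) with Rough (y ^ j₀) (nm m),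
      ww Z ((∏ π ∈ S, π) * m)

/-- a sum over the sets of primes with total index in the range -/
def Sv.sc (s : Sv) (y : ℝ) (j₀ Z : ℕ) (F : Multiset ℕ → ℝ) : ℝ :=
  ∑ S ∈ NS y j₀ (s.J₂ + 1) with s.J₁ ≤ (im y S).sum ∧ (im y S).sum ≤ s.J₂,
    F (im y S) * ww Z (∏ π ∈ S, π)

/-- the discrete form of the loss -/
def Sv.ls (s : Sv) (j₀ J' R J : ℕ) : ℝ :=
  ∑ r ∈ range (R + 1), (∑ jv ∈ (Fintype.piFinset fun _ : Fin r => Ico j₀ J') with ∑ i, jv i = J,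
    s.L (vm jv) * ∏ i, 1 / (jv i : ℝ)) / r.factorial

/-- all divisors with a weight are visible -/
def Sv.Vis (s : Sv) (η : ℝ) (R j₀ g₀ : ℕ) : Prop :=
  ∀ M, s.yy M ≠ 0 → (∀ x ∈ M, j₀ ≤ x) → AsyI η s.J₁ s.J₂ R j₀ g₀ M

/-- All sums of the first type. -/
def TIG : Prop :=
  ∃ C : ℝ, 0 < C ∧ ∀ (s : Sv) (η ε : ℝ) (j₀ R g₀ : ℕ), s.Wt → 0 ≤ η → 0 < ε → 1 ≤ j₀ →
    s.J₂ + 2 * R + 1 ≤ R * j₀ → s.Vis η R j₀ g₀ →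
    ∀ᶠ y : ℝ in atTop, ∀ Z : ℕ, 1 ≤ Z → (Z : ℝ) ≤ y ^ g₀ →
      |s.TI y j₀ R Z - s.TI y j₀ R 1| ≤ C * η * R * ((s.J₂ : ℝ) - s.J₁ + R + 2) / j₀ + ε

/-- The sum of the first type as a sum over sets of primes. -/
def IDG : Prop :=
  ∀ (s : Sv) (y : ℝ) (j₀ R Z : ℕ), s.Wt → 3 ≤ y → 1 ≤ j₀ → s.J₂ + 2 * R + 1 ≤ R * j₀ →
    |s.TI y j₀ R Z - 4 * s.sc y j₀ Z s.T| ≤
      100 * 2 ^ R * (NN (y ^ j₀) Z (y ^ (s.J₁ - 1)) (y ^ (s.J₂ + 2 * R + 1)) +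
        lay (y ^ j₀) Z (y ^ (s.J₁ - 1)) (y ^ (s.J₁ + R)) +
        lay (y ^ j₀) Z (y ^ s.J₂) (y ^ (s.J₂ + 2 * R + 1)))

/-- The sums over all sets of primes agree. -/
def CoG : Prop :=
  ∃ (c : ℕ) (C : ℝ), 0 < C ∧ ∀ (s : Sv) (η ε : ℝ) (j₀ R g₀ : ℕ), s.Wt → 0 ≤ η → 0 < ε → 1 ≤ j₀ →
    s.J₂ + 2 * R + 1 ≤ R * j₀ → g₀ + c * j₀ + 2 ≤ s.τ → s.Vis η R j₀ g₀ →
    ∀ᶠ y : ℝ in atTop, ∀ Z : ℕ, 1 ≤ Z → (Z : ℝ) ≤ y ^ g₀ →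
      |s.sc y j₀ Z s.T - s.sc y j₀ 1 s.T| ≤
        C * η * R * ((s.J₂ : ℝ) - s.J₁ + R + 2) / j₀ + C * 2 ^ R * R / j₀ + ε

/-- The exceptional sets. -/
def ExG : Prop :=
  ∃ (c : ℕ) (C : ℝ), 0 < C ∧ ∀ (s : Sv) (j₀ R g₀ : ℕ), s.Wt → 1 ≤ j₀ →
    s.J₂ + 2 * R + 1 ≤ R * j₀ → g₀ + c * j₀ ≤ s.τ →
    ∀ᶠ y : ℝ in atTop, ∀ Z : ℕ, 1 ≤ Z → (Z : ℝ) ≤ y ^ g₀ →
      (s.sc y j₀ Z fun M => if Exc s.τ M then |s.T M| else 0) ≤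
        C * 2 ^ R * (((s.J₂ : ℝ) - 2 * s.τ + R + 2) / j₀) ^ 2

/-- The sums over the good sets agree; the bad sets. -/
def GdG : Prop :=
  ∀ (s : Sv) (ε : ℝ) (j₀ R g₀ : ℕ), s.Wt → 0 < ε → 1 ≤ j₀ →
    s.J₂ + 2 * R + 1 ≤ R * j₀ → g₀ + j₀ + 2 ≤ s.τ → Asy s.G j₀ g₀ →
    ∀ᶠ y : ℝ in atTop, ∀ Z : ℕ, 1 ≤ Z → (Z : ℝ) ≤ y ^ g₀ →
      |(s.sc y j₀ Z fun M => if s.G M then s.T M else 0) -
        s.sc y j₀ 1 fun M => if s.G M then s.T M else 0| ≤ ε ∧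
      (s.sc y j₀ Z fun M => if s.B M then 0 else s.T M) ≤ ∑ π ∈ PP y s.J₁ (s.J₂ + 1), ww Z π

/-- The bad sets in the model. -/
def BdG : Prop :=
  ∀ (s : Sv) (ε : ℝ) (j₀ R : ℕ), s.Wt → 0 < ε → 1 ≤ j₀ → j₀ ≤ s.J₁ → s.J₂ + 2 * R + 1 ≤ R * j₀ →
    ∀ᶠ y : ℝ in atTop, ∑ J ∈ Icc s.J₁ s.J₂, (1 / ((J : ℝ) + 1) - s.ls j₀ (s.J₂ + 1) R J) - ε ≤
      s.sc y j₀ 1 fun M => if s.B M then 0 else s.T M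

/-! ### The certificate -/

/-- the parameters -/
structure Pq where
  /-- the exponent of the number of frequencies -/
  g : ℕ
  /-- the truncation of the function of Moebius -/
  τ : ℕ
  /-- the smallest total -/
  J₁ : ℕ
  /-- the largest total -/
  J₂ : ℕ

/-- admissible parameters -/
def Pq.OK (p : Pq) : Prop :=
  0 < p.g ∧ 6 * p.g ≤ 5 * p.τ ∧ 2 * p.τ ≤ p.J₁ ∧ p.J₁ ≤ p.J₂ ∧ 3 * p.J₂ < 8 * p.g ∧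
  13 * p.J₁ ≤ 13 * p.τ + 18 * p.g

/-- the pairs beyond the level -/
def Pq.row (p : Pq) (P b : ℕ) : Prop := p.g ≤ P ∧ P < p.τ ∧ vis2 p.g (p.J₁ - (P + b)) b

/-- the truncated function of Moebius -/
def Pq.y0 (p : Pq) (M : Multiset ℕ) : ℤ := if M.sum < p.τ then (-1) ^ M.card else 0

/-- the positive correction -/
def Pq.yV (p : Pq) (M : Multiset ℕ) : ℤ :=
  if M.card = 2 then (M.countP fun b => p.row (M.sum - b) b : ℕ) else 0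

/-- the number of visible members -/
def Pq.nn (p : Pq) (M : Multiset ℕ) : ℕ := M.countP fun b => vis2 p.g (M.sum - b) b

/-- the negative correction -/
def Pq.yY (p : Pq) (M : Multiset ℕ) : ℤ :=
  if 3 ≤ M.card ∧ p.τ ≤ M.sum ∧ M.sum + p.g ≤ p.J₂ ∧ ∀ b ∈ M, M.sum < p.g + b then
    (if Odd M.card then 2 * (max 1 (p.nn M) : ℕ) else 2 * (p.nn M : ℕ))
  else 0

/-- the sieve weight -/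
def Pq.yy (p : Pq) (M : Multiset ℕ) : ℤ := p.y0 M + 2 * p.yV M - p.yY M

/-- the system of weights -/
def Pq.sv (p : Pq) : Sv := ⟨p.τ, p.J₁, p.J₂, fun M => (p.yy M : ℝ), Good2 p.g⟩

/-- scaling of the parameters, with a shorter range of totals -/
def Pq.sc (q : Pq) (h J₂ : ℕ) : Pq := ⟨q.g * h, q.τ * h, q.J₁ * h, J₂⟩

/-- The sign of the weights, their support, and the truncated sum of Moebius. -/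
def Sign2St : Prop :=
  ∀ p : Pq, p.OK → p.sv.Wt ∧
    (∀ M, p.yy M ≠ 0 → M.sum + p.g ≤ p.J₂ ∨
      ∃ P b : ℕ, M = {P, b} ∧ b < P ∧ p.g ≤ P ∧ vis2 p.g (p.J₁ - (P + b)) b) ∧
    ∀ M : Multiset ℕ, p.J₁ ≤ M.sum → ¬Exc p.τ M →
      (Even M.card → (M.powerset.map p.y0).sum = 0) ∧
      ∀ (P : ℕ) (O : Multiset ℕ), M = P ::ₘ O → Odd M.card → (M.powerset.map p.y0).sum =
        (O.powerset.map fun S => if S.sum < p.τ then (-1 : ℤ) ^ S.card else -(-1) ^ S.card).sum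

/-- Where the loss lives. -/
def Str2St : Prop :=
  ∀ (p : Pq) (m : ℕ) (R : Multiset ℕ), p.OK → (∀ x ∈ R, m ≤ x) → p.J₁ ≤ m + R.sum →
    m + R.sum ≤ p.J₂ → ¬p.sv.B (m ::ₘ R) → p.sv.T (m ::ₘ R) < 0 →
    2 ≤ R.card ∧ R.card ≤ 9 ∧ 13 * p.J₁ < 13 * m + 31 * p.g ∧ ∀ x ∈ R, p.τ < p.g + x ∧ x < p.τ

/-- The loss is smaller than the main term. -/
def Loss2St (q : Pq) : Prop :=
  ∃ c : ℝ, 0 < c ∧ ∀ᶠ h : ℕ in atTop, ∀ J J₂ j₀ J' R : ℕ, q.J₁ * h ≤ J → J ≤ J₂ → J₂ ≤ q.J₂ * h →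
    1 ≤ j₀ → (q.sc h J₂).sv.ls j₀ J' R J ≤ (1 - c) / J

/-- The certificate exists. -/
def Cert2St : Prop :=
  ∃ q : Pq, q.OK ∧ q.J₁ < q.J₂ ∧ 2 * q.τ = q.J₁ ∧ 12 * q.g = 5 * q.J₁ ∧ Loss2St q

end

end Pool.Agent.Lib.MP_4b1228_nt.GS
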